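import Pool.Agent.H4R2.AE.Defs

/-! Choice of parameters (elementary estimates). -/

set_option autoImplicit false

open scoped BigOperators
open MeasureTheory

namespace Pool.Agent.H4R2.AE

/-- the scale: `√lam` in dimension 4, `lam` in dimension at least 5 -/
noncomputable def scale (d : ℕ) (lam : ℝ) : ℝ := if d = 4 then Real.sqrt lam else lam

namespace Arith

theorem scale_pos (d : ℕ) (lam : ℝ) (h : 0 < lam) : 0 < scale d lam := by
  unfold scale
  split_ifs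
  · exact Real.sqrt_pos.2 h
  · exact h

theorem scale_le (d : ℕ) (lam s0 : ℝ) (hs0 : 0 < s0) (hs1 : s0 ≤ 1)
    (hl : lam ≤ s0 ^ 2) : scale d lam ≤ s0 := by
  unfold scale
  split_ifs
  · rw [show s0 = Real.sqrt (s0 ^ 2) from (Real.sqrt_sq hs0.le).symm]
    exact Real.sqrt_le_sqrt hl
  · nlinarith

/-- the null set where some coordinate leaves `[-1, 1]` -/
theorem pi_real_inter {ι : Type} [Fintype ι] (μ : Measure ℝ) [IsProbabilityMeasure μ]
    (hμ : μ (Set.Icc (-1) 1)ᶜ = 0) (G : Set (ι → ℝ)) (hG : MeasurableSet G) (p : ℝ)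
    (hp : (Measure.pi fun _ : ι => μ).real Gᶜ ≤ p) :
    ∃ G' : Set (ι → ℝ), MeasurableSet G' ∧ 1 - p ≤ (Measure.pi fun _ : ι => μ).real G' ∧
      ∀ V ∈ G', V ∈ G ∧ ∀ x, |V x| ≤ 1 := by
  set P := Measure.pi fun _ : ι => μ
  let B : Set (ι → ℝ) := Set.pi Set.univ fun _ => Set.Icc (-1 : ℝ) 1
  have hB : MeasurableSet B := MeasurableSet.univ_pi fun _ => measurableSet_Icc
  have h1 : μ (Set.Icc (-1) 1) = 1 := by
    have := prob_add_prob_compl (μ := μ) (measurableSet_Icc (a := (-1 : ℝ)) (b := 1))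
    rwa [hμ, add_zero] at this
  have hPB : P B = 1 := by
    show (Measure.pi fun _ : ι => μ) (Set.pi Set.univ fun _ => Set.Icc (-1 : ℝ) 1) = 1
    rw [Measure.pi_pi]
    simp [h1]
  have hPBc : P.real Bᶜ = 0 := by
    rw [measureReal_def, prob_compl_eq_zero_iff hB |>.2 hPB]
    rfl
  refine ⟨G ∩ B, hG.inter hB, ?_, fun V hV => ⟨hV.1, fun x => abs_le.2 (hV.2 x (Set.mem_univ x))⟩⟩
  have h2 : P.real (G ∩ B)ᶜ ≤ p := by
    rw [Set.compl_inter]
    calc P.real (Gᶜ ∪ Bᶜ) ≤ P.real Gᶜ + P.real Bᶜ := measureReal_union_le _ _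
      _ ≤ p := by rw [hPBc]; linarith
  have h3 : P.real (G ∩ B) = 1 - P.real (G ∩ B)ᶜ := by
    have := probReal_add_probReal_compl (μ := P) (hG.inter hB)
    linarith
  rw [h3]
  linarith

theorem four_le : (4 : ℝ) ≤ Real.exp 2 := by
  have := Real.add_one_le_exp (1 : ℝ)
  have h5 : Real.exp 2 = Real.exp 1 * Real.exp 1 := by rw [← Real.exp_add]; norm_num
  rw [h5]; nlinarith

theorem arith_five (d : ℕ) (η Γ : ℝ) (hη : 0 < η) (hΓ : 0 < Γ) :
    ∃ c : ℝ, 0 < c ∧ ∀ lam : ℝ, 0 < lam → lam ≤ c → ∀ L : ℕ, (L : ℝ) ≤ Real.exp (c / lam) →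
      4 * (L : ℝ) ^ d * Real.exp (-η / (640 * (2 * (d : ℝ) + 1) * Γ * lam)) ≤
        Real.exp (-c / lam) := by
  set K : ℝ := 640 * (2 * (d : ℝ) + 1) * Γ with hK
  have hKpos : 0 < K := by positivity
  refine ⟨η / (K * (d + 3)), by positivity, ?_⟩
  intro lam hlam hlamc L hL
  set c : ℝ := η / (K * (d + 3)) with hc
  have hcpos : 0 < c := by positivity
  have h1 : (L : ℝ) ^ d ≤ Real.exp (d * (c / lam)) := by
    calc (L : ℝ) ^ d ≤ Real.exp (c / lam) ^ d := pow_le_pow_left₀ (by positivity) hL d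
      _ = Real.exp (d * (c / lam)) := by rw [← Real.exp_nat_mul]
  have h6 : (2 : ℝ) ≤ 2 * (c / lam) := by
    have : 1 ≤ c / lam := by rwa [le_div_iff₀ hlam, one_mul]
    linarith
  have h7 : -η / (640 * (2 * (d : ℝ) + 1) * Γ * lam) = -((d + 3) * (c / lam)) := by
    rw [hc, hK]
    field_simp
  calc 4 * (L : ℝ) ^ d * Real.exp (-η / (640 * (2 * (d : ℝ) + 1) * Γ * lam))
      ≤ Real.exp (2 * (c / lam)) * Real.exp (d * (c / lam)) * Real.exp (-((d + 3) * (c / lam))) := by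
        rw [h7]
        gcongr
        exact four_le.trans (Real.exp_le_exp.2 h6)
    _ = Real.exp (-c / lam) := by
        rw [← Real.exp_add, ← Real.exp_add]
        congr 1
        ring

theorem arith_four (η C : ℝ) (hη : 0 < η) (hC : 0 < C) :
    ∃ c : ℝ, 0 < c ∧ ∀ lam : ℝ, 0 < lam → lam ≤ c → ∀ L : ℕ, 1 ≤ L →
      (L : ℝ) ≤ Real.exp (c / Real.sqrt lam) →
      4 * (L : ℝ) ^ 4 * Real.exp (-η / (640 * (2 * ((4 : ℕ) : ℝ) + 1) *
        (C * (1 + Real.log (L : ℝ))) * lam)) ≤ Real.exp (-c / Real.sqrt lam) := by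
  set K : ℝ := 640 * (2 * ((4 : ℕ) : ℝ) + 1) * C with hK
  have hKpos : 0 < K := by positivity
  set c : ℝ := min 1 (η / (14 * K)) with hc
  have hcpos : 0 < c := by positivity
  have hc1 : c ≤ 1 := min_le_left _ _
  have hc2 : 14 * K * c ^ 2 ≤ η := by
    have h1 : c ≤ η / (14 * K) := min_le_right _ _
    have h2 : c ^ 2 ≤ η / (14 * K) := by nlinarith
    calc 14 * K * c ^ 2 ≤ 14 * K * (η / (14 * K)) := by gcongr
      _ = η := by field_simp
  refine ⟨c ^ 2, by positivity, ?_⟩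
  intro lam hlam hlamc L hL0 hL
  have hs : 0 < Real.sqrt lam := Real.sqrt_pos.2 hlam
  have hsq : Real.sqrt lam ^ 2 = lam := Real.sq_sqrt hlam.le
  have hsc : Real.sqrt lam ≤ c := by
    rw [show c = Real.sqrt (c ^ 2) from (Real.sqrt_sq hcpos.le).symm]
    exact Real.sqrt_le_sqrt hlamc
  set s := Real.sqrt lam with hsdef
  have hcc : c ^ 2 / s ≤ c / s := by
    gcongr
    nlinarith
  have hL1 : (1 : ℝ) ≤ (L : ℝ) := by exact_mod_cast hL0
  have hlogL : Real.log L ≤ c / s := by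
    have := Real.log_le_log (by linarith) (hL.trans (Real.exp_le_exp.2 hcc))
    rwa [Real.log_exp] at this
  have hlogL0 : 0 ≤ Real.log L := Real.log_nonneg hL1
  have hone : 1 ≤ c / s := by rwa [le_div_iff₀ hs, one_mul]
  set Γ : ℝ := C * (1 + Real.log (L : ℝ)) with hΓdef
  have hΓ : 0 < Γ := by positivity
  have hΓle : Γ ≤ C * (2 * (c / s)) := by
    rw [hΓdef]
    gcongr
    linarith
  have h1 : (L : ℝ) ^ 4 ≤ Real.exp (4 * (c / s)) := by
    calc (L : ℝ) ^ 4 ≤ Real.exp (c / s) ^ 4 :=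
          pow_le_pow_left₀ (by positivity) (hL.trans (Real.exp_le_exp.2 hcc)) 4
      _ = Real.exp (4 * (c / s)) := by rw [← Real.exp_nat_mul]; norm_num
  have h7 : 7 * (c / s) ≤ η / (640 * (2 * ((4 : ℕ) : ℝ) + 1) * Γ * lam) := by
    have hden : 640 * (2 * ((4 : ℕ) : ℝ) + 1) * Γ * lam ≤ 2 * K * c * s := by
      have e1 : 640 * (2 * ((4 : ℕ) : ℝ) + 1) * Γ * lam ≤
          640 * (2 * ((4 : ℕ) : ℝ) + 1) * (C * (2 * (c / s))) * lam := by gcongr
      refine e1.trans (le_of_eq ?_)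
      rw [hK, ← hsq]
      field_simp
    calc 7 * (c / s) = (14 * K * c ^ 2) / (2 * K * c * s) := by field_simp; ring
      _ ≤ η / (2 * K * c * s) := by gcongr
      _ ≤ η / (640 * (2 * ((4 : ℕ) : ℝ) + 1) * Γ * lam) := by gcongr
  calc 4 * (L : ℝ) ^ 4 * Real.exp (-η / (640 * (2 * ((4 : ℕ) : ℝ) + 1) * Γ * lam))
      ≤ Real.exp (2 * (c / s)) * Real.exp (4 * (c / s)) * Real.exp (-(7 * (c / s))) := by
        gcongr
        · exact four_le.trans (Real.exp_le_exp.2 (by linarith))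
        · rw [neg_div]
          linarith
    _ = Real.exp (-(c / s)) := by
        rw [← Real.exp_add, ← Real.exp_add]
        congr 1
        ring
    _ ≤ Real.exp (-c ^ 2 / s) := by
        rw [neg_div]
        exact Real.exp_le_exp.2 (by linarith)

/-- `Γ` used in dimension `d` on the torus of side `L` -/
noncomputable def Gam (d : ℕ) (C : ℝ) (L : ℕ) : ℝ :=
  if d = 4 then C * (1 + Real.log (L : ℝ)) else C

theorem Gam_ge (d : ℕ) (C : ℝ) (hC : 0 < C) (L : ℕ) (hL : 1 ≤ L) : C ≤ Gam d C L := by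
  unfold Gam
  split_ifs
  · have : 0 ≤ Real.log (L : ℝ) := Real.log_nonneg (by exact_mod_cast hL)
    nlinarith
  · exact le_rfl

theorem Gam_le (d : ℕ) (C : ℝ) (hC : 0 < C) (L : ℕ) (hL : 1 ≤ L) :
    Gam d C L ≤ C * (1 + Real.log (L : ℝ)) := by
  unfold Gam
  split_ifs
  · exact le_rfl
  · have : 0 ≤ Real.log (L : ℝ) := Real.log_nonneg (by exact_mod_cast hL)
    nlinarith

/-- both dimensions together -/
theorem arith (d : ℕ) (η C : ℝ) (hη : 0 < η) (hC : 0 < C) :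
    ∃ c : ℝ, 0 < c ∧ ∀ lam : ℝ, 0 < lam → lam ≤ c → ∀ L : ℕ, 1 ≤ L →
      (L : ℝ) ≤ Real.exp (c / scale d lam) →
      4 * (L : ℝ) ^ d * Real.exp (-η / (640 * (2 * (d : ℝ) + 1) * Gam d C L * lam)) ≤
        Real.exp (-c / scale d lam) := by
  by_cases h : d = 4
  · subst h
    obtain ⟨c, hc, H⟩ := arith_four η C hη hC
    refine ⟨c, hc, fun lam h1 h2 L h3 h4 => ?_⟩
    simpa [scale, Gam] using H lam h1 h2 L h3 (by simpa [scale] using h4)
  · obtain ⟨c, hc, H⟩ := arith_five d η C hη hC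
    refine ⟨c, hc, fun lam h1 h2 L h3 h4 => ?_⟩
    simpa [scale, Gam, h] using H lam h1 h2 L (by simpa [scale, h] using h4)

end Arith
end Pool.Agent.H4R2.AE
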