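import Pool.Agent.H4R2.AE.Arith

/-! Choice of parameters for the sharp scale. -/

set_option autoImplicit false

open scoped BigOperators
open MeasureTheory

namespace Pool.Agent.H4R2.AE

/-- the sharp scale: `lam` in dimension 4, `lam ^ (d/2)` in dimension at least 5 -/
noncomputable def scaleS (d : ℕ) (lam : ℝ) : ℝ := if d = 4 then lam else Real.sqrt lam ^ d

namespace Arith2

theorem scaleS_pos (d : ℕ) (lam : ℝ) (h : 0 < lam) : 0 < scaleS d lam := by
  unfold scaleS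
  split_ifs
  · exact h
  · exact pow_pos (Real.sqrt_pos.2 h) d

theorem scaleS_le (d : ℕ) (hd : 1 ≤ d) (lam s0 : ℝ) (hs0 : 0 < s0) (hs1 : s0 ≤ 1)
    (hl : lam ≤ s0 ^ 2) : scaleS d lam ≤ s0 := by
  unfold scaleS
  have h1 : Real.sqrt lam ≤ s0 := by
    rw [show s0 = Real.sqrt (s0 ^ 2) from (Real.sqrt_sq hs0.le).symm]
    exact Real.sqrt_le_sqrt hl
  split_ifs
  · nlinarith
  · calc Real.sqrt lam ^ d ≤ Real.sqrt lam ^ 1 :=
          pow_le_pow_of_le_one (Real.sqrt_nonneg _) (h1.trans hs1) hd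
      _ ≤ s0 := by rw [pow_one]; exact h1

/-- the exponent `p = d / (d - 2)` -/
noncomputable def pe (d : ℕ) : ℝ := (d : ℝ) / ((d : ℝ) - 2)

theorem pe_four : pe 4 = 2 := by unfold pe; norm_num

theorem pe_gt_one (d : ℕ) (hd : 3 ≤ d) : 1 < pe d := by
  have h : (3 : ℝ) ≤ d := by exact_mod_cast hd
  unfold pe
  rw [lt_div_iff₀ (by linarith)]
  linarith

theorem pe_lt_two (d : ℕ) (hd : 5 ≤ d) : pe d < 2 := by
  have h : (5 : ℝ) ≤ d := by exact_mod_cast hd
  unfold pe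
  rw [div_lt_iff₀ (by linarith)]
  linarith

/-- single site bound for `d ≥ 5` -/
theorem site_five (d : ℕ) (hd : 5 ≤ d) (R δ : ℝ) (hR : 0 ≤ R) (hδ : 0 < δ) :
    ∃ b : ℝ, 0 < b ∧ ∀ lam : ℝ, 0 < lam → ∃ θ : ℝ, 0 < θ ∧
      -(θ * δ) + R * (6 * lam * θ) ^ pe d / (pe d - 1) ≤ -b / scaleS d lam := by
  have hp := pe_gt_one d (by omega)
  have hd4 : ¬ d = 4 := by omega
  have hdr : (5 : ℝ) ≤ d := by exact_mod_cast hd
  set p := pe d with hpd
  have hp1 : 0 < p - 1 := by linarith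
  -- choose a
  set K : ℝ := R * 6 ^ p / (p - 1) with hK
  have hK0 : 0 ≤ K := by positivity
  set a : ℝ := (δ / (2 * (K + 1))) ^ (1 / (p - 1)) with ha
  have hapos : 0 < a := by positivity
  have hap : a ^ (p - 1) = δ / (2 * (K + 1)) := by
    rw [ha, ← Real.rpow_mul (by positivity), one_div, inv_mul_cancel₀ hp1.ne', Real.rpow_one]
  refine ⟨a * δ / 2, by positivity, ?_⟩
  intro lam hlam
  have hs : 0 < Real.sqrt lam := Real.sqrt_pos.2 hlam
  have hsq : Real.sqrt lam ^ 2 = lam := Real.sq_sqrt hlam.le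
  have hσ : scaleS d lam = Real.sqrt lam ^ d := by simp [scaleS, hd4]
  rw [hσ]
  set s := Real.sqrt lam with hsd
  have hsdpos : 0 < s ^ d := pow_pos hs d
  refine ⟨a / s ^ d, by positivity, ?_⟩
  have e1 : (6 * lam * (a / s ^ d)) ^ p = 6 ^ p * a ^ p * (1 / s ^ d) := by
    have e2 : 6 * lam * (a / s ^ d) = 6 * a * (lam / s ^ d) := by ring
    rw [e2, Real.mul_rpow (by positivity) (by positivity), Real.mul_rpow (by norm_num) hapos.le]
    congr 1
    have e3 : lam / s ^ d = s ^ (-((d : ℝ) - 2)) := by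
      rw [Real.rpow_neg hs.le, Real.rpow_sub hs, Real.rpow_natCast, Real.rpow_two, hsq]
      field_simp
    rw [e3, ← Real.rpow_mul hs.le, hpd]
    have e4 : -((d : ℝ) - 2) * pe d = -(d : ℝ) := by
      have hd2 : (d : ℝ) - 2 ≠ 0 := by linarith
      have h7 : ((d : ℝ) - 2) * ((d : ℝ) / ((d : ℝ) - 2)) = d := mul_div_cancel₀ _ hd2
      unfold pe
      linarith
    rw [e4, Real.rpow_neg hs.le, Real.rpow_natCast, one_div]
  have e5 : a ^ p = a * a ^ (p - 1) := by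
    rw [← Real.rpow_one_add' hapos.le (by linarith)]
    congr 1
    ring
  rw [e1, e5, hap]
  have e6 : R * (6 ^ p * (a * (δ / (2 * (K + 1)))) * (1 / s ^ d)) / (p - 1) =
      K / (K + 1) * (a * δ / 2) * (1 / s ^ d) := by
    rw [hK]
    have h1 : R * 6 ^ p / (p - 1) + 1 ≠ 0 := by
      rw [← hK]
      linarith
    field_simp
  rw [e6]
  have e7 : K / (K + 1) ≤ 1 := by
    rw [div_le_one (by linarith)]
    linarith
  have e8 : K / (K + 1) * (a * δ / 2) * (1 / s ^ d) ≤ 1 * (a * δ / 2) * (1 / s ^ d) := by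
    gcongr
  have e9 : -(a / s ^ d * δ) = -(2 * (a * δ / 2) * (1 / s ^ d)) := by
    field_simp
  have e10 : -(a * δ / 2) / s ^ d = -((a * δ / 2) * (1 / s ^ d)) := by
    field_simp
  rw [e9, e10]
  linarith

/-- single site bound for `d = 4` -/
theorem site_four (A δ : ℝ) (hA : 0 < A) (hδ : 0 < δ) :
    ∃ b : ℝ, 0 < b ∧ b ≤ 1 ∧ ∀ lam : ℝ, 0 < lam → lam ≤ b → ∀ L : ℕ, 1 ≤ L →
      (L : ℝ) ≤ Real.exp (b / lam) → ∃ θ : ℝ, 0 < θ ∧
      -(θ * δ) + A * (1 + 4 * Real.log (L : ℝ)) * (6 * lam * θ) ^ (2 : ℝ) / (2 - 1) ≤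
        -(δ / 2) / lam := by
  refine ⟨min 1 (δ / (360 * A)), by positivity, min_le_left _ _, ?_⟩
  intro lam hlam hlamb L hL1 hL
  set b := min 1 (δ / (360 * A)) with hb
  have hbpos : 0 < b := by positivity
  have hb2 : 360 * A * b ≤ δ := by
    have h := min_le_right 1 (δ / (360 * A))
    rw [← hb, le_div_iff₀ (by positivity)] at h
    linarith
  have hL1' : (1 : ℝ) ≤ L := by exact_mod_cast hL1
  have hlogL : Real.log L ≤ b / lam := by
    have := Real.log_le_log (by linarith) hL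
    rwa [Real.log_exp] at this
  have hone : 1 ≤ b / lam := by rwa [le_div_iff₀ hlam, one_mul]
  have hlogL0 : 0 ≤ Real.log L := Real.log_nonneg hL1'
  refine ⟨1 / lam, by positivity, ?_⟩
  have e1 : 6 * lam * (1 / lam) = 6 := by field_simp
  rw [e1]
  have e2 : (6 : ℝ) ^ (2 : ℝ) = 36 := by
    rw [Real.rpow_two]; norm_num
  rw [e2]
  have e3 : A * (1 + 4 * Real.log (L : ℝ)) * 36 / (2 - 1) ≤ A * (5 * (b / lam)) * 36 := by
    have : 1 + 4 * Real.log (L : ℝ) ≤ 5 * (b / lam) := by linarith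
    have h2 : A * (1 + 4 * Real.log (L : ℝ)) ≤ A * (5 * (b / lam)) := by gcongr
    norm_num
    linarith
  have e4 : A * (5 * (b / lam)) * 36 ≤ (δ / 2) / lam := by
    have : A * (5 * (b / lam)) * 36 = (360 * A * b) / 2 / lam := by ring
    rw [this]
    gcongr
  have e5 : -(1 / lam * δ) = -(δ / 2) / lam - (δ / 2) / lam := by ring
  rw [e5]
  linarith

/-- union bound -/
theorem union (d : ℕ) (b : ℝ) : ∀ c : ℝ, 0 < c → (d + 2) * c ≤ b →
    ∀ σ : ℝ, 0 < σ → σ ≤ c → ∀ L : ℕ, (L : ℝ) ≤ Real.exp (c / σ) → ∀ e : ℝ, e ≤ -b / σ →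
    (L : ℝ) ^ d * (2 * Real.exp e) ≤ Real.exp (-c / σ) := by
  intro c hc hcb σ hσ hσc L hL e he
  have h1 : (L : ℝ) ^ d ≤ Real.exp (d * (c / σ)) := by
    calc (L : ℝ) ^ d ≤ Real.exp (c / σ) ^ d := pow_le_pow_left₀ (by positivity) hL d
      _ = Real.exp (d * (c / σ)) := by rw [← Real.exp_nat_mul]
  have h2 : (2 : ℝ) ≤ Real.exp (c / σ) := by
    have h3 : 1 ≤ c / σ := by rwa [le_div_iff₀ hσ, one_mul]
    have := Real.add_one_le_exp (c / σ)
    linarith
  calc (L : ℝ) ^ d * (2 * Real.exp e)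
      ≤ Real.exp (d * (c / σ)) * (Real.exp (c / σ) * Real.exp (-b / σ)) := by gcongr
    _ = Real.exp (d * (c / σ) + (c / σ + -b / σ)) := by rw [Real.exp_add, Real.exp_add]
    _ ≤ Real.exp (-c / σ) := by
        apply Real.exp_le_exp.2
        have h4 : (d + 2) * (c / σ) ≤ b / σ := by
          rw [← mul_div_assoc]
          gcongr
        have h5 : -b / σ = -(b / σ) := by ring
        have h6 : -c / σ = -(c / σ) := by ring
        rw [h5, h6]
        linarith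

end Arith2
end Pool.Agent.H4R2.AE
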