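import Pool.Agent.H4R2.AE.Defs

/-! AVG : time averages of a unitary group (abstract Hilbert space). Proof written by helper793. -/

set_option autoImplicit false

open scoped BigOperators
open MeasureTheory

namespace Pool.Agent.H4R2.AE
namespace Avg

section grp

variable {F : Type} [NormedAddCommGroup F] [InnerProductSpace ℂ F] [CompleteSpace F]

/-- the one-parameter group with generator `C` -/
noncomputable def W (C : F →L[ℂ] F) (t : ℝ) : F →L[ℂ] F := NormedSpace.exp ((t : ℂ) • C)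

theorem hasDeriv_W (C : F →L[ℂ] F) (x : F) (t : ℝ) :
    HasDerivAt (fun s : ℝ => W C s x) (W C t (C x)) t := by
  have h1 : HasDerivAt (fun u : ℂ => NormedSpace.exp (u • C))
      (NormedSpace.exp ((t : ℂ) • C) * C) (t : ℂ) := hasDerivAt_exp_smul_const C (t : ℂ)
  have h2 : HasDerivAt (fun u : ℂ => (NormedSpace.exp (u • C)) x)
      ((NormedSpace.exp ((t : ℂ) • C) * C) x) (t : ℂ) :=
    ((ContinuousLinearMap.apply ℂ F x).hasFDerivAt.comp_hasDerivAt (t : ℂ) h1)
  have h3 : HasDerivAt (fun s : ℝ => (s : ℂ)) 1 t := Complex.ofRealCLM.hasDerivAt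
  have h4 := HasDerivAt.scomp t h2 h3
  rw [one_smul] at h4
  exact h4

theorem cont_W (C : F →L[ℂ] F) (x : F) : Continuous (fun s : ℝ => W C s x) :=
  continuous_iff_continuousAt.2 fun t => (hasDeriv_W C x t).continuousAt

theorem W_zero (C : F →L[ℂ] F) : W C 0 = 1 := by
  simp [W]

theorem W_mem (C : F →L[ℂ] F) (hC : star C = -C) (t : ℝ) : W C t ∈ unitary (F →L[ℂ] F) := by
  let _ : NormedAlgebra ℚ (F →L[ℂ] F) := NormedAlgebra.restrictScalars ℚ ℂ (F →L[ℂ] F)
  apply NormedSpace.exp_mem_unitary_of_mem_skewAdjoint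
  rw [skewAdjoint.mem_iff, star_smul, hC]
  simp

theorem W_norm (C : F →L[ℂ] F) (hC : star C = -C) (t : ℝ) (x : F) : ‖W C t x‖ = ‖x‖ :=
  ContinuousLinearMap.norm_map_of_mem_unitary (W_mem C hC t) x

theorem W_fix (C : F →L[ℂ] F) (ψ : F) (hψ : C ψ = 0) (t : ℝ) : W C t ψ = ψ := by
  have h1 : ∀ s : ℝ, HasDerivAt (fun s : ℝ => W C s ψ) 0 s := by
    intro s
    have h := hasDeriv_W C ψ s
    rwa [hψ, map_zero] at h
  have h2 := is_const_of_deriv_eq_zero (fun s => (h1 s).differentiableAt)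
    (fun s => (h1 s).deriv) t 0
  simpa [W_zero] using h2

theorem W_inner (C : F →L[ℂ] F) (hC : star C = -C) (ψ : F) (hψ : C ψ = 0) (t : ℝ) (x : F) :
    inner ℂ ψ (W C t x) = inner ℂ ψ x := by
  have h := ContinuousLinearMap.inner_map_map_of_mem_unitary (W_mem C hC t) ψ x
  rwa [W_fix C ψ hψ t] at h

theorem W_phase (A : F →L[ℂ] F) (E0 t : ℝ) :
    W ((-Complex.I) • (A - (E0 : ℂ) • (1 : F →L[ℂ] F))) t =
      Complex.exp ((t : ℂ) * E0 * Complex.I) • NormedSpace.exp ((-(t : ℂ) * Complex.I) • A) := by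
  let _ : NormedAlgebra ℚ (F →L[ℂ] F) := NormedAlgebra.restrictScalars ℚ ℂ (F →L[ℂ] F)
  have h1 : (t : ℂ) • ((-Complex.I) • (A - (E0 : ℂ) • (1 : F →L[ℂ] F))) =
      algebraMap ℂ (F →L[ℂ] F) ((t : ℂ) * E0 * Complex.I) + (-(t : ℂ) * Complex.I) • A := by
    rw [Algebra.algebraMap_eq_smul_one]
    module
  have h2 : Commute (algebraMap ℂ (F →L[ℂ] F) ((t : ℂ) * E0 * Complex.I))
      ((-(t : ℂ) * Complex.I) • A) := Algebra.commutes _ _
  unfold W
  rw [h1, NormedSpace.exp_add_of_commute h2, ← NormedSpace.algebraMap_exp_comm,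
    ← Complex.exp_eq_exp_ℂ, ← Algebra.smul_def]

end grp

theorem avg {F : Type} [NormedAddCommGroup F] [InnerProductSpace ℂ F] [CompleteSpace F]
    (A : F →L[ℂ] F) (hA : IsSelfAdjoint A) (τ : ℝ) (hτ : 0 < τ) (a ψ R : F) (E0 : ℝ)
    (hψ : A ψ = (E0 : ℂ) • ψ) (hR : A R - (E0 : ℂ) • R + ((1 / τ : ℝ) : ℂ) • R = a) :
    ∃ φ : F, ‖φ‖ ≤ 3 / τ * ‖R‖ ∧ inner ℂ ψ φ = inner ℂ ψ a ∧
      ∀ (l : F →L[ℂ] ℂ) (q : ℝ), (∀ t ∈ Set.Icc (0 : ℝ) τ,
        ‖l (NormedSpace.exp ((-(t : ℂ) * Complex.I) • A) a)‖ ≤ q) → ‖l φ‖ ≤ q := by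
  have hτ' : (τ : ℂ) ≠ 0 := by exact_mod_cast hτ.ne'
  set C : F →L[ℂ] F := (-Complex.I) • (A - (E0 : ℂ) • (1 : F →L[ℂ] F)) with hCdef
  have hC : star C = -C := by
    rw [hCdef, star_smul, star_sub, hA.star_eq, star_smul, star_one]
    simp
  have hCψ : C ψ = 0 := by
    simp [hCdef, hψ]
  have hint : ∀ x : F, IntervalIntegrable (fun s : ℝ => W C s x) volume 0 τ :=
    fun x => (cont_W C x).intervalIntegrable _ _
  refine ⟨((1 / τ : ℝ) : ℂ) • ∫ s in (0 : ℝ)..τ, W C s a, ?_, ?_, ?_⟩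
  · -- norm bound
    have haR : a = Complex.I • C R + ((1 / τ : ℝ) : ℂ) • R := by
      rw [← hR, hCdef]
      have : Complex.I • ((-Complex.I) • (A - (E0 : ℂ) • (1 : F →L[ℂ] F))) R =
          A R - (E0 : ℂ) • R := by
        rw [smul_apply, smul_smul]
        simp
      rw [this]
    have h1 : ∀ s : ℝ, W C s a = Complex.I • W C s (C R) + ((1 / τ : ℝ) : ℂ) • W C s R := by
      intro s
      conv_lhs => rw [haR]
      rw [map_add, map_smul, map_smul]
    have h2 : ∫ s in (0 : ℝ)..τ, W C s (C R) = W C τ R - R := by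
      rw [intervalIntegral.integral_eq_sub_of_hasDerivAt (fun s _ => hasDeriv_W C R s) (hint _)]
      simp [W_zero]
    have h3 : ∫ s in (0 : ℝ)..τ, W C s a =
        Complex.I • (W C τ R - R) + ((1 / τ : ℝ) : ℂ) • ∫ s in (0 : ℝ)..τ, W C s R := by
      have h8 : IntervalIntegrable (fun s : ℝ => Complex.I • W C s (C R)) volume 0 τ :=
        ((cont_W C (C R)).const_smul Complex.I).intervalIntegrable _ _
      have h9 : IntervalIntegrable (fun s : ℝ => ((1 / τ : ℝ) : ℂ) • W C s R) volume 0 τ :=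
        ((cont_W C R).const_smul ((1 / τ : ℝ) : ℂ)).intervalIntegrable _ _
      rw [← h2, ← intervalIntegral.integral_smul, ← intervalIntegral.integral_smul,
        ← intervalIntegral.integral_add h8 h9]
      exact intervalIntegral.integral_congr fun s _ => h1 s
    have h4 : ‖∫ s in (0 : ℝ)..τ, W C s R‖ ≤ ‖R‖ * τ := by
      have h := intervalIntegral.norm_integral_le_of_norm_le_const (a := (0 : ℝ)) (b := τ)
        (f := fun s => W C s R) (C := ‖R‖) (fun s _ => (W_norm C hC s R).le)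
      rwa [sub_zero, abs_of_pos hτ] at h
    have h5 : ‖∫ s in (0 : ℝ)..τ, W C s a‖ ≤ 3 * ‖R‖ := by
      rw [h3]
      refine (norm_add_le _ _).trans ?_
      rw [norm_smul, norm_smul, Complex.norm_I, one_mul, Complex.norm_real, Real.norm_eq_abs,
        abs_of_pos (by positivity)]
      have h6 : ‖W C τ R - R‖ ≤ ‖R‖ + ‖R‖ :=
        (norm_sub_le _ _).trans (by rw [W_norm C hC])
      have h7 : 1 / τ * ‖∫ s in (0 : ℝ)..τ, W C s R‖ ≤ ‖R‖ := by
        rw [one_div, inv_mul_le_iff₀ hτ]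
        linarith
      linarith
    rw [norm_smul, Complex.norm_real, Real.norm_eq_abs, abs_of_pos (by positivity)]
    calc 1 / τ * ‖∫ s in (0 : ℝ)..τ, W C s a‖ ≤ 1 / τ * (3 * ‖R‖) := by gcongr
      _ = 3 / τ * ‖R‖ := by ring
  · -- inner product
    have h1 : ∫ s in (0 : ℝ)..τ, inner ℂ ψ (W C s a) =
        inner ℂ ψ (∫ s in (0 : ℝ)..τ, W C s a) :=
      (innerSL ℂ ψ).intervalIntegral_comp_comm (hint a)
    rw [inner_smul_right, ← h1]
    have h2 : ∫ s in (0 : ℝ)..τ, inner ℂ ψ (W C s a) = ∫ _s in (0 : ℝ)..τ, inner ℂ ψ a :=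
      intervalIntegral.integral_congr fun s _ => W_inner C hC ψ hCψ s a
    rw [h2, intervalIntegral.integral_const, sub_zero, Complex.real_smul]
    push_cast
    field_simp
  · intro l q hq
    have h1 : ∫ s in (0 : ℝ)..τ, l (W C s a) = l (∫ s in (0 : ℝ)..τ, W C s a) :=
      l.intervalIntegral_comp_comm (hint a)
    rw [map_smul, ← h1, norm_smul, Complex.norm_real, Real.norm_eq_abs,
      abs_of_pos (by positivity)]
    have h2 : ‖∫ s in (0 : ℝ)..τ, l (W C s a)‖ ≤ q * |τ - 0| := by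
      apply intervalIntegral.norm_integral_le_of_norm_le_const
      intro s hs
      rw [Set.uIoc_of_le hτ.le] at hs
      have h3 : W C s a = Complex.exp ((s : ℂ) * E0 * Complex.I) •
          (NormedSpace.exp ((-(s : ℂ) * Complex.I) • A)) a := by
        rw [hCdef, W_phase]
        rfl
      rw [h3, map_smul, norm_smul]
      have h4 : ‖Complex.exp ((s : ℂ) * E0 * Complex.I)‖ = 1 := by
        have : (s : ℂ) * E0 * Complex.I = ((s * E0 : ℝ) : ℂ) * Complex.I := by push_cast; ring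
        rw [this, Complex.norm_exp_ofReal_mul_I]
      rw [h4, one_mul]
      exact hq s ⟨hs.1.le, hs.2⟩
    rw [sub_zero, abs_of_pos hτ] at h2
    rw [one_div, inv_mul_le_iff₀ hτ]
    linarith

end Avg
end Pool.Agent.H4R2.AE
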