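import Pool.Agent.H4R2.AE.Defs

/-! Existence and uniqueness of the bounded operator `-Δ + lam ω` on `ℓ²(ℤ^d)` for bounded `ω`. -/

set_option autoImplicit false

open scoped BigOperators ENNReal
open MeasureTheory

namespace Pool.Agent.H4R2.AE
namespace Exist

theorem exists_op {ι : Type} (e : ι → ι) (he : Function.Injective e) (b : ι → ℂ) (C : ℝ)
    (hC : 0 ≤ C) (hb : ∀ x, ‖b x‖ ≤ C) :
    ∃ A : lp (fun _ : ι => ℂ) 2 →L[ℂ] lp (fun _ : ι => ℂ) 2, ∀ f x, (A f) x = b x * f (e x) := by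
  have hsum : ∀ f : lp (fun _ : ι => ℂ) 2, Summable fun x => ‖f x‖ ^ (2 : ℝ) := by
    intro f
    have := (lp.memℓp f).summable (by norm_num : 0 < (2 : ℝ≥0∞).toReal)
    simpa using this
  have hle : ∀ (f : lp (fun _ : ι => ℂ) 2) (x : ι),
      ‖b x * f (e x)‖ ^ (2 : ℝ) ≤ C ^ 2 * ‖f (e x)‖ ^ (2 : ℝ) := by
    intro f x
    rw [norm_mul, Real.rpow_two, Real.rpow_two, mul_pow]
    gcongr
    exact hb x
  have hsum2 : ∀ f : lp (fun _ : ι => ℂ) 2, Summable fun x => C ^ 2 * ‖f (e x)‖ ^ (2 : ℝ) :=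
    fun f => ((hsum f).comp_injective he).mul_left _
  have hsum3 : ∀ f : lp (fun _ : ι => ℂ) 2, Summable fun x => ‖b x * f (e x)‖ ^ (2 : ℝ) :=
    fun f => Summable.of_nonneg_of_le (fun x => by positivity) (hle f) (hsum2 f)
  have hmem : ∀ f : lp (fun _ : ι => ℂ) 2, Memℓp (fun x => b x * f (e x)) 2 := by
    intro f
    refine memℓp_gen ?_
    simpa using hsum3 f
  let A0 : lp (fun _ : ι => ℂ) 2 →ₗ[ℂ] lp (fun _ : ι => ℂ) 2 :=
    { toFun := fun f => ⟨fun x => b x * f (e x), hmem f⟩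
      map_add' := fun f g => by
        ext x
        simp only [lp.coeFn_add, Pi.add_apply]
        ring
      map_smul' := fun c f => by
        ext x
        simp only [lp.coeFn_smul, Pi.smul_apply, smul_eq_mul, RingHom.id_apply]
        ring }
  have hA0 : ∀ f x, (A0 f) x = b x * f (e x) := fun f x => rfl
  refine ⟨A0.mkContinuous C ?_, fun f x => rfl⟩
  intro f
  have h1 := lp.norm_rpow_eq_tsum (by norm_num : 0 < (2 : ℝ≥0∞).toReal) (A0 f)
  have h2 := lp.norm_rpow_eq_tsum (by norm_num : 0 < (2 : ℝ≥0∞).toReal) f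
  simp only [ENNReal.toReal_ofNat] at h1 h2
  have h3 : ∑' x, ‖(A0 f) x‖ ^ (2 : ℝ) ≤ C ^ 2 * ∑' x, ‖f x‖ ^ (2 : ℝ) := by
    calc ∑' x, ‖(A0 f) x‖ ^ (2 : ℝ) ≤ ∑' x, C ^ 2 * ‖f (e x)‖ ^ (2 : ℝ) :=
          (hsum3 f).tsum_le_tsum (fun x => hle f x) (hsum2 f)
      _ = C ^ 2 * ∑' x, ‖f (e x)‖ ^ (2 : ℝ) := tsum_mul_left
      _ ≤ C ^ 2 * ∑' x, ‖f x‖ ^ (2 : ℝ) :=
          mul_le_mul_of_nonneg_left
            (tsum_comp_le_tsum_of_inj (hsum f) (fun x => by positivity) he) (sq_nonneg C)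
  rw [← h1, ← h2, Real.rpow_two, Real.rpow_two, ← mul_pow] at h3
  exact (abs_le_of_sq_le_sq' h3 (by positivity)).2

/-- existence of the Anderson operator for a bounded potential -/
theorem exists_anderson (d : ℕ) (lam : ℝ) (ω : (Fin d → ℤ) → ℝ) (B : ℝ) (hB : 0 ≤ B)
    (hω : ∀ x, |ω x| ≤ B) : ∃ H : L2 d →L[ℂ] L2 d, IsAnderson lam ω H := by
  obtain ⟨M, hM⟩ := exists_op (ι := Fin d → ℤ) id Function.injective_id
    (fun x => ((2 * d + lam * ω x : ℝ) : ℂ)) (2 * d + |lam| * B) (by positivity) (by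
      intro x
      rw [Complex.norm_real, Real.norm_eq_abs]
      refine (abs_add_le _ _).trans ?_
      rw [abs_of_nonneg (by positivity : (0 : ℝ) ≤ 2 * d), abs_mul]
      gcongr
      exact hω x)
  have hS : ∀ v : Fin d → ℤ, ∃ S : L2 d →L[ℂ] L2 d, ∀ f x, (S f) x = f (x + v) := by
    intro v
    obtain ⟨S, hS⟩ := exists_op (ι := Fin d → ℤ) (fun x => x + v) (add_left_injective v)
      (fun _ => 1) 1 zero_le_one (fun x => by simp)
    exact ⟨S, fun f x => by rw [hS]; simp⟩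
  choose S hS using hS
  refine ⟨M - ∑ i : Fin d, (S (Pi.single i 1) + S (-Pi.single i 1)), fun f x => ?_⟩
  have h1 : ((M - ∑ i : Fin d, (S (Pi.single i 1) + S (-Pi.single i 1))) f) x =
      (M f) x - ∑ i : Fin d, ((S (Pi.single i 1) f) x + (S (-Pi.single i 1) f) x) := by
    have e1 : (M - ∑ i : Fin d, (S (Pi.single i 1) + S (-Pi.single i 1))) f =
        M f - ∑ i : Fin d, (S (Pi.single i 1) f + S (-Pi.single i 1) f) := by
      simp
    rw [e1, lp.coeFn_sub, Pi.sub_apply]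
    congr 1
    rw [lp.coeFn_sum, Finset.sum_apply]
    rfl
  rw [h1, hM]
  simp only [hS, id]
  rw [Finset.sum_congr rfl fun i _ => by rw [← sub_eq_add_neg]]
  have h2 : ∑ i : Fin d, (2 * f x - f (x + Pi.single i 1) - f (x - Pi.single i 1)) =
      2 * d * f x - ∑ i : Fin d, (f (x + Pi.single i 1) + f (x - Pi.single i 1)) := by
    rw [Finset.sum_add_distrib, Finset.sum_sub_distrib, Finset.sum_sub_distrib]
    simp
    ring
  rw [h2]
  push_cast
  ring

theorem unique_anderson {d : ℕ} {lam : ℝ} {ω : (Fin d → ℤ) → ℝ} {H H' : L2 d →L[ℂ] L2 d}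
    (h : IsAnderson lam ω H) (h' : IsAnderson lam ω H') : H = H' := by
  ext f x
  rw [h f x, h' f x]

end Exist
end Pool.Agent.H4R2.AE
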