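import Pool.Agent.H4R2.AE.FinA
import Pool.Agent.H4R2.AE.Exist

/-! Translation between operators on `lp` and plain functions on `ℤ^d`. -/

set_option autoImplicit false

open scoped BigOperators ENNReal
open MeasureTheory

namespace Pool.Agent.H4R2.AE
namespace Bridge

variable {d : ℕ}

/-- `(-Δ + lam V) ψ` on plain functions -/
noncomputable def Hf (lam : ℝ) (V : (Fin d → ℤ) → ℝ) (ψ : (Fin d → ℤ) → ℂ) (x : Fin d → ℤ) : ℂ :=
  -∑ i : Fin d, ((ψ (x + Pi.single i 1) - ψ x) + (ψ (x - Pi.single i 1) - ψ x)) +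
    ((lam * V x : ℝ) : ℂ) * ψ x

theorem coe_apply (lam : ℝ) (V : (Fin d → ℤ) → ℝ) (H : L2 d →L[ℂ] L2 d) (hH : IsAnderson lam V H)
    (g : L2 d) : ((H g : L2 d) : (Fin d → ℤ) → ℂ) = Hf lam V g := by
  funext x
  rw [hH g x]
  unfold Hf
  congr 1
  rw [← Finset.sum_neg_distrib]
  exact Finset.sum_congr rfl fun i _ => by ring

theorem coe_pow (lam : ℝ) (V : (Fin d → ℤ) → ℝ) (H : L2 d →L[ℂ] L2 d) (hH : IsAnderson lam V H)
    (g : L2 d) (n : ℕ) : (((H ^ n) g : L2 d) : (Fin d → ℤ) → ℂ) = (Hf lam V)^[n] g := by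
  induction n with
  | zero => simp
  | succ n ih =>
    rw [Function.iterate_succ_apply', ← ih, ← coe_apply lam V H hH, pow_succ']
    rfl

theorem exp_apply (lam : ℝ) (V : (Fin d → ℤ) → ℝ) (H : L2 d →L[ℂ] L2 d) (hH : IsAnderson lam V H)
    (a : ℂ) (g : L2 d) (x : Fin d → ℤ) : (NormedSpace.exp (a • H) g) x =
      ∑' n : ℕ, (a ^ n / (n.factorial : ℂ)) * ((Hf lam V)^[n] g) x := by
  have h1 := NormedSpace.exp_series_hasSum_exp' (𝕂 := ℂ) (a • H)
  have h2 : HasSum (fun n : ℕ => ((n.factorial : ℂ)⁻¹ • (a • H) ^ n) g)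
      (NormedSpace.exp (a • H) g) :=
    h1.mapL (ContinuousLinearMap.apply ℂ (L2 d) g)
  have h3 : HasSum (fun n : ℕ => ((((n.factorial : ℂ)⁻¹ • (a • H) ^ n) g : L2 d) :
      (Fin d → ℤ) → ℂ) x) ((NormedSpace.exp (a • H) g) x) := by
    have := h2.map (AddMonoidHom.mk' (fun f : L2 d => (f : (Fin d → ℤ) → ℂ) x)
      (fun f g => rfl)) (FinA.continuous_eval x)
    exact this
  rw [← h3.tsum_eq]
  refine tsum_congr fun n => ?_
  rw [← coe_pow lam V H hH]
  have h4 : ((n.factorial : ℂ)⁻¹ • (a • H) ^ n) g = ((n.factorial : ℂ)⁻¹ * a ^ n) • (H ^ n) g := by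
    rw [smul_pow, smul_smul]
    rfl
  rw [h4, lp.coeFn_smul, Pi.smul_apply, smul_eq_mul]
  ring

theorem enorm_sq (f : L2 d) : ∑' x, ‖f x‖ₑ ^ 2 = ENNReal.ofReal (‖f‖ ^ 2) := by
  have h2 := lp.norm_rpow_eq_tsum (by norm_num : 0 < (2 : ℝ≥0∞).toReal) f
  have h3 := (lp.memℓp f).summable (by norm_num : 0 < (2 : ℝ≥0∞).toReal)
  simp only [ENNReal.toReal_ofNat, Real.rpow_two] at h2 h3
  rw [h2, ENNReal.ofReal_tsum_of_nonneg (fun x => by positivity) h3]
  refine tsum_congr fun x => ?_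
  rw [ENNReal.ofReal_pow (norm_nonneg _), ofReal_norm]

theorem memlp_of_supp (g : (Fin d → ℤ) → ℂ) (R : ℝ) (hg : ∀ x, R < ‖x‖ → g x = 0) :
    Memℓp g 2 := by
  have hfin : (Function.support g).Finite := by
    have hsub : Function.support g ⊆ Metric.closedBall (0 : Fin d → ℤ) R := by
      intro x hx
      rw [mem_closedBall_zero_iff]
      by_contra hc
      exact hx (hg x (not_le.1 hc))
    exact (isCompact_closedBall (0 : Fin d → ℤ) R).finite_of_discrete.subset hsub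
  refine memℓp_gen ?_
  refine summable_of_hasFiniteSupport (hfin.subset ?_)
  intro x hx hgx
  apply hx
  simp [hgx]

end Bridge
end Pool.Agent.H4R2.AE
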