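import Pool.Agent.H4R2.AE.Defs

set_option autoImplicit false

open scoped BigOperators

namespace Pool.Agent.H4R2.AE
namespace Cmp
variable {d L : ℕ} [NeZero L]

omit [NeZero L] in
theorem beta_mono (lam δ κ : ℝ) (hlam : 0 < lam) (hδ : 0 < δ) (s s' : ℝ) (h : s' ≤ s) :
    κ * (s - s') ≤ beta lam δ κ s - beta lam δ κ s' := by
  unfold beta
  have h1 : max (s' - δ) 0 ≤ max (s - δ) 0 := max_le_max (by linarith) le_rfl
  have h2 : max (-s - δ) 0 ≤ max (-s' - δ) 0 := max_le_max (by linarith) le_rfl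
  have h3 : 0 ≤ 2 * lam / δ := by positivity
  nlinarith [mul_le_mul_of_nonneg_left h1 h3, mul_le_mul_of_nonneg_left h2 h3]

theorem compare (lam δ κ : ℝ) (hlam : 0 < lam) (hδ : 0 < δ) (hκ : 0 < κ)
    (V V' : T d L → ℝ) (E E' : ℝ) (w w' : T d L → ℝ) (hw : IsSol lam δ κ V E w)
    (hw' : IsSol lam δ κ V' E' w') (M : ℝ) (hM : 0 ≤ M)
    (h : ∀ x, lam * (V x - V' x) + (E' - E) ≤ M) : ∀ x, w' x - w x ≤ M / κ := by
  obtain ⟨x0, hx0⟩ := Finite.exists_max (fun x => w' x - w x)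
  suffices hs : w' x0 - w x0 ≤ M / κ from fun x => (hx0 x).trans hs
  by_cases hc : w' x0 - w x0 ≤ 0
  · exact hc.trans (by positivity)
  push Not at hc
  have e1 := hw x0
  have e2 := hw' x0
  have e3 : ∑ i : Fin d, ((1 - Real.exp (w (x0 + Pi.single i 1) - w x0)) +
      (1 - Real.exp (w (x0 - Pi.single i 1) - w x0))) ≤
      ∑ i : Fin d, ((1 - Real.exp (w' (x0 + Pi.single i 1) - w' x0)) +
      (1 - Real.exp (w' (x0 - Pi.single i 1) - w' x0))) := by
    refine Finset.sum_le_sum fun i _ => ?_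
    have a1 := hx0 (x0 + Pi.single i 1)
    have a2 := hx0 (x0 - Pi.single i 1)
    beta_reduce at a1 a2
    have b1 : Real.exp (w' (x0 + Pi.single i 1) - w' x0) ≤ Real.exp (w (x0 + Pi.single i 1) - w x0) :=
      Real.exp_le_exp.2 (by linarith)
    have b2 : Real.exp (w' (x0 - Pi.single i 1) - w' x0) ≤ Real.exp (w (x0 - Pi.single i 1) - w x0) :=
      Real.exp_le_exp.2 (by linarith)
    linarith
  have e4 := beta_mono lam δ κ hlam hδ (w' x0) (w x0) (by linarith)
  rw [le_div_iff₀ hκ]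
  have := h x0
  nlinarith

theorem unique (lam δ κ : ℝ) (hlam : 0 < lam) (hδ : 0 < δ) (hκ : 0 < κ)
    (V : T d L → ℝ) (E : ℝ) (w w' : T d L → ℝ) (hw : IsSol lam δ κ V E w)
    (hw' : IsSol lam δ κ V E w') : w' = w := by
  funext x
  have h1 := compare lam δ κ hlam hδ hκ V V E E w w' hw hw' 0 le_rfl (fun x => by simp) x
  have h2 := compare lam δ κ hlam hδ hκ V V E E w' w hw' hw 0 le_rfl (fun x => by simp) x
  simp only [zero_div] at h1 h2
  linarith

omit [NeZero L] in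
theorem beta_two (lam δ κ : ℝ) (hδ : 0 < δ) : beta lam δ κ (2 * δ) = 2 * κ * δ + 2 * lam := by
  unfold beta
  rw [max_eq_left (by linarith), max_eq_right (by linarith)]
  field_simp
  ring

omit [NeZero L] in
theorem beta_neg_two (lam δ κ : ℝ) (hδ : 0 < δ) :
    beta lam δ κ (-(2 * δ)) = -(2 * κ * δ + 2 * lam) := by
  unfold beta
  rw [max_eq_right (by linarith), max_eq_left (by linarith)]
  field_simp
  ring

theorem bound (lam δ κ E : ℝ) (hlam : 0 < lam) (hδ : 0 < δ) (hκ : 0 < κ) (hE : |E| ≤ lam)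
    (V w : T d L → ℝ) (hV : ∀ x, |V x| ≤ 1) (hw : IsSol lam δ κ V E w) : ∀ x, |w x| ≤ 2 * δ := by
  have hE' := abs_le.1 hE
  obtain ⟨x1, hx1⟩ := Finite.exists_max w
  obtain ⟨x2, hx2⟩ := Finite.exists_min w
  have u1 : w x1 ≤ 2 * δ := by
    by_contra hc
    push Not at hc
    have e1 := hw x1
    have e2 : 0 ≤ ∑ i : Fin d, ((1 - Real.exp (w (x1 + Pi.single i 1) - w x1)) +
        (1 - Real.exp (w (x1 - Pi.single i 1) - w x1))) := by
      refine Finset.sum_nonneg fun i _ => ?_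
      have b1 : Real.exp (w (x1 + Pi.single i 1) - w x1) ≤ 1 :=
        Real.exp_le_one_iff.2 (by linarith [hx1 (x1 + Pi.single i 1)])
      have b2 : Real.exp (w (x1 - Pi.single i 1) - w x1) ≤ 1 :=
        Real.exp_le_one_iff.2 (by linarith [hx1 (x1 - Pi.single i 1)])
      linarith
    have e3 := beta_mono lam δ κ hlam hδ (w x1) (2 * δ) hc.le
    rw [beta_two lam δ κ hδ] at e3
    have e4 : 0 ≤ κ * (w x1 - 2 * δ) := mul_nonneg hκ.le (by linarith)
    have e5 := (abs_le.1 (hV x1)).1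
    nlinarith [mul_pos hκ hδ]
  have u2 : -(2 * δ) ≤ w x2 := by
    by_contra hc
    push Not at hc
    have e1 := hw x2
    have e2 : ∑ i : Fin d, ((1 - Real.exp (w (x2 + Pi.single i 1) - w x2)) +
        (1 - Real.exp (w (x2 - Pi.single i 1) - w x2))) ≤ 0 := by
      refine Finset.sum_nonpos fun i _ => ?_
      have b1 : 1 ≤ Real.exp (w (x2 + Pi.single i 1) - w x2) :=
        Real.one_le_exp (by linarith [hx2 (x2 + Pi.single i 1)])
      have b2 : 1 ≤ Real.exp (w (x2 - Pi.single i 1) - w x2) :=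
        Real.one_le_exp (by linarith [hx2 (x2 - Pi.single i 1)])
      linarith
    have e3 := beta_mono lam δ κ hlam hδ (-(2 * δ)) (w x2) hc.le
    rw [beta_neg_two lam δ κ hδ] at e3
    have e4 : 0 ≤ κ * (-(2 * δ) - w x2) := mul_nonneg hκ.le (by linarith)
    have e5 := (abs_le.1 (hV x2)).2
    nlinarith [mul_pos hκ hδ]
  intro x
  rw [abs_le]
  exact ⟨u2.trans (hx2 x), (hx1 x).trans u1⟩

omit [NeZero L] in
theorem beta_zero (lam δ κ : ℝ) (hδ : 0 < δ) : beta lam δ κ 0 = 0 := by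
  unfold beta
  rw [max_eq_right (by linarith), max_eq_right (by linarith)]
  ring

theorem nonneg (lam δ κ : ℝ) (hlam : 0 < lam) (hδ : 0 < δ) (hκ : 0 < κ)
    (V w : T d L → ℝ) (hV : ∀ x, |V x| ≤ 1) (hw : IsSol lam δ κ V lam w) : ∀ x, 0 ≤ w x := by
  obtain ⟨x2, hx2⟩ := Finite.exists_min w
  have u2 : 0 ≤ w x2 := by
    by_contra hc
    push Not at hc
    have e1 := hw x2
    have e2 : ∑ i : Fin d, ((1 - Real.exp (w (x2 + Pi.single i 1) - w x2)) +
        (1 - Real.exp (w (x2 - Pi.single i 1) - w x2))) ≤ 0 := by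
      refine Finset.sum_nonpos fun i _ => ?_
      have b1 : 1 ≤ Real.exp (w (x2 + Pi.single i 1) - w x2) :=
        Real.one_le_exp (by linarith [hx2 (x2 + Pi.single i 1)])
      have b2 : 1 ≤ Real.exp (w (x2 - Pi.single i 1) - w x2) :=
        Real.one_le_exp (by linarith [hx2 (x2 - Pi.single i 1)])
      linarith
    have e3 := beta_mono lam δ κ hlam hδ 0 (w x2) hc.le
    rw [beta_zero lam δ κ hδ] at e3
    have e4 : 0 < κ * (0 - w x2) := mul_pos hκ (by linarith)
    have e5 := (abs_le.1 (hV x2)).2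
    nlinarith
  exact fun x => u2.trans (hx2 x)

theorem nonpos (lam δ κ : ℝ) (hlam : 0 < lam) (hδ : 0 < δ) (hκ : 0 < κ)
    (V w : T d L → ℝ) (hV : ∀ x, |V x| ≤ 1) (hw : IsSol lam δ κ V (-lam) w) : ∀ x, w x ≤ 0 := by
  obtain ⟨x1, hx1⟩ := Finite.exists_max w
  have u1 : w x1 ≤ 0 := by
    by_contra hc
    push Not at hc
    have e1 := hw x1
    have e2 : 0 ≤ ∑ i : Fin d, ((1 - Real.exp (w (x1 + Pi.single i 1) - w x1)) +
        (1 - Real.exp (w (x1 - Pi.single i 1) - w x1))) := by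
      refine Finset.sum_nonneg fun i _ => ?_
      have b1 : Real.exp (w (x1 + Pi.single i 1) - w x1) ≤ 1 :=
        Real.exp_le_one_iff.2 (by linarith [hx1 (x1 + Pi.single i 1)])
      have b2 : Real.exp (w (x1 - Pi.single i 1) - w x1) ≤ 1 :=
        Real.exp_le_one_iff.2 (by linarith [hx1 (x1 - Pi.single i 1)])
      linarith
    have e3 := beta_mono lam δ κ hlam hδ (w x1) 0 hc.le
    rw [beta_zero lam δ κ hδ] at e3
    have e4 : 0 < κ * (w x1 - 0) := mul_pos hκ (by linarith)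
    have e5 := (abs_le.1 (hV x1)).1
    nlinarith
  exact fun x => (hx1 x).trans u1

omit [NeZero L] in
theorem shift (lam δ κ E : ℝ) (V w : T d L → ℝ) (a : T d L) (hw : IsSol lam δ κ V E w) :
    IsSol lam δ κ (fun x => V (x + a)) E (fun x => w (x + a)) := by
  intro x
  have h := hw (x + a)
  have e1 : ∀ i : Fin d, x + a + Pi.single i 1 = x + Pi.single i 1 + a := fun i => by abel
  have e2 : ∀ i : Fin d, x + a - Pi.single i 1 = x - Pi.single i 1 + a := fun i => by abel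
  simp only [e1, e2] at h
  exact h

end Cmp
end Pool.Agent.H4R2.AE
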