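import Pool.Agent.H4R2.AE.Defs

/-!
Exponential concentration from the Efron-Stein inequality on product spaces.
-/

set_option autoImplicit false

open scoped BigOperators
open MeasureTheory

namespace Pool.Agent.H4R2.AE.Conc

section

variable {ι : Type} [Fintype ι] [DecidableEq ι] (μ : Measure ℝ) [IsProbabilityMeasure μ]

/-- the product measure -/
noncomputable abbrev PP (ι : Type) [Fintype ι] (μ : Measure ℝ) : Measure (ι → ℝ) :=
  Measure.pi fun _ : ι => μ

/-- the product measure of pairs -/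
noncomputable abbrev QQ (ι : Type) [Fintype ι] (μ : Measure ℝ) : Measure (ι → ℝ × ℝ) :=
  Measure.pi fun _ : ι => μ.prod μ

/-- select the second sample on `S`, the first one elsewhere -/
def sel (S : Finset ι) (θ : ι → ℝ × ℝ) : ι → ℝ := fun i => if i ∈ S then (θ i).2 else (θ i).1

/-- swap the two samples on `S` -/
def sw (S : Finset ι) (θ : ι → ℝ × ℝ) : ι → ℝ × ℝ := fun i => if i ∈ S then (θ i).swap else θ i

theorem mp_sel (S : Finset ι) : MeasurePreserving (sel S) (QQ ι μ) (PP ι μ) := by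
  have := measurePreserving_pi (fun _ : ι => μ.prod μ) (fun _ : ι => μ)
    (f := fun i => if i ∈ S then Prod.snd else Prod.fst) (fun i => by
      split_ifs
      · exact measurePreserving_snd
      · exact measurePreserving_fst)
  convert this using 1
  funext θ i
  unfold sel
  split_ifs <;> rfl

theorem mp_sw (S : Finset ι) : MeasurePreserving (sw S) (QQ ι μ) (QQ ι μ) := by
  have := measurePreserving_pi (fun _ : ι => μ.prod μ) (fun _ : ι => μ.prod μ)
    (f := fun i => if i ∈ S then Prod.swap else id) (fun i => by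
      split_ifs
      · exact Measure.measurePreserving_swap
      · exact MeasurePreserving.id _)
  convert this using 1
  funext θ i
  unfold sw
  split_ifs <;> rfl

theorem int_mp {α β : Type*} [MeasurableSpace α] [MeasurableSpace β] {a : Measure α}
    {b : Measure β} {f : α → β} (hf : MeasurePreserving f a b) {g : β → ℝ} (hg : Measurable g) :
    ∫ x, g (f x) ∂a = ∫ y, g y ∂b := by
  rw [← hf.map_eq]
  exact (integral_map hf.measurable.aemeasurable hg.aestronglyMeasurable).symm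

theorem int_bd {α : Type*} [MeasurableSpace α] {a : Measure α} [IsFiniteMeasure a] {g : α → ℝ}
    (hg : Measurable g) {C : ℝ} (hC : ∀ x, |g x| ≤ C) : Integrable g a :=
  Integrable.of_bound hg.aestronglyMeasurable C (Filter.Eventually.of_forall hC)

theorem indep (f g : (ι → ℝ) → ℝ) (hf : Measurable f) (hg : Measurable g) :
    ∫ θ, f (sel ∅ θ) * g (sel Finset.univ θ) ∂(QQ ι μ) =
      (∫ ω, f ω ∂(PP ι μ)) * ∫ ω, g ω ∂(PP ι μ) := by
  rw [← integral_prod_mul]
  rw [← int_mp (measurePreserving_arrowProdEquivProdArrow ℝ ℝ ι (fun _ => μ) (fun _ => μ))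
    (g := fun z : (ι → ℝ) × (ι → ℝ) => f z.1 * g z.2) (by fun_prop)]
  have e1 : ∀ θ : ι → ℝ × ℝ, sel ∅ θ = fun i => (θ i).1 := fun θ => by funext i; simp [sel]
  have e2 : ∀ θ : ι → ℝ × ℝ, sel Finset.univ θ = fun i => (θ i).2 := fun θ => by
    funext i; simp [sel]
  simp only [e1, e2]
  rfl

theorem sel_empty_sw (S : Finset ι) (θ : ι → ℝ × ℝ) : sel ∅ (sw S θ) = sel S θ := by
  funext i
  by_cases h : i ∈ S <;> simp [sel, sw, h]

theorem sel_single_sw {S : Finset ι} {j : ι} (hj : j ∉ S) (θ : ι → ℝ × ℝ) :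
    sel {j} (sw S θ) = sel (insert j S) θ := by
  funext i
  by_cases hi : i = j
  · subst hi; simp [sel, sw, hj]
  · by_cases h : i ∈ S <;> simp [sel, sw, h, hi]

theorem sel_sw_single {S : Finset ι} {j : ι} (hj : j ∉ S) (θ : ι → ℝ × ℝ) :
    sel S (sw {j} θ) = sel (insert j S) θ := by
  funext i
  by_cases hi : i = j
  · subst hi; simp [sel, sw, hj]
  · by_cases h : i ∈ S <;> simp [sel, sw, h, hi]

theorem sel_insert_sw_single {S : Finset ι} {j : ι} (hj : j ∉ S) (θ : ι → ℝ × ℝ) :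
    sel (insert j S) (sw {j} θ) = sel S θ := by
  funext i
  by_cases hi : i = j
  · subst hi; simp [sel, sw, hj]
  · by_cases h : i ∈ S <;> simp [sel, sw, h, hi]

theorem meas_sel (S : Finset ι) : Measurable (sel (ι := ι) S) := by
  apply measurable_pi_lambda
  intro i
  unfold sel
  split_ifs
  · exact (measurable_pi_apply i).snd
  · exact (measurable_pi_apply i).fst

theorem meas_sw (S : Finset ι) : Measurable (sw (ι := ι) S) := by
  apply measurable_pi_lambda
  intro i
  unfold sw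
  split_ifs
  · exact measurable_swap.comp (measurable_pi_apply i)
  · exact measurable_pi_apply i

variable {μ}

/-- the two-sample influence -/
noncomputable def Inf2 (μ : Measure ℝ) (G : (ι → ℝ) → ℝ) (j : ι) : ℝ :=
  ∫ θ, (G (sel ∅ θ) - G (sel {j} θ)) ^ 2 ∂(QQ ι μ)

/-- Efron-Stein inequality -/
theorem efron (G : (ι → ℝ) → ℝ) (hG : Measurable G) (B : ℝ) (hB : ∀ ω, |G ω| ≤ B) :
    ∫ ω, G ω ^ 2 ∂(PP ι μ) - (∫ ω, G ω ∂(PP ι μ)) ^ 2 ≤ (1 / 2) * ∑ j, Inf2 μ G j := by
  have hB0 : ∀ ω : ι → ℝ, 0 ≤ B := fun ω => (abs_nonneg _).trans (hB ω)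
  have gm : ∀ S : Finset ι, Measurable fun θ => G (sel S θ) := fun S => hG.comp (meas_sel S)
  have bd2 : ∀ S T : Finset ι, ∀ θ : ι → ℝ × ℝ, |G (sel S θ) * G (sel T θ)| ≤ B * B := by
    intro S T θ
    rw [abs_mul]
    exact mul_le_mul (hB _) (hB _) (abs_nonneg _) (hB0 (sel S θ))
  have ig : ∀ S T : Finset ι, Integrable (fun θ => G (sel S θ) * G (sel T θ)) (QQ ι μ) :=
    fun S T => int_bd ((gm S).mul (gm T)) (bd2 S T)
  have main : ∀ S : Finset ι, ∫ θ, (G (sel ∅ θ) * G (sel ∅ θ) - G (sel ∅ θ) * G (sel S θ))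
      ∂(QQ ι μ) ≤ (1 / 2) * ∑ j ∈ S, Inf2 μ G j := by
    intro S
    induction S using Finset.induction_on with
    | empty => simp
    | insert j S hj ih =>
      rw [Finset.sum_insert hj, mul_add]
      have iS : Integrable (fun θ => G (sel ∅ θ) * G (sel ∅ θ) - G (sel ∅ θ) * G (sel S θ))
          (QQ ι μ) := (ig _ _).sub (ig _ _)
      have i1 : Integrable (fun θ => G (sel ∅ θ) * (G (sel S θ) - G (sel (insert j S) θ)))
          (QQ ι μ) := by
        refine ((ig ∅ S).sub (ig ∅ (insert j S))).congr ?_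
        exact Filter.Eventually.of_forall fun θ => by simp only [Pi.sub_apply]; ring
      have e1 : ∫ θ, (G (sel ∅ θ) * G (sel ∅ θ) - G (sel ∅ θ) * G (sel (insert j S) θ)) ∂(QQ ι μ)
          = ∫ θ, (G (sel ∅ θ) * G (sel ∅ θ) - G (sel ∅ θ) * G (sel S θ)) ∂(QQ ι μ) +
            ∫ θ, G (sel ∅ θ) * (G (sel S θ) - G (sel (insert j S) θ)) ∂(QQ ι μ) := by
        rw [← integral_add iS i1]
        apply integral_congr_ae
        exact Filter.Eventually.of_forall fun θ => by ring
      -- the swapped integral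
      have e2 : ∫ θ, G (sel ∅ θ) * (G (sel S θ) - G (sel (insert j S) θ)) ∂(QQ ι μ) =
          ∫ θ, G (sel {j} θ) * (G (sel (insert j S) θ) - G (sel S θ)) ∂(QQ ι μ) := by
        rw [← int_mp (mp_sw μ {j})
          (g := fun θ => G (sel ∅ θ) * (G (sel S θ) - G (sel (insert j S) θ)))
          ((gm ∅).mul ((gm S).sub (gm (insert j S))))]
        apply integral_congr_ae
        refine Filter.Eventually.of_forall fun θ => ?_
        simp only [sel_empty_sw, sel_sw_single hj, sel_insert_sw_single hj]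
      have i2 : Integrable (fun θ => G (sel {j} θ) * (G (sel (insert j S) θ) - G (sel S θ)))
          (QQ ι μ) := by
        refine ((ig {j} (insert j S)).sub (ig {j} S)).congr ?_
        exact Filter.Eventually.of_forall fun θ => by simp only [Pi.sub_apply]; ring
      have sqi : ∀ A C : Finset ι, Integrable (fun θ => (G (sel A θ) - G (sel C θ)) ^ 2)
          (QQ ι μ) := by
        intro A C
        refine (((ig A A).sub ((ig A C).const_mul 2)).add (ig C C)).congr ?_
        exact Filter.Eventually.of_forall fun θ => by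
          simp only [Pi.sub_apply, Pi.add_apply]; ring
      have e3 : ∫ θ, (G (sel S θ) - G (sel (insert j S) θ)) ^ 2 ∂(QQ ι μ) = Inf2 μ G j := by
        unfold Inf2
        rw [← int_mp (mp_sw μ S) (g := fun θ => (G (sel ∅ θ) - G (sel {j} θ)) ^ 2)
          (((gm ∅).sub (gm {j})).pow_const 2)]
        apply integral_congr_ae
        refine Filter.Eventually.of_forall fun θ => ?_
        simp only [sel_empty_sw, sel_single_sw hj]
      have e4 : 2 * ∫ θ, G (sel ∅ θ) * (G (sel S θ) - G (sel (insert j S) θ)) ∂(QQ ι μ) ≤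
          (1 / 2) * Inf2 μ G j + (1 / 2) * Inf2 μ G j := by
        calc 2 * ∫ θ, G (sel ∅ θ) * (G (sel S θ) - G (sel (insert j S) θ)) ∂(QQ ι μ)
            = ∫ θ, G (sel ∅ θ) * (G (sel S θ) - G (sel (insert j S) θ)) ∂(QQ ι μ) +
              ∫ θ, G (sel {j} θ) * (G (sel (insert j S) θ) - G (sel S θ)) ∂(QQ ι μ) := by
                rw [← e2]; ring
          _ = ∫ θ, (G (sel ∅ θ) * (G (sel S θ) - G (sel (insert j S) θ)) +
              G (sel {j} θ) * (G (sel (insert j S) θ) - G (sel S θ))) ∂(QQ ι μ) :=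
                (integral_add i1 i2).symm
          _ ≤ ∫ θ, ((1 / 2) * (G (sel ∅ θ) - G (sel {j} θ)) ^ 2 +
              (1 / 2) * (G (sel S θ) - G (sel (insert j S) θ)) ^ 2) ∂(QQ ι μ) := by
                apply integral_mono (i1.add i2) (((sqi _ _).const_mul _).add
                  ((sqi _ _).const_mul _))
                intro θ
                simp only [Pi.add_apply]
                nlinarith [sq_nonneg ((G (sel ∅ θ) - G (sel {j} θ)) -
                  (G (sel S θ) - G (sel (insert j S) θ)))]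
          _ = (1 / 2) * Inf2 μ G j + (1 / 2) * Inf2 μ G j := by
                rw [integral_add ((sqi _ _).const_mul _) ((sqi _ _).const_mul _),
                  integral_const_mul, integral_const_mul, e3]
                rfl
      rw [e1]
      linarith
  have h1 := main Finset.univ
  have h2 : ∫ θ, (G (sel ∅ θ) * G (sel ∅ θ) - G (sel ∅ θ) * G (sel Finset.univ θ)) ∂(QQ ι μ) =
      ∫ ω, G ω ^ 2 ∂(PP ι μ) - (∫ ω, G ω ∂(PP ι μ)) ^ 2 := by
    rw [integral_sub (ig _ _) (ig _ _), indep μ G G hG hG, sq (∫ ω, G ω ∂(PP ι μ))]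
    congr 1
    rw [← int_mp (mp_sel μ ∅) (g := fun ω => G ω ^ 2) (hG.pow_const 2)]
    apply integral_congr_ae
    exact Filter.Eventually.of_forall fun θ => by ring
  rw [h2] at h1
  exact h1

theorem exp_diff_sq (a b : ℝ) :
    (Real.exp a - Real.exp b) ^ 2 ≤ (a - b) ^ 2 * (Real.exp (2 * a) + Real.exp (2 * b)) := by
  have key : ∀ a b : ℝ, b ≤ a →
      (Real.exp a - Real.exp b) ^ 2 ≤ (a - b) ^ 2 * Real.exp (2 * a) := by
    intro a b hab
    have h1 : Real.exp a - Real.exp b ≤ (a - b) * Real.exp a := by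
      have h2 := Real.add_one_le_exp (b - a)
      have h3 : Real.exp b = Real.exp a * Real.exp (b - a) := by rw [← Real.exp_add]; ring_nf
      rw [h3]
      nlinarith [Real.exp_pos a]
    have h0 : 0 ≤ Real.exp a - Real.exp b := sub_nonneg.2 (Real.exp_le_exp.2 hab)
    have h4 := pow_le_pow_left₀ h0 h1 2
    rw [mul_pow, ← Real.exp_nat_mul] at h4
    exact_mod_cast h4
  rcases le_total b a with h | h
  · have := key a b h
    nlinarith [Real.exp_pos (2 * b), sq_nonneg (a - b),
      mul_nonneg (sq_nonneg (a - b)) (Real.exp_pos (2 * b)).le]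
  · have := key b a h
    nlinarith [Real.exp_pos (2 * a), sq_nonneg (a - b),
      mul_nonneg (sq_nonneg (a - b)) (Real.exp_pos (2 * a)).le]

theorem sel_single (j : ι) (θ : ι → ℝ × ℝ) :
    sel {j} θ = Function.update (sel ∅ θ) j (sel Finset.univ θ j) := by
  funext i
  by_cases hi : i = j
  · subst hi; simp [sel]
  · simp [sel, hi]

/-- one halving step for the exponential moment -/
theorem exp_step (F : (ι → ℝ) → ℝ) (hF : Measurable F) (B : ℝ) (hB : ∀ ω, |F ω| ≤ B) (K : ℝ)
    (h : ∀ ω τ : ι → ℝ, ∑ z, (F (Function.update ω z (τ z)) - F ω) ^ 2 ≤ K ^ 2) (l : ℝ)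
    (hl : l ^ 2 * K ^ 2 ≤ 1) :
    ∫ ω, Real.exp (l * F ω) ∂(PP ι μ) ≤
      Real.exp (l ^ 2 * K ^ 2 / 3) * (∫ ω, Real.exp (l / 2 * F ω) ∂(PP ι μ)) ^ 2 := by
  have eb : ∀ (c : ℝ) (ω : ι → ℝ), Real.exp (c * F ω) ≤ Real.exp (|c| * B) := by
    intro c ω
    apply Real.exp_le_exp.2
    calc c * F ω ≤ |c * F ω| := le_abs_self _
      _ = |c| * |F ω| := abs_mul _ _
      _ ≤ |c| * B := mul_le_mul_of_nonneg_left (hB ω) (abs_nonneg _)
  have hm : ∀ c : ℝ, Measurable fun ω => Real.exp (c * F ω) := fun c =>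
    (hF.const_mul c).exp
  have hms : ∀ S : Finset ι, Measurable fun θ => F (sel S θ) := fun S => hF.comp (meas_sel S)
  have key := efron (μ := μ) (fun ω => Real.exp (l / 2 * F ω)) (hm _) (Real.exp (|l / 2| * B))
    (fun ω => by rw [abs_of_pos (Real.exp_pos _)]; exact eb _ ω)
  have e1 : ∀ ω, Real.exp (l / 2 * F ω) ^ 2 = Real.exp (l * F ω) := by
    intro ω
    rw [← Real.exp_nat_mul]; congr 1; push_cast; ring
  simp only [e1] at key
  -- bound of the influences
  have dbd : ∀ (A C : Finset ι) (θ : ι → ℝ × ℝ), (F (sel A θ) - F (sel C θ)) ^ 2 ≤ (2 * B) ^ 2 := by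
    intro A C θ
    rw [← sq_abs (F (sel A θ) - F (sel C θ))]
    apply pow_le_pow_left₀ (abs_nonneg _)
    calc |F (sel A θ) - F (sel C θ)| ≤ |F (sel A θ)| + |F (sel C θ)| := abs_sub _ _
      _ ≤ 2 * B := by linarith [hB (sel A θ), hB (sel C θ)]
  have iI : ∀ (A C D : Finset ι), Integrable
      (fun θ => (F (sel A θ) - F (sel C θ)) ^ 2 * Real.exp (l * F (sel D θ))) (QQ ι μ) := by
    intro A C D
    refine int_bd ((((hms A).sub (hms C)).pow_const 2).mul ((hm l).comp (meas_sel D)))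
      (C := (2 * B) ^ 2 * Real.exp (|l| * B)) fun θ => ?_
    rw [abs_mul, abs_of_nonneg (sq_nonneg _), abs_of_pos (Real.exp_pos _)]
    exact mul_le_mul (dbd A C θ) (eb l _) (Real.exp_pos _).le (sq_nonneg _)
  have hinf : ∀ j, Inf2 μ (fun ω => Real.exp (l / 2 * F ω)) j ≤
      l ^ 2 / 2 * ∫ θ, (F (sel ∅ θ) - F (sel {j} θ)) ^ 2 * Real.exp (l * F (sel ∅ θ)) ∂(QQ ι μ) := by
    intro j
    have sym : ∫ θ, (F (sel ∅ θ) - F (sel {j} θ)) ^ 2 * Real.exp (l * F (sel {j} θ)) ∂(QQ ι μ) =
        ∫ θ, (F (sel ∅ θ) - F (sel {j} θ)) ^ 2 * Real.exp (l * F (sel ∅ θ)) ∂(QQ ι μ) := by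
      rw [← int_mp (mp_sw μ {j})
        (g := fun θ => (F (sel ∅ θ) - F (sel {j} θ)) ^ 2 * Real.exp (l * F (sel {j} θ)))
        ((((hms ∅).sub (hms {j})).pow_const 2).mul ((hm l).comp (meas_sel {j})))]
      apply integral_congr_ae
      refine Filter.Eventually.of_forall fun θ => ?_
      have h1 : sel {j} (sw {j} θ) = sel ∅ θ := by
        funext i; by_cases hi : i = j <;> simp [sel, sw, hi]
      simp only [sel_empty_sw, h1]
      ring
    unfold Inf2
    calc ∫ θ, (Real.exp (l / 2 * F (sel ∅ θ)) - Real.exp (l / 2 * F (sel {j} θ))) ^ 2 ∂(QQ ι μ)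
        ≤ ∫ θ, (l ^ 2 / 4 * ((F (sel ∅ θ) - F (sel {j} θ)) ^ 2 * Real.exp (l * F (sel ∅ θ))) +
            l ^ 2 / 4 * ((F (sel ∅ θ) - F (sel {j} θ)) ^ 2 * Real.exp (l * F (sel {j} θ))))
            ∂(QQ ι μ) := by
          apply integral_mono_of_nonneg (Filter.Eventually.of_forall fun θ => sq_nonneg _)
            (((iI _ _ _).const_mul _).add ((iI _ _ _).const_mul _))
          refine Filter.Eventually.of_forall fun θ => ?_
          have h2 := exp_diff_sq (l / 2 * F (sel ∅ θ)) (l / 2 * F (sel {j} θ))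
          have h3 : 2 * (l / 2 * F (sel ∅ θ)) = l * F (sel ∅ θ) := by ring
          have h4 : 2 * (l / 2 * F (sel {j} θ)) = l * F (sel {j} θ) := by ring
          rw [h3, h4] at h2
          simp only [Pi.add_apply]
          refine h2.trans (le_of_eq ?_)
          ring
      _ = l ^ 2 / 2 * ∫ θ, (F (sel ∅ θ) - F (sel {j} θ)) ^ 2 * Real.exp (l * F (sel ∅ θ))
            ∂(QQ ι μ) := by
          rw [integral_add ((iI _ _ _).const_mul _) ((iI _ _ _).const_mul _),
            integral_const_mul, integral_const_mul, sym]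
          ring
  have hsum : ∑ j, Inf2 μ (fun ω => Real.exp (l / 2 * F ω)) j ≤
      l ^ 2 * K ^ 2 / 2 * ∫ ω, Real.exp (l * F ω) ∂(PP ι μ) := by
    calc ∑ j, Inf2 μ (fun ω => Real.exp (l / 2 * F ω)) j
        ≤ ∑ j, l ^ 2 / 2 * ∫ θ, (F (sel ∅ θ) - F (sel {j} θ)) ^ 2 *
            Real.exp (l * F (sel ∅ θ)) ∂(QQ ι μ) := Finset.sum_le_sum fun j _ => hinf j
      _ = l ^ 2 / 2 * ∫ θ, ∑ j, (F (sel ∅ θ) - F (sel {j} θ)) ^ 2 *
            Real.exp (l * F (sel ∅ θ)) ∂(QQ ι μ) := by
          rw [← Finset.mul_sum, integral_finset_sum _ fun j _ => iI _ _ _]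
      _ ≤ l ^ 2 / 2 * ∫ θ, K ^ 2 * Real.exp (l * F (sel ∅ θ)) ∂(QQ ι μ) := by
          apply mul_le_mul_of_nonneg_left _ (by positivity)
          apply integral_mono (integrable_finset_sum _ fun j _ => iI _ _ _)
          · apply Integrable.const_mul
            exact int_bd ((hm l).comp (meas_sel ∅)) (C := Real.exp (|l| * B)) fun θ => by
              rw [abs_of_pos (Real.exp_pos _)]; exact eb l _
          · intro θ
            simp only
            rw [← Finset.sum_mul]
            apply mul_le_mul_of_nonneg_right _ (Real.exp_pos _).le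
            refine le_trans (le_of_eq ?_) (h (sel ∅ θ) (sel Finset.univ θ))
            refine Finset.sum_congr rfl fun j _ => ?_
            rw [sel_single j θ]
            ring
      _ = l ^ 2 * K ^ 2 / 2 * ∫ ω, Real.exp (l * F ω) ∂(PP ι μ) := by
          rw [integral_const_mul, int_mp (mp_sel μ ∅) (g := fun ω => Real.exp (l * F ω)) (hm l)]
          ring
  set Y := ∫ ω, Real.exp (l * F ω) ∂(PP ι μ) with hY
  set W := ∫ ω, Real.exp (l / 2 * F ω) ∂(PP ι μ) with hW
  have hY0 : 0 ≤ Y := integral_nonneg fun ω => (Real.exp_pos _).le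
  set x := l ^ 2 * K ^ 2 with hx
  have hx0 : 0 ≤ x := by positivity
  have h3 : Y * (1 - x / 4) ≤ W ^ 2 := by nlinarith
  have h4 : 1 ≤ Real.exp (x / 3) * (1 - x / 4) := by
    have := Real.add_one_le_exp (x / 3)
    nlinarith
  calc Y ≤ Y * (Real.exp (x / 3) * (1 - x / 4)) := by nlinarith
    _ = Real.exp (x / 3) * (Y * (1 - x / 4)) := by ring
    _ ≤ Real.exp (x / 3) * W ^ 2 := mul_le_mul_of_nonneg_left h3 (Real.exp_pos _).le

theorem exp_small (F : (ι → ℝ) → ℝ) (hF : Measurable F) (B : ℝ) (hB : ∀ ω, |F ω| ≤ B) {t : ℝ}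
    (ht : |t| * B ≤ 1) :
    ∫ ω, Real.exp (t * F ω) ∂(PP ι μ) ≤
      Real.exp (t * ∫ ω, F ω ∂(PP ι μ) + t ^ 2 * B ^ 2) := by
  have h2 : ∀ ω, Real.exp (t * F ω) ≤ 1 + t * F ω + t ^ 2 * B ^ 2 := by
    intro ω
    have h3 : |t * F ω| ≤ 1 := by
      rw [abs_mul]
      exact (mul_le_mul_of_nonneg_left (hB ω) (abs_nonneg t)).trans ht
    have h4 := (abs_le.1 (Real.abs_exp_sub_one_sub_id_le h3)).2
    have h5 : (t * F ω) ^ 2 ≤ t ^ 2 * B ^ 2 := by
      rw [mul_pow]
      refine mul_le_mul_of_nonneg_left ?_ (sq_nonneg t)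
      rw [← sq_abs (F ω)]
      exact pow_le_pow_left₀ (abs_nonneg _) (hB ω) 2
    linarith
  have iF : Integrable F (PP ι μ) := int_bd hF hB
  have ic : ∀ c : ℝ, Integrable (fun _ : ι → ℝ => c) (PP ι μ) := fun c => integrable_const c
  have i1 : Integrable (fun ω => 1 + t * F ω) (PP ι μ) := (ic 1).add (iF.const_mul t)
  calc ∫ ω, Real.exp (t * F ω) ∂(PP ι μ)
      ≤ ∫ ω, (1 + t * F ω + t ^ 2 * B ^ 2) ∂(PP ι μ) := by
        apply integral_mono_of_nonneg (Filter.Eventually.of_forall fun ω => (Real.exp_pos _).le)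
          (i1.add (ic _))
        exact Filter.Eventually.of_forall h2
    _ = 1 + (t * ∫ ω, F ω ∂(PP ι μ) + t ^ 2 * B ^ 2) := by
        rw [integral_add i1 (ic _), integral_add (ic 1) (iF.const_mul t), integral_const_mul]
        simp
        ring
    _ ≤ _ := by
        have := Real.add_one_le_exp (t * ∫ ω, F ω ∂(PP ι μ) + t ^ 2 * B ^ 2)
        linarith

/-- Exponential moment bound. -/
theorem exp_conc (F : (ι → ℝ) → ℝ) (hF : Measurable F) (B : ℝ) (hB : ∀ ω, |F ω| ≤ B) (K : ℝ)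
    (h : ∀ ω τ : ι → ℝ, ∑ z, (F (Function.update ω z (τ z)) - F ω) ^ 2 ≤ K ^ 2) (l : ℝ)
    (hl : l ^ 2 * K ^ 2 ≤ 1) :
    ∫ ω, Real.exp (l * F ω) ∂(PP ι μ) ≤
      Real.exp (l * ∫ ω, F ω ∂(PP ι μ) + 2 / 3 * (l ^ 2 * K ^ 2)) := by
  have hV0 : 0 ≤ K ^ 2 := sq_nonneg K
  have hB0 : 0 ≤ B := (abs_nonneg _).trans (hB fun _ => 0)
  have nn : ∀ c : ℝ, 0 ≤ ∫ ω, Real.exp (c * F ω) ∂(PP ι μ) := fun c =>
    integral_nonneg fun ω => (Real.exp_pos _).le
  have iter : ∀ j : ℕ, ∀ l : ℝ, l ^ 2 * K ^ 2 ≤ 1 →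
      ∫ ω, Real.exp (l * F ω) ∂(PP ι μ) ≤ Real.exp (2 / 3 * (l ^ 2 * K ^ 2)) *
        (∫ ω, Real.exp (l / 2 ^ j * F ω) ∂(PP ι μ)) ^ (2 ^ j) := by
    intro j
    induction j with
    | zero =>
      intro l _
      have hx0 : 0 ≤ l ^ 2 * K ^ 2 := mul_nonneg (sq_nonneg l) hV0
      have h3 := nn l
      have h4 : 1 ≤ Real.exp (2 / 3 * (l ^ 2 * K ^ 2)) := Real.one_le_exp (by linarith)
      simp only [pow_zero, div_one, pow_one]
      nlinarith
    | succ j ih =>
      intro l hl
      have hx0 : 0 ≤ l ^ 2 * K ^ 2 := mul_nonneg (sq_nonneg l) hV0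
      have h3 := exp_step (μ := μ) F hF B hB K h l hl
      have h4 := ih (l / 2) (by
        have : (l / 2) ^ 2 * K ^ 2 = l ^ 2 * K ^ 2 / 4 := by ring
        rw [this]; linarith)
      have h5 := nn (l / 2)
      have h6 := pow_le_pow_left₀ h5 h4 2
      refine h3.trans ((mul_le_mul_of_nonneg_left h6 (Real.exp_pos _).le).trans ?_)
      rw [mul_pow, ← mul_assoc, ← Real.exp_nat_mul, ← Real.exp_add, ← pow_mul, ← pow_succ]
      have e1 : l / 2 / 2 ^ j = l / 2 ^ (j + 1) := by
        rw [pow_succ]; field_simp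
      rw [e1]
      refine mul_le_mul_of_nonneg_right ?_ (pow_nonneg (nn _) _)
      apply Real.exp_le_exp.2
      push_cast
      nlinarith
  refine le_of_forall_pos_le_add fun ε hε => ?_
  -- choose `j` with a tiny error
  have hcont : Filter.Tendsto (fun j : ℕ => Real.exp (l * ∫ ω, F ω ∂(PP ι μ) +
      2 / 3 * (l ^ 2 * K ^ 2) + l ^ 2 * B ^ 2 * (1 / 2 : ℝ) ^ j)) Filter.atTop
      (nhds (Real.exp (l * ∫ ω, F ω ∂(PP ι μ) + 2 / 3 * (l ^ 2 * K ^ 2)))) := by
    have h1 : Filter.Tendsto (fun j : ℕ => (1 / 2 : ℝ) ^ j) Filter.atTop (nhds 0) :=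
      tendsto_pow_atTop_nhds_zero_of_lt_one (by norm_num) (by norm_num)
    have h2 := (h1.const_mul (l ^ 2 * B ^ 2)).const_add (l * ∫ ω, F ω ∂(PP ι μ) +
      2 / 3 * (l ^ 2 * K ^ 2))
    rw [mul_zero, add_zero] at h2
    exact (Real.continuous_exp.tendsto _).comp h2
  have hev : ∀ᶠ j : ℕ in Filter.atTop, |l| * B ≤ 2 ^ j := by
    have := tendsto_pow_atTop_atTop_of_one_lt (one_lt_two (α := ℝ))
    exact this.eventually_ge_atTop _
  have hev2 := hcont.eventually_lt_const (lt_add_of_pos_right _ hε)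
  obtain ⟨j, hj1, hj2⟩ := (hev.and hev2).exists
  refine le_trans ?_ hj2.le
  have h3 := iter j l hl
  have h2j : (0 : ℝ) < 2 ^ j := by positivity
  have h4 := exp_small (μ := μ) F hF B hB (t := l / 2 ^ j) (by
    rw [abs_div, abs_of_pos h2j, div_mul_eq_mul_div, div_le_one h2j]; exact hj1)
  have h6 := pow_le_pow_left₀ (nn _) h4 (2 ^ j)
  have h7 := h3.trans (mul_le_mul_of_nonneg_left h6 (Real.exp_pos _).le)
  rw [← Real.exp_nat_mul, ← Real.exp_add] at h7
  refine h7.trans (Real.exp_le_exp.2 ?_)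
  push_cast
  have e1 : (2 : ℝ) ^ j * (l / 2 ^ j * ∫ ω, F ω ∂(PP ι μ) + (l / 2 ^ j) ^ 2 * B ^ 2) =
      l * ∫ ω, F ω ∂(PP ι μ) + l ^ 2 * B ^ 2 * (1 / 2) ^ j := by
    rw [one_div, inv_pow]; field_simp
  rw [e1]
  linarith

end

theorem conc {ι : Type} [Fintype ι] [DecidableEq ι] (μ : Measure ℝ) [IsProbabilityMeasure μ]
    (F : (ι → ℝ) → ℝ) (hF : Measurable F) (B : ℝ) (hB : ∀ ω, |F ω| ≤ B) (K : ℝ) (hK : 0 < K)
    (h : ∀ ω τ : ι → ℝ, ∑ z, (F (Function.update ω z (τ z)) - F ω) ^ 2 ≤ K ^ 2) (t : ℝ) :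
    (Measure.pi fun _ : ι => μ).real
      {ω | t ≤ |F ω - ∫ ω', F ω' ∂(Measure.pi fun _ : ι => μ)|} ≤ 4 * Real.exp (-t / K) := by
  set m := ∫ ω', F ω' ∂(Measure.pi fun _ : ι => μ) with hm
  have hl : (1 / K) ^ 2 * K ^ 2 ≤ 1 := by
    rw [div_pow, one_pow, one_div, inv_mul_cancel₀ (by positivity)]
  have hl' : (-(1 / K)) ^ 2 * K ^ 2 ≤ 1 := by rw [neg_sq]; exact hl
  have hle : (1 / K) ^ 2 * K ^ 2 = 1 := by
    rw [div_pow, one_pow, one_div, inv_mul_cancel₀ (by positivity)]
  have hU := exp_conc (μ := μ) F hF B hB K h (1 / K) hl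
  have hL := exp_conc (μ := μ) F hF B hB K h (-(1 / K)) hl'
  rw [neg_sq] at hL
  rw [hle, ← hm] at hU hL
  have e23 : Real.exp (2 / 3) ≤ 2 := by
    have h1 : Real.exp (2 / 3) ^ 3 ≤ 2 ^ 3 := by
      rw [← Real.exp_nat_mul]
      have h2 : ((3 : ℕ) : ℝ) * (2 / 3) = 1 + 1 := by norm_num
      rw [h2, Real.exp_add]
      have := Real.exp_one_lt_d9
      nlinarith [Real.exp_pos 1]
    exact le_of_pow_le_pow_left₀ (by norm_num) (by norm_num) h1
  have hmeas : ∀ c : ℝ, Measurable fun ω => Real.exp (c * F ω) := fun c => (hF.const_mul c).exp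
  have eb : ∀ (c : ℝ) (ω : ι → ℝ), Real.exp (c * F ω) ≤ Real.exp (|c| * B) := by
    intro c ω
    apply Real.exp_le_exp.2
    calc c * F ω ≤ |c * F ω| := le_abs_self _
      _ = |c| * |F ω| := abs_mul _ _
      _ ≤ |c| * B := mul_le_mul_of_nonneg_left (hB ω) (abs_nonneg _)
  have hint : ∀ c : ℝ, Integrable (fun ω => Real.exp (c * F ω)) (Measure.pi fun _ : ι => μ) :=
    fun c => int_bd (hmeas c) (C := Real.exp (|c| * B)) fun ω => by
      rw [abs_of_pos (Real.exp_pos _)]; exact eb c ω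
  set S := {ω : ι → ℝ | t ≤ |F ω - m|} with hS
  have hSm : MeasurableSet S := measurableSet_le measurable_const (hF.sub_const m).norm
  have hind : (Measure.pi fun _ : ι => μ).real S = ∫ ω, S.indicator (fun _ => (1 : ℝ)) ω
      ∂(Measure.pi fun _ : ι => μ) := by
    rw [integral_indicator hSm]; simp
  rw [hind]
  calc ∫ ω, S.indicator (fun _ => (1 : ℝ)) ω ∂(Measure.pi fun _ : ι => μ)
      ≤ ∫ ω, (Real.exp (-t / K - 1 / K * m) * Real.exp (1 / K * F ω) +
        Real.exp (-t / K + 1 / K * m) * Real.exp (-(1 / K) * F ω))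
        ∂(Measure.pi fun _ : ι => μ) := by
        apply integral_mono_of_nonneg
        · exact Filter.Eventually.of_forall fun ω =>
            Set.indicator_nonneg (fun _ _ => zero_le_one) ω
        · exact ((hint _).const_mul _).add ((hint _).const_mul _)
        · refine Filter.Eventually.of_forall fun ω => ?_
          simp only
          by_cases hω : ω ∈ S
          · rw [Set.indicator_of_mem hω]
            have hω' : t ≤ |F ω - m| := hω
            rw [← Real.exp_add, ← Real.exp_add]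
            rcases le_abs.1 hω' with h1 | h1
            · have h2 : 1 ≤ Real.exp (-t / K - 1 / K * m + 1 / K * F ω) := by
                apply Real.one_le_exp
                have : -t / K - 1 / K * m + 1 / K * F ω = (F ω - m - t) / K := by
                  field_simp; ring
                rw [this]
                exact div_nonneg (by linarith) hK.le
              linarith [Real.exp_pos (-t / K + 1 / K * m + -(1 / K) * F ω)]
            · have h2 : 1 ≤ Real.exp (-t / K + 1 / K * m + -(1 / K) * F ω) := by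
                apply Real.one_le_exp
                have : -t / K + 1 / K * m + -(1 / K) * F ω = (-(F ω - m) - t) / K := by
                  field_simp; ring
                rw [this]
                exact div_nonneg (by linarith) hK.le
              linarith [Real.exp_pos (-t / K - 1 / K * m + 1 / K * F ω)]
          · rw [Set.indicator_of_notMem hω]
            positivity
    _ = Real.exp (-t / K - 1 / K * m) * ∫ ω, Real.exp (1 / K * F ω) ∂(Measure.pi fun _ : ι => μ) +
        Real.exp (-t / K + 1 / K * m) * ∫ ω, Real.exp (-(1 / K) * F ω)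
          ∂(Measure.pi fun _ : ι => μ) := by
        rw [integral_add ((hint _).const_mul _) ((hint _).const_mul _), integral_const_mul,
          integral_const_mul]
    _ ≤ Real.exp (-t / K - 1 / K * m) * Real.exp (1 / K * m + 2 / 3 * 1) +
        Real.exp (-t / K + 1 / K * m) * Real.exp (-(1 / K) * m + 2 / 3 * 1) := by
        gcongr
    _ = 2 * Real.exp (2 / 3) * Real.exp (-t / K) := by
        rw [← Real.exp_add, ← Real.exp_add, mul_assoc, ← Real.exp_add, two_mul]
        congr 1 <;> congr 1 <;> ring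
    _ ≤ 4 * Real.exp (-t / K) := by
        have := Real.exp_pos (-t / K)
        nlinarith

end Pool.Agent.H4R2.AE.Conc
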