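import Pool.Agent.H4R2.AE.Defs

/-!
Poincare inequality on the discrete torus (task POI of h4_tasks, by helper465).

Proof: `N a = (∑ x, (v (x + a) - v x)^2)^(1/2)` is a subadditive function of the translation `a`.
-/

set_option autoImplicit false

open scoped BigOperators

namespace Pool.Agent.H4R2.AE

namespace Poi

variable {d L : ℕ} [NeZero L]

/-- `ℓ²` norm of the increment of `v` by the translation `a` -/
noncomputable def N (v : T d L → ℝ) (a : T d L) : ℝ :=
  ‖(WithLp.toLp 2 fun x => v (x + a) - v x : EuclideanSpace ℝ (T d L))‖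

theorem N_nonneg (v : T d L → ℝ) (a : T d L) : 0 ≤ N v a := norm_nonneg _

theorem N_sq (v : T d L → ℝ) (a : T d L) : N v a ^ 2 = ∑ x, (v (x + a) - v x) ^ 2 := by
  rw [N, EuclideanSpace.norm_sq_eq]
  simp

theorem N_zero (v : T d L → ℝ) : N v 0 = 0 := by
  have h := N_sq v 0
  simp only [add_zero, sub_self] at h
  simpa using h

theorem N_add (v : T d L → ℝ) (a b : T d L) : N v (a + b) ≤ N v a + N v b := by
  have h1 : (WithLp.toLp 2 fun x => v (x + (a + b)) - v x : EuclideanSpace ℝ (T d L)) =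
      (WithLp.toLp 2 fun x => v (x + b + a) - v (x + b) : EuclideanSpace ℝ (T d L)) +
      (WithLp.toLp 2 fun x => v (x + b) - v x : EuclideanSpace ℝ (T d L)) := by
    ext x
    simp only [PiLp.add_apply]
    rw [show x + (a + b) = x + b + a by abel]
    ring
  have h2 : ‖(WithLp.toLp 2 fun x => v (x + b + a) - v (x + b) : EuclideanSpace ℝ (T d L))‖ =
      N v a := by
    have h3 : ‖(WithLp.toLp 2 fun x => v (x + b + a) - v (x + b) : EuclideanSpace ℝ (T d L))‖ ^ 2 =
        N v a ^ 2 := by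
      rw [N_sq, EuclideanSpace.norm_sq_eq]
      simp only [Real.norm_eq_abs, sq_abs]
      exact Equiv.sum_comp (Equiv.addRight b) (fun x => (v (x + a) - v x) ^ 2)
    nlinarith [norm_nonneg (WithLp.toLp 2 fun x => v (x + b + a) - v (x + b) :
      EuclideanSpace ℝ (T d L)), N_nonneg v a, abs_eq_abs.1 ((sq_eq_sq_iff_abs_eq_abs _ _).1 h3)]
  rw [N, h1]
  refine (norm_add_le _ _).trans ?_
  rw [h2]
  rfl

theorem N_nsmul (v : T d L → ℝ) (n : ℕ) (a : T d L) : N v (n • a) ≤ n * N v a := by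
  induction n with
  | zero => simp [N_zero]
  | succ n ih =>
    rw [add_smul, one_smul]
    refine (N_add v _ _).trans ?_
    push_cast
    linarith

theorem N_sum (v : T d L → ℝ) (s : Finset (Fin d)) (a : Fin d → T d L) :
    N v (∑ i ∈ s, a i) ≤ ∑ i ∈ s, N v (a i) := by
  classical
  induction s using Finset.induction_on with
  | empty => simp [N_zero]
  | insert i s hi ih =>
    rw [Finset.sum_insert hi, Finset.sum_insert hi]
    exact (N_add v _ _).trans (by linarith)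

theorem decomp (a : T d L) : a = ∑ i : Fin d, (a i).val • (Pi.single i (1 : ZMod L) : T d L) := by
  ext j
  rw [Finset.sum_apply, Finset.sum_eq_single j]
  · simp
  · intro i _ hij
    simp [Pi.single_eq_of_ne hij.symm]
  · intro h
    exact absurd (Finset.mem_univ j) h

theorem N_sq_le (v : T d L → ℝ) (a : T d L) :
    N v a ^ 2 ≤ (d : ℝ) * (L : ℝ) ^ 2 * ∑ i : Fin d, N v (Pi.single i 1) ^ 2 := by
  have h1 : N v a ≤ ∑ i : Fin d, (L : ℝ) * N v (Pi.single i 1) := by
    conv_lhs => rw [decomp a]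
    refine (N_sum v _ _).trans (Finset.sum_le_sum fun i _ => ?_)
    refine (N_nsmul v _ _).trans ?_
    have h2 : ((a i).val : ℝ) ≤ L := by exact_mod_cast (ZMod.val_lt (a i)).le
    exact mul_le_mul_of_nonneg_right h2 (N_nonneg _ _)
  calc N v a ^ 2 ≤ (∑ i : Fin d, (L : ℝ) * N v (Pi.single i 1)) ^ 2 :=
        pow_le_pow_left₀ (N_nonneg _ _) h1 2
    _ ≤ (Finset.univ : Finset (Fin d)).card * ∑ i : Fin d, ((L : ℝ) * N v (Pi.single i 1)) ^ 2 :=
        sq_sum_le_card_mul_sum_sq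
    _ = (d : ℝ) * (L : ℝ) ^ 2 * ∑ i : Fin d, N v (Pi.single i 1) ^ 2 := by
        have h3 : ∑ i : Fin d, ((L : ℝ) * N v (Pi.single i 1)) ^ 2 =
            (L : ℝ) ^ 2 * ∑ i : Fin d, N v (Pi.single i 1) ^ 2 := by
          rw [Finset.mul_sum]
          exact Finset.sum_congr rfl fun i _ => by ring
        rw [Finset.card_univ, Fintype.card_fin, h3]
        ring

theorem sum_N_sq (v : T d L → ℝ) (hv : ∑ x, v x = 0) :
    ∑ a, N v a ^ 2 = 2 * (Fintype.card (T d L) : ℝ) * ∑ x, v x ^ 2 := by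
  simp only [N_sq]
  rw [Finset.sum_comm]
  have h1 : ∀ x, ∑ a, (v (x + a) - v x) ^ 2 = ∑ y, (v y - v x) ^ 2 := fun x =>
    Equiv.sum_comp (Equiv.addLeft x) (fun y => (v y - v x) ^ 2)
  have h2 : ∀ x, ∑ y, (v y - v x) ^ 2 = ∑ y, v y ^ 2 + (Fintype.card (T d L) : ℝ) * v x ^ 2 := by
    intro x
    have : ∀ y, (v y - v x) ^ 2 = v y ^ 2 + v x ^ 2 - 2 * v x * v y := fun y => by ring
    simp only [this, Finset.sum_sub_distrib, Finset.sum_add_distrib, ← Finset.mul_sum, hv,
      Finset.sum_const, Finset.card_univ, nsmul_eq_mul]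
    ring
  simp only [h1, h2, Finset.sum_add_distrib, ← Finset.mul_sum, Finset.sum_const,
    Finset.card_univ, nsmul_eq_mul]
  ring

theorem poincare (d L : ℕ) [NeZero L] (v : T d L → ℝ) (hv : ∑ x, v x = 0) :
    ∑ x, v x ^ 2 ≤ (d : ℝ) / 2 * (L : ℝ) ^ 2 * ∑ i : Fin d, ∑ x, (v (x + Pi.single i 1) - v x) ^ 2 := by
  have h1 := sum_N_sq v hv
  have h2 : ∑ a, N v a ^ 2 ≤ (Fintype.card (T d L) : ℝ) *
      ((d : ℝ) * (L : ℝ) ^ 2 * ∑ i : Fin d, N v (Pi.single i 1) ^ 2) := by
    refine (Finset.sum_le_sum fun a _ => N_sq_le v a).trans ?_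
    rw [Finset.sum_const, Finset.card_univ, nsmul_eq_mul]
  simp only [N_sq v (Pi.single _ 1)] at h2
  have hc : (0 : ℝ) < Fintype.card (T d L) := by exact_mod_cast Fintype.card_pos
  rw [h1] at h2
  have h3 : 2 * ∑ x, v x ^ 2 ≤
      (d : ℝ) * (L : ℝ) ^ 2 * ∑ i : Fin d, ∑ x, (v (x + Pi.single i 1) - v x) ^ 2 :=
    le_of_mul_le_mul_left (by linarith) hc
  linarith

end Poi

end Pool.Agent.H4R2.AE

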