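import Pool.Agent.H4R2.AE.PerpCore
import Pool.Agent.H4R2.AE.Poi

/-! Fluctuation bound for Green functions with arbitrarily small constant mass -/

set_option autoImplicit false

open scoped BigOperators
open MeasureTheory

namespace Pool.Agent.H4R2.AE

namespace Perp

theorem perp (d L : ℕ) [NeZero L] (hd : 1 ≤ d) (Γ : ℝ) (hΓ : 0 ≤ Γ) (hGB : GB d L Γ)
    (u h : T d L → ℝ) (κ : ℝ) (hκ : 0 < κ) (z : T d L) (hu : ∀ x, 1 / 2 ≤ u x)
    (hh : ∀ x, LapW u h x + κ * h x = if x = z then 1 else 0) :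
    ∑ x, (h x - 1 / (κ * (L : ℝ) ^ d)) ^ 2 ≤ ((2 * (d : ℝ) + 1) * Γ) ^ 2 :=
  perp_core hd (Poi.poincare d L) Γ hΓ hGB u h κ hκ z hu hh

end Perp

end Pool.Agent.H4R2.AE
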