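import Pool.Agent.H4R2.AE.Lin
import Pool.Agent.H4R2.AE.Cmp
import Pool.Agent.H4R2.AE.Perp

set_option autoImplicit false

open scoped BigOperators

namespace Pool.Agent.H4R2.AE
namespace Sens

set_option linter.unusedSectionVars false
variable {d L : ℕ} [NeZero L]

/-- the key identity -/
theorem key (lam δ κ E : ℝ) (V V' w w' : T d L → ℝ) (hw : IsSol lam δ κ V E w)
    (hw' : IsSol lam δ κ V' E w') (x : T d L) :
    LapW (fun y => Real.exp (w y)) (fun y => Real.exp (w' y - w y)) x =
      -((lam * (V' x - V x) + (beta lam δ κ (w' x) - beta lam δ κ (w x))) *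
        Real.exp (w x + w' x)) := by
  have h1 := hw x
  have h2 := hw' x
  unfold LapW
  have e1 : ∀ y : T d L, Real.exp (w x) * Real.exp (w y) *
      (Real.exp (w' x - w x) - Real.exp (w' y - w y)) =
      Real.exp (w x + w' x) * ((1 - Real.exp (w' y - w' x)) - (1 - Real.exp (w y - w x))) := by
    intro y
    have a1 : Real.exp (w x) * Real.exp (w y) * Real.exp (w' x - w x) = Real.exp (w y + w' x) := by
      rw [← Real.exp_add, ← Real.exp_add]; congr 1; ring
    have a2 : Real.exp (w x) * Real.exp (w y) * Real.exp (w' y - w y) = Real.exp (w x + w' y) := by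
      rw [← Real.exp_add, ← Real.exp_add]; congr 1; ring
    have a3 : Real.exp (w x + w' x) * Real.exp (w' y - w' x) = Real.exp (w x + w' y) := by
      rw [← Real.exp_add]; congr 1; ring
    have a4 : Real.exp (w x + w' x) * Real.exp (w y - w x) = Real.exp (w y + w' x) := by
      rw [← Real.exp_add]; congr 1; ring
    rw [mul_sub, a1, a2]
    have : Real.exp (w x + w' x) * (1 - Real.exp (w' y - w' x) - (1 - Real.exp (w y - w x))) =
      Real.exp (w x + w' x) * Real.exp (w y - w x) -
        Real.exp (w x + w' x) * Real.exp (w' y - w' x) := by ring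
    rw [this, a3, a4]
  have e2 : ∑ i : Fin d, (Real.exp (w x) * Real.exp (w (x + Pi.single i 1)) *
      (Real.exp (w' x - w x) - Real.exp (w' (x + Pi.single i 1) - w (x + Pi.single i 1))) +
      Real.exp (w x) * Real.exp (w (x - Pi.single i 1)) *
      (Real.exp (w' x - w x) - Real.exp (w' (x - Pi.single i 1) - w (x - Pi.single i 1)))) =
      Real.exp (w x + w' x) *
      (∑ i : Fin d, ((1 - Real.exp (w' (x + Pi.single i 1) - w' x)) +
        (1 - Real.exp (w' (x - Pi.single i 1) - w' x))) -
      ∑ i : Fin d, ((1 - Real.exp (w (x + Pi.single i 1) - w x)) +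
        (1 - Real.exp (w (x - Pi.single i 1) - w x)))) := by
    rw [← Finset.sum_sub_distrib, Finset.mul_sum]
    refine Finset.sum_congr rfl fun i _ => ?_
    rw [e1, e1]
    ring
  rw [e2]
  have h3 : ∑ i : Fin d, ((1 - Real.exp (w' (x + Pi.single i 1) - w' x)) +
        (1 - Real.exp (w' (x - Pi.single i 1) - w' x))) -
      ∑ i : Fin d, ((1 - Real.exp (w (x + Pi.single i 1) - w x)) +
        (1 - Real.exp (w (x - Pi.single i 1) - w x))) =
      -(lam * (V' x - V x) + (beta lam δ κ (w' x) - beta lam δ κ (w x))) := by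
    linarith
  rw [h3]
  ring

/-- the one-site differential inequality gives a bound by the Green function -/
theorem green_bound (u Gr h : T d L → ℝ) (κ' S : ℝ) (x0 z : T d L)
    (hGr : ∀ x, LapW u Gr x + κ' * Gr x = if x = x0 then 1 else 0) (hGr0 : ∀ x, 0 ≤ Gr x)
    (hh : ∀ x, LapW u h x + κ' * h x ≤ if x = z then S else 0) :
    h x0 ≤ S * Gr z := by
  have h1 : ∑ x, h x * (LapW u Gr x + κ' * Gr x) = h x0 := by
    simp only [hGr]
    simp
  have h2 : ∑ x, h x * (LapW u Gr x + κ' * Gr x) = ∑ x, Gr x * (LapW u h x + κ' * h x) := by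
    simp only [mul_add, Finset.sum_add_distrib]
    rw [Lin.symm u h Gr]
    congr 1
    exact Finset.sum_congr rfl fun x _ => by ring
  have h3 : ∑ x, Gr x * (LapW u h x + κ' * h x) ≤ ∑ x, Gr x * (if x = z then S else 0) :=
    Finset.sum_le_sum fun x _ => mul_le_mul_of_nonneg_left (hh x) (hGr0 x)
  have h4 : ∑ x, Gr x * (if x = z then S else 0) = S * Gr z := by
    simp [mul_comm]
  linarith

/-- pointwise claim -/
theorem claim (lam δ κ E : ℝ) (hlam : 0 < lam) (hδ : 0 < δ) (hδ' : δ ≤ 1 / 8) (hκ : 0 < κ)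
    (hE : |E| ≤ lam)
    (V w V' w' : T d L → ℝ) (hV : ∀ x, |V x| ≤ 1) (hV' : ∀ x, |V' x| ≤ 1)
    (hw : IsSol lam δ κ V E w) (hw' : IsSol lam δ κ V' E w') (z x0 : T d L)
    (hVV' : ∀ y, y ≠ z → V' y = V y) (Gr : T d L → ℝ)
    (hGr : ∀ x, LapW (fun y => Real.exp (w y)) Gr x + κ * Real.exp (-(4 * δ)) * Gr x =
      if x = x0 then 1 else 0) (hGr0 : ∀ x, 0 ≤ Gr x) :
    |w' x0 - w x0| ≤ 2 * Real.exp 1 * lam * Gr z := by
  have bw := Cmp.bound lam δ κ E hlam hδ hκ hE V w hV hw
  have bw' := Cmp.bound lam δ κ E hlam hδ hκ hE V' w' hV' hw'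
  have hprod : ∀ x, Real.exp (-(4 * δ)) ≤ Real.exp (w x + w' x) := by
    intro x
    apply Real.exp_le_exp.mpr
    have := abs_le.mp (bw x)
    have := abs_le.mp (bw' x)
    linarith
  have hprod' : ∀ x, Real.exp (w x + w' x) ≤ Real.exp (4 * δ) := by
    intro x
    apply Real.exp_le_exp.mpr
    have := abs_le.mp (bw x)
    have := abs_le.mp (bw' x)
    linarith
  have hS : ∀ s : ℝ, 0 ≤ s → s ≤ 2 → ∀ x, lam * s * Real.exp (w x + w' x) ≤
      2 * lam * Real.exp (4 * δ) := by
    intro s hs hs2 x
    have h1 := hprod' x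
    have h2 : lam * s ≤ 2 * lam := by nlinarith
    exact mul_le_mul h2 h1 (Real.exp_pos _).le (by positivity)
  have hGz := hGr0 z
  -- key estimate exp (4δ) * (2 lam exp (4δ)) ≤ 2 e lam
  have hconst : Real.exp (4 * δ) * (2 * lam * Real.exp (4 * δ) * Gr z) ≤
      2 * Real.exp 1 * lam * Gr z := by
    have : Real.exp (4 * δ) * Real.exp (4 * δ) ≤ Real.exp 1 := by
      rw [← Real.exp_add]
      exact Real.exp_le_exp.mpr (by linarith)
    have h2 : Real.exp (4 * δ) * (2 * lam * Real.exp (4 * δ) * Gr z) =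
      (Real.exp (4 * δ) * Real.exp (4 * δ)) * (2 * lam * Gr z) := by ring
    rw [h2]
    have h3 : (Real.exp (4 * δ) * Real.exp (4 * δ)) * (2 * lam * Gr z) ≤
        Real.exp 1 * (2 * lam * Gr z) := mul_le_mul_of_nonneg_right this (by positivity)
    linarith
  rcases le_total (V' z) (V z) with hz | hz
  · -- case A : w' ≥ w
    have hle : ∀ x, w x ≤ w' x := by
      have := Cmp.compare lam δ κ hlam hδ hκ V' V E E w' w hw' hw 0 le_rfl (by
        intro x
        by_cases hx : x = z
        · subst hx
          nlinarith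
        · rw [hVV' x hx]; simp)
      intro x
      have := this x
      rw [zero_div] at this
      linarith
    have hmain := green_bound (fun y => Real.exp (w y)) Gr
      (fun y => Real.exp (w' y - w y) - 1) (κ * Real.exp (-(4 * δ))) (2 * lam * Real.exp (4 * δ))
      x0 z hGr hGr0 (by
        intro x
        have hk := key lam δ κ E V V' w w' hw hw' x
        have hL : LapW (fun y => Real.exp (w y)) (fun y => Real.exp (w' y - w y) - 1) x =
            LapW (fun y => Real.exp (w y)) (fun y => Real.exp (w' y - w y)) x := by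
          unfold LapW
          refine Finset.sum_congr rfl fun i _ => ?_
          simp only
          ring
        rw [hL, hk]
        have hb := Cmp.beta_mono lam δ κ hlam hδ (w' x) (w x) (hle x)
        set t := w' x - w x with ht
        have ht0 : 0 ≤ t := by have := hle x; linarith
        have hu2 : Real.exp (w x + w' x) = Real.exp (2 * w x) * Real.exp t := by
          rw [← Real.exp_add]; congr 1; rw [ht]; ring
        have htt : Real.exp t - 1 ≤ t * Real.exp t := by
          have h1 : 1 - t ≤ Real.exp (-t) := by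
            have := Real.add_one_le_exp (-t); linarith
          have h2 : (1 - t) * Real.exp t ≤ Real.exp (-t) * Real.exp t :=
            mul_le_mul_of_nonneg_right h1 (Real.exp_pos _).le
          rw [← Real.exp_add] at h2
          simp at h2
          linarith
        have he0 : 0 ≤ Real.exp t - 1 := by
          have := Real.one_le_exp ht0; linarith
        have h2w : Real.exp (-(4 * δ)) ≤ Real.exp (2 * w x) := by
          apply Real.exp_le_exp.mpr
          have := abs_le.mp (bw x)
          linarith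
        have h3 : κ * Real.exp (-(4 * δ)) * (Real.exp t - 1) ≤
            (beta lam δ κ (w' x) - beta lam δ κ (w x)) * Real.exp (w x + w' x) := by
          calc κ * Real.exp (-(4 * δ)) * (Real.exp t - 1)
              ≤ κ * Real.exp (2 * w x) * (Real.exp t - 1) := by
                apply mul_le_mul_of_nonneg_right _ he0
                exact mul_le_mul_of_nonneg_left h2w hκ.le
            _ ≤ κ * Real.exp (2 * w x) * (t * Real.exp t) := by
                apply mul_le_mul_of_nonneg_left htt
                positivity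
            _ = (κ * t) * Real.exp (w x + w' x) := by rw [hu2]; ring
            _ ≤ _ := by
                apply mul_le_mul_of_nonneg_right _ (Real.exp_pos _).le
                exact hb
        by_cases hx : x = z
        · subst hx
          rw [if_pos rfl]
          have h4 := hS (V x - V' x) (by linarith) (by
            have := abs_le.mp (hV x)
            have := abs_le.mp (hV' x)
            linarith) x
          nlinarith
        · rw [if_neg hx, hVV' x hx]
          nlinarith)
    have h5 : w' x0 - w x0 ≤ Real.exp (w' x0 - w x0) - 1 := by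
      have := Real.add_one_le_exp (w' x0 - w x0); linarith
    rw [abs_of_nonneg (by have := hle x0; linarith)]
    have h6 : 1 ≤ Real.exp (4 * δ) := Real.one_le_exp (by linarith)
    have h7 : 0 ≤ 2 * lam * Real.exp (4 * δ) * Gr z := by positivity
    nlinarith
  · -- case B : w' ≤ w
    have hle : ∀ x, w' x ≤ w x := by
      have := Cmp.compare lam δ κ hlam hδ hκ V V' E E w w' hw hw' 0 le_rfl (by
        intro x
        by_cases hx : x = z
        · subst hx
          nlinarith
        · rw [hVV' x hx]; simp)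
      intro x
      have := this x
      rw [zero_div] at this
      linarith
    have hmain := green_bound (fun y => Real.exp (w y)) Gr
      (fun y => 1 - Real.exp (w' y - w y)) (κ * Real.exp (-(4 * δ))) (2 * lam * Real.exp (4 * δ))
      x0 z hGr hGr0 (by
        intro x
        have hk := key lam δ κ E V V' w w' hw hw' x
        have hL : LapW (fun y => Real.exp (w y)) (fun y => 1 - Real.exp (w' y - w y)) x =
            -LapW (fun y => Real.exp (w y)) (fun y => Real.exp (w' y - w y)) x := by
          unfold LapW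
          rw [← Finset.sum_neg_distrib]
          refine Finset.sum_congr rfl fun i _ => ?_
          simp only
          ring
        rw [hL, hk]
        have hb := Cmp.beta_mono lam δ κ hlam hδ (w x) (w' x) (hle x)
        set t := w' x - w x with ht
        have ht0 : t ≤ 0 := by have := hle x; linarith
        have he0 : 0 ≤ 1 - Real.exp t := by
          have := Real.exp_le_one_iff.mpr ht0; linarith
        have htt : 1 - Real.exp t ≤ -t := by
          have := Real.add_one_le_exp t; linarith
        have h3 : κ * Real.exp (-(4 * δ)) * (1 - Real.exp t) ≤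
            (beta lam δ κ (w x) - beta lam δ κ (w' x)) * Real.exp (w x + w' x) := by
          calc κ * Real.exp (-(4 * δ)) * (1 - Real.exp t)
              ≤ κ * Real.exp (w x + w' x) * (1 - Real.exp t) := by
                apply mul_le_mul_of_nonneg_right _ he0
                exact mul_le_mul_of_nonneg_left (hprod x) hκ.le
            _ ≤ κ * Real.exp (w x + w' x) * (-t) := by
                apply mul_le_mul_of_nonneg_left htt
                positivity
            _ = (κ * (w x - w' x)) * Real.exp (w x + w' x) := by rw [ht]; ring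
            _ ≤ _ := by
                apply mul_le_mul_of_nonneg_right _ (Real.exp_pos _).le
                exact hb
        by_cases hx : x = z
        · subst hx
          rw [if_pos rfl]
          have h4 := hS (V' x - V x) (by linarith) (by
            have := abs_le.mp (hV x)
            have := abs_le.mp (hV' x)
            linarith) x
          nlinarith
        · rw [if_neg hx, hVV' x hx]
          nlinarith)
    have h5 : w x0 - w' x0 ≤ Real.exp (4 * δ) * (1 - Real.exp (w' x0 - w x0)) := by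
      set t := w' x0 - w x0 with ht
      have h1 : w x0 - w' x0 ≤ Real.exp (w x0 - w' x0) - 1 := by
        have := Real.add_one_le_exp (w x0 - w' x0); linarith
      have h2 : Real.exp (w x0 - w' x0) - 1 = Real.exp (w x0 - w' x0) * (1 - Real.exp t) := by
        rw [mul_sub, mul_one, ← Real.exp_add, ht]
        have : w x0 - w' x0 + (w' x0 - w x0) = 0 := by ring
        rw [this, Real.exp_zero]
      have h3 : Real.exp (w x0 - w' x0) ≤ Real.exp (4 * δ) := by
        apply Real.exp_le_exp.mpr
        have := abs_le.mp (bw x0)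
        have := abs_le.mp (bw' x0)
        linarith
      have h4 : 0 ≤ 1 - Real.exp t := by
        have : t ≤ 0 := by have := hle x0; linarith
        have := Real.exp_le_one_iff.mpr this; linarith
      calc w x0 - w' x0 ≤ Real.exp (w x0 - w' x0) * (1 - Real.exp t) := by linarith
        _ ≤ _ := mul_le_mul_of_nonneg_right h3 h4
    rw [abs_of_nonpos (by have := hle x0; linarith)]
    have h6 : 0 < Real.exp (4 * δ) := Real.exp_pos _
    have h7 := mul_le_mul_of_nonneg_left hmain h6.le
    linarith

theorem card_T : (Fintype.card (T d L) : ℝ) = (L : ℝ) ^ d := by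
  have : Fintype.card (T d L) = L ^ d := by
    simp [T, ZMod.card]
  rw [this]; push_cast; rfl

/-- sum of squares of the Green function -/
theorem green_sq (hd : 1 ≤ d) (Γ : ℝ) (hΓ : 0 < Γ) (hGB : GB d L Γ) (δ : ℝ) (hδ : 0 < δ)
    (hδ' : δ ≤ 1 / 8) (u Gr : T d L → ℝ) (x0 : T d L) (hu : ∀ x, 1 / 2 ≤ u x)
    (hGr : ∀ x, LapW u Gr x + kap d L Γ * Real.exp (-(4 * δ)) * Gr x =
      if x = x0 then 1 else 0) :
    ∑ x, Gr x ^ 2 ≤ 13 * ((2 * (d : ℝ) + 1) * Γ) ^ 2 := by
  have hL : 0 < (L : ℝ) := by
    have : 0 < L := Nat.pos_of_ne_zero (NeZero.ne L)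
    exact_mod_cast this
  have hLd : 0 < (L : ℝ) ^ d := by positivity
  have hkap : 0 < kap d L Γ := by unfold kap; positivity
  set κ' := kap d L Γ * Real.exp (-(4 * δ)) with hκ'
  have hκ'0 : 0 < κ' := by positivity
  have hp := Perp.perp d L hd Γ hΓ.le hGB u Gr κ' hκ'0 x0 hu hGr
  set m := 1 / (κ' * (L : ℝ) ^ d) with hm
  have hsum : ∑ x, Gr x = m * (L : ℝ) ^ d := by
    have h1 : ∑ x, (LapW u Gr x + κ' * Gr x) = 1 := by
      simp only [hGr]; simp
    rw [Finset.sum_add_distrib, Lin.sum_lapW, zero_add, ← Finset.mul_sum] at h1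
    rw [hm]
    field_simp
    linarith
  have hexp : ∑ x, (Gr x - m) ^ 2 = ∑ x, Gr x ^ 2 - m ^ 2 * (L : ℝ) ^ d := by
    have h1 : ∀ x, (Gr x - m) ^ 2 = Gr x ^ 2 - 2 * m * Gr x + m ^ 2 := fun x => by ring
    simp only [h1, Finset.sum_add_distrib, Finset.sum_sub_distrib, ← Finset.mul_sum, hsum]
    rw [Finset.sum_const, Finset.card_univ, nsmul_eq_mul, card_T]
    ring
  have hm2 : m ^ 2 * (L : ℝ) ^ d ≤ 12 * ((2 * (d : ℝ) + 1) * Γ) ^ 2 := by
    have hsq : Real.sqrt ((L : ℝ) ^ d) ^ 2 = (L : ℝ) ^ d := Real.sq_sqrt hLd.le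
    have hΓ1 : 0 < (2 * (d : ℝ) + 1) * Γ := by positivity
    have h1 : m ^ 2 * (L : ℝ) ^ d = 4 * ((2 * (d : ℝ) + 1) * Γ) ^ 2 * Real.exp (8 * δ) := by
      rw [hm, hκ']
      unfold kap
      have hs0 : 0 < Real.sqrt ((L : ℝ) ^ d) := Real.sqrt_pos.mpr hLd
      set s := Real.sqrt ((L : ℝ) ^ d) with hs
      rw [← hsq]
      have he : Real.exp (8 * δ) = (Real.exp (-(4 * δ)) ^ 2)⁻¹ := by
        rw [← Real.exp_nat_mul, ← Real.exp_neg]
        congr 1; push_cast; ring
      rw [he]
      have := Real.exp_pos (-(4 * δ))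
      field_simp
      ring
    rw [h1]
    have h2 : Real.exp (8 * δ) ≤ 3 := by
      calc Real.exp (8 * δ) ≤ Real.exp 1 := Real.exp_le_exp.mpr (by linarith)
        _ ≤ 3 := by have := Real.exp_one_lt_d9; linarith
    nlinarith [sq_nonneg ((2 * (d : ℝ) + 1) * Γ)]
  linarith

theorem sens (d L : ℕ) [NeZero L] (hd : 1 ≤ d) (Γ : ℝ) (hΓ : 0 < Γ) (hGB : GB d L Γ)
    (lam δ E : ℝ) (hlam : 0 < lam) (hδ : 0 < δ) (hδ' : δ ≤ 1 / 8) (hE : |E| ≤ lam)
    (V w : T d L → ℝ) (hV : ∀ x, |V x| ≤ 1) (hw : IsSol lam δ (kap d L Γ) V E w)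
    (V' w' : T d L → T d L → ℝ) (hV' : ∀ z y, |V' z y| ≤ 1) (hVV' : ∀ z y, y ≠ z → V' z y = V y)
    (hw' : ∀ z, IsSol lam δ (kap d L Γ) (V' z) E (w' z)) (x : T d L) :
    ∑ z, (w' z x - w x) ^ 2 ≤ (40 * (2 * (d : ℝ) + 1) * Γ * lam) ^ 2 := by
  have hL : 0 < (L : ℝ) := by
    have : 0 < L := Nat.pos_of_ne_zero (NeZero.ne L)
    exact_mod_cast this
  have hkap : 0 < kap d L Γ := by unfold kap; positivity
  have bw := Cmp.bound lam δ (kap d L Γ) E hlam hδ hkap hE V w hV hw
  obtain ⟨Gr, hGr⟩ := Lin.solve (fun y => Real.exp (w y))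
    (fun _ : T d L => kap d L Γ * Real.exp (-(4 * δ))) (fun y => if y = x then (1 : ℝ) else 0)
    (fun y => Real.exp_pos _) (fun _ => by positivity)
  have hGr0 : ∀ y, 0 ≤ Gr y := by
    refine Lin.nonneg (fun y => Real.exp (w y))
      (fun _ : T d L => kap d L Γ * Real.exp (-(4 * δ))) Gr (fun y => Real.exp_pos _)
      (fun _ => by positivity) ?_
    intro y
    rw [hGr y]
    split_ifs <;> norm_num
  have hu : ∀ y, 1 / 2 ≤ Real.exp (w y) := by
    intro y
    have := abs_le.mp (bw y)
    have := Real.add_one_le_exp (w y)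
    linarith
  have hsq := green_sq hd Γ hΓ hGB δ hδ hδ' (fun y => Real.exp (w y)) Gr x hu hGr
  have hcl : ∀ z, (w' z x - w x) ^ 2 ≤ (2 * Real.exp 1 * lam) ^ 2 * Gr z ^ 2 := by
    intro z
    have h1 := claim lam δ (kap d L Γ) E hlam hδ hδ' hkap hE V w (V' z) (w' z) hV (hV' z) hw
      (hw' z) z x (hVV' z) Gr hGr hGr0
    have h2 : (w' z x - w x) ^ 2 ≤ (2 * Real.exp 1 * lam * Gr z) ^ 2 := by
      rw [← sq_abs (w' z x - w x)]
      exact pow_le_pow_left₀ (abs_nonneg _) h1 2
    calc _ ≤ _ := h2
      _ = _ := by ring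
  calc ∑ z, (w' z x - w x) ^ 2 ≤ ∑ z, (2 * Real.exp 1 * lam) ^ 2 * Gr z ^ 2 :=
        Finset.sum_le_sum fun z _ => hcl z
    _ = (2 * Real.exp 1 * lam) ^ 2 * ∑ z, Gr z ^ 2 := by rw [Finset.mul_sum]
    _ ≤ (2 * Real.exp 1 * lam) ^ 2 * (13 * ((2 * (d : ℝ) + 1) * Γ) ^ 2) :=
        mul_le_mul_of_nonneg_left hsq (by positivity)
    _ ≤ (40 * (2 * (d : ℝ) + 1) * Γ * lam) ^ 2 := by
        have he : Real.exp 1 ^ 2 ≤ 9 := by
          have h1 : Real.exp 1 ≤ 3 := by have := Real.exp_one_lt_d9; linarith
          have h0 : 0 < Real.exp 1 := Real.exp_pos 1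
          nlinarith
        have h2 : (2 * Real.exp 1 * lam) ^ 2 * (13 * ((2 * (d : ℝ) + 1) * Γ) ^ 2) =
          52 * Real.exp 1 ^ 2 * (lam ^ 2 * ((2 * (d : ℝ) + 1) * Γ) ^ 2) := by ring
        have h3 : (40 * (2 * (d : ℝ) + 1) * Γ * lam) ^ 2 =
          1600 * (lam ^ 2 * ((2 * (d : ℝ) + 1) * Γ) ^ 2) := by ring
        rw [h2, h3]
        apply mul_le_mul_of_nonneg_right _ (by positivity)
        linarith

end Sens
end Pool.Agent.H4R2.AE
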