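import Pool.Agent.H4R2.AE.Exi
import Pool.Agent.H4R2.AE.Cmp
import Pool.Agent.H4R2.AE.Sens
import Pool.Agent.H4R2.AE.Conc

/-! The good event on the torus. -/

set_option autoImplicit false

open scoped BigOperators
open MeasureTheory Filter Topology

namespace Pool.Agent.H4R2.AE

namespace Good

variable {d L : ℕ}

/-- truncation to `[-1, 1]` -/
def clamp (V : T d L → ℝ) (x : T d L) : ℝ := max (-1) (min 1 (V x))

lemma good_clamp_le (V : T d L → ℝ) (x : T d L) : |clamp V x| ≤ 1 := by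
  unfold clamp
  rw [abs_le]
  constructor
  · exact le_max_left _ _
  · exact max_le (by norm_num) (min_le_left _ _)

lemma good_clamp_eq (V : T d L → ℝ) (h : ∀ x, |V x| ≤ 1) : clamp V = V := by
  funext x
  have := abs_le.1 (h x)
  unfold clamp
  rw [min_eq_right this.2, max_eq_right this.1]

lemma good_clamp_lip (V V' : T d L → ℝ) (x : T d L) : |clamp V x - clamp V' x| ≤ |V x - V' x| := by
  unfold clamp
  refine (abs_max_sub_max_le_max _ _ _ _).trans ?_
  rw [sub_self, abs_zero]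
  refine max_le (abs_nonneg _) ?_
  refine (abs_min_sub_min_le_max _ _ _ _).trans ?_
  rw [sub_self, abs_zero]
  exact max_le (abs_nonneg _) le_rfl

lemma good_kap_pos (d L : ℕ) [NeZero L] (Γ : ℝ) (hΓ : 0 < Γ) : 0 < kap d L Γ := by
  unfold kap
  have hL : (0 : ℝ) < (L : ℝ) := by exact_mod_cast Nat.pos_of_ne_zero (NeZero.ne L)
  have h1 : 0 < Real.sqrt ((L : ℝ) ^ d) := Real.sqrt_pos.2 (by positivity)
  positivity

lemma good_beta (lam δ κ s : ℝ) (h : |s| ≤ δ) : beta lam δ κ s = κ * s := by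
  have := abs_le.1 h
  unfold beta
  rw [max_eq_right (by linarith : s - δ ≤ 0), max_eq_right (by linarith : -s - δ ≤ 0)]
  ring

variable [NeZero L]

/-- the solution of the penalised equation -/
noncomputable def W (lam δ κ : ℝ) (E : ℝ) (V : T d L → ℝ) : T d L → ℝ :=
  if h : 0 < lam ∧ 0 < δ ∧ 0 < κ ∧ |E| ≤ lam then
    Classical.choose (Exi.exists_sol d L lam δ κ E h.1 h.2.1 h.2.2.1 (clamp V)
      (good_clamp_le V) h.2.2.2)
  else 0

lemma good_W (lam δ κ : ℝ) (E : ℝ) (V : T d L → ℝ) (hlam : 0 < lam) (hδ : 0 < δ) (hκ : 0 < κ)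
    (hE : |E| ≤ lam) : IsSol lam δ κ (clamp V) E (W lam δ κ E V) := by
  unfold W
  rw [dif_pos ⟨hlam, hδ, hκ, hE⟩]
  exact Classical.choose_spec (Exi.exists_sol d L lam δ κ E hlam hδ hκ (clamp V)
      (good_clamp_le V) hE)

lemma good_lip1 (lam δ κ : ℝ) (E E' : ℝ) (V V' : T d L → ℝ) (hlam : 0 < lam) (hδ : 0 < δ)
    (hκ : 0 < κ) (hE : |E| ≤ lam) (hE' : |E'| ≤ lam) (x : T d L) :
    W lam δ κ E' V' x - W lam δ κ E V x ≤ (lam * dist V V' + |E - E'|) / κ := by
  refine Cmp.compare lam δ κ hlam hδ hκ (clamp V) (clamp V') E E' _ _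
    (good_W lam δ κ E V hlam hδ hκ hE) (good_W lam δ κ E' V' hlam hδ hκ hE') _ (by positivity) ?_ x
  intro y
  have h1 : clamp V y - clamp V' y ≤ dist V V' := by
    refine (le_abs_self _).trans ((good_clamp_lip V V' y).trans ?_)
    rw [← Real.dist_eq]
    exact dist_le_pi_dist V V' y
  have h2 : E' - E ≤ |E - E'| := by
    rw [abs_sub_comm]; exact le_abs_self _
  have h3 := mul_le_mul_of_nonneg_left h1 hlam.le
  linarith

lemma good_lip (lam δ κ : ℝ) (E E' : ℝ) (V V' : T d L → ℝ) (hlam : 0 < lam) (hδ : 0 < δ)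
    (hκ : 0 < κ) (hE : |E| ≤ lam) (hE' : |E'| ≤ lam) (x : T d L) :
    |W lam δ κ E V x - W lam δ κ E' V' x| ≤ (lam * dist V V' + |E - E'|) / κ := by
  rw [abs_le]
  have h1 := good_lip1 lam δ κ E E' V V' hlam hδ hκ hE hE' x
  have h2 := good_lip1 lam δ κ E' E V' V hlam hδ hκ hE' hE x
  rw [dist_comm V' V, abs_sub_comm E' E] at h2
  constructor <;> linarith

lemma good_cont (lam δ κ : ℝ) (E : ℝ) (hlam : 0 < lam) (hδ : 0 < δ)
    (hκ : 0 < κ) (hE : |E| ≤ lam) (x : T d L) :
    Continuous fun V : T d L → ℝ => W lam δ κ E V x := by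
  refine (LipschitzWith.of_dist_le_mul (K := ⟨lam / κ, by positivity⟩) ?_).continuous
  intro V V'
  rw [Real.dist_eq]
  refine (good_lip lam δ κ E E V V' hlam hδ hκ hE hE x).trans ?_
  rw [sub_self, abs_zero, add_zero]
  show lam * dist V V' / κ ≤ lam / κ * dist V V'
  rw [div_mul_eq_mul_div]

lemma good_bound (lam δ κ : ℝ) (E : ℝ) (hlam : 0 < lam) (hδ : 0 < δ)
    (hκ : 0 < κ) (hE : |E| ≤ lam) (V : T d L → ℝ) (x : T d L) :
    |W lam δ κ E V x| ≤ 2 * δ :=
  Cmp.bound lam δ κ E hlam hδ hκ hE (clamp V) _ (good_clamp_le V)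
    (good_W lam δ κ E V hlam hδ hκ hE) x

lemma good_int (lam δ κ : ℝ) (E : ℝ) (hlam : 0 < lam) (hδ : 0 < δ)
    (hκ : 0 < κ) (hE : |E| ≤ lam) (μ : Measure ℝ) [IsProbabilityMeasure μ] (x : T d L) :
    Integrable (fun V : T d L → ℝ => W lam δ κ E V x) (Measure.pi fun _ : T d L => μ) := by
  refine Integrable.of_bound (C := 2 * δ)
    (good_cont lam δ κ E hlam hδ hκ hE x).measurable.aestronglyMeasurable ?_
  filter_upwards with V
  rw [Real.norm_eq_abs]
  exact good_bound lam δ κ E hlam hδ hκ hE V x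

lemma good_shift (lam δ κ : ℝ) (E : ℝ) (hlam : 0 < lam) (hδ : 0 < δ)
    (hκ : 0 < κ) (hE : |E| ≤ lam) (V : T d L → ℝ) (a x : T d L) :
    W lam δ κ E (fun y => V (y + a)) x = W lam δ κ E V (x + a) := by
  have h1 := Cmp.shift lam δ κ E (clamp V) _ a (good_W lam δ κ E V hlam hδ hκ hE)
  have h2 := good_W lam δ κ E (fun y => V (y + a)) hlam hδ hκ hE
  have h3 : clamp (fun y => V (y + a)) = fun y => clamp V (y + a) := rfl
  rw [h3] at h2
  have h4 := Cmp.unique lam δ κ hlam hδ hκ _ E _ _ h1 h2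
  exact congrFun h4 x

lemma good_mp (μ : Measure ℝ) [IsProbabilityMeasure μ] (a : T d L) :
    MeasurePreserving (fun (V : T d L → ℝ) (y : T d L) => V (y + a))
      (Measure.pi fun _ : T d L => μ) (Measure.pi fun _ : T d L => μ) := by
  have h := measurePreserving_piCongrLeft (fun _ : T d L => μ) (Equiv.addRight a).symm
  have e : (fun (V : T d L → ℝ) (y : T d L) => V (y + a))
      = (MeasurableEquiv.piCongrLeft (fun _ : T d L => ℝ) (Equiv.addRight a).symm) := by
    funext V y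
    have h1 : y = (Equiv.addRight a).symm (y + a) := by simp
    conv_rhs => rw [h1]
    rw [MeasurableEquiv.coe_piCongrLeft]
    rw [Equiv.piCongrLeft_apply_apply]
  rw [e]
  exact h

lemma good_mean (lam δ κ : ℝ) (E : ℝ) (hlam : 0 < lam) (hδ : 0 < δ)
    (hκ : 0 < κ) (hE : |E| ≤ lam) (μ : Measure ℝ) [IsProbabilityMeasure μ] (x : T d L) :
    ∫ V, W lam δ κ E V x ∂(Measure.pi fun _ : T d L => μ)
      = ∫ V, W lam δ κ E V 0 ∂(Measure.pi fun _ : T d L => μ) := by
  have h1 : ∀ V : T d L → ℝ, W lam δ κ E V x = W lam δ κ E (fun y => V (y + x)) 0 := by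
    intro V
    rw [good_shift lam δ κ E hlam hδ hκ hE V x 0, zero_add]
  simp_rw [h1]
  have hmp := good_mp (L := L) μ x
  have h2 := integral_map (μ := Measure.pi fun _ : T d L => μ) hmp.measurable.aemeasurable
    (f := fun V : T d L → ℝ => W lam δ κ E V 0)
    (good_cont lam δ κ E hlam hδ hκ hE 0).measurable.aestronglyMeasurable
  rw [hmp.map_eq] at h2
  exact h2.symm

lemma good_E (lam δ κ : ℝ) (hlam : 0 < lam) (hδ : 0 < δ) (hκ : 0 < κ)
    (μ : Measure ℝ) [IsProbabilityMeasure μ] :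
    ∃ E : ℝ, |E| ≤ lam ∧ ∫ V, W (d := d) (L := L) lam δ κ E V 0 ∂(Measure.pi fun _ : T d L => μ) = 0 := by
  set f : ℝ → ℝ := fun E => ∫ V, W (d := d) (L := L) lam δ κ E V 0 ∂(Measure.pi fun _ : T d L => μ)
    with hf
  have hab : ∀ E ∈ Set.Icc (-lam) lam, |E| ≤ lam := fun E hE => abs_le.2 hE
  have hcont : ContinuousOn f (Set.Icc (-lam) lam) := by
    have hl : LipschitzOnWith ⟨1 / κ, by positivity⟩ f (Set.Icc (-lam) lam) := by
      refine LipschitzOnWith.of_dist_le_mul ?_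
      intro E hE E' hE'
      rw [Real.dist_eq, Real.dist_eq]
      simp only [hf]
      rw [← integral_sub (good_int lam δ κ E hlam hδ hκ (hab E hE) μ 0)
        (good_int lam δ κ E' hlam hδ hκ (hab E' hE') μ 0)]
      have h1 := norm_integral_le_of_norm_le_const (μ := Measure.pi fun _ : T d L => μ)
        (f := fun V : T d L → ℝ => W lam δ κ E V 0 - W lam δ κ E' V 0)
        (C := |E - E'| / κ) (Filter.Eventually.of_forall fun V => by
          have := good_lip lam δ κ E E' V V hlam hδ hκ (hab E hE) (hab E' hE') 0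
          rw [dist_self, mul_zero, zero_add] at this
          rw [Real.norm_eq_abs]; exact this)
      rw [Real.norm_eq_abs] at h1
      refine h1.trans ?_
      rw [probReal_univ, mul_one]
      show |E - E'| / κ ≤ 1 / κ * |E - E'|
      rw [div_mul_eq_mul_div, one_mul]
    exact hl.continuousOn
  have h0 : f (-lam) ≤ 0 := by
    refine integral_nonpos fun V => ?_
    have hE : |-lam| ≤ lam := by rw [abs_neg, abs_of_pos hlam]
    exact Cmp.nonpos lam δ κ hlam hδ hκ (clamp V) _ (good_clamp_le V)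
      (good_W lam δ κ (-lam) V hlam hδ hκ hE) 0
  have h1 : 0 ≤ f lam := by
    refine integral_nonneg fun V => ?_
    have hE : |lam| ≤ lam := by rw [abs_of_pos hlam]
    exact Cmp.nonneg lam δ κ hlam hδ hκ (clamp V) _ (good_clamp_le V)
      (good_W lam δ κ lam V hlam hδ hκ hE) 0
  obtain ⟨E, hE, hE0⟩ := intermediate_value_Icc (by linarith : -lam ≤ lam) hcont ⟨h0, h1⟩
  exact ⟨E, hab E hE, hE0⟩

theorem good (d L : ℕ) [NeZero L] (hd : 1 ≤ d) (Γ : ℝ) (hΓ : 0 < Γ) (hGB : GB d L Γ)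
    (μ : Measure ℝ) [IsProbabilityMeasure μ] (lam δ : ℝ) (hlam : 0 < lam) (hδ : 0 < δ)
    (hδ' : δ ≤ 1 / 8) :
    ∃ E : ℝ, |E| ≤ lam ∧ ∃ G : Set (T d L → ℝ), MeasurableSet G ∧
      (Measure.pi fun _ : T d L => μ).real Gᶜ ≤
        4 * (L : ℝ) ^ d * Real.exp (-δ / (40 * (2 * (d : ℝ) + 1) * Γ * lam)) ∧
      ∀ V ∈ G, (∀ x, |V x| ≤ 1) → ∃ w : T d L → ℝ, (∀ x, |w x| ≤ δ) ∧
        ∀ x, ∑ i : Fin d, ((1 - Real.exp (w (x + Pi.single i 1) - w x)) +
          (1 - Real.exp (w (x - Pi.single i 1) - w x))) + lam * V x - E +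
            kap d L Γ * w x = 0 := by
  have hκ : 0 < kap d L Γ := good_kap_pos d L Γ hΓ
  obtain ⟨E, hE, hE0⟩ := good_E (d := d) (L := L) lam δ (kap d L Γ) hlam hδ hκ μ
  refine ⟨E, hE, {V | ∀ x, |W lam δ (kap d L Γ) E V x| < δ}, ?_, ?_, ?_⟩
  · have : {V : T d L → ℝ | ∀ x, |W lam δ (kap d L Γ) E V x| < δ}
        = ⋂ x, {V : T d L → ℝ | |W lam δ (kap d L Γ) E V x| < δ} := by
      ext V; simp
    rw [this]
    refine MeasurableSet.iInter fun x => ?_
    exact measurableSet_lt ((good_cont lam δ _ E hlam hδ hκ hE x).abs.measurable) measurable_const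
  · set K : ℝ := 40 * (2 * (d : ℝ) + 1) * Γ * lam with hK
    have hK0 : 0 < K := by positivity
    have hone : ∀ x : T d L, (Measure.pi fun _ : T d L => μ).real
        {V | δ ≤ |W lam δ (kap d L Γ) E V x|} ≤ 4 * Real.exp (-δ / K) := by
      intro x
      have hmean : ∫ V, W lam δ (kap d L Γ) E V x ∂(Measure.pi fun _ : T d L => μ) = 0 := by
        rw [good_mean lam δ _ E hlam hδ hκ hE μ x]; exact hE0
      have h := Conc.conc μ (fun V : T d L → ℝ => W lam δ (kap d L Γ) E V x)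
        (good_cont lam δ _ E hlam hδ hκ hE x).measurable (2 * δ)
        (fun V => good_bound lam δ _ E hlam hδ hκ hE V x) K hK0 ?_ δ
      · rw [hmean] at h
        simpa using h
      · intro ω τ
        exact Sens.sens d L hd Γ hΓ hGB lam δ E hlam hδ hδ' hE (clamp ω) _ (good_clamp_le ω)
          (good_W lam δ _ E ω hlam hδ hκ hE)
          (fun z => clamp (Function.update ω z (τ z)))
          (fun z => W lam δ (kap d L Γ) E (Function.update ω z (τ z)))
          (fun z y => good_clamp_le _ y)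
          (fun z y hy => by unfold clamp; rw [Function.update_of_ne hy])
          (fun z => good_W lam δ _ E _ hlam hδ hκ hE) x
    have hc : {V : T d L → ℝ | ∀ x, |W lam δ (kap d L Γ) E V x| < δ}ᶜ
        = ⋃ x, {V : T d L → ℝ | δ ≤ |W lam δ (kap d L Γ) E V x|} := by
      ext V; simp
    rw [hc]
    refine (measureReal_iUnion_fintype_le _).trans ?_
    refine (Finset.sum_le_sum fun x _ => hone x).trans ?_
    rw [Finset.sum_const, nsmul_eq_mul, Finset.card_univ]
    have hcard : (Fintype.card (T d L) : ℝ) = (L : ℝ) ^ d := by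
      rw [Fintype.card_fun, Fintype.card_fin, ZMod.card]
      push_cast; rfl
    rw [hcard]
    apply le_of_eq; ring
  · intro V hV hV1
    refine ⟨W lam δ (kap d L Γ) E V, fun x => (hV x).le, ?_⟩
    intro x
    have h := good_W lam δ _ E V hlam hδ hκ hE
    rw [good_clamp_eq V hV1] at h
    have hx := h x
    rw [good_beta lam δ _ _ (hV x).le] at hx
    exact hx

end Good

end Pool.Agent.H4R2.AE
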