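import Pool.Agent.H4R2.AE.Defs

set_option autoImplicit false

open scoped BigOperators

namespace Pool.Agent.H4R2.AE
namespace Lin
variable {d L : ℕ} [NeZero L]

theorem shift_sum (f : T d L → ℝ) (a : T d L) : ∑ x, f (x - a) = ∑ x, f x :=
  Fintype.sum_equiv (Equiv.subRight a) _ _ fun _ => rfl

theorem bilin (u g h : T d L → ℝ) :
    ∑ x, g x * LapW u h x =
      ∑ x, ∑ i : Fin d, u x * u (x + Pi.single i 1) *
        ((g x - g (x + Pi.single i 1)) * (h x - h (x + Pi.single i 1))) := by
  have h1 : ∑ x, g x * LapW u h x =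
      ∑ i : Fin d, (∑ x, g x * (u x * u (x + Pi.single i 1) * (h x - h (x + Pi.single i 1))) +
        ∑ x, g x * (u x * u (x - Pi.single i 1) * (h x - h (x - Pi.single i 1)))) := by
    simp only [LapW, Finset.mul_sum, mul_add]
    rw [Finset.sum_comm]
    refine Finset.sum_congr rfl fun i _ => ?_
    rw [Finset.sum_add_distrib]
  rw [h1, Finset.sum_comm]
  refine Finset.sum_congr rfl fun i _ => ?_
  have h2 : ∑ x, g x * (u x * u (x - Pi.single i 1) * (h x - h (x - Pi.single i 1))) =
      ∑ x, g (x + Pi.single i 1) * (u (x + Pi.single i 1) * u x * (h (x + Pi.single i 1) - h x)) := by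
    have h3 := shift_sum (fun x => g (x + Pi.single i 1) * (u (x + Pi.single i 1) * u x *
      (h (x + Pi.single i 1) - h x))) (Pi.single i 1)
    rw [← h3]
    simp
  rw [h2, ← Finset.sum_add_distrib]
  refine Finset.sum_congr rfl fun x _ => ?_
  ring

theorem symm (u g h : T d L → ℝ) : ∑ x, g x * LapW u h x = ∑ x, h x * LapW u g x := by
  rw [bilin, bilin]
  refine Finset.sum_congr rfl fun x _ => Finset.sum_congr rfl fun i _ => ?_
  ring

theorem sum_lapW (u h : T d L → ℝ) : ∑ x, LapW u h x = 0 := by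
  have := bilin u (fun _ => 1) h
  simpa using this

omit [NeZero L] in
theorem lapW_add (u g h : T d L → ℝ) (x : T d L) :
    LapW u (fun y => g y + h y) x = LapW u g x + LapW u h x := by
  simp only [LapW]
  rw [← Finset.sum_add_distrib]
  refine Finset.sum_congr rfl fun i _ => ?_
  ring

omit [NeZero L] in
theorem lapW_smul (u h : T d L → ℝ) (c : ℝ) (x : T d L) :
    LapW u (fun y => c * h y) x = c * LapW u h x := by
  simp only [LapW]
  rw [Finset.mul_sum]
  refine Finset.sum_congr rfl fun i _ => ?_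
  ring

omit [NeZero L] in
theorem lapW_const (u : T d L → ℝ) (c : ℝ) (x : T d L) : LapW u (fun _ => c) x = 0 := by
  simp [LapW]

/-- the linear operator `LapW u + k` -/
noncomputable def op (u k : T d L → ℝ) : (T d L → ℝ) →ₗ[ℝ] (T d L → ℝ) where
  toFun h := fun x => LapW u h x + k x * h x
  map_add' g h := by
    funext x
    have := lapW_add u g h x
    simp only [Pi.add_apply]
    rw [show (g + h) = fun y => g y + h y from rfl, this]
    ring
  map_smul' c h := by
    funext x
    have := lapW_smul u h c x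
    simp only [Pi.smul_apply, smul_eq_mul, RingHom.id_apply]
    rw [show (c • h) = fun y => c * h y from rfl, this]
    ring

theorem energy (u k h : T d L → ℝ) :
    ∑ x, h x * (LapW u h x + k x * h x) =
      ∑ x, ∑ i : Fin d, u x * u (x + Pi.single i 1) * (h x - h (x + Pi.single i 1)) ^ 2 +
        ∑ x, k x * h x ^ 2 := by
  have h1 : ∑ x, h x * (LapW u h x + k x * h x) = ∑ x, h x * LapW u h x + ∑ x, k x * h x ^ 2 := by
    rw [← Finset.sum_add_distrib]
    refine Finset.sum_congr rfl fun x _ => ?_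
    ring
  rw [h1, bilin]
  congr 1
  refine Finset.sum_congr rfl fun x _ => Finset.sum_congr rfl fun i _ => ?_
  ring

theorem inj (u k h : T d L → ℝ) (hu : ∀ x, 0 < u x) (hk : ∀ x, 0 < k x)
    (h0 : ∀ x, LapW u h x + k x * h x = 0) : ∀ x, h x = 0 := by
  have h1 := energy u k h
  simp only [h0, mul_zero, Finset.sum_const_zero] at h1
  have h2 : 0 ≤ ∑ x, ∑ i : Fin d, u x * u (x + Pi.single i 1) * (h x - h (x + Pi.single i 1)) ^ 2 :=
    Finset.sum_nonneg fun x _ => Finset.sum_nonneg fun i _ =>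
      mul_nonneg (mul_pos (hu _) (hu _)).le (sq_nonneg _)
  have h3 : ∀ x ∈ Finset.univ, 0 ≤ k x * h x ^ 2 := fun x _ => mul_nonneg (hk x).le (sq_nonneg _)
  have h4 : ∑ x, k x * h x ^ 2 = 0 := le_antisymm (by linarith) (Finset.sum_nonneg h3)
  intro x
  have h5 := (Finset.sum_eq_zero_iff_of_nonneg h3).1 h4 x (Finset.mem_univ x)
  have h6 : h x ^ 2 = 0 := by
    rcases mul_eq_zero.1 h5 with h | h
    · exact absurd h (hk x).ne'
    · exact h
  exact pow_eq_zero_iff (two_ne_zero) |>.1 h6

theorem solve (u k f : T d L → ℝ) (hu : ∀ x, 0 < u x) (hk : ∀ x, 0 < k x) :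
    ∃ h : T d L → ℝ, ∀ x, LapW u h x + k x * h x = f x := by
  have hinj : Function.Injective (op u k) := by
    rw [← LinearMap.ker_eq_bot, LinearMap.ker_eq_bot']
    intro h hh
    funext x
    exact inj u k h hu hk (fun y => congrFun hh y) x
  obtain ⟨h, hh⟩ := (LinearMap.injective_iff_surjective.1 hinj) f
  exact ⟨h, fun x => congrFun hh x⟩

theorem nonneg (u k h : T d L → ℝ) (hu : ∀ x, 0 < u x) (hk : ∀ x, 0 < k x)
    (hf : ∀ x, 0 ≤ LapW u h x + k x * h x) : ∀ x, 0 ≤ h x := by
  obtain ⟨x0, hx0⟩ := Finite.exists_min h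
  have hmin : 0 ≤ h x0 := by
    by_contra hneg
    push Not at hneg
    have h1 : LapW u h x0 ≤ 0 := by
      refine Finset.sum_nonpos fun i _ => ?_
      have a1 : u x0 * u (x0 + Pi.single i 1) * (h x0 - h (x0 + Pi.single i 1)) ≤ 0 :=
        mul_nonpos_of_nonneg_of_nonpos (mul_pos (hu _) (hu _)).le (by linarith [hx0 (x0 + Pi.single i 1)])
      have a2 : u x0 * u (x0 - Pi.single i 1) * (h x0 - h (x0 - Pi.single i 1)) ≤ 0 :=
        mul_nonpos_of_nonneg_of_nonpos (mul_pos (hu _) (hu _)).le (by linarith [hx0 (x0 - Pi.single i 1)])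
      linarith
    have h2 : k x0 * h x0 < 0 := mul_neg_of_pos_of_neg (hk x0) hneg
    linarith [hf x0]
  exact fun x => hmin.trans (hx0 x)

end Lin
end Pool.Agent.H4R2.AE
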