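import Pool.Agent.H4R2.AE.Defs

/-! Discrete Gagliardo-Nirenberg (Sobolev) inequality on the torus (helper96). -/

set_option autoImplicit false

open scoped BigOperators ENNReal
open MeasureTheory

namespace Pool.Agent.H4R2.AE.Sob

theorem cast_injOn (L : ℕ) [NeZero L] (t0 : ZMod L) (m : ℕ) (hm : m ≤ L) :
    Set.InjOn (fun j : ℕ => t0 + (j : ZMod L)) (Finset.range m : Set ℕ) := by
  intro a ha b hb hab
  have ha' : a < L := lt_of_lt_of_le (by simpa using ha) hm
  have hb' : b < L := lt_of_lt_of_le (by simpa using hb) hm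
  have h : (a : ZMod L) = (b : ZMod L) := add_left_cancel hab
  have h2 := congrArg ZMod.val h
  rwa [ZMod.val_cast_of_lt ha', ZMod.val_cast_of_lt hb'] at h2

theorem one_var (L : ℕ) [NeZero L] (φ : ZMod L → ℝ) (s t0 : ZMod L) :
    φ s ≤ φ t0 + ∑ t, |φ (t + 1) - φ t| := by
  set m := (s - t0).val with hm
  have hmL : m ≤ L := (ZMod.val_lt _).le
  have h1 : φ s - φ t0 = ∑ j ∈ Finset.range m,
      (φ (t0 + ((j + 1 : ℕ) : ZMod L)) - φ (t0 + (j : ZMod L))) := by
    rw [Finset.sum_range_sub (fun j : ℕ => φ (t0 + (j : ZMod L)))]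
    have h2 : ((m : ℕ) : ZMod L) = s - t0 := by
      rw [hm, ZMod.natCast_zmod_val]
    rw [h2]
    simp
  have h3 : ∑ j ∈ Finset.range m,
      (φ (t0 + ((j + 1 : ℕ) : ZMod L)) - φ (t0 + (j : ZMod L))) ≤
      ∑ j ∈ Finset.range m, |φ ((t0 + (j : ZMod L)) + 1) - φ (t0 + (j : ZMod L))| := by
    apply Finset.sum_le_sum
    intro j _
    have : t0 + ((j + 1 : ℕ) : ZMod L) = (t0 + (j : ZMod L)) + 1 := by push_cast; ring
    rw [this]
    exact le_abs_self _
  have h4 : ∑ j ∈ Finset.range m, |φ ((t0 + (j : ZMod L)) + 1) - φ (t0 + (j : ZMod L))| =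
      ∑ t ∈ (Finset.range m).image (fun j : ℕ => t0 + (j : ZMod L)), |φ (t + 1) - φ t| := by
    rw [Finset.sum_image (cast_injOn L t0 m hmL)]
  have h5 : ∑ t ∈ (Finset.range m).image (fun j : ℕ => t0 + (j : ZMod L)), |φ (t + 1) - φ t| ≤
      ∑ t, |φ (t + 1) - φ t| :=
    Finset.sum_le_sum_of_subset_of_nonneg (Finset.subset_univ _) fun _ _ _ => abs_nonneg _
  linarith

theorem one_var_mean (L : ℕ) [NeZero L] (φ : ZMod L → ℝ) (s : ZMod L) :
    φ s ≤ ∑ t, (|φ (t + 1) - φ t| + 1 / (L : ℝ) * φ t) := by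
  obtain ⟨t0, ht0⟩ : ∃ t0, φ t0 ≤ 1 / (L : ℝ) * ∑ t, φ t := by
    by_contra hcon
    push Not at hcon
    have hL : (0 : ℝ) < L := by exact_mod_cast Nat.pos_of_ne_zero (NeZero.ne L)
    have h1 : ∑ _t : ZMod L, (1 / (L : ℝ) * ∑ t, φ t) < ∑ t : ZMod L, φ t :=
      Finset.sum_lt_sum_of_nonempty Finset.univ_nonempty fun t _ => hcon t
    rw [Finset.sum_const, Finset.card_univ, ZMod.card, nsmul_eq_mul, ← mul_assoc,
      mul_one_div_cancel hL.ne', one_mul] at h1
    exact lt_irrefl _ h1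
  have h2 := one_var L φ s t0
  rw [Finset.sum_add_distrib, ← Finset.mul_sum]
  linarith

/-- the right-hand side function -/
noncomputable def FF {d L : ℕ} (g : T d L → ℝ) (x : T d L) : ℝ :=
  ∑ i : Fin d, |g (x + Pi.single i 1) - g x| + (d : ℝ) / (L : ℝ) * g x

theorem FF_nonneg {d L : ℕ} (g : T d L → ℝ) (hg : ∀ x, 0 ≤ g x) (x : T d L) : 0 ≤ FF g x := by
  unfold FF
  have := hg x
  have h1 : 0 ≤ ∑ i : Fin d, |g (x + Pi.single i 1) - g x| :=
    Finset.sum_nonneg fun _ _ => abs_nonneg _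
  have h2 : 0 ≤ (d : ℝ) / (L : ℝ) * g x := by positivity
  linarith

theorem line (d L : ℕ) [NeZero L] (hd : 1 ≤ d) (g : T d L → ℝ) (hg : ∀ x, 0 ≤ g x)
    (x : T d L) (i : Fin d) : g x ≤ ∑ t : ZMod L, FF g (Function.update x i t) := by
  have h1 := one_var_mean L (fun t => g (Function.update x i t)) (x i)
  simp only [Function.update_eq_self] at h1
  refine h1.trans (Finset.sum_le_sum fun t _ => ?_)
  unfold FF
  have h2 : Function.update x i t + Pi.single i 1 = Function.update x i (t + 1) := by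
    funext j
    by_cases hj : j = i
    · subst hj
      simp
    · simp [Function.update_of_ne hj, Pi.single_eq_of_ne hj]
  have h3 : |g (Function.update x i (t + 1)) - g (Function.update x i t)| ≤
      ∑ i' : Fin d, |g (Function.update x i t + Pi.single i' 1) - g (Function.update x i t)| := by
    have := Finset.single_le_sum (f := fun i' : Fin d =>
      |g (Function.update x i t + Pi.single i' 1) - g (Function.update x i t)|)
      (fun _ _ => abs_nonneg _) (Finset.mem_univ i)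
    simpa only [h2] using this
  have h4 : 1 / (L : ℝ) * g (Function.update x i t) ≤
      (d : ℝ) / (L : ℝ) * g (Function.update x i t) := by
    apply mul_le_mul_of_nonneg_right _ (hg _)
    have hd' : (1 : ℝ) ≤ d := by exact_mod_cast hd
    exact div_le_div_of_nonneg_right hd' (Nat.cast_nonneg _)
  linarith

theorem grid (d L : ℕ) [NeZero L] (hd : 2 ≤ d) (g : T d L → ℝ) (hg : ∀ x, 0 ≤ g x) :
    ∑ x, ENNReal.ofReal (g x) ^ ((d : ℝ) / ((d : ℝ) - 1)) ≤
      (∑ x, ENNReal.ofReal (FF g x)) ^ ((d : ℝ) / ((d : ℝ) - 1)) := by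
  letI : MeasurableSpace (ZMod L) := ⊤
  haveI : MeasurableSingletonClass (ZMod L) := ⟨fun _ => trivial⟩
  have hd1 : (1 : ℝ) < d := by exact_mod_cast (by omega : 1 < d)
  have hd0 : (0 : ℝ) < (d : ℝ) - 1 := by linarith
  have hp : ((Fintype.card (Fin d) : ℕ) : ℝ).HolderConjugate ((d : ℝ) / ((d : ℝ) - 1)) := by
    rw [Fintype.card_fin, Real.holderConjugate_iff]
    refine ⟨hd1, ?_⟩
    field_simp
    ring
  have hmeas : Measurable fun y : Fin d → ZMod L => ENNReal.ofReal (FF g y) :=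
    measurable_of_finite _
  have key := lintegral_prod_lintegral_pow_le
    (fun _ : Fin d => (Measure.count : Measure (ZMod L))) hp hmeas
  have hs : ∀ x : Fin d → ZMod L,
      (Measure.pi fun _ : Fin d => (Measure.count : Measure (ZMod L))) {x} = 1 := by
    intro x
    rw [Measure.pi_singleton]
    simp
  rw [lintegral_fintype, lintegral_fintype] at key
  simp only [hs, mul_one, lintegral_fintype, Measure.count_singleton, Fintype.card_fin] at key
  refine le_trans (Finset.sum_le_sum fun x _ => ?_) key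
  have h5 : ∀ i : Fin d, ENNReal.ofReal (g x) ^ (1 / ((d : ℝ) - 1)) ≤
      (∑ t : ZMod L, ENNReal.ofReal (FF g (Function.update x i t))) ^ (1 / ((d : ℝ) - 1)) := by
    intro i
    apply ENNReal.rpow_le_rpow _ (by positivity)
    rw [← ENNReal.ofReal_sum_of_nonneg fun t _ => FF_nonneg g hg _]
    exact ENNReal.ofReal_le_ofReal (line d L (by omega) g hg x i)
  have h6 : ENNReal.ofReal (g x) ^ ((d : ℝ) / ((d : ℝ) - 1)) =
      ∏ _i : Fin d, ENNReal.ofReal (g x) ^ (1 / ((d : ℝ) - 1)) := by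
    rw [Finset.prod_const, Finset.card_univ, Fintype.card_fin, ← ENNReal.rpow_natCast,
      ← ENNReal.rpow_mul]
    congr 1
    field_simp
  rw [h6]
  exact Finset.prod_le_prod' fun i _ => h5 i

theorem sobolev (d L : ℕ) [NeZero L] (hd : 2 ≤ d) (g : T d L → ℝ) (hg : ∀ x, 0 ≤ g x) :
    (∑ x, g x ^ ((d : ℝ) / ((d : ℝ) - 1))) ^ (((d : ℝ) - 1) / (d : ℝ)) ≤
      ∑ i : Fin d, ∑ x, |g (x + Pi.single i 1) - g x| + (d : ℝ) / (L : ℝ) * ∑ x, g x := by
  have hd1 : (1 : ℝ) < d := by exact_mod_cast (by omega : 1 < d)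
  have hd0 : (0 : ℝ) < (d : ℝ) - 1 := by linarith
  have hp0 : 0 ≤ (d : ℝ) / ((d : ℝ) - 1) := by positivity
  have h1 := grid d L hd g hg
  have hF : 0 ≤ ∑ x, FF g x := Finset.sum_nonneg fun x _ => FF_nonneg g hg x
  have h2 : ∑ x, g x ^ ((d : ℝ) / ((d : ℝ) - 1)) ≤ (∑ x, FF g x) ^ ((d : ℝ) / ((d : ℝ) - 1)) := by
    rw [← ENNReal.ofReal_le_ofReal_iff (Real.rpow_nonneg hF _),
      ENNReal.ofReal_sum_of_nonneg fun x _ => Real.rpow_nonneg (hg x) _,
      ← ENNReal.ofReal_rpow_of_nonneg hF hp0,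
      ENNReal.ofReal_sum_of_nonneg fun x _ => FF_nonneg g hg x]
    refine le_trans (le_of_eq (Finset.sum_congr rfl fun x _ => ?_)) h1
    rw [ENNReal.ofReal_rpow_of_nonneg (hg x) hp0]
  have h3 : (∑ x, g x ^ ((d : ℝ) / ((d : ℝ) - 1))) ^ (((d : ℝ) - 1) / (d : ℝ)) ≤ ∑ x, FF g x := by
    have h4 := Real.rpow_le_rpow (Finset.sum_nonneg fun x _ => Real.rpow_nonneg (hg x) _) h2
      (z := ((d : ℝ) - 1) / (d : ℝ)) (by positivity)
    rw [← Real.rpow_mul hF] at h4
    have h5 : (d : ℝ) / ((d : ℝ) - 1) * (((d : ℝ) - 1) / (d : ℝ)) = 1 := by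
      field_simp
    rwa [h5, Real.rpow_one] at h4
  refine h3.trans (le_of_eq ?_)
  unfold FF
  rw [Finset.sum_add_distrib, Finset.sum_comm, ← Finset.mul_sum]

end Pool.Agent.H4R2.AE.Sob
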