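import Pool.Agent.H4R2.AE.Defs
import Pool.Agent.H4R2.AE.Sob
import Pool.Agent.H4R2.AE.Lin

/-!
# `ℓ²` bound for Green functions of uniformly elliptic operators on the torus, `d ≥ 4`
-/

set_option autoImplicit false

open scoped BigOperators

namespace Pool.Agent.H4R2.AE


namespace Green

theorem pw1 {s a b : ℝ} (hs : 1 ≤ s) (ha : 0 < a) (hb : 0 ≤ b) :
    a ^ s - b ^ s ≤ s * a ^ (s - 1) * (a - b) := by
  have h1 : 1 + s * (b / a - 1) ≤ (1 + (b / a - 1)) ^ s := by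
    apply one_add_mul_self_le_rpow_one_add _ hs
    have : 0 ≤ b / a := by positivity
    linarith
  have h2 : 1 + (b / a - 1) = b / a := by ring
  rw [h2, Real.div_rpow hb ha.le] at h1
  have h3 : 0 < a ^ s := Real.rpow_pos_of_pos ha s
  rw [le_div_iff₀ h3] at h1
  have h4 : a ^ s = a ^ (s - 1) * a := by
    rw [← Real.rpow_add_one ha.ne']; congr 1; ring
  have h5 : (1 + s * (b / a - 1)) * a ^ s = a ^ s - s * a ^ (s - 1) * (a - b) := by
    rw [h4]; field_simp; ring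
  linarith

theorem pw2 {θ a b : ℝ} (h0 : 0 ≤ θ) (h1 : θ ≤ 1) (ha : 0 < a) (hb : 0 ≤ b) :
    θ * a ^ (θ - 1) * (a - b) ≤ a ^ θ - b ^ θ := by
  have h1 : (1 + (b / a - 1)) ^ θ ≤ 1 + θ * (b / a - 1) := by
    apply rpow_one_add_le_one_add_mul_self _ h0 h1
    have : 0 ≤ b / a := by positivity
    linarith
  have h2 : 1 + (b / a - 1) = b / a := by ring
  rw [h2, Real.div_rpow hb ha.le] at h1
  have h3 : 0 < a ^ θ := Real.rpow_pos_of_pos ha θ
  rw [div_le_iff₀ h3] at h1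
  have h4 : a ^ θ = a ^ (θ - 1) * a := by
    rw [← Real.rpow_add_one ha.ne']; congr 1; ring
  have h5 : (1 + θ * (b / a - 1)) * a ^ θ = a ^ θ - θ * a ^ (θ - 1) * (a - b) := by
    rw [h4]; field_simp; ring
  linarith

theorem pw3 {s p θ a b : ℝ} (hs : 1 ≤ s) (h0 : 0 < θ) (h1 : θ ≤ 1) (hsp : 2 * s = 1 + θ + p)
    (hb : 0 ≤ b) (hab : b ≤ a) :
    (a ^ s - b ^ s) ^ 2 ≤ s ^ 2 / θ * (a ^ p + b ^ p) * ((a - b) * (a ^ θ - b ^ θ)) := by
  rcases eq_or_lt_of_le (hb.trans hab) with ha | ha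
  · have hb0 : b = 0 := le_antisymm (ha ▸ hab) hb
    subst ha; subst hb0
    simp
  have e1 := pw1 hs ha hb
  have e2 := pw2 h0.le h1 ha hb
  have e3 : b ^ s ≤ a ^ s := Real.rpow_le_rpow hb hab (by linarith)
  have e4 : b ^ θ ≤ a ^ θ := Real.rpow_le_rpow hb hab h0.le
  have e5 : a ^ (s - 1) * a ^ (s - 1) = a ^ p * a ^ (θ - 1) := by
    rw [← Real.rpow_add ha, ← Real.rpow_add ha]; congr 1; linarith
  have hap : 0 < a ^ p := Real.rpow_pos_of_pos ha p
  have hbp : 0 ≤ b ^ p := Real.rpow_nonneg hb p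
  have hs1 : 0 < a ^ (s - 1) := Real.rpow_pos_of_pos ha _
  have hd : 0 ≤ a - b := by linarith
  have hs0 : 0 < s := by linarith
  calc (a ^ s - b ^ s) ^ 2 ≤ (s * a ^ (s - 1) * (a - b)) ^ 2 :=
        pow_le_pow_left₀ (by linarith) e1 2
    _ = s ^ 2 * (a ^ (s - 1) * a ^ (s - 1)) * (a - b) ^ 2 := by ring
    _ = s ^ 2 / θ * a ^ p * ((a - b) * (θ * a ^ (θ - 1) * (a - b))) := by
        rw [e5]; field_simp
    _ ≤ s ^ 2 / θ * a ^ p * ((a - b) * (a ^ θ - b ^ θ)) := by gcongr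
    _ ≤ s ^ 2 / θ * (a ^ p + b ^ p) * ((a - b) * (a ^ θ - b ^ θ)) := by
        have : 0 ≤ (a - b) * (a ^ θ - b ^ θ) := mul_nonneg hd (by linarith)
        apply mul_le_mul_of_nonneg_right _ this
        apply mul_le_mul_of_nonneg_left _ (by positivity)
        linarith

theorem pw {s p θ a b : ℝ} (hs : 1 ≤ s) (h0 : 0 < θ) (h1 : θ ≤ 1) (hsp : 2 * s = 1 + θ + p)
    (ha : 0 ≤ a) (hb : 0 ≤ b) :
    (a ^ s - b ^ s) ^ 2 ≤ s ^ 2 / θ * (a ^ p + b ^ p) * ((a - b) * (a ^ θ - b ^ θ)) := by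
  rcases le_total b a with h | h
  · exact pw3 hs h0 h1 hsp hb h
  · have := pw3 hs h0 h1 hsp ha h
    calc (a ^ s - b ^ s) ^ 2 = (b ^ s - a ^ s) ^ 2 := by ring
      _ ≤ s ^ 2 / θ * (b ^ p + a ^ p) * ((b - a) * (b ^ θ - a ^ θ)) := this
      _ = _ := by ring

theorem q_nonneg {θ a b : ℝ} (h0 : 0 < θ) (ha : 0 ≤ a) (hb : 0 ≤ b) :
    0 ≤ (a - b) * (a ^ θ - b ^ θ) := by
  rcases le_total b a with h | h
  · have := Real.rpow_le_rpow hb h h0.le
    exact mul_nonneg (by linarith) (by linarith)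
  · have := Real.rpow_le_rpow ha h h0.le
    exact mul_nonneg_of_nonpos_of_nonpos (by linarith) (by linarith)

theorem sum_shift {d L : ℕ} [NeZero L] (f : T d L → ℝ) (e : T d L) :
    ∑ x, f (x + e) = ∑ x, f x :=
  Fintype.sum_equiv (Equiv.addRight e) _ _ (fun _ => rfl)

theorem key (d L : ℕ) [NeZero L] (hd : 4 ≤ d) (θ s p : ℝ) (h0 : 0 < θ) (h1 : θ ≤ 1)
    (hs : s = (1 + θ) * ((d : ℝ) - 1) / ((d : ℝ) - 2)) (hp : p = (1 + θ) * (d : ℝ) / ((d : ℝ) - 2))
    (u k h : T d L → ℝ) (z : T d L) (hu : ∀ x, 1 / 2 ≤ u x)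
    (hk : ∀ x, 1 / (8 * (L : ℝ) ^ 2) ≤ k x) (hh : ∀ x, 0 ≤ h x)
    (heq : ∀ x, LapW u h x + k x * h x = if x = z then 1 else 0) :
    (∑ x, h x ^ p) ^ (1 / p) ≤ (Real.sqrt (8 * d * s ^ 2 / θ) + d * Real.sqrt 8) ^ 2 := by
  have hd4 : (4 : ℝ) ≤ d := by exact_mod_cast hd
  have hd2 : 0 < (d : ℝ) - 2 := by linarith
  have hd1 : 0 < (d : ℝ) - 1 := by linarith
  have hd0 : 0 < (d : ℝ) := by linarith
  have hL : 0 < (L : ℝ) := by exact_mod_cast Nat.pos_of_ne_zero (NeZero.ne L)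
  have hs1 : 1 ≤ s := by
    rw [hs, le_div_iff₀ hd2]; nlinarith
  have hp1 : 1 ≤ p := by
    rw [hp, le_div_iff₀ hd2]; nlinarith
  have hp0 : 0 < p := by linarith
  have hsp : 2 * s = 1 + θ + p := by
    rw [hs, hp]; field_simp; ring
  set S := ∑ x, h x ^ p with hS
  have hS0 : 0 ≤ S := Finset.sum_nonneg fun x _ => Real.rpow_nonneg (hh x) p
  set Z := (h z) ^ θ with hZ
  have hZ0 : 0 ≤ Z := Real.rpow_nonneg (hh z) θ
  set A := ∑ x, ∑ i : Fin d, (h x - h (x + Pi.single i 1)) *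
    (h x ^ θ - h (x + Pi.single i 1) ^ θ) with hA
  set B := ∑ x, h x ^ (1 + θ) with hB
  have hA0 : 0 ≤ A := Finset.sum_nonneg fun x _ => Finset.sum_nonneg fun i _ =>
    q_nonneg h0 (hh _) (hh _)
  have hB0 : 0 ≤ B := Finset.sum_nonneg fun x _ => Real.rpow_nonneg (hh x) _
  have hhx : ∀ x, h x * h x ^ θ = h x ^ (1 + θ) := by
    intro x
    rw [Real.rpow_add_of_nonneg (hh x) zero_le_one h0.le, Real.rpow_one]
  -- pairing
  have hpair : 1 / 4 * A + 1 / (8 * (L : ℝ) ^ 2) * B ≤ Z := by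
    have e1 : ∑ x, h x ^ θ * (LapW u h x + k x * h x) = Z := by
      rw [Finset.sum_eq_single z]
      · rw [heq]; simp [hZ]
      · intro x _ hx; rw [heq, if_neg hx, mul_zero]
      · intro h; exact absurd (Finset.mem_univ z) h
    have e2 : ∑ x, h x ^ θ * (LapW u h x + k x * h x) =
        ∑ x, (fun y => h y ^ θ) x * LapW u h x + ∑ x, k x * h x ^ (1 + θ) := by
      rw [← Finset.sum_add_distrib]
      refine Finset.sum_congr rfl fun x _ => ?_
      rw [← hhx x]; ring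
    rw [← e1, e2, Lin.bilin]
    have e3 : 1 / 4 * A ≤ ∑ x, ∑ i : Fin d, u x * u (x + Pi.single i 1) *
        (((fun y => h y ^ θ) x - (fun y => h y ^ θ) (x + Pi.single i 1)) *
          (h x - h (x + Pi.single i 1))) := by
      rw [hA, Finset.mul_sum]
      refine Finset.sum_le_sum fun x _ => ?_
      rw [Finset.mul_sum]
      refine Finset.sum_le_sum fun i _ => ?_
      have q := q_nonneg h0 (hh x) (hh (x + Pi.single i 1))
      have uu : 1 / 4 ≤ u x * u (x + Pi.single i 1) := by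
        nlinarith [hu x, hu (x + Pi.single i 1)]
      calc 1 / 4 * ((h x - h (x + Pi.single i 1)) * (h x ^ θ - h (x + Pi.single i 1) ^ θ))
          ≤ (u x * u (x + Pi.single i 1)) *
            ((h x - h (x + Pi.single i 1)) * (h x ^ θ - h (x + Pi.single i 1) ^ θ)) :=
              mul_le_mul_of_nonneg_right uu q
        _ = _ := by simp only []; ring
    have e4 : 1 / (8 * (L : ℝ) ^ 2) * B ≤ ∑ x, k x * h x ^ (1 + θ) := by
      rw [hB, Finset.mul_sum]
      refine Finset.sum_le_sum fun x _ => ?_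
      exact mul_le_mul_of_nonneg_right (hk x) (Real.rpow_nonneg (hh x) _)
    linarith
  have hA4 : A ≤ 4 * Z := by
    have : 0 ≤ 1 / (8 * (L : ℝ) ^ 2) * B := by positivity
    linarith
  have hB8 : B ≤ 8 * (L : ℝ) ^ 2 * Z := by
    have h3 : 1 / (8 * (L : ℝ) ^ 2) * B ≤ Z := by linarith
    rw [one_div, inv_mul_le_iff₀ (by positivity)] at h3
    exact h3
  -- Sobolev
  have hsob := Sob.sobolev d L (by omega) (fun x => h x ^ s) (fun x => Real.rpow_nonneg (hh x) s)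
  have hg : ∑ x, (fun x => h x ^ s) x ^ ((d : ℝ) / ((d : ℝ) - 1)) = S := by
    rw [hS]
    refine Finset.sum_congr rfl fun x _ => ?_
    simp only []
    rw [← Real.rpow_mul (hh x)]
    congr 1
    rw [hs, hp]; field_simp
  rw [hg] at hsob
  have hD : ∑ i : Fin d, ∑ x, |h (x + Pi.single i 1) ^ s - h x ^ s| ≤
      Real.sqrt (s ^ 2 / θ * (2 * d * S)) * Real.sqrt A := by
    rw [Finset.sum_comm]
    have step : ∀ x : T d L, ∀ i : Fin d, |h (x + Pi.single i 1) ^ s - h x ^ s| ≤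
        Real.sqrt (s ^ 2 / θ * (h x ^ p + h (x + Pi.single i 1) ^ p)) *
        Real.sqrt ((h x - h (x + Pi.single i 1)) * (h x ^ θ - h (x + Pi.single i 1) ^ θ)) := by
      intro x i
      rw [← Real.sqrt_mul (by
        have := Real.rpow_nonneg (hh x) p
        have := Real.rpow_nonneg (hh (x + Pi.single i 1)) p
        positivity)]
      apply Real.le_sqrt_of_sq_le
      rw [sq_abs]
      have := pw hs1 h0 h1 hsp (hh x) (hh (x + Pi.single i 1))
      calc (h (x + Pi.single i 1) ^ s - h x ^ s) ^ 2 = (h x ^ s - h (x + Pi.single i 1) ^ s) ^ 2 := by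
            ring
        _ ≤ _ := this
    calc ∑ x, ∑ i : Fin d, |h (x + Pi.single i 1) ^ s - h x ^ s|
        ≤ ∑ x, ∑ i : Fin d, Real.sqrt (s ^ 2 / θ * (h x ^ p + h (x + Pi.single i 1) ^ p)) *
        Real.sqrt ((h x - h (x + Pi.single i 1)) * (h x ^ θ - h (x + Pi.single i 1) ^ θ)) :=
          Finset.sum_le_sum fun x _ => Finset.sum_le_sum fun i _ => step x i
      _ ≤ Real.sqrt (∑ x, ∑ i : Fin d, (s ^ 2 / θ * (h x ^ p + h (x + Pi.single i 1) ^ p))) *
          Real.sqrt A := by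
          rw [hA, ← Finset.sum_product', ← Finset.sum_product', ← Finset.sum_product']
          apply Real.sum_sqrt_mul_sqrt_le
          · intro y
            have := Real.rpow_nonneg (hh y.1) p
            have := Real.rpow_nonneg (hh (y.1 + Pi.single y.2 1)) p
            positivity
          · intro y
            exact q_nonneg h0 (hh _) (hh _)
      _ = Real.sqrt (s ^ 2 / θ * (2 * d * S)) * Real.sqrt A := by
          congr 2
          rw [Finset.sum_comm]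
          have : ∀ i : Fin d, ∑ x : T d L, (s ^ 2 / θ * (h x ^ p + h (x + Pi.single i 1) ^ p)) =
              s ^ 2 / θ * (2 * S) := by
            intro i
            rw [← Finset.mul_sum, Finset.sum_add_distrib,
              sum_shift (fun x => h x ^ p) (Pi.single i 1)]
            rw [hS]; ring
          rw [Finset.sum_congr rfl (fun i _ => this i)]
          simp only [Finset.sum_const, Finset.card_univ, Fintype.card_fin, nsmul_eq_mul]
          ring
  have hM : ∑ x, h x ^ s ≤ Real.sqrt B * Real.sqrt S := by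
    have step : ∀ x, h x ^ s = Real.sqrt (h x ^ (1 + θ)) * Real.sqrt (h x ^ p) := by
      intro x
      rw [← Real.sqrt_mul (Real.rpow_nonneg (hh x) _),
        ← Real.rpow_add_of_nonneg (hh x) (by linarith) hp0.le, ← hsp]
      symm
      rw [Real.sqrt_eq_iff_mul_self_eq (Real.rpow_nonneg (hh x) _) (Real.rpow_nonneg (hh x) _),
        ← Real.rpow_add_of_nonneg (hh x) (by linarith) (by linarith)]
      congr 1; ring
    rw [Finset.sum_congr rfl (fun x _ => step x)]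
    exact Real.sum_sqrt_mul_sqrt_le _ (fun x => Real.rpow_nonneg (hh x) _)
      (fun x => Real.rpow_nonneg (hh x) _)
  obtain ⟨M, hMdef⟩ : ∃ M : ℝ, M = Real.sqrt (8 * d * s ^ 2 / θ) + d * Real.sqrt 8 := ⟨_, rfl⟩
  have hM0 : 0 ≤ M := by rw [hMdef]; positivity
  have hmain : S ^ (((d : ℝ) - 1) / (d : ℝ)) ≤ M * (Real.sqrt S * Real.sqrt Z) := by
    refine hsob.trans ?_
    have t1 : Real.sqrt (s ^ 2 / θ * (2 * d * S)) * Real.sqrt A ≤
        Real.sqrt (8 * d * s ^ 2 / θ) * (Real.sqrt S * Real.sqrt Z) := by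
      calc Real.sqrt (s ^ 2 / θ * (2 * d * S)) * Real.sqrt A
          ≤ Real.sqrt (s ^ 2 / θ * (2 * d * S)) * Real.sqrt (4 * Z) :=
            mul_le_mul_of_nonneg_left (Real.sqrt_le_sqrt hA4) (Real.sqrt_nonneg _)
        _ = Real.sqrt (8 * d * s ^ 2 / θ) * (Real.sqrt S * Real.sqrt Z) := by
            rw [← Real.sqrt_mul (by positivity), ← Real.sqrt_mul hS0, ← Real.sqrt_mul (by positivity)]
            congr 1; ring
    have t2 : (d : ℝ) / L * ∑ x, h x ^ s ≤ d * Real.sqrt 8 * (Real.sqrt S * Real.sqrt Z) := by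
      calc (d : ℝ) / L * ∑ x, h x ^ s ≤ (d : ℝ) / L * (Real.sqrt B * Real.sqrt S) :=
            mul_le_mul_of_nonneg_left hM (by positivity)
        _ ≤ (d : ℝ) / L * (Real.sqrt (8 * (L : ℝ) ^ 2 * Z) * Real.sqrt S) := by
            apply mul_le_mul_of_nonneg_left _ (by positivity)
            exact mul_le_mul_of_nonneg_right (Real.sqrt_le_sqrt hB8) (Real.sqrt_nonneg _)
        _ = d * Real.sqrt 8 * (Real.sqrt S * Real.sqrt Z) := by
            rw [Real.sqrt_mul (by positivity), Real.sqrt_mul (by norm_num), Real.sqrt_sq hL.le]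
            field_simp
    have t3 := add_le_add (hD.trans t1) t2
    rw [hMdef]
    refine t3.trans (le_of_eq ?_)
    ring
  rw [← hMdef]
  rcases eq_or_lt_of_le hS0 with hS00 | hSpos
  · rw [← hS00, Real.zero_rpow (by positivity)]
    positivity
  have hz : h z ≤ S ^ (1 / p) := by
    have h2 : h z ^ p ≤ S := Finset.single_le_sum (f := fun x => h x ^ p)
      (fun x _ => Real.rpow_nonneg (hh x) p) (Finset.mem_univ z)
    calc h z = (h z ^ p) ^ (1 / p) := by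
          rw [← Real.rpow_mul (hh z)]; rw [mul_one_div_cancel hp0.ne', Real.rpow_one]
      _ ≤ S ^ (1 / p) := Real.rpow_le_rpow (Real.rpow_nonneg (hh z) p) h2 (by positivity)
  have hZS : Real.sqrt Z ≤ S ^ (θ / (2 * p)) := by
    rw [Real.sqrt_eq_rpow]
    calc Z ^ (1 / 2 : ℝ) ≤ ((S ^ (1 / p)) ^ θ) ^ (1 / 2 : ℝ) := by
          apply Real.rpow_le_rpow hZ0 _ (by norm_num)
          exact Real.rpow_le_rpow (hh z) hz h0.le
      _ = S ^ (θ / (2 * p)) := by
          rw [← Real.rpow_mul hS0, ← Real.rpow_mul hS0]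
          congr 1; field_simp
  have hfin : S ^ (1 / (2 * p)) ≤ M := by
    have t1 : S ^ (((d : ℝ) - 1) / (d : ℝ)) ≤ M * S ^ (1 / 2 + θ / (2 * p)) := by
      refine hmain.trans ?_
      apply mul_le_mul_of_nonneg_left _ hM0
      rw [Real.rpow_add hSpos, ← Real.sqrt_eq_rpow]
      exact mul_le_mul_of_nonneg_left hZS (Real.sqrt_nonneg _)
    have t2 : ((d : ℝ) - 1) / (d : ℝ) = 1 / (2 * p) + (1 / 2 + θ / (2 * p)) := by
      rw [hp]; field_simp; ring
    rw [t2, Real.rpow_add hSpos] at t1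
    exact le_of_mul_le_mul_right t1 (Real.rpow_pos_of_pos hSpos _)
  calc S ^ (1 / p) = (S ^ (1 / (2 * p))) ^ 2 := by
        rw [← Real.rpow_natCast, ← Real.rpow_mul hS0]
        congr 1; push_cast; field_simp
    _ ≤ M ^ 2 := pow_le_pow_left₀ (Real.rpow_nonneg hS0 _) hfin 2

theorem green (d : ℕ) (hd : 5 ≤ d) : ∃ Γ : ℝ, 0 < Γ ∧ ∀ (L : ℕ) [NeZero L], GB d L Γ := by
  have hd5 : (5 : ℝ) ≤ d := by exact_mod_cast hd
  have hθ0 : 0 < ((d : ℝ) - 4) / d := by apply div_pos <;> linarith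
  have hθ1 : ((d : ℝ) - 4) / d ≤ 1 := by rw [div_le_one (by linarith)]; linarith
  obtain ⟨s, hs⟩ : ∃ s : ℝ, s = (1 + ((d : ℝ) - 4) / d) * ((d : ℝ) - 1) / ((d : ℝ) - 2) := ⟨_, rfl⟩
  refine ⟨(Real.sqrt (8 * d * s ^ 2 / (((d : ℝ) - 4) / d)) + d * Real.sqrt 8) ^ 2, ?_, ?_⟩
  · have : 0 < (d : ℝ) * Real.sqrt 8 := mul_pos (by linarith) (Real.sqrt_pos.2 (by norm_num))
    have := Real.sqrt_nonneg (8 * d * s ^ 2 / (((d : ℝ) - 4) / d))
    positivity
  · intro L _ u k h z hu hk hh heq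
    have hp : (2 : ℝ) = (1 + ((d : ℝ) - 4) / d) * (d : ℝ) / ((d : ℝ) - 2) := by
      have : (d : ℝ) - 2 ≠ 0 := by linarith
      have : (d : ℝ) ≠ 0 := by linarith
      field_simp; ring
    have hk := key d L (by omega) (((d : ℝ) - 4) / d) s 2 hθ0 hθ1 hs hp u k h z hu hk hh heq
    have hS : ∑ x, h x ^ (2 : ℝ) = ∑ x, h x ^ 2 :=
      Finset.sum_congr rfl fun x _ => Real.rpow_two _
    rw [hS, ← Real.sqrt_eq_rpow] at hk
    have h0 : 0 ≤ ∑ x, h x ^ 2 := Finset.sum_nonneg fun x _ => sq_nonneg _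
    calc ∑ x, h x ^ 2 = (Real.sqrt (∑ x, h x ^ 2)) ^ 2 := (Real.sq_sqrt h0).symm
      _ ≤ _ := pow_le_pow_left₀ (Real.sqrt_nonneg _) hk 2

theorem green_four : ∃ C : ℝ, 0 < C ∧ ∀ (L : ℕ) [NeZero L], GB 4 L (C * (1 + Real.log (L : ℝ))) := by
  refine ⟨841 * Real.exp 2, by positivity, ?_⟩
  intro L _ u k h z hu hk hh heq
  have hL1 : (1 : ℝ) ≤ L := by exact_mod_cast Nat.one_le_iff_ne_zero.2 (NeZero.ne L)
  have hlog : 0 ≤ Real.log (L : ℝ) := Real.log_nonneg hL1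
  obtain ⟨θ, hθ⟩ : ∃ θ : ℝ, θ = 1 / (1 + Real.log (L : ℝ)) := ⟨_, rfl⟩
  have hθ0 : 0 < θ := by rw [hθ]; positivity
  have hθ1 : θ ≤ 1 := by rw [hθ, div_le_one (by linarith)]; linarith
  have hk := key 4 L le_rfl θ ((1 + θ) * (((4 : ℕ) : ℝ) - 1) / (((4 : ℕ) : ℝ) - 2))
    ((1 + θ) * ((4 : ℕ) : ℝ) / (((4 : ℕ) : ℝ) - 2)) hθ0 hθ1 rfl rfl u k h z hu hk hh heq
  obtain ⟨p, hp⟩ : ∃ p : ℝ, p = (1 + θ) * ((4 : ℕ) : ℝ) / (((4 : ℕ) : ℝ) - 2) := ⟨_, rfl⟩
  rw [← hp] at hk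
  have hp2 : p = 2 * (1 + θ) := by rw [hp]; push_cast; ring
  have hp0 : 0 < p := by rw [hp2]; positivity
  set S := ∑ x, h x ^ p with hS
  have hS0 : 0 ≤ S := Finset.sum_nonneg fun x _ => Real.rpow_nonneg (hh x) p
  have hM : (Real.sqrt (8 * ((4 : ℕ) : ℝ) * ((1 + θ) * (((4 : ℕ) : ℝ) - 1) /
      (((4 : ℕ) : ℝ) - 2)) ^ 2 / θ) + ((4 : ℕ) : ℝ) * Real.sqrt 8) ^ 2 ≤ 841 / θ := by
    have t1 : Real.sqrt (8 * ((4 : ℕ) : ℝ) * ((1 + θ) * (((4 : ℕ) : ℝ) - 1) /
      (((4 : ℕ) : ℝ) - 2)) ^ 2 / θ) ≤ 17 / Real.sqrt θ := by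
      apply Real.sqrt_le_iff.2
      refine ⟨by positivity, ?_⟩
      have t0 : (17 / Real.sqrt θ) ^ 2 = 289 / θ := by
        rw [div_pow, Real.sq_sqrt hθ0.le]; norm_num
      rw [t0]
      apply div_le_div_of_nonneg_right _ hθ0.le
      push_cast
      nlinarith
    have t2 : ((4 : ℕ) : ℝ) * Real.sqrt 8 ≤ 12 / Real.sqrt θ := by
      have t3 : Real.sqrt 8 ≤ 3 := by
        rw [Real.sqrt_le_left (by norm_num)]; norm_num
      have t4 : Real.sqrt θ ≤ 1 := by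
        rw [Real.sqrt_le_left (by norm_num)]; linarith
      have t5 : 0 < Real.sqrt θ := Real.sqrt_pos.2 hθ0
      rw [le_div_iff₀ t5]
      push_cast
      nlinarith [Real.sqrt_nonneg 8]
    calc _ ≤ (17 / Real.sqrt θ + 12 / Real.sqrt θ) ^ 2 := by
          apply pow_le_pow_left₀ (by positivity) (add_le_add t1 t2)
      _ = 841 / θ := by
          rw [← add_div, div_pow, Real.sq_sqrt hθ0.le]; norm_num
  have hk2 := hk.trans hM
  have h841 : 0 ≤ 841 / θ := by positivity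
  have hS1 : S ≤ (841 / θ) ^ p := by
    calc S = (S ^ (1 / p)) ^ p := by
          rw [← Real.rpow_mul hS0, one_div_mul_cancel hp0.ne', Real.rpow_one]
      _ ≤ (841 / θ) ^ p := Real.rpow_le_rpow (Real.rpow_nonneg hS0 _) hk2 hp0.le
  have hpow := Real.rpow_sum_le_const_mul_sum_rpow (Finset.univ : Finset (T 4 L))
    (fun x => h x ^ 2) (p := 1 + θ) (by linarith)
  have e1 : ∀ x, |h x ^ 2| = h x ^ 2 := fun x => abs_of_nonneg (sq_nonneg _)
  simp only [e1] at hpow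
  have e2 : ∀ x, (h x ^ 2) ^ (1 + θ) = h x ^ p := by
    intro x
    rw [← Real.rpow_natCast, ← Real.rpow_mul (hh x), hp2]
    norm_num
  simp only [e2] at hpow
  rw [← hS, add_sub_cancel_left] at hpow
  have e3 : ((Finset.univ : Finset (T 4 L)).card : ℝ) = (L : ℝ) ^ 4 := by
    rw [Finset.card_univ, Fintype.card_fun, ZMod.card, Fintype.card_fin]
    push_cast; rfl
  rw [e3] at hpow
  set N := ∑ x, h x ^ 2 with hN
  have hN0 : 0 ≤ N := Finset.sum_nonneg fun x _ => sq_nonneg _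
  have e4 : ((L : ℝ) ^ 4) ^ θ ≤ Real.exp 4 := by
    rw [Real.rpow_def_of_pos (by positivity), Real.log_pow]
    apply Real.exp_le_exp.2
    rw [hθ]
    push_cast
    rw [mul_one_div, div_le_iff₀ (by linarith)]
    linarith
  have e5 : N ^ (1 + θ) ≤ ((841 / θ * Real.exp 2) ^ 2) ^ (1 + θ) := by
    calc N ^ (1 + θ) ≤ ((L : ℝ) ^ 4) ^ θ * S := hpow
      _ ≤ Real.exp 4 * (841 / θ) ^ p := mul_le_mul e4 hS1 hS0 (Real.exp_pos _).le
      _ ≤ Real.exp (4 * (1 + θ)) * (841 / θ) ^ p := by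
          apply mul_le_mul_of_nonneg_right _ (by positivity)
          apply Real.exp_le_exp.2; linarith
      _ = ((841 / θ * Real.exp 2) ^ 2) ^ (1 + θ) := by
          rw [mul_pow, Real.mul_rpow (by positivity) (by positivity), mul_comm]
          congr 1
          · rw [hp2, Real.rpow_mul h841]; norm_num
          · rw [← Real.exp_nat_mul, ← Real.exp_mul]; norm_num
  have e6 : N ≤ (841 / θ * Real.exp 2) ^ 2 :=
    (Real.rpow_le_rpow_iff hN0 (by positivity) (by linarith : 0 < 1 + θ)).1 e5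
  refine e6.trans (le_of_eq ?_)
  congr 1
  rw [hθ]
  field_simp

end Green

end Pool.Agent.H4R2.AE
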