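import Pool.Agent.H4R2.AE.Defs
import Pool.Agent.H4R2.AE.Lin
import Pool.Agent.H4R2.AE.Poi
import Pool.Agent.H4R2.AE.Perp

/-! # GS: the exact ground state is flat and has a spectral gap -/

set_option autoImplicit false

open scoped BigOperators

namespace Pool.Agent.H4R2.AE.Gs

section
variable {d L : ℕ}

theorem lapW_hop (lam : ℝ) (V u g : T d L → ℝ) (x : T d L) :
    LapW u g x = u x * Hop lam V (fun y => u y * g y) x - u x * g x * Hop lam V u x := by
  unfold LapW Hop
  have h : u x * (∑ i : Fin d, (2 * (u x * g x) - u (x + Pi.single i 1) * g (x + Pi.single i 1) -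
        u (x - Pi.single i 1) * g (x - Pi.single i 1))) -
      u x * g x * (∑ i : Fin d, (2 * u x - u (x + Pi.single i 1) - u (x - Pi.single i 1))) =
      ∑ i : Fin d, (u x * u (x + Pi.single i 1) * (g x - g (x + Pi.single i 1)) +
    u x * u (x - Pi.single i 1) * (g x - g (x - Pi.single i 1))) := by
    rw [Finset.mul_sum, Finset.mul_sum, ← Finset.sum_sub_distrib]
    exact Finset.sum_congr rfl fun i _ => by ring
  rw [← h]
  ring

theorem hop_add (lam : ℝ) (V f g : T d L → ℝ) (t : ℝ) (x : T d L) :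
    Hop lam V (fun y => f y + t * g y) x = Hop lam V f x + t * Hop lam V g x := by
  unfold Hop
  have h : ∑ i : Fin d, (2 * (f x + t * g x) - (f (x + Pi.single i 1) + t * g (x + Pi.single i 1)) -
      (f (x - Pi.single i 1) + t * g (x - Pi.single i 1))) =
      ∑ i : Fin d, (2 * f x - f (x + Pi.single i 1) - f (x - Pi.single i 1)) +
      t * ∑ i : Fin d, (2 * g x - g (x + Pi.single i 1) - g (x - Pi.single i 1)) := by
    rw [Finset.mul_sum, ← Finset.sum_add_distrib]
    exact Finset.sum_congr rfl fun i _ => by ring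
  rw [h]
  ring

variable [NeZero L]

omit [NeZero L] in
theorem hop_smul (lam : ℝ) (V g : T d L → ℝ) (t : ℝ) (x : T d L) :
    Hop lam V (fun y => t * g y) x = t * Hop lam V g x := by
  have h := hop_add lam V (fun _ => 0) g t x
  have h0 : Hop lam V (fun _ : T d L => (0 : ℝ)) x = 0 := by simp [Hop]
  simpa [h0] using h

theorem hop_symm (lam : ℝ) (V f g : T d L → ℝ) :
    ∑ x, g x * Hop lam V f x = ∑ x, f x * Hop lam V g x := by
  have h := Lin.symm (fun _ : T d L => (1 : ℝ)) g f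
  have e : ∀ (f : T d L → ℝ) (x : T d L),
      Hop lam V f x = LapW (fun _ => 1) f x + lam * V x * f x := by
    intro f x
    unfold Hop LapW
    congr 1
    exact Finset.sum_congr rfl fun i _ => by ring
  simp only [e, mul_add, Finset.sum_add_distrib]
  rw [h]
  congr 1
  exact Finset.sum_congr rfl fun i _ => by ring

theorem abs_hop_le (lam : ℝ) (V f : T d L → ℝ) :
    ∑ x, |f x| * Hop lam V (fun y => |f y|) x ≤ ∑ x, f x * Hop lam V f x := by
  apply Finset.sum_le_sum
  intro x _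
  unfold Hop
  rw [mul_add, mul_add, Finset.mul_sum, Finset.mul_sum]
  have h1 : |f x| * (lam * V x * |f x|) = f x * (lam * V x * f x) := by
    have := abs_mul_abs_self (f x)
    linear_combination (lam * V x) * this
  rw [h1]
  have h2 : ∑ i : Fin d, |f x| * (2 * |f x| - |f (x + Pi.single i 1)| - |f (x - Pi.single i 1)|) ≤
      ∑ i : Fin d, f x * (2 * f x - f (x + Pi.single i 1) - f (x - Pi.single i 1)) := by
    apply Finset.sum_le_sum
    intro i _
    have a := abs_mul_abs_self (f x)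
    have b := le_abs_self (f x * f (x + Pi.single i 1))
    have c := le_abs_self (f x * f (x - Pi.single i 1))
    rw [abs_mul] at b c
    nlinarith
  linarith

/-- existence of a nonnegative ground state -/
theorem exists_gs (lam : ℝ) (V : T d L → ℝ) : ∃ (E0 : ℝ) (ψ : T d L → ℝ), (∀ x, 0 ≤ ψ x) ∧
    (∃ x, 0 < ψ x) ∧ ∀ x, Hop lam V ψ x = E0 * ψ x := by
  set K : Set (T d L → ℝ) := {f | ∑ x, f x ^ 2 = 1} with hK
  have hc : Continuous (fun f : T d L → ℝ => ∑ x, f x * Hop lam V f x) := by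
    unfold Hop
    fun_prop
  have hKc : IsCompact K := by
    apply Metric.isCompact_of_isClosed_isBounded
    · exact isClosed_eq (by fun_prop) continuous_const
    · rw [isBounded_iff_forall_norm_le]
      refine ⟨1, fun f hf => ?_⟩
      rw [pi_norm_le_iff_of_nonneg zero_le_one]
      intro x
      have h1 : f x ^ 2 ≤ 1 := by
        have : f x ^ 2 ≤ ∑ x, f x ^ 2 :=
          Finset.single_le_sum (f := fun x => f x ^ 2) (fun _ _ => sq_nonneg _) (Finset.mem_univ x)
        rwa [hf] at this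
      rw [Real.norm_eq_abs]
      exact (sq_le_one_iff_abs_le_one _).1 h1
  have hKn : K.Nonempty := by
    refine ⟨Pi.single 0 1, ?_⟩
    show ∑ x, (Pi.single (0 : T d L) (1 : ℝ) : T d L → ℝ) x ^ 2 = 1
    rw [Finset.sum_eq_single 0]
    · simp
    · intro b _ hb
      simp [Pi.single_eq_of_ne hb]
    · intro h; exact absurd (Finset.mem_univ _) h
  obtain ⟨f, hf, hmin⟩ := hKc.exists_isMinOn hKn hc.continuousOn
  set E0 := ∑ x, f x * Hop lam V f x with hE0
  have hf1 : ∑ x, f x ^ 2 = 1 := hf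
  have hR : ∀ g : T d L → ℝ, E0 * ∑ x, g x ^ 2 ≤ ∑ x, g x * Hop lam V g x := by
    intro g
    by_cases hg : ∑ x, g x ^ 2 = 0
    · have hz : ∀ x, g x = 0 := by
        intro x
        have := (Finset.sum_eq_zero_iff_of_nonneg (fun x _ => sq_nonneg (g x))).1 hg x
          (Finset.mem_univ x)
        exact pow_eq_zero_iff (two_ne_zero) |>.1 this
      simp [hz]
    · have hpos : 0 < ∑ x, g x ^ 2 :=
        lt_of_le_of_ne (Finset.sum_nonneg fun x _ => sq_nonneg _) (Ne.symm hg)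
      set s := ∑ x, g x ^ 2 with hs
      have hsq : 0 < Real.sqrt s := Real.sqrt_pos.2 hpos
      have hss : Real.sqrt s ^ 2 = s := Real.sq_sqrt hpos.le
      have hm : (fun x => (Real.sqrt s)⁻¹ * g x) ∈ K := by
        show ∑ x, ((Real.sqrt s)⁻¹ * g x) ^ 2 = 1
        simp only [mul_pow]
        rw [← Finset.mul_sum, inv_pow, hss, ← hs]
        exact inv_mul_cancel₀ hpos.ne'
      have h := hmin hm
      simp only [Set.mem_ofPred_eq] at h
      have h' : E0 ≤ (Real.sqrt s)⁻¹ ^ 2 * ∑ x, g x * Hop lam V g x := by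
        refine le_trans h (le_of_eq ?_)
        rw [Finset.mul_sum]
        apply Finset.sum_congr rfl
        intro x _
        rw [hop_smul]
        ring
      rw [inv_pow, hss] at h'
      calc E0 * s ≤ (s⁻¹ * ∑ x, g x * Hop lam V g x) * s :=
            mul_le_mul_of_nonneg_right h' hpos.le
        _ = _ := by field_simp
  set ψ : T d L → ℝ := fun x => |f x| with hψ
  have hψ2 : ∑ x, ψ x ^ 2 = 1 := by
    simp only [hψ, sq_abs]; exact hf1
  have hψQ : ∑ x, ψ x * Hop lam V ψ x ≤ E0 := abs_hop_le lam V f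
  have hψR := hR ψ
  rw [hψ2, mul_one] at hψR
  have hψE : ∑ x, ψ x * Hop lam V ψ x = E0 := le_antisymm hψQ hψR
  refine ⟨E0, ψ, fun x => abs_nonneg _, ?_, ?_⟩
  · by_contra hcon
    push Not at hcon
    have : ∀ x, ψ x = 0 := fun x => le_antisymm (hcon x) (abs_nonneg _)
    simp [this] at hψ2
  · intro z
    set g : T d L → ℝ := fun x => if x = z then 1 else 0 with hg
    set b := Hop lam V ψ z - E0 * ψ z with hb
    set q := (∑ x, g x * Hop lam V g x) - E0 * ∑ x, g x ^ 2 with hq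
    have hgs : ∀ (F : T d L → ℝ), ∑ x, g x * F x = F z := by
      intro F
      simp [hg]
    have key : ∀ t : ℝ, 0 ≤ 2 * t * b + t ^ 2 * q := by
      intro t
      have h := hR (fun y => ψ y + t * g y)
      have e1 : ∑ x, (ψ x + t * g x) ^ 2 = 1 + 2 * t * ψ z + t ^ 2 * ∑ x, g x ^ 2 := by
        have : ∀ x, (ψ x + t * g x) ^ 2 = ψ x ^ 2 + 2 * t * (g x * ψ x) + t ^ 2 * g x ^ 2 := by
          intro x; ring
        simp only [this, Finset.sum_add_distrib, ← Finset.mul_sum, hgs, hψ2]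
      have e2 : ∑ x, (ψ x + t * g x) * Hop lam V (fun y => ψ y + t * g y) x =
          E0 + 2 * t * Hop lam V ψ z + t ^ 2 * ∑ x, g x * Hop lam V g x := by
        have : ∀ x, (ψ x + t * g x) * Hop lam V (fun y => ψ y + t * g y) x =
            ψ x * Hop lam V ψ x + t * (ψ x * Hop lam V g x) + t * (g x * Hop lam V ψ x) +
              t ^ 2 * (g x * Hop lam V g x) := by
          intro x
          rw [hop_add]; ring
        simp only [this, Finset.sum_add_distrib, ← Finset.mul_sum]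
        rw [hop_symm lam V g ψ, hgs, hψE]
        ring
      rw [e1, e2] at h
      rw [hb, hq]
      linarith
    have hb0 : b = 0 := by
      by_contra hne
      have hq1 : 0 < |q| + 1 := by positivity
      have h := key (-b / (|q| + 1))
      have hle : (-b / (|q| + 1)) ^ 2 * q ≤ b ^ 2 / (|q| + 1) := by
        have h1 : (-b / (|q| + 1)) ^ 2 * q ≤ (-b / (|q| + 1)) ^ 2 * (|q| + 1) := by
          apply mul_le_mul_of_nonneg_left _ (sq_nonneg _)
          linarith [le_abs_self q]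
        have h2 : (-b / (|q| + 1)) ^ 2 * (|q| + 1) = b ^ 2 / (|q| + 1) := by
          field_simp
        linarith
      have h3 : 2 * (-b / (|q| + 1)) * b = -(2 * (b ^ 2 / (|q| + 1))) := by
        field_simp
      have h4 : 0 < b ^ 2 / (|q| + 1) := by positivity
      rw [h3] at h
      linarith
    rw [hb] at hb0
    linarith

/-- numerical bound for `exp`. -/
theorem exp_bd (δ : ℝ) : Real.exp (2 * δ) * (1 - 2 * δ) ≤ 1 := by
  have h := Real.add_one_le_exp (-(2 * δ))
  have h2 : Real.exp (2 * δ) * Real.exp (-(2 * δ)) = 1 := by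
    rw [← Real.exp_add]; simp
  have h3 := Real.exp_pos (2 * δ)
  calc Real.exp (2 * δ) * (1 - 2 * δ) ≤ Real.exp (2 * δ) * Real.exp (-(2 * δ)) := by
        apply mul_le_mul_of_nonneg_left _ h3.le
        linarith
    _ = 1 := h2

/-- flatness of the quotient `g`. -/
theorem flat_quot (hd : 1 ≤ d) (Γ : ℝ) (hΓ : 0 < Γ) (hGB : GB d L Γ)
    (δ F : ℝ) (hδ : 0 < δ) (hδ' : δ ≤ 1 / 16) (w u g : T d L → ℝ) (hw : ∀ x, |w x| ≤ δ)
    (hu : ∀ x, u x = Real.exp (w x)) (hg0 : ∀ x, 0 ≤ g x) (hgp : ∃ x, 0 < g x)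
    (he : ∀ x, LapW u g x = (F + kap d L Γ * w x) * (u x ^ 2 * g x)) :
    ∃ M : ℝ, 0 < M ∧ ∀ x, g x ≤ M ∧ M * (1 - 32 / 7 * δ) ≤ g x := by
  have hN : (0 : ℝ) < (L : ℝ) ^ d := by
    have : (0 : ℝ) < L := by
      have := NeZero.pos L
      exact_mod_cast this
    positivity
  have hcard : (Fintype.card (T d L) : ℝ) = (L : ℝ) ^ d := by
    rw [Fintype.card_fun, ZMod.card, Fintype.card_fin]
    push_cast
    rfl
  set κ := kap d L Γ with hκd
  set Γ1 := (2 * (d : ℝ) + 1) * Γ with hΓ1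
  have hΓ1pos : 0 < Γ1 := by positivity
  have hsN : 0 < Real.sqrt ((L : ℝ) ^ d) := Real.sqrt_pos.2 hN
  have hκ : 0 < κ := by
    rw [hκd]; unfold kap; positivity
  have hκΓ : Γ1 * Real.sqrt ((L : ℝ) ^ d) * κ = 1 / 2 := by
    rw [hκd]; unfold kap
    rw [← hΓ1]
    field_simp
  have hupos : ∀ x, 0 < u x := fun x => by rw [hu]; exact Real.exp_pos _
  have hu2 : ∀ x, u x ^ 2 ≤ Real.exp (2 * δ) := by
    intro x
    rw [hu, ← Real.exp_nat_mul]
    apply Real.exp_le_exp.2
    have := (abs_le.1 (hw x)).2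
    push_cast
    linarith
  have hulow : ∀ x, 1 / 2 ≤ u x := by
    intro x
    rw [hu]
    have h1 := Real.add_one_le_exp (w x)
    have := (abs_le.1 (hw x)).1
    linarith
  -- bound on F
  have hsum : ∑ x, (F + κ * w x) * (u x ^ 2 * g x) = 0 := by
    rw [← Lin.sum_lapW u g]
    exact Finset.sum_congr rfl fun x _ => (he x).symm
  have hSpos : 0 < ∑ x, u x ^ 2 * g x := by
    obtain ⟨x0, hx0⟩ := hgp
    apply Finset.sum_pos' (fun x _ => mul_nonneg (sq_nonneg _) (hg0 x))
    exact ⟨x0, Finset.mem_univ _, mul_pos (pow_pos (hupos x0) 2) hx0⟩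
  have hF : |F| ≤ κ * δ := by
    have h1 : F * ∑ x, u x ^ 2 * g x = -∑ x, κ * w x * (u x ^ 2 * g x) := by
      have : ∑ x, (F + κ * w x) * (u x ^ 2 * g x) =
          F * ∑ x, u x ^ 2 * g x + ∑ x, κ * w x * (u x ^ 2 * g x) := by
        rw [Finset.mul_sum, ← Finset.sum_add_distrib]
        exact Finset.sum_congr rfl fun x _ => by ring
      linarith
    have h2 : |F| * ∑ x, u x ^ 2 * g x ≤ (κ * δ) * ∑ x, u x ^ 2 * g x := by
      have h3 : |F| * ∑ x, u x ^ 2 * g x = |F * ∑ x, u x ^ 2 * g x| := by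
        rw [abs_mul, abs_of_pos hSpos]
      rw [h3, h1, abs_neg]
      refine (Finset.abs_sum_le_sum_abs _ _).trans ?_
      rw [Finset.mul_sum]
      apply Finset.sum_le_sum
      intro x _
      rw [abs_mul, abs_mul, abs_of_pos hκ, abs_of_nonneg (mul_nonneg (sq_nonneg _) (hg0 x))]
      apply mul_le_mul_of_nonneg_right _ (mul_nonneg (sq_nonneg _) (hg0 x))
      exact mul_le_mul_of_nonneg_left (hw x) hκ.le
    exact le_of_mul_le_mul_right h2 hSpos
  obtain ⟨xM, hxM⟩ := Finite.exists_max g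
  set M := g xM with hM
  have hMpos : 0 < M := by
    obtain ⟨x0, hx0⟩ := hgp
    exact lt_of_lt_of_le hx0 (hxM x0)
  set gb := (∑ x, g x) / (L : ℝ) ^ d with hgb
  set h : T d L → ℝ := fun x => g x - gb with hh
  have hhsum : ∑ x, h x = 0 := by
    simp only [hh, Finset.sum_sub_distrib, Finset.sum_const, Finset.card_univ, nsmul_eq_mul,
      hcard, hgb]
    field_simp
    ring
  obtain ⟨xH, hxH⟩ := Finite.exists_max (fun x => |h x|)
  set H := |h xH| with hH
  set ρ : T d L → ℝ := fun x => (F + κ * w x) * (u x ^ 2 * g x) with hρ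
  have hρb : ∀ x, |ρ x| ≤ 2 * κ * δ * Real.exp (2 * δ) * M := by
    intro x
    simp only [hρ]
    rw [abs_mul, abs_of_nonneg (mul_nonneg (sq_nonneg _) (hg0 x))]
    have h1 : |F + κ * w x| ≤ 2 * (κ * δ) := by
      refine (abs_add_le _ _).trans ?_
      rw [abs_mul, abs_of_pos hκ]
      have := mul_le_mul_of_nonneg_left (hw x) hκ.le
      linarith
    have h2 : u x ^ 2 * g x ≤ Real.exp (2 * δ) * M :=
      mul_le_mul (hu2 x) (hxM x) (hg0 x) (Real.exp_pos _).le
    calc |F + κ * w x| * (u x ^ 2 * g x) ≤ (2 * (κ * δ)) * (Real.exp (2 * δ) * M) :=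
          mul_le_mul h1 h2 (mul_nonneg (sq_nonneg _) (hg0 x)) (by positivity)
      _ = _ := by ring
  have hLh : ∀ x, LapW u h x = ρ x := by
    intro x
    have e : h = fun y => g y + -gb := by
      funext y; simp only [hh]; ring
    rw [e, Lin.lapW_add u g (fun _ => -gb) x, Lin.lapW_const, add_zero, he]
  -- the key estimate
  have key : H ≤ Γ1 * Real.sqrt ((L : ℝ) ^ d) * (2 * κ * δ * Real.exp (2 * δ) * M + κ * H) := by
    obtain ⟨Gr, hGr⟩ := Lin.solve u (fun _ => κ) (fun y => if y = xH then 1 else 0) hupos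
      (fun _ => hκ)
    set m := 1 / (κ * (L : ℝ) ^ d) with hm
    have hperp := Perp.perp d L hd Γ hΓ.le hGB u Gr κ hκ xH hulow hGr
    have e1 : h xH = ∑ y, h y * (LapW u Gr y + κ * Gr y) := by
      simp only [hGr]
      simp
    have e2 : h xH = ∑ y, (Gr y - m) * (ρ y + κ * h y) := by
      have a1 : ∑ y, h y * (LapW u Gr y + κ * Gr y) = ∑ y, Gr y * (ρ y + κ * h y) := by
        have s := Lin.symm u h Gr
        simp only [hLh] at s
        simp only [mul_add, Finset.sum_add_distrib]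
        rw [s]
        congr 1
        exact Finset.sum_congr rfl fun i _ => by ring
      have a2 : ∑ y, (ρ y + κ * h y) = 0 := by
        rw [Finset.sum_add_distrib, ← Finset.mul_sum, hhsum]
        simp only [hρ]
        rw [hsum]; ring
      rw [e1, a1]
      have : ∑ y, (Gr y - m) * (ρ y + κ * h y) =
          ∑ y, Gr y * (ρ y + κ * h y) - m * ∑ y, (ρ y + κ * h y) := by
        rw [Finset.mul_sum, ← Finset.sum_sub_distrib]
        exact Finset.sum_congr rfl fun i _ => by ring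
      rw [this, a2]; ring
    set R := 2 * κ * δ * Real.exp (2 * δ) * M + κ * H with hR
    have hR0 : 0 ≤ R := by positivity
    have hbR : ∀ y, |ρ y + κ * h y| ≤ R := by
      intro y
      refine (abs_add_le _ _).trans ?_
      rw [abs_mul κ, abs_of_pos hκ]
      have := mul_le_mul_of_nonneg_left (hxH y) hκ.le
      have := hρb y
      linarith
    have hcs := Finset.sum_mul_sq_le_sq_mul_sq Finset.univ (fun y => Gr y - m)
      (fun y => ρ y + κ * h y)
    have hs2 : ∑ y, (ρ y + κ * h y) ^ 2 ≤ (L : ℝ) ^ d * R ^ 2 := by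
      calc ∑ y, (ρ y + κ * h y) ^ 2 ≤ ∑ _y : T d L, R ^ 2 := by
            apply Finset.sum_le_sum
            intro y _
            rw [← sq_abs]
            exact pow_le_pow_left₀ (abs_nonneg _) (hbR y) 2
        _ = _ := by
            rw [Finset.sum_const, Finset.card_univ, nsmul_eq_mul, hcard]
    have hfin : (h xH) ^ 2 ≤ (Γ1 * Real.sqrt ((L : ℝ) ^ d) * R) ^ 2 := by
      rw [e2]
      refine hcs.trans ?_
      calc (∑ y, (Gr y - m) ^ 2) * ∑ y, (ρ y + κ * h y) ^ 2 ≤ Γ1 ^ 2 * ((L : ℝ) ^ d * R ^ 2) :=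
            mul_le_mul hperp hs2 (Finset.sum_nonneg fun _ _ => sq_nonneg _) (sq_nonneg _)
        _ = (Γ1 * Real.sqrt ((L : ℝ) ^ d) * R) ^ 2 := by
            rw [show (Γ1 * Real.sqrt ((L : ℝ) ^ d) * R) ^ 2 =
              Γ1 ^ 2 * (Real.sqrt ((L : ℝ) ^ d) ^ 2 * R ^ 2) by ring, Real.sq_sqrt hN.le]
    exact abs_le_of_sq_le_sq hfin (by positivity)
  have hH0 : 0 ≤ H := abs_nonneg _
  have hexp := exp_bd δ
  have hHb : H ≤ 16 / 7 * δ * M := by
    have h1 : Γ1 * Real.sqrt ((L : ℝ) ^ d) * (2 * κ * δ * Real.exp (2 * δ) * M + κ * H) =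
        (Γ1 * Real.sqrt ((L : ℝ) ^ d) * κ) * (2 * δ * Real.exp (2 * δ) * M + H) := by ring
    rw [h1, hκΓ] at key
    have h2 : H ≤ 2 * δ * Real.exp (2 * δ) * M := by linarith
    have h3 : Real.exp (2 * δ) ≤ 8 / 7 := by
      have h4 : (7 : ℝ) / 8 ≤ 1 - 2 * δ := by linarith
      have h5 := Real.exp_pos (2 * δ)
      nlinarith
    calc H ≤ 2 * δ * Real.exp (2 * δ) * M := h2
      _ ≤ 2 * δ * (8 / 7) * M := by gcongr
      _ = _ := by ring
  refine ⟨M, hMpos, fun x => ⟨hxM x, ?_⟩⟩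
  have h1 := (abs_le.1 (hxH x)).1
  have h2 := (abs_le.1 (hxH xM)).2
  simp only [hh] at h1 h2
  have h3 : M - 2 * H ≤ g x := by
    rw [← hM] at h2
    linarith
  nlinarith

/-- spectral gap above a flat eigenfunction -/
theorem gap (hd : 1 ≤ d) (lam E0 : ℝ) (V ψ : T d L → ℝ) (h1 : ∀ x, 1 ≤ ψ x) (h2 : ∀ x, ψ x ≤ 2)
    (he : ∀ x, Hop lam V ψ x = E0 * ψ x) (f : T d L → ℝ) (hf : ∑ x, ψ x * f x = 0) :
    1 / (2 * (d : ℝ) * (L : ℝ) ^ 2) * ∑ x, f x ^ 2 ≤ ∑ x, f x * (Hop lam V f x - E0 * f x) := by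
  have hdpos : (0 : ℝ) < d := by exact_mod_cast hd
  have hL : (0 : ℝ) < L := by
    have := NeZero.pos L
    exact_mod_cast this
  have hN : (0 : ℝ) < (L : ℝ) ^ d := by positivity
  have hcard : (Fintype.card (T d L) : ℝ) = (L : ℝ) ^ d := by
    rw [Fintype.card_fun, ZMod.card, Fintype.card_fin]
    push_cast
    rfl
  have hpos : ∀ x, 0 < ψ x := fun x => lt_of_lt_of_le one_pos (h1 x)
  set g : T d L → ℝ := fun x => f x / ψ x with hg
  have hfg : ∀ x, f x = ψ x * g x := fun x => by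
    have := (hpos x).ne'
    simp only [hg]; field_simp
  have hfe : f = fun y => ψ y * g y := funext hfg
  have hlap : ∀ x, g x * LapW ψ g x = f x * (Hop lam V f x - E0 * f x) := by
    intro x
    rw [lapW_hop lam V ψ g x, ← hfe, he, hfg x]
    ring
  have hE : ∑ x, f x * (Hop lam V f x - E0 * f x) = ∑ x, g x * LapW ψ g x :=
    Finset.sum_congr rfl fun x _ => (hlap x).symm
  rw [hE, Lin.bilin]
  have hA : ∑ i : Fin d, ∑ x, (g (x + Pi.single i 1) - g x) ^ 2 ≤
      ∑ x, ∑ i : Fin d, ψ x * ψ (x + Pi.single i 1) *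
        ((g x - g (x + Pi.single i 1)) * (g x - g (x + Pi.single i 1))) := by
    rw [Finset.sum_comm]
    apply Finset.sum_le_sum
    intro x _
    apply Finset.sum_le_sum
    intro i _
    have a : 1 ≤ ψ x * ψ (x + Pi.single i 1) := by
      have := h1 x
      have := h1 (x + Pi.single i 1)
      nlinarith
    have b : 0 ≤ (g (x + Pi.single i 1) - g x) ^ 2 := sq_nonneg _
    calc (g (x + Pi.single i 1) - g x) ^ 2 = 1 * (g (x + Pi.single i 1) - g x) ^ 2 := by ring
      _ ≤ (ψ x * ψ (x + Pi.single i 1)) * (g (x + Pi.single i 1) - g x) ^ 2 :=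
          mul_le_mul_of_nonneg_right a b
      _ = _ := by ring
  refine le_trans ?_ hA
  set gb := (∑ x, g x) / (L : ℝ) ^ d with hgb
  have hv : ∑ x, (g x - gb) = 0 := by
    simp only [Finset.sum_sub_distrib, Finset.sum_const, Finset.card_univ, nsmul_eq_mul,
      hcard, hgb]
    field_simp
    ring
  have hP := Poi.poincare d L (fun x => g x - gb) hv
  simp only [sub_sub_sub_cancel_right] at hP
  have hB : ∑ x, f x ^ 2 ≤ 4 * ∑ x, (g x - gb) ^ 2 := by
    have c1 : ∑ x, ψ x ^ 2 * (g x - gb) ^ 2 = ∑ x, f x ^ 2 + gb ^ 2 * ∑ x, ψ x ^ 2 := by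
      have : ∀ x, ψ x ^ 2 * (g x - gb) ^ 2 = f x ^ 2 - 2 * gb * (ψ x * f x) + gb ^ 2 * ψ x ^ 2 := by
        intro x
        rw [hfg x]; ring
      simp only [this, Finset.sum_add_distrib, Finset.sum_sub_distrib, ← Finset.mul_sum, hf]
      ring
    have c2 : ∑ x, ψ x ^ 2 * (g x - gb) ^ 2 ≤ 4 * ∑ x, (g x - gb) ^ 2 := by
      rw [Finset.mul_sum]
      apply Finset.sum_le_sum
      intro x _
      apply mul_le_mul_of_nonneg_right _ (sq_nonneg _)
      have := h1 x
      have := h2 x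
      nlinarith
    have c3 : 0 ≤ gb ^ 2 * ∑ x, ψ x ^ 2 :=
      mul_nonneg (sq_nonneg _) (Finset.sum_nonneg fun _ _ => sq_nonneg _)
    linarith
  set D := ∑ i : Fin d, ∑ x, (g (x + Pi.single i 1) - g x) ^ 2 with hD
  have hC : ∑ x, f x ^ 2 ≤ 4 * ((d : ℝ) / 2 * (L : ℝ) ^ 2 * D) := hB.trans (by linarith)
  rw [div_mul_eq_mul_div, one_mul, div_le_iff₀ (by positivity)]
  calc ∑ x, f x ^ 2 ≤ 4 * ((d : ℝ) / 2 * (L : ℝ) ^ 2 * D) := hC
    _ = _ := by ring

end

theorem flat (d L : ℕ) [NeZero L] (hd : 1 ≤ d) (Γ : ℝ) (hΓ : 0 < Γ) (hGB : GB d L Γ)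
    (lam δ E : ℝ) (hδ : 0 < δ) (hδ' : δ ≤ 1 / 16) (V w : T d L → ℝ) (hw : ∀ x, |w x| ≤ δ)
    (h : ∀ x, ∑ i : Fin d, ((1 - Real.exp (w (x + Pi.single i 1) - w x)) +
      (1 - Real.exp (w (x - Pi.single i 1) - w x))) + lam * V x - E + kap d L Γ * w x = 0) :
    Flat lam (16 * δ) V := by
  set u : T d L → ℝ := fun x => Real.exp (w x) with hu
  have hupos : ∀ x, 0 < u x := fun x => Real.exp_pos _
  have hHu : ∀ x, Hop lam V u x = (E - kap d L Γ * w x) * u x := by
    intro x
    have h1 := h x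
    unfold Hop
    have h2 : ∑ i : Fin d, (2 * u x - u (x + Pi.single i 1) - u (x - Pi.single i 1)) =
        u x * ∑ i : Fin d, ((1 - Real.exp (w (x + Pi.single i 1) - w x)) +
          (1 - Real.exp (w (x - Pi.single i 1) - w x))) := by
      rw [Finset.mul_sum]
      apply Finset.sum_congr rfl
      intro i _
      simp only [hu]
      rw [Real.exp_sub, Real.exp_sub]
      have := (Real.exp_pos (w x)).ne'
      field_simp
      ring
    rw [h2]
    linear_combination (u x) * h1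
  obtain ⟨E0, ψ, hψ0, hψp, hψe⟩ := exists_gs lam V
  set g : T d L → ℝ := fun x => ψ x / u x with hg
  have hψg : ∀ x, ψ x = u x * g x := fun x => by
    have := (hupos x).ne'
    simp only [hg]; field_simp
  have hψfe : ψ = fun y => u y * g y := funext hψg
  have hg0 : ∀ x, 0 ≤ g x := fun x => div_nonneg (hψ0 x) (hupos x).le
  have hgp : ∃ x, 0 < g x := by
    obtain ⟨x, hx⟩ := hψp
    exact ⟨x, div_pos hx (hupos x)⟩
  have he : ∀ x, LapW u g x = ((E0 - E) + kap d L Γ * w x) * (u x ^ 2 * g x) := by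
    intro x
    rw [lapW_hop lam V u g x, ← hψfe, hψe, hHu, hψg x]
    ring
  obtain ⟨M, hM, hMg⟩ := flat_quot hd Γ hΓ hGB δ (E0 - E) hδ hδ' w u g hw (fun x => rfl) hg0 hgp he
  have hφ : ∀ x, 0 < g x := fun x => by
    have := (hMg x).2
    have h3 : 0 < M * (1 - 32 / 7 * δ) := mul_pos hM (by linarith)
    linarith
  have hψpos : ∀ x, 0 < ψ x := fun x => by
    rw [hψg]; exact mul_pos (hupos x) (hφ x)
  obtain ⟨xm, hxm⟩ := Finite.exists_min ψ
  set m := ψ xm with hm
  have hmpos : 0 < m := hψpos xm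
  -- ratio
  have hratio : ∀ x, ψ x ≤ (1 + 16 * δ) * m := by
    intro x
    have a1 : ψ x ≤ Real.exp δ * M := by
      rw [hψg]
      exact mul_le_mul (Real.exp_le_exp.2 (abs_le.1 (hw x)).2) (hMg x).1 (hg0 x)
        (Real.exp_pos _).le
    have a2 : Real.exp (-δ) * (M * (1 - 32 / 7 * δ)) ≤ m := by
      rw [hm, hψg]
      exact mul_le_mul (Real.exp_le_exp.2 (abs_le.1 (hw xm)).1) (hMg xm).2
        (mul_nonneg hM.le (by linarith)) (hupos xm).le
    have a3 := exp_bd δ
    have e1 : Real.exp δ * Real.exp δ = Real.exp (2 * δ) := by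
      rw [← Real.exp_add]; ring_nf
    have e2 : Real.exp δ * Real.exp (-δ) = 1 := by
      rw [← Real.exp_add]; simp
    have hex := Real.exp_pos δ
    -- exp δ * m ≥ M (1 - 32/7 δ)
    have a4 : M * (1 - 32 / 7 * δ) ≤ Real.exp δ * m := by
      calc M * (1 - 32 / 7 * δ) = Real.exp δ * (Real.exp (-δ) * (M * (1 - 32 / 7 * δ))) := by
            rw [← mul_assoc, e2, one_mul]
        _ ≤ _ := mul_le_mul_of_nonneg_left a2 hex.le
    have a5 : Real.exp δ * M * (1 - 32 / 7 * δ) ≤ Real.exp (2 * δ) * m := by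
      calc Real.exp δ * M * (1 - 32 / 7 * δ) = Real.exp δ * (M * (1 - 32 / 7 * δ)) := by ring
        _ ≤ Real.exp δ * (Real.exp δ * m) := mul_le_mul_of_nonneg_left a4 hex.le
        _ = _ := by rw [← mul_assoc, e1]
    have a6 : Real.exp δ * M * ((1 - 32 / 7 * δ) * (1 - 2 * δ)) ≤ m := by
      calc Real.exp δ * M * ((1 - 32 / 7 * δ) * (1 - 2 * δ)) =
            (Real.exp δ * M * (1 - 32 / 7 * δ)) * (1 - 2 * δ) := by ring
        _ ≤ (Real.exp (2 * δ) * m) * (1 - 2 * δ) :=
            mul_le_mul_of_nonneg_right a5 (by linarith)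
        _ = (Real.exp (2 * δ) * (1 - 2 * δ)) * m := by ring
        _ ≤ 1 * m := mul_le_mul_of_nonneg_right a3 hmpos.le
        _ = m := one_mul m
    have a7 : 1 ≤ (1 + 16 * δ) * ((1 - 32 / 7 * δ) * (1 - 2 * δ)) := by
      have e : (1 + 16 * δ) * ((1 - 32 / 7 * δ) * (1 - 2 * δ)) =
          1 + δ * (66 / 7 - 96 * δ + 1024 / 7 * δ ^ 2) := by ring
      rw [e]
      have : 0 ≤ 66 / 7 - 96 * δ + 1024 / 7 * δ ^ 2 := by nlinarith [sq_nonneg δ]
      have := mul_nonneg hδ.le this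
      linarith
    calc ψ x ≤ Real.exp δ * M := a1
      _ = Real.exp δ * M * 1 := by ring
      _ ≤ Real.exp δ * M * ((1 + 16 * δ) * ((1 - 32 / 7 * δ) * (1 - 2 * δ))) :=
          mul_le_mul_of_nonneg_left a7 (by positivity)
      _ = (1 + 16 * δ) * (Real.exp δ * M * ((1 - 32 / 7 * δ) * (1 - 2 * δ))) := by ring
      _ ≤ _ := mul_le_mul_of_nonneg_left a6 (by linarith)
  set φ : T d L → ℝ := fun x => m⁻¹ * ψ x with hφd
  have hφ1 : ∀ x, 1 ≤ φ x := by
    intro x
    simp only [hφd]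
    rw [inv_mul_eq_div, le_div_iff₀ hmpos, one_mul]
    exact hxm x
  have hφ2 : ∀ x, φ x ≤ 1 + 16 * δ := by
    intro x
    simp only [hφd]
    rw [inv_mul_eq_div, div_le_iff₀ hmpos]
    exact hratio x
  have hφe : ∀ x, Hop lam V φ x = E0 * φ x := by
    intro x
    simp only [hφd]
    rw [hop_smul, hψe]
    ring
  refine ⟨E0, φ, fun x => ⟨hφ1 x, hφ2 x⟩, hφe, fun f hf => ?_⟩
  exact gap hd lam E0 V φ hφ1 (fun x => (hφ2 x).trans (by linarith)) hφe f hf

end Pool.Agent.H4R2.AE.Gs
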