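import Pool.Agent.H4R2.AE.Lin
import Pool.Agent.H4R2.AE.Gs
import Pool.Agent.H4R2.AE.Green
import Pool.Agent.H4R2.AE.Good
import Pool.Agent.H4R2.AE.Arith

set_option autoImplicit false

open scoped BigOperators
open MeasureTheory

namespace Pool.Agent.H4R2.AE
namespace Core

theorem hop_eq {d L : ℕ} (lam E κ : ℝ) (V w : T d L → ℝ)
    (h : ∀ x, ∑ i : Fin d, ((1 - Real.exp (w (x + Pi.single i 1) - w x)) +
      (1 - Real.exp (w (x - Pi.single i 1) - w x))) + lam * V x - E + κ * w x = 0) (x : T d L) :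
    Hop lam V (fun y => Real.exp (w y)) x = (E - κ * w x) * Real.exp (w x) := by
  have h1 : ∑ i : Fin d, (2 * Real.exp (w x) - Real.exp (w (x + Pi.single i 1)) -
      Real.exp (w (x - Pi.single i 1))) = Real.exp (w x) *
      ∑ i : Fin d, ((1 - Real.exp (w (x + Pi.single i 1) - w x)) +
      (1 - Real.exp (w (x - Pi.single i 1) - w x))) := by
    rw [Finset.mul_sum]
    refine Finset.sum_congr rfl fun i _ => ?_
    rw [Real.exp_sub, Real.exp_sub]
    field_simp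
    ring
  have h2 := h x
  show ∑ i : Fin d, (2 * Real.exp (w x) - Real.exp (w (x + Pi.single i 1)) -
      Real.exp (w (x - Pi.single i 1))) + lam * V x * Real.exp (w x) = _
  rw [h1]
  have h3 : ∑ i : Fin d, ((1 - Real.exp (w (x + Pi.single i 1) - w x)) +
      (1 - Real.exp (w (x - Pi.single i 1) - w x))) = E - κ * w x - lam * V x := by linarith
  rw [h3]
  ring

theorem hop_lapW {d L : ℕ} (lam : ℝ) (V f : T d L → ℝ) (x : T d L) :
    Hop lam V f x = LapW (fun _ => 1) f x + lam * V x * f x := by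
  unfold Hop LapW
  congr 1
  refine Finset.sum_congr rfl fun i _ => ?_
  ring

theorem hop_symm {d L : ℕ} [NeZero L] (lam : ℝ) (V f g : T d L → ℝ) :
    ∑ x, g x * Hop lam V f x = ∑ x, f x * Hop lam V g x := by
  simp only [hop_lapW, mul_add, Finset.sum_add_distrib]
  rw [Lin.symm (fun _ => 1) g f]
  congr 1
  refine Finset.sum_congr rfl fun x _ => ?_
  ring

/-- the exact ground state energy is close to the parameter `E` -/
theorem close {d L : ℕ} [NeZero L] (lam δ E E0 κ : ℝ) (hκ : 0 ≤ κ)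
    (V w ψ : T d L → ℝ) (hw : ∀ x, |w x| ≤ δ)
    (h : ∀ x, ∑ i : Fin d, ((1 - Real.exp (w (x + Pi.single i 1) - w x)) +
      (1 - Real.exp (w (x - Pi.single i 1) - w x))) + lam * V x - E + κ * w x = 0)
    (hψ : ∀ x, 0 < ψ x) (heig : ∀ x, Hop lam V ψ x = E0 * ψ x) : |E0 - E| ≤ κ * δ := by
  have h1 := hop_symm lam V (fun y => Real.exp (w y)) ψ
  simp only [hop_eq lam E κ V w h, heig] at h1
  set S := ∑ x, ψ x * Real.exp (w x) with hS
  have hSpos : 0 < S := Finset.sum_pos (fun x _ => mul_pos (hψ x) (Real.exp_pos _))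
    Finset.univ_nonempty
  have h2 : (E0 - E) * S = -(κ * ∑ x, w x * (ψ x * Real.exp (w x))) := by
    have e1 : ∑ x, ψ x * ((E - κ * w x) * Real.exp (w x)) =
        E * S - κ * ∑ x, w x * (ψ x * Real.exp (w x)) := by
      rw [hS, Finset.mul_sum, Finset.mul_sum, ← Finset.sum_sub_distrib]
      refine Finset.sum_congr rfl fun x _ => ?_
      ring
    have e2 : ∑ x, Real.exp (w x) * (E0 * ψ x) = E0 * S := by
      rw [hS, Finset.mul_sum]
      refine Finset.sum_congr rfl fun x _ => ?_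
      ring
    rw [e1, e2] at h1
    linarith
  have h3 : |∑ x, w x * (ψ x * Real.exp (w x))| ≤ δ * S := by
    refine (Finset.abs_sum_le_sum_abs _ _).trans ?_
    rw [hS, Finset.mul_sum]
    refine Finset.sum_le_sum fun x _ => ?_
    rw [abs_mul, abs_of_pos (mul_pos (hψ x) (Real.exp_pos _))]
    exact mul_le_mul_of_nonneg_right (hw x) (mul_pos (hψ x) (Real.exp_pos _)).le
  have h4 : |E0 - E| * S ≤ κ * δ * S := by
    rw [← abs_of_pos hSpos, ← abs_mul, h2, abs_neg, abs_mul, abs_of_nonneg hκ, abs_of_pos hSpos,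
      mul_assoc]
    exact mul_le_mul_of_nonneg_left h3 hκ
  exact le_of_mul_le_mul_right h4 hSpos

theorem L_pos {L : ℕ} [NeZero L] : (0 : ℝ) < L := by
  have : 0 < L := Nat.pos_of_ne_zero (NeZero.ne L)
  exact_mod_cast this

theorem kap_pos (d L : ℕ) [NeZero L] (Γ : ℝ) (hΓ : 0 < Γ) : 0 < kap d L Γ := by
  have := L_pos (L := L)
  unfold kap
  positivity

/-- `V` is good with respect to the deterministic energy `E`: flat ground state with gap and
energy within `κ` of `E` -/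
def FlatE {d L : ℕ} [NeZero L] (lam η κ E : ℝ) (V : T d L → ℝ) : Prop :=
  ∃ (E0 : ℝ) (ψ : T d L → ℝ), |E0 - E| ≤ κ ∧ (∀ x, 1 ≤ ψ x ∧ ψ x ≤ 1 + η) ∧
    (∀ x, Hop lam V ψ x = E0 * ψ x) ∧
    ∀ f : T d L → ℝ, ∑ x, ψ x * f x = 0 →
      1 / (2 * (d : ℝ) * (L : ℝ) ^ 2) * ∑ x, f x ^ 2 ≤ ∑ x, f x * (Hop lam V f x - E0 * f x)

/-- general torus statement with deterministic energy -/
theorem gen (d L : ℕ) [NeZero L] (hd : 1 ≤ d) (Γ : ℝ) (hΓ : 0 < Γ) (hGB : GB d L Γ)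
    (μ : Measure ℝ) [IsProbabilityMeasure μ] (lam η : ℝ) (hlam : 0 < lam) (hη : 0 < η) (hη' : η ≤ 1) :
    ∃ E : ℝ, |E| ≤ lam ∧ ∃ G : Set (T d L → ℝ), MeasurableSet G ∧
      (Measure.pi fun _ : T d L => μ).real Gᶜ ≤
        4 * (L : ℝ) ^ d * Real.exp (-η / (640 * (2 * (d : ℝ) + 1) * Γ * lam)) ∧
      ∀ V ∈ G, (∀ x, |V x| ≤ 1) → FlatE lam η (kap d L Γ) E V := by
  obtain ⟨E, hE, G, hG, hP, hflat⟩ := Good.good d L hd Γ hΓ hGB μ lam (η / 16) hlam (by positivity)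
    (by linarith)
  refine ⟨E, hE, G, hG, ?_, ?_⟩
  · convert hP using 3
    have : 40 * (2 * (d : ℝ) + 1) * Γ * lam ≠ 0 := by positivity
    field_simp
    ring
  · intro V hV hV1
    obtain ⟨w, hw, heq⟩ := hflat V hV hV1
    obtain ⟨E0, ψ, hψ, heig, hgap⟩ :=
      Gs.flat d L hd Γ hΓ hGB lam (η / 16) E (by positivity) (by linarith) V w hw heq
    rw [show 16 * (η / 16) = η by ring] at hψ
    have hk := kap_pos d L Γ hΓ
    refine ⟨E0, ψ, ?_, hψ, heig, hgap⟩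
    have h1 := close lam (η / 16) E E0 (kap d L Γ) hk.le V w ψ hw heq
      (fun x => by linarith [(hψ x).1]) heig
    refine h1.trans ?_
    nlinarith

theorem GB_mono {d L : ℕ} [NeZero L] {Γ Γ' : ℝ} (h0 : 0 ≤ Γ) (h : Γ ≤ Γ') (hG : GB d L Γ) :
    GB d L Γ' := by
  intro u k g z hu hk hg hh
  refine (hG u k g z hu hk hg hh).trans ?_
  gcongr

theorem one_le_L {L : ℕ} [NeZero L] : 1 ≤ L := Nat.one_le_iff_ne_zero.2 (NeZero.ne L)

theorem green_Gam (d : ℕ) (hd : 4 ≤ d) :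
    ∃ C : ℝ, 1 ≤ C ∧ ∀ (L : ℕ) [NeZero L], GB d L (Arith.Gam d C L) := by
  by_cases h : d = 4
  · subst h
    obtain ⟨C, hC, H⟩ := Green.green_four
    refine ⟨max 1 C, le_max_left _ _, fun L _ => ?_⟩
    have h0 : 0 ≤ Real.log (L : ℝ) := Real.log_nonneg (by exact_mod_cast one_le_L)
    refine GB_mono (by positivity) ?_ (H L)
    simp only [Arith.Gam, if_true]
    gcongr
    exact le_max_right _ _
  · obtain ⟨Γ, hΓ, H⟩ := Green.green d (by omega)
    refine ⟨max 1 Γ, le_max_left _ _, fun L _ => ?_⟩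
    refine GB_mono hΓ.le ?_ (H L)
    simp only [Arith.Gam, if_neg h]
    exact le_max_right _ _

theorem kap_le (d L : ℕ) [NeZero L] (hd : 4 ≤ d) (Γ : ℝ) (hΓ : 1 ≤ Γ) :
    kap d L Γ ≤ 1 / (L : ℝ) ^ 2 := by
  have hL := L_pos (L := L)
  have hL1 : (1 : ℝ) ≤ L := by exact_mod_cast one_le_L
  unfold kap
  have h1 : (L : ℝ) ^ 2 ≤ Real.sqrt ((L : ℝ) ^ d) := by
    refine Real.le_sqrt_of_sq_le ?_
    rw [← pow_mul]
    exact pow_le_pow_right₀ hL1 (by omega)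
  have h2 : 1 ≤ 2 * ((2 * (d : ℝ) + 1) * Γ) := by
    have : (0 : ℝ) ≤ d := Nat.cast_nonneg d
    nlinarith
  refine one_div_le_one_div_of_le (by positivity) ?_
  have h3 : 0 ≤ Real.sqrt ((L : ℝ) ^ d) := Real.sqrt_nonneg _
  nlinarith

/-- the torus theorem, `d ≥ 4` -/
theorem main_torus (d : ℕ) (hd : 4 ≤ d) :
    ∃ C : ℝ, 1 ≤ C ∧ (∀ (L : ℕ) [NeZero L], GB d L (Arith.Gam d C L)) ∧
    ∀ η : ℝ, 0 < η → η ≤ 1 → ∃ c : ℝ, 0 < c ∧
      ∀ (μ : Measure ℝ) [IsProbabilityMeasure μ], μ (Set.Icc (-1) 1)ᶜ = 0 →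
      ∀ lam : ℝ, 0 < lam → lam ≤ c → ∀ (L : ℕ) [NeZero L], (L : ℝ) ≤ Real.exp (c / scale d lam) →
      ∃ E : ℝ, |E| ≤ lam ∧ ∃ G : Set (T d L → ℝ), MeasurableSet G ∧
        1 - Real.exp (-c / scale d lam) ≤ (Measure.pi fun _ : T d L => μ).real G ∧
        ∀ V ∈ G, FlatE lam η (1 / (L : ℝ) ^ 2) E V := by
  obtain ⟨C, hC1, hGB⟩ := green_Gam d hd
  have hC : 0 < C := by linarith
  refine ⟨C, hC1, hGB, ?_⟩
  intro η hη hη'
  obtain ⟨c, hc, harith⟩ := Arith.arith d η C hη hC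
  refine ⟨c, hc, ?_⟩
  intro μ _ hμ lam hlam hlamc L _ hL
  have hΓ1 : 1 ≤ Arith.Gam d C L := hC1.trans (Arith.Gam_ge d C hC L one_le_L)
  obtain ⟨E, hE, G, hG, hP, hflat⟩ := gen d L (by omega) (Arith.Gam d C L) (by linarith) (hGB L) μ
    lam η hlam hη hη'
  obtain ⟨G', hG', hP', hV'⟩ := Arith.pi_real_inter μ hμ G hG _
    (hP.trans (harith lam hlam hlamc L one_le_L hL))
  refine ⟨E, hE, G', hG', hP', fun V hV => ?_⟩
  obtain ⟨E0, ψ, h1, h2, h3, h4⟩ := hflat V (hV' V hV).1 (hV' V hV).2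
  exact ⟨E0, ψ, h1.trans (kap_le d L hd _ hΓ1), h2, h3, h4⟩

theorem FlatE.flat {d L : ℕ} [NeZero L] {lam η κ E : ℝ} {V : T d L → ℝ}
    (h : FlatE lam η κ E V) : Flat lam η V := by
  obtain ⟨E0, ψ, -, h2, h3, h4⟩ := h
  exact ⟨E0, ψ, h2, h3, h4⟩

end Core
end Pool.Agent.H4R2.AE
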