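import Mathlib

/-!
# ENT: the entropy method (tensorisation, modified logarithmic Sobolev inequality, Herbst)
(helper5)
-/

set_option autoImplicit false

noncomputable section

namespace Pool.Agent.H4R2.AE.Ent

open MeasureTheory Set

section Resample

variable {ι : Type} [Fintype ι] [DecidableEq ι]

/-- resampling one coordinate preserves the product measure -/
theorem en_mp (μ : Measure ℝ) [IsProbabilityMeasure μ] (i : ι) :
    MeasurePreserving (fun q : (ι → ℝ) × ℝ => Function.update q.1 i q.2)
      ((Measure.pi fun _ : ι => μ).prod μ) (Measure.pi fun _ : ι => μ) := by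
  have hm : Measurable (fun q : (ι → ℝ) × ℝ => Function.update q.1 i q.2) :=
    measurable_update'
  refine ⟨hm, ?_⟩
  symm
  apply Measure.pi_eq
  intro s hs
  rw [Measure.map_apply hm (MeasurableSet.univ_pi hs)]
  have h1 : (fun q : (ι → ℝ) × ℝ => Function.update q.1 i q.2) ⁻¹' (Set.univ.pi s) =
      (Set.univ.pi (Function.update s i univ)) ×ˢ s i := by
    ext ⟨x, t⟩
    simp only [mem_preimage, mem_univ_pi, mem_prod]
    constructor
    · intro h
      refine ⟨fun j => ?_, ?_⟩
      · by_cases hj : j = i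
        · subst hj; simp
        · have := h j; simpa [hj] using this
      · simpa using h i
    · rintro ⟨h1, h2⟩ j
      by_cases hj : j = i
      · subst hj; simpa using h2
      · simpa [hj] using h1 j
  rw [h1, Measure.prod_prod, Measure.pi_pi]
  have e : (fun j => μ (Function.update s i univ j)) =
      Function.update (fun j => μ (s j)) i 1 := by
    ext j
    by_cases hj : j = i
    · subst hj; simp
    · simp [hj]
  rw [e, Finset.prod_update_of_mem (Finset.mem_univ i), one_mul, mul_comm]
  exact (Finset.prod_eq_mul_prod_sdiff_singleton_of_mem (Finset.mem_univ i)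
    fun j => μ (s j)).symm

theorem en_resample (μ : Measure ℝ) [IsProbabilityMeasure μ] (i : ι) (f : (ι → ℝ) → ℝ)
    (hf : Measurable f) (B : ℝ) (hB : ∀ x, |f x| ≤ B) :
    ∫ x, f x ∂(Measure.pi fun _ : ι => μ) =
      ∫ x, ∫ t, f (Function.update x i t) ∂μ ∂(Measure.pi fun _ : ι => μ) := by
  have hmp := en_mp μ i
  conv_lhs => rw [← hmp.map_eq]
  rw [integral_map hmp.measurable.aemeasurable hf.aestronglyMeasurable]
  rw [integral_prod]
  exact Integrable.of_bound (hf.comp hmp.measurable).aestronglyMeasurable B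
    (Filter.Eventually.of_forall fun x => by rw [Real.norm_eq_abs]; exact hB _)

/-- average over one coordinate -/
def enE (μ : Measure ℝ) (i : ι) (u : (ι → ℝ) → ℝ) (x : ι → ℝ) : ℝ :=
  ∫ t, u (Function.update x i t) ∂μ

variable (μ : Measure ℝ) [IsProbabilityMeasure μ]

theorem enE_meas (i : ι) {u : (ι → ℝ) → ℝ} (hu : Measurable u) : Measurable (enE μ i u) := by
  unfold enE
  have h1 : StronglyMeasurable fun q : (ι → ℝ) × ℝ => u (Function.update q.1 i q.2) :=
    (hu.comp measurable_update').stronglyMeasurable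
  exact h1.integral_prod_right'.measurable

omit [Fintype ι] in
theorem en_int (i : ι) {u : (ι → ℝ) → ℝ} (hu : Measurable u) {B : ℝ} (hB : ∀ x, |u x| ≤ B)
    (x : ι → ℝ) : Integrable (fun t => u (Function.update x i t)) μ :=
  Integrable.of_bound (hu.comp (measurable_update x)).aestronglyMeasurable B
    (Filter.Eventually.of_forall fun t => by rw [Real.norm_eq_abs]; exact hB _)

omit [Fintype ι] in
theorem enE_ge (i : ι) {u : (ι → ℝ) → ℝ} (hu : Measurable u) {B c : ℝ} (hB : ∀ x, |u x| ≤ B)
    (hc : ∀ x, c ≤ u x) (x : ι → ℝ) : c ≤ enE μ i u x := by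
  have h := integral_mono (integrable_const c) (en_int μ i hu hB x) (fun t => hc _)
  unfold enE
  simpa using h

omit [Fintype ι] in
theorem enE_le (i : ι) {u : (ι → ℝ) → ℝ} (hu : Measurable u) {B c : ℝ} (hB : ∀ x, |u x| ≤ B)
    (hc : ∀ x, u x ≤ c) (x : ι → ℝ) : enE μ i u x ≤ c := by
  have h := integral_mono (en_int μ i hu hB x) (integrable_const c) (fun t => hc _)
  unfold enE
  simpa using h

omit [Fintype ι] [IsProbabilityMeasure μ] in
theorem enE_update (i : ι) (u : (ι → ℝ) → ℝ) (x : ι → ℝ) (t : ℝ) :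
    enE μ i u (Function.update x i t) = enE μ i u x := by
  unfold enE
  simp only [Function.update_idem]

/-- iterated averages -/
def enP (μ : Measure ℝ) (u : (ι → ℝ) → ℝ) : List ι → (ι → ℝ) → ℝ
  | [] => u
  | i :: L => enE μ i (enP μ u L)

theorem enP_meas {u : (ι → ℝ) → ℝ} (hu : Measurable u) (L : List ι) :
    Measurable (enP μ u L) := by
  induction L with
  | nil => exact hu
  | cons i L ih => exact enE_meas μ i ih

theorem enP_bd {u : (ι → ℝ) → ℝ} (hu : Measurable u) {c C : ℝ} (hc0 : 0 < c)
    (hc : ∀ x, c ≤ u x) (hC : ∀ x, u x ≤ C) (L : List ι) :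
    (∀ x, c ≤ enP μ u L x) ∧ (∀ x, enP μ u L x ≤ C) := by
  induction L with
  | nil => exact ⟨hc, hC⟩
  | cons i L ih =>
    have hb : ∀ x, |enP μ u L x| ≤ C := fun x => by
      rw [abs_of_nonneg (hc0.le.trans (ih.1 x))]; exact ih.2 x
    exact ⟨enE_ge μ i (enP_meas μ hu L) hb ih.1, enE_le μ i (enP_meas μ hu L) hb ih.2⟩

omit [Fintype ι] [IsProbabilityMeasure μ] in
theorem enP_inv (u : (ι → ℝ) → ℝ) (L : List ι) :
    ∀ j ∈ L, ∀ (x : ι → ℝ) (t : ℝ), enP μ u L (Function.update x j t) = enP μ u L x := by
  induction L with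
  | nil => simp
  | cons i L ih =>
    intro j hj x t
    by_cases hji : j = i
    · subst hji
      exact enE_update μ j _ x t
    · have hjL : j ∈ L := by
        rcases List.mem_cons.1 hj with h | h
        · exact absurd h hji
        · exact h
      change enE μ i (enP μ u L) (Function.update x j t) = enE μ i (enP μ u L) x
      unfold enE
      congr 1
      ext τ
      rw [Function.update_comm hji]
      exact ih j hjL _ t

theorem enP_int {u : (ι → ℝ) → ℝ} (hu : Measurable u) {c C : ℝ} (hc0 : 0 < c)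
    (hc : ∀ x, c ≤ u x) (hC : ∀ x, u x ≤ C) (L : List ι) :
    ∫ x, enP μ u L x ∂(Measure.pi fun _ : ι => μ) = ∫ x, u x ∂(Measure.pi fun _ : ι => μ) := by
  induction L with
  | nil => rfl
  | cons i L ih =>
    rw [← ih]
    have hb := enP_bd μ hu hc0 hc hC L
    rw [en_resample μ i (enP μ u L) (enP_meas μ hu L) C
      (fun x => by rw [abs_of_nonneg (hc0.le.trans (hb.1 x))]; exact hb.2 x)]
    rfl

omit [DecidableEq ι] in
theorem en_const [DecidableEq ι] {f : (ι → ℝ) → ℝ}
    (hf : ∀ (j : ι) (x : ι → ℝ) (t : ℝ), f (Function.update x j t) = f x) (x y : ι → ℝ) :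
    f x = f y := by
  have h : ∀ s : Finset ι, f (s.piecewise y x) = f x := by
    intro s
    induction s using Finset.induction_on with
    | empty => simp
    | insert i s _ ih =>
      rw [Finset.piecewise_insert, hf, ih]
  have := h Finset.univ
  rw [Finset.piecewise_univ] at this
  exact this.symm

/-- average over all coordinates -/
theorem enP_univ {u : (ι → ℝ) → ℝ} (hu : Measurable u) {c C : ℝ} (hc0 : 0 < c)
    (hc : ∀ x, c ≤ u x) (hC : ∀ x, u x ≤ C) (x : ι → ℝ) :
    enP μ u Finset.univ.toList x = ∫ x, u x ∂(Measure.pi fun _ : ι => μ) := by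
  have h1 : ∀ y, enP μ u Finset.univ.toList y = enP μ u Finset.univ.toList x := fun y =>
    en_const (fun j x t => enP_inv μ u _ j (by simp) x t) y x
  rw [← enP_int μ hu hc0 hc hC Finset.univ.toList]
  simp_rw [h1]
  simp

/-- the elementary duality inequality -/
theorem en_log_ineq {a T m τ : ℝ} (ha : 0 < a) (hT : 0 < T) (hm : 0 < m) (hτ : 0 < τ) :
    a * (Real.log T - Real.log τ) ≤
      a * Real.log a - a * Real.log m + (T * m / τ - a) := by
  have h := Real.log_le_sub_one_of_pos (x := T * m / (a * τ)) (by positivity)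
  rw [Real.log_div (by positivity) (by positivity), Real.log_mul hT.ne' hm.ne',
    Real.log_mul ha.ne' hτ.ne'] at h
  have h2 := mul_le_mul_of_nonneg_left h ha.le
  have e : a * (T * m / (a * τ) - 1) = T * m / τ - a := by field_simp
  rw [e] at h2
  linarith

theorem en_abs_log {c C y : ℝ} (hc : 0 < c) (h1 : c ≤ y) (h2 : y ≤ C) :
    |Real.log y| ≤ |Real.log c| + |Real.log C| := by
  have hy : 0 < y := lt_of_lt_of_le hc h1
  have a1 := Real.log_le_log hc h1
  have a2 := Real.log_le_log hy h2
  rw [abs_le]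
  constructor
  · linarith [neg_abs_le (Real.log c), abs_nonneg (Real.log C)]
  · linarith [le_abs_self (Real.log C), abs_nonneg (Real.log c)]

omit [Fintype ι] [DecidableEq ι] [IsProbabilityMeasure μ] in
theorem en_lin {α : Type*} [MeasurableSpace α] (ν : Measure α) {a b c d : α → ℝ}
    (ha : Integrable a ν) (hb : Integrable b ν) (hc : Integrable c ν) (hd : Integrable d ν) :
    ∫ t, ((a t - b t) + (c t - d t)) ∂ν =
      ((∫ t, a t ∂ν) - ∫ t, b t ∂ν) + ((∫ t, c t ∂ν) - ∫ t, d t ∂ν) := by
  have h1 : ∫ t, ((a t - b t) + (c t - d t)) ∂ν =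
      ∫ t, (a t - b t) ∂ν + ∫ t, (c t - d t) ∂ν :=
    integral_add (ha.sub hb) (hc.sub hd)
  rw [h1, integral_sub ha hb, integral_sub hc hd]

/-- duality for the entropy of one coordinate -/
theorem en_dual (i : ι) {f T : (ι → ℝ) → ℝ} (hf : Measurable f) (hT : Measurable T) {c C : ℝ}
    (hc : 0 < c) (hf1 : ∀ x, c ≤ f x) (hf2 : ∀ x, f x ≤ C) (hT1 : ∀ x, c ≤ T x)
    (hT2 : ∀ x, T x ≤ C) (x : ι → ℝ) :
    ∫ t, f (Function.update x i t) * (Real.log (T (Function.update x i t)) -
      Real.log (enE μ i T x)) ∂μ ≤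
    (∫ t, f (Function.update x i t) * Real.log (f (Function.update x i t)) ∂μ) -
      enE μ i f x * Real.log (enE μ i f x) := by
  have hC0 : 0 < C := lt_of_lt_of_le hc ((hf1 x).trans (hf2 x))
  have hfb : ∀ x, |f x| ≤ C := fun x => by
    rw [abs_of_nonneg (hc.le.trans (hf1 x))]; exact hf2 x
  have hTb : ∀ x, |T x| ≤ C := fun x => by
    rw [abs_of_nonneg (hc.le.trans (hT1 x))]; exact hT2 x
  have hm0 : 0 < enE μ i f x := lt_of_lt_of_le hc (enE_ge μ i hf hfb hf1 x)
  have hτ0 : 0 < enE μ i T x := lt_of_lt_of_le hc (enE_ge μ i hT hTb hT1 x)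
  have i1 := en_int μ i hf hfb x
  have i2 := en_int μ i hT hTb x
  have i3 : Integrable (fun t => f (Function.update x i t) *
      Real.log (f (Function.update x i t))) μ := by
    refine en_int μ i (u := fun y => f y * Real.log (f y)) (by fun_prop)
      (B := C * (|Real.log c| + |Real.log C|)) (fun y => ?_) x
    rw [abs_mul]
    exact mul_le_mul (hfb y) (en_abs_log hc (hf1 y) (hf2 y)) (abs_nonneg _) hC0.le
  have i4 : Integrable (fun t => f (Function.update x i t) *
      (Real.log (T (Function.update x i t)) - Real.log (enE μ i T x))) μ := by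
    refine en_int μ i (u := fun y => f y * (Real.log (T y) - Real.log (enE μ i T x)))
      (by fun_prop) (B := C * ((|Real.log c| + |Real.log C|) + |Real.log (enE μ i T x)|))
      (fun y => ?_) x
    rw [abs_mul]
    refine mul_le_mul (hfb y) ?_ (abs_nonneg _) hC0.le
    have := abs_sub (Real.log (T y)) (Real.log (enE μ i T x))
    linarith [en_abs_log hc (hT1 y) (hT2 y)]
  have key : ∫ t, f (Function.update x i t) * (Real.log (T (Function.update x i t)) -
      Real.log (enE μ i T x)) ∂μ ≤ ∫ t, ((f (Function.update x i t) *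
      Real.log (f (Function.update x i t)) - f (Function.update x i t) *
      Real.log (enE μ i f x)) + (T (Function.update x i t) * enE μ i f x / enE μ i T x -
      f (Function.update x i t))) ∂μ :=
    integral_mono i4 ((i3.sub (i1.mul_const (Real.log (enE μ i f x)))).add
      (((i2.mul_const (enE μ i f x)).div_const (enE μ i T x)).sub i1))
      (fun t => en_log_ineq (lt_of_lt_of_le hc (hf1 (Function.update x i t)))
        (lt_of_lt_of_le hc (hT1 (Function.update x i t))) hm0 hτ0)
  refine key.trans (le_of_eq ?_)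
  have e1 : (∫ t, f (Function.update x i t) ∂μ) = enE μ i f x := rfl
  have e2 : (∫ t, T (Function.update x i t) ∂μ) = enE μ i T x := rfl
  rw [en_lin μ i3 (i1.mul_const _) ((i2.mul_const _).div_const _) i1,
    integral_mul_const, integral_div, integral_mul_const, e1, e2]
  field_simp
  ring

/-- the entropy of one coordinate -/
def enD (μ : Measure ℝ) (i : ι) (f : (ι → ℝ) → ℝ) (x : ι → ℝ) : ℝ :=
  (∫ t, f (Function.update x i t) * Real.log (f (Function.update x i t)) ∂μ) -
      enE μ i f x * Real.log (enE μ i f x)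

/-- one step of the telescoping sum -/
theorem en_step (i : ι) {f T : (ι → ℝ) → ℝ} (hf : Measurable f) (hT : Measurable T) {c C : ℝ}
    (hc : 0 < c) (hf1 : ∀ x, c ≤ f x) (hf2 : ∀ x, f x ≤ C) (hT1 : ∀ x, c ≤ T x)
    (hT2 : ∀ x, T x ≤ C) :
    (∫ x, f x * Real.log (T x) ∂(Measure.pi fun _ : ι => μ)) -
      (∫ x, f x * Real.log (enE μ i T x) ∂(Measure.pi fun _ : ι => μ)) ≤
      ∫ x, enD μ i f x ∂(Measure.pi fun _ : ι => μ) := by
  have hC0 : 0 < C := lt_of_lt_of_le hc ((hf1 (fun _ => 0)).trans (hf2 _))
  have hfb : ∀ x, |f x| ≤ C := fun x => by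
    rw [abs_of_nonneg (hc.le.trans (hf1 x))]; exact hf2 x
  have hTb : ∀ x, |T x| ≤ C := fun x => by
    rw [abs_of_nonneg (hc.le.trans (hT1 x))]; exact hT2 x
  have hEm := enE_meas μ i hT
  have hEfm := enE_meas μ i hf
  have hE1 := enE_ge μ i hT hTb hT1
  have hE2 := enE_le μ i hT hTb hT2
  have hEf1 := enE_ge μ i hf hfb hf1
  have hEf2 := enE_le μ i hf hfb hf2
  set M : ℝ := |Real.log c| + |Real.log C| with hM
  have hM0 : 0 ≤ M := by positivity
  have b1 : ∀ x, |f x * Real.log (T x)| ≤ C * M := fun x => by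
    rw [abs_mul]
    exact mul_le_mul (hfb x) (en_abs_log hc (hT1 x) (hT2 x)) (abs_nonneg _) hC0.le
  have b2 : ∀ x, |f x * Real.log (enE μ i T x)| ≤ C * M := fun x => by
    rw [abs_mul]
    exact mul_le_mul (hfb x) (en_abs_log hc (hE1 x) (hE2 x)) (abs_nonneg _) hC0.le
  have b3 : ∀ x, |f x * Real.log (f x)| ≤ C * M := fun x => by
    rw [abs_mul]
    exact mul_le_mul (hfb x) (en_abs_log hc (hf1 x) (hf2 x)) (abs_nonneg _) hC0.le
  have ib : ∀ {g : (ι → ℝ) → ℝ}, Measurable g → ∀ B : ℝ, (∀ x, |g x| ≤ B) →
      Integrable g (Measure.pi fun _ : ι => μ) := fun hg B hB =>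
    Integrable.of_bound hg.aestronglyMeasurable B
      (Filter.Eventually.of_forall fun x => by rw [Real.norm_eq_abs]; exact hB _)
  have j1 := ib (g := fun x => f x * Real.log (T x)) (by fun_prop) _ b1
  have j2 := ib (g := fun x => f x * Real.log (enE μ i T x)) (by fun_prop) _ b2
  rw [← integral_sub j1 j2]
  have e : ∀ x, f x * Real.log (T x) - f x * Real.log (enE μ i T x) =
      f x * (Real.log (T x) - Real.log (enE μ i T x)) := fun x => by ring
  simp_rw [e]
  have b4 : ∀ x, |f x * (Real.log (T x) - Real.log (enE μ i T x))| ≤ 2 * (C * M) := fun x => by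
    rw [← e]
    have := abs_sub (f x * Real.log (T x)) (f x * Real.log (enE μ i T x))
    linarith [b1 x, b2 x]
  rw [en_resample μ i (fun x => f x * (Real.log (T x) - Real.log (enE μ i T x)))
    (by fun_prop) (2 * (C * M)) b4]
  simp only [enE_update]
  -- measurability of the inner integral
  have hflm : Measurable fun x => f x * Real.log (f x) := by fun_prop
  have hD : Measurable (enD μ i f) := by
    unfold enD
    exact (enE_meas μ i hflm).sub (hEfm.mul (Real.measurable_log.comp hEfm))
  have hDb : ∀ x, |enD μ i f x| ≤ 2 * (C * M) := fun x => by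
    unfold enD
    have h1 : |∫ t, f (Function.update x i t) * Real.log (f (Function.update x i t)) ∂μ| ≤
        C * M := by
      have := norm_integral_le_of_norm_le_const (μ := μ)
        (f := fun t => f (Function.update x i t) * Real.log (f (Function.update x i t)))
        (C := C * M) (Filter.Eventually.of_forall fun t => by
          rw [Real.norm_eq_abs]; exact b3 _)
      simpa using this
    have h2 : |enE μ i f x * Real.log (enE μ i f x)| ≤ C * M := by
      rw [abs_mul]
      refine mul_le_mul ?_ (en_abs_log hc (hEf1 x) (hEf2 x)) (abs_nonneg _) hC0.le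
      rw [abs_of_nonneg (hc.le.trans (hEf1 x))]
      exact hEf2 x
    have := abs_sub (∫ t, f (Function.update x i t) * Real.log (f (Function.update x i t)) ∂μ)
      (enE μ i f x * Real.log (enE μ i f x))
    linarith
  have hL : Measurable fun x => ∫ t, f (Function.update x i t) *
      (Real.log (T (Function.update x i t)) - Real.log (enE μ i T x)) ∂μ := by
    have := enE_meas μ i (u := fun x => f x * (Real.log (T x) - Real.log (enE μ i T x)))
      (by fun_prop)
    unfold enE at this
    simp only [Function.update_idem] at this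
    exact this
  have hLb : ∀ x, |∫ t, f (Function.update x i t) *
      (Real.log (T (Function.update x i t)) - Real.log (enE μ i T x)) ∂μ| ≤ 2 * (C * M) := by
    intro x
    have := norm_integral_le_of_norm_le_const (μ := μ)
      (f := fun t => f (Function.update x i t) *
        (Real.log (T (Function.update x i t)) - Real.log (enE μ i T x)))
      (C := 2 * (C * M)) (Filter.Eventually.of_forall fun t => by
        rw [Real.norm_eq_abs]
        have := b4 (Function.update x i t)
        rwa [enE_update] at this)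
    simpa using this
  exact integral_mono (ib hL _ hLb) (ib hD _ hDb) fun x =>
    en_dual μ i hf hT hc hf1 hf2 hT1 hT2 x

/-- tensorisation of the entropy -/
theorem en_tensor {f : (ι → ℝ) → ℝ} (hf : Measurable f) {c C : ℝ}
    (hc : 0 < c) (hf1 : ∀ x, c ≤ f x) (hf2 : ∀ x, f x ≤ C) :
    (∫ x, f x * Real.log (f x) ∂(Measure.pi fun _ : ι => μ)) -
      (∫ x, f x ∂(Measure.pi fun _ : ι => μ)) *
        Real.log (∫ x, f x ∂(Measure.pi fun _ : ι => μ)) ≤
      ∑ i, ∫ x, enD μ i f x ∂(Measure.pi fun _ : ι => μ) := by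
  have h : ∀ L : List ι, (∫ x, f x * Real.log (f x) ∂(Measure.pi fun _ : ι => μ)) -
      (∫ x, f x * Real.log (enP μ f L x) ∂(Measure.pi fun _ : ι => μ)) ≤
      (L.map fun i => ∫ x, enD μ i f x ∂(Measure.pi fun _ : ι => μ)).sum := by
    intro L
    induction L with
    | nil => simp [enP]
    | cons i L ih =>
      have hb := enP_bd μ hf hc hf1 hf2 L
      have hs := en_step μ i hf (enP_meas μ hf L) hc hf1 hf2 hb.1 hb.2
      rw [List.map_cons, List.sum_cons]
      change _ - (∫ x, f x * Real.log (enE μ i (enP μ f L) x) ∂(Measure.pi fun _ : ι => μ)) ≤ _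
      linarith
  have h1 := h Finset.univ.toList
  simp_rw [enP_univ μ hf hc hf1 hf2] at h1
  rw [integral_mul_const, Finset.sum_map_toList] at h1
  exact h1

theorem phi_le {y : ℝ} (hy : 0 ≤ y) : y - 1 + Real.exp (-y) ≤ min (y ^ 2) y := by
  have h1 : Real.exp (-y) ≤ 1 := Real.exp_le_one_iff.mpr (by linarith)
  refine le_min ?_ (by linarith)
  rcases le_total y 1 with h | h
  · have h2 := Real.abs_exp_sub_one_sub_id_le (x := -y) (by rw [abs_neg, abs_of_nonneg hy]; exact h)
    have h3 := (abs_le.mp h2).2
    nlinarith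
  · nlinarith

/-- the entropy method for one coordinate -/
theorem enD_le (i : ι) {F : (ι → ℝ) → ℝ} (hF : Measurable F) {B : ℝ} (hB : ∀ x, |F x| ≤ B)
    (τ : ℝ) (hmono : ∀ ω, F (Function.update ω i τ) ≤ F ω) (θ : ℝ) (hθ : 0 < θ)
    (x : ι → ℝ) :
    enD μ i (fun x => Real.exp (θ * F x)) x ≤
      ∫ t, Real.exp (θ * F (Function.update x i t)) *
        min ((θ * (F (Function.update x i t) - F (Function.update x i τ))) ^ 2)
          (θ * (F (Function.update x i t) - F (Function.update x i τ))) ∂μ := by
  have hB0 : 0 ≤ B := (abs_nonneg _).trans (hB x)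
  have hfb : ∀ x, |Real.exp (θ * F x)| ≤ Real.exp (θ * B) := fun x => by
    rw [abs_of_pos (Real.exp_pos _)]
    exact Real.exp_le_exp.mpr (mul_le_mul_of_nonneg_left ((le_abs_self _).trans (hB x)) hθ.le)
  have hfl : ∀ x, Real.exp (-(θ * B)) ≤ Real.exp (θ * F x) := fun x => by
    refine Real.exp_le_exp.mpr ?_
    have := neg_abs_le (F x)
    nlinarith [hB x]
  have hfm : Measurable fun x => Real.exp (θ * F x) := by fun_prop
  have hm0 : 0 < enE μ i (fun x => Real.exp (θ * F x)) x :=
    lt_of_lt_of_le (Real.exp_pos _) (enE_ge μ i hfm hfb hfl x)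
  obtain ⟨m, hm⟩ : ∃ m, m = enE μ i (fun x => Real.exp (θ * F x)) x := ⟨_, rfl⟩
  obtain ⟨u, hu⟩ : ∃ u, u = Real.exp (θ * F (Function.update x i τ)) := ⟨_, rfl⟩
  rw [← hm] at hm0
  have hu0 : 0 < u := by rw [hu]; exact Real.exp_pos _
  have h1 : m * Real.log u - m * Real.log m ≤ u - m := by
    have h := Real.log_le_sub_one_of_pos (x := u / m) (by positivity)
    rw [Real.log_div hu0.ne' hm0.ne'] at h
    have h2 := mul_le_mul_of_nonneg_left h hm0.le
    have e : m * (u / m - 1) = u - m := by field_simp
    rw [e] at h2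
    linarith
  have hlu : Real.log u = θ * F (Function.update x i τ) := by rw [hu, Real.log_exp]
  have i1 := en_int μ i hfm hfb x
  have i3 : Integrable (fun t => Real.exp (θ * F (Function.update x i t)) *
      (θ * F (Function.update x i t))) μ := by
    refine en_int μ i (u := fun y => Real.exp (θ * F y) * (θ * F y)) (by fun_prop)
      (B := Real.exp (θ * B) * (θ * B)) (fun y => ?_) x
    rw [abs_mul]
    refine mul_le_mul (hfb y) ?_ (abs_nonneg _) (Real.exp_pos _).le
    rw [abs_mul, abs_of_pos hθ]
    exact mul_le_mul_of_nonneg_left (hB y) hθ.le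
  have i5 : Integrable (fun t => Real.exp (θ * F (Function.update x i t)) *
        min ((θ * (F (Function.update x i t) - F (Function.update x i τ))) ^ 2)
          (θ * (F (Function.update x i t) - F (Function.update x i τ)))) μ := by
    have hmu : Measurable fun t : ℝ => F (Function.update x i t) :=
      hF.comp (measurable_update x)
    refine Integrable.of_bound (by fun_prop) (Real.exp (θ * B) * (θ * (2 * B)))
      (Filter.Eventually.of_forall fun t => ?_)
    have hd0 : 0 ≤ θ * (F (Function.update x i t) - F (Function.update x i τ)) := by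
      refine mul_nonneg hθ.le ?_
      have := hmono (Function.update x i t)
      rw [Function.update_idem] at this
      linarith
    have hd1 : θ * (F (Function.update x i t) - F (Function.update x i τ)) ≤ θ * (2 * B) := by
      refine mul_le_mul_of_nonneg_left ?_ hθ.le
      have a1 := hB (Function.update x i t)
      have a2 := hB (Function.update x i τ)
      have := abs_le.mp a1
      have := abs_le.mp a2
      linarith
    rw [norm_mul, Real.norm_eq_abs, Real.norm_eq_abs]
    refine mul_le_mul (hfb _) ?_ (abs_nonneg _) (Real.exp_pos _).le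
    rw [abs_of_nonneg (le_min (by positivity) hd0)]
    exact (min_le_right _ _).trans hd1
  unfold enD
  simp only [Real.log_exp]
  rw [← hm]
  have e1 : (∫ t, Real.exp (θ * F (Function.update x i t)) ∂μ) = m := by rw [hm]; rfl
  have h2 : (∫ t, Real.exp (θ * F (Function.update x i t)) * (θ * F (Function.update x i t)) ∂μ)
      - m * Real.log m ≤ ∫ t, ((Real.exp (θ * F (Function.update x i t)) *
        (θ * F (Function.update x i t)) - Real.exp (θ * F (Function.update x i t)) *
        Real.log u) + (u - Real.exp (θ * F (Function.update x i t)))) ∂μ := by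
    rw [en_lin μ i3 (i1.mul_const _) (integrable_const u) i1, integral_mul_const, e1]
    simp only [integral_const, probReal_univ, one_smul]
    linarith
  refine h2.trans (integral_mono ((i3.sub (i1.mul_const _)).add ((integrable_const u).sub i1))
    i5 fun t => ?_)
  have hd0 : 0 ≤ θ * (F (Function.update x i t) - F (Function.update x i τ)) := by
    refine mul_nonneg hθ.le ?_
    have := hmono (Function.update x i t)
    rw [Function.update_idem] at this
    linarith
  have h3 := mul_le_mul_of_nonneg_left (phi_le hd0)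
    (Real.exp_pos (θ * F (Function.update x i t))).le
  refine le_trans (le_of_eq ?_) h3
  rw [hlu, hu]
  have e3 : Real.exp (θ * F (Function.update x i t)) *
      Real.exp (-(θ * (F (Function.update x i t) - F (Function.update x i τ)))) =
      Real.exp (θ * F (Function.update x i τ)) := by
    rw [← Real.exp_add]; congr 1; ring
  rw [mul_add, e3]
  ring

/-- the modified logarithmic Sobolev inequality -/
theorem en_mls {F : (ι → ℝ) → ℝ} (hF : Measurable F) {B : ℝ} (hB : ∀ x, |F x| ≤ B)
    (τ : ℝ) (hmono : ∀ ω z, F (Function.update ω z τ) ≤ F ω) (p R θ : ℝ) (hθ : 0 < θ)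
    (h : ∀ ω : ι → ℝ,
      ∑ z, min ((θ * (F ω - F (Function.update ω z τ))) ^ 2)
        (θ * (F ω - F (Function.update ω z τ))) ≤ R * θ ^ p) :
    (∫ x, Real.exp (θ * F x) * (θ * F x) ∂(Measure.pi fun _ : ι => μ)) -
      (∫ x, Real.exp (θ * F x) ∂(Measure.pi fun _ : ι => μ)) *
        Real.log (∫ x, Real.exp (θ * F x) ∂(Measure.pi fun _ : ι => μ)) ≤
      R * θ ^ p * ∫ x, Real.exp (θ * F x) ∂(Measure.pi fun _ : ι => μ) := by
  have hB0 : 0 ≤ B := (abs_nonneg _).trans (hB (fun _ => 0))
  have hfb : ∀ x, |Real.exp (θ * F x)| ≤ Real.exp (θ * B) := fun x => by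
    rw [abs_of_pos (Real.exp_pos _)]
    exact Real.exp_le_exp.mpr (mul_le_mul_of_nonneg_left ((le_abs_self _).trans (hB x)) hθ.le)
  have hfu : ∀ x, Real.exp (θ * F x) ≤ Real.exp (θ * B) := fun x =>
    (le_abs_self _).trans (hfb x)
  have hfl : ∀ x, Real.exp (-(θ * B)) ≤ Real.exp (θ * F x) := fun x => by
    refine Real.exp_le_exp.mpr ?_
    have := neg_abs_le (F x)
    nlinarith [hB x]
  have hfm : Measurable fun x => Real.exp (θ * F x) := by fun_prop
  have h1 := en_tensor μ hfm (Real.exp_pos _) hfl hfu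
  simp only [Real.log_exp] at h1
  refine h1.trans ?_
  have hd0 : ∀ (ω : ι → ℝ) (z : ι), 0 ≤ θ * (F ω - F (Function.update ω z τ)) := fun ω z =>
    mul_nonneg hθ.le (by linarith [hmono ω z])
  have hd1 : ∀ (ω : ι → ℝ) (z : ι), θ * (F ω - F (Function.update ω z τ)) ≤ θ * (2 * B) :=
    fun ω z => by
      refine mul_le_mul_of_nonneg_left ?_ hθ.le
      have := abs_le.mp (hB ω)
      have := abs_le.mp (hB (Function.update ω z τ))
      linarith
  have hFz : ∀ z : ι, Measurable fun ω : ι → ℝ => F (Function.update ω z τ) := fun z =>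
    hF.comp (measurable_update_left)
  have hgm : ∀ z : ι, Measurable fun ω : ι → ℝ => Real.exp (θ * F ω) *
      min ((θ * (F ω - F (Function.update ω z τ))) ^ 2)
        (θ * (F ω - F (Function.update ω z τ))) := fun z => by
    have := hFz z
    fun_prop
  have hgb : ∀ (z : ι) (ω : ι → ℝ), |Real.exp (θ * F ω) *
      min ((θ * (F ω - F (Function.update ω z τ))) ^ 2)
        (θ * (F ω - F (Function.update ω z τ)))| ≤ Real.exp (θ * B) * (θ * (2 * B)) := by
    intro z ω
    rw [abs_mul]
    refine mul_le_mul (hfb _) ?_ (abs_nonneg _) (Real.exp_pos _).le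
    rw [abs_of_nonneg (le_min (by positivity) (hd0 ω z))]
    exact (min_le_right _ _).trans (hd1 ω z)
  have ib : ∀ {g : (ι → ℝ) → ℝ}, Measurable g → ∀ B : ℝ, (∀ x, |g x| ≤ B) →
      Integrable g (Measure.pi fun _ : ι => μ) := fun hg B hB =>
    Integrable.of_bound hg.aestronglyMeasurable B
      (Filter.Eventually.of_forall fun x => by rw [Real.norm_eq_abs]; exact hB _)
  have h2 : ∀ z : ι, ∫ x, enD μ z (fun x => Real.exp (θ * F x)) x
      ∂(Measure.pi fun _ : ι => μ) ≤
      ∫ ω, Real.exp (θ * F ω) * min ((θ * (F ω - F (Function.update ω z τ))) ^ 2)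
        (θ * (F ω - F (Function.update ω z τ))) ∂(Measure.pi fun _ : ι => μ) := by
    intro z
    rw [en_resample μ z (fun ω => Real.exp (θ * F ω) *
      min ((θ * (F ω - F (Function.update ω z τ))) ^ 2)
        (θ * (F ω - F (Function.update ω z τ)))) (hgm z) _ (hgb z)]
    simp only [Function.update_idem]
    refine integral_mono ?_ ?_ fun x => enD_le μ z hF hB τ (fun ω => hmono ω z) θ hθ x
    · -- integrability of enD
      have hflm : Measurable fun x => Real.exp (θ * F x) * Real.log (Real.exp (θ * F x)) := by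
        fun_prop
      have hD : Measurable (enD μ z fun x => Real.exp (θ * F x)) := by
        unfold enD
        exact (enE_meas μ z hflm).sub ((enE_meas μ z hfm).mul
          (Real.measurable_log.comp (enE_meas μ z hfm)))
      have hEl := enE_ge μ z hfm hfb hfl
      have hEu := enE_le μ z hfm hfb hfu
      refine ib hD (Real.exp (θ * B) * (θ * B) + Real.exp (θ * B) *
        (|Real.log (Real.exp (-(θ * B)))| + |Real.log (Real.exp (θ * B))|)) fun x => ?_
      unfold enD
      have a1 : |∫ t, Real.exp (θ * F (Function.update x z t)) *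
          Real.log (Real.exp (θ * F (Function.update x z t))) ∂μ| ≤
          Real.exp (θ * B) * (θ * B) := by
        have := norm_integral_le_of_norm_le_const (μ := μ)
          (f := fun t => Real.exp (θ * F (Function.update x z t)) *
            Real.log (Real.exp (θ * F (Function.update x z t))))
          (C := Real.exp (θ * B) * (θ * B)) (Filter.Eventually.of_forall fun t => by
            rw [Real.norm_eq_abs, Real.log_exp, abs_mul]
            refine mul_le_mul (hfb _) ?_ (abs_nonneg _) (Real.exp_pos _).le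
            rw [abs_mul, abs_of_pos hθ]
            exact mul_le_mul_of_nonneg_left (hB _) hθ.le)
        simpa using this
      have a2 : |enE μ z (fun x => Real.exp (θ * F x)) x *
          Real.log (enE μ z (fun x => Real.exp (θ * F x)) x)| ≤ Real.exp (θ * B) *
        (|Real.log (Real.exp (-(θ * B)))| + |Real.log (Real.exp (θ * B))|) := by
        rw [abs_mul]
        refine mul_le_mul ?_ (en_abs_log (Real.exp_pos _) (hEl x) (hEu x)) (abs_nonneg _)
          (Real.exp_pos _).le
        rw [abs_of_nonneg ((Real.exp_pos _).le.trans (hEl x))]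
        exact hEu x
      have := abs_sub (∫ t, Real.exp (θ * F (Function.update x z t)) *
          Real.log (Real.exp (θ * F (Function.update x z t))) ∂μ)
        (enE μ z (fun x => Real.exp (θ * F x)) x *
          Real.log (enE μ z (fun x => Real.exp (θ * F x)) x))
      linarith
    · have hm2 := enE_meas μ z (hgm z)
      unfold enE at hm2
      simp only [Function.update_idem] at hm2
      refine ib hm2 (Real.exp (θ * B) * (θ * (2 * B))) fun x => ?_
      have := norm_integral_le_of_norm_le_const (μ := μ)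
        (f := fun t => Real.exp (θ * F (Function.update x z t)) *
          min ((θ * (F (Function.update x z t) - F (Function.update x z τ))) ^ 2)
            (θ * (F (Function.update x z t) - F (Function.update x z τ))))
        (C := Real.exp (θ * B) * (θ * (2 * B))) (Filter.Eventually.of_forall fun t => by
          have := hgb z (Function.update x z t)
          rw [Function.update_idem] at this
          rw [Real.norm_eq_abs]
          exact this)
      simpa using this
  refine (Finset.sum_le_sum fun z _ => h2 z).trans ?_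
  rw [← integral_finsetSum _ (fun z _ => ib (hgm z) _ (hgb z)), ← integral_const_mul]
  refine integral_mono (integrable_finsetSum _ fun z _ => ib (hgm z) _ (hgb z))
    ((ib hfm _ hfb).const_mul _) fun ω => ?_
  rw [← Finset.mul_sum, mul_comm (R * θ ^ p)]
  exact mul_le_mul_of_nonneg_left (h ω) (Real.exp_pos _).le

end Resample

open ProbabilityTheory Filter Topology in
/-- Herbst's argument -/
theorem en_herbst {Ω : Type*} [MeasurableSpace Ω] (P : Measure Ω) [IsProbabilityMeasure P]
    (F : Ω → ℝ) (hF : Measurable F) (B : ℝ) (hB : ∀ ω, |F ω| ≤ B) (p R : ℝ) (hp : 1 < p)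
    (h : ∀ s : ℝ, 0 < s → (∫ x, Real.exp (s * F x) * (s * F x) ∂P) -
      (∫ x, Real.exp (s * F x) ∂P) * Real.log (∫ x, Real.exp (s * F x) ∂P) ≤
      R * s ^ p * ∫ x, Real.exp (s * F x) ∂P) (θ : ℝ) (hθ : 0 < θ) :
    ∫ ω, Real.exp (θ * F ω) ∂P ≤
      Real.exp (θ * ∫ ω, F ω ∂P + R * θ ^ p / (p - 1)) := by
  have hint : ∀ s : ℝ, Integrable (fun ω => Real.exp (s * F ω)) P := fun s => by
    refine Integrable.of_bound (by fun_prop) (Real.exp (|s| * B))
      (Eventually.of_forall fun x => ?_)
    rw [Real.norm_eq_abs, abs_of_pos (Real.exp_pos _)]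
    refine Real.exp_le_exp.mpr ((le_abs_self _).trans ?_)
    rw [abs_mul]
    exact mul_le_mul_of_nonneg_left (hB x) (abs_nonneg _)
  have hset : ∀ s : ℝ, s ∈ interior (integrableExpSet F P) := fun s => by
    have : integrableExpSet F P = Set.univ := Set.eq_univ_of_forall fun t => hint t
    rw [this, interior_univ]
    trivial
  set H : ℝ → ℝ := fun s => ∫ ω, Real.exp (s * F ω) ∂P with hH
  have hHpos : ∀ s, 0 < H s := fun s => integral_exp_pos (hint s)
  have hHd : ∀ s, HasDerivAt H (∫ ω, F ω * Real.exp (s * F ω) ∂P) s := fun s =>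
    hasDerivAt_mgf (hset s)
  have hp1 : 0 < p - 1 := by linarith
  set G : ℝ → ℝ := fun s => Real.log (H s) / s - R * s ^ (p - 1) / (p - 1) with hG
  have hGd : ∀ s, 0 < s → HasDerivAt G
      (((∫ ω, F ω * Real.exp (s * F ω) ∂P) / H s * s - Real.log (H s) * 1) / s ^ 2 -
        R * ((p - 1) * s ^ (p - 1 - 1)) / (p - 1)) s := by
    intro s hs
    have a1 : HasDerivAt (fun s => Real.log (H s))
        ((∫ ω, F ω * Real.exp (s * F ω) ∂P) / H s) s := (hHd s).log (hHpos s).ne'
    have a2 := a1.div (hasDerivAt_id s) hs.ne'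
    have a3 : HasDerivAt (fun s : ℝ => s ^ (p - 1)) ((p - 1) * s ^ (p - 1 - 1)) s :=
      Real.hasDerivAt_rpow_const (Or.inl hs.ne')
    have a4 := (a3.const_mul R).div_const (p - 1)
    exact a2.sub a4
  have hder : ∀ s, 0 < s → (((∫ ω, F ω * Real.exp (s * F ω) ∂P) / H s * s -
      Real.log (H s) * 1) / s ^ 2 - R * ((p - 1) * s ^ (p - 1 - 1)) / (p - 1)) ≤ 0 := by
    intro s hs
    have b1 := h s hs
    have b2 : (∫ x, Real.exp (s * F x) * (s * F x) ∂P) =
        s * ∫ ω, F ω * Real.exp (s * F ω) ∂P := by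
      rw [← integral_const_mul]
      congr 1
      funext x
      ring
    rw [b2] at b1
    change s * (∫ ω, F ω * Real.exp (s * F ω) ∂P) - H s * Real.log (H s) ≤
      R * s ^ p * H s at b1
    have b3 : s ^ p = s ^ (p - 1 - 1) * s ^ 2 := by
      rw [← Real.rpow_natCast, ← Real.rpow_add hs]
      congr 1
      push_cast
      ring
    have b4 : (∫ ω, F ω * Real.exp (s * F ω) ∂P) / H s * s - Real.log (H s) * 1 ≤
        R * s ^ p := by
      rw [mul_one, sub_le_iff_le_add, div_mul_eq_mul_div, div_le_iff₀ (hHpos s)]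
      linarith
    have b5 : R * ((p - 1) * s ^ (p - 1 - 1)) / (p - 1) = R * s ^ (p - 1 - 1) := by
      field_simp
    rw [b5, sub_nonpos, div_le_iff₀ (by positivity)]
    calc _ ≤ R * s ^ p := b4
      _ = _ := by rw [b3]; ring
  have hanti : AntitoneOn G (Set.Ioi 0) := by
    refine antitoneOn_of_deriv_nonpos (convex_Ioi 0)
      (fun s hs => (hGd s hs).continuousAt.continuousWithinAt)
      (fun s hs => ?_) (fun s hs => ?_)
    · rw [interior_Ioi] at hs
      exact (hGd s hs).differentiableAt.differentiableWithinAt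
    · rw [interior_Ioi] at hs
      rw [(hGd s hs).deriv]
      exact hder s hs
  have hH0 : H 0 = 1 := by simp [hH]
  have hlim : Tendsto G (𝓝[>] 0) (𝓝 (∫ ω, F ω ∂P)) := by
    have c1 : HasDerivAt (fun s => Real.log (H s)) (∫ ω, F ω ∂P) 0 := by
      have := (hHd 0).log (hHpos 0).ne'
      simpa [hH0] using this
    have c2 := c1.tendsto_slope_zero_right
    have c3 : Tendsto (fun s : ℝ => R * s ^ (p - 1) / (p - 1)) (𝓝[>] 0) (𝓝 0) := by
      have d1 : Tendsto (fun s : ℝ => s ^ (p - 1)) (𝓝 0) (𝓝 ((0 : ℝ) ^ (p - 1))) :=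
        Real.continuousAt_rpow_const 0 (p - 1) (Or.inr hp1.le)
      rw [Real.zero_rpow hp1.ne'] at d1
      have d2 := ((d1.const_mul R).div_const (p - 1)).mono_left
        (nhdsWithin_le_nhds (a := (0 : ℝ)) (s := Set.Ioi 0))
      simpa using d2
    have c4 := c2.sub c3
    rw [sub_zero] at c4
    refine c4.congr fun s => ?_
    simp only [hG, zero_add, hH0, Real.log_one, sub_zero, smul_eq_mul]
    ring
  have hfin : G θ ≤ ∫ ω, F ω ∂P := by
    refine ge_of_tendsto hlim ?_
    filter_upwards [Ioc_mem_nhdsGT hθ] with s hs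
    exact hanti (Set.mem_Ioi.mpr hs.1) (Set.mem_Ioi.mpr hθ) hs.2
  have e1 : Real.log (H θ) ≤ θ * ∫ ω, F ω ∂P + R * θ ^ p / (p - 1) := by
    have e2 : Real.log (H θ) = θ * (G θ + R * θ ^ (p - 1) / (p - 1)) := by
      simp only [hG]
      field_simp
      ring
    have e3 : θ ^ p = θ * θ ^ (p - 1) := by
      rw [mul_comm, ← Real.rpow_add_one hθ.ne']
      congr 1
      ring
    rw [e2, mul_add, e3]
    have := mul_le_mul_of_nonneg_left hfin hθ.le
    have e4 : θ * (R * θ ^ (p - 1) / (p - 1)) = R * (θ * θ ^ (p - 1)) / (p - 1) := by ring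
    rw [e4]
    linarith
  exact (Real.log_le_iff_le_exp (hHpos θ)).mp e1

/-- the entropy method -/
theorem mgf {ι : Type} [Fintype ι] [DecidableEq ι] (μ : Measure ℝ) [IsProbabilityMeasure μ]
    (F : (ι → ℝ) → ℝ) (hF : Measurable F) (B : ℝ) (hB : ∀ ω, |F ω| ≤ B) (τ : ℝ)
    (hmono : ∀ ω z, F (Function.update ω z τ) ≤ F ω) (p R : ℝ) (hp : 1 < p) (hR : 0 ≤ R)
    (h : ∀ (θ : ℝ), 0 < θ → ∀ ω : ι → ℝ,
      ∑ z, min ((θ * (F ω - F (Function.update ω z τ))) ^ 2)
        (θ * (F ω - F (Function.update ω z τ))) ≤ R * θ ^ p) (θ : ℝ) (hθ : 0 < θ) :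
    ∫ ω, Real.exp (θ * F ω) ∂(Measure.pi fun _ : ι => μ) ≤
      Real.exp (θ * ∫ ω, F ω ∂(Measure.pi fun _ : ι => μ) + R * θ ^ p / (p - 1)) :=
  en_herbst _ F hF B hB p R hp
    (fun s hs => en_mls μ hF hB τ hmono p R s hs (fun ω => h s hs ω)) θ hθ

end Pool.Agent.H4R2.AE.Ent
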