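import Pool.Agent.H4R2.AE.Modi
import Pool.Agent.H4R2.AE.Ent

/-! The good event on the torus: general mass, concentration by the entropy method. -/

set_option autoImplicit false

open scoped BigOperators
open MeasureTheory Filter Topology

namespace Pool.Agent.H4R2.AE

namespace Goodt

lemma goodt_min_mono (a b : ℝ) (ha : 0 ≤ a) (hab : a ≤ b) : min (a ^ 2) a ≤ min (b ^ 2) b :=
  min_le_min (pow_le_pow_left₀ ha hab 2) hab

/-- one-sided tail from the entropy method -/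
lemma goodt_tail1 {ι : Type} [Fintype ι] [DecidableEq ι] (μ : Measure ℝ) [IsProbabilityMeasure μ]
    (F : (ι → ℝ) → ℝ) (hF : Measurable F) (B : ℝ) (hB : ∀ ω, |F ω| ≤ B) (τ : ℝ)
    (hmono : ∀ ω z, F (Function.update ω z τ) ≤ F ω) (p R c : ℝ) (hp : 1 < p) (hR : 0 ≤ R)
    (hc : 0 < c)
    (h : ∀ (θ : ℝ), 0 < θ → ∀ ω : ι → ℝ,
      ∑ z, min ((θ * (F ω - F (Function.update ω z τ))) ^ 2)
        (θ * (F ω - F (Function.update ω z τ))) ≤ R * (c * θ) ^ p)
    (h0 : ∫ ω, F ω ∂(Measure.pi fun _ : ι => μ) = 0) (θ : ℝ) (hθ : 0 < θ) (δ : ℝ) :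
    (Measure.pi fun _ : ι => μ).real {ω | δ ≤ F ω} ≤
      Real.exp (-(θ * δ) + R * (c * θ) ^ p / (p - 1)) := by
  have hm := Ent.mgf μ F hF B hB τ hmono p (R * c ^ p) hp (by positivity) (by
    intro t ht ω
    refine (h t ht ω).trans (le_of_eq ?_)
    rw [Real.mul_rpow hc.le ht.le]
    ring) θ hθ
  rw [h0, mul_zero, zero_add] at hm
  have hint : Integrable (fun ω => Real.exp (θ * F ω)) (Measure.pi fun _ : ι => μ) := by
    refine Integrable.of_bound (C := Real.exp (θ * B))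
      (by fun_prop : Measurable fun ω => Real.exp (θ * F ω)).aestronglyMeasurable ?_
    filter_upwards with ω
    rw [Real.norm_eq_abs, abs_of_pos (Real.exp_pos _)]
    exact Real.exp_le_exp.2 (mul_le_mul_of_nonneg_left ((le_abs_self _).trans (hB ω)) hθ.le)
  have hmk := mul_meas_ge_le_integral_of_nonneg (μ := Measure.pi fun _ : ι => μ)
    (f := fun ω => Real.exp (θ * F ω))
    (Filter.Eventually.of_forall fun ω => (Real.exp_pos _).le) hint (Real.exp (θ * δ))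
  have hset : {ω | Real.exp (θ * δ) ≤ Real.exp (θ * F ω)} = {ω | δ ≤ F ω} := by
    ext ω
    simp only [Set.mem_ofPred_eq, Real.exp_le_exp]
    exact ⟨fun h => le_of_mul_le_mul_left h hθ, fun h => mul_le_mul_of_nonneg_left h hθ.le⟩
  rw [hset] at hmk
  have h2 : Real.exp (θ * δ) * (Measure.pi fun _ : ι => μ).real {ω | δ ≤ F ω} ≤
      Real.exp (R * c ^ p * θ ^ p / (p - 1)) := hmk.trans hm
  have h3 : Real.exp (-(θ * δ) + R * (c * θ) ^ p / (p - 1)) =
      Real.exp (-(θ * δ)) * Real.exp (R * c ^ p * θ ^ p / (p - 1)) := by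
    rw [← Real.exp_add, Real.mul_rpow hc.le hθ.le]
    congr 1
    ring
  rw [h3]
  calc (Measure.pi fun _ : ι => μ).real {ω | δ ≤ F ω}
      = Real.exp (-(θ * δ)) * (Real.exp (θ * δ) *
        (Measure.pi fun _ : ι => μ).real {ω | δ ≤ F ω}) := by
        rw [← mul_assoc, ← Real.exp_add]; simp
    _ ≤ _ := mul_le_mul_of_nonneg_left h2 (Real.exp_pos _).le

set_option linter.unusedSectionVars false
variable {d L : ℕ} [NeZero L]

/-- sensitivity of the solution to one site in terms of the Green function -/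
lemma goodt_sens (κ : ℝ) (hκ : 0 < κ) (p R : ℝ) (lam δ : ℝ) (hlam : 0 < lam)
    (hδ : 0 < δ) (hδ' : δ ≤ 1 / 8)
    (hG : ∀ (u Gr : T d L → ℝ) (x0 : T d L), (∀ x, 1 / 2 ≤ u x) → (∀ x, 0 ≤ Gr x) →
      (∀ x, LapW u Gr x + κ * Real.exp (-(4 * δ)) * Gr x = if x = x0 then 1 else 0) →
      ∀ θ : ℝ, 0 < θ → ∑ z, min ((θ * Gr z) ^ 2) (θ * Gr z) ≤ R * θ ^ p)
    (E : ℝ) (hE : |E| ≤ lam) (V : T d L → ℝ) (x : T d L) (τ : ℝ) (D : T d L → ℝ)
    (hD0 : ∀ z, 0 ≤ D z)
    (hD : ∀ z, D z ≤ |Good.W lam δ κ E (Function.update V z τ) x - Good.W lam δ κ E V x|)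
    (θ : ℝ) (hθ : 0 < θ) :
    ∑ z, min ((θ * D z) ^ 2) (θ * D z) ≤ R * (6 * lam * θ) ^ p := by
  have hw := Good.good_W lam δ κ E V hlam hδ hκ hE
  have bw := Cmp.bound lam δ κ E hlam hδ hκ hE (Good.clamp V) _ (Good.good_clamp_le V) hw
  obtain ⟨Gr, hGr⟩ := Lin.solve (fun y => Real.exp (Good.W lam δ κ E V y))
    (fun _ : T d L => κ * Real.exp (-(4 * δ))) (fun y => if y = x then (1 : ℝ) else 0)
    (fun y => Real.exp_pos _) (fun _ => by positivity)
  have hGr0 : ∀ y, 0 ≤ Gr y :=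
    Lin.nonneg (fun y => Real.exp (Good.W lam δ κ E V y)) (fun _ => κ * Real.exp (-(4 * δ))) Gr
      (fun y => Real.exp_pos _) (fun _ => by positivity) (by
      intro y; rw [hGr y]; split_ifs <;> norm_num)
  have hu : ∀ y, 1 / 2 ≤ Real.exp (Good.W lam δ κ E V y) := by
    intro y
    have h1 := (abs_le.1 (bw y)).1
    have h2 := Real.add_one_le_exp (Good.W lam δ κ E V y)
    linarith
  refine le_trans ?_ (hG _ Gr x hu hGr0 hGr (6 * lam * θ) (by positivity))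
  refine Finset.sum_le_sum fun z _ => ?_
  refine goodt_min_mono _ _ (mul_nonneg hθ.le (hD0 z)) ?_
  have hc := Sens.claim lam δ κ E hlam hδ hδ' hκ hE (Good.clamp V) _
    (Good.clamp (Function.update V z τ)) _ (Good.good_clamp_le V) (Good.good_clamp_le _) hw
    (Good.good_W lam δ κ E (Function.update V z τ) hlam hδ hκ hE) z x
    (fun y hy => by unfold Good.clamp; rw [Function.update_of_ne hy]) Gr hGr hGr0
  have he : Real.exp 1 ≤ 3 := by
    have := Real.exp_one_lt_d9; linarith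
  have h1 : D z ≤ 6 * lam * Gr z := by
    refine (hD z).trans (hc.trans ?_)
    have h2 : 0 ≤ lam * Gr z := mul_nonneg hlam.le (hGr0 z)
    nlinarith
  calc θ * D z ≤ θ * (6 * lam * Gr z) := mul_le_mul_of_nonneg_left h1 hθ.le
    _ = 6 * lam * θ * Gr z := by ring

lemma goodt_anti (κ : ℝ) (hκ : 0 < κ) (lam δ : ℝ) (hlam : 0 < lam)
    (hδ : 0 < δ) (E : ℝ) (hE : |E| ≤ lam) (V V' : T d L → ℝ)
    (h : ∀ y, Good.clamp V y ≤ Good.clamp V' y) (x : T d L) :
    Good.W lam δ κ E V' x ≤ Good.W lam δ κ E V x := by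
  have := Cmp.compare lam δ κ hlam hδ hκ (Good.clamp V) (Good.clamp V') E E _ _
    (Good.good_W lam δ κ E V hlam hδ hκ hE) (Good.good_W lam δ κ E V' hlam hδ hκ hE) 0 le_rfl
    (by
      intro y
      have := mul_le_mul_of_nonneg_left (sub_nonpos.2 (h y)) hlam.le
      linarith) x
  rw [zero_div] at this
  linarith

lemma goodt_up (V : T d L → ℝ) (z y : T d L) :
    Good.clamp V y ≤ Good.clamp (Function.update V z 1) y := by
  by_cases hy : y = z
  · subst hy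
    have h1 := (abs_le.1 (Good.good_clamp_le V y)).2
    have h2 : Good.clamp (Function.update V y 1) y = 1 := by
      unfold Good.clamp
      rw [Function.update_self]
      norm_num
    rw [h2]; exact h1
  · unfold Good.clamp
    rw [Function.update_of_ne hy]

lemma goodt_down (V : T d L → ℝ) (z y : T d L) :
    Good.clamp (Function.update V z (-1)) y ≤ Good.clamp V y := by
  by_cases hy : y = z
  · subst hy
    have h1 := (abs_le.1 (Good.good_clamp_le V y)).1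
    have h2 : Good.clamp (Function.update V y (-1)) y = -1 := by
      unfold Good.clamp
      rw [Function.update_self]
      norm_num
    rw [h2]; exact h1
  · unfold Good.clamp
    rw [Function.update_of_ne hy]

lemma goodt_tail (κ : ℝ) (hκ : 0 < κ) (p R : ℝ) (hp : 1 < p)
    (hR : 0 ≤ R) (μ : Measure ℝ) [IsProbabilityMeasure μ] (lam δ : ℝ) (hlam : 0 < lam)
    (hδ : 0 < δ) (hδ' : δ ≤ 1 / 8)
    (hG : ∀ (u Gr : T d L → ℝ) (x0 : T d L), (∀ x, 1 / 2 ≤ u x) → (∀ x, 0 ≤ Gr x) →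
      (∀ x, LapW u Gr x + κ * Real.exp (-(4 * δ)) * Gr x = if x = x0 then 1 else 0) →
      ∀ θ : ℝ, 0 < θ → ∑ z, min ((θ * Gr z) ^ 2) (θ * Gr z) ≤ R * θ ^ p)
    (θ : ℝ) (hθ : 0 < θ) (E : ℝ) (hE : |E| ≤ lam)
    (hE0 : ∫ V, Good.W (d := d) (L := L) lam δ κ E V 0 ∂(Measure.pi fun _ : T d L => μ) = 0)
    (x : T d L) :
    (Measure.pi fun _ : T d L => μ).real {V | δ ≤ |Good.W lam δ κ E V x|} ≤
      2 * Real.exp (-(θ * δ) + R * (6 * lam * θ) ^ p / (p - 1)) := by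
  have hmean : ∫ V, Good.W lam δ κ E V x ∂(Measure.pi fun _ : T d L => μ) = 0 := by
    rw [Good.good_mean lam δ κ E hlam hδ hκ hE μ x]; exact hE0
  have hmeas := (Good.good_cont lam δ κ E hlam hδ hκ hE x).measurable
  have hup : (Measure.pi fun _ : T d L => μ).real {V | δ ≤ Good.W lam δ κ E V x} ≤
      Real.exp (-(θ * δ) + R * (6 * lam * θ) ^ p / (p - 1)) := by
    refine goodt_tail1 μ (fun V : T d L → ℝ => Good.W lam δ κ E V x) hmeas (2 * δ)
      (fun V => Good.good_bound lam δ κ E hlam hδ hκ hE V x) 1 ?_ p R (6 * lam) hp hR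
      (by positivity) ?_ hmean θ hθ δ
    · intro V z
      exact goodt_anti κ hκ lam δ hlam hδ E hE V _ (goodt_up V z) x
    · intro t ht V
      refine goodt_sens κ hκ p R lam δ hlam hδ hδ' hG E hE V x 1
        (fun z => Good.W lam δ κ E V x - Good.W lam δ κ E (Function.update V z 1) x) ?_ ?_ t ht
      · intro z
        exact sub_nonneg.2 (goodt_anti κ hκ lam δ hlam hδ E hE V _ (goodt_up V z) x)
      · intro z
        rw [abs_sub_comm]
        exact le_abs_self _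
  have hdn : (Measure.pi fun _ : T d L => μ).real {V | δ ≤ -Good.W lam δ κ E V x} ≤
      Real.exp (-(θ * δ) + R * (6 * lam * θ) ^ p / (p - 1)) := by
    refine goodt_tail1 μ (fun V : T d L → ℝ => -Good.W lam δ κ E V x) hmeas.neg (2 * δ)
      (fun V => by rw [abs_neg]; exact Good.good_bound lam δ κ E hlam hδ hκ hE V x) (-1) ?_ p R
      (6 * lam) hp hR (by positivity) ?_ (by rw [integral_neg, hmean, neg_zero]) θ hθ δ
    · intro V z
      exact neg_le_neg (goodt_anti κ hκ lam δ hlam hδ E hE _ V (goodt_down V z) x)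
    · intro t ht V
      refine goodt_sens κ hκ p R lam δ hlam hδ hδ' hG E hE V x (-1)
        (fun z => -Good.W lam δ κ E V x - -Good.W lam δ κ E (Function.update V z (-1)) x)
        ?_ ?_ t ht
      · intro z
        have := goodt_anti κ hκ lam δ hlam hδ E hE _ V (goodt_down V z) x
        linarith
      · intro z
        refine le_trans (le_of_eq ?_) (le_abs_self _)
        ring
  have hsub : {V : T d L → ℝ | δ ≤ |Good.W lam δ κ E V x|} ⊆
      {V | δ ≤ Good.W lam δ κ E V x} ∪ {V | δ ≤ -Good.W lam δ κ E V x} := by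
    intro V hV
    exact le_abs.1 (show δ ≤ |Good.W lam δ κ E V x| from hV)
  refine (measureReal_mono hsub).trans ((measureReal_union_le _ _).trans ?_)
  linarith

/-- `q` is the probability bound produced by the entropy method -/
theorem good (d L : ℕ) [NeZero L] (κ : ℝ) (hκ : 0 < κ) (p R : ℝ) (hp : 1 < p)
    (hR : 0 ≤ R) (μ : Measure ℝ) [IsProbabilityMeasure μ] (lam δ : ℝ) (hlam : 0 < lam)
    (hδ : 0 < δ) (hδ' : δ ≤ 1 / 8)
    (hG : ∀ (u Gr : T d L → ℝ) (x0 : T d L), (∀ x, 1 / 2 ≤ u x) → (∀ x, 0 ≤ Gr x) →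
      (∀ x, LapW u Gr x + κ * Real.exp (-(4 * δ)) * Gr x = if x = x0 then 1 else 0) →
      ∀ θ : ℝ, 0 < θ → ∑ z, min ((θ * Gr z) ^ 2) (θ * Gr z) ≤ R * θ ^ p)
    (θ : ℝ) (hθ : 0 < θ) :
    ∃ E : ℝ, |E| ≤ lam ∧ ∃ G : Set (T d L → ℝ), MeasurableSet G ∧
      (Measure.pi fun _ : T d L => μ).real Gᶜ ≤
        (L : ℝ) ^ d * (2 * Real.exp (-(θ * δ) + R * (6 * lam * θ) ^ p / (p - 1))) ∧
      ∀ V ∈ G, (∀ x, |V x| ≤ 1) → ∃ w : T d L → ℝ, (∀ x, |w x| ≤ δ) ∧
        ∀ x, ∑ i : Fin d, ((1 - Real.exp (w (x + Pi.single i 1) - w x)) +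
          (1 - Real.exp (w (x - Pi.single i 1) - w x))) + lam * V x - E + κ * w x = 0 := by
  obtain ⟨E, hE, hE0⟩ := Good.good_E (d := d) (L := L) lam δ κ hlam hδ hκ μ
  refine ⟨E, hE, {V | ∀ x, |Good.W lam δ κ E V x| < δ}, ?_, ?_, ?_⟩
  · have : {V : T d L → ℝ | ∀ x, |Good.W lam δ κ E V x| < δ}
        = ⋂ x, {V : T d L → ℝ | |Good.W lam δ κ E V x| < δ} := by
      ext V; simp
    rw [this]
    refine MeasurableSet.iInter fun x => ?_
    exact measurableSet_lt ((Good.good_cont lam δ _ E hlam hδ hκ hE x).abs.measurable)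
      measurable_const
  · have hone := goodt_tail κ hκ p R hp hR μ lam δ hlam hδ hδ' hG θ hθ E hE hE0
    have hc : {V : T d L → ℝ | ∀ x, |Good.W lam δ κ E V x| < δ}ᶜ
        = ⋃ x, {V : T d L → ℝ | δ ≤ |Good.W lam δ κ E V x|} := by
      ext V; simp
    rw [hc]
    refine (measureReal_iUnion_fintype_le _).trans ?_
    refine (Finset.sum_le_sum fun x _ => hone x).trans ?_
    rw [Finset.sum_const, nsmul_eq_mul, Finset.card_univ, Sens.card_T]
  · intro V hV hV1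
    refine ⟨Good.W lam δ κ E V, fun x => (hV x).le, ?_⟩
    intro x
    have h := Good.good_W lam δ _ E V hlam hδ hκ hE
    rw [Good.good_clamp_eq V hV1] at h
    have hx := h x
    rw [Good.good_beta lam δ _ _ (hV x).le] at hx
    exact hx

theorem modi (d L : ℕ) [NeZero L] (κ : ℝ) (hκ : 0 < κ) (p R : ℝ) (hp : 1 < p)
    (hR : 0 ≤ R) (μ : Measure ℝ) [IsProbabilityMeasure μ] (lam δ : ℝ) (hlam : 0 < lam)
    (hδ : 0 < δ) (hδ' : δ ≤ 1 / 8)
    (hG : ∀ (u Gr : T d L → ℝ) (x0 : T d L), (∀ x, 1 / 2 ≤ u x) → (∀ x, 0 ≤ Gr x) →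
      (∀ x, LapW u Gr x + κ * Real.exp (-(4 * δ)) * Gr x = if x = x0 then 1 else 0) →
      ∀ θ : ℝ, 0 < θ → ∑ z, min ((θ * Gr z) ^ 2) (θ * Gr z) ≤ R * θ ^ p)
    (θ : ℝ) (hθ : 0 < θ) :
    ∃ E : ℝ, |E| ≤ lam ∧ ∃ Φ : (T d L → ℝ) → (T d L → ℝ), Measurable Φ ∧
      (∀ (V : T d L → ℝ) (a : T d L), Φ (fun x => V (x + a)) = fun x => Φ V (x + a)) ∧
      (∀ x, (Measure.pi fun _ : T d L => μ).real {V | Φ V x ≠ V x} ≤
        2 * Real.exp (-(θ * δ) + R * (6 * lam * θ) ^ p / (p - 1))) ∧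
      ∀ V : T d L → ℝ, (∀ x, |V x| ≤ 1) → (∀ x, |Φ V x - V x| ≤ 2) ∧
        ∃ w : T d L → ℝ, (∀ x, |w x| ≤ 2 * δ) ∧
        ∀ x, ∑ i : Fin d, ((1 - Real.exp (w (x + Pi.single i 1) - w x)) +
          (1 - Real.exp (w (x - Pi.single i 1) - w x))) + lam * Φ V x - E + κ * w x = 0 := by
  obtain ⟨E, hE, hE0⟩ := Good.good_E (d := d) (L := L) lam δ κ hlam hδ hκ μ
  exact ⟨E, hE, Modi.Phi lam δ κ E, Modi.modi_meas lam δ _ E hlam hδ hκ hE,
    Modi.modi_cov lam δ _ E hlam hδ hκ hE, fun x => Modi.modi_prob lam δ _ E μ x _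
      (goodt_tail κ hκ p R hp hR μ lam δ hlam hδ hδ' hG θ hθ E hE hE0 x),
    Modi.modi_sol lam δ _ E hlam hδ hκ hE⟩

end Goodt

end Pool.Agent.H4R2.AE
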