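import Pool.Agent.H4R2.AE.Defs
import Pool.Agent.H4R2.AE.Sob
import Pool.Agent.H4R2.AE.Green

/-!
# Massive `L²` Sobolev inequality on the torus (helper415)
-/

set_option autoImplicit false

open scoped BigOperators

namespace Pool.Agent.H4R2.AE

namespace Sobt

theorem sobt (d : ℕ) (hd : 3 ≤ d) : ∃ C : ℝ, 1 ≤ C ∧ ∀ (L : ℕ) [NeZero L] (v : T d L → ℝ),
    (∀ x, 0 ≤ v x) →
    (∑ x, v x ^ (2 * (d : ℝ) / ((d : ℝ) - 2))) ^ (((d : ℝ) - 2) / (d : ℝ)) ≤
      C * (∑ i : Fin d, ∑ x, (v (x + Pi.single i 1) - v x) ^ 2 + 1 / (L : ℝ) ^ 2 * ∑ x, v x ^ 2) := by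
  have hd3 : (3 : ℝ) ≤ d := by exact_mod_cast hd
  have hd2 : 0 < (d : ℝ) - 2 := by linarith
  have hd1 : 0 < (d : ℝ) - 1 := by linarith
  have hd0 : 0 < (d : ℝ) := by linarith
  obtain ⟨s, hs⟩ : ∃ s : ℝ, s = 2 * ((d : ℝ) - 1) / ((d : ℝ) - 2) := ⟨_, rfl⟩
  obtain ⟨p, hp⟩ : ∃ p : ℝ, p = 2 * (d : ℝ) / ((d : ℝ) - 2) := ⟨_, rfl⟩
  refine ⟨2 * d * s ^ 2 + (d : ℝ) ^ 2, ?_, ?_⟩
  · have : 0 ≤ 2 * (d : ℝ) * s ^ 2 := by positivity
    nlinarith
  intro L _ v hv
  have hL : 0 < (L : ℝ) := by exact_mod_cast Nat.pos_of_ne_zero (NeZero.ne L)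
  have hs1 : 1 ≤ s := by
    rw [hs, le_div_iff₀ hd2]; nlinarith
  have hp1 : 1 ≤ p := by
    rw [hp, le_div_iff₀ hd2]; nlinarith
  have hp0 : 0 < p := by linarith
  have hsp : 2 * s = 1 + 1 + p := by
    rw [hs, hp]; field_simp; ring
  rw [← hp]
  set S := ∑ x, v x ^ p with hS
  have hS0 : 0 ≤ S := Finset.sum_nonneg fun x _ => Real.rpow_nonneg (hv x) p
  set E := ∑ i : Fin d, ∑ x, (v (x + Pi.single i 1) - v x) ^ 2 with hE
  set B := ∑ x, v x ^ 2 with hB
  have hE0 : 0 ≤ E := Finset.sum_nonneg fun i _ => Finset.sum_nonneg fun x _ => sq_nonneg _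
  have hB0 : 0 ≤ B := Finset.sum_nonneg fun x _ => sq_nonneg _
  -- Sobolev
  have hsob := Sob.sobolev d L (by omega) (fun x => v x ^ s) (fun x => Real.rpow_nonneg (hv x) s)
  have hg : ∑ x, (fun x => v x ^ s) x ^ ((d : ℝ) / ((d : ℝ) - 1)) = S := by
    rw [hS]
    refine Finset.sum_congr rfl fun x _ => ?_
    simp only []
    rw [← Real.rpow_mul (hv x)]
    congr 1
    rw [hs, hp]; field_simp
  rw [hg] at hsob
  have hD : ∑ i : Fin d, ∑ x, |v (x + Pi.single i 1) ^ s - v x ^ s| ≤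
      Real.sqrt (2 * d * s ^ 2) * Real.sqrt S * Real.sqrt E := by
    have step : ∀ i : Fin d, ∀ x : T d L, |v (x + Pi.single i 1) ^ s - v x ^ s| ≤
        Real.sqrt (s ^ 2 * (v x ^ p + v (x + Pi.single i 1) ^ p)) *
        Real.sqrt ((v (x + Pi.single i 1) - v x) ^ 2) := by
      intro i x
      rw [← Real.sqrt_mul (by
        have := Real.rpow_nonneg (hv x) p
        have := Real.rpow_nonneg (hv (x + Pi.single i 1)) p
        positivity)]
      apply Real.le_sqrt_of_sq_le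
      rw [sq_abs]
      have := Green.pw hs1 one_pos le_rfl hsp (hv x) (hv (x + Pi.single i 1))
      rw [Real.rpow_one, Real.rpow_one, div_one] at this
      calc (v (x + Pi.single i 1) ^ s - v x ^ s) ^ 2 = (v x ^ s - v (x + Pi.single i 1) ^ s) ^ 2 := by
            ring
        _ ≤ _ := this
        _ = _ := by ring
    calc ∑ i : Fin d, ∑ x, |v (x + Pi.single i 1) ^ s - v x ^ s|
        ≤ ∑ i : Fin d, ∑ x, Real.sqrt (s ^ 2 * (v x ^ p + v (x + Pi.single i 1) ^ p)) *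
        Real.sqrt ((v (x + Pi.single i 1) - v x) ^ 2) :=
          Finset.sum_le_sum fun i _ => Finset.sum_le_sum fun x _ => step i x
      _ ≤ Real.sqrt (∑ i : Fin d, ∑ x, (s ^ 2 * (v x ^ p + v (x + Pi.single i 1) ^ p))) *
          Real.sqrt E := by
          rw [hE, ← Finset.sum_product', ← Finset.sum_product', ← Finset.sum_product']
          apply Real.sum_sqrt_mul_sqrt_le
          · intro y
            have := Real.rpow_nonneg (hv y.2) p
            have := Real.rpow_nonneg (hv (y.2 + Pi.single y.1 1)) p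
            positivity
          · intro y
            exact sq_nonneg _
      _ = Real.sqrt (2 * d * s ^ 2) * Real.sqrt S * Real.sqrt E := by
          congr 1
          rw [← Real.sqrt_mul (by positivity)]
          congr 1
          have : ∀ i : Fin d, ∑ x : T d L, (s ^ 2 * (v x ^ p + v (x + Pi.single i 1) ^ p)) =
              s ^ 2 * (2 * S) := by
            intro i
            rw [← Finset.mul_sum, Finset.sum_add_distrib,
              Green.sum_shift (fun x => v x ^ p) (Pi.single i 1)]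
            rw [hS]; ring
          rw [Finset.sum_congr rfl (fun i _ => this i)]
          simp only [Finset.sum_const, Finset.card_univ, Fintype.card_fin, nsmul_eq_mul]
          ring
  have hM : ∑ x, v x ^ s ≤ Real.sqrt B * Real.sqrt S := by
    have step : ∀ x, v x ^ s = Real.sqrt (v x ^ 2) * Real.sqrt (v x ^ p) := by
      intro x
      rw [← Real.sqrt_mul (sq_nonneg _), ← Real.rpow_two,
        ← Real.rpow_add_of_nonneg (hv x) (by norm_num) hp0.le,
        show (2 : ℝ) + p = 2 * s by rw [hsp]; ring]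
      symm
      rw [Real.sqrt_eq_iff_mul_self_eq (Real.rpow_nonneg (hv x) _) (Real.rpow_nonneg (hv x) _),
        ← Real.rpow_add_of_nonneg (hv x) (by linarith) (by linarith)]
      congr 1; ring
    rw [Finset.sum_congr rfl (fun x _ => step x)]
    exact Real.sum_sqrt_mul_sqrt_le _ (fun x => sq_nonneg _)
      (fun x => Real.rpow_nonneg (hv x) _)
  obtain ⟨Q, hQ⟩ : ∃ Q : ℝ, Q = E + 1 / (L : ℝ) ^ 2 * B := ⟨_, rfl⟩
  have hQ0 : 0 ≤ Q := by rw [hQ]; positivity
  have hmain : S ^ (((d : ℝ) - 1) / (d : ℝ)) ≤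
      Real.sqrt S * Real.sqrt ((2 * d * s ^ 2 + (d : ℝ) ^ 2) * Q) := by
    have t1 : Real.sqrt (2 * d * s ^ 2) * Real.sqrt E + d * (Real.sqrt B / L) ≤
        Real.sqrt ((2 * d * s ^ 2 + (d : ℝ) ^ 2) * Q) := by
      apply Real.le_sqrt_of_sq_le
      have e1 : Real.sqrt (2 * d * s ^ 2) ^ 2 = 2 * d * s ^ 2 := Real.sq_sqrt (by positivity)
      have e2 : Real.sqrt E ^ 2 = E := Real.sq_sqrt hE0
      have e3 : (Real.sqrt B / L) ^ 2 = 1 / (L : ℝ) ^ 2 * B := by
        rw [div_pow, Real.sq_sqrt hB0]; ring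
      have e4 : (2 * d * s ^ 2 + (d : ℝ) ^ 2) * Q =
          (Real.sqrt (2 * d * s ^ 2) ^ 2 + (d : ℝ) ^ 2) * (Real.sqrt E ^ 2 + (Real.sqrt B / L) ^ 2) := by
        rw [e1, e2, e3, hQ]
      rw [e4]
      nlinarith [sq_nonneg (Real.sqrt (2 * d * s ^ 2) * (Real.sqrt B / L) - d * Real.sqrt E)]
    calc S ^ (((d : ℝ) - 1) / (d : ℝ)) ≤ _ := hsob
      _ ≤ Real.sqrt (2 * d * s ^ 2) * Real.sqrt S * Real.sqrt E
          + (d : ℝ) / L * (Real.sqrt B * Real.sqrt S) := by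
          refine add_le_add hD (mul_le_mul_of_nonneg_left hM (by positivity))
      _ = Real.sqrt S * (Real.sqrt (2 * d * s ^ 2) * Real.sqrt E + d * (Real.sqrt B / L)) := by
          ring
      _ ≤ _ := mul_le_mul_of_nonneg_left t1 (Real.sqrt_nonneg _)
  rw [← hQ]
  rcases eq_or_lt_of_le hS0 with hS00 | hSpos
  · rw [← hS00, Real.zero_rpow (by positivity)]
    positivity
  have hfin : S ^ (((d : ℝ) - 2) / (2 * (d : ℝ))) ≤
      Real.sqrt ((2 * d * s ^ 2 + (d : ℝ) ^ 2) * Q) := by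
    have t2 : ((d : ℝ) - 1) / (d : ℝ) = 1 / 2 + ((d : ℝ) - 2) / (2 * (d : ℝ)) := by
      field_simp; ring
    rw [t2, Real.rpow_add hSpos, ← Real.sqrt_eq_rpow] at hmain
    exact le_of_mul_le_mul_left hmain (Real.sqrt_pos.2 hSpos)
  calc S ^ (((d : ℝ) - 2) / (d : ℝ)) = (S ^ (((d : ℝ) - 2) / (2 * (d : ℝ)))) ^ 2 := by
        rw [← Real.rpow_natCast, ← Real.rpow_mul hS0]
        congr 1; push_cast; field_simp
    _ ≤ Real.sqrt ((2 * d * s ^ 2 + (d : ℝ) ^ 2) * Q) ^ 2 :=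
        pow_le_pow_left₀ (Real.rpow_nonneg hS0 _) hfin 2
    _ = _ := Real.sq_sqrt (by positivity)

end Sobt

end Pool.Agent.H4R2.AE
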