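import Pool.Agent.H4R2.AE.Defs
import Pool.Agent.H4R2.AE.Sobt
import Pool.Agent.H4R2.AE.Poi
import Pool.Agent.H4R2.AE.Lin

/-!
# Sup bound for the mean-zero Poisson problem on the torus (De Giorgi - Stampacchia) (helper415)
-/

set_option autoImplicit false

open scoped BigOperators

namespace Pool.Agent.H4R2.AE

namespace Osc

open Finset

/-- number of points where `g > t` -/
noncomputable def cnt {d L : ℕ} [NeZero L] (g : T d L → ℝ) (t : ℝ) : ℝ := by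
  classical
  exact ((univ.filter fun x => t < g x).card : ℝ)

theorem cnt_eq {d L : ℕ} [NeZero L] (g : T d L → ℝ) (t : ℝ) [DecidablePred fun x => t < g x] :
    cnt g t = ((univ.filter fun x => t < g x).card : ℝ) := by
  classical
  unfold cnt
  congr!

theorem cnt_nonneg {d L : ℕ} [NeZero L] (g : T d L → ℝ) (t : ℝ) : 0 ≤ cnt g t := by
  classical
  rw [cnt_eq]
  positivity

theorem cnt_anti {d L : ℕ} [NeZero L] (g : T d L → ℝ) {s t : ℝ} (h : s ≤ t) : cnt g t ≤ cnt g s := by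
  classical
  rw [cnt_eq, cnt_eq]
  have : (univ.filter fun x => t < g x).card ≤ (univ.filter fun x => s < g x).card := by
    apply card_le_card
    intro x hx
    rw [mem_filter] at hx ⊢
    exact ⟨hx.1, lt_of_le_of_lt h hx.2⟩
  exact_mod_cast this

theorem card_T (d L : ℕ) [NeZero L] : (Fintype.card (T d L) : ℝ) = (L : ℝ) ^ d := by
  rw [Fintype.card_fun, ZMod.card, Fintype.card_fin]
  push_cast
  rfl

theorem pos_part_mul (a b t : ℝ) : (max (a - t) 0 - max (b - t) 0) ^ 2 ≤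
    (max (a - t) 0 - max (b - t) 0) * (a - b) := by
  rcases le_total a t with h1 | h1 <;> rcases le_total b t with h2 | h2
  · rw [max_eq_right (by linarith), max_eq_right (by linarith)]; simp
  · rw [max_eq_right (by linarith), max_eq_left (by linarith)]; nlinarith
  · rw [max_eq_left (by linarith), max_eq_right (by linarith)]; nlinarith
  · rw [max_eq_left (by linarith), max_eq_left (by linarith)]; nlinarith

/-- the `ℓ²` bound -/
theorem l2 (d L : ℕ) [NeZero L] (u g ρ : T d L → ℝ) (F : ℝ) (hu : ∀ x, 1 / 2 ≤ u x)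
    (hg : ∀ x, LapW u g x = ρ x) (h0 : ∑ x, g x = 0) (hρ : ∀ x, |ρ x| ≤ F) :
    ∑ x, g x ^ 2 ≤ (2 * (d : ℝ) * (L : ℝ) ^ 2 * F) ^ 2 * (L : ℝ) ^ d := by
  have hF : 0 ≤ F := (abs_nonneg _).trans (hρ 0)
  have hpoi := Poi.poincare d L g h0
  have h1 : ∑ x, g x * LapW u g x = ∑ x, g x * ρ x := by
    refine sum_congr rfl fun x _ => ?_
    rw [hg]
  rw [Lin.bilin] at h1
  have h2 : 1 / 4 * ∑ i : Fin d, ∑ x, (g (x + Pi.single i 1) - g x) ^ 2 ≤
      ∑ x, ∑ i : Fin d, u x * u (x + Pi.single i 1) *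
        ((g x - g (x + Pi.single i 1)) * (g x - g (x + Pi.single i 1))) := by
    rw [sum_comm, mul_sum]
    refine sum_le_sum fun x _ => ?_
    rw [mul_sum]
    refine sum_le_sum fun i _ => ?_
    have uu : 1 / 4 ≤ u x * u (x + Pi.single i 1) := by
      nlinarith [hu x, hu (x + Pi.single i 1)]
    have := mul_le_mul_of_nonneg_right uu (sq_nonneg (g (x + Pi.single i 1) - g x))
    calc 1 / 4 * (g (x + Pi.single i 1) - g x) ^ 2 ≤ _ := this
      _ = _ := by ring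
  set Y := ∑ x, g x ^ 2 with hY
  have hY0 : 0 ≤ Y := sum_nonneg fun x _ => sq_nonneg _
  set D := ∑ i : Fin d, ∑ x, (g (x + Pi.single i 1) - g x) ^ 2 with hD
  have h3 : ∑ x, g x * ρ x ≤ F * ∑ x, |g x| := by
    rw [mul_sum]
    refine sum_le_sum fun x _ => ?_
    calc g x * ρ x ≤ |g x * ρ x| := le_abs_self _
      _ = |g x| * |ρ x| := abs_mul _ _
      _ ≤ |g x| * F := mul_le_mul_of_nonneg_left (hρ x) (abs_nonneg _)
      _ = _ := mul_comm _ _
  have h4 : (∑ x, |g x|) ^ 2 ≤ (L : ℝ) ^ d * Y := by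
    have := sq_sum_le_card_mul_sum_sq (s := (univ : Finset (T d L))) (f := fun x => |g x|)
    simp only [sq_abs] at this
    rw [card_univ, card_T] at this
    exact this
  set Z := ∑ x, |g x| with hZ
  have hZ0 : 0 ≤ Z := sum_nonneg fun x _ => abs_nonneg _
  have h5 : Y ≤ 2 * (d : ℝ) * (L : ℝ) ^ 2 * F * Z := by
    have h6 : D ≤ 4 * (F * Z) := by linarith
    calc Y ≤ (d : ℝ) / 2 * (L : ℝ) ^ 2 * D := hpoi
      _ ≤ (d : ℝ) / 2 * (L : ℝ) ^ 2 * (4 * (F * Z)) := by gcongr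
      _ = _ := by ring
  set c := 2 * (d : ℝ) * (L : ℝ) ^ 2 * F with hc
  have hc0 : 0 ≤ c := by positivity
  have h6 : Y ^ 2 ≤ c ^ 2 * (L : ℝ) ^ d * Y := by
    calc Y ^ 2 ≤ (c * Z) ^ 2 := pow_le_pow_left₀ hY0 h5 2
      _ = c ^ 2 * Z ^ 2 := by ring
      _ ≤ c ^ 2 * ((L : ℝ) ^ d * Y) := by gcongr
      _ = _ := by ring
  rcases eq_or_lt_of_le hY0 with h7 | h7
  · rw [← h7]; positivity
  · have h8 : Y * Y ≤ (c ^ 2 * (L : ℝ) ^ d) * Y := by rw [← sq]; exact h6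
    exact le_of_mul_le_mul_right h8 h7

theorem cheb {d L : ℕ} [NeZero L] (g : T d L → ℝ) {t : ℝ} (ht : 0 < t) :
    cnt g t * t ^ 2 ≤ ∑ x, g x ^ 2 := by
  classical
  rw [cnt_eq, ← nsmul_eq_mul]
  have h1 : (univ.filter fun x => t < g x).card • t ^ 2 ≤ ∑ x ∈ univ.filter fun x => t < g x, g x ^ 2 := by
    apply card_nsmul_le_sum
    intro x hx
    rw [mem_filter] at hx
    exact pow_le_pow_left₀ ht.le hx.2.le 2
  refine h1.trans ?_
  exact sum_le_sum_of_subset_of_nonneg (filter_subset _ _) fun x _ _ => sq_nonneg _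

/-- one De Giorgi step -/
theorem step (d : ℕ) (hd : 3 ≤ d) (C₁ : ℝ) (hC₁ : 1 ≤ C₁) (L : ℕ) [NeZero L]
    (hsob : ∀ (v : T d L → ℝ), (∀ x, 0 ≤ v x) →
      (∑ x, v x ^ (2 * (d : ℝ) / ((d : ℝ) - 2))) ^ (((d : ℝ) - 2) / (d : ℝ)) ≤
      C₁ * (∑ i : Fin d, ∑ x, (v (x + Pi.single i 1) - v x) ^ 2 + 1 / (L : ℝ) ^ 2 * ∑ x, v x ^ 2))
    (u g ρ : T d L → ℝ) (F : ℝ) (hu : ∀ x, 1 / 2 ≤ u x)
    (hg : ∀ x, LapW u g x = ρ x) (hρ : ∀ x, |ρ x| ≤ F) (t h : ℝ) (hth : t ≤ h)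
    (hcond : C₁ * cnt g t ^ (2 / (d : ℝ)) ≤ (L : ℝ) ^ 2 / 2) :
    (h - t) * cnt g h ≤ 8 * C₁ * F * cnt g t ^ (1 + 2 / (d : ℝ)) := by
  classical
  have hF : 0 ≤ F := (abs_nonneg _).trans (hρ 0)
  have hd3 : (3 : ℝ) ≤ d := by exact_mod_cast hd
  have hd2 : 0 < (d : ℝ) - 2 := by linarith
  have hd0 : 0 < (d : ℝ) := by linarith
  have hL : 0 < (L : ℝ) := by exact_mod_cast Nat.pos_of_ne_zero (NeZero.ne L)
  set v : T d L → ℝ := fun x => max (g x - t) 0 with hv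
  have hv0 : ∀ x, 0 ≤ v x := fun x => le_max_right _ _
  have hA0 := cnt_nonneg g t
  set A := cnt g t with hA
  set V1 := ∑ x, v x with hV1
  set V2 := ∑ x, v x ^ 2 with hV2
  set E := ∑ i : Fin d, ∑ x, (v (x + Pi.single i 1) - v x) ^ 2 with hE
  set P := ∑ x, v x ^ (2 * (d : ℝ) / ((d : ℝ) - 2)) with hP
  have hP0 : 0 ≤ P := sum_nonneg fun x _ => Real.rpow_nonneg (hv0 x) _
  have hV10 : 0 ≤ V1 := sum_nonneg fun x _ => hv0 x
  have hV20 : 0 ≤ V2 := sum_nonneg fun x _ => sq_nonneg _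
  set S := P ^ (((d : ℝ) - 2) / (d : ℝ)) with hS
  have hS0 : 0 ≤ S := Real.rpow_nonneg hP0 _
  -- energy
  have hEle : E ≤ 4 * F * V1 := by
    have h1 : ∑ x, v x * LapW u g x = ∑ x, v x * ρ x := sum_congr rfl fun x _ => by rw [hg]
    rw [Lin.bilin] at h1
    have h2 : 1 / 4 * E ≤ ∑ x, ∑ i : Fin d, u x * u (x + Pi.single i 1) *
        ((v x - v (x + Pi.single i 1)) * (g x - g (x + Pi.single i 1))) := by
      rw [hE, sum_comm, mul_sum]
      refine sum_le_sum fun x _ => ?_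
      rw [mul_sum]
      refine sum_le_sum fun i _ => ?_
      have uu : 1 / 4 ≤ u x * u (x + Pi.single i 1) := by
        nlinarith [hu x, hu (x + Pi.single i 1)]
      have hpp := pos_part_mul (g x) (g (x + Pi.single i 1)) t
      have hpp0 : 0 ≤ (v x - v (x + Pi.single i 1)) * (g x - g (x + Pi.single i 1)) :=
        (sq_nonneg _).trans hpp
      calc 1 / 4 * (v (x + Pi.single i 1) - v x) ^ 2
          = 1 / 4 * (v x - v (x + Pi.single i 1)) ^ 2 := by ring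
        _ ≤ 1 / 4 * ((v x - v (x + Pi.single i 1)) * (g x - g (x + Pi.single i 1))) := by
            apply mul_le_mul_of_nonneg_left hpp (by norm_num)
        _ ≤ _ := mul_le_mul_of_nonneg_right uu hpp0
    have h3 : ∑ x, v x * ρ x ≤ F * V1 := by
      rw [hV1, mul_sum]
      refine sum_le_sum fun x _ => ?_
      rw [mul_comm]
      exact mul_le_mul_of_nonneg_right ((le_abs_self _).trans (hρ x)) (hv0 x)
    linarith
  have hSle := hsob v hv0
  -- Hoelder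
  have hV2le : V2 ≤ S * A ^ (2 / (d : ℝ)) := by
    have hpq : ((d : ℝ) / ((d : ℝ) - 2)).HolderConjugate ((d : ℝ) / 2) := by
      rw [Real.holderConjugate_iff]
      constructor
      · rw [lt_div_iff₀ hd2]; linarith
      · rw [inv_div, inv_div]; field_simp; ring
    have hH := Real.inner_le_Lp_mul_Lq_of_nonneg univ hpq
      (f := fun x => v x ^ 2) (g := fun x => if t < g x then (1 : ℝ) else 0)
      (fun x _ => sq_nonneg _) (fun x _ => by positivity)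
    have e1 : ∑ x, v x ^ 2 * (if t < g x then (1 : ℝ) else 0) = V2 := by
      refine sum_congr rfl fun x _ => ?_
      by_cases hx : t < g x
      · rw [if_pos hx, mul_one]
      · rw [if_neg hx, mul_zero]
        have : v x = 0 := max_eq_right (by linarith [not_lt.1 hx])
        rw [this]; norm_num
    have e2 : ∑ x, (v x ^ 2) ^ ((d : ℝ) / ((d : ℝ) - 2)) = P := by
      refine sum_congr rfl fun x _ => ?_
      rw [← Real.rpow_natCast, ← Real.rpow_mul (hv0 x)]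
      congr 1
      push_cast
      ring
    have e3 : ∑ x : T d L, (if t < g x then (1 : ℝ) else 0) ^ ((d : ℝ) / 2) = A := by
      rw [hA, cnt_eq, card_filter]
      push_cast
      refine sum_congr rfl fun x _ => ?_
      by_cases hx : t < g x
      · rw [if_pos hx, Real.one_rpow]
      · rw [if_neg hx, Real.zero_rpow (by positivity)]
    rw [e1, e2, e3, one_div_div, one_div_div] at hH
    exact hH
  -- Cauchy-Schwarz
  have hV1le : V1 ^ 2 ≤ A * V2 := by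
    have e1 : V1 = ∑ x ∈ univ.filter (fun x => t < g x), v x := by
      rw [hV1, sum_filter]
      refine sum_congr rfl fun x _ => ?_
      by_cases hx : t < g x
      · rw [if_pos hx]
      · rw [if_neg hx]
        exact max_eq_right (by linarith [not_lt.1 hx])
    have h1 := sq_sum_le_card_mul_sum_sq (s := univ.filter (fun x => t < g x)) (f := v)
    rw [← e1, ← cnt_eq] at h1
    refine h1.trans ?_
    apply mul_le_mul_of_nonneg_left _ hA0
    exact sum_le_sum_of_subset_of_nonneg (filter_subset _ _) fun x _ _ => sq_nonneg _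
  -- combine
  have hS8 : S ≤ 8 * C₁ * F * V1 := by
    have h1 : C₁ * (1 / (L : ℝ) ^ 2 * V2) ≤ S / 2 := by
      calc C₁ * (1 / (L : ℝ) ^ 2 * V2) ≤ C₁ * (1 / (L : ℝ) ^ 2 * (S * A ^ (2 / (d : ℝ)))) := by
            gcongr
        _ = (C₁ * A ^ (2 / (d : ℝ))) * (S / (L : ℝ) ^ 2) := by ring
        _ ≤ ((L : ℝ) ^ 2 / 2) * (S / (L : ℝ) ^ 2) := by gcongr
        _ = S / 2 := by field_simp
    have h2 : C₁ * E ≤ C₁ * (4 * F * V1) := by gcongr
    have h3 : S ≤ C₁ * (E + 1 / (L : ℝ) ^ 2 * V2) := hSle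
    linarith
  have hfin : V1 ≤ 8 * C₁ * F * A ^ (1 + 2 / (d : ℝ)) := by
    rcases eq_or_lt_of_le hV10 with h7 | h7
    · rw [← h7]; positivity
    · rcases eq_or_lt_of_le hA0 with h8 | h8
      · rw [← h8, zero_mul] at hV1le
        nlinarith
      · have h9 : V1 * V1 ≤ (8 * C₁ * F * A ^ (1 + 2 / (d : ℝ))) * V1 := by
          calc V1 * V1 = V1 ^ 2 := (sq V1).symm
            _ ≤ A * V2 := hV1le
            _ ≤ A * (S * A ^ (2 / (d : ℝ))) := by gcongr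
            _ ≤ A * ((8 * C₁ * F * V1) * A ^ (2 / (d : ℝ))) := by gcongr
            _ = _ := by
              rw [Real.rpow_add h8, Real.rpow_one]; ring
        exact le_of_mul_le_mul_right h9 h7
  refine le_trans ?_ hfin
  rw [cnt_eq, mul_comm, ← nsmul_eq_mul]
  have h1 : (univ.filter fun x => h < g x).card • (h - t) ≤ ∑ x ∈ univ.filter fun x => h < g x, v x := by
    apply card_nsmul_le_sum
    intro x hx
    rw [mem_filter] at hx
    refine le_trans ?_ (le_max_left _ _)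
    linarith [hx.2]
  refine h1.trans ?_
  exact sum_le_sum_of_subset_of_nonneg (filter_subset _ _) fun x _ _ => hv0 x

/-- one-sided bound -/
theorem upper (d : ℕ) (hd : 3 ≤ d) (C₁ : ℝ) (hC₁ : 1 ≤ C₁) (L : ℕ) [NeZero L]
    (hsob : ∀ (v : T d L → ℝ), (∀ x, 0 ≤ v x) →
      (∑ x, v x ^ (2 * (d : ℝ) / ((d : ℝ) - 2))) ^ (((d : ℝ) - 2) / (d : ℝ)) ≤
      C₁ * (∑ i : Fin d, ∑ x, (v (x + Pi.single i 1) - v x) ^ 2 + 1 / (L : ℝ) ^ 2 * ∑ x, v x ^ 2))
    (u g ρ : T d L → ℝ) (F : ℝ) (hF : 0 < F) (hu : ∀ x, 1 / 2 ≤ u x)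
    (hg : ∀ x, LapW u g x = ρ x) (h0 : ∑ x, g x = 0) (hρ : ∀ x, |ρ x| ≤ F) (x : T d L) :
    g x ≤ (2 * (d : ℝ) * (2 * C₁) ^ ((d : ℝ) / 4) +
      16 * C₁ / (1 - (1 / 2 : ℝ) ^ (2 / (d : ℝ)))) * (L : ℝ) ^ 2 * F := by
  classical
  have hd3 : (3 : ℝ) ≤ d := by exact_mod_cast hd
  have hd0 : 0 < (d : ℝ) := by linarith
  have hL : 0 < (L : ℝ) := by exact_mod_cast Nat.pos_of_ne_zero (NeZero.ne L)
  have hN : 0 < (L : ℝ) ^ d := by positivity
  obtain ⟨q, hq⟩ : ∃ q : ℝ, q = (1 / 2 : ℝ) ^ (2 / (d : ℝ)) := ⟨_, rfl⟩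
  have hq0 : 0 < q := by rw [hq]; positivity
  have hq1 : q < 1 := by
    rw [hq]; exact Real.rpow_lt_one (by norm_num) (by norm_num) (by positivity)
  rw [← hq]
  obtain ⟨K, hK⟩ : ∃ K : ℝ, K = 8 * C₁ * F * (L : ℝ) ^ 2 := ⟨_, rfl⟩
  have hK0 : 0 < K := by rw [hK]; positivity
  obtain ⟨t₀, ht₀⟩ : ∃ t₀ : ℝ, t₀ = 2 * (d : ℝ) * (L : ℝ) ^ 2 * F * (2 * C₁) ^ ((d : ℝ) / 4) :=
    ⟨_, rfl⟩
  have ht₀0 : 0 < t₀ := by rw [ht₀]; positivity
  -- N^(2/d) = L^2
  have hNpow : ((L : ℝ) ^ d) ^ (2 / (d : ℝ)) = (L : ℝ) ^ 2 := by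
    rw [← Real.rpow_natCast, ← Real.rpow_mul hL.le, ← Real.rpow_natCast]
    congr 1
    push_cast
    field_simp
  have hcntpow : ∀ t, cnt g t ^ (2 / (d : ℝ)) = (cnt g t / (L : ℝ) ^ d) ^ (2 / (d : ℝ)) * (L : ℝ) ^ 2 := by
    intro t
    rw [← hNpow, ← Real.mul_rpow (div_nonneg (cnt_nonneg g t) hN.le) hN.le, div_mul_cancel₀ _ hN.ne']
  -- starting level
  have ha0 : cnt g t₀ / (L : ℝ) ^ d ≤ (2 * C₁) ^ (-((d : ℝ) / 2)) := by
    have h1 := (cheb g ht₀0).trans (l2 d L u g ρ F hu hg h0 hρ)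
    have h2 : t₀ ^ 2 = (2 * (d : ℝ) * (L : ℝ) ^ 2 * F) ^ 2 * (2 * C₁) ^ ((d : ℝ) / 2) := by
      rw [ht₀, mul_pow]
      congr 1
      rw [← Real.rpow_natCast, ← Real.rpow_mul (by positivity)]
      congr 1
      push_cast
      ring
    have hcpos : 0 < (2 * (d : ℝ) * (L : ℝ) ^ 2 * F) ^ 2 := by positivity
    have hRpos : 0 < (2 * C₁) ^ ((d : ℝ) / 2) := by positivity
    rw [h2] at h1
    rw [div_le_iff₀ hN, Real.rpow_neg (by positivity), inv_mul_eq_div, le_div_iff₀ hRpos]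
    have h3 : (2 * (d : ℝ) * (L : ℝ) ^ 2 * F) ^ 2 * (cnt g t₀ * (2 * C₁) ^ ((d : ℝ) / 2)) ≤
        (2 * (d : ℝ) * (L : ℝ) ^ 2 * F) ^ 2 * (L : ℝ) ^ d := by
      calc _ = cnt g t₀ * ((2 * (d : ℝ) * (L : ℝ) ^ 2 * F) ^ 2 * (2 * C₁) ^ ((d : ℝ) / 2)) := by ring
        _ ≤ _ := h1
    exact le_of_mul_le_mul_left h3 hcpos
  have hcond : ∀ t, t₀ ≤ t → C₁ * cnt g t ^ (2 / (d : ℝ)) ≤ (L : ℝ) ^ 2 / 2 := by
    intro t ht
    rw [hcntpow]
    have h1 : cnt g t / (L : ℝ) ^ d ≤ (2 * C₁) ^ (-((d : ℝ) / 2)) :=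
      (div_le_div_of_nonneg_right (cnt_anti g ht) hN.le).trans ha0
    have h2 : (cnt g t / (L : ℝ) ^ d) ^ (2 / (d : ℝ)) ≤ (2 * C₁)⁻¹ := by
      calc (cnt g t / (L : ℝ) ^ d) ^ (2 / (d : ℝ)) ≤ ((2 * C₁) ^ (-((d : ℝ) / 2))) ^ (2 / (d : ℝ)) :=
            Real.rpow_le_rpow (div_nonneg (cnt_nonneg g t) hN.le) h1 (by positivity)
        _ = (2 * C₁)⁻¹ := by
            rw [← Real.rpow_mul (by positivity), ← Real.rpow_neg_one]
            congr 1
            field_simp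
    calc C₁ * ((cnt g t / (L : ℝ) ^ d) ^ (2 / (d : ℝ)) * (L : ℝ) ^ 2)
        ≤ C₁ * ((2 * C₁)⁻¹ * (L : ℝ) ^ 2) := by gcongr
      _ = (L : ℝ) ^ 2 / 2 := by field_simp
  -- levels
  let τ : ℕ → ℝ := fun j => t₀ + 2 * K * ∑ i ∈ range j, q ^ i
  have hτ0 : ∀ j, t₀ ≤ τ j := by
    intro j
    have : 0 ≤ 2 * K * ∑ i ∈ range j, q ^ i := by positivity
    simp only [τ]
    linarith
  have hτs : ∀ j, τ (j + 1) - τ j = 2 * K * q ^ j := by
    intro j
    simp only [τ, sum_range_succ]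
    ring
  have hdec : ∀ j : ℕ, cnt g (τ j) / (L : ℝ) ^ d ≤ (1 / 2 : ℝ) ^ j := by
    intro j
    induction j with
    | zero =>
      have h1 : cnt g (τ 0) / (L : ℝ) ^ d ≤ (2 * C₁) ^ (-((d : ℝ) / 2)) :=
        (div_le_div_of_nonneg_right (cnt_anti g (hτ0 0)) hN.le).trans ha0
      refine h1.trans ?_
      rw [pow_zero]
      exact Real.rpow_le_one_of_one_le_of_nonpos (by linarith) (by
        have : 0 < (d : ℝ) / 2 := by positivity
        linarith)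
    | succ j ih =>
      have hst := step d hd C₁ hC₁ L hsob u g ρ F hu hg hρ (τ j) (τ (j + 1)) (by
        have h1 := hτs j
        have : 0 ≤ 2 * K * q ^ j := by positivity
        linarith) (hcond _ (hτ0 j))
      rw [hτs] at hst
      set a := cnt g (τ j) / (L : ℝ) ^ d with ha
      have ha00 : 0 ≤ a := div_nonneg (cnt_nonneg _ _) hN.le
      have hcnt : cnt g (τ j) = a * (L : ℝ) ^ d := by rw [ha, div_mul_cancel₀ _ hN.ne']
      -- a^(2/d) ≤ q^j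
      have hapow : a ^ (2 / (d : ℝ)) ≤ q ^ j := by
        calc a ^ (2 / (d : ℝ)) ≤ ((1 / 2 : ℝ) ^ j) ^ (2 / (d : ℝ)) :=
              Real.rpow_le_rpow ha00 ih (by positivity)
          _ = q ^ j := by
            rw [hq, ← Real.rpow_natCast, ← Real.rpow_natCast, ← Real.rpow_mul (by norm_num),
              ← Real.rpow_mul (by norm_num)]
            congr 1
            ring
      have h5 : cnt g (τ j) ^ (1 + 2 / (d : ℝ)) = a * a ^ (2 / (d : ℝ)) * ((L : ℝ) ^ 2 * (L : ℝ) ^ d) := by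
        rw [Real.rpow_add_of_nonneg (cnt_nonneg _ _) (by norm_num) (by positivity), Real.rpow_one,
          hcntpow, ← ha, hcnt]
        ring
      rw [h5] at hst
      have h6 : 2 * K * q ^ j * cnt g (τ (j + 1)) ≤ K * q ^ j * ((1 / 2 : ℝ) ^ j * (L : ℝ) ^ d) := by
        calc 2 * K * q ^ j * cnt g (τ (j + 1))
            ≤ 8 * C₁ * F * (a * a ^ (2 / (d : ℝ)) * ((L : ℝ) ^ 2 * (L : ℝ) ^ d)) := hst
          _ = K * a ^ (2 / (d : ℝ)) * (a * (L : ℝ) ^ d) := by rw [hK]; ring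
          _ ≤ K * q ^ j * ((1 / 2 : ℝ) ^ j * (L : ℝ) ^ d) := by
            have hpp : 0 ≤ a ^ (2 / (d : ℝ)) := Real.rpow_nonneg ha00 _
            gcongr
      have hKq : 0 < K * q ^ j := by positivity
      have h7 : 2 * cnt g (τ (j + 1)) ≤ (1 / 2 : ℝ) ^ j * (L : ℝ) ^ d := by
        refine le_of_mul_le_mul_left ?_ hKq
        calc K * q ^ j * (2 * cnt g (τ (j + 1))) = 2 * K * q ^ j * cnt g (τ (j + 1)) := by ring
          _ ≤ _ := h6
      rw [div_le_iff₀ hN, pow_succ]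
      linarith
  -- the limit
  obtain ⟨t₁, ht₁⟩ : ∃ t₁ : ℝ, t₁ = t₀ + 2 * K / (1 - q) := ⟨_, rfl⟩
  have hτ1 : ∀ j, τ j ≤ t₁ := by
    intro j
    have h1 : ∑ i ∈ range j, q ^ i ≤ 1 / (1 - q) := by
      rw [geom_sum_eq hq1.ne, ← neg_div_neg_eq, neg_sub, neg_sub]
      have h2 : 0 < 1 - q := by linarith
      gcongr
      have : 0 ≤ q ^ j := by positivity
      linarith
    have h2 : 2 * K * ∑ i ∈ range j, q ^ i ≤ 2 * K * (1 / (1 - q)) := by gcongr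
    rw [ht₁]
    simp only [τ]
    have h3 : 2 * K * (1 / (1 - q)) = 2 * K / (1 - q) := by ring
    linarith
  have hzero : cnt g t₁ ≤ 0 := by
    by_contra hcon
    push Not at hcon
    obtain ⟨j, hj⟩ := exists_pow_lt_of_lt_one (show 0 < cnt g t₁ / (L : ℝ) ^ d by positivity)
      (show (1 / 2 : ℝ) < 1 by norm_num)
    have h1 := hdec j
    have h2 : cnt g t₁ / (L : ℝ) ^ d ≤ cnt g (τ j) / (L : ℝ) ^ d :=
      div_le_div_of_nonneg_right (cnt_anti g (hτ1 j)) hN.le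
    linarith
  have hx : g x ≤ t₁ := by
    by_contra hcon
    push Not at hcon
    rw [cnt_eq] at hzero
    have : 0 < (univ.filter fun x => t₁ < g x).card := card_pos.2 ⟨x, by simp [hcon]⟩
    have h2 : (0 : ℝ) < ((univ.filter fun x => t₁ < g x).card : ℝ) := by exact_mod_cast this
    linarith
  refine hx.trans (le_of_eq ?_)
  rw [ht₁, ht₀, hK]
  ring

theorem osc (d : ℕ) (hd : 3 ≤ d) : ∃ C : ℝ, 1 ≤ C ∧ ∀ (L : ℕ) [NeZero L] (u g ρ : T d L → ℝ)
    (F : ℝ), (∀ x, 1 / 2 ≤ u x) → (∀ x, LapW u g x = ρ x) → ∑ x, g x = 0 →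
    (∀ x, |ρ x| ≤ F) → ∀ x, |g x| ≤ C * (L : ℝ) ^ 2 * F := by
  obtain ⟨C₁, hC₁, hsob⟩ := Sobt.sobt d hd
  have hd3 : (3 : ℝ) ≤ d := by exact_mod_cast hd
  have hd0 : 0 < (d : ℝ) := by linarith
  have hq0 : (0 : ℝ) < (1 / 2 : ℝ) ^ (2 / (d : ℝ)) := by positivity
  have hq1 : (1 / 2 : ℝ) ^ (2 / (d : ℝ)) < 1 :=
    Real.rpow_lt_one (by norm_num) (by norm_num) (by positivity)
  refine ⟨2 * (d : ℝ) * (2 * C₁) ^ ((d : ℝ) / 4) +
      16 * C₁ / (1 - (1 / 2 : ℝ) ^ (2 / (d : ℝ))), ?_, ?_⟩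
  · have h1 : 1 ≤ 16 * C₁ / (1 - (1 / 2 : ℝ) ^ (2 / (d : ℝ))) := by
      rw [le_div_iff₀ (by linarith)]
      linarith
    have h2 : 0 ≤ 2 * (d : ℝ) * (2 * C₁) ^ ((d : ℝ) / 4) := by positivity
    linarith
  intro L _ u g ρ F hu hg h0 hρ x
  have hF : 0 ≤ F := (abs_nonneg _).trans (hρ 0)
  rcases eq_or_lt_of_le hF with hF0 | hF0
  · have h1 := l2 d L u g ρ F hu hg h0 hρ
    rw [← hF0, mul_zero, zero_pow two_ne_zero, zero_mul] at h1
    have h2 : g x ^ 2 ≤ ∑ x, g x ^ 2 :=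
      single_le_sum (f := fun x => g x ^ 2) (fun y _ => sq_nonneg _) (mem_univ x)
    have h3 : g x ^ 2 ≤ 0 := h2.trans h1
    have h4 : g x = 0 := by nlinarith [sq_nonneg (g x)]
    rw [h4, ← hF0, abs_zero, mul_zero]
  · rw [abs_le]
    constructor
    · have h1 := upper d hd C₁ hC₁ L (hsob L) u (fun y => -1 * g y) (fun y => -1 * ρ y) F hF0 hu
        (fun y => by rw [Lin.lapW_smul, hg]) (by rw [← mul_sum, h0, mul_zero])
        (fun y => by rw [abs_mul, abs_neg, abs_one, one_mul]; exact hρ y) x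
      linarith
    · exact upper d hd C₁ hC₁ L (hsob L) u g ρ F hF0 hu hg h0 hρ x

end Osc

end Pool.Agent.H4R2.AE
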