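import Pool.Agent.H4R2.AE.Defs
import Pool.Agent.H4R2.AE.Lin
import Pool.Agent.H4R2.AE.Gs
import Pool.Agent.H4R2.AE.Osc

/-! # GST : the exact ground state is flat, version with mass `1 / (4 L²)` (helper748)

Adapted from `Gs.lean` (helper430): the sup bound `Osc.osc` for the mean-zero Poisson problem
replaces the Cauchy-Schwarz argument. -/

set_option autoImplicit false

open scoped BigOperators

namespace Pool.Agent.H4R2.AE.Gst

section
variable {d L : ℕ} [NeZero L]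

/-- flatness of the quotient `g`. -/
theorem flat_quot (C0 : ℝ) (hC0 : 1 ≤ C0)
    (hosc : ∀ (u g ρ : T d L → ℝ) (F : ℝ), (∀ x, 1 / 2 ≤ u x) → (∀ x, LapW u g x = ρ x) →
      ∑ x, g x = 0 → (∀ x, |ρ x| ≤ F) → ∀ x, |g x| ≤ C0 * (L : ℝ) ^ 2 * F)
    (δ F : ℝ) (hδ : 0 < δ) (hδ' : δ ≤ 1 / 16) (w u g : T d L → ℝ) (hw : ∀ x, |w x| ≤ δ)
    (hu : ∀ x, u x = Real.exp (w x)) (hg0 : ∀ x, 0 ≤ g x) (hgp : ∃ x, 0 < g x)
    (he : ∀ x, LapW u g x = (F + 1 / (4 * (L : ℝ) ^ 2) * w x) * (u x ^ 2 * g x)) :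
    ∃ M : ℝ, 0 < M ∧ ∀ x, g x ≤ M ∧ M * (1 - 8 / 7 * (C0 * δ)) ≤ g x := by
  have hL : (0 : ℝ) < L := by
    have := NeZero.pos L
    exact_mod_cast this
  have hN : (0 : ℝ) < (L : ℝ) ^ d := by positivity
  have hcard : (Fintype.card (T d L) : ℝ) = (L : ℝ) ^ d := by
    rw [Fintype.card_fun, ZMod.card, Fintype.card_fin]
    push_cast
    rfl
  set κ := 1 / (4 * (L : ℝ) ^ 2) with hκd
  have hκ : 0 < κ := by
    rw [hκd]; positivity
  have hκL : (L : ℝ) ^ 2 * κ = 1 / 4 := by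
    rw [hκd]
    field_simp
  have hupos : ∀ x, 0 < u x := fun x => by rw [hu]; exact Real.exp_pos _
  have hu2 : ∀ x, u x ^ 2 ≤ Real.exp (2 * δ) := by
    intro x
    rw [hu, ← Real.exp_nat_mul]
    apply Real.exp_le_exp.2
    have := (abs_le.1 (hw x)).2
    push_cast
    linarith
  have hulow : ∀ x, 1 / 2 ≤ u x := by
    intro x
    rw [hu]
    have h1 := Real.add_one_le_exp (w x)
    have := (abs_le.1 (hw x)).1
    linarith
  -- bound on F
  have hsum : ∑ x, (F + κ * w x) * (u x ^ 2 * g x) = 0 := by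
    rw [← Lin.sum_lapW u g]
    exact Finset.sum_congr rfl fun x _ => (he x).symm
  have hSpos : 0 < ∑ x, u x ^ 2 * g x := by
    obtain ⟨x0, hx0⟩ := hgp
    apply Finset.sum_pos' (fun x _ => mul_nonneg (sq_nonneg _) (hg0 x))
    exact ⟨x0, Finset.mem_univ _, mul_pos (pow_pos (hupos x0) 2) hx0⟩
  have hF : |F| ≤ κ * δ := by
    have h1 : F * ∑ x, u x ^ 2 * g x = -∑ x, κ * w x * (u x ^ 2 * g x) := by
      have : ∑ x, (F + κ * w x) * (u x ^ 2 * g x) =
          F * ∑ x, u x ^ 2 * g x + ∑ x, κ * w x * (u x ^ 2 * g x) := by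
        rw [Finset.mul_sum, ← Finset.sum_add_distrib]
        exact Finset.sum_congr rfl fun x _ => by ring
      linarith
    have h2 : |F| * ∑ x, u x ^ 2 * g x ≤ (κ * δ) * ∑ x, u x ^ 2 * g x := by
      have h3 : |F| * ∑ x, u x ^ 2 * g x = |F * ∑ x, u x ^ 2 * g x| := by
        rw [abs_mul, abs_of_pos hSpos]
      rw [h3, h1, abs_neg]
      refine (Finset.abs_sum_le_sum_abs _ _).trans ?_
      rw [Finset.mul_sum]
      apply Finset.sum_le_sum
      intro x _
      rw [abs_mul, abs_mul, abs_of_pos hκ, abs_of_nonneg (mul_nonneg (sq_nonneg _) (hg0 x))]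
      apply mul_le_mul_of_nonneg_right _ (mul_nonneg (sq_nonneg _) (hg0 x))
      exact mul_le_mul_of_nonneg_left (hw x) hκ.le
    exact le_of_mul_le_mul_right h2 hSpos
  obtain ⟨xM, hxM⟩ := Finite.exists_max g
  set M := g xM with hM
  have hMpos : 0 < M := by
    obtain ⟨x0, hx0⟩ := hgp
    exact lt_of_lt_of_le hx0 (hxM x0)
  set gb := (∑ x, g x) / (L : ℝ) ^ d with hgb
  set h : T d L → ℝ := fun x => g x - gb with hh
  have hhsum : ∑ x, h x = 0 := by
    simp only [hh, Finset.sum_sub_distrib, Finset.sum_const, Finset.card_univ, nsmul_eq_mul,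
      hcard, hgb]
    field_simp
    ring
  set ρ : T d L → ℝ := fun x => (F + κ * w x) * (u x ^ 2 * g x) with hρ
  have hρb : ∀ x, |ρ x| ≤ 2 * κ * δ * Real.exp (2 * δ) * M := by
    intro x
    simp only [hρ]
    rw [abs_mul, abs_of_nonneg (mul_nonneg (sq_nonneg _) (hg0 x))]
    have h1 : |F + κ * w x| ≤ 2 * (κ * δ) := by
      refine (abs_add_le _ _).trans ?_
      rw [abs_mul, abs_of_pos hκ]
      have := mul_le_mul_of_nonneg_left (hw x) hκ.le
      linarith
    have h2 : u x ^ 2 * g x ≤ Real.exp (2 * δ) * M :=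
      mul_le_mul (hu2 x) (hxM x) (hg0 x) (Real.exp_pos _).le
    calc |F + κ * w x| * (u x ^ 2 * g x) ≤ (2 * (κ * δ)) * (Real.exp (2 * δ) * M) :=
          mul_le_mul h1 h2 (mul_nonneg (sq_nonneg _) (hg0 x)) (by positivity)
      _ = _ := by ring
  have hLh : ∀ x, LapW u h x = ρ x := by
    intro x
    have e : h = fun y => g y + -gb := by
      funext y; simp only [hh]; ring
    rw [e, Lin.lapW_add u g (fun _ => -gb) x, Lin.lapW_const, add_zero, he]
  -- the key estimate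
  have hexp := Gs.exp_bd δ
  have hHb : ∀ x, |h x| ≤ 4 / 7 * (C0 * δ) * M := by
    intro x
    have key := hosc u h ρ _ hulow hLh hhsum hρb x
    have h1 : C0 * (L : ℝ) ^ 2 * (2 * κ * δ * Real.exp (2 * δ) * M) =
        ((L : ℝ) ^ 2 * κ) * (2 * C0 * δ * Real.exp (2 * δ) * M) := by ring
    rw [h1, hκL] at key
    have h3 : Real.exp (2 * δ) ≤ 8 / 7 := by
      have h4 : (7 : ℝ) / 8 ≤ 1 - 2 * δ := by linarith
      have h5 := Real.exp_pos (2 * δ)
      nlinarith
    have h6 : 0 ≤ C0 * δ * M := by positivity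
    calc |h x| ≤ 1 / 4 * (2 * C0 * δ * Real.exp (2 * δ) * M) := key
      _ = 1 / 2 * (C0 * δ * M) * Real.exp (2 * δ) := by ring
      _ ≤ 1 / 2 * (C0 * δ * M) * (8 / 7) := mul_le_mul_of_nonneg_left h3 (by positivity)
      _ = _ := by ring
  refine ⟨M, hMpos, fun x => ⟨hxM x, ?_⟩⟩
  have h1 := (abs_le.1 (hHb x)).1
  have h2 := (abs_le.1 (hHb xM)).2
  simp only [hh] at h1 h2
  rw [← hM] at h2
  have e : M * (1 - 8 / 7 * (C0 * δ)) = M - 2 * (4 / 7 * (C0 * δ) * M) := by ring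
  rw [e]
  linarith

end

theorem flat (d : ℕ) (hd : 3 ≤ d) : ∃ C : ℝ, 1 ≤ C ∧ ∀ (L : ℕ) [NeZero L] (lam δ E : ℝ),
    0 < δ → C * δ ≤ 1 → ∀ (V w : T d L → ℝ), (∀ x, |w x| ≤ δ) →
    (∀ x, ∑ i : Fin d, ((1 - Real.exp (w (x + Pi.single i 1) - w x)) +
      (1 - Real.exp (w (x - Pi.single i 1) - w x))) + lam * V x - E +
        1 / (4 * (L : ℝ) ^ 2) * w x = 0) →
    Flat lam (C * δ) V := by
  obtain ⟨C0, hC0, hosc⟩ := Osc.osc d hd
  refine ⟨16 * C0, by linarith, ?_⟩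
  intro L _ lam δ E hδ hCδ V w hw h
  have ha : C0 * δ ≤ 1 / 16 := by linarith
  have hδa : δ ≤ C0 * δ := by nlinarith
  have hδ' : δ ≤ 1 / 16 := hδa.trans ha
  set κ := 1 / (4 * (L : ℝ) ^ 2) with hκ
  set u : T d L → ℝ := fun x => Real.exp (w x) with hu
  have hupos : ∀ x, 0 < u x := fun x => Real.exp_pos _
  have hHu : ∀ x, Hop lam V u x = (E - κ * w x) * u x := by
    intro x
    have h1 := h x
    unfold Hop
    have h2 : ∑ i : Fin d, (2 * u x - u (x + Pi.single i 1) - u (x - Pi.single i 1)) =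
        u x * ∑ i : Fin d, ((1 - Real.exp (w (x + Pi.single i 1) - w x)) +
          (1 - Real.exp (w (x - Pi.single i 1) - w x))) := by
      rw [Finset.mul_sum]
      apply Finset.sum_congr rfl
      intro i _
      simp only [hu]
      rw [Real.exp_sub, Real.exp_sub]
      have := (Real.exp_pos (w x)).ne'
      field_simp
      ring
    rw [h2]
    linear_combination (u x) * h1
  obtain ⟨E0, ψ, hψ0, hψp, hψe⟩ := Gs.exists_gs lam V
  set g : T d L → ℝ := fun x => ψ x / u x with hg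
  have hψg : ∀ x, ψ x = u x * g x := fun x => by
    have := (hupos x).ne'
    simp only [hg]; field_simp
  have hψfe : ψ = fun y => u y * g y := funext hψg
  have hg0 : ∀ x, 0 ≤ g x := fun x => div_nonneg (hψ0 x) (hupos x).le
  have hgp : ∃ x, 0 < g x := by
    obtain ⟨x, hx⟩ := hψp
    exact ⟨x, div_pos hx (hupos x)⟩
  have he : ∀ x, LapW u g x = ((E0 - E) + κ * w x) * (u x ^ 2 * g x) := by
    intro x
    rw [Gs.lapW_hop lam V u g x, ← hψfe, hψe, hHu, hψg x]
    ring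
  obtain ⟨M, hM, hMg⟩ := flat_quot C0 hC0 (fun u g ρ F => hosc L u g ρ F) δ (E0 - E) hδ hδ' w u g
    hw (fun x => rfl) hg0 hgp he
  have hφ : ∀ x, 0 < g x := fun x => by
    have := (hMg x).2
    have h3 : 0 < M * (1 - 8 / 7 * (C0 * δ)) := mul_pos hM (by linarith)
    linarith
  have hψpos : ∀ x, 0 < ψ x := fun x => by
    rw [hψg]; exact mul_pos (hupos x) (hφ x)
  obtain ⟨xm, hxm⟩ := Finite.exists_min ψ
  set m := ψ xm with hm
  have hmpos : 0 < m := hψpos xm
  -- ratio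
  have hratio : ∀ x, ψ x ≤ (1 + 16 * C0 * δ) * m := by
    intro x
    have a1 : ψ x ≤ Real.exp δ * M := by
      rw [hψg]
      exact mul_le_mul (Real.exp_le_exp.2 (abs_le.1 (hw x)).2) (hMg x).1 (hg0 x)
        (Real.exp_pos _).le
    have a2 : Real.exp (-δ) * (M * (1 - 8 / 7 * (C0 * δ))) ≤ m := by
      rw [hm, hψg]
      exact mul_le_mul (Real.exp_le_exp.2 (abs_le.1 (hw xm)).1) (hMg xm).2
        (mul_nonneg hM.le (by linarith)) (hupos xm).le
    have a3 := Gs.exp_bd δ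
    have e1 : Real.exp δ * Real.exp δ = Real.exp (2 * δ) := by
      rw [← Real.exp_add]; ring_nf
    have e2 : Real.exp δ * Real.exp (-δ) = 1 := by
      rw [← Real.exp_add]; simp
    have hex := Real.exp_pos δ
    have a4 : M * (1 - 8 / 7 * (C0 * δ)) ≤ Real.exp δ * m := by
      calc M * (1 - 8 / 7 * (C0 * δ)) = Real.exp δ * (Real.exp (-δ) * (M * (1 - 8 / 7 * (C0 * δ)))) := by
            rw [← mul_assoc (Real.exp δ), e2, one_mul]
        _ ≤ _ := mul_le_mul_of_nonneg_left a2 hex.le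
    have a5 : Real.exp δ * M * (1 - 8 / 7 * (C0 * δ)) ≤ Real.exp (2 * δ) * m := by
      calc Real.exp δ * M * (1 - 8 / 7 * (C0 * δ)) = Real.exp δ * (M * (1 - 8 / 7 * (C0 * δ))) := by
            ring
        _ ≤ Real.exp δ * (Real.exp δ * m) := mul_le_mul_of_nonneg_left a4 hex.le
        _ = _ := by rw [← mul_assoc (Real.exp δ), e1]
    have a6 : Real.exp δ * M * ((1 - 8 / 7 * (C0 * δ)) * (1 - 2 * δ)) ≤ m := by
      calc Real.exp δ * M * ((1 - 8 / 7 * (C0 * δ)) * (1 - 2 * δ)) =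
            (Real.exp δ * M * (1 - 8 / 7 * (C0 * δ))) * (1 - 2 * δ) := by ring
        _ ≤ (Real.exp (2 * δ) * m) * (1 - 2 * δ) :=
            mul_le_mul_of_nonneg_right a5 (by linarith)
        _ = (Real.exp (2 * δ) * (1 - 2 * δ)) * m := by ring
        _ ≤ 1 * m := mul_le_mul_of_nonneg_right a3 hmpos.le
        _ = m := one_mul m
    have a7 : 1 ≤ (1 + 16 * C0 * δ) * ((1 - 8 / 7 * (C0 * δ)) * (1 - 2 * δ)) := by
      set a := C0 * δ with haa
      have ha0 : 0 < a := by rw [haa]; positivity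
      have b1 : (1 - 8 / 7 * a) * (1 - 2 * a) ≤ (1 - 8 / 7 * a) * (1 - 2 * δ) :=
        mul_le_mul_of_nonneg_left (by linarith) (by linarith)
      have b2 : 1 ≤ (1 + 16 * a) * ((1 - 8 / 7 * a) * (1 - 2 * a)) := by
        have e : (1 + 16 * a) * ((1 - 8 / 7 * a) * (1 - 2 * a)) =
            1 + a * (90 / 7 - 48 * a + 256 / 7 * a ^ 2) := by ring
        rw [e]
        have : 0 ≤ 90 / 7 - 48 * a + 256 / 7 * a ^ 2 := by nlinarith [sq_nonneg a]
        have := mul_nonneg ha0.le this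
        linarith
      have b3 : (1 : ℝ) + 16 * C0 * δ = 1 + 16 * a := by rw [haa]; ring
      rw [b3]
      exact b2.trans (mul_le_mul_of_nonneg_left b1 (by linarith))
    calc ψ x ≤ Real.exp δ * M := a1
      _ = Real.exp δ * M * 1 := by ring
      _ ≤ Real.exp δ * M * ((1 + 16 * C0 * δ) * ((1 - 8 / 7 * (C0 * δ)) * (1 - 2 * δ))) :=
          mul_le_mul_of_nonneg_left a7 (by positivity)
      _ = (1 + 16 * C0 * δ) * (Real.exp δ * M * ((1 - 8 / 7 * (C0 * δ)) * (1 - 2 * δ))) := by ring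
      _ ≤ _ := mul_le_mul_of_nonneg_left a6 (by positivity)
  set φ : T d L → ℝ := fun x => m⁻¹ * ψ x with hφd
  have hφ1 : ∀ x, 1 ≤ φ x := by
    intro x
    simp only [hφd]
    rw [inv_mul_eq_div, le_div_iff₀ hmpos, one_mul]
    exact hxm x
  have hφ2 : ∀ x, φ x ≤ 1 + 16 * C0 * δ := by
    intro x
    simp only [hφd]
    rw [inv_mul_eq_div, div_le_iff₀ hmpos]
    exact hratio x
  have hφe : ∀ x, Hop lam V φ x = E0 * φ x := by
    intro x
    simp only [hφd]
    rw [Gs.hop_smul, hψe]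
    ring
  refine ⟨E0, φ, fun x => ⟨hφ1 x, hφ2 x⟩, hφe, fun f hf => ?_⟩
  exact Gs.gap (by omega) lam E0 V φ hφ1 (fun x => (hφ2 x).trans (by linarith)) hφe f hf

end Pool.Agent.H4R2.AE.Gst
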