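import Pool.Agent.H4R2.AE.Defs
import Pool.Agent.H4R2.AE.Lin
import Pool.Agent.H4R2.AE.Sobt

/-! # WEAK : weak-type bound for Green functions on the torus (helper748)

Truncate the Green function at height `t` and apply the `L²` Sobolev inequality. -/

set_option autoImplicit false

open scoped BigOperators

namespace Pool.Agent.H4R2.AE.Weak

/-- truncation is a normal contraction -/
theorem trunc (a b t : ℝ) :
    (min b t - min a t) ^ 2 ≤ (min a t - min b t) * (a - b) := by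
  rcases le_total a b with hab | hab
  · have h1 : min a t ≤ min b t := min_le_min_right _ hab
    have h2 : min b t - min a t ≤ b - a := by
      rcases le_total b t with h | h
      · rw [min_eq_left h, min_eq_left (hab.trans h)]
      · rw [min_eq_right h]
        rcases le_total a t with h' | h'
        · rw [min_eq_left h']; linarith
        · rw [min_eq_right h']; linarith
    nlinarith
  · have h1 : min b t ≤ min a t := min_le_min_right _ hab
    have h2 : min a t - min b t ≤ a - b := by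
      rcases le_total a t with h | h
      · rw [min_eq_left h, min_eq_left (hab.trans h)]
      · rw [min_eq_right h]
        rcases le_total b t with h' | h'
        · rw [min_eq_left h']; linarith
        · rw [min_eq_right h']; linarith
    nlinarith

theorem weak (d : ℕ) (hd : 3 ≤ d) : ∃ A : ℝ, 1 ≤ A ∧ ∀ (L : ℕ) [NeZero L] (u k h : T d L → ℝ)
    (z : T d L), (∀ x, 1 / 2 ≤ u x) → (∀ x, 1 / (8 * (L : ℝ) ^ 2) ≤ k x) → (∀ x, 0 ≤ h x) →
    (∀ x, LapW u h x + k x * h x = if x = z then 1 else 0) → ∀ t : ℝ, 0 < t →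
    ((Finset.univ.filter fun x => t ≤ h x).card : ℝ) * t ^ ((d : ℝ) / ((d : ℝ) - 2)) ≤ A := by
  obtain ⟨C, hC1, hC⟩ := Sobt.sobt d hd
  have hd3 : (3 : ℝ) ≤ (d : ℝ) := by exact_mod_cast hd
  have hd2 : (0 : ℝ) < (d : ℝ) - 2 := by linarith
  have hd0 : (0 : ℝ) < (d : ℝ) := by linarith
  have hq0 : 0 < (d : ℝ) / ((d : ℝ) - 2) := div_pos hd0 hd2
  refine ⟨(8 * C) ^ ((d : ℝ) / ((d : ℝ) - 2)),
    Real.one_le_rpow (by linarith) hq0.le, ?_⟩
  intro L _ u k h z hu hk hh he t ht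
  have hL : (0 : ℝ) < L := by
    have := NeZero.pos L
    exact_mod_cast this
  set v : T d L → ℝ := fun x => min (h x) t with hv
  have hv0 : ∀ x, 0 ≤ v x := fun x => le_min (hh x) ht.le
  have hvh : ∀ x, v x ≤ h x := fun x => min_le_left _ _
  have hvt : ∀ x, v x ≤ t := fun x => min_le_right _ _
  set E := ∑ i : Fin d, ∑ x, (v (x + Pi.single i 1) - v x) ^ 2 with hE
  have hE0 : 0 ≤ E := Finset.sum_nonneg fun _ _ => Finset.sum_nonneg fun _ _ => sq_nonneg _
  have h1 : ∑ x, v x * LapW u h x + ∑ x, v x * (k x * h x) ≤ t := by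
    rw [← Finset.sum_add_distrib]
    have e1 : ∑ x, (v x * LapW u h x + v x * (k x * h x)) = v z := by
      have : ∀ x, v x * LapW u h x + v x * (k x * h x) = v x * (if x = z then 1 else 0) := by
        intro x
        rw [← he x]; ring
      simp only [this]
      simp
    rw [e1]
    exact hvt z
  have h2 : 1 / 4 * E ≤ ∑ x, v x * LapW u h x := by
    rw [Lin.bilin, hE, Finset.sum_comm, Finset.mul_sum]
    refine Finset.sum_le_sum fun x _ => ?_
    rw [Finset.mul_sum]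
    refine Finset.sum_le_sum fun i _ => ?_
    have a1 : 1 / 4 ≤ u x * u (x + Pi.single i 1) := by
      have := hu x
      have := hu (x + Pi.single i 1)
      nlinarith
    have a2 : (v (x + Pi.single i 1) - v x) ^ 2 ≤
        (v x - v (x + Pi.single i 1)) * (h x - h (x + Pi.single i 1)) := trunc _ _ _
    calc 1 / 4 * (v (x + Pi.single i 1) - v x) ^ 2 ≤
          (u x * u (x + Pi.single i 1)) * (v (x + Pi.single i 1) - v x) ^ 2 :=
          mul_le_mul_of_nonneg_right a1 (sq_nonneg _)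
      _ ≤ _ := mul_le_mul_of_nonneg_left a2 (by linarith)
  have h3 : 1 / (8 * (L : ℝ) ^ 2) * ∑ x, v x ^ 2 ≤ ∑ x, v x * (k x * h x) := by
    rw [Finset.mul_sum]
    refine Finset.sum_le_sum fun x _ => ?_
    have hk0 : 0 ≤ 1 / (8 * (L : ℝ) ^ 2) := by positivity
    calc 1 / (8 * (L : ℝ) ^ 2) * v x ^ 2 = v x * (1 / (8 * (L : ℝ) ^ 2) * v x) := by ring
      _ ≤ v x * (k x * h x) := mul_le_mul_of_nonneg_left
          (mul_le_mul (hk x) (hvh x) (hv0 x) (hk0.trans (hk x))) (hv0 x)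
  have h4 : E + 1 / (L : ℝ) ^ 2 * ∑ x, v x ^ 2 ≤ 8 * t := by
    have e : 1 / (8 * (L : ℝ) ^ 2) * ∑ x, v x ^ 2 = 1 / 8 * (1 / (L : ℝ) ^ 2 * ∑ x, v x ^ 2) := by
      field_simp
    rw [e] at h3
    linarith
  have h5 := hC L v hv0
  have h6 : ((Finset.univ.filter fun x => t ≤ h x).card : ℝ) * t ^ (2 * (d : ℝ) / ((d : ℝ) - 2)) ≤
      ∑ x, v x ^ (2 * (d : ℝ) / ((d : ℝ) - 2)) := by
    have e1 : ∑ x ∈ Finset.univ.filter (fun x => t ≤ h x), v x ^ (2 * (d : ℝ) / ((d : ℝ) - 2)) ≤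
        ∑ x, v x ^ (2 * (d : ℝ) / ((d : ℝ) - 2)) :=
      Finset.sum_le_sum_of_subset_of_nonneg (Finset.filter_subset _ _)
        fun x _ _ => Real.rpow_nonneg (hv0 x) _
    refine le_trans (le_of_eq ?_) e1
    have e2 : ∀ x ∈ Finset.univ.filter (fun x => t ≤ h x),
        v x ^ (2 * (d : ℝ) / ((d : ℝ) - 2)) = t ^ (2 * (d : ℝ) / ((d : ℝ) - 2)) := by
      intro x hx
      rw [Finset.mem_filter] at hx
      have : v x = t := min_eq_right hx.2
      rw [this]
    rw [Finset.sum_congr rfl e2, Finset.sum_const, nsmul_eq_mul]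
  set N : ℝ := ((Finset.univ.filter fun x => t ≤ h x).card : ℝ) with hN
  have hN0 : 0 ≤ N := Nat.cast_nonneg _
  have hr0 : 0 < ((d : ℝ) - 2) / (d : ℝ) := div_pos hd2 hd0
  have h7 : N ^ (((d : ℝ) - 2) / (d : ℝ)) * t ^ (2 : ℕ) ≤ C * (8 * t) := by
    calc N ^ (((d : ℝ) - 2) / (d : ℝ)) * t ^ (2 : ℕ) =
          (N * t ^ (2 * (d : ℝ) / ((d : ℝ) - 2))) ^ (((d : ℝ) - 2) / (d : ℝ)) := by
          rw [Real.mul_rpow hN0 (Real.rpow_nonneg ht.le _), ← Real.rpow_mul ht.le]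
          have : 2 * (d : ℝ) / ((d : ℝ) - 2) * (((d : ℝ) - 2) / (d : ℝ)) = ((2 : ℕ) : ℝ) := by
            push_cast
            field_simp
          rw [this, Real.rpow_natCast]
      _ ≤ (∑ x, v x ^ (2 * (d : ℝ) / ((d : ℝ) - 2))) ^ (((d : ℝ) - 2) / (d : ℝ)) :=
          Real.rpow_le_rpow (mul_nonneg hN0 (Real.rpow_nonneg ht.le _)) h6 hr0.le
      _ ≤ C * (E + 1 / (L : ℝ) ^ 2 * ∑ x, v x ^ 2) := h5
      _ ≤ C * (8 * t) := mul_le_mul_of_nonneg_left h4 (by linarith)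
  have h8 : N ^ (((d : ℝ) - 2) / (d : ℝ)) * t ≤ 8 * C := by
    have : (N ^ (((d : ℝ) - 2) / (d : ℝ)) * t) * t ≤ (8 * C) * t := by nlinarith
    exact le_of_mul_le_mul_right this ht
  calc N * t ^ ((d : ℝ) / ((d : ℝ) - 2)) =
        (N ^ (((d : ℝ) - 2) / (d : ℝ)) * t) ^ ((d : ℝ) / ((d : ℝ) - 2)) := by
        rw [Real.mul_rpow (Real.rpow_nonneg hN0 _) ht.le, ← Real.rpow_mul hN0]
        have : ((d : ℝ) - 2) / (d : ℝ) * ((d : ℝ) / ((d : ℝ) - 2)) = 1 := by
          field_simp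
        rw [this, Real.rpow_one]
    _ ≤ (8 * C) ^ ((d : ℝ) / ((d : ℝ) - 2)) :=
        Real.rpow_le_rpow (mul_nonneg (Real.rpow_nonneg hN0 _) ht.le) h8 hq0.le

end Pool.Agent.H4R2.AE.Weak
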