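import Pool.Agent.H4R2.AE.Core
import Pool.Agent.H4R2.AE.Arith2
import Pool.Agent.H4R2.AE.Weak
import Pool.Agent.H4R2.AE.Gst
import Pool.Agent.H4R2.AE.Goodt
import Pool.Agent.H613R2.AE.Layer

/-! Assembly of the torus theorem at the sharp scale. -/

set_option autoImplicit false

open scoped BigOperators
open MeasureTheory

namespace Pool.Agent.H4R2.AE
namespace Core2

open Pool.Agent.H4R2.AE.Core (FlatE close L_pos one_le_L)

theorem k_ok (L : ℕ) [NeZero L] (δ : ℝ) (hδ' : δ ≤ 1 / 8) :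
    1 / (8 * (L : ℝ) ^ 2) ≤ 1 / (4 * (L : ℝ) ^ 2) * Real.exp (-(4 * δ)) := by
  have hL := L_pos (L := L)
  have h1 : (1 : ℝ) / 2 ≤ Real.exp (-(4 * δ)) := by
    have := Real.add_one_le_exp (-(4 * δ))
    linarith
  calc 1 / (8 * (L : ℝ) ^ 2) = 1 / (4 * (L : ℝ) ^ 2) * (1 / 2) := by field_simp; norm_num
    _ ≤ _ := by gcongr

/-- the weak-type bound for multiples of the Green function -/
theorem weak_mul {d L : ℕ} [NeZero L] (A : ℝ) (h : T d L → ℝ) (p : ℝ)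
    (H : ∀ t : ℝ, 0 < t → ((Finset.univ.filter fun x => t ≤ h x).card : ℝ) * t ^ p ≤ A)
    (θ : ℝ) (hθ : 0 < θ) (t : ℝ) (ht : 0 < t) :
    ((Finset.univ.filter fun x => t ≤ θ * h x).card : ℝ) * t ^ p ≤ A * θ ^ p := by
  have h1 := H (t / θ) (by positivity)
  have e : (Finset.univ.filter fun x => t / θ ≤ h x) =
      Finset.univ.filter fun x => t ≤ θ * h x := by
    ext x
    simp only [Finset.mem_filter, Finset.mem_univ, true_and]
    rw [div_le_iff₀ hθ, mul_comm]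
  rw [e, Real.div_rpow ht.le hθ.le] at h1
  have h2 : 0 < θ ^ p := Real.rpow_pos_of_pos hθ p
  calc ((Finset.univ.filter fun x => t ≤ θ * h x).card : ℝ) * t ^ p
      = ((Finset.univ.filter fun x => t ≤ θ * h x).card : ℝ) * (t ^ p / θ ^ p) * θ ^ p := by
        field_simp
    _ ≤ A * θ ^ p := by gcongr

theorem hG_five (d : ℕ) (hd : 5 ≤ d) : ∃ R : ℝ, 0 ≤ R ∧ ∀ (L : ℕ) [NeZero L] (δ : ℝ), δ ≤ 1 / 8 →
    ∀ (u Gr : T d L → ℝ) (x0 : T d L), (∀ x, 1 / 2 ≤ u x) → (∀ x, 0 ≤ Gr x) →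
      (∀ x, LapW u Gr x + 1 / (4 * (L : ℝ) ^ 2) * Real.exp (-(4 * δ)) * Gr x =
        if x = x0 then 1 else 0) →
      ∀ θ : ℝ, 0 < θ → ∑ z, min ((θ * Gr z) ^ 2) (θ * Gr z) ≤ R * θ ^ Arith2.pe d := by
  obtain ⟨A, hA, HA⟩ := Weak.weak d (by omega)
  obtain ⟨C, hC, HC⟩ := Layer.layer_lt_two (Arith2.pe d) (Arith2.pe_gt_one d (by omega))
    (Arith2.pe_lt_two d hd)
  refine ⟨C * A, by positivity, ?_⟩
  intro L _ δ hδ u Gr x0 hu hGr hh θ hθ
  have h1 := HA L u (fun _ => 1 / (4 * (L : ℝ) ^ 2) * Real.exp (-(4 * δ))) Gr x0 hu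
    (fun _ => k_ok L δ hδ) hGr hh
  have h2 : 0 < θ ^ Arith2.pe d := Real.rpow_pos_of_pos hθ _
  refine (HC (T d L) (fun z => θ * Gr z) (A * θ ^ Arith2.pe d)
    (fun x => mul_nonneg hθ.le (hGr x)) (by positivity)
    (fun t ht => weak_mul A Gr _ h1 θ hθ t ht)).trans (le_of_eq (by ring))

theorem log_card (L : ℕ) [NeZero L] :
    Real.log (Fintype.card (T 4 L) : ℝ) = 4 * Real.log (L : ℝ) := by
  have : Fintype.card (T 4 L) = L ^ 4 := by simp [T, ZMod.card]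
  rw [this]
  push_cast
  rw [Real.log_pow]
  norm_num

theorem hG_four : ∃ A : ℝ, 0 < A ∧ ∀ (L : ℕ) [NeZero L] (δ : ℝ), δ ≤ 1 / 8 →
    ∀ (u Gr : T 4 L → ℝ) (x0 : T 4 L), (∀ x, 1 / 2 ≤ u x) → (∀ x, 0 ≤ Gr x) →
      (∀ x, LapW u Gr x + 1 / (4 * (L : ℝ) ^ 2) * Real.exp (-(4 * δ)) * Gr x =
        if x = x0 then 1 else 0) →
      ∀ θ : ℝ, 0 < θ → ∑ z, min ((θ * Gr z) ^ 2) (θ * Gr z) ≤
        (A * (1 + 4 * Real.log (L : ℝ))) * θ ^ (2 : ℝ) := by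
  obtain ⟨A, hA, HA⟩ := Weak.weak 4 (by norm_num)
  refine ⟨A, by linarith, ?_⟩
  intro L _ δ hδ u Gr x0 hu hGr hh θ hθ
  have h1 := HA L u (fun _ => 1 / (4 * (L : ℝ) ^ 2) * Real.exp (-(4 * δ))) Gr x0 hu
    (fun _ => k_ok L δ hδ) hGr hh
  have hp : ((4 : ℕ) : ℝ) / (((4 : ℕ) : ℝ) - 2) = 2 := by norm_num
  rw [hp] at h1
  have h2 := weak_mul A Gr 2 h1 θ hθ
  simp only [Real.rpow_two] at h2
  have h3 := Layer.layer_two (T 4 L) (fun z => θ * Gr z) (A * θ ^ 2)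
    (fun x => mul_nonneg hθ.le (hGr x)) (by positivity) h2
  rw [log_card] at h3
  calc ∑ z, min ((θ * Gr z) ^ 2) (θ * Gr z) ≤ ∑ z, (θ * Gr z) ^ 2 :=
        Finset.sum_le_sum fun z _ => min_le_left _ _
    _ ≤ _ := h3
    _ = _ := by rw [Real.rpow_two]; ring

/-- general torus statement -/
theorem gen (d : ℕ) (hd : 3 ≤ d) : ∃ C : ℝ, 1 ≤ C ∧ ∀ (L : ℕ) [NeZero L] (lam η E : ℝ),
    0 < η → η ≤ 1 → ∀ (V w : T d L → ℝ), (∀ x, |w x| ≤ η / C) →
    (∀ x, ∑ i : Fin d, ((1 - Real.exp (w (x + Pi.single i 1) - w x)) +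
      (1 - Real.exp (w (x - Pi.single i 1) - w x))) + lam * V x - E +
        1 / (4 * (L : ℝ) ^ 2) * w x = 0) →
    FlatE lam η (1 / (L : ℝ) ^ 2) E V := by
  obtain ⟨C, hC, H⟩ := Gst.flat d hd
  refine ⟨C, hC, ?_⟩
  intro L _ lam η E hη hη' V w hw heq
  have hC0 : 0 < C := by linarith
  have e : C * (η / C) = η := by field_simp
  obtain ⟨E0, ψ, hψ, heig, hgap⟩ := H L lam (η / C) E (by positivity) (by rw [e]; exact hη') V w hw heq
  rw [e] at hψ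
  have hL := L_pos (L := L)
  refine ⟨E0, ψ, ?_, hψ, heig, hgap⟩
  have h1 := close lam (η / C) E E0 (1 / (4 * (L : ℝ) ^ 2)) (by positivity) V w ψ hw heq
    (fun x => by linarith [(hψ x).1]) heig
  refine h1.trans ?_
  have h2 : η / C ≤ 1 := by
    rw [div_le_one hC0]
    linarith
  calc 1 / (4 * (L : ℝ) ^ 2) * (η / C) ≤ 1 / (4 * (L : ℝ) ^ 2) * 1 := by gcongr
    _ ≤ 1 / (L : ℝ) ^ 2 := by
      rw [mul_one]
      apply one_div_le_one_div_of_le (by positivity)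
      nlinarith [sq_nonneg (L : ℝ)]

/-- the torus theorem, `d ≥ 4`, sharp scale -/
theorem main_torus (d : ℕ) (hd : 4 ≤ d) (η : ℝ) (hη : 0 < η) (hη' : η ≤ 1) : ∃ c : ℝ, 0 < c ∧
      ∀ (μ : Measure ℝ) [IsProbabilityMeasure μ], μ (Set.Icc (-1) 1)ᶜ = 0 →
      ∀ lam : ℝ, 0 < lam → lam ≤ c → ∀ (L : ℕ) [NeZero L], (L : ℝ) ≤ Real.exp (c / scaleS d lam) →
      ∃ E : ℝ, |E| ≤ lam ∧ ∃ G : Set (T d L → ℝ), MeasurableSet G ∧
        1 - Real.exp (-c / scaleS d lam) ≤ (Measure.pi fun _ : T d L => μ).real G ∧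
        ∀ V ∈ G, FlatE lam η (1 / (L : ℝ) ^ 2) E V := by
  obtain ⟨C, hC, hflat⟩ := gen d (by omega)
  have hC0 : 0 < C := by linarith
  set δ : ℝ := min (1 / 8) (η / C) with hδ
  have hδ0 : 0 < δ := by positivity
  have hδ8 : δ ≤ 1 / 8 := min_le_left _ _
  have hδC : δ ≤ η / C := min_le_right _ _
  -- reduction
  suffices hs : ∃ c : ℝ, 0 < c ∧ ∀ lam : ℝ, 0 < lam → lam ≤ c → ∀ (L : ℕ) [NeZero L],
      (L : ℝ) ≤ Real.exp (c / scaleS d lam) → ∃ (p R θ : ℝ), 1 < p ∧ 0 ≤ R ∧ 0 < θ ∧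
      (∀ (u Gr : T d L → ℝ) (x0 : T d L), (∀ x, 1 / 2 ≤ u x) → (∀ x, 0 ≤ Gr x) →
      (∀ x, LapW u Gr x + 1 / (4 * (L : ℝ) ^ 2) * Real.exp (-(4 * δ)) * Gr x =
        if x = x0 then 1 else 0) →
      ∀ θ : ℝ, 0 < θ → ∑ z, min ((θ * Gr z) ^ 2) (θ * Gr z) ≤ R * θ ^ p) ∧
      (L : ℝ) ^ d * (2 * Real.exp (-(θ * δ) + R * (6 * lam * θ) ^ p / (p - 1))) ≤
        Real.exp (-c / scaleS d lam) by
    obtain ⟨c, hc, H⟩ := hs
    refine ⟨c, hc, ?_⟩
    intro μ _ hμ lam hlam hlamc L _ hL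
    obtain ⟨p, R, θ, hp, hR, hθ, hG, hfin⟩ := H lam hlam hlamc L hL
    have hLpos := L_pos (L := L)
    obtain ⟨E, hE, G, hGm, hP, hw⟩ := Goodt.good d L (1 / (4 * (L : ℝ) ^ 2)) (by positivity) p R hp
      hR μ lam δ hlam hδ0 hδ8 hG θ hθ
    obtain ⟨G', hG', hP', hV'⟩ := Arith.pi_real_inter μ hμ G hGm _ (hP.trans hfin)
    refine ⟨E, hE, G', hG', hP', fun V hV => ?_⟩
    obtain ⟨w, hw1, hw2⟩ := hw V (hV' V hV).1 (hV' V hV).2
    exact hflat L lam η E hη hη' V w (fun x => (hw1 x).trans hδC) hw2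
  by_cases h4 : d = 4
  · subst h4
    obtain ⟨A, hA, HA⟩ := hG_four
    obtain ⟨b, hb, hb1, Hb⟩ := Arith2.site_four A δ hA hδ0
    refine ⟨min b (δ / 2 / (4 + 2)), by positivity, ?_⟩
    set c := min b (δ / 2 / (4 + 2)) with hc
    have hcpos : 0 < c := by positivity
    have hcb : c ≤ b := min_le_left _ _
    have hcd : ((4 : ℕ) + 2 : ℝ) * c ≤ δ / 2 := by
      have := min_le_right b (δ / 2 / (4 + 2))
      push_cast
      linarith
    intro lam hlam hlamc L _ hL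
    have hσ : scaleS 4 lam = lam := by simp [scaleS]
    rw [hσ] at hL ⊢
    have hLb : (L : ℝ) ≤ Real.exp (b / lam) :=
      hL.trans (Real.exp_le_exp.2 (by gcongr))
    obtain ⟨θ, hθ, hθ2⟩ := Hb lam hlam (hlamc.trans hcb) L one_le_L hLb
    have hlogL0 : 0 ≤ Real.log (L : ℝ) := Real.log_nonneg (by exact_mod_cast one_le_L)
    refine ⟨2, A * (1 + 4 * Real.log (L : ℝ)), θ, by norm_num, by positivity, hθ,
      HA L δ hδ8, ?_⟩
    exact Arith2.union 4 (δ / 2) c hcpos hcd lam hlam hlamc L hL _ hθ2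
  · obtain ⟨R, hR, HR⟩ := hG_five d (by omega)
    obtain ⟨b, hb, Hb⟩ := Arith2.site_five d (by omega) R δ hR hδ0
    have hd2 : (0 : ℝ) < (d : ℝ) + 2 := by positivity
    set c := min 1 (b / (d + 2)) with hc
    have hcpos : 0 < c := by positivity
    have hc1 : c ≤ 1 := min_le_left _ _
    have hcb : ((d : ℝ) + 2) * c ≤ b := by
      have := min_le_right 1 (b / (d + 2))
      rw [← hc, le_div_iff₀ hd2] at this
      linarith
    refine ⟨c ^ 2, by positivity, ?_⟩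
    intro lam hlam hlamc L _ hL
    have hσpos := Arith2.scaleS_pos d lam hlam
    have hσc : scaleS d lam ≤ c := Arith2.scaleS_le d (by omega) lam c hcpos hc1 hlamc
    obtain ⟨θ, hθ, hθ2⟩ := Hb lam hlam
    refine ⟨Arith2.pe d, R, θ, Arith2.pe_gt_one d (by omega), hR, hθ, HR L δ hδ8, ?_⟩
    have hcc : c ^ 2 / scaleS d lam ≤ c / scaleS d lam := by
      gcongr
      nlinarith
    refine (Arith2.union d b c hcpos hcb (scaleS d lam) hσpos hσc L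
      (hL.trans (Real.exp_le_exp.2 hcc)) _ hθ2).trans ?_
    apply Real.exp_le_exp.2
    rw [neg_div, neg_div]
    linarith

/-- all volumes, after changing the potential at rare sites, `d ≥ 5` -/
theorem main_modi (d : ℕ) (hd : 5 ≤ d) (η : ℝ) (hη : 0 < η) (hη' : η ≤ 1) : ∃ c : ℝ, 0 < c ∧
      ∀ (μ : Measure ℝ) [IsProbabilityMeasure μ],
      ∀ lam : ℝ, 0 < lam → lam ≤ c → ∀ (L : ℕ) [NeZero L],
      ∃ E : ℝ, |E| ≤ lam ∧ ∃ Φ : (T d L → ℝ) → (T d L → ℝ), Measurable Φ ∧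
        (∀ (V : T d L → ℝ) (a : T d L), Φ (fun x => V (x + a)) = fun x => Φ V (x + a)) ∧
        (∀ x, (Measure.pi fun _ : T d L => μ).real {V | Φ V x ≠ V x} ≤
          Real.exp (-c / Real.sqrt lam ^ d)) ∧
        ∀ V : T d L → ℝ, (∀ x, |V x| ≤ 1) → (∀ x, |Φ V x - V x| ≤ 2) ∧
          FlatE lam η (1 / (L : ℝ) ^ 2) E (Φ V) := by
  obtain ⟨C, hC, hflat⟩ := gen d (by omega)
  have hC0 : 0 < C := by linarith
  set δ : ℝ := min (1 / 8) (η / (2 * C)) with hδ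
  have hδ0 : 0 < δ := by positivity
  have hδ8 : δ ≤ 1 / 8 := min_le_left _ _
  have hδC : 2 * δ ≤ η / C := by
    have h := min_le_right (1 / 8) (η / (2 * C))
    rw [← hδ] at h
    calc 2 * δ ≤ 2 * (η / (2 * C)) := by linarith
      _ = η / C := by field_simp
  obtain ⟨R, hR, HR⟩ := hG_five d hd
  obtain ⟨b, hb, Hb⟩ := Arith2.site_five d hd R δ hR hδ0
  have hd2 : (0 : ℝ) < (d : ℝ) + 2 := by positivity
  set c := min 1 (b / (d + 2)) with hc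
  have hcpos : 0 < c := by positivity
  have hc1 : c ≤ 1 := min_le_left _ _
  have hcb : ((d : ℝ) + 2) * c ≤ b := by
    have := min_le_right 1 (b / (d + 2))
    rw [← hc, le_div_iff₀ hd2] at this
    linarith
  refine ⟨c ^ 2, by positivity, ?_⟩
  intro μ _ lam hlam hlamc L _
  have hσpos := Arith2.scaleS_pos d lam hlam
  have hσc : scaleS d lam ≤ c := Arith2.scaleS_le d (by omega) lam c hcpos hc1 hlamc
  obtain ⟨θ, hθ, hθ2⟩ := Hb lam hlam
  have hLpos := L_pos (L := L)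
  obtain ⟨E, hE, Φ, hΦm, hΦt, hΦp, hΦ⟩ := Goodt.modi d L (1 / (4 * (L : ℝ) ^ 2)) (by positivity)
    (Arith2.pe d) R (Arith2.pe_gt_one d (by omega)) hR μ lam δ hlam hδ0 hδ8 (HR L δ hδ8) θ hθ
  refine ⟨E, hE, Φ, hΦm, hΦt, ?_, ?_⟩
  · intro x
    refine (hΦp x).trans ?_
    have hcc : c ^ 2 / scaleS d lam ≤ c / scaleS d lam := by
      gcongr
      nlinarith
    have h1 := Arith2.union d b c hcpos hcb (scaleS d lam) hσpos hσc 1
      (by push_cast; exact Real.one_le_exp (by positivity)) _ hθ2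
    have h4 : ¬ d = 4 := by omega
    have hσ : scaleS d lam = Real.sqrt lam ^ d := by simp [scaleS, h4]
    rw [← hσ]
    refine le_trans ?_ (h1.trans ?_)
    · push_cast
      rw [one_pow, one_mul]
    · apply Real.exp_le_exp.2
      rw [neg_div, neg_div]
      linarith
  · intro V hV
    obtain ⟨h1, w, hw1, hw2⟩ := hΦ V hV
    exact ⟨h1, hflat L lam η E hη hη' (Φ V) w (fun x => (hw1 x).trans hδC) hw2⟩

end Core2
end Pool.Agent.H4R2.AE
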