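import Mathlib

/-!
# Definitions for: Anderson model at weak disorder, extended ground state on exponentially large tori
(helper4, MP_28b024_mp)
-/

set_option autoImplicit false

open scoped BigOperators
open MeasureTheory

namespace Pool.Agent.H4R2.AE

/-- the discrete torus `(ℤ/L)^d` -/
abbrev T (d L : ℕ) : Type := Fin d → ZMod L

/-- weighted Laplacian with conductances `u x * u y` -/
noncomputable def LapW {d L : ℕ} (u g : T d L → ℝ) (x : T d L) : ℝ :=
  ∑ i : Fin d, (u x * u (x + Pi.single i 1) * (g x - g (x + Pi.single i 1)) +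
    u x * u (x - Pi.single i 1) * (g x - g (x - Pi.single i 1)))

/-- the Anderson Hamiltonian `-Δ + lam V` on the torus, on real functions -/
noncomputable def Hop {d L : ℕ} (lam : ℝ) (V f : T d L → ℝ) (x : T d L) : ℝ :=
  ∑ i : Fin d, (2 * f x - f (x + Pi.single i 1) - f (x - Pi.single i 1)) + lam * V x * f x

/-- `ℓ²` bound `Γ` for all Green functions with conductances bounded below by `1/4` and
killing rate at least `1/(8 L²)` -/
def GB (d L : ℕ) [NeZero L] (Γ : ℝ) : Prop :=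
  ∀ (u k h : T d L → ℝ) (z : T d L), (∀ x, 1 / 2 ≤ u x) → (∀ x, 1 / (8 * (L : ℝ) ^ 2) ≤ k x) →
    (∀ x, 0 ≤ h x) → (∀ x, LapW u h x + k x * h x = if x = z then 1 else 0) →
    ∑ x, h x ^ 2 ≤ Γ ^ 2

/-- the penalty function -/
noncomputable def beta (lam δ κ s : ℝ) : ℝ :=
  κ * s + (2 * lam / δ) * (max (s - δ) 0 - max (-s - δ) 0)

/-- `w` solves the penalised (logarithmic) eigenvalue equation:
with `u = exp w`, `-Δu + (lam V - E) u + beta(log u) u = 0`. -/
def IsSol {d L : ℕ} (lam δ κ : ℝ) (V : T d L → ℝ) (E : ℝ) (w : T d L → ℝ) : Prop :=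
  ∀ x, ∑ i : Fin d, ((1 - Real.exp (w (x + Pi.single i 1) - w x)) +
      (1 - Real.exp (w (x - Pi.single i 1) - w x))) + lam * V x - E + beta lam δ κ (w x) = 0

/-- the mass `κ = 1 / (2 (2 d + 1) Γ L^{d/2})` -/
noncomputable def kap (d L : ℕ) (Γ : ℝ) : ℝ :=
  1 / (2 * ((2 * (d : ℝ) + 1) * Γ) * Real.sqrt ((L : ℝ) ^ d))

/-- `V` is good: the exact ground state of `-Δ + lam V` on the torus is flat up to the factor `1 + η`,
and the spectral gap above it is at least `1 / (2 d L²)`. -/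
def Flat {d L : ℕ} [NeZero L] (lam η : ℝ) (V : T d L → ℝ) : Prop :=
  ∃ (E0 : ℝ) (ψ : T d L → ℝ), (∀ x, 1 ≤ ψ x ∧ ψ x ≤ 1 + η) ∧ (∀ x, Hop lam V ψ x = E0 * ψ x) ∧
    ∀ f : T d L → ℝ, ∑ x, ψ x * f x = 0 →
      1 / (2 * (d : ℝ) * (L : ℝ) ^ 2) * ∑ x, f x ^ 2 ≤ ∑ x, f x * (Hop lam V f x - E0 * f x)

/-- the Anderson Hamiltonian `-Δ + lam V` on complex functions on the torus -/
noncomputable def HC {d L : ℕ} [NeZero L] (lam : ℝ) (V : T d L → ℝ) :
    EuclideanSpace ℂ (T d L) →L[ℂ] EuclideanSpace ℂ (T d L) :=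
  LinearMap.toContinuousLinearMap
    { toFun := fun f => WithLp.toLp 2 fun x =>
        ∑ i : Fin d, (2 * f x - f (x + Pi.single i 1) - f (x - Pi.single i 1)) +
          ((lam * V x : ℝ) : ℂ) * f x
      map_add' := fun f g => by
        ext x
        simp only [PiLp.add_apply]
        have h : ∑ i : Fin d, (2 * (f x + g x) - (f (x + Pi.single i 1) + g (x + Pi.single i 1)) -
            (f (x - Pi.single i 1) + g (x - Pi.single i 1))) =
            ∑ i : Fin d, (2 * f x - f (x + Pi.single i 1) - f (x - Pi.single i 1)) +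
            ∑ i : Fin d, (2 * g x - g (x + Pi.single i 1) - g (x - Pi.single i 1)) := by
          rw [← Finset.sum_add_distrib]
          exact Finset.sum_congr rfl fun i _ => by ring
        rw [h]
        ring
      map_smul' := fun c f => by
        ext x
        simp only [PiLp.smul_apply, smul_eq_mul, RingHom.id_apply]
        have h : ∑ i : Fin d, (2 * (c * f x) - c * f (x + Pi.single i 1) -
            c * f (x - Pi.single i 1)) =
            c * ∑ i : Fin d, (2 * f x - f (x + Pi.single i 1) - f (x - Pi.single i 1)) := by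
          rw [Finset.mul_sum]
          exact Finset.sum_congr rfl fun i _ => by ring
        rw [h]
        ring }

/-- the amplitude `⟨δ_x, exp(-itH) δ_0⟩` on the torus -/
noncomputable def ampT {d L : ℕ} [NeZero L] (lam : ℝ) (V : T d L → ℝ) (t : ℝ) (x : T d L) : ℂ :=
  (NormedSpace.exp ((-(t : ℂ) * Complex.I) • HC lam V) (EuclideanSpace.single 0 1)) x

/-- `ℓ²(ℤ^d)` -/
abbrev L2 (d : ℕ) : Type := lp (fun _ : Fin d → ℤ => ℂ) 2

/-- the bounded operator `H` on `ℓ²(ℤ^d)` is the Anderson Hamiltonian `-Δ + lam ω` -/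
def IsAnderson {d : ℕ} (lam : ℝ) (ω : (Fin d → ℤ) → ℝ) (H : L2 d →L[ℂ] L2 d) : Prop :=
  ∀ (f : L2 d) (x : Fin d → ℤ), (H f) x =
    ∑ i : Fin d, (2 * f x - f (x + Pi.single i 1) - f (x - Pi.single i 1)) +
      ((lam * ω x : ℝ) : ℂ) * f x

/-- the unit vector at the origin of `ℤ^d` -/
noncomputable def delta0 (d : ℕ) : L2 d := lp.single 2 (0 : Fin d → ℤ) (1 : ℂ)

/-- the amplitude `⟨δ_x, exp(-itH) δ_0⟩` on `ℤ^d` -/
noncomputable def amp {d : ℕ} (H : L2 d →L[ℂ] L2 d) (t : ℝ) (x : Fin d → ℤ) : ℂ :=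
  (NormedSpace.exp ((-(t : ℂ) * Complex.I) • H) (delta0 d)) x

end Pool.Agent.H4R2.AE
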