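import Pool.Agent.H4R2.AE.Defs

/-! Further definitions (second wave). -/

set_option autoImplicit false

open scoped BigOperators ENNReal
open MeasureTheory

namespace Pool.Agent.H4R2.AE

/-- quadratic form of the Hamiltonian with twisted boundary conditions (phase `α i` on every edge
in direction `i`) -/
noncomputable def Tw {d L : ℕ} [NeZero L] (lam : ℝ) (V : T d L → ℝ) (α : Fin d → ℝ)
    (f : T d L → ℂ) : ℝ :=
  ∑ x, ∑ i : Fin d, ‖f x - Complex.exp ((α i : ℂ) * Complex.I) * f (x + Pi.single i 1)‖ ^ 2 +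
    ∑ x, lam * V x * ‖f x‖ ^ 2

end Pool.Agent.H4R2.AE
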