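import Pool.Agent.H4R2.AE.Wloc

/-!
# Locality: two potentials on `ℤ^d` which agree on a box
-/

set_option autoImplicit false

open scoped BigOperators Nat

namespace Pool.Agent.H4R2.AE.Locp

open Pool.Agent.H4R2.AE.Loc Pool.Agent.H4R2.AE.Wloc

theorem supp_step {d M : ℕ} {lam : ℝ} {ω : (Fin d → ℤ) → ℝ} {H : L2 d →L[ℂ] L2 d}
    (hH : IsAnderson lam ω H) {f : L2 d}
    (h : ∀ x : Fin d → ℤ, (∃ i, (M : ℤ) < |x i|) → f x = 0) :
    ∀ x : Fin d → ℤ, (∃ i, ((M + 1 : ℕ) : ℤ) < |x i|) → (H f) x = 0 := by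
  rintro x ⟨i, hx⟩
  push_cast at hx
  rw [hH f x]
  have h0 : f x = 0 := h x ⟨i, by omega⟩
  have h1 : ∀ j : Fin d, f (x + Pi.single j 1) = 0 := by
    intro j
    apply h _ ⟨i, ?_⟩
    by_cases h : i = j
    · subst h
      rw [Pi.add_apply, Pi.single_eq_same]
      rcases abs_cases (x i) with h1 | h1 <;> rcases abs_cases (x i + 1) with h2 | h2 <;> omega
    · rw [Pi.add_apply, Pi.single_eq_of_ne h, add_zero]
      omega
  have h2 : ∀ j : Fin d, f (x - Pi.single j 1) = 0 := by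
    intro j
    apply h _ ⟨i, ?_⟩
    by_cases h : i = j
    · subst h
      rw [Pi.sub_apply, Pi.single_eq_same]
      rcases abs_cases (x i) with h1 | h1 <;> rcases abs_cases (x i - 1) with h2 | h2 <;> omega
    · rw [Pi.sub_apply, Pi.single_eq_of_ne h, sub_zero]
      omega
  simp [h0, h1, h2]

theorem pow_eq {d K M : ℕ} {lam : ℝ} {ω ω' : (Fin d → ℤ) → ℝ}
    (heq : ∀ x : Fin d → ℤ, (∀ i, |x i| ≤ (K : ℤ)) → ω x = ω' x)
    {H H' : L2 d →L[ℂ] L2 d} (hH : IsAnderson lam ω H) (hH' : IsAnderson lam ω' H')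
    {g : L2 d} (hg : ∀ x : Fin d → ℤ, (∃ i, (M : ℤ) < |x i|) → g x = 0)
    (n : ℕ) (hn : M + n ≤ K) :
    (H ^ n) g = (H' ^ n) g ∧
      ∀ x : Fin d → ℤ, (∃ i, ((M + n : ℕ) : ℤ) < |x i|) → ((H ^ n) g) x = 0 := by
  induction n with
  | zero => exact ⟨rfl, hg⟩
  | succ n ih =>
    obtain ⟨ih1, ih2⟩ := ih (by omega)
    rw [pow_succ', pow_succ']
    refine ⟨?_, ?_⟩
    · show H ((H ^ n) g) = H' ((H' ^ n) g)
      rw [← ih1]
      ext x
      rw [hH, hH']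
      by_cases hx : ∀ i, |x i| ≤ (K : ℤ)
      · rw [heq x hx]
      · push Not at hx
        obtain ⟨i, hi⟩ := hx
        have h0 := ih2 x ⟨i, by omega⟩
        simp only [h0, mul_zero]
    · exact supp_step hH ih2

theorem locp (d K M : ℕ) (hMK : M ≤ K) (lam t : ℝ) (hlam : 0 ≤ lam) (hlam' : lam ≤ 1) (ht : 0 ≤ t)
    (hK : Real.exp 2 * (4 * (d : ℝ) + 1) * t ≤ (K : ℝ) - (M : ℝ)) (ω ω' : (Fin d → ℤ) → ℝ)
    (hω : ∀ x, |ω x| ≤ 1) (hω' : ∀ x, |ω' x| ≤ 1)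
    (heq : ∀ x : Fin d → ℤ, (∀ i, |x i| ≤ (K : ℤ)) → ω x = ω' x)
    (H H' : L2 d →L[ℂ] L2 d) (hH : IsAnderson lam ω H) (hH' : IsAnderson lam ω' H')
    (g : L2 d) (hg : ∀ x : Fin d → ℤ, (∃ i, (M : ℤ) < |x i|) → g x = 0) :
    ‖NormedSpace.exp ((-(t : ℂ) * Complex.I) • H) g -
        NormedSpace.exp ((-(t : ℂ) * Complex.I) • H') g‖ ≤
      4 * Real.exp (-((K : ℝ) - (M : ℝ))) * ‖g‖ := by
  obtain ⟨m, hm⟩ : ∃ m, m = K - M := ⟨_, rfl⟩
  have hmr : (m : ℝ) = (K : ℝ) - (M : ℝ) := by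
    rw [hm, Nat.cast_sub hMK]
  have b1 := exp_tail H d m t ht (by rw [hmr]; exact hK) (norm_H hlam hlam' hω hH) g
  have b2 := exp_tail H' d m t ht (by rw [hmr]; exact hK) (norm_H hlam hlam' hω' hH') g
  rw [← hmr]
  have hS : ∑ n ∈ Finset.range (m + 1), co t n • (H ^ n) g =
      ∑ n ∈ Finset.range (m + 1), co t n • (H' ^ n) g := by
    refine Finset.sum_congr rfl fun n hn => ?_
    have hn' := Finset.mem_range.mp hn
    rw [(pow_eq heq hH hH' hg n (by omega)).1]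
  rw [hS] at b1
  have e : NormedSpace.exp ((-(t : ℂ) * Complex.I) • H) g -
        NormedSpace.exp ((-(t : ℂ) * Complex.I) • H') g =
      (NormedSpace.exp ((-(t : ℂ) * Complex.I) • H) g -
        ∑ n ∈ Finset.range (m + 1), co t n • (H' ^ n) g) -
      (NormedSpace.exp ((-(t : ℂ) * Complex.I) • H') g -
        ∑ n ∈ Finset.range (m + 1), co t n • (H' ^ n) g) := by abel
  rw [e]
  refine (norm_sub_le _ _).trans ?_
  have h0 : 0 ≤ Real.exp (-(m : ℝ)) * ‖g‖ := by positivity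
  linarith

end Pool.Agent.H4R2.AE.Locp
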