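import Pool.Agent.H4R2.AE.FinA
import Pool.Agent.H4R2.AE.Green
import Pool.Agent.H4R2.AE.Gs
import Pool.Agent.H4R2.AE.Exist
import Pool.Agent.H4R2.AE.Locp

/-! DETA: a flat generalised eigenfunction on `ℤ^d` excludes dynamical localization (helper705) -/

set_option autoImplicit false

open scoped BigOperators ENNReal
open MeasureTheory Filter

namespace Pool.Agent.H4R2.AE
namespace Deta

/-- torus potential for which the restriction of `u` to the box is an exact eigenfunction -/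
noncomputable def VT {d : ℕ} (N : ℕ) (E : ℝ) (u : (Fin d → ℤ) → ℝ) (y : T d (2 * N + 1)) : ℝ :=
  E - (∑ i : Fin d, (2 * u (FinA.rep y) - u (FinA.rep (y + Pi.single i 1)) -
    u (FinA.rep (y - Pi.single i 1)))) / u (FinA.rep y)

theorem proj_add_single {d N : ℕ} (x : Fin d → ℤ) (i : Fin d) :
    (FinA.proj N x : T d (2 * N + 1)) + Pi.single i 1 = FinA.proj N (x + Pi.single i 1) := by
  funext j
  by_cases h : j = i
  · subst h
    simp [FinA.proj]
  · simp [FinA.proj, Pi.single_eq_of_ne h]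

theorem proj_sub_single {d N : ℕ} (x : Fin d → ℤ) (i : Fin d) :
    (FinA.proj N x : T d (2 * N + 1)) - Pi.single i 1 = FinA.proj N (x - Pi.single i 1) := by
  funext j
  by_cases h : j = i
  · subst h
    simp [FinA.proj]
  · simp [FinA.proj, Pi.single_eq_of_ne h]

theorem single_box {d : ℕ} (K : ℕ) (x : Fin d → ℤ) (hx : ∀ i, |x i| ≤ (K : ℤ)) (i : Fin d) (s : ℤ)
    (hs : |s| ≤ 1) : ∀ j, |(x + (Pi.single i s : Fin d → ℤ)) j| ≤ ((K + 1 : ℕ) : ℤ) := by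
  intro j
  have h1 := hx j
  by_cases h : j = i
  · subst h
    simp only [Pi.add_apply, Pi.single_eq_same]
    have := abs_add_le (x j) s
    push_cast
    omega
  · simp only [Pi.add_apply, Pi.single_eq_of_ne h, add_zero]
    push_cast
    omega

theorem VT_bound {d : ℕ} (N : ℕ) (η : ℝ) (hη' : 4 * (d : ℝ) * η ≤ 1)
    (E : ℝ) (hE : |E| ≤ 1 / 2) (u : (Fin d → ℤ) → ℝ) (hu : ∀ x, 1 ≤ u x ∧ u x ≤ 1 + η)
    (y : T d (2 * N + 1)) : |VT N E u y| ≤ 1 := by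
  have h0 : 0 < u (FinA.rep y) := lt_of_lt_of_le one_pos (hu _).1
  have h1 : |∑ i : Fin d, (2 * u (FinA.rep y) - u (FinA.rep (y + Pi.single i 1)) -
    u (FinA.rep (y - Pi.single i 1)))| ≤ ∑ i : Fin d, (2 * η) := by
    refine (Finset.abs_sum_le_sum_abs _ _).trans (Finset.sum_le_sum fun i _ => ?_)
    have a1 := hu (FinA.rep y)
    have a2 := hu (FinA.rep (y + Pi.single i 1))
    have a3 := hu (FinA.rep (y - Pi.single i 1))
    rw [abs_le]
    constructor <;> linarith [a1.1, a1.2, a2.1, a2.2, a3.1, a3.2]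
  have h2 : ∑ i : Fin d, (2 * η) = 2 * d * η := by
    simp
    ring
  rw [h2] at h1
  have h3 : |(∑ i : Fin d, (2 * u (FinA.rep y) - u (FinA.rep (y + Pi.single i 1)) -
    u (FinA.rep (y - Pi.single i 1)))) / u (FinA.rep y)| ≤ 1 / 2 := by
    rw [abs_div, abs_of_pos h0, div_le_iff₀ h0]
    have := (hu (FinA.rep y)).1
    linarith
  unfold VT
  have := abs_sub E ((∑ i : Fin d, (2 * u (FinA.rep y) - u (FinA.rep (y + Pi.single i 1)) -
    u (FinA.rep (y - Pi.single i 1)))) / u (FinA.rep y))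
  linarith

theorem VT_proj {d : ℕ} (N K : ℕ) (hK : K + 1 = N) (lam E : ℝ) (V u : (Fin d → ℤ) → ℝ)
    (hu : ∀ x, 1 ≤ u x)
    (heq : ∀ x, ∑ i : Fin d, (2 * u x - u (x + Pi.single i 1) - u (x - Pi.single i 1)) +
      lam * V x * u x = E * u x) (x : Fin d → ℤ) (hx : ∀ i, |x i| ≤ (K : ℤ)) :
    VT N E u (FinA.proj N x) = lam * V x := by
  subst hK
  have h0 : 0 < u x := lt_of_lt_of_le one_pos (hu _)
  unfold VT
  have e0 : FinA.rep (FinA.proj (K + 1) x) = x := FinA.rep_proj x fun i => by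
    have := hx i
    push_cast
    omega
  have e1 : ∀ i : Fin d, FinA.rep ((FinA.proj (K + 1) x : T d (2 * (K + 1) + 1)) + Pi.single i 1) =
      x + Pi.single i 1 := by
    intro i
    rw [proj_add_single]
    exact FinA.rep_proj _ (single_box K x hx i 1 (by norm_num))
  have e2 : ∀ i : Fin d, FinA.rep ((FinA.proj (K + 1) x : T d (2 * (K + 1) + 1)) - Pi.single i 1) =
      x - Pi.single i 1 := by
    intro i
    rw [proj_sub_single]
    have h := single_box K x hx i (-1) (by norm_num)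
    have h2 : x - (Pi.single i 1 : Fin d → ℤ) = x + (Pi.single i (-1) : Fin d → ℤ) := by
      rw [Pi.single_neg, sub_eq_add_neg]
    rw [h2]
    exact FinA.rep_proj _ h
  simp only [e0, e1, e2]
  have h := heq x
  rw [sub_eq_iff_eq_add, ← sub_eq_iff_eq_add', eq_div_iff h0.ne']
  linarith

theorem V_bound {d : ℕ} (η : ℝ) (hη' : 4 * (d : ℝ) * η ≤ 1)
    (lam E : ℝ) (hE : |E| ≤ 1 / 2) (V u : (Fin d → ℤ) → ℝ) (hu : ∀ x, 1 ≤ u x ∧ u x ≤ 1 + η)
    (heq : ∀ x, ∑ i : Fin d, (2 * u x - u (x + Pi.single i 1) - u (x - Pi.single i 1)) +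
      lam * V x * u x = E * u x) (x : Fin d → ℤ) : |lam * V x| ≤ 1 := by
  obtain ⟨K, hK⟩ : ∃ K : ℕ, ∀ i, |x i| ≤ (K : ℤ) := by
    refine ⟨∑ i, (x i).natAbs, fun i => ?_⟩
    have h := Finset.single_le_sum (f := fun i => (x i).natAbs) (fun i _ => Nat.zero_le _)
      (Finset.mem_univ i)
    have h' : ((x i).natAbs : ℤ) ≤ ((∑ i, (x i).natAbs : ℕ) : ℤ) := by exact_mod_cast h
    rwa [Int.natCast_natAbs] at h'
  rw [← VT_proj (K + 1) K rfl lam E V u (fun x => (hu x).1) heq x hK]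
  exact VT_bound _ η hη' E hE u hu _

theorem VT_flat (d : ℕ) (hd : 1 ≤ d) (N : ℕ) (η : ℝ) (hη' : η ≤ 1 / 10)
    (E : ℝ) (u : (Fin d → ℤ) → ℝ) (hu : ∀ x, 1 ≤ u x ∧ u x ≤ 1 + η) :
    Flat 1 (1 / 10) (VT N E u) := by
  have he : ∀ y, Hop 1 (VT N E u) (fun y => u (FinA.rep y)) y = E * u (FinA.rep y) := by
    intro y
    have h0 : 0 < u (FinA.rep y) := lt_of_lt_of_le one_pos (hu _).1
    unfold Hop VT
    field_simp
    ring
  refine ⟨E, fun y => u (FinA.rep y), fun y => ⟨(hu _).1, (hu _).2.trans (by linarith)⟩, he,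
    fun f hf => ?_⟩
  exact Gs.gap hd 1 E (VT N E u) (fun y => u (FinA.rep y)) (fun y => (hu _).1)
    (fun y => (hu _).2.trans (by linarith)) he f hf

theorem exists_N (d : ℕ) (B : ℝ) : ∃ N : ℕ, 1 ≤ N ∧ B + 1 ≤ (N : ℝ) ∧
    ((2 * N + 1 : ℕ) : ℝ) ^ d * (6 * Real.exp (-((N : ℝ) - 1))) ≤ 1 / 10 := by
  have h1 := Real.tendsto_pow_mul_exp_neg_atTop_nhds_zero d
  have h2 : Tendsto (fun N : ℕ => ((N : ℝ) + 1 / 2)) atTop atTop :=
    tendsto_atTop_add_const_right _ _ tendsto_natCast_atTop_atTop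
  have h3 := (h1.comp h2).mul_const (2 ^ d * (6 * Real.exp (3 / 2)))
  rw [zero_mul] at h3
  have h4 := h3.eventually (ge_mem_nhds (show (0 : ℝ) < 1 / 10 by norm_num))
  obtain ⟨N, hN1, hN2, hN3⟩ := (h4.and ((eventually_ge_atTop 1).and
    (tendsto_natCast_atTop_atTop.eventually (eventually_ge_atTop (B + 1))))).exists
  refine ⟨N, hN2, hN3, ?_⟩
  refine le_trans (le_of_eq ?_) hN1
  simp only [Function.comp]
  have e1 : Real.exp (-((N : ℝ) - 1)) = Real.exp (-((N : ℝ) + 1 / 2)) * Real.exp (3 / 2) := by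
    rw [← Real.exp_add]
    congr 1
    ring
  have e2 : (((2 * N + 1 : ℕ) : ℝ)) ^ d = ((N : ℝ) + 1 / 2) ^ d * 2 ^ d := by
    rw [← mul_pow]
    congr 1
    push_cast
    ring
  rw [e1, e2]
  ring

theorem norm_delta0 (d : ℕ) : ‖delta0 d‖ = 1 := by
  unfold delta0
  rw [lp.norm_single (by norm_num)]
  simp

/-- the amplitude on the torus is close to the one on `ℤ^d` -/
theorem close (d N K : ℕ) (hK : K + 1 = N) (η : ℝ) (hη' : 4 * (d : ℝ) * η ≤ 1)
    (lam E : ℝ) (hE : |E| ≤ 1 / 2) (V u : (Fin d → ℤ) → ℝ) (hu : ∀ x, 1 ≤ u x ∧ u x ≤ 1 + η)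
    (heq : ∀ x, ∑ i : Fin d, (2 * u x - u (x + Pi.single i 1) - u (x - Pi.single i 1)) +
      lam * V x * u x = E * u x)
    (H : L2 d →L[ℂ] L2 d) (hH : IsAnderson lam V H) (t : ℝ) (ht : 0 ≤ t)
    (htK : Real.exp 2 * (4 * (d : ℝ) + 1) * t ≤ (K : ℝ)) (y : T d (2 * N + 1)) :
    ‖amp H t (FinA.rep y) - ampT 1 (VT N E u) t y‖ ≤ 6 * Real.exp (-((N : ℝ) - 1)) := by
  classical
  have hKN : (K : ℝ) = (N : ℝ) - 1 := by
    rw [← hK]
    push_cast
    ring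
  set ω : (Fin d → ℤ) → ℝ := fun x => if ∀ i, |x i| ≤ (N : ℤ) then VT N E u (FinA.proj N x) else 0
    with hωd
  have hω : ∀ x, |ω x| ≤ 1 := by
    intro x
    simp only [hωd]
    split_ifs with h
    · exact VT_bound N η hη' E hE u hu _
    · simp
  obtain ⟨H', hH'⟩ := Exist.exists_anderson d 1 ω 1 zero_le_one hω
  have hH1 : IsAnderson 1 (fun x => lam * V x) H := by
    intro f x
    rw [hH f x, one_mul]
  have h1 := Loc.loc d N 1 t zero_le_one le_rfl ht (htK.trans (by rw [hKN]; linarith)) ω hω H' hH'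
    (VT N E u) (fun x hx => by
      simp only [hωd]
      rw [if_pos hx]
      rfl) (FinA.rep y) (FinA.rep_abs y)
  have h2 : (fun i => ((FinA.rep y i : ℤ) : ZMod (2 * N + 1))) = y := FinA.proj_rep y
  rw [h2] at h1
  have h3 := Locp.locp d K 0 (Nat.zero_le _) 1 t zero_le_one le_rfl ht (by simpa using htK)
    (fun x => lam * V x) ω (V_bound η hη' lam E hE V u hu heq) hω (fun x hx => by
      have hx' : ∀ i, |x i| ≤ (N : ℤ) := fun i => by
        have := hx i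
        omega
      simp only [hωd]
      rw [if_pos hx', VT_proj N K hK lam E V u (fun x => (hu x).1) heq x hx]) H H' hH1 hH' (delta0 d)
      (fun x hx => by
        obtain ⟨i, hi⟩ := hx
        have hx0 : x ≠ 0 := by
          rintro rfl
          simp at hi
        unfold delta0
        rw [lp.single_apply_ne _ _ _ hx0])
  rw [norm_delta0, mul_one] at h3
  have h4 : ‖amp H t (FinA.rep y) - amp H' t (FinA.rep y)‖ ≤ 4 * Real.exp (-((K : ℝ) - ((0 : ℕ) : ℝ))) := by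
    refine le_trans ?_ h3
    have := FinA.norm_eval_le (NormedSpace.exp ((-(t : ℂ) * Complex.I) • H) (delta0 d) -
        NormedSpace.exp ((-(t : ℂ) * Complex.I) • H') (delta0 d)) (FinA.rep y)
    rwa [lp.coeFn_sub, Pi.sub_apply] at this
  rw [hKN, Nat.cast_zero, sub_zero] at h4
  have h5 : Real.exp (-(N : ℝ)) ≤ Real.exp (-((N : ℝ) - 1)) := Real.exp_le_exp.2 (by linarith)
  calc ‖amp H t (FinA.rep y) - ampT 1 (VT N E u) t y‖
      ≤ ‖amp H t (FinA.rep y) - amp H' t (FinA.rep y)‖ +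
        ‖amp H' t (FinA.rep y) - ampT 1 (VT N E u) t y‖ := norm_sub_le_norm_sub_add_norm_sub _ _ _
    _ ≤ 4 * Real.exp (-((N : ℝ) - 1)) + 2 * Real.exp (-(N : ℝ)) := add_le_add h4 h1
    _ ≤ 6 * Real.exp (-((N : ℝ) - 1)) := by linarith

theorem deta (d : ℕ) (hd : 5 ≤ d) : ∃ C : ℝ, 0 < C ∧ ∀ (η : ℝ), 0 < η → 4 * (d : ℝ) * η ≤ 1 →
    ∀ (lam E : ℝ), |E| ≤ 1 / 2 → ∀ (V u : (Fin d → ℤ) → ℝ),
    (∀ x, 1 ≤ u x ∧ u x ≤ 1 + η) →
    (∀ x, ∑ i : Fin d, (2 * u x - u (x + Pi.single i 1) - u (x - Pi.single i 1)) +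
      lam * V x * u x = E * u x) →
    ∀ (H : L2 d →L[ℂ] L2 d), IsAnderson lam V H → ∀ R : ℝ, 1 ≤ R →
      (1 / 2 : ℝ≥0∞) ≤ ∑' x : {x : Fin d → ℤ // R < ‖x‖},
        FinA.supAmp H (C * R ^ ((d : ℝ) / 2)) x := by
  classical
  obtain ⟨Γ, hΓ, hGB⟩ := Green.green d hd
  have hd1 : 1 ≤ d := by omega
  have hd1' : (1 : ℝ) ≤ d := by exact_mod_cast hd1
  have hd5 : (5 : ℝ) ≤ d := by exact_mod_cast hd
  refine ⟨40 * Γ * 3 ^ d, by positivity, ?_⟩
  intro η hη hη' lam E hE V u hu heq H hH R hR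
  have hη10 : η ≤ 1 / 10 := by nlinarith
  obtain ⟨τ, hτdef⟩ : ∃ τ : ℝ, τ = 40 * Γ * 3 ^ d * R ^ ((d : ℝ) / 2) := ⟨_, rfl⟩
  rw [← hτdef]
  have hR0 : 0 < R := by linarith
  have hτ : 0 < τ := by rw [hτdef]; positivity
  have hcardR : (2 * R + 1) ^ d ≤ (τ / (40 * Γ)) ^ 2 := by
    have e1 : τ / (40 * Γ) = 3 ^ d * R ^ ((d : ℝ) / 2) := by
      rw [hτdef]
      field_simp
    have e2 : (R ^ ((d : ℝ) / 2)) ^ 2 = R ^ d := by
      rw [← Real.rpow_natCast (R ^ ((d : ℝ) / 2)) 2, ← Real.rpow_mul hR0.le, ← Real.rpow_natCast R d]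
      congr 1
      push_cast
      ring
    rw [e1, mul_pow, e2]
    calc (2 * R + 1) ^ d ≤ (3 * R) ^ d := pow_le_pow_left₀ (by positivity) (by linarith) d
      _ = 3 ^ d * R ^ d := mul_pow _ _ _
      _ ≤ (3 ^ d) ^ 2 * R ^ d := by
          have h1 : (1 : ℝ) ≤ 3 ^ d := one_le_pow₀ (by norm_num)
          have hRd : 0 < R ^ d := by positivity
          refine mul_le_mul_of_nonneg_right ?_ hRd.le
          nlinarith
  obtain ⟨N, hN1, hNB, hsmall⟩ := exists_N d (Real.exp 2 * (4 * (d : ℝ) + 1) * τ)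
  obtain ⟨K, rfl⟩ : ∃ K, N = K + 1 := ⟨N - 1, by omega⟩
  set N : ℕ := K + 1 with hNd
  have hKτ : Real.exp 2 * (4 * (d : ℝ) + 1) * τ ≤ (K : ℝ) := by
    have : (N : ℝ) = K + 1 := by rw [hNd]; push_cast; ring
    linarith
  set W : T d (2 * N + 1) → ℝ := VT N E u with hW
  set S : Finset (T d (2 * N + 1)) := Finset.univ.filter fun y => ‖FinA.rep y‖ ≤ R with hS
  set q : T d (2 * N + 1) → ℝ := fun y => (FinA.supAmp H τ (FinA.rep y)).toReal +
    6 * Real.exp (-((N : ℝ) - 1)) with hq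
  have hqb : ∀ t ∈ Set.Icc (0 : ℝ) τ, ∀ y, ‖ampT 1 W t y‖ ≤ q y := by
    intro t ht y
    have hNt : Real.exp 2 * (4 * (d : ℝ) + 1) * t ≤ (K : ℝ) := by
      refine le_trans ?_ hKτ
      have := ht.2
      gcongr
    have h1 := close d N K rfl η hη' lam E hE V u hu heq H hH t ht.1 hNt y
    have h3 : ‖amp H t (FinA.rep y)‖ ≤ (FinA.supAmp H τ (FinA.rep y)).toReal := by
      have h4 : ‖amp H t (FinA.rep y)‖ₑ ≤ FinA.supAmp H τ (FinA.rep y) :=
        le_iSup₂ (f := fun t (_ : t ∈ Set.Icc (0 : ℝ) τ) => ‖amp H t (FinA.rep y)‖ₑ) t ht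
      have h5 := ENNReal.toReal_mono (FinA.supAmp_lt_top H τ (FinA.rep y)).ne h4
      rwa [toReal_enorm] at h5
    have h6 : ‖ampT 1 W t y‖ ≤ ‖amp H t (FinA.rep y)‖ +
        ‖amp H t (FinA.rep y) - ampT 1 W t y‖ := by
      have := norm_sub_norm_le (ampT 1 W t y) (amp H t (FinA.rep y))
      rw [norm_sub_rev] at this
      linarith
    show _ ≤ (FinA.supAmp H τ (FinA.rep y)).toReal + 6 * Real.exp (-((N : ℝ) - 1))
    linarith
  have hcard : (S.card : ℝ) ≤ (τ / (40 * Γ)) ^ 2 := (FinA.card_ball R hR0.le).trans hcardR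
  have hτL : τ ≤ 8 * ((2 * N + 1 : ℕ) : ℝ) ^ 2 := by
    have h1 : τ ≤ N := by
      have h2 : 1 ≤ Real.exp 2 * (4 * (d : ℝ) + 1) := by
        have := Real.add_one_le_exp (2 : ℝ)
        nlinarith
      nlinarith
    have h3 : (1 : ℝ) ≤ N := by exact_mod_cast hN1
    push_cast
    nlinarith
  have hmain := Dynt.dyn d (2 * N + 1) hd1 Γ hΓ (hGB _) 1 (1 / 10) (by norm_num) le_rfl W
    (VT_flat d hd1 N η hη10 E u hu) τ hτ hτL q hqb S hcard
  have hsum : ∑ y ∈ Sᶜ, q y ≤ ∑ y ∈ Sᶜ, (FinA.supAmp H τ (FinA.rep y)).toReal + 1 / 10 := by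
    rw [hq, Finset.sum_add_distrib]
    gcongr
    rw [Finset.sum_const, nsmul_eq_mul]
    refine le_trans ?_ hsmall
    gcongr
    have h1 : (Sᶜ).card ≤ Fintype.card (T d (2 * N + 1)) := Finset.card_le_univ _
    have h2 : Fintype.card (T d (2 * N + 1)) = (2 * N + 1) ^ d := by
      simp [T, ZMod.card]
    rw [h2] at h1
    exact_mod_cast h1
  have hhalf : (1 / 2 : ℝ) ≤ ∑ y ∈ Sᶜ, (FinA.supAmp H τ (FinA.rep y)).toReal := by linarith
  have hE' : (1 / 2 : ℝ≥0∞) ≤ ∑ y ∈ Sᶜ, FinA.supAmp H τ (FinA.rep y) := by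
    have h1 : (∑ y ∈ Sᶜ, FinA.supAmp H τ (FinA.rep y)).toReal =
        ∑ y ∈ Sᶜ, (FinA.supAmp H τ (FinA.rep y)).toReal :=
      ENNReal.toReal_sum fun y _ => (FinA.supAmp_lt_top H τ _).ne
    have h2 : (1 / 2 : ℝ≥0∞) = ENNReal.ofReal (1 / 2) := by
      rw [ENNReal.ofReal_div_of_pos (by norm_num)]
      simp
    rw [h2]
    refine ENNReal.ofReal_le_of_le_toReal ?_
    rw [h1]
    exact hhalf
  refine hE'.trans ?_
  have hmem : ∀ y ∈ Sᶜ, R < ‖FinA.rep y‖ := by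
    intro y hy
    simpa [hS] using hy
  calc ∑ y ∈ Sᶜ, FinA.supAmp H τ (FinA.rep y)
      = ∑ y : {y // y ∈ Sᶜ}, FinA.supAmp H τ (FinA.rep y.1) := (Finset.sum_coe_sort _ _).symm
    _ = ∑ x ∈ Finset.univ.map ⟨fun y : {y // y ∈ Sᶜ} =>
          (⟨FinA.rep y.1, hmem y.1 y.2⟩ : {x : Fin d → ℤ // R < ‖x‖}), fun a b h => by
            have := congrArg Subtype.val h
            exact Subtype.ext (FinA.rep_inj this)⟩, FinA.supAmp H τ x.1 := by
          rw [Finset.sum_map]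
          rfl
    _ ≤ ∑' x : {x : Fin d → ℤ // R < ‖x‖}, FinA.supAmp H τ x := ENNReal.sum_le_tsum _

end Deta
end Pool.Agent.H4R2.AE
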