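import Pool.Agent.H4R2.AE.Dynt

/-! Facts on the torus Hamiltonian. -/

set_option autoImplicit false

open scoped BigOperators

namespace Pool.Agent.H4R2.AE
namespace HCf

variable {d L : ℕ} [NeZero L]

/-- unitarity on the torus -/
theorem exp_norm (lam : ℝ) (V : T d L → ℝ) (t : ℝ) (g : EuclideanSpace ℂ (T d L)) :
    ‖NormedSpace.exp ((-(t : ℂ) * Complex.I) • HC lam V) g‖ = ‖g‖ := by
  have hs : star (HC lam V) = HC lam V := Dynt.hc_sa lam V
  have h1 : (-(t : ℂ) * Complex.I) • HC lam V = ((t : ℝ) : ℂ) • ((-Complex.I) • HC lam V) := by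
    rw [smul_smul]
    congr 1
    ring
  rw [h1]
  refine Avg.W_norm ((-Complex.I) • HC lam V) ?_ t g
  rw [star_smul, hs, ← neg_smul]
  congr 1
  simp

theorem hc_re (f : EuclideanSpace ℂ (T d L)) (x : T d L) :
    ((HC 0 (fun _ : T d L => 0) f) x).re = LapW (fun _ => 1) (fun y => (f y).re) x := by
  rw [Dynt.hc_apply]
  simp only [LapW]
  simp only [zero_mul, Complex.ofReal_zero, add_zero, Complex.re_sum]
  refine Finset.sum_congr rfl fun i _ => ?_
  simp
  ring

theorem hc_im (f : EuclideanSpace ℂ (T d L)) (x : T d L) :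
    ((HC 0 (fun _ : T d L => 0) f) x).im = LapW (fun _ => 1) (fun y => (f y).im) x := by
  rw [Dynt.hc_apply]
  simp only [LapW]
  simp only [zero_mul, Complex.ofReal_zero, add_zero, Complex.im_sum]
  refine Finset.sum_congr rfl fun i _ => ?_
  simp
  ring

theorem lapW_nonneg (p : T d L → ℝ) : 0 ≤ ∑ x, p x * LapW (fun _ => 1) p x := by
  rw [Lin.bilin]
  refine Finset.sum_nonneg fun x _ => Finset.sum_nonneg fun i _ => ?_
  nlinarith [mul_self_nonneg (p x - p (x + Pi.single i 1))]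

theorem re_inner_nonneg (f : EuclideanSpace ℂ (T d L)) :
    0 ≤ (inner ℂ f (HC 0 (fun _ : T d L => 0) f)).re := by
  rw [Dynt.inner_eq, Complex.re_sum]
  have h : ∀ x, ((starRingEnd ℂ) (f x) * (HC 0 (fun _ : T d L => 0) f) x).re =
      (f x).re * LapW (fun _ => 1) (fun y => (f y).re) x +
      (f x).im * LapW (fun _ => 1) (fun y => (f y).im) x := by
    intro x
    rw [Complex.mul_re, hc_re, hc_im]
    simp
  simp only [h, Finset.sum_add_distrib]
  exact add_nonneg (lapW_nonneg fun y => (f y).re) (lapW_nonneg fun y => (f y).im)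

/-- `‖(1 + a(-Δ)) f‖ ≥ ‖f‖` on the torus for `a ≥ 0` -/
theorem norm_le_K (a : ℝ) (ha : 0 ≤ a) (f : EuclideanSpace ℂ (T d L)) :
    ‖f‖ ≤ ‖(((a : ℝ) : ℂ) • HC 0 (fun _ : T d L => 0) + 1) f‖ := by
  set K : EuclideanSpace ℂ (T d L) →L[ℂ] EuclideanSpace ℂ (T d L) :=
    ((a : ℝ) : ℂ) • HC 0 (fun _ : T d L => 0) + 1 with hK
  have h1 : (inner ℂ f (K f)).re = a * (inner ℂ f (HC 0 (fun _ : T d L => 0) f)).re + ‖f‖ ^ 2 := by
    have e1 : K f = ((a : ℝ) : ℂ) • HC 0 (fun _ : T d L => 0) f + f := rfl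
    rw [e1, inner_add_right, inner_smul_right, Complex.add_re, Complex.re_ofReal_mul]
    congr 1
    have := inner_self_eq_norm_sq (𝕜 := ℂ) f
    exact this
  have h2 : ‖f‖ ^ 2 ≤ ‖f‖ * ‖K f‖ := by
    calc ‖f‖ ^ 2 ≤ (inner ℂ f (K f)).re := by
          rw [h1]
          have := mul_nonneg ha (re_inner_nonneg f)
          linarith
      _ ≤ ‖inner ℂ f (K f)‖ := Complex.re_le_norm _
      _ ≤ ‖f‖ * ‖K f‖ := norm_inner_le_norm f (K f)
  rcases eq_or_lt_of_le (norm_nonneg f) with h | h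
  · rw [← h]; exact norm_nonneg _
  · rw [sq] at h2
    exact le_of_mul_le_mul_left h2 h

end HCf
end Pool.Agent.H4R2.AE
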