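import Pool.Agent.H4R2.AE.Defs

/-!
# Locality: the amplitude on `ℤ^d` and on a large torus
-/

set_option autoImplicit false

open scoped BigOperators Nat

namespace Pool.Agent.H4R2.AE.Loc

/-- the projection to the torus -/
def pr {d : ℕ} (N : ℕ) (x : Fin d → ℤ) : T d (2 * N + 1) :=
  fun i => ((x i : ℤ) : ZMod (2 * N + 1))

theorem pr_add {d : ℕ} (N : ℕ) (x : Fin d → ℤ) (i : Fin d) :
    pr N (x + Pi.single i 1) = pr N x + Pi.single i 1 := by
  funext j
  unfold pr
  by_cases h : j = i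
  · subst h; simp
  · simp [Pi.single_eq_of_ne h]

theorem pr_sub {d : ℕ} (N : ℕ) (x : Fin d → ℤ) (i : Fin d) :
    pr N (x - Pi.single i 1) = pr N x - Pi.single i 1 := by
  funext j
  unfold pr
  by_cases h : j = i
  · subst h; simp
  · simp [Pi.single_eq_of_ne h]

theorem pr_eq_zero {d N : ℕ} {x : Fin d → ℤ} (hx : ∀ i, |x i| ≤ (N : ℤ)) :
    pr N x = 0 ↔ x = 0 := by
  constructor
  · intro h
    funext i
    have h1 : ((x i : ℤ) : ZMod (2 * N + 1)) = 0 := congrFun h i
    rw [ZMod.intCast_zmod_eq_zero_iff_dvd] at h1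
    rw [Pi.zero_apply]
    apply Int.eq_zero_of_abs_lt_dvd h1
    have := hx i
    push_cast
    omega
  · rintro rfl
    funext i
    simp [pr]

/-- every point of the torus comes from the box -/
theorem exists_pr {d : ℕ} (N : ℕ) (y : T d (2 * N + 1)) :
    ∃ x : Fin d → ℤ, (∀ i, |x i| ≤ (N : ℤ)) ∧ pr N x = y := by
  refine ⟨fun i => (y i).valMinAbs, fun i => ?_, ?_⟩
  · have h := (y i).valMinAbs_mem_Ioc
    rw [Set.mem_Ioc] at h
    push_cast at h
    show |(y i).valMinAbs| ≤ (N : ℤ)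
    rw [abs_le]
    constructor <;> omega
  · funext i
    exact (y i).coe_valMinAbs

section

variable {d N : ℕ} {lam : ℝ} {ω : (Fin d → ℤ) → ℝ} {H : L2 d →L[ℂ] L2 d}
  {V : T d (2 * N + 1) → ℝ}

/-- the powers on the lattice -/
noncomputable def F (H : L2 d →L[ℂ] L2 d) (n : ℕ) (x : Fin d → ℤ) : ℂ := ((H ^ n) (delta0 d)) x

/-- the powers on the torus -/
noncomputable def G (lam : ℝ) (V : T d (2 * N + 1) → ℝ) (n : ℕ) (y : T d (2 * N + 1)) : ℂ :=
  ((HC lam V ^ n) (EuclideanSpace.single 0 1)) y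

theorem F_succ (hH : IsAnderson lam ω H) (n : ℕ) (x : Fin d → ℤ) :
    F H (n + 1) x = ∑ i : Fin d, (2 * F H n x - F H n (x + Pi.single i 1) -
      F H n (x - Pi.single i 1)) + ((lam * ω x : ℝ) : ℂ) * F H n x := by
  unfold F
  rw [pow_succ']
  exact hH ((H ^ n) (delta0 d)) x

theorem G_succ (n : ℕ) (y : T d (2 * N + 1)) :
    G lam V (n + 1) y = ∑ i : Fin d, (2 * G lam V n y - G lam V n (y + Pi.single i 1) -
      G lam V n (y - Pi.single i 1)) + ((lam * V y : ℝ) : ℂ) * G lam V n y := by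
  unfold G
  rw [pow_succ']
  rfl

theorem F_zero (x : Fin d → ℤ) : F H 0 x = if x = 0 then 1 else 0 := by
  unfold F delta0
  rw [pow_zero]
  show (lp.single (E := fun _ : Fin d → ℤ => ℂ) 2 (0 : Fin d → ℤ) (1 : ℂ)) x = _
  rw [lp.single_apply, Pi.single_apply]

theorem G_zero (y : T d (2 * N + 1)) : G lam V 0 y = if y = 0 then 1 else 0 := by
  unfold G
  rw [pow_zero]
  show (EuclideanSpace.single (0 : T d (2 * N + 1)) (1 : ℂ)) y = _
  rw [PiLp.single_apply]

theorem F_supp (hH : IsAnderson lam ω H) (n : ℕ) : ∀ (x : Fin d → ℤ) (i : Fin d),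
    (n : ℤ) < |x i| → F H n x = 0 := by
  induction n with
  | zero =>
    intro x i hx
    rw [F_zero, if_neg]
    rintro rfl
    simp at hx
  | succ n ih =>
    intro x i hx
    push_cast at hx
    rw [F_succ hH]
    have h0 : F H n x = 0 := ih x i (by omega)
    have h1 : ∀ j : Fin d, F H n (x + Pi.single j 1) = 0 := by
      intro j
      apply ih _ i
      by_cases h : i = j
      · subst h
        rw [Pi.add_apply, Pi.single_eq_same]
        rcases abs_cases (x i) with h1 | h1 <;> rcases abs_cases (x i + 1) with h2 | h2 <;> omega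
      · rw [Pi.add_apply, Pi.single_eq_of_ne h, add_zero]
        omega
    have h2 : ∀ j : Fin d, F H n (x - Pi.single j 1) = 0 := by
      intro j
      apply ih _ i
      by_cases h : i = j
      · subst h
        rw [Pi.sub_apply, Pi.single_eq_same]
        rcases abs_cases (x i) with h1 | h1 <;> rcases abs_cases (x i - 1) with h2 | h2 <;> omega
      · rw [Pi.sub_apply, Pi.single_eq_of_ne h, sub_zero]
        omega
    simp [h0, h1, h2]

theorem F_eq_G (hH : IsAnderson lam ω H)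
    (hV : ∀ x : Fin d → ℤ, (∀ i, |x i| ≤ (N : ℤ)) → V (pr N x) = ω x) (n : ℕ) (hn : n ≤ N) :
    ∀ x : Fin d → ℤ, (∀ i, |x i| ≤ (N : ℤ)) → F H n x = G lam V n (pr N x) := by
  induction n with
  | zero =>
    intro x hx
    rw [F_zero, G_zero]
    by_cases h : x = 0
    · rw [if_pos h, if_pos ((pr_eq_zero hx).2 h)]
    · rw [if_neg h, if_neg (fun h' => h ((pr_eq_zero hx).1 h'))]
  | succ n ih =>
    intro x hx
    have ih' := ih (by omega)
    -- values just outside of the box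
    have key : ∀ (y : Fin d → ℤ) (i : Fin d), (∀ j, j ≠ i → |y j| ≤ (N : ℤ)) →
        |y i| ≤ (N : ℤ) + 1 → F H n y = G lam V n (pr N y) := by
      intro y i h1 h2
      by_cases h3 : |y i| ≤ (N : ℤ)
      · apply ih'
        intro j
        by_cases h : j = i
        · subst h; exact h3
        · exact h1 j h
      · have h4 : |y i| = (N : ℤ) + 1 := by omega
        have h5 : F H n y = 0 := F_supp hH n y i (by omega)
        rw [h5]
        -- the other representative
        have h6 : ∃ z : ℤ, |z| = (N : ℤ) ∧ ((z : ℤ) : ZMod (2 * N + 1)) = ((y i : ℤ) : ZMod _) := by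
          rcases abs_cases (y i) with h | h
          · refine ⟨-N, by simp, ?_⟩
            have e : y i = -N + ((2 * N + 1 : ℕ) : ℤ) := by push_cast; omega
            rw [e, Int.cast_add, Int.cast_natCast, ZMod.natCast_self, add_zero]
          · refine ⟨N, by simp, ?_⟩
            have e : (N : ℤ) = y i + ((2 * N + 1 : ℕ) : ℤ) := by push_cast; omega
            rw [e, Int.cast_add, Int.cast_natCast, ZMod.natCast_self, add_zero]
        obtain ⟨z, hz1, hz2⟩ := h6
        have h7 : pr N (Function.update y i z) = pr N y := by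
          funext j
          unfold pr
          by_cases h : j = i
          · subst h
            rw [Function.update_self]
            exact hz2
          · rw [Function.update_of_ne h]
        have h8 : ∀ j, |Function.update y i z j| ≤ (N : ℤ) := by
          intro j
          by_cases h : j = i
          · subst h
            rw [Function.update_self, hz1]
          · rw [Function.update_of_ne h]
            exact h1 j h
        rw [← h7, ← ih' _ h8]
        symm
        apply F_supp hH n _ i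
        rw [Function.update_self, hz1]
        omega
    rw [F_succ hH, G_succ, hV x hx, ih' x hx]
    congr 1
    refine Finset.sum_congr rfl fun i _ => ?_
    rw [← pr_add, ← pr_sub, key (x + Pi.single i 1) i, key (x - Pi.single i 1) i]
    · intro j hj
      rw [Pi.sub_apply, Pi.single_eq_of_ne hj, sub_zero]
      exact hx j
    · rw [Pi.sub_apply, Pi.single_eq_same]
      have := hx i
      rcases abs_cases (x i) with h1 | h1 <;> rcases abs_cases (x i - 1) with h2 | h2 <;> omega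
    · intro j hj
      rw [Pi.add_apply, Pi.single_eq_of_ne hj, add_zero]
      exact hx j
    · rw [Pi.add_apply, Pi.single_eq_same]
      have := hx i
      rcases abs_cases (x i) with h1 | h1 <;> rcases abs_cases (x i + 1) with h2 | h2 <;> omega

/-- one step of the sup bound -/
theorem step_bound {a c : ℂ} {b b' : Fin d → ℂ} {M : ℝ} (ha : ‖a‖ ≤ M)
    (hb : ∀ i, ‖b i‖ ≤ M) (hb' : ∀ i, ‖b' i‖ ≤ M) (hc : ‖c‖ ≤ 1) :
    ‖∑ i : Fin d, (2 * a - b i - b' i) + c * a‖ ≤ (4 * (d : ℝ) + 1) * M := by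
  have h1 : ‖∑ i : Fin d, (2 * a - b i - b' i)‖ ≤ ∑ _i : Fin d, (4 * M) := by
    refine norm_sum_le_of_le _ fun i _ => ?_
    calc ‖2 * a - b i - b' i‖ ≤ ‖2 * a - b i‖ + ‖b' i‖ := norm_sub_le _ _
      _ ≤ (‖2 * a‖ + ‖b i‖) + ‖b' i‖ := by gcongr; exact norm_sub_le _ _
      _ ≤ (2 * M + M) + M := by
          have : ‖2 * a‖ = 2 * ‖a‖ := by rw [norm_mul]; norm_num
          rw [this]
          have := hb i
          have := hb' i
          linarith
      _ = 4 * M := by ring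
  have h2 : ‖c * a‖ ≤ 1 * M := by
    rw [norm_mul]
    exact mul_le_mul hc ha (norm_nonneg _) zero_le_one
  rw [Finset.sum_const, Finset.card_univ, Fintype.card_fin, nsmul_eq_mul] at h1
  calc _ ≤ ‖∑ i : Fin d, (2 * a - b i - b' i)‖ + ‖c * a‖ := norm_add_le _ _
    _ ≤ d * (4 * M) + 1 * M := add_le_add h1 h2
    _ = (4 * (d : ℝ) + 1) * M := by ring

theorem pot_bound {r : ℝ} (hlam : 0 ≤ lam) (hlam' : lam ≤ 1) (hr : |r| ≤ 1) :
    ‖((lam * r : ℝ) : ℂ)‖ ≤ 1 := by
  rw [Complex.norm_real, Real.norm_eq_abs, abs_mul, abs_of_nonneg hlam]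
  calc lam * |r| ≤ 1 * 1 := mul_le_mul hlam' hr (abs_nonneg _) zero_le_one
    _ = 1 := one_mul 1

theorem F_bound (hlam : 0 ≤ lam) (hlam' : lam ≤ 1) (hω : ∀ x, |ω x| ≤ 1)
    (hH : IsAnderson lam ω H) (n : ℕ) : ∀ x, ‖F H n x‖ ≤ (4 * (d : ℝ) + 1) ^ n := by
  induction n with
  | zero =>
    intro x
    rw [F_zero]
    split_ifs <;> simp
  | succ n ih =>
    intro x
    rw [F_succ hH, pow_succ']
    exact step_bound (ih _) (fun i => ih _) (fun i => ih _)
      (pot_bound hlam hlam' (hω x))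

theorem G_bound (hlam : 0 ≤ lam) (hlam' : lam ≤ 1) (hV : ∀ y, |V y| ≤ 1) (n : ℕ) :
    ∀ y, ‖G lam V n y‖ ≤ (4 * (d : ℝ) + 1) ^ n := by
  induction n with
  | zero =>
    intro x
    rw [G_zero]
    split_ifs <;> simp
  | succ n ih =>
    intro x
    rw [G_succ, pow_succ']
    exact step_bound (ih _) (fun i => ih _) (fun i => ih _)
      (pot_bound hlam hlam' (hV x))

/-- the coefficient of the exponential series -/
noncomputable def co (t : ℝ) (n : ℕ) : ℂ := ((n ! : ℂ))⁻¹ * (-(t : ℂ) * Complex.I) ^ n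

theorem norm_co {t : ℝ} (ht : 0 ≤ t) (n : ℕ) : ‖co t n‖ = t ^ n / n ! := by
  unfold co
  rw [norm_mul, norm_inv, norm_pow, norm_mul, Complex.norm_I, norm_neg, Complex.norm_real,
    Real.norm_of_nonneg ht, mul_one, Complex.norm_natCast]
  field_simp

theorem hasSum_amp (H : L2 d →L[ℂ] L2 d) (t : ℝ) (x : Fin d → ℤ) :
    HasSum (fun n => co t n * F H n x) (amp H t x) := by
  have h := NormedSpace.exp_series_hasSum_exp' (𝕂 := ℂ) ((-(t : ℂ) * Complex.I) • H)
  have h2 := (h.mapL (ContinuousLinearMap.apply ℂ (L2 d) (delta0 d))).mapL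
    (lp.evalCLM ℂ (fun _ : Fin d → ℤ => ℂ) 2 x)
  have e : (fun n => co t n * F H n x) = fun b => (lp.evalCLM ℂ (fun _ : Fin d → ℤ => ℂ) 2 x)
      ((ContinuousLinearMap.apply ℂ (L2 d) (delta0 d))
        (((b ! : ℂ))⁻¹ • ((-(t : ℂ) * Complex.I) • H) ^ b)) := by
    funext n
    rw [smul_pow, smul_smul]
    rfl
  rw [e]
  exact h2

theorem hasSum_ampT (t : ℝ) (y : T d (2 * N + 1)) :
    HasSum (fun n => co t n * G lam V n y) (ampT lam V t y) := by
  have h := NormedSpace.exp_series_hasSum_exp' (𝕂 := ℂ) ((-(t : ℂ) * Complex.I) • HC lam V)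
  have h2 := (h.mapL (ContinuousLinearMap.apply ℂ (EuclideanSpace ℂ (T d (2 * N + 1)))
    (EuclideanSpace.single 0 1))).mapL (EuclideanSpace.proj (𝕜 := ℂ) y)
  have e : (fun n => co t n * G lam V n y) = fun b => (EuclideanSpace.proj (𝕜 := ℂ) y)
      ((ContinuousLinearMap.apply ℂ (EuclideanSpace ℂ (T d (2 * N + 1)))
        (EuclideanSpace.single 0 1))
        (((b ! : ℂ))⁻¹ • ((-(t : ℂ) * Complex.I) • HC lam V) ^ b)) := by
    funext n
    rw [smul_pow, smul_smul]
    rfl
  rw [e]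
  exact h2

/-- the tail of the exponential series -/
theorem co_bound {t : ℝ} (ht : 0 ≤ t) {n : ℕ}
    (hn : Real.exp 2 * (4 * (d : ℝ) + 1) * t ≤ (n : ℝ)) :
    ‖co t n‖ * (4 * (d : ℝ) + 1) ^ n ≤ Real.exp (-(n : ℝ)) := by
  rw [norm_co ht]
  have h1 := Real.pow_div_factorial_le_exp (x := (n : ℝ)) (Nat.cast_nonneg n) n
  have h2 : t * (4 * (d : ℝ) + 1) ≤ Real.exp (-2) * n := by
    have h3 : Real.exp (-2) * (Real.exp 2 * (4 * (d : ℝ) + 1) * t) ≤ Real.exp (-2) * n :=
      mul_le_mul_of_nonneg_left hn (Real.exp_pos _).le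
    have h4 : Real.exp (-2) * (Real.exp 2 * (4 * (d : ℝ) + 1) * t) = t * (4 * (d : ℝ) + 1) := by
      have h5 : Real.exp (-2) * Real.exp 2 = 1 := by
        rw [← Real.exp_add]; norm_num
      calc _ = (Real.exp (-2) * Real.exp 2) * (t * (4 * (d : ℝ) + 1)) := by ring
        _ = _ := by rw [h5, one_mul]
    linarith
  have h6 : (t * (4 * (d : ℝ) + 1)) ^ n ≤ (Real.exp (-2) * n) ^ n :=
    pow_le_pow_left₀ (by positivity) h2 n
  have h7 : (0 : ℝ) < (n ! : ℝ) := by positivity
  calc t ^ n / n ! * (4 * (d : ℝ) + 1) ^ n = (t * (4 * (d : ℝ) + 1)) ^ n / n ! := by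
        rw [mul_pow]; ring
    _ ≤ (Real.exp (-2) * n) ^ n / n ! := by gcongr
    _ = Real.exp (-2) ^ n * ((n : ℝ) ^ n / n !) := by rw [mul_pow]; ring
    _ ≤ Real.exp (-2) ^ n * Real.exp n := by gcongr
    _ = Real.exp (-(n : ℝ)) := by
        rw [← Real.exp_nat_mul, ← Real.exp_add]
        congr 1
        ring

end

theorem loc (d N : ℕ) (lam t : ℝ) (hlam : 0 ≤ lam) (hlam' : lam ≤ 1) (ht : 0 ≤ t)
    (hN : Real.exp 2 * (4 * (d : ℝ) + 1) * t ≤ (N : ℝ)) (ω : (Fin d → ℤ) → ℝ)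
    (hω : ∀ x, |ω x| ≤ 1) (H : L2 d →L[ℂ] L2 d) (hH : IsAnderson lam ω H)
    (V : T d (2 * N + 1) → ℝ)
    (hV : ∀ x : Fin d → ℤ, (∀ i, |x i| ≤ (N : ℤ)) → V (fun i => ((x i : ℤ) : ZMod (2 * N + 1))) = ω x)
    (x : Fin d → ℤ) (hx : ∀ i, |x i| ≤ (N : ℤ)) :
    ‖amp H t x - ampT lam V t (fun i => ((x i : ℤ) : ZMod (2 * N + 1)))‖ ≤
      2 * Real.exp (-(N : ℝ)) := by
  have hV' : ∀ y, |V y| ≤ 1 := by
    intro y
    obtain ⟨z, hz, rfl⟩ := exists_pr N y
    have := hV z hz
    rw [show pr N z = (fun i => ((z i : ℤ) : ZMod (2 * N + 1))) from rfl, this]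
    exact hω z
  have h1 := (hasSum_amp H t x).sub (hasSum_ampT (lam := lam) (V := V) t (pr N x))
  have h2 : ∀ n ∈ Finset.range (N + 1), co t n * F H n x - co t n * G lam V n (pr N x) = 0 := by
    intro n hn
    rw [F_eq_G hH hV n (by simpa [Nat.lt_succ_iff] using hn) x hx, sub_self]
  have h3 : HasSum (fun n => co t (n + (N + 1)) * F H (n + (N + 1)) x -
      co t (n + (N + 1)) * G lam V (n + (N + 1)) (pr N x))
      (amp H t x - ampT lam V t (pr N x)) := by
    rw [hasSum_nat_add_iff (f := fun n => co t n * F H n x - co t n * G lam V n (pr N x)),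
      Finset.sum_eq_zero h2, add_zero]
    exact h1
  refine h3.norm_le_of_bounded (hasSum_geometric_two' (2 * Real.exp (-(N : ℝ)))) fun n => ?_
  have hn : Real.exp 2 * (4 * (d : ℝ) + 1) * t ≤ ((n + (N + 1) : ℕ) : ℝ) := by
    push_cast
    have : (0 : ℝ) ≤ (n : ℝ) := Nat.cast_nonneg n
    linarith
  have h4 := co_bound ht hn
  have h5 := F_bound hlam hlam' hω hH (n + (N + 1)) x
  have h6 := G_bound hlam hlam' hV' (n + (N + 1)) (pr N x)
  rw [← mul_sub, norm_mul]
  have h7 : ‖F H (n + (N + 1)) x - G lam V (n + (N + 1)) (pr N x)‖ ≤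
      2 * (4 * (d : ℝ) + 1) ^ (n + (N + 1)) := by
    refine (norm_sub_le _ _).trans ?_
    linarith
  have h8 : Real.exp (-((n + (N + 1) : ℕ) : ℝ)) ≤ Real.exp (-(N : ℝ)) / 2 / 2 ^ n := by
    have e1 : Real.exp (-((n + (N + 1) : ℕ) : ℝ)) = Real.exp (-(N : ℝ)) * Real.exp (-1) ^ (n + 1) := by
      rw [← Real.exp_nat_mul, ← Real.exp_add]
      congr 1
      push_cast
      ring
    have e2 : Real.exp (-1) ≤ 1 / 2 := by
      rw [Real.exp_neg, ← one_div]
      apply one_div_le_one_div_of_le (by norm_num)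
      have := Real.add_one_le_exp (1 : ℝ)
      linarith
    have e3 : Real.exp (-1) ^ (n + 1) ≤ (1 / 2) ^ (n + 1) :=
      pow_le_pow_left₀ (Real.exp_pos _).le e2 _
    rw [e1]
    calc Real.exp (-(N : ℝ)) * Real.exp (-1) ^ (n + 1)
        ≤ Real.exp (-(N : ℝ)) * (1 / 2) ^ (n + 1) := by gcongr
      _ = Real.exp (-(N : ℝ)) / 2 / 2 ^ n := by
          rw [pow_succ, one_div, inv_pow]
          field_simp
  calc ‖co t (n + (N + 1))‖ * ‖F H (n + (N + 1)) x - G lam V (n + (N + 1)) (pr N x)‖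
      ≤ ‖co t (n + (N + 1))‖ * (2 * (4 * (d : ℝ) + 1) ^ (n + (N + 1))) := by gcongr
    _ = 2 * (‖co t (n + (N + 1))‖ * (4 * (d : ℝ) + 1) ^ (n + (N + 1))) := by ring
    _ ≤ 2 * Real.exp (-((n + (N + 1) : ℕ) : ℝ)) := by gcongr
    _ ≤ 2 * (Real.exp (-(N : ℝ)) / 2 / 2 ^ n) := by gcongr
    _ = 2 * Real.exp (-(N : ℝ)) / 2 / 2 ^ n := by ring

end Pool.Agent.H4R2.AE.Loc
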