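import Pool.Agent.H4R2.AE.Defs2
import Pool.Agent.H4R2.AE.Loc

/-!
# Locality for general initial data
-/

set_option autoImplicit false

open scoped BigOperators Nat

namespace Pool.Agent.H4R2.AE.Wloc

open Pool.Agent.H4R2.AE.Loc

/-! ### Norm bounds -/

/-- one step of the `ℓ²` bound -/
theorem step_sq {d : ℕ} {a c : ℂ} {b b' : Fin d → ℂ} (hc : ‖c‖ ≤ 1) :
    ‖∑ i : Fin d, (2 * a - b i - b' i) + c * a‖ ^ 2 ≤
      (4 * (d : ℝ) + 1) * (∑ i : Fin d, (2 * ‖a‖ ^ 2 + ‖b i‖ ^ 2 + ‖b' i‖ ^ 2) + ‖a‖ ^ 2) := by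
  set X := ∑ i : Fin d, (2 * ‖a‖ + ‖b i‖ + ‖b' i‖) with hX
  set Q := ∑ i : Fin d, (2 * ‖a‖ ^ 2 + ‖b i‖ ^ 2 + ‖b' i‖ ^ 2) with hQ
  have hX0 : 0 ≤ X := Finset.sum_nonneg fun i _ => by positivity
  have hQ0 : 0 ≤ Q := Finset.sum_nonneg fun i _ => by positivity
  have hd : (0 : ℝ) ≤ d := Nat.cast_nonneg d
  have h1 : ‖∑ i : Fin d, (2 * a - b i - b' i) + c * a‖ ≤ X + ‖a‖ := by
    refine (norm_add_le _ _).trans (add_le_add ?_ ?_)
    · refine norm_sum_le_of_le _ fun i _ => ?_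
      calc ‖2 * a - b i - b' i‖ ≤ ‖2 * a - b i‖ + ‖b' i‖ := norm_sub_le _ _
        _ ≤ (‖2 * a‖ + ‖b i‖) + ‖b' i‖ := by gcongr; exact norm_sub_le _ _
        _ = 2 * ‖a‖ + ‖b i‖ + ‖b' i‖ := by
            have : ‖2 * a‖ = 2 * ‖a‖ := by rw [norm_mul]; norm_num
            rw [this]
    · rw [norm_mul]
      calc ‖c‖ * ‖a‖ ≤ 1 * ‖a‖ := mul_le_mul_of_nonneg_right hc (norm_nonneg _)
        _ = ‖a‖ := one_mul _
  have h2 : X ^ 2 ≤ 4 * d * Q := by
    have h3 := sq_sum_le_card_mul_sum_sq (s := (Finset.univ : Finset (Fin d)))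
      (f := fun i => 2 * ‖a‖ + ‖b i‖ + ‖b' i‖)
    rw [Finset.card_univ, Fintype.card_fin] at h3
    have h4 : ∑ i : Fin d, (2 * ‖a‖ + ‖b i‖ + ‖b' i‖) ^ 2 ≤ 4 * Q := by
      rw [hQ, Finset.mul_sum]
      refine Finset.sum_le_sum fun i _ => ?_
      nlinarith [sq_nonneg (‖a‖ - ‖b i‖), sq_nonneg (‖a‖ - ‖b' i‖), sq_nonneg (‖b i‖ - ‖b' i‖)]
    calc X ^ 2 ≤ d * ∑ i : Fin d, (2 * ‖a‖ + ‖b i‖ + ‖b' i‖) ^ 2 := h3
      _ ≤ d * (4 * Q) := mul_le_mul_of_nonneg_left h4 hd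
      _ = 4 * d * Q := by ring
  have h5 : 2 * X * ‖a‖ ≤ Q + 4 * d * ‖a‖ ^ 2 := by
    have h6 : (2 * X * ‖a‖) ^ 2 ≤ (Q + 4 * d * ‖a‖ ^ 2) ^ 2 := by
      have h7 : X ^ 2 * ‖a‖ ^ 2 ≤ 4 * d * Q * ‖a‖ ^ 2 :=
        mul_le_mul_of_nonneg_right h2 (sq_nonneg _)
      nlinarith [sq_nonneg (Q - 4 * d * ‖a‖ ^ 2)]
    exact le_of_sq_le_sq h6 (by positivity)
  calc ‖∑ i : Fin d, (2 * a - b i - b' i) + c * a‖ ^ 2 ≤ (X + ‖a‖) ^ 2 :=
        pow_le_pow_left₀ (norm_nonneg _) h1 2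
    _ ≤ (4 * (d : ℝ) + 1) * (Q + ‖a‖ ^ 2) := by nlinarith

/-- the square of the norm in `ℓ²` -/
theorem hasSum_sq {d : ℕ} (f : L2 d) : HasSum (fun x => ‖f x‖ ^ 2) (‖f‖ ^ 2) := by
  have h := lp.hasSum_norm (p := 2) (by norm_num) f
  have e : (2 : ENNReal).toReal = 2 := by norm_num
  rw [e] at h
  simpa only [Real.rpow_two] using h

/-- shifting a summable family -/
theorem hasSum_add {d : ℕ} {F : (Fin d → ℤ) → ℝ} {A : ℝ} (h : HasSum F A) (v : Fin d → ℤ) :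
    HasSum (fun x => F (x + v)) A := by
  have h1 := (Equiv.addRight v).hasSum_iff (f := F) (a := A)
  exact h1.mpr h

theorem hasSum_sub {d : ℕ} {F : (Fin d → ℤ) → ℝ} {A : ℝ} (h : HasSum F A) (v : Fin d → ℤ) :
    HasSum (fun x => F (x - v)) A := by
  have h1 := (Equiv.subRight v).hasSum_iff (f := F) (a := A)
  exact h1.mpr h

/-- sum of the bounds over the lattice -/
theorem hasSum_bound {d : ℕ} {F : (Fin d → ℤ) → ℝ} {A : ℝ} (h : HasSum F A) :
    HasSum (fun x => (4 * (d : ℝ) + 1) * (∑ i : Fin d, (2 * F x +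
      F (x + Pi.single i 1) + F (x - Pi.single i 1)) + F x))
      ((4 * (d : ℝ) + 1) * (∑ _i : Fin d, (2 * A + A + A) + A)) := by
  refine HasSum.mul_left _ (HasSum.add (hasSum_sum fun i _ => ?_) h)
  exact ((h.mul_left 2).add (hasSum_add h _)).add (hasSum_sub h _)

theorem norm_H {d : ℕ} {lam : ℝ} {ω : (Fin d → ℤ) → ℝ} {H : L2 d →L[ℂ] L2 d} (hlam : 0 ≤ lam)
    (hlam' : lam ≤ 1) (hω : ∀ x, |ω x| ≤ 1) (hH : IsAnderson lam ω H) (f : L2 d) :
    ‖H f‖ ≤ (4 * (d : ℝ) + 1) * ‖f‖ := by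
  have hd : (0 : ℝ) ≤ d := Nat.cast_nonneg d
  have h1 := hasSum_sq (H f)
  have h5 := hasSum_bound (hasSum_sq f)
  have h6 : ‖H f‖ ^ 2 ≤ (4 * (d : ℝ) + 1) *
      (∑ _i : Fin d, (2 * ‖f‖ ^ 2 + ‖f‖ ^ 2 + ‖f‖ ^ 2) + ‖f‖ ^ 2) := by
    refine hasSum_le (fun x => ?_) h1 h5
    rw [hH f x]
    exact step_sq (pot_bound hlam hlam' (hω x))
  rw [Finset.sum_const, Finset.card_univ, Fintype.card_fin, nsmul_eq_mul] at h6
  refine le_of_sq_le_sq ?_ (by positivity)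
  calc ‖H f‖ ^ 2 ≤ _ := h6
    _ = ((4 * (d : ℝ) + 1) * ‖f‖) ^ 2 := by ring

theorem sum_add_T {d L : ℕ} [NeZero L] (F : T d L → ℝ) (v : T d L) :
    ∑ x, F (x + v) = ∑ x, F x :=
  Fintype.sum_equiv (Equiv.addRight v) _ _ (fun _ => rfl)

theorem sum_sub_T {d L : ℕ} [NeZero L] (F : T d L → ℝ) (v : T d L) :
    ∑ x, F (x - v) = ∑ x, F x :=
  Fintype.sum_equiv (Equiv.subRight v) _ _ (fun _ => rfl)

/-- sum of the bounds over the torus -/
theorem sum_bound_T {d L : ℕ} [NeZero L] (F : T d L → ℝ) :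
    ∑ x, (4 * (d : ℝ) + 1) * (∑ i : Fin d, (2 * F x + F (x + Pi.single i 1) +
      F (x - Pi.single i 1)) + F x) =
      (4 * (d : ℝ) + 1) * (∑ _i : Fin d, (2 * (∑ x, F x) + (∑ x, F x) + (∑ x, F x)) +
        ∑ x, F x) := by
  rw [← Finset.mul_sum, Finset.sum_add_distrib, Finset.sum_comm]
  congr 2
  refine Finset.sum_congr rfl fun i _ => ?_
  rw [Finset.sum_add_distrib, Finset.sum_add_distrib, ← Finset.mul_sum, sum_add_T, sum_sub_T]

theorem norm_HC {d L : ℕ} [NeZero L] {lam : ℝ} {V : T d L → ℝ} (hlam : 0 ≤ lam)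
    (hlam' : lam ≤ 1) (hV : ∀ x, |V x| ≤ 1) (f : EuclideanSpace ℂ (T d L)) :
    ‖HC lam V f‖ ≤ (4 * (d : ℝ) + 1) * ‖f‖ := by
  have hd : (0 : ℝ) ≤ d := Nat.cast_nonneg d
  have h2 : ‖f‖ ^ 2 = ∑ x, ‖f x‖ ^ 2 := EuclideanSpace.norm_sq_eq f
  have h1 : ‖HC lam V f‖ ^ 2 = ∑ x, ‖(HC lam V f) x‖ ^ 2 := EuclideanSpace.norm_sq_eq _
  have h6 : ‖HC lam V f‖ ^ 2 ≤ (4 * (d : ℝ) + 1) *
      (∑ _i : Fin d, (2 * ‖f‖ ^ 2 + ‖f‖ ^ 2 + ‖f‖ ^ 2) + ‖f‖ ^ 2) := by
    rw [h1, h2, ← sum_bound_T (fun x => ‖f x‖ ^ 2)]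
    exact Finset.sum_le_sum fun x _ => step_sq (pot_bound hlam hlam' (hV x))
  rw [Finset.sum_const, Finset.card_univ, Fintype.card_fin, nsmul_eq_mul] at h6
  refine le_of_sq_le_sq ?_ (by positivity)
  calc ‖HC lam V f‖ ^ 2 ≤ _ := h6
    _ = ((4 * (d : ℝ) + 1) * ‖f‖) ^ 2 := by ring

/-- tail of the exponential series applied to a vector -/
theorem exp_tail {E : Type} [NormedAddCommGroup E] [NormedSpace ℂ E] [CompleteSpace E]
    (A : E →L[ℂ] E) (d K : ℕ) (t : ℝ) (ht : 0 ≤ t)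
    (hK : Real.exp 2 * (4 * (d : ℝ) + 1) * t ≤ (K : ℝ))
    (hA : ∀ f, ‖A f‖ ≤ (4 * (d : ℝ) + 1) * ‖f‖) (g : E) :
    ‖NormedSpace.exp ((-(t : ℂ) * Complex.I) • A) g -
      ∑ n ∈ Finset.range (K + 1), co t n • (A ^ n) g‖ ≤ Real.exp (-(K : ℝ)) * ‖g‖ := by
  have hpow : ∀ n, ‖(A ^ n) g‖ ≤ (4 * (d : ℝ) + 1) ^ n * ‖g‖ := by
    intro n
    induction n with
    | zero => simp
    | succ n ih =>
      rw [pow_succ', pow_succ']
      show ‖A ((A ^ n) g)‖ ≤ _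
      refine (hA _).trans ?_
      rw [mul_assoc]
      exact mul_le_mul_of_nonneg_left ih (by positivity)
  have h1 : HasSum (fun n => co t n • (A ^ n) g) (NormedSpace.exp ((-(t : ℂ) * Complex.I) • A) g) := by
    have h := NormedSpace.exp_series_hasSum_exp' (𝕂 := ℂ) ((-(t : ℂ) * Complex.I) • A)
    have h2 := h.mapL (ContinuousLinearMap.apply ℂ E g)
    have e : (fun n => co t n • (A ^ n) g) = fun b => (ContinuousLinearMap.apply ℂ E g)
        (((b ! : ℂ))⁻¹ • ((-(t : ℂ) * Complex.I) • A) ^ b) := by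
      funext n
      rw [smul_pow, smul_smul]
      rfl
    rw [e]
    exact h2
  have h3 : HasSum (fun n => co t (n + (K + 1)) • (A ^ (n + (K + 1))) g)
      (NormedSpace.exp ((-(t : ℂ) * Complex.I) • A) g -
        ∑ n ∈ Finset.range (K + 1), co t n • (A ^ n) g) := by
    rw [hasSum_nat_add_iff (f := fun n => co t n • (A ^ n) g), sub_add_cancel]
    exact h1
  refine h3.norm_le_of_bounded (hasSum_geometric_two' (Real.exp (-(K : ℝ)) * ‖g‖)) fun n => ?_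
  have hn : Real.exp 2 * (4 * (d : ℝ) + 1) * t ≤ ((n + (K + 1) : ℕ) : ℝ) := by
    push_cast
    have : (0 : ℝ) ≤ (n : ℝ) := Nat.cast_nonneg n
    linarith
  have h4 := co_bound ht hn
  have h8 : Real.exp (-((n + (K + 1) : ℕ) : ℝ)) ≤ Real.exp (-(K : ℝ)) / 2 / 2 ^ n := by
    have e1 : Real.exp (-((n + (K + 1) : ℕ) : ℝ)) =
        Real.exp (-(K : ℝ)) * Real.exp (-1) ^ (n + 1) := by
      rw [← Real.exp_nat_mul, ← Real.exp_add]
      congr 1
      push_cast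
      ring
    have e2 : Real.exp (-1) ≤ 1 / 2 := by
      rw [Real.exp_neg, ← one_div]
      apply one_div_le_one_div_of_le (by norm_num)
      have := Real.add_one_le_exp (1 : ℝ)
      linarith
    have e3 : Real.exp (-1) ^ (n + 1) ≤ (1 / 2) ^ (n + 1) :=
      pow_le_pow_left₀ (Real.exp_pos _).le e2 _
    rw [e1]
    calc Real.exp (-(K : ℝ)) * Real.exp (-1) ^ (n + 1)
        ≤ Real.exp (-(K : ℝ)) * (1 / 2) ^ (n + 1) := by gcongr
      _ = Real.exp (-(K : ℝ)) / 2 / 2 ^ n := by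
          rw [pow_succ, one_div, inv_pow]
          field_simp
  rw [norm_smul]
  calc ‖co t (n + (K + 1))‖ * ‖(A ^ (n + (K + 1))) g‖
      ≤ ‖co t (n + (K + 1))‖ * ((4 * (d : ℝ) + 1) ^ (n + (K + 1)) * ‖g‖) :=
        mul_le_mul_of_nonneg_left (hpow _) (norm_nonneg _)
    _ = (‖co t (n + (K + 1))‖ * (4 * (d : ℝ) + 1) ^ (n + (K + 1))) * ‖g‖ := by ring
    _ ≤ (Real.exp (-(K : ℝ)) / 2 / 2 ^ n) * ‖g‖ :=
        mul_le_mul_of_nonneg_right (h4.trans h8) (norm_nonneg _)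
    _ = Real.exp (-(K : ℝ)) * ‖g‖ / 2 / 2 ^ n := by ring

/-! ### Transfer between the lattice and the torus -/

/-- `f` is supported in the box of radius `M` and `f'` is the corresponding function on the torus -/
def Rel {d N : ℕ} (M : ℕ) (f : L2 d) (f' : EuclideanSpace ℂ (T d (2 * N + 1))) : Prop :=
  (∀ x : Fin d → ℤ, (∃ i, (M : ℤ) < |x i|) → f x = 0) ∧
    ∀ x : Fin d → ℤ, (∀ i, |x i| ≤ (N : ℤ)) → f' (pr N x) = f x

theorem Rel.mono {d N M M' : ℕ} {f : L2 d} {f' : EuclideanSpace ℂ (T d (2 * N + 1))}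
    (h : Rel M f f') (hM : M ≤ M') : Rel M' f f' := by
  refine ⟨fun x hx => h.1 x ?_, h.2⟩
  obtain ⟨i, hi⟩ := hx
  exact ⟨i, lt_of_le_of_lt (by exact_mod_cast hM) hi⟩

theorem Rel.add {d N M : ℕ} {f k : L2 d} {f' k' : EuclideanSpace ℂ (T d (2 * N + 1))}
    (h : Rel M f f') (h' : Rel M k k') : Rel M (f + k) (f' + k') := by
  refine ⟨fun x hx => ?_, fun x hx => ?_⟩
  · rw [lp.coeFn_add, Pi.add_apply, h.1 x hx, h'.1 x hx, add_zero]
  · rw [lp.coeFn_add, Pi.add_apply, ← h.2 x hx, ← h'.2 x hx]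
    rfl

theorem Rel.smul {d N M : ℕ} {f : L2 d} {f' : EuclideanSpace ℂ (T d (2 * N + 1))}
    (c : ℂ) (h : Rel M f f') : Rel M (c • f) (c • f') := by
  refine ⟨fun x hx => ?_, fun x hx => ?_⟩
  · rw [lp.coeFn_smul, Pi.smul_apply, h.1 x hx, smul_zero]
  · rw [lp.coeFn_smul, Pi.smul_apply, ← h.2 x hx]
    rfl

theorem Rel.zero {d N M : ℕ} : Rel M (0 : L2 d) (0 : EuclideanSpace ℂ (T d (2 * N + 1))) :=
  ⟨fun _ _ => rfl, fun _ _ => rfl⟩

theorem Rel.sum {d N M : ℕ} {ι : Type} (s : Finset ι) {f : ι → L2 d}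
    {f' : ι → EuclideanSpace ℂ (T d (2 * N + 1))} (h : ∀ i ∈ s, Rel M (f i) (f' i)) :
    Rel M (∑ i ∈ s, f i) (∑ i ∈ s, f' i) := by
  classical
  induction s using Finset.induction_on with
  | empty => exact Rel.zero
  | insert a s ha ih =>
    rw [Finset.sum_insert ha, Finset.sum_insert ha]
    exact (h a (Finset.mem_insert_self a s)).add
      (ih fun i hi => h i (Finset.mem_insert_of_mem hi))

theorem pr_inj {d N : ℕ} {x y : Fin d → ℤ} (hx : ∀ i, |x i| ≤ (N : ℤ))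
    (hy : ∀ i, |y i| ≤ (N : ℤ)) (h : pr N x = pr N y) : x = y := by
  funext i
  have h1 : ((x i : ℤ) : ZMod (2 * N + 1)) = ((y i : ℤ) : ZMod (2 * N + 1)) := congrFun h i
  have h2 : (((x i - y i : ℤ)) : ZMod (2 * N + 1)) = 0 := by
    rw [Int.cast_sub, h1, sub_self]
  rw [ZMod.intCast_zmod_eq_zero_iff_dvd] at h2
  have h3 : x i - y i = 0 := by
    apply Int.eq_zero_of_abs_lt_dvd h2
    have h4 := hx i
    have h5 := hy i
    have h6 := abs_sub (x i) (y i)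
    push_cast
    omega
  omega

/-- the transfer is isometric -/
theorem Rel.norm {d N M : ℕ} {f : L2 d} {f' : EuclideanSpace ℂ (T d (2 * N + 1))}
    (h : Rel M f f') (hM : M ≤ N) : ‖f‖ = ‖f'‖ := by
  classical
  have h1 := hasSum_sq f
  set B : Finset (Fin d → ℤ) := Fintype.piFinset fun _ => Finset.Icc (-(N : ℤ)) (N : ℤ) with hB
  have hmem : ∀ x : Fin d → ℤ, x ∈ B ↔ ∀ i, |x i| ≤ (N : ℤ) := by
    intro x
    rw [hB, Fintype.mem_piFinset]
    refine forall_congr' fun i => ?_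
    rw [Finset.mem_Icc, abs_le]
  have h2 : HasSum (fun x => ‖f x‖ ^ 2) (∑ x ∈ B, ‖f x‖ ^ 2) := by
    apply hasSum_sum_of_ne_finset_zero
    intro x hx
    rw [hmem] at hx
    push Not at hx
    obtain ⟨i, hi⟩ := hx
    rw [h.1 x ⟨i, lt_of_le_of_lt (by exact_mod_cast hM) hi⟩]
    simp
  have h3 : ‖f‖ ^ 2 = ∑ x ∈ B, ‖f x‖ ^ 2 := h1.unique h2
  have h4 : ‖f'‖ ^ 2 = ∑ y, ‖f' y‖ ^ 2 := EuclideanSpace.norm_sq_eq f'
  have h5 : ∑ x ∈ B, ‖f x‖ ^ 2 = ∑ y, ‖f' y‖ ^ 2 := by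
    refine Finset.sum_bij (fun x _ => pr N x) (fun x _ => Finset.mem_univ _) ?_ ?_ ?_
    · intro x hx y hy hxy
      exact pr_inj ((hmem x).1 hx) ((hmem y).1 hy) hxy
    · intro y _
      obtain ⟨x, hx, hxy⟩ := exists_pr N y
      exact ⟨x, (hmem x).2 hx, hxy⟩
    · intro x hx
      rw [h.2 x ((hmem x).1 hx)]
  have h6 : ‖f‖ ^ 2 = ‖f'‖ ^ 2 := by rw [h3, h4, h5]
  exact (sq_eq_sq₀ (norm_nonneg _) (norm_nonneg _)).mp h6

/-- one application of the Hamiltonian -/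
theorem Rel.step {d N M : ℕ} {lam : ℝ} {ω : (Fin d → ℤ) → ℝ} {H : L2 d →L[ℂ] L2 d}
    {V : T d (2 * N + 1) → ℝ} (hH : IsAnderson lam ω H)
    (hV : ∀ x : Fin d → ℤ, (∀ i, |x i| ≤ (N : ℤ)) → V (pr N x) = ω x)
    {f : L2 d} {f' : EuclideanSpace ℂ (T d (2 * N + 1))}
    (h : Rel M f f') (hM : M + 1 ≤ N) : Rel (M + 1) (H f) (HC lam V f') := by
  refine ⟨fun x hx => ?_, fun x hx => ?_⟩
  · obtain ⟨i, hx⟩ := hx
    push_cast at hx
    rw [hH f x]
    have h0 : f x = 0 := h.1 x ⟨i, by omega⟩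
    have h1 : ∀ j : Fin d, f (x + Pi.single j 1) = 0 := by
      intro j
      apply h.1 _ ⟨i, ?_⟩
      by_cases h : i = j
      · subst h
        rw [Pi.add_apply, Pi.single_eq_same]
        rcases abs_cases (x i) with h1 | h1 <;> rcases abs_cases (x i + 1) with h2 | h2 <;> omega
      · rw [Pi.add_apply, Pi.single_eq_of_ne h, add_zero]
        omega
    have h2 : ∀ j : Fin d, f (x - Pi.single j 1) = 0 := by
      intro j
      apply h.1 _ ⟨i, ?_⟩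
      by_cases h : i = j
      · subst h
        rw [Pi.sub_apply, Pi.single_eq_same]
        rcases abs_cases (x i) with h1 | h1 <;> rcases abs_cases (x i - 1) with h2 | h2 <;> omega
      · rw [Pi.sub_apply, Pi.single_eq_of_ne h, sub_zero]
        omega
    simp [h0, h1, h2]
  · -- values just outside of the box
    have key : ∀ (y : Fin d → ℤ) (i : Fin d), (∀ j, j ≠ i → |y j| ≤ (N : ℤ)) →
        |y i| ≤ (N : ℤ) + 1 → f y = f' (pr N y) := by
      intro y i h1 h2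
      by_cases h3 : |y i| ≤ (N : ℤ)
      · symm
        apply h.2
        intro j
        by_cases h : j = i
        · subst h; exact h3
        · exact h1 j h
      · have h4 : |y i| = (N : ℤ) + 1 := by omega
        have h5 : f y = 0 := h.1 y ⟨i, by omega⟩
        rw [h5]
        -- the other representative
        have h6 : ∃ z : ℤ, |z| = (N : ℤ) ∧ ((z : ℤ) : ZMod (2 * N + 1)) = ((y i : ℤ) : ZMod _) := by
          rcases abs_cases (y i) with h | h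
          · refine ⟨-N, by simp, ?_⟩
            have e : y i = -N + ((2 * N + 1 : ℕ) : ℤ) := by push_cast; omega
            rw [e, Int.cast_add, Int.cast_natCast, ZMod.natCast_self, add_zero]
          · refine ⟨N, by simp, ?_⟩
            have e : (N : ℤ) = y i + ((2 * N + 1 : ℕ) : ℤ) := by push_cast; omega
            rw [e, Int.cast_add, Int.cast_natCast, ZMod.natCast_self, add_zero]
        obtain ⟨z, hz1, hz2⟩ := h6
        have h7 : pr N (Function.update y i z) = pr N y := by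
          funext j
          unfold pr
          by_cases h : j = i
          · subst h
            rw [Function.update_self]
            exact hz2
          · rw [Function.update_of_ne h]
        have h8 : ∀ j, |Function.update y i z j| ≤ (N : ℤ) := by
          intro j
          by_cases h : j = i
          · subst h
            rw [Function.update_self, hz1]
          · rw [Function.update_of_ne h]
            exact h1 j h
        rw [← h7, h.2 _ h8]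
        symm
        apply h.1 _ ⟨i, ?_⟩
        rw [Function.update_self, hz1]
        omega
    rw [hH f x]
    show ∑ i : Fin d, (2 * f' (pr N x) - f' (pr N x + Pi.single i 1) -
      f' (pr N x - Pi.single i 1)) + ((lam * V (pr N x) : ℝ) : ℂ) * f' (pr N x) = _
    rw [hV x hx, h.2 x hx]
    congr 1
    refine Finset.sum_congr rfl fun i _ => ?_
    rw [← pr_add, ← pr_sub, key (x + Pi.single i 1) i, key (x - Pi.single i 1) i]
    · intro j hj
      rw [Pi.sub_apply, Pi.single_eq_of_ne hj, sub_zero]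
      exact hx j
    · rw [Pi.sub_apply, Pi.single_eq_same]
      have := hx i
      rcases abs_cases (x i) with h1 | h1 <;> rcases abs_cases (x i - 1) with h2 | h2 <;> omega
    · intro j hj
      rw [Pi.add_apply, Pi.single_eq_of_ne hj, add_zero]
      exact hx j
    · rw [Pi.add_apply, Pi.single_eq_same]
      have := hx i
      rcases abs_cases (x i) with h1 | h1 <;> rcases abs_cases (x i + 1) with h2 | h2 <;> omega

theorem Rel.pow {d N M : ℕ} {lam : ℝ} {ω : (Fin d → ℤ) → ℝ} {H : L2 d →L[ℂ] L2 d}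
    {V : T d (2 * N + 1) → ℝ} (hH : IsAnderson lam ω H)
    (hV : ∀ x : Fin d → ℤ, (∀ i, |x i| ≤ (N : ℤ)) → V (pr N x) = ω x)
    {f : L2 d} {f' : EuclideanSpace ℂ (T d (2 * N + 1))}
    (h : Rel M f f') (n : ℕ) (hn : M + n ≤ N) : Rel (M + n) ((H ^ n) f) ((HC lam V ^ n) f') := by
  induction n with
  | zero => exact h
  | succ n ih =>
    rw [pow_succ', pow_succ']
    exact (ih (by omega)).step hH hV (by omega)

theorem wloc (d N M : ℕ) (hMN : M ≤ N) (lam t : ℝ) (hlam : 0 ≤ lam) (hlam' : lam ≤ 1) (ht : 0 ≤ t)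
    (hN : Real.exp 2 * (4 * (d : ℝ) + 1) * t ≤ (N : ℝ) - (M : ℝ)) (ω : (Fin d → ℤ) → ℝ)
    (hω : ∀ x, |ω x| ≤ 1) (H H0 : L2 d →L[ℂ] L2 d) (hH : IsAnderson lam ω H)
    (hH0 : IsAnderson 0 (fun _ => 0) H0) (V : T d (2 * N + 1) → ℝ)
    (hV : ∀ x : Fin d → ℤ, (∀ i, |x i| ≤ (N : ℤ)) → V (fun i => ((x i : ℤ) : ZMod (2 * N + 1))) = ω x)
    (g : L2 d) (hg : ∀ x : Fin d → ℤ, (∃ i, (M : ℤ) < |x i|) → g x = 0)
    (g' : EuclideanSpace ℂ (T d (2 * N + 1)))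
    (hg' : ∀ x : Fin d → ℤ, (∀ i, |x i| ≤ (N : ℤ)) → g' (fun i => ((x i : ℤ) : ZMod (2 * N + 1))) = g x)
    (c : ℂ) (hc : ‖c‖ = 1) :
    ‖NormedSpace.exp ((-(t : ℂ) * Complex.I) • H) g -
        c • NormedSpace.exp ((-(t : ℂ) * Complex.I) • H0) g‖ ≤
      ‖NormedSpace.exp ((-(t : ℂ) * Complex.I) • HC lam V) g' -
        c • NormedSpace.exp ((-(t : ℂ) * Complex.I) • HC 0 (fun _ : T d (2 * N + 1) => 0)) g'‖ +
      4 * Real.exp (-((N : ℝ) - (M : ℝ))) * ‖g‖ := by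
  have hV' : ∀ y, |V y| ≤ 1 := by
    intro y
    obtain ⟨z, hz, rfl⟩ := exists_pr N y
    have := hV z hz
    rw [show pr N z = (fun i => ((z i : ℤ) : ZMod (2 * N + 1))) from rfl, this]
    exact hω z
  have hrel : Rel M g g' := ⟨hg, hg'⟩
  set K := N - M with hK
  have hKr : (K : ℝ) = (N : ℝ) - (M : ℝ) := by
    rw [hK, Nat.cast_sub hMN]
  have hnorm : ‖g‖ = ‖g'‖ := hrel.norm hMN
  have b1 := exp_tail H d K t ht (by rw [hKr]; exact hN) (norm_H hlam hlam' hω hH) g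
  have b2 := exp_tail H0 d K t ht (by rw [hKr]; exact hN)
    (norm_H le_rfl zero_le_one (fun _ => by simp) hH0) g
  have b3 := exp_tail (HC lam V) d K t ht (by rw [hKr]; exact hN) (norm_HC hlam hlam' hV') g'
  have b4 := exp_tail (HC 0 (fun _ : T d (2 * N + 1) => 0)) d K t ht (by rw [hKr]; exact hN)
    (norm_HC le_rfl zero_le_one (fun _ => by simp)) g'
  rw [← hnorm] at b3 b4
  rw [← hKr]
  have hR : Rel N (∑ n ∈ Finset.range (K + 1), co t n • (H ^ n) g +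
      (-c) • ∑ n ∈ Finset.range (K + 1), co t n • (H0 ^ n) g)
      (∑ n ∈ Finset.range (K + 1), co t n • (HC lam V ^ n) g' +
      (-c) • ∑ n ∈ Finset.range (K + 1),
        co t n • (HC 0 (fun _ : T d (2 * N + 1) => 0) ^ n) g') := by
    refine Rel.add (Rel.sum _ fun n hn => Rel.smul _ ?_)
      (Rel.smul _ (Rel.sum _ fun n hn => Rel.smul _ ?_))
    · have hn' := Finset.mem_range.mp hn
      exact (hrel.pow hH hV n (by omega)).mono (by omega)
    · have hn' := Finset.mem_range.mp hn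
      exact (hrel.pow hH0 (fun _ _ => rfl) n (by omega)).mono (by omega)
  have hRn := hR.norm le_rfl
  rw [neg_smul, neg_smul, ← sub_eq_add_neg, ← sub_eq_add_neg] at hRn
  set S1 := ∑ n ∈ Finset.range (K + 1), co t n • (H ^ n) g
  set S2 := ∑ n ∈ Finset.range (K + 1), co t n • (H0 ^ n) g
  set S3 := ∑ n ∈ Finset.range (K + 1), co t n • (HC lam V ^ n) g'
  set S4 := ∑ n ∈ Finset.range (K + 1), co t n • (HC 0 (fun _ : T d (2 * N + 1) => 0) ^ n) g'
  set E1 := NormedSpace.exp ((-(t : ℂ) * Complex.I) • H) g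
  set E2 := NormedSpace.exp ((-(t : ℂ) * Complex.I) • H0) g
  set E3 := NormedSpace.exp ((-(t : ℂ) * Complex.I) • HC lam V) g'
  set E4 := NormedSpace.exp ((-(t : ℂ) * Complex.I) • HC 0 (fun _ : T d (2 * N + 1) => 0)) g'
  have a1 : ‖E1 - c • E2‖ ≤ ‖S1 - c • S2‖ + 2 * (Real.exp (-(K : ℝ)) * ‖g‖) := by
    have e : E1 - c • E2 = (S1 - c • S2) + ((E1 - S1) - c • (E2 - S2)) := by
      rw [smul_sub]
      abel
    rw [e]
    refine (norm_add_le _ _).trans (add_le_add le_rfl ?_)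
    refine (norm_sub_le _ _).trans ?_
    rw [norm_smul, hc, one_mul]
    linarith
  have a2 : ‖S3 - c • S4‖ ≤ ‖E3 - c • E4‖ + 2 * (Real.exp (-(K : ℝ)) * ‖g‖) := by
    have e : S3 - c • S4 = (E3 - c • E4) - ((E3 - S3) - c • (E4 - S4)) := by
      rw [smul_sub]
      abel
    rw [e]
    refine (norm_sub_le _ _).trans (add_le_add le_rfl ?_)
    refine (norm_sub_le _ _).trans ?_
    rw [norm_smul, hc, one_mul]
    linarith
  rw [← hRn] at a2
  linarith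

theorem wnorm (d N M : ℕ) (hMN : M + 2 ≤ N) (H0 : L2 d →L[ℂ] L2 d)
    (hH0 : IsAnderson 0 (fun _ => 0) H0)
    (g : L2 d) (hg : ∀ x : Fin d → ℤ, (∃ i, (M : ℤ) < |x i|) → g x = 0)
    (g' : EuclideanSpace ℂ (T d (2 * N + 1)))
    (hg' : ∀ x : Fin d → ℤ, (∀ i, |x i| ≤ (N : ℤ)) → g' (fun i => ((x i : ℤ) : ZMod (2 * N + 1))) = g x)
    (a : ℂ) :
    ‖(a • HC 0 (fun _ : T d (2 * N + 1) => 0) + 1) ((a • HC 0 (fun _ : T d (2 * N + 1) => 0) + 1) g')‖ =
      ‖(a • H0 + 1) ((a • H0 + 1) g)‖ := by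
  have hrel : Rel M g g' := ⟨hg, hg'⟩
  have hst : ∀ (M' : ℕ) (f : L2 d) (f' : EuclideanSpace ℂ (T d (2 * N + 1))), M' + 1 ≤ N →
      Rel M' f f' → Rel (M' + 1) ((a • H0 + 1) f)
        ((a • HC 0 (fun _ : T d (2 * N + 1) => 0) + 1) f') := by
    intro M' f f' hM' hf
    have h1 := (hf.step hH0 (V := fun _ : T d (2 * N + 1) => 0) (fun _ _ => rfl) hM').smul a
    exact h1.add (hf.mono (Nat.le_succ _))
  have h1 := hst M g g' (by omega) hrel
  have h2 := hst (M + 1) _ _ (by omega) h1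
  exact (h2.norm (by omega)).symm

end Pool.Agent.H4R2.AE.Wloc
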