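import Pool.Agent.H4R2.AE.Avg

/-! WABS : comparison of two unitary groups from comparison of resolvents.
Proof written by helper954. -/

set_option autoImplicit false

open scoped BigOperators
open MeasureTheory

namespace Pool.Agent.H4R2.AE
namespace Wabs

section grp

variable {F : Type} [NormedAddCommGroup F] [InnerProductSpace ℂ F] [CompleteSpace F]

theorem hasDeriv_Wop (C : F →L[ℂ] F) (t : ℝ) :
    HasDerivAt (fun s : ℝ => Avg.W C s) (Avg.W C t * C) t := by
  have h1 : HasDerivAt (fun u : ℂ => NormedSpace.exp (u • C))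
      (NormedSpace.exp ((t : ℂ) • C) * C) (t : ℂ) := hasDerivAt_exp_smul_const C (t : ℂ)
  have h3 : HasDerivAt (fun s : ℝ => (s : ℂ)) 1 t := Complex.ofRealCLM.hasDerivAt
  have h4 := HasDerivAt.scomp t h1 h3
  rw [one_smul] at h4
  exact h4

theorem hasDeriv_Wneg (C : F →L[ℂ] F) (t : ℝ) :
    HasDerivAt (fun s : ℝ => Avg.W C (-s)) (-(Avg.W C (-t) * C)) t := by
  have h1 := hasDeriv_Wop C (-t)
  have h2 : HasDerivAt (fun s : ℝ => -s) (-1) t := (hasDerivAt_id t).neg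
  have h3 := HasDerivAt.scomp t h1 h2
  rw [neg_one_smul] at h3
  exact h3

theorem W_commute (C R : F →L[ℂ] F) (h : Commute R C) (t : ℝ) : Commute R (Avg.W C t) := by
  let _ : NormedAlgebra ℚ (F →L[ℂ] F) := NormedAlgebra.restrictScalars ℚ ℂ (F →L[ℂ] F)
  unfold Avg.W
  exact (h.smul_right (t : ℂ)).exp_right

theorem W_mul_neg (C : F →L[ℂ] F) (t : ℝ) (x : F) : Avg.W C t (Avg.W C (-t) x) = x := by
  let _ : NormedAlgebra ℚ (F →L[ℂ] F) := NormedAlgebra.restrictScalars ℚ ℂ (F →L[ℂ] F)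
  have h : Avg.W C t * Avg.W C (-t) = 1 := by
    unfold Avg.W
    have h1 : Commute ((t : ℂ) • C) (((-t : ℝ) : ℂ) • C) :=
      ((Commute.refl C).smul_left _).smul_right _
    rw [← NormedSpace.exp_add_of_commute h1]
    have h2 : (t : ℂ) • C + ((-t : ℝ) : ℂ) • C = 0 := by
      push_cast
      rw [neg_smul, add_neg_cancel]
    rw [h2, NormedSpace.exp_zero]
  have h3 := congrArg (fun f : F →L[ℂ] F => f x) h
  exact h3

end grp

theorem wabs {F : Type} [NormedAddCommGroup F] [InnerProductSpace ℂ F] [CompleteSpace F]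
    (A B RA RB : F →L[ℂ] F) (hA : IsSelfAdjoint A) (hB : IsSelfAdjoint B) (s ε : ℝ) (hs : 0 < s)
    (hε : 0 ≤ ε) (hRA : (A + (s : ℂ) • (1 : F →L[ℂ] F)) * RA = 1)
    (hRA' : RA * (A + (s : ℂ) • (1 : F →L[ℂ] F)) = 1)
    (hRB : (B + (s : ℂ) • (1 : F →L[ℂ] F)) * RB = 1)
    (hRB' : RB * (B + (s : ℂ) • (1 : F →L[ℂ] F)) = 1)
    (hRAn : ‖RA‖ ≤ 1 / s) (hRBn : ‖RB‖ ≤ 1 / s) (hdiff : ‖RA - RB‖ ≤ ε / s)
    (t : ℝ) (ht : 0 ≤ t) (g : F) :
    ‖NormedSpace.exp ((-(t : ℂ) * Complex.I) • A) g -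
        NormedSpace.exp ((-(t : ℂ) * Complex.I) • B) g‖ ≤
      ε * (2 + t * s) *
        ‖(((1 / s : ℝ) : ℂ) • B + 1) ((((1 / s : ℝ) : ℂ) • B + 1) g)‖ := by
  have hsC : (s : ℂ) ≠ 0 := by exact_mod_cast hs.ne'
  set CA : F →L[ℂ] F := (-Complex.I) • A with hCA
  set CB : F →L[ℂ] F := (-Complex.I) • B with hCB
  have hCAs : star CA = -CA := by
    rw [hCA, star_smul, hA.star_eq]; simp
  have hCBs : star CB = -CB := by
    rw [hCB, star_smul, hB.star_eq]; simp
  have hexpA : NormedSpace.exp ((-(t : ℂ) * Complex.I) • A) = Avg.W CA t := by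
    unfold Avg.W; rw [hCA, smul_smul]; congr 2; ring
  have hexpB : NormedSpace.exp ((-(t : ℂ) * Complex.I) • B) = Avg.W CB t := by
    unfold Avg.W; rw [hCB, smul_smul]; congr 2; ring
  -- commutations
  have hcA : Commute RA A := by
    show RA * A = A * RA
    have h1 := hRA'.trans hRA.symm
    rw [mul_add, add_mul, mul_smul_comm, smul_mul_assoc, mul_one, one_mul] at h1
    exact add_right_cancel h1
  have hcB : Commute RB B := by
    show RB * B = B * RB
    have h1 := hRB'.trans hRB.symm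
    rw [mul_add, add_mul, mul_smul_comm, smul_mul_assoc, mul_one, one_mul] at h1
    exact add_right_cancel h1
  have hcA' : ∀ r : ℝ, ∀ x, RA (Avg.W CA r x) = Avg.W CA r (RA x) := by
    intro r x
    have h1 : Commute RA (Avg.W CA r) := W_commute CA RA (hcA.smul_right _) r
    exact congrArg (fun f : F →L[ℂ] F => f x) h1.eq
  have hcB' : ∀ r : ℝ, ∀ x, RB (Avg.W CB r x) = Avg.W CB r (RB x) := by
    intro r x
    have h1 : Commute RB (Avg.W CB r) := W_commute CB RB (hcB.smul_right _) r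
    exact congrArg (fun f : F →L[ℂ] F => f x) h1.eq
  have hcBB : ∀ r : ℝ, ∀ x, CB (Avg.W CB r x) = Avg.W CB r (CB x) := by
    intro r x
    have h1 : Commute CB (Avg.W CB r) := W_commute CB CB (Commute.refl _) r
    exact congrArg (fun f : F →L[ℂ] F => f x) h1.eq
  -- resolvent identities
  have hARA : ∀ x, A (RA x) = x - (s : ℂ) • RA x := by
    intro x
    have h1 := congrArg (fun f : F →L[ℂ] F => f x) hRA
    have h2 : A (RA x) + (s : ℂ) • RA x = x := h1
    exact eq_sub_of_add_eq h2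
  have hRBB : ∀ x, RB (B x) = x - (s : ℂ) • RB x := by
    intro x
    have h1 := congrArg (fun f : F →L[ℂ] F => f x) hRB'
    have h2 : RB (B x + (s : ℂ) • x) = x := h1
    rw [map_add, map_smul] at h2
    exact eq_sub_of_add_eq h2
  -- the vectors
  set h : F := (B + (s : ℂ) • (1 : F →L[ℂ] F)) ((B + (s : ℂ) • (1 : F →L[ℂ] F)) g) with hh
  set v : F := RB h with hv
  have hvg : v = (B + (s : ℂ) • (1 : F →L[ℂ] F)) g := by
    rw [hv, hh]
    exact congrArg (fun f : F →L[ℂ] F => f ((B + (s : ℂ) • (1 : F →L[ℂ] F)) g)) hRB'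
  have hg : g = RB v := by
    rw [hvg]
    exact (congrArg (fun f : F →L[ℂ] F => f g) hRB').symm
  have hvn : ‖v‖ ≤ ‖h‖ / s := by
    calc ‖v‖ ≤ ‖RB‖ * ‖h‖ := RB.le_opNorm h
      _ ≤ 1 / s * ‖h‖ := by gcongr
      _ = _ := by ring
  have hrhs : ‖(((1 / s : ℝ) : ℂ) • B + 1) ((((1 / s : ℝ) : ℂ) • B + 1) g)‖ = ‖h‖ / s ^ 2 := by
    have h1 : ∀ x : F, (((1 / s : ℝ) : ℂ) • B + 1) x =
        ((1 / s : ℝ) : ℂ) • (B + (s : ℂ) • (1 : F →L[ℂ] F)) x := by
      intro x
      show ((1 / s : ℝ) : ℂ) • B x + x = ((1 / s : ℝ) : ℂ) • (B x + (s : ℂ) • x)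
      rw [smul_add, smul_smul]
      push_cast
      rw [one_div, inv_mul_cancel₀ hsC, one_smul]
    rw [h1, h1, map_smul, smul_smul, ← hh, norm_smul, norm_mul, Complex.norm_real, Real.norm_eq_abs,
      abs_of_pos (by positivity)]
    field_simp
  rw [hexpA, hexpB, hrhs]
  -- decomposition
  have hdec : Avg.W CA t g - Avg.W CB t g =
      Avg.W CA t ((RB - RA) v) + (RA (Avg.W CA t v) - RA (Avg.W CB t v)) +
        (RA - RB) (Avg.W CB t v) := by
    have e1 : (RB - RA) v = RB v - RA v := rfl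
    have e2 : (RA - RB) (Avg.W CB t v) = RA (Avg.W CB t v) - RB (Avg.W CB t v) := rfl
    rw [e1, e2, map_sub, hcA', hcB' t v, hg]
    abel
  have hd' : ∀ x, ‖(RA - RB) x‖ ≤ ε / s * ‖x‖ := fun x =>
    ((RA - RB).le_opNorm x).trans (by gcongr)
  have hd'' : ∀ x, ‖(RB - RA) x‖ ≤ ε / s * ‖x‖ := fun x => by
    have : (RB - RA) x = -((RA - RB) x) := by
      show RB x - RA x = -(RA x - RB x)
      rw [neg_sub]
    rw [this, norm_neg]; exact hd' x
  have hn1 : ‖Avg.W CA t ((RB - RA) v)‖ ≤ ε * ‖h‖ / s ^ 2 := by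
    rw [Avg.W_norm CA hCAs]
    calc _ ≤ ε / s * ‖v‖ := hd'' v
      _ ≤ ε / s * (‖h‖ / s) := by gcongr
      _ = _ := by field_simp
  have hn3 : ‖(RA - RB) (Avg.W CB t v)‖ ≤ ε * ‖h‖ / s ^ 2 := by
    calc _ ≤ ε / s * ‖Avg.W CB t v‖ := hd' _
      _ = ε / s * ‖v‖ := by rw [Avg.W_norm CB hCBs]
      _ ≤ ε / s * (‖h‖ / s) := by gcongr
      _ = _ := by field_simp
  -- Duhamel
  have hn2 : ‖RA (Avg.W CA t v) - RA (Avg.W CB t v)‖ ≤ t * (ε / s * ‖h‖) := by
    let φ : ℝ → F := fun r => Avg.W CA (-r) (RA (RB (Avg.W CB r h)))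
    let φ' : ℝ → F := fun r => Avg.W CA (-r) (Complex.I • ((RB - RA) (Avg.W CB r h)))
    have hder : ∀ r : ℝ, HasDerivAt φ (φ' r) r := by
      intro r
      have h1 : HasDerivAt (fun r : ℝ => RA (RB (Avg.W CB r h)))
          (RA (RB (Avg.W CB r (CB h)))) r := by
        have h2 := Avg.hasDeriv_W CB h r
        have h3 := (RA.comp RB).restrictScalars ℝ |>.hasFDerivAt.comp_hasDerivAt r h2
        exact h3
      have h2 := (hasDeriv_Wneg CA r)
      have h4 : HasDerivAt (fun r : ℝ => (Avg.W CA (-r)) (RA (RB (Avg.W CB r h))))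
          ((-(Avg.W CA (-r) * CA)) (RA (RB (Avg.W CB r h))) +
            (Avg.W CA (-r)) (RA (RB (Avg.W CB r (CB h))))) r := by
        have h5 : HasDerivAt (fun s : ℝ => (Avg.W CA (-s)).restrictScalars ℝ)
            ((-(Avg.W CA (-r) * CA)).restrictScalars ℝ) r := by
          have h6 := (ContinuousLinearMap.restrictScalarsL ℂ F F ℝ ℝ).hasFDerivAt.comp_hasDerivAt r h2
          exact h6
        exact h5.clm_apply h1
      have h5 : (-(Avg.W CA (-r) * CA)) (RA (RB (Avg.W CB r h))) +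
            (Avg.W CA (-r)) (RA (RB (Avg.W CB r (CB h)))) = φ' r := by
        have e1 : (-(Avg.W CA (-r) * CA)) (RA (RB (Avg.W CB r h))) =
            Avg.W CA (-r) (-(CA (RA (RB (Avg.W CB r h))))) := by
          rw [map_neg]; rfl
        rw [e1, ← map_add]
        show _ = Avg.W CA (-r) (Complex.I • ((RB - RA) (Avg.W CB r h)))
        congr 1
        rw [← hcBB r h]
        set u := Avg.W CB r h with hu
        have e2 : CA (RA (RB u)) = (-Complex.I) • (RB u - (s : ℂ) • RA (RB u)) := by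
          rw [hCA, smul_apply, hARA]
        have e3 : RB (CB u) = (-Complex.I) • (u - (s : ℂ) • RB u) := by
          rw [hCB, smul_apply, map_smul, hRBB]
        have e4 : (RB - RA) u = RB u - RA u := rfl
        rw [e2, e3, e4, map_smul, map_sub, map_smul]
        module
      rw [← h5]
      exact h4
    have hbd : ∀ r, ‖φ' r‖ ≤ ε / s * ‖h‖ := by
      intro r
      show ‖Avg.W CA (-r) (Complex.I • ((RB - RA) (Avg.W CB r h)))‖ ≤ _
      rw [Avg.W_norm CA hCAs, norm_smul, Complex.norm_I, one_mul]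
      refine (hd'' _).trans ?_
      rw [Avg.W_norm CB hCBs]
    have hmv := norm_image_sub_le_of_norm_deriv_le_segment' (f := φ) (f' := φ') (a := 0) (b := t)
      (C := ε / s * ‖h‖) (fun x _ => (hder x).hasDerivWithinAt) (fun x _ => hbd x) t ⟨ht, le_rfl⟩
    have hφ0 : φ 0 = RA (RB h) := by
      show Avg.W CA (-0) (RA (RB (Avg.W CB 0 h))) = _
      rw [neg_zero, Avg.W_zero, Avg.W_zero]; rfl
    have hφt : Avg.W CA t (φ t) = RA (Avg.W CB t v) := by
      show Avg.W CA t (Avg.W CA (-t) (RA (RB (Avg.W CB t h)))) = _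
      rw [W_mul_neg, hcB', hv]
    have hkey : RA (Avg.W CA t v) - RA (Avg.W CB t v) = Avg.W CA t (φ 0 - φ t) := by
      rw [map_sub, hφt, hφ0, hcA' t v, hv]
    rw [hkey, Avg.W_norm CA hCAs, norm_sub_rev]
    calc _ ≤ ε / s * ‖h‖ * (t - 0) := hmv
      _ = _ := by ring
  rw [hdec]
  calc _ ≤ ‖Avg.W CA t ((RB - RA) v)‖ + ‖RA (Avg.W CA t v) - RA (Avg.W CB t v)‖ +
        ‖(RA - RB) (Avg.W CB t v)‖ := norm_add₃_le
    _ ≤ ε * ‖h‖ / s ^ 2 + t * (ε / s * ‖h‖) + ε * ‖h‖ / s ^ 2 := by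
        gcongr
    _ = _ := by field_simp; ring

end Wabs
end Pool.Agent.H4R2.AE
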