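import Pool.Agent.H4R2.AE.Dynt
import Pool.Agent.H4R2.AE.Wabs

/-! WTOR : free evolution on a good torus. Proof written by helper954. -/

set_option autoImplicit false

open scoped BigOperators
open MeasureTheory

namespace Pool.Agent.H4R2.AE
namespace Wtor

variable {d L : ℕ} [NeZero L]


/-- the operator with conductances `c i x` on the edge `(x, x + e_i)` -/
noncomputable def KF (c : Fin d → T d L → ℝ) (g : T d L → ℂ) (x : T d L) : ℂ :=
  ∑ i : Fin d, ((c i x : ℂ) * (g x - g (x + Pi.single i 1)) +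
    (c i (x - Pi.single i 1) : ℂ) * (g x - g (x - Pi.single i 1)))

theorem form (c : Fin d → T d L → ℝ) (h g : T d L → ℂ) :
    ∑ x, (starRingEnd ℂ) (h x) * KF c g x = ∑ x, ∑ i : Fin d, (c i x : ℂ) *
      ((starRingEnd ℂ) (h x - h (x + Pi.single i 1)) * (g x - g (x + Pi.single i 1))) := by
  unfold KF
  have h1 : ∀ x, (starRingEnd ℂ) (h x) * ∑ i : Fin d, ((c i x : ℂ) * (g x - g (x + Pi.single i 1)) +
      (c i (x - Pi.single i 1) : ℂ) * (g x - g (x - Pi.single i 1))) =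
      ∑ i : Fin d, ((starRingEnd ℂ) (h x) * ((c i x : ℂ) * (g x - g (x + Pi.single i 1)))) +
      ∑ i : Fin d, ((starRingEnd ℂ) (h x) * ((c i (x - Pi.single i 1) : ℂ) * (g x - g (x - Pi.single i 1)))) := by
    intro x
    rw [Finset.mul_sum, ← Finset.sum_add_distrib]
    exact Finset.sum_congr rfl fun i _ => by ring
  simp only [h1]
  rw [Finset.sum_add_distrib]
  have h2 : ∑ x, ∑ i : Fin d, ((starRingEnd ℂ) (h x) * ((c i (x - Pi.single i 1) : ℂ) *
      (g x - g (x - Pi.single i 1)))) =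
      ∑ x, ∑ i : Fin d, ((starRingEnd ℂ) (h (x + Pi.single i 1)) * ((c i x : ℂ) *
      (g (x + Pi.single i 1) - g x))) := by
    rw [Finset.sum_comm, Finset.sum_comm (s := Finset.univ (α := T d L))]
    refine Finset.sum_congr rfl fun i _ => ?_
    have := Equiv.sum_comp (Equiv.addRight (Pi.single i 1 : T d L))
      (fun x => (starRingEnd ℂ) (h x) * ((c i (x - Pi.single i 1) : ℂ) * (g x - g (x - Pi.single i 1))))
    rw [← this]
    refine Finset.sum_congr rfl fun x _ => ?_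
    simp
  rw [h2, ← Finset.sum_add_distrib]
  refine Finset.sum_congr rfl fun x _ => ?_
  rw [← Finset.sum_add_distrib]
  refine Finset.sum_congr rfl fun i _ => ?_
  rw [map_sub]
  ring

/-- multiplication by a real function -/
noncomputable def mu (m : T d L → ℝ) (u : EuclideanSpace ℂ (T d L)) : EuclideanSpace ℂ (T d L) :=
  WithLp.toLp 2 fun x => (m x : ℂ) * u x

omit [NeZero L] in
theorem mu_apply (m : T d L → ℝ) (u : EuclideanSpace ℂ (T d L)) (x : T d L) :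
    mu m u x = (m x : ℂ) * u x := rfl

theorem mu_norm (m : T d L → ℝ) (M : ℝ) (hM : 0 ≤ M) (hm : ∀ x, |m x| ≤ M)
    (u : EuclideanSpace ℂ (T d L)) : ‖mu m u‖ ≤ M * ‖u‖ := by
  have h1 : ‖mu m u‖ ^ 2 ≤ (M * ‖u‖) ^ 2 := by
    rw [mul_pow, EuclideanSpace.norm_sq_eq, EuclideanSpace.norm_sq_eq, Finset.mul_sum]
    refine Finset.sum_le_sum fun x _ => ?_
    rw [mu_apply, norm_mul, mul_pow, Complex.norm_real, Real.norm_eq_abs]
    apply mul_le_mul_of_nonneg_right _ (sq_nonneg _)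
    exact pow_le_pow_left₀ (abs_nonneg _) (hm x) 2
  exact le_of_sq_le_sq h1 (by positivity)

omit [NeZero L] in
/-- the ground state representation -/
theorem psiA (lam E0 : ℝ) (V ψ : T d L → ℝ) (heig : ∀ x, Hop lam V ψ x = E0 * ψ x)
    (g : T d L → ℂ) (x : T d L) :
    (ψ x : ℂ) * (∑ i : Fin d, (2 * ((ψ x : ℂ) * g x) -
      (ψ (x + Pi.single i 1) : ℂ) * g (x + Pi.single i 1) -
      (ψ (x - Pi.single i 1) : ℂ) * g (x - Pi.single i 1)) +
      ((lam * V x : ℝ) : ℂ) * ((ψ x : ℂ) * g x) - (E0 : ℂ) * ((ψ x : ℂ) * g x)) =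
    KF (fun i x => ψ x * ψ (x + Pi.single i 1)) g x := by
  have h1 : ((Hop lam V ψ x : ℝ) : ℂ) = ((E0 * ψ x : ℝ) : ℂ) := by rw [heig]
  unfold Hop at h1
  push_cast at h1
  unfold KF
  have h2 : ∑ i : Fin d, (((ψ x * ψ (x + Pi.single i 1) : ℝ) : ℂ) * (g x - g (x + Pi.single i 1)) +
      ((ψ (x - Pi.single i 1) * ψ (x - Pi.single i 1 + Pi.single i 1) : ℝ) : ℂ) *
        (g x - g (x - Pi.single i 1))) =
      (ψ x : ℂ) * ∑ i : Fin d, (2 * ((ψ x : ℂ) * g x) -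
      (ψ (x + Pi.single i 1) : ℂ) * g (x + Pi.single i 1) -
      (ψ (x - Pi.single i 1) : ℂ) * g (x - Pi.single i 1)) -
      (ψ x : ℂ) * g x * ∑ i : Fin d, (2 * (ψ x : ℂ) - (ψ (x + Pi.single i 1) : ℂ) -
        (ψ (x - Pi.single i 1) : ℂ)) := by
    rw [Finset.mul_sum, Finset.mul_sum, ← Finset.sum_sub_distrib]
    refine Finset.sum_congr rfl fun i _ => ?_
    rw [sub_add_cancel]
    push_cast
    ring
  rw [h2]
  have h3 : ∑ i : Fin d, (2 * (ψ x : ℂ) - (ψ (x + Pi.single i 1) : ℂ) -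
        (ψ (x - Pi.single i 1) : ℂ)) = (E0 : ℂ) * ψ x - (lam : ℂ) * V x * ψ x := by
    rw [← h1]; ring
  rw [h3]
  push_cast
  ring

theorem re_conj_mul (u : ℂ) : ((starRingEnd ℂ) u * u).re = ‖u‖ ^ 2 := by
  rw [← Complex.normSq_eq_conj_mul_self, Complex.ofReal_re, Complex.normSq_eq_norm_sq]

/-- coercivity -/
theorem coer (lam E0 : ℝ) (V ψ : T d L → ℝ) (hψ : ∀ x, 0 < ψ x)
    (heig : ∀ x, Hop lam V ψ x = E0 * ψ x) (s : ℝ) (f : EuclideanSpace ℂ (T d L)) :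
    s * ‖f‖ ≤ ‖(HC lam V - (E0 : ℂ) • (1 : EuclideanSpace ℂ (T d L) →L[ℂ] EuclideanSpace ℂ (T d L)) +
      (s : ℂ) • (1 : EuclideanSpace ℂ (T d L) →L[ℂ] EuclideanSpace ℂ (T d L))) f‖ := by
  set P := (HC lam V - (E0 : ℂ) • (1 : EuclideanSpace ℂ (T d L) →L[ℂ] EuclideanSpace ℂ (T d L)) +
      (s : ℂ) • (1 : EuclideanSpace ℂ (T d L) →L[ℂ] EuclideanSpace ℂ (T d L))) f with hP
  have hPx : ∀ x, P x = (HC lam V f) x - (E0 : ℂ) * f x + (s : ℂ) * f x := fun x => rfl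
  let g : T d L → ℂ := fun x => f x / (ψ x : ℂ)
  have hg : ∀ x, f x = (ψ x : ℂ) * g x := by
    intro x
    have : (ψ x : ℂ) ≠ 0 := by exact_mod_cast (hψ x).ne'
    show f x = (ψ x : ℂ) * (f x / (ψ x : ℂ))
    field_simp
  have h1 : (inner ℂ f P : ℂ).re ≤ ‖f‖ * ‖P‖ :=
    (Complex.re_le_norm _).trans (norm_inner_le_norm f P)
  have h2 : s * ‖f‖ ^ 2 ≤ (inner ℂ f P : ℂ).re := by
    rw [Dynt.inner_eq]
    have h3 : ∑ x, (starRingEnd ℂ) (f x) * P x = ∑ x, (starRingEnd ℂ) (g x) * KF (fun i x => ψ x * ψ (x + Pi.single i 1)) g x +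
        ∑ x, (s : ℂ) * ((starRingEnd ℂ) (f x) * f x) := by
      rw [← Finset.sum_add_distrib]
      refine Finset.sum_congr rfl fun x _ => ?_
      rw [← psiA lam E0 V ψ heig g x, hPx, Dynt.hc_apply]
      have h4 : ∑ i : Fin d, (2 * f x - f (x + Pi.single i 1) - f (x - Pi.single i 1)) =
          ∑ i : Fin d, (2 * ((ψ x : ℂ) * g x) -
      (ψ (x + Pi.single i 1) : ℂ) * g (x + Pi.single i 1) -
      (ψ (x - Pi.single i 1) : ℂ) * g (x - Pi.single i 1)) := by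
        refine Finset.sum_congr rfl fun i _ => ?_
        rw [hg x, hg (x + Pi.single i 1), hg (x - Pi.single i 1)]
      rw [h4]
      have h5 : (starRingEnd ℂ) (f x) = (ψ x : ℂ) * (starRingEnd ℂ) (g x) := by
        rw [hg x, map_mul, Complex.conj_ofReal]
      rw [h5, hg x]
      ring
    rw [h3, form, Complex.add_re, Complex.re_sum, Complex.re_sum]
    have h6 : ∑ x, ((s : ℂ) * ((starRingEnd ℂ) (f x) * f x)).re = s * ‖f‖ ^ 2 := by
      rw [EuclideanSpace.norm_sq_eq, Finset.mul_sum]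
      refine Finset.sum_congr rfl fun x _ => ?_
      rw [Complex.re_ofReal_mul, re_conj_mul]
    rw [h6]
    have h7 : 0 ≤ ∑ x, (∑ i : Fin d, ((ψ x * ψ (x + Pi.single i 1) : ℝ) : ℂ) *
        ((starRingEnd ℂ) (g x - g (x + Pi.single i 1)) * (g x - g (x + Pi.single i 1)))).re := by
      refine Finset.sum_nonneg fun x _ => ?_
      rw [Complex.re_sum]
      refine Finset.sum_nonneg fun i _ => ?_
      rw [Complex.re_ofReal_mul, re_conj_mul]
      have := hψ x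
      have := hψ (x + Pi.single i 1)
      positivity
    linarith
  rcases eq_or_lt_of_le (norm_nonneg f) with h0 | h0
  · rw [← h0, mul_zero]; exact norm_nonneg _
  · have h8 : ‖f‖ * (s * ‖f‖) ≤ ‖f‖ * ‖P‖ := by nlinarith
    exact le_of_mul_le_mul_left h8 h0

/-- inverse of a coercive operator -/
theorem exists_inv (P : EuclideanSpace ℂ (T d L) →L[ℂ] EuclideanSpace ℂ (T d L)) (s : ℝ)
    (hs : 0 < s) (hP : ∀ f, s * ‖f‖ ≤ ‖P f‖) :
    ∃ R : EuclideanSpace ℂ (T d L) →L[ℂ] EuclideanSpace ℂ (T d L), P * R = 1 ∧ R * P = 1 ∧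
      (∀ f, ‖R f‖ ≤ 1 / s * ‖f‖) ∧ ∀ f, P (R f) = f := by
  have hinj : Function.Injective (P : EuclideanSpace ℂ (T d L) →ₗ[ℂ] EuclideanSpace ℂ (T d L)) := by
    rw [← LinearMap.ker_eq_bot, LinearMap.ker_eq_bot']
    intro f hf
    have h1 := hP f
    have h2 : P f = 0 := hf
    rw [h2, norm_zero] at h1
    have h3 : ‖f‖ ≤ 0 := by
      by_contra hc
      push Not at hc
      have := mul_pos hs hc
      linarith
    exact norm_le_zero_iff.1 h3
  let e := LinearEquiv.ofInjectiveEndo _ hinj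
  refine ⟨LinearMap.toContinuousLinearMap (e.symm : EuclideanSpace ℂ (T d L) →ₗ[ℂ] EuclideanSpace ℂ (T d L)), ?_, ?_, ?_, ?_⟩
  · apply ContinuousLinearMap.ext
    intro f
    show P (e.symm f) = f
    exact e.apply_symm_apply f
  · apply ContinuousLinearMap.ext
    intro f
    show e.symm (P f) = f
    exact e.symm_apply_apply f
  · intro f
    have h1 := hP (e.symm f)
    have h2 : P (e.symm f) = f := e.apply_symm_apply f
    rw [h2] at h1
    show ‖e.symm f‖ ≤ 1 / s * ‖f‖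
    rw [one_div, le_inv_mul_iff₀ hs]
    exact h1
  · intro f
    show P (e.symm f) = f
    exact e.apply_symm_apply f

theorem pt (c η : ℝ) (hη : 0 ≤ η) (hc : 1 ≤ c) (hc' : c ≤ 1 + 3 * η) (u v : ℂ) :
    1 / 2 * ‖u‖ ^ 2 - 9 * η ^ 2 / 2 * ‖v‖ ^ 2 ≤
      ((c : ℂ) * ((starRingEnd ℂ) u * (u + v)) - (starRingEnd ℂ) u * v).re := by
  have h1 : ((c : ℂ) * ((starRingEnd ℂ) u * (u + v)) - (starRingEnd ℂ) u * v).re =
      c * ‖u‖ ^ 2 + (c - 1) * ((starRingEnd ℂ) u * v).re := by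
    have : (c : ℂ) * ((starRingEnd ℂ) u * (u + v)) - (starRingEnd ℂ) u * v = (c : ℂ) * ((starRingEnd ℂ) u * u) +
        ((c - 1 : ℝ) : ℂ) * ((starRingEnd ℂ) u * v) := by push_cast; ring
    rw [this, Complex.add_re, Complex.re_ofReal_mul, Complex.re_ofReal_mul, re_conj_mul]
  rw [h1]
  have h2 : |((starRingEnd ℂ) u * v).re| ≤ ‖u‖ * ‖v‖ := by
    refine (Complex.abs_re_le_norm _).trans ?_
    rw [norm_mul, Complex.norm_conj]
  have h3 := abs_le.1 h2
  have h4 : -(3 * η * (‖u‖ * ‖v‖)) ≤ (c - 1) * ((starRingEnd ℂ) u * v).re := by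
    have h5 : (c - 1) * (-(‖u‖ * ‖v‖)) ≤ (c - 1) * ((starRingEnd ℂ) u * v).re :=
      mul_le_mul_of_nonneg_left h3.1 (by linarith)
    have h6 : (c - 1) * (‖u‖ * ‖v‖) ≤ 3 * η * (‖u‖ * ‖v‖) :=
      mul_le_mul_of_nonneg_right (by linarith) (by positivity)
    linarith
  have h7 : ‖u‖ ^ 2 ≤ c * ‖u‖ ^ 2 := by nlinarith [sq_nonneg ‖u‖]
  nlinarith [sq_nonneg (‖u‖ - 3 * η * ‖v‖)]

/-- comparison of the resolvents -/
theorem resdiff (lam η E0 : ℝ) (hη : 0 < η) (hη' : η ≤ 1) (V ψ : T d L → ℝ)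
    (hψ : ∀ x, 1 ≤ ψ x ∧ ψ x ≤ 1 + η) (heig : ∀ x, Hop lam V ψ x = E0 * ψ x)
    (s : ℝ) (hs : 0 < s) (RA RB : EuclideanSpace ℂ (T d L) →L[ℂ] EuclideanSpace ℂ (T d L))
    (hRA : ∀ f, (HC lam V - (E0 : ℂ) • (1 : EuclideanSpace ℂ (T d L) →L[ℂ] EuclideanSpace ℂ (T d L)) +
      (s : ℂ) • (1 : EuclideanSpace ℂ (T d L) →L[ℂ] EuclideanSpace ℂ (T d L))) (RA f) = f)
    (hRB : ∀ f, (HC 0 (fun _ : T d L => 0) +
      (s : ℂ) • (1 : EuclideanSpace ℂ (T d L) →L[ℂ] EuclideanSpace ℂ (T d L))) (RB f) = f)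
    (hRBn : ∀ f, ‖RB f‖ ≤ 1 / s * ‖f‖) (f : EuclideanSpace ℂ (T d L)) :
    ‖RA f - RB f‖ ≤ 15 * η / s * ‖f‖ := by
  have hψ0 : ∀ x, 0 < ψ x := fun x => by linarith [(hψ x).1]
  have hψC : ∀ x, (ψ x : ℂ) ≠ 0 := fun x => by exact_mod_cast (hψ0 x).ne'
  set F := mu ψ f with hF
  set gB := RB F with hgB
  set gA := mu (fun x => (ψ x)⁻¹) (RA f) with hgA
  set h := gA - gB with hh
  have hFn : ‖F‖ ≤ (1 + η) * ‖f‖ := mu_norm ψ (1 + η) (by linarith)
    (fun x => by rw [abs_of_pos (hψ0 x)]; exact (hψ x).2) f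
  have hgAx : ∀ x, (RA f) x = (ψ x : ℂ) * gA x := by
    intro x
    rw [hgA, mu_apply]
    push_cast
    rw [← mul_assoc, mul_inv_cancel₀ (hψC x), one_mul]
  -- equations
  have hEA : ∀ x, KF (fun i x => ψ x * ψ (x + Pi.single i 1)) gA x +
      (s : ℂ) * ((ψ x ^ 2 : ℝ) : ℂ) * gA x = F x := by
    intro x
    have h1 := congrArg (fun u : EuclideanSpace ℂ (T d L) => u x) (hRA f)
    have h2 : (HC lam V (RA f)) x - (E0 : ℂ) * (RA f) x + (s : ℂ) * (RA f) x = f x := h1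
    rw [Dynt.hc_apply] at h2
    rw [hF, mu_apply ψ f x, ← h2, ← psiA lam E0 V ψ heig gA x]
    have h4 : ∑ i : Fin d, (2 * (RA f) x - (RA f) (x + Pi.single i 1) -
        (RA f) (x - Pi.single i 1)) =
          ∑ i : Fin d, (2 * ((ψ x : ℂ) * gA x) -
      (ψ (x + Pi.single i 1) : ℂ) * gA (x + Pi.single i 1) -
      (ψ (x - Pi.single i 1) : ℂ) * gA (x - Pi.single i 1)) := by
      refine Finset.sum_congr rfl fun i _ => ?_
      rw [hgAx x, hgAx (x + Pi.single i 1), hgAx (x - Pi.single i 1)]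
    rw [h4, hgAx x]
    push_cast
    ring
  have hEB : ∀ x, KF (fun _ _ => 1) gB x + (s : ℂ) * gB x = F x := by
    intro x
    have h1 := congrArg (fun u : EuclideanSpace ℂ (T d L) => u x) (hRB F)
    have h2 : (HC 0 (fun _ : T d L => 0) gB) x + (s : ℂ) * gB x = F x := h1
    rw [← h2, Dynt.hc_apply]
    congr 1
    unfold KF
    rw [mul_zero]
    simp only [Complex.ofReal_one, Complex.ofReal_zero, one_mul, zero_mul, add_zero]
    exact Finset.sum_congr rfl fun i _ => by ring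
  -- energy of gB
  set QB : (T d L → ℂ) → ℝ := fun g => ∑ x, (∑ i : Fin d, ‖g x - g (x + Pi.single i 1)‖ ^ 2 +
    s * ‖g x‖ ^ 2) with hQB
  have hQBn : ∀ u : EuclideanSpace ℂ (T d L), s * ‖u‖ ^ 2 ≤ QB u := by
    intro u
    rw [EuclideanSpace.norm_sq_eq, Finset.mul_sum]
    refine Finset.sum_le_sum fun x _ => ?_
    have : 0 ≤ ∑ i : Fin d, ‖u x - u (x + Pi.single i 1)‖ ^ 2 :=
      Finset.sum_nonneg fun i _ => sq_nonneg _
    linarith
  have hQgB : QB gB = (inner ℂ gB F : ℂ).re := by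
    rw [Dynt.inner_eq]
    have h1 : ∑ x, (starRingEnd ℂ) (gB x) * F x = ∑ x, (starRingEnd ℂ) (gB x) * KF (fun _ _ => 1) gB x +
        ∑ x, (s : ℂ) * ((starRingEnd ℂ) (gB x) * gB x) := by
      rw [← Finset.sum_add_distrib]
      refine Finset.sum_congr rfl fun x _ => ?_
      rw [← hEB x]; ring
    rw [h1, form, Complex.add_re, Complex.re_sum, Complex.re_sum, ← Finset.sum_add_distrib]
    refine Finset.sum_congr rfl fun x _ => ?_
    rw [Complex.re_sum, Complex.re_ofReal_mul, re_conj_mul]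
    congr 1
    refine Finset.sum_congr rfl fun i _ => ?_
    rw [Complex.ofReal_one, one_mul, re_conj_mul]
  have hQgB' : QB gB ≤ ‖F‖ ^ 2 / s := by
    rw [hQgB]
    calc _ ≤ ‖gB‖ * ‖F‖ := (Complex.re_le_norm _).trans (norm_inner_le_norm _ _)
      _ ≤ (1 / s * ‖F‖) * ‖F‖ := by
          apply mul_le_mul_of_nonneg_right (hRBn F) (norm_nonneg _)
      _ = _ := by ring
  -- energy of h
  have hkey : QB h ≤ 9 * η ^ 2 * QB gB := by
    have hgAh : ∀ x, gA x = h x + gB x := by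
      intro x
      rw [hh, PiLp.sub_apply]; ring
    have h1 : ∑ x, (starRingEnd ℂ) (h x) * (KF (fun i x => ψ x * ψ (x + Pi.single i 1)) gA x +
      (s : ℂ) * ((ψ x ^ 2 : ℝ) : ℂ) * gA x) =
      ∑ x, (starRingEnd ℂ) (h x) * (KF (fun _ _ => 1) gB x + (s : ℂ) * gB x) :=
      Finset.sum_congr rfl fun x _ => by rw [hEA, hEB]
    simp only [mul_add] at h1
    rw [Finset.sum_add_distrib, Finset.sum_add_distrib, form, form] at h1
    have h2 : ∑ x, (∑ i : Fin d, ((((ψ x * ψ (x + Pi.single i 1) : ℝ) : ℂ) *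
        ((starRingEnd ℂ) (h x - h (x + Pi.single i 1)) * ((h x - h (x + Pi.single i 1)) +
          (gB x - gB (x + Pi.single i 1)))) - (starRingEnd ℂ) (h x - h (x + Pi.single i 1)) *
          (gB x - gB (x + Pi.single i 1)))) + (s : ℂ) * (((ψ x ^ 2 : ℝ) : ℂ) *
          ((starRingEnd ℂ) (h x) * (h x + gB x)) - (starRingEnd ℂ) (h x) * gB x)) = 0 := by
      have h3 : ∑ x, (∑ i : Fin d, ((((ψ x * ψ (x + Pi.single i 1) : ℝ) : ℂ) *
        ((starRingEnd ℂ) (h x - h (x + Pi.single i 1)) * ((h x - h (x + Pi.single i 1)) +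
          (gB x - gB (x + Pi.single i 1)))) - (starRingEnd ℂ) (h x - h (x + Pi.single i 1)) *
          (gB x - gB (x + Pi.single i 1)))) + (s : ℂ) * (((ψ x ^ 2 : ℝ) : ℂ) *
          ((starRingEnd ℂ) (h x) * (h x + gB x)) - (starRingEnd ℂ) (h x) * gB x)) =
          (∑ x, ∑ i : Fin d, ((ψ x * ψ (x + Pi.single i 1) : ℝ) : ℂ) *
            ((starRingEnd ℂ) (h x - h (x + Pi.single i 1)) * (gA x - gA (x + Pi.single i 1))) +
            ∑ x, (starRingEnd ℂ) (h x) * ((s : ℂ) * ((ψ x ^ 2 : ℝ) : ℂ) * gA x)) -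
          (∑ x, ∑ i : Fin d, ((1 : ℝ) : ℂ) *
            ((starRingEnd ℂ) (h x - h (x + Pi.single i 1)) * (gB x - gB (x + Pi.single i 1))) +
            ∑ x, (starRingEnd ℂ) (h x) * ((s : ℂ) * gB x)) := by
        rw [← Finset.sum_add_distrib, ← Finset.sum_add_distrib, ← Finset.sum_sub_distrib]
        refine Finset.sum_congr rfl fun x _ => ?_
        rw [add_sub_add_comm, ← Finset.sum_sub_distrib]
        congr 1
        · refine Finset.sum_congr rfl fun i _ => ?_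
          rw [hgAh x, hgAh (x + Pi.single i 1), Complex.ofReal_one]
          ring
        · rw [hgAh x]; ring
      rw [h3, h1, sub_self]
    have h4 := congrArg Complex.re h2
    rw [Complex.zero_re, Complex.re_sum] at h4
    have h5 : ∑ x, (1 / 2 * (∑ i : Fin d, ‖h x - h (x + Pi.single i 1)‖ ^ 2 + s * ‖h x‖ ^ 2) -
        9 * η ^ 2 / 2 * (∑ i : Fin d, ‖gB x - gB (x + Pi.single i 1)‖ ^ 2 + s * ‖gB x‖ ^ 2)) ≤ 0 := by
      rw [← h4]
      refine Finset.sum_le_sum fun x _ => ?_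
      rw [Complex.add_re, Complex.re_sum, Complex.re_ofReal_mul]
      have hb2 : ψ x ^ 2 ≤ 1 + 3 * η := by
        have := (hψ x).2
        have h0 := hψ0 x
        nlinarith
      have ha2 : 1 ≤ ψ x ^ 2 := one_le_pow₀ (hψ x).1
      have e1 := pt (ψ x ^ 2) η hη.le ha2 hb2 (h x) (gB x)
      have e2 : ∑ i : Fin d, (1 / 2 * ‖h x - h (x + Pi.single i 1)‖ ^ 2 -
          9 * η ^ 2 / 2 * ‖gB x - gB (x + Pi.single i 1)‖ ^ 2) ≤
          ∑ i : Fin d, ((((ψ x * ψ (x + Pi.single i 1) : ℝ) : ℂ) *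
        ((starRingEnd ℂ) (h x - h (x + Pi.single i 1)) * ((h x - h (x + Pi.single i 1)) +
          (gB x - gB (x + Pi.single i 1)))) - (starRingEnd ℂ) (h x - h (x + Pi.single i 1)) *
          (gB x - gB (x + Pi.single i 1)))).re := by
        refine Finset.sum_le_sum fun i _ => ?_
        refine pt _ η hη.le ?_ ?_ _ _
        · have a1 := (hψ x).1
          have a2 := (hψ (x + Pi.single i 1)).1
          nlinarith
        · have a1 := (hψ x).2
          have a2 := (hψ (x + Pi.single i 1)).2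
          have a3 := hψ0 x
          have a4 := hψ0 (x + Pi.single i 1)
          nlinarith [mul_le_mul a1 a2 a4.le (by linarith)]
      rw [Finset.sum_sub_distrib, ← Finset.mul_sum, ← Finset.mul_sum] at e2
      have e3 := mul_le_mul_of_nonneg_left e1 hs.le
      linarith
    rw [Finset.sum_sub_distrib, ← Finset.mul_sum, ← Finset.mul_sum] at h5
    have h6 : 1 / 2 * QB h - 9 * η ^ 2 / 2 * QB gB ≤ 0 := h5
    linarith
  have hhn : ‖h‖ ≤ 3 * η / s * ‖F‖ := by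
    have h1 := hQBn h
    have h2 : s * ‖h‖ ^ 2 ≤ 9 * η ^ 2 * (‖F‖ ^ 2 / s) := by
      calc _ ≤ QB h := h1
        _ ≤ _ := hkey
        _ ≤ _ := by gcongr
    have h3 : ‖h‖ ^ 2 ≤ (3 * η / s * ‖F‖) ^ 2 := by
      have : (3 * η / s * ‖F‖) ^ 2 = (9 * η ^ 2 * (‖F‖ ^ 2 / s)) / s := by
        field_simp; ring
      rw [this, le_div_iff₀ hs]
      linarith
    exact le_of_sq_le_sq h3 (by positivity)
  -- conclusion
  have hdec : RA f - RB f = mu ψ h + mu (fun x => ψ x - 1) gB + RB (F - f) := by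
    rw [map_sub, ← hgB]
    apply PiLp.ext
    intro x
    rw [PiLp.sub_apply, PiLp.add_apply, PiLp.add_apply, PiLp.sub_apply, mu_apply, mu_apply, hgAx,
      hh, PiLp.sub_apply]
    push_cast
    ring
  have hn1 : ‖mu ψ h‖ ≤ (1 + η) * ‖h‖ := mu_norm ψ (1 + η) (by linarith)
    (fun x => by rw [abs_of_pos (hψ0 x)]; exact (hψ x).2) h
  have hn2 : ‖mu (fun x => ψ x - 1) gB‖ ≤ η * ‖gB‖ := mu_norm _ η hη.le
    (fun x => by rw [abs_of_nonneg (by linarith [(hψ x).1])]; linarith [(hψ x).2]) gB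
  have hn3 : ‖F - f‖ ≤ η * ‖f‖ := by
    have : F - f = mu (fun x => ψ x - 1) f := by
      apply PiLp.ext
      intro x
      rw [PiLp.sub_apply, hF, mu_apply, mu_apply]
      push_cast
      ring
    rw [this]
    exact mu_norm _ η hη.le
      (fun x => by rw [abs_of_nonneg (by linarith [(hψ x).1])]; linarith [(hψ x).2]) f
  have hgBn : ‖gB‖ ≤ 1 / s * ((1 + η) * ‖f‖) := (hRBn F).trans (by gcongr)
  have hn4 : ‖RB (F - f)‖ ≤ 1 / s * (η * ‖f‖) := (hRBn _).trans (by gcongr)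
  rw [hdec]
  calc _ ≤ ‖mu ψ h‖ + ‖mu (fun x => ψ x - 1) gB‖ + ‖RB (F - f)‖ := norm_add₃_le
    _ ≤ (1 + η) * (3 * η / s * ((1 + η) * ‖f‖)) + η * (1 / s * ((1 + η) * ‖f‖)) +
        1 / s * (η * ‖f‖) := by
        have : ‖h‖ ≤ 3 * η / s * ((1 + η) * ‖f‖) := hhn.trans (by gcongr)
        gcongr
        · exact hn1.trans (by gcongr)
        · exact hn2.trans (by gcongr)
    _ = (3 * (1 + η) ^ 2 + (1 + η) + 1) * (η / s * ‖f‖) := by ring
    _ ≤ 15 * (η / s * ‖f‖) := by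
        apply mul_le_mul_of_nonneg_right _ (by positivity)
        nlinarith
    _ = _ := by ring

theorem sa_sub {F : Type} [NormedAddCommGroup F] [InnerProductSpace ℂ F] [CompleteSpace F]
    (A : F →L[ℂ] F) (hA : IsSelfAdjoint A) (E0 : ℝ) :
    IsSelfAdjoint (A - (E0 : ℂ) • (1 : F →L[ℂ] F)) := by
  rw [isSelfAdjoint_iff, star_sub, hA.star_eq, star_smul, star_one]
  simp

theorem sub_zero_smul_add {F : Type} [NormedAddCommGroup F] [InnerProductSpace ℂ F]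
    (P Q : F →L[ℂ] F) : P - ((0 : ℝ) : ℂ) • (1 : F →L[ℂ] F) + Q = P + Q := by
  simp

theorem wtor (d L : ℕ) [NeZero L] (lam η E0 : ℝ) (hη : 0 < η) (hη' : η ≤ 1) (V ψ : T d L → ℝ)
    (hψ : ∀ x, 1 ≤ ψ x ∧ ψ x ≤ 1 + η) (heig : ∀ x, Hop lam V ψ x = E0 * ψ x)
    (s : ℝ) (hs : 0 < s) (t : ℝ) (ht : 0 ≤ t) (g : EuclideanSpace ℂ (T d L)) :
    ‖NormedSpace.exp ((-(t : ℂ) * Complex.I) • (HC lam V - (E0 : ℂ) • 1)) g -
        NormedSpace.exp ((-(t : ℂ) * Complex.I) • HC 0 (fun _ : T d L => 0)) g‖ ≤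
      15 * η * (2 + t * s) *
        ‖(((1 / s : ℝ) : ℂ) • HC 0 (fun _ : T d L => 0) + 1)
          ((((1 / s : ℝ) : ℂ) • HC 0 (fun _ : T d L => 0) + 1) g)‖ := by
  have hψ0 : ∀ x, 0 < ψ x := fun x => by linarith [(hψ x).1]
  obtain ⟨RA, hA1, hA2, hA3, hA4⟩ := exists_inv _ s hs (coer lam E0 V ψ hψ0 heig s)
  have hB0 : ∀ f : EuclideanSpace ℂ (T d L), s * ‖f‖ ≤ ‖(HC 0 (fun _ : T d L => 0) +
      (s : ℂ) • (1 : EuclideanSpace ℂ (T d L) →L[ℂ] EuclideanSpace ℂ (T d L))) f‖ := by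
    intro f
    have h1 := coer (d := d) (L := L) 0 0 (fun _ => 0) (fun _ => 1) (fun _ => one_pos)
      (fun x => by unfold Hop; simp; ring) s f
    rwa [sub_zero_smul_add] at h1
  obtain ⟨RB, hB1, hB2, hB3, hB4⟩ := exists_inv _ s hs hB0
  have hAsa : IsSelfAdjoint (HC lam V - (E0 : ℂ) • (1 : EuclideanSpace ℂ (T d L) →L[ℂ] EuclideanSpace ℂ (T d L))) :=
    sa_sub _ (Dynt.hc_sa lam V) E0
  have h := Wabs.wabs (HC lam V - (E0 : ℂ) • (1 : EuclideanSpace ℂ (T d L) →L[ℂ] EuclideanSpace ℂ (T d L)))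
    (HC 0 (fun _ : T d L => 0)) RA RB hAsa (Dynt.hc_sa 0 _) s (15 * η) hs (by positivity)
    hA1 hA2 hB1 hB2 (RA.opNorm_le_bound (by positivity) hA3)
    (RB.opNorm_le_bound (by positivity) hB3) ?_ t ht g
  · exact h
  · refine ContinuousLinearMap.opNorm_le_bound _ (by positivity) fun f => ?_
    exact resdiff lam η E0 hη hη' V ψ hψ heig s hs RA RB hA4 hB4 hB3 f

end Wtor
end Pool.Agent.H4R2.AE
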