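import Pool.Agent.H4R2.AE.FinA2
import Pool.Agent.H4R2.AE.Wtor
import Pool.Agent.H4R2.AE.Wloc
import Pool.Agent.H4R2.AE.HCf

set_option autoImplicit false

open scoped BigOperators ENNReal
open MeasureTheory Filter

namespace Pool.Agent.H4R2.AE
namespace FinW

/-- `exp(a (H - E)) = e^{-aE} exp(a H)` -/
theorem exp_sub_smul {F : Type} [NormedAddCommGroup F] [InnerProductSpace ℂ F] [CompleteSpace F]
    (H : F →L[ℂ] F) (a E : ℂ) :
    NormedSpace.exp (a • (H - E • (1 : F →L[ℂ] F))) = Complex.exp (-(a * E)) • NormedSpace.exp (a • H) := by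
  let _ : NormedAlgebra ℚ (F →L[ℂ] F) := NormedAlgebra.restrictScalars ℚ ℂ _
  have h1 : a • (H - E • (1 : F →L[ℂ] F)) = a • H + algebraMap ℂ (F →L[ℂ] F) (-(a * E)) := by
    rw [Algebra.algebraMap_eq_smul_one, smul_sub, smul_smul, neg_smul]
    abel
  have hc : Commute (a • H) (algebraMap ℂ (F →L[ℂ] F) (-(a * E))) :=
    (Algebra.commutes _ _).symm
  rw [h1, NormedSpace.exp_add_of_commute hc]
  have h2 : NormedSpace.exp (algebraMap ℂ (F →L[ℂ] F) (-(a * E))) =
      algebraMap ℂ (F →L[ℂ] F) (NormedSpace.exp (-(a * E))) := by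
    rw [NormedSpace.algebraMap_exp_comm]
  rw [h2, ← Complex.exp_eq_exp_ℂ, Algebra.algebraMap_eq_smul_one, mul_smul_comm, mul_one]

theorem norm_phase_sub (a b : ℝ) :
    ‖Complex.exp (-((a : ℂ) * Complex.I)) - Complex.exp (-((b : ℂ) * Complex.I))‖ ≤ |a - b| := by
  have h1 : Complex.exp (-((a : ℂ) * Complex.I)) - Complex.exp (-((b : ℂ) * Complex.I)) =
      Complex.exp (-((b : ℂ) * Complex.I)) * (Complex.exp (Complex.I * ((b - a : ℝ) : ℂ)) - 1) := by
    rw [mul_sub, ← Complex.exp_add, mul_one]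
    congr 2
    push_cast
    ring
  have h2 : ‖Complex.exp (-((b : ℂ) * Complex.I))‖ = 1 := by
    rw [show -((b : ℂ) * Complex.I) = ((-b : ℝ) : ℂ) * Complex.I by push_cast; ring]
    exact Complex.norm_exp_ofReal_mul_I _
  rw [h1, norm_mul, h2, one_mul]
  refine (Real.norm_exp_I_mul_ofReal_sub_one_le).trans ?_
  rw [Real.norm_eq_abs, abs_sub_comm]

variable {d L : ℕ} [NeZero L]

/-- free evolution on a good torus with the deterministic energy -/
theorem torus_free (lam η E0 E : ℝ) (hη : 0 < η) (hη' : η ≤ 1) (V ψ : T d L → ℝ)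
    (hψ : ∀ x, 1 ≤ ψ x ∧ ψ x ≤ 1 + η) (heig : ∀ x, Hop lam V ψ x = E0 * ψ x)
    (s : ℝ) (hs : 0 < s) (t : ℝ) (ht : 0 ≤ t) (g : EuclideanSpace ℂ (T d L)) :
    ‖NormedSpace.exp ((-(t : ℂ) * Complex.I) • HC lam V) g -
        Complex.exp (-((t * E : ℝ) * Complex.I)) •
          NormedSpace.exp ((-(t : ℂ) * Complex.I) • HC 0 (fun _ : T d L => 0)) g‖ ≤
      (15 * η * (2 + t * s) + t * |E0 - E|) *
        ‖(((1 / s : ℝ) : ℂ) • HC 0 (fun _ : T d L => 0) + 1)
          ((((1 / s : ℝ) : ℂ) • HC 0 (fun _ : T d L => 0) + 1) g)‖ := by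
  set Q := ‖(((1 / s : ℝ) : ℂ) • HC 0 (fun _ : T d L => 0) + 1)
          ((((1 / s : ℝ) : ℂ) • HC 0 (fun _ : T d L => 0) + 1) g)‖ with hQ
  set UA := NormedSpace.exp ((-(t : ℂ) * Complex.I) • HC lam V) with hUA
  set UB := NormedSpace.exp ((-(t : ℂ) * Complex.I) • HC 0 (fun _ : T d L => 0)) with hUB
  have h1 := Wtor.wtor d L lam η E0 hη hη' V ψ hψ heig s hs t ht g
  rw [exp_sub_smul] at h1
  have e1 : -(-(t : ℂ) * Complex.I * (E0 : ℂ)) = ((t * E0 : ℝ) : ℂ) * Complex.I := by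
    push_cast; ring
  rw [e1, ← hUA, ← hUB, ← hQ] at h1
  have hgQ : ‖g‖ ≤ Q := by
    have ha : 0 ≤ 1 / s := by positivity
    exact (HCf.norm_le_K (1 / s) ha g).trans (HCf.norm_le_K (1 / s) ha _)
  have h2 : ‖UA g - Complex.exp (-((t * E0 : ℝ) * Complex.I)) • UB g‖ ≤ 15 * η * (2 + t * s) * Q := by
    have e2 : UA g - Complex.exp (-((t * E0 : ℝ) * Complex.I)) • UB g =
        Complex.exp (-((t * E0 : ℝ) * Complex.I)) •
          ((Complex.exp (((t * E0 : ℝ) : ℂ) * Complex.I) • UA) g - UB g) := by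
      rw [smul_sub, ContinuousLinearMap.smul_apply, smul_smul, ← Complex.exp_add,
        neg_add_cancel, Complex.exp_zero, one_smul]
    have e3 : ‖Complex.exp (-((t * E0 : ℝ) * Complex.I))‖ = 1 := by
      rw [show -(((t * E0 : ℝ) : ℂ) * Complex.I) = ((-(t * E0) : ℝ) : ℂ) * Complex.I by
        push_cast; ring]
      exact Complex.norm_exp_ofReal_mul_I _
    rw [e2, norm_smul, e3, one_mul]
    exact h1
  have h3 : ‖(Complex.exp (-((t * E0 : ℝ) * Complex.I)) - Complex.exp (-((t * E : ℝ) * Complex.I))) •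
      UB g‖ ≤ t * |E0 - E| * Q := by
    rw [norm_smul]
    have e4 := norm_phase_sub (t * E0) (t * E)
    have e5 : |t * E0 - t * E| = t * |E0 - E| := by
      rw [← mul_sub, abs_mul, abs_of_nonneg ht]
    rw [e5] at e4
    have e6 : ‖UB g‖ ≤ Q := by
      rw [hUB, HCf.exp_norm]
      exact hgQ
    gcongr
  have e7 : UA g - Complex.exp (-((t * E : ℝ) * Complex.I)) • UB g =
      (UA g - Complex.exp (-((t * E0 : ℝ) * Complex.I)) • UB g) +
      (Complex.exp (-((t * E0 : ℝ) * Complex.I)) - Complex.exp (-((t * E : ℝ) * Complex.I))) •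
      UB g := by
    rw [sub_smul]
    abel
  rw [e7]
  refine (norm_add_le _ _).trans ?_
  rw [add_mul]
  exact add_le_add h2 h3

/-- parameters: `X` large -/
theorem exists_X0 (D η : ℝ) (hD : 1 ≤ D) (hη : 0 < η) : ∃ X0 : ℝ, 36 ≤ X0 ∧ ∀ X : ℝ, X0 ≤ X →
    6 * (D + 4) * Real.sqrt X ≤ X ∧ 64 / η ≤ Real.sqrt X := by
  refine ⟨max 36 ((max (6 * (D + 4)) (64 / η)) ^ 2), le_max_left _ _, fun X hX => ?_⟩
  have h1 : (max (6 * (D + 4)) (64 / η)) ^ 2 ≤ X := (le_max_right _ _).trans hX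
  have h2 : max (6 * (D + 4)) (64 / η) ≤ Real.sqrt X := Real.le_sqrt_of_sq_le h1
  have hX0 : 0 ≤ X := (sq_nonneg _).trans h1
  refine ⟨?_, (le_max_right _ _).trans h2⟩
  calc 6 * (D + 4) * Real.sqrt X ≤ Real.sqrt X * Real.sqrt X := by
        gcongr
        exact (le_max_left _ _).trans h2
    _ = X := Real.mul_self_sqrt hX0

/-- main statement: free evolution of low-energy wave packets in infinite volume -/
theorem main (d : ℕ) (hd : 4 ≤ d) (η : ℝ) (hη : 0 < η) (hη' : η ≤ 1) :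
    ∃ c : ℝ, 0 < c ∧ ∀ (μ : Measure ℝ) [IsProbabilityMeasure μ], μ (Set.Icc (-1) 1)ᶜ = 0 →
      ∀ lam : ℝ, 0 < lam → lam ≤ c →
      ∃ E : ℝ, |E| ≤ lam ∧ ∃ G : Set ((Fin d → ℤ) → ℝ), MeasurableSet G ∧
        1 - Real.exp (-c / scale d lam) ≤ (Measure.infinitePi fun _ : Fin d → ℤ => μ).real G ∧
        ∀ ω ∈ G, ∀ H H0 : L2 d →L[ℂ] L2 d, IsAnderson lam ω H → IsAnderson 0 (fun _ => 0) H0 →
          ∀ g : L2 d, (∀ x : Fin d → ℤ, Real.exp (c / scale d lam) < ‖x‖ → g x = 0) →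
          ∀ t : ℝ, 0 ≤ t → t ≤ Real.exp (c / scale d lam) → ∀ l : ℝ, 0 < l →
            ‖NormedSpace.exp ((-(t : ℂ) * Complex.I) • (H - (E : ℂ) • (1 : L2 d →L[ℂ] L2 d))) g -
                NormedSpace.exp ((-(t : ℂ) * Complex.I) • H0) g‖ ≤
              η * (1 + t / l ^ 2) *
                ‖(((l ^ 2 : ℝ) : ℂ) • H0 + 1) ((((l ^ 2 : ℝ) : ℂ) • H0 + 1) g)‖ := by
  obtain ⟨C, hC1, hGB, htorus⟩ := Core.main_torus d hd
  obtain ⟨cB, hcB, hB⟩ := htorus (η / 64) (by positivity) (by linarith)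
  set D : ℝ := Real.exp 2 * (4 * (d : ℝ) + 1) with hD
  have hDpos : 0 < D := by positivity
  have hD1 : 1 ≤ D := by
    have := Real.add_one_le_exp (2 : ℝ)
    have hd0 : (0 : ℝ) ≤ d := Nat.cast_nonneg d
    nlinarith
  obtain ⟨X0, hX06, hX0⟩ := exists_X0 D η hD1 hη
  set c1 : ℝ := min 1 cB with hc1
  have hc1pos : 0 < c1 := lt_min one_pos hcB
  have hlogX0 : 0 < Real.log X0 := Real.log_pos (by linarith)
  set s0 : ℝ := min 1 (c1 / Real.log X0) with hs0
  have hs0pos : 0 < s0 := lt_min one_pos (by positivity)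
  have hs01 : s0 ≤ 1 := min_le_left _ _
  set c : ℝ := min (c1 / 2) (s0 ^ 2) with hc
  have hcpos : 0 < c := lt_min (by positivity) (by positivity)
  have hcc1 : c ≤ c1 / 2 := min_le_left _ _
  have hcs0 : c ≤ s0 ^ 2 := min_le_right _ _
  have hccB : c ≤ cB := by
    have : c1 ≤ cB := min_le_right _ _
    linarith
  refine ⟨c, hcpos, ?_⟩
  intro μ _ hμ lam hlam hlamc
  set s := scale d lam with hs
  have hspos : 0 < s := Arith.scale_pos d lam hlam
  have hss0 : s ≤ s0 := Arith.scale_le d lam s0 hs0pos hs01 (hlamc.trans hcs0)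
  have hlam1 : lam ≤ 1 := hlamc.trans (hcs0.trans (by nlinarith))
  set X : ℝ := Real.exp (c1 / s) with hX
  have hXX0 : X0 ≤ X := by
    have h1 : Real.log X0 ≤ c1 / s := by
      rw [le_div_iff₀ hspos]
      have h2 : s ≤ c1 / Real.log X0 := hss0.trans (min_le_right _ _)
      rw [le_div_iff₀ hlogX0] at h2
      linarith
    rw [← Real.exp_log (show 0 < X0 by linarith)]
    exact Real.exp_le_exp.2 h1
  have hX6 : 36 ≤ X := hX06.trans hXX0
  obtain ⟨hXA, hXη⟩ := hX0 X hXX0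
  set Y : ℝ := Real.sqrt X with hY
  have hYsq : Y * Y = X := Real.mul_self_sqrt (by linarith)
  have hY6 : 6 ≤ Y := by
    refine Real.le_sqrt_of_sq_le ?_
    linarith
  have hcY : Real.exp (c / s) ≤ Y := by
    rw [hY, hX, Real.sqrt_eq_rpow, ← Real.exp_mul]
    refine Real.exp_le_exp.2 ?_
    rw [div_mul_eq_mul_div]
    gcongr
    linarith
  set N : ℕ := ⌊X / 3⌋₊ with hN
  have hNle : (N : ℝ) ≤ X / 3 := Nat.floor_le (by positivity)
  have hNge : X / 6 ≤ (N : ℝ) := by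
    have := Nat.lt_floor_add_one (X / 3)
    rw [← hN] at this
    linarith
  have hLX : ((2 * N + 1 : ℕ) : ℝ) ≤ X := by push_cast; linarith
  have hXcB : X ≤ Real.exp (cB / s) := by
    rw [hX]
    refine Real.exp_le_exp.2 ?_
    gcongr
    exact min_le_right _ _
  set M : ℕ := ⌈Y⌉₊ with hM
  have hMge : Y ≤ (M : ℝ) := Nat.le_ceil Y
  have hMle : (M : ℝ) ≤ Y + 1 := (Nat.ceil_lt_add_one (by linarith)).le
  have hNM : D * Y + Y ≤ (N : ℝ) - (M : ℝ) := by
    have : 6 * (D + 4) * Y ≤ X := hXA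
    nlinarith
  have hMN2 : M + 2 ≤ N := by
    have h1 : (M : ℝ) + 2 ≤ (N : ℝ) := by nlinarith
    exact_mod_cast h1
  obtain ⟨E, hE, G0, hG0, hP0, hflat⟩ :=
    hB μ hμ lam hlam (hlamc.trans hccB) (2 * N + 1) (hLX.trans hXcB)
  obtain ⟨G, hG, hPG, hGprop⟩ := FinA.pull_back d N μ hμ G0 hG0
  refine ⟨E, hE, G, hG, ?_, ?_⟩
  · refine le_trans ?_ (hP0.trans hPG)
    have h3 : Real.exp (-cB / s) ≤ Real.exp (-c / s) := by
      refine Real.exp_le_exp.2 ?_
      rw [neg_div, neg_div, neg_le_neg_iff]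
      gcongr
    exact sub_le_sub_left h3 1
  · intro ω hω H H0 hH hH0 g hg t ht htc l hl
    obtain ⟨hω1, hω2⟩ := hGprop ω hω
    obtain ⟨E0, ψ, hE0, hψ, heig, -⟩ := hflat _ hω1
    set V : T d (2 * N + 1) → ℝ := FinA.res ω with hV
    set g' : EuclideanSpace ℂ (T d (2 * N + 1)) := WithLp.toLp 2 fun y => g (FinA.rep y) with hg'
    have hVV : ∀ x : Fin d → ℤ, (∀ i, |x i| ≤ (N : ℤ)) →
        V (fun i => ((x i : ℤ) : ZMod (2 * N + 1))) = ω x := by
      intro x hx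
      show ω (FinA.rep (FinA.proj N x)) = ω x
      rw [FinA.rep_proj x hx]
    have hgg : ∀ x : Fin d → ℤ, (∀ i, |x i| ≤ (N : ℤ)) →
        g' (fun i => ((x i : ℤ) : ZMod (2 * N + 1))) = g x := by
      intro x hx
      show g (FinA.rep (FinA.proj N x)) = g x
      rw [FinA.rep_proj x hx]
    have hgM : ∀ x : Fin d → ℤ, (∃ i, (M : ℤ) < |x i|) → g x = 0 := by
      rintro x ⟨i, hi⟩
      refine hg x ?_
      have h1 : (M : ℝ) < |((x i : ℤ) : ℝ)| := by exact_mod_cast hi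
      have h2 : |((x i : ℤ) : ℝ)| ≤ ‖x‖ := by
        have := norm_le_pi_norm x i
        rwa [Int.norm_eq_abs] at this
      linarith
    have htY : t ≤ Y := htc.trans hcY
    have hNt : Real.exp 2 * (4 * (d : ℝ) + 1) * t ≤ (N : ℝ) - (M : ℝ) := by
      rw [← hD]
      have : D * t ≤ D * Y := by gcongr
      linarith
    set cc : ℂ := Complex.exp (-((t * E : ℝ) * Complex.I)) with hcc
    have hccn : ‖cc‖ = 1 := by
      rw [hcc, show -(((t * E : ℝ) : ℂ) * Complex.I) = ((-(t * E) : ℝ) : ℂ) * Complex.I by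
        push_cast; ring]
      exact Complex.norm_exp_ofReal_mul_I _
    have h1 := Wloc.wloc d N M (by omega) lam t hlam.le hlam1 ht hNt ω hω2 H H0 hH hH0 V hVV g hgM
      g' hgg cc hccn
    have hls : 0 < 1 / l ^ 2 := by positivity
    have h2 := torus_free lam (η / 64) E0 E (by positivity) (by linarith) V ψ hψ heig (1 / l ^ 2) hls
      t ht g'
    rw [← hcc] at h2
    rw [one_div_one_div] at h2
    rw [Wloc.wnorm d N M hMN2 H0 hH0 g hgM g' hgg (((l ^ 2 : ℝ) : ℂ))] at h2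
    set Q := ‖(((l ^ 2 : ℝ) : ℂ) • H0 + 1) ((((l ^ 2 : ℝ) : ℂ) • H0 + 1) g)‖ with hQ
    have hgQ : ‖g‖ ≤ Q := by
      have e0 : ‖g'‖ = ‖g‖ := by
        have e00 := Wloc.wnorm d N M hMN2 H0 hH0 g hgM g' hgg 0
        simpa using e00
      have e1 : 0 ≤ l ^ 2 := by positivity
      have e2 := (HCf.norm_le_K (l ^ 2) e1 g').trans (HCf.norm_le_K (l ^ 2) e1 _)
      rw [Wloc.wnorm d N M hMN2 H0 hH0 g hgM g' hgg (((l ^ 2 : ℝ) : ℂ))] at e2
      rw [← e0]
      exact e2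
    have hQ0 : 0 ≤ Q := norm_nonneg _
    have h3 : ‖NormedSpace.exp ((-(t : ℂ) * Complex.I) • (H - (E : ℂ) • (1 : L2 d →L[ℂ] L2 d))) g -
        NormedSpace.exp ((-(t : ℂ) * Complex.I) • H0) g‖ =
        ‖NormedSpace.exp ((-(t : ℂ) * Complex.I) • H) g -
          cc • NormedSpace.exp ((-(t : ℂ) * Complex.I) • H0) g‖ := by
      rw [exp_sub_smul]
      have e1 : -(-(t : ℂ) * Complex.I * (E : ℂ)) = ((t * E : ℝ) : ℂ) * Complex.I := by
        push_cast; ring
      rw [e1]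
      have e2 : (Complex.exp (((t * E : ℝ) : ℂ) * Complex.I) •
          NormedSpace.exp ((-(t : ℂ) * Complex.I) • H)) g -
          NormedSpace.exp ((-(t : ℂ) * Complex.I) • H0) g =
          Complex.exp (((t * E : ℝ) : ℂ) * Complex.I) •
            (NormedSpace.exp ((-(t : ℂ) * Complex.I) • H) g -
              cc • NormedSpace.exp ((-(t : ℂ) * Complex.I) • H0) g) := by
        rw [smul_sub, smul_smul, hcc, ← Complex.exp_add, add_neg_cancel, Complex.exp_zero, one_smul]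
        rfl
      rw [e2, norm_smul, Complex.norm_exp_ofReal_mul_I, one_mul]
    rw [h3]
    refine h1.trans ?_
    -- numerical estimates
    have hN1 : (6 : ℝ) ≤ (N : ℝ) := by linarith
    have h4 : t * |E0 - E| ≤ η / 4 := by
      have e1 : t * |E0 - E| ≤ Y * (1 / (((2 * N + 1 : ℕ) : ℝ)) ^ 2) := by gcongr
      have e2 : Y * (1 / (((2 * N + 1 : ℕ) : ℝ)) ^ 2) ≤ 1 / Y := by
        have e3 : Y ≤ ((2 * N + 1 : ℕ) : ℝ) := by push_cast; nlinarith
        have hYpos : 0 < Y := by linarith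
        rw [mul_one_div, div_le_div_iff₀ (by positivity) hYpos]
        nlinarith
      have e4 : 1 / Y ≤ η / 64 := by
        have hYpos : 0 < Y := by linarith
        rw [div_le_div_iff₀ hYpos (by norm_num)]
        rw [div_le_iff₀ hη] at hXη
        linarith
      linarith
    have h5 : 4 * Real.exp (-((N : ℝ) - (M : ℝ))) ≤ η / 4 := by
      have hYpos : 0 < Y := by linarith
      have e1 : Real.exp (-((N : ℝ) - (M : ℝ))) ≤ 1 / Y := by
        rw [Real.exp_neg, ← one_div]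
        refine one_div_le_one_div_of_le hYpos ?_
        have := Real.add_one_le_exp ((N : ℝ) - (M : ℝ))
        nlinarith
      have e4 : 1 / Y ≤ η / 64 := by
        rw [div_le_div_iff₀ hYpos (by norm_num)]
        rw [div_le_iff₀ hη] at hXη
        linarith
      linarith
    have h6 : t * (1 / l ^ 2) = t / l ^ 2 := by ring
    rw [h6] at h2
    have htl : 0 ≤ t / l ^ 2 := by positivity
    have h7 : 4 * Real.exp (-((N : ℝ) - (M : ℝ))) * ‖g‖ ≤ η / 4 * Q := by gcongr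
    calc _ ≤ (15 * (η / 64) * (2 + t / l ^ 2) + t * |E0 - E|) * Q + η / 4 * Q := add_le_add h2 h7
      _ ≤ (15 * (η / 64) * (2 + t / l ^ 2) + η / 4) * Q + η / 4 * Q := by gcongr
      _ = (15 * (η / 64) * (2 + t / l ^ 2) + η / 2) * Q := by ring
      _ ≤ η * (1 + t / l ^ 2) * Q := by
          gcongr
          nlinarith

end FinW
end Pool.Agent.H4R2.AE
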