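import Pool.Agent.H4R2.AE.Locp
import Pool.Agent.H4R2.AE.FinW
import Pool.Agent.H4R2.AE.Exist

/-!
# A flat generalised eigenfunction on `ℤ^d` gives free evolution at all scales
-/

set_option autoImplicit false

open scoped BigOperators ENNReal
open MeasureTheory Filter

namespace Pool.Agent.H4R2.AE.Detw

/-- the torus potential whose exact ground state is `ψ`, with energy `E` -/
noncomputable def pot {d L : ℕ} (E : ℝ) (ψ : T d L → ℝ) (y : T d L) : ℝ :=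
  E - (∑ i : Fin d, (2 * ψ y - ψ (y + Pi.single i 1) - ψ (y - Pi.single i 1))) / ψ y

theorem hop_pot {d L : ℕ} (E : ℝ) (ψ : T d L → ℝ) (hψ : ∀ x, 1 ≤ ψ x) (y : T d L) :
    Hop 1 (pot E ψ) ψ y = E * ψ y := by
  unfold Hop pot
  have h0 : ψ y ≠ 0 := by
    have := hψ y
    linarith
  rw [one_mul, sub_mul, div_mul_cancel₀ _ h0]
  ring

theorem abs_bound {d : ℕ} {η E a : ℝ} (hη' : 4 * (d : ℝ) * η ≤ 1)
    (hE : |E| ≤ 1 / 2) {b b' : Fin d → ℝ} (ha : 1 ≤ a ∧ a ≤ 1 + η)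
    (hb : ∀ i, 1 ≤ b i ∧ b i ≤ 1 + η) (hb' : ∀ i, 1 ≤ b' i ∧ b' i ≤ 1 + η) :
    |E - (∑ i : Fin d, (2 * a - b i - b' i)) / a| ≤ 1 := by
  have h1 : |∑ i : Fin d, (2 * a - b i - b' i)| ≤ ∑ _i : Fin d, 2 * η := by
    refine (Finset.abs_sum_le_sum_abs _ _).trans (Finset.sum_le_sum fun i _ => ?_)
    rw [abs_le]
    have := hb i
    have := hb' i
    constructor <;> linarith
  rw [Finset.sum_const, Finset.card_univ, Fintype.card_fin, nsmul_eq_mul] at h1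
  have ha0 : 0 < a := by linarith
  have h2 : |(∑ i : Fin d, (2 * a - b i - b' i)) / a| ≤ 1 / 2 := by
    rw [abs_div, abs_of_pos ha0, div_le_iff₀ ha0]
    nlinarith
  have h3 := abs_sub E ((∑ i : Fin d, (2 * a - b i - b' i)) / a)
  linarith

theorem norm_phase (s : ℝ) : ‖Complex.exp (-((s : ℂ) * Complex.I))‖ = 1 := by
  rw [show -((s : ℂ) * Complex.I) = ((-s : ℝ) : ℂ) * Complex.I by push_cast; ring]
  exact Complex.norm_exp_ofReal_mul_I _

theorem approx (d : ℕ) (hd : 1 ≤ d) (η : ℝ) (hη : 0 < η) (hη' : 4 * (d : ℝ) * η ≤ 1)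
    (lam E : ℝ) (hE : |E| ≤ 1 / 2) (V u : (Fin d → ℤ) → ℝ)
    (hu : ∀ x, 1 ≤ u x ∧ u x ≤ 1 + η)
    (heq : ∀ x, ∑ i : Fin d, (2 * u x - u (x + Pi.single i 1) - u (x - Pi.single i 1)) +
      lam * V x * u x = E * u x)
    (H H0 : L2 d →L[ℂ] L2 d) (hH : IsAnderson lam V H) (hH0 : IsAnderson 0 (fun _ => 0) H0)
    (g : L2 d) (M : ℕ) (hg : ∀ x : Fin d → ℤ, (∃ i, (M : ℤ) < |x i|) → g x = 0)
    (t : ℝ) (ht : 0 ≤ t) (l : ℝ) (hl : 0 < l) (K : ℕ) (hMK : M + 2 ≤ K)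
    (hK : Real.exp 2 * (4 * (d : ℝ) + 1) * t ≤ (K : ℝ) - (M : ℝ)) :
    ‖Complex.exp (((t * E : ℝ) : ℂ) * Complex.I) •
          NormedSpace.exp ((-(t : ℂ) * Complex.I) • H) g -
        NormedSpace.exp ((-(t : ℂ) * Complex.I) • H0) g‖ ≤
      15 * η * (2 + t / l ^ 2) *
        ‖(((l ^ 2 : ℝ) : ℂ) • H0 + 1) ((((l ^ 2 : ℝ) : ℂ) • H0 + 1) g)‖ +
      8 * Real.exp (-((K : ℝ) - (M : ℝ))) * ‖g‖ := by
  have hd1 : (1 : ℝ) ≤ d := by exact_mod_cast hd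
  have hη1 : η ≤ 1 := by nlinarith
  obtain ⟨N, hN⟩ : ∃ N, N = K + 1 := ⟨_, rfl⟩
  have hNr : (N : ℝ) = (K : ℝ) + 1 := by rw [hN]; push_cast; ring
  set ψ : T d (2 * N + 1) → ℝ := fun y => u (FinA.rep y) with hψdef
  have hψ : ∀ y, 1 ≤ ψ y ∧ ψ y ≤ 1 + η := fun y => hu _
  set W : T d (2 * N + 1) → ℝ := pot E ψ with hW
  have heig : ∀ y, Hop 1 W ψ y = E * ψ y := hop_pot E ψ fun y => (hψ y).1
  have hWb : ∀ y, |W y| ≤ 1 := fun y =>
    abs_bound hη' hE (hψ y) (fun i => hψ _) (fun i => hψ _)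
  set ω : (Fin d → ℤ) → ℝ := fun x => W (fun i => ((x i : ℤ) : ZMod (2 * N + 1))) with hω
  have hVb : ∀ x, lam * V x = E - (∑ i : Fin d, (2 * u x - u (x + Pi.single i 1) -
      u (x - Pi.single i 1))) / u x := by
    intro x
    have h0 : u x ≠ 0 := by
      have := (hu x).1
      linarith
    have h1 := heq x
    field_simp
    linarith
  have hagree : ∀ x : Fin d → ℤ, (∀ i, |x i| ≤ (K : ℤ)) → ω x = lam * V x := by
    intro x hx
    have e0 : ∀ z : Fin d → ℤ, (∀ i, |z i| ≤ (N : ℤ)) → ψ (Loc.pr N z) = u z := by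
      intro z hz
      show u (FinA.rep (FinA.proj N z)) = u z
      rw [FinA.rep_proj z hz]
    have hx1 : ∀ (x : Fin d → ℤ), (∀ i, |x i| ≤ (K : ℤ)) → ∀ i j : Fin d,
        |(x + Pi.single i 1 : Fin d → ℤ) j| ≤ (N : ℤ) ∧
          |(x - Pi.single i 1 : Fin d → ℤ) j| ≤ (N : ℤ) := by
      intro x hx i j
      have h1 := abs_le.1 (hx j)
      by_cases h : j = i
      · subst h
        rw [Pi.add_apply, Pi.sub_apply, Pi.single_eq_same, abs_le, abs_le, hN]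
        push_cast
        refine ⟨⟨?_, ?_⟩, ?_, ?_⟩ <;> linarith
      · rw [Pi.add_apply, Pi.sub_apply, Pi.single_eq_of_ne h, add_zero, sub_zero, abs_le, hN]
        push_cast
        refine ⟨⟨?_, ?_⟩, ?_, ?_⟩ <;> linarith
    rw [hVb x]
    show pot E ψ (Loc.pr N x) = _
    unfold pot
    rw [e0 x (fun i => (hx i).trans (by rw [hN]; push_cast; linarith))]
    congr 2
    refine Finset.sum_congr rfl fun i _ => ?_
    rw [← Loc.pr_add, ← Loc.pr_sub, e0 _ (fun j => (hx1 x hx i j).1),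
      e0 _ (fun j => (hx1 x hx i j).2)]
  have hVb1 : ∀ x, |lam * V x| ≤ 1 := by
    intro x
    rw [hVb x]
    exact abs_bound hη' hE (hu x) (fun i => hu _) (fun i => hu _)
  have hH1 : IsAnderson 1 (fun x => lam * V x) H := by
    intro f x
    rw [hH f x, one_mul]
  obtain ⟨H', hH'⟩ := Exist.exists_anderson d 1 ω 1 zero_le_one (fun x => hWb _)
  have hNM : (K : ℝ) - (M : ℝ) ≤ (N : ℝ) - (M : ℝ) := by rw [hNr]; linarith
  set cc : ℂ := Complex.exp (-((t * E : ℝ) * Complex.I)) with hcc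
  have hccn : ‖cc‖ = 1 := norm_phase _
  set g' : EuclideanSpace ℂ (T d (2 * N + 1)) := WithLp.toLp 2 fun y => g (FinA.rep y) with hg'
  have hgg : ∀ x : Fin d → ℤ, (∀ i, |x i| ≤ (N : ℤ)) →
      g' (fun i => ((x i : ℤ) : ZMod (2 * N + 1))) = g x := by
    intro x hx
    show g (FinA.rep (FinA.proj N x)) = g x
    rw [FinA.rep_proj x hx]
  have h1 := Wloc.wloc d N M (by omega) 1 t zero_le_one le_rfl ht (hK.trans hNM) ω (fun x => hWb _)
    H' H0 hH' hH0 W (fun x _ => rfl) g hg g' hgg cc hccn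
  have hls : 0 < 1 / l ^ 2 := by positivity
  have h2 := FinW.torus_free 1 η E E hη hη1 W ψ hψ heig (1 / l ^ 2) hls t ht g'
  rw [← hcc, one_div_one_div, Wloc.wnorm d N M (by omega) H0 hH0 g hg g' hgg (((l ^ 2 : ℝ) : ℂ)),
    sub_self, abs_zero, mul_zero, add_zero, mul_one_div] at h2
  have h3 := Locp.locp d K M (by omega) 1 t zero_le_one le_rfl ht hK (fun x => lam * V x) ω hVb1
    (fun x => hWb _) (fun x hx => (hagree x hx).symm) H H' hH1 hH' g hg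
  set Q := ‖(((l ^ 2 : ℝ) : ℂ) • H0 + 1) ((((l ^ 2 : ℝ) : ℂ) • H0 + 1) g)‖ with hQ
  have h4 : ‖Complex.exp (((t * E : ℝ) : ℂ) * Complex.I) •
          NormedSpace.exp ((-(t : ℂ) * Complex.I) • H) g -
        NormedSpace.exp ((-(t : ℂ) * Complex.I) • H0) g‖ =
      ‖NormedSpace.exp ((-(t : ℂ) * Complex.I) • H) g -
          cc • NormedSpace.exp ((-(t : ℂ) * Complex.I) • H0) g‖ := by
    have e2 : Complex.exp (((t * E : ℝ) : ℂ) * Complex.I) •
          NormedSpace.exp ((-(t : ℂ) * Complex.I) • H) g -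
          NormedSpace.exp ((-(t : ℂ) * Complex.I) • H0) g =
          Complex.exp (((t * E : ℝ) : ℂ) * Complex.I) •
            (NormedSpace.exp ((-(t : ℂ) * Complex.I) • H) g -
              cc • NormedSpace.exp ((-(t : ℂ) * Complex.I) • H0) g) := by
      rw [smul_sub, smul_smul, hcc, ← Complex.exp_add, add_neg_cancel, Complex.exp_zero, one_smul]
    rw [e2, norm_smul, Complex.norm_exp_ofReal_mul_I, one_mul]
  rw [h4]
  have h5 : NormedSpace.exp ((-(t : ℂ) * Complex.I) • H) g -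
          cc • NormedSpace.exp ((-(t : ℂ) * Complex.I) • H0) g =
      (NormedSpace.exp ((-(t : ℂ) * Complex.I) • H) g -
        NormedSpace.exp ((-(t : ℂ) * Complex.I) • H') g) +
      (NormedSpace.exp ((-(t : ℂ) * Complex.I) • H') g -
          cc • NormedSpace.exp ((-(t : ℂ) * Complex.I) • H0) g) := by abel
  rw [h5]
  refine (norm_add_le _ _).trans ?_
  have h6 : Real.exp (-((N : ℝ) - (M : ℝ))) * ‖g‖ ≤ Real.exp (-((K : ℝ) - (M : ℝ))) * ‖g‖ := by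
    gcongr
  linarith

theorem detw (d : ℕ) (hd : 1 ≤ d) (η : ℝ) (hη : 0 < η) (hη' : 4 * (d : ℝ) * η ≤ 1)
    (lam E : ℝ) (hE : |E| ≤ 1 / 2) (V u : (Fin d → ℤ) → ℝ)
    (hu : ∀ x, 1 ≤ u x ∧ u x ≤ 1 + η)
    (heq : ∀ x, ∑ i : Fin d, (2 * u x - u (x + Pi.single i 1) - u (x - Pi.single i 1)) +
      lam * V x * u x = E * u x)
    (H H0 : L2 d →L[ℂ] L2 d) (hH : IsAnderson lam V H) (hH0 : IsAnderson 0 (fun _ => 0) H0)
    (g : L2 d) (R : ℝ) (hg : ∀ x : Fin d → ℤ, R < ‖x‖ → g x = 0) (t : ℝ) (ht : 0 ≤ t)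
    (l : ℝ) (hl : 0 < l) :
    ‖Complex.exp (((t * E : ℝ) : ℂ) * Complex.I) •
          NormedSpace.exp ((-(t : ℂ) * Complex.I) • H) g -
        NormedSpace.exp ((-(t : ℂ) * Complex.I) • H0) g‖ ≤
      15 * η * (2 + t / l ^ 2) *
        ‖(((l ^ 2 : ℝ) : ℂ) • H0 + 1) ((((l ^ 2 : ℝ) : ℂ) • H0 + 1) g)‖ := by
  obtain ⟨M, hM⟩ := exists_nat_ge R
  have hgM : ∀ x : Fin d → ℤ, (∃ i, (M : ℤ) < |x i|) → g x = 0 := by
    rintro x ⟨i, hi⟩
    refine hg x ?_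
    have h1 : (M : ℝ) < |((x i : ℤ) : ℝ)| := by exact_mod_cast hi
    have h2 : |((x i : ℤ) : ℝ)| ≤ ‖x‖ := by
      have := norm_le_pi_norm x i
      rwa [Int.norm_eq_abs] at this
    linarith
  have hlim : Tendsto (fun K : ℕ => 15 * η * (2 + t / l ^ 2) *
        ‖(((l ^ 2 : ℝ) : ℂ) • H0 + 1) ((((l ^ 2 : ℝ) : ℂ) • H0 + 1) g)‖ +
      8 * Real.exp (-((K : ℝ) - (M : ℝ))) * ‖g‖) atTop (nhds (15 * η * (2 + t / l ^ 2) *
        ‖(((l ^ 2 : ℝ) : ℂ) • H0 + 1) ((((l ^ 2 : ℝ) : ℂ) • H0 + 1) g)‖ + 8 * 0 * ‖g‖)) := by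
    refine Tendsto.const_add _ (Tendsto.mul_const _ (Tendsto.const_mul _ ?_))
    refine Real.tendsto_exp_neg_atTop_nhds_zero.comp ?_
    exact tendsto_atTop_add_const_right _ _ tendsto_natCast_atTop_atTop
  rw [mul_zero, zero_mul, add_zero] at hlim
  refine ge_of_tendsto hlim ?_
  have h1 : ∀ᶠ K : ℕ in atTop, Real.exp 2 * (4 * (d : ℝ) + 1) * t + M ≤ (K : ℝ) :=
    tendsto_natCast_atTop_atTop.eventually_ge_atTop _
  filter_upwards [h1, eventually_ge_atTop (M + 2)] with K hK1 hK2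
  exact approx d hd η hη hη' lam E hE V u hu heq H H0 hH hH0 g M hgM t ht l hl K hK2 (by linarith)

end Pool.Agent.H4R2.AE.Detw
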