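import Pool.Agent.H4R2.AE.Defs
import Pool.Agent.H4R2.AE.Lin
import Pool.Agent.H4R2.AE.Avg

/-! DYNT: dynamics on a good torus -/

set_option autoImplicit false

open scoped BigOperators
open MeasureTheory

namespace Pool.Agent.H4R2.AE.Dynt

variable {d L : ℕ} [NeZero L]

theorem hc_apply (lam : ℝ) (V : T d L → ℝ) (f : EuclideanSpace ℂ (T d L)) (x : T d L) :
    (HC lam V f) x = ∑ i : Fin d, (2 * f x - f (x + Pi.single i 1) - f (x - Pi.single i 1)) +
          ((lam * V x : ℝ) : ℂ) * f x := rfl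

/-- real functions as elements of the complex Hilbert space -/
noncomputable def cst (f : T d L → ℝ) : EuclideanSpace ℂ (T d L) :=
  WithLp.toLp 2 fun x => (f x : ℂ)

theorem cst_apply (f : T d L → ℝ) (x : T d L) : cst f x = (f x : ℂ) := rfl

theorem hc_cst (lam : ℝ) (V f : T d L → ℝ) (x : T d L) :
    (HC lam V (cst f)) x = ((Hop lam V f x : ℝ) : ℂ) := by
  rw [hc_apply]
  unfold Hop
  simp only [cst_apply]
  push_cast
  rfl

theorem norm_cst_sq (f : T d L → ℝ) : ‖cst f‖ ^ 2 = ∑ x, f x ^ 2 := by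
  rw [EuclideanSpace.norm_sq_eq]
  apply Finset.sum_congr rfl
  intro x _
  rw [cst_apply, Complex.norm_real, Real.norm_eq_abs, sq_abs]

theorem inner_eq (f g : EuclideanSpace ℂ (T d L)) :
    inner ℂ f g = ∑ x, (starRingEnd ℂ) (f x) * g x := by
  rw [PiLp.inner_apply]
  apply Finset.sum_congr rfl
  intro x _
  rw [RCLike.inner_apply]
  ring

theorem hc_sa (lam : ℝ) (V : T d L → ℝ) : IsSelfAdjoint (HC lam V) := by
  rw [ContinuousLinearMap.isSelfAdjoint_iff_isSymmetric]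
  intro f g
  change inner ℂ (HC lam V f) g = inner ℂ f (HC lam V g)
  rw [inner_eq, inner_eq]
  simp only [hc_apply]
  have hp : ∀ i : Fin d, ∑ x, (starRingEnd ℂ) (f (x + Pi.single i 1)) * g x =
      ∑ x, (starRingEnd ℂ) (f x) * g (x - Pi.single i 1) := by
    intro i
    have := Equiv.sum_comp (Equiv.addRight (Pi.single i 1 : T d L))
      (fun x => (starRingEnd ℂ) (f x) * g (x - Pi.single i 1))
    rw [← this]
    apply Finset.sum_congr rfl
    intro x _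
    simp
  have hm : ∀ i : Fin d, ∑ x, (starRingEnd ℂ) (f (x - Pi.single i 1)) * g x =
      ∑ x, (starRingEnd ℂ) (f x) * g (x + Pi.single i 1) := by
    intro i
    have := Equiv.sum_comp (Equiv.subRight (Pi.single i 1 : T d L))
      (fun x => (starRingEnd ℂ) (f x) * g (x + Pi.single i 1))
    rw [← this]
    apply Finset.sum_congr rfl
    intro x _
    simp
  have e1 : ∀ x, (starRingEnd ℂ) (∑ i : Fin d, (2 * f x - f (x + Pi.single i 1) -
      f (x - Pi.single i 1)) + ((lam * V x : ℝ) : ℂ) * f x) * g x =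
      ∑ i : Fin d, (2 * ((starRingEnd ℂ) (f x) * g x) -
        (starRingEnd ℂ) (f (x + Pi.single i 1)) * g x -
        (starRingEnd ℂ) (f (x - Pi.single i 1)) * g x) +
        ((lam * V x : ℝ) : ℂ) * ((starRingEnd ℂ) (f x) * g x) := by
    intro x
    rw [map_add, map_sum, map_mul, Complex.conj_ofReal, add_mul, Finset.sum_mul]
    congr 1
    · apply Finset.sum_congr rfl
      intro i _
      rw [map_sub, map_sub, map_mul]
      have : (starRingEnd ℂ) 2 = 2 := by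
        exact map_ofNat _ 2
      rw [this]
      ring
    · ring
  have e2 : ∀ x, (starRingEnd ℂ) (f x) * (∑ i : Fin d, (2 * g x - g (x + Pi.single i 1) -
      g (x - Pi.single i 1)) + ((lam * V x : ℝ) : ℂ) * g x) =
      ∑ i : Fin d, (2 * ((starRingEnd ℂ) (f x) * g x) -
        (starRingEnd ℂ) (f x) * g (x + Pi.single i 1) -
        (starRingEnd ℂ) (f x) * g (x - Pi.single i 1)) +
        ((lam * V x : ℝ) : ℂ) * ((starRingEnd ℂ) (f x) * g x) := by
    intro x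
    rw [mul_add, Finset.mul_sum]
    congr 1
    · apply Finset.sum_congr rfl
      intro i _
      ring
    · ring
  simp only [e1, e2]
  rw [Finset.sum_add_distrib, Finset.sum_add_distrib]
  congr 1
  rw [Finset.sum_comm, Finset.sum_comm (s := Finset.univ (α := T d L))]
  apply Finset.sum_congr rfl
  intro i _
  rw [Finset.sum_sub_distrib, Finset.sum_sub_distrib, Finset.sum_sub_distrib,
    Finset.sum_sub_distrib, hp, hm]
  ring

/-- the resolvent in terms of the Green function -/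
theorem res_eq (lam E0 τ : ℝ) (hτ : 0 < τ) (V ψ h : T d L → ℝ) (hψ : ∀ x, 1 ≤ ψ x)
    (hE : ∀ x, Hop lam V ψ x = E0 * ψ x)
    (hh : ∀ x, LapW ψ h x + ψ x ^ 2 / τ * h x = if x = 0 then 1 else 0) (x : T d L) :
    Hop lam V (fun x => ψ 0 * (ψ x * h x)) x - E0 * (ψ 0 * (ψ x * h x)) +
      1 / τ * (ψ 0 * (ψ x * h x)) = if x = 0 then 1 else 0 := by
  have hψ0 : ψ x ≠ 0 := by
    have := hψ x
    intro h0
    rw [h0] at this
    linarith
  have h1 : ψ x * (Hop lam V (fun x => ψ 0 * (ψ x * h x)) x - E0 * (ψ 0 * (ψ x * h x))) =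
      ψ 0 * LapW ψ h x := by
    have h2 : ψ 0 * h x * ψ x * (Hop lam V ψ x - E0 * ψ x) = 0 := by
      rw [hE]
      ring
    have h3 : ψ x * (Hop lam V (fun x => ψ 0 * (ψ x * h x)) x - E0 * (ψ 0 * (ψ x * h x))) -
        ψ 0 * h x * ψ x * (Hop lam V ψ x - E0 * ψ x) = ψ 0 * LapW ψ h x := by
      unfold Hop LapW
      have e1 : ψ x * (∑ i : Fin d, (2 * (ψ 0 * (ψ x * h x)) -
          ψ 0 * (ψ (x + Pi.single i 1) * h (x + Pi.single i 1)) -
          ψ 0 * (ψ (x - Pi.single i 1) * h (x - Pi.single i 1))) +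
          lam * V x * (ψ 0 * (ψ x * h x)) - E0 * (ψ 0 * (ψ x * h x))) -
          ψ 0 * h x * ψ x * (∑ i : Fin d, (2 * ψ x - ψ (x + Pi.single i 1) -
            ψ (x - Pi.single i 1)) + lam * V x * ψ x - E0 * ψ x) =
          ψ x * ∑ i : Fin d, (2 * (ψ 0 * (ψ x * h x)) -
          ψ 0 * (ψ (x + Pi.single i 1) * h (x + Pi.single i 1)) -
          ψ 0 * (ψ (x - Pi.single i 1) * h (x - Pi.single i 1))) -
          ψ 0 * h x * ψ x * ∑ i : Fin d, (2 * ψ x - ψ (x + Pi.single i 1) -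
            ψ (x - Pi.single i 1)) := by ring
      rw [e1, Finset.mul_sum, Finset.mul_sum, Finset.mul_sum, ← Finset.sum_sub_distrib]
      apply Finset.sum_congr rfl
      intro i _
      ring
    linarith
  have h4 := hh x
  by_cases hx : x = 0
  · subst hx
    rw [if_pos rfl] at h4 ⊢
    have h5 : ψ 0 * (Hop lam V (fun x => ψ 0 * (ψ x * h x)) 0 - E0 * (ψ 0 * (ψ 0 * h 0)) +
      1 / τ * (ψ 0 * (ψ 0 * h 0))) = ψ 0 * 1 := by
      have h6 : ψ 0 * (LapW ψ h 0 + ψ 0 ^ 2 / τ * h 0) = ψ 0 * 1 := by rw [h4]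
      rw [mul_add, h1, ← h6]
      ring
    exact mul_left_cancel₀ hψ0 h5
  · rw [if_neg hx] at h4 ⊢
    have h5 : ψ x * (Hop lam V (fun x => ψ 0 * (ψ x * h x)) x - E0 * (ψ 0 * (ψ x * h x)) +
      1 / τ * (ψ 0 * (ψ x * h x))) = ψ x * 0 := by
      have h6 : ψ 0 * (LapW ψ h x + ψ x ^ 2 / τ * h x) = 0 := by rw [h4, mul_zero]
      rw [mul_add, h1, mul_zero, ← h6]
      ring
    exact mul_left_cancel₀ hψ0 h5

theorem dyn (d L : ℕ) [NeZero L] (hd : 1 ≤ d) (Γ : ℝ) (hΓ : 0 < Γ) (hGB : GB d L Γ)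
    (lam η : ℝ) (hη : 0 < η) (hη' : η ≤ 1 / 10) (V : T d L → ℝ) (hV : Flat lam η V)
    (τ : ℝ) (hτ : 0 < τ) (hτ' : τ ≤ 8 * (L : ℝ) ^ 2) (q : T d L → ℝ)
    (hq : ∀ t ∈ Set.Icc (0 : ℝ) τ, ∀ x, ‖ampT lam V t x‖ ≤ q x)
    (S : Finset (T d L)) (hS : (S.card : ℝ) ≤ (τ / (40 * Γ)) ^ 2) :
    4 / 5 ≤ ∑ x ∈ Sᶜ, q x := by
  obtain ⟨E0, ψ, hψ, hE, -⟩ := hV
  have hψ1 : ∀ x, 1 ≤ ψ x := fun x => (hψ x).1
  have hψ2 : ∀ x, ψ x ≤ 11 / 10 := fun x => (hψ x).2.trans (by linarith)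
  have hψ0 : ∀ x, 0 < ψ x := fun x => by linarith [hψ1 x]
  have hL : (0 : ℝ) < 8 * (L : ℝ) ^ 2 := by linarith
  obtain ⟨h, hh⟩ := Lin.solve ψ (fun x => ψ x ^ 2 / τ) (fun x => if x = 0 then 1 else 0) hψ0
    (fun x => by have := hψ0 x; positivity)
  have hh0 : ∀ x, 0 ≤ h x := Lin.nonneg ψ (fun x => ψ x ^ 2 / τ) h hψ0
    (fun x => by have := hψ0 x; positivity) (fun x => by
      rw [hh]
      split_ifs <;> norm_num)
  have hsum : ∑ x, h x ^ 2 ≤ Γ ^ 2 := by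
    apply hGB ψ (fun x => ψ x ^ 2 / τ) h 0 (fun x => by linarith [hψ1 x]) _ hh0 hh
    intro x
    have h1 : 1 ≤ ψ x ^ 2 := one_le_pow₀ (hψ1 x)
    calc 1 / (8 * (L : ℝ) ^ 2) ≤ 1 / τ := one_div_le_one_div_of_le hτ hτ'
      _ ≤ ψ x ^ 2 / τ := div_le_div_of_nonneg_right h1 hτ.le
  set R : T d L → ℝ := fun x => ψ 0 * (ψ x * h x) with hR
  have hRes := res_eq lam E0 τ hτ V ψ h hψ1 hE hh
  -- the norm of the resolvent vector
  have hRn : ‖cst R‖ ≤ 121 / 100 * Γ := by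
    have h1 : ‖cst R‖ ^ 2 ≤ (121 / 100 * Γ) ^ 2 := by
      rw [norm_cst_sq]
      calc ∑ x, R x ^ 2 ≤ ∑ x, (121 / 100) ^ 2 * h x ^ 2 := by
            apply Finset.sum_le_sum
            intro x _
            simp only [hR]
            rw [← mul_assoc, mul_pow]
            apply mul_le_mul_of_nonneg_right _ (sq_nonneg _)
            have h2 : ψ 0 * ψ x ≤ 11 / 10 * (11 / 10) :=
              mul_le_mul (hψ2 0) (hψ2 x) (hψ0 x).le (by norm_num)
            apply pow_le_pow_left₀ (mul_nonneg (hψ0 0).le (hψ0 x).le)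
            linarith
        _ = (121 / 100) ^ 2 * ∑ x, h x ^ 2 := by rw [Finset.mul_sum]
        _ ≤ (121 / 100) ^ 2 * Γ ^ 2 := mul_le_mul_of_nonneg_left hsum (by norm_num)
        _ = _ := by ring
    exact le_of_sq_le_sq h1 (by positivity)
  have hA1 : HC lam V (cst ψ) = (E0 : ℂ) • cst ψ := by
    apply PiLp.ext
    intro x
    rw [hc_cst, hE, PiLp.smul_apply, cst_apply, smul_eq_mul]
    push_cast
    ring
  have hA2 : HC lam V (cst R) - (E0 : ℂ) • cst R + ((1 / τ : ℝ) : ℂ) • cst R =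
      EuclideanSpace.single (0 : T d L) (1 : ℂ) := by
    apply PiLp.ext
    intro x
    rw [PiLp.add_apply, PiLp.sub_apply, PiLp.smul_apply, PiLp.smul_apply, hc_cst, cst_apply,
      smul_eq_mul, smul_eq_mul, EuclideanSpace.single_apply]
    have h1 := hRes x
    have h2 : ((Hop lam V R x : ℝ) : ℂ) - (E0 : ℂ) * (R x : ℂ) + ((1 / τ : ℝ) : ℂ) * (R x : ℂ) =
        ((Hop lam V R x - E0 * R x + 1 / τ * R x : ℝ) : ℂ) := by
      push_cast
      ring
    rw [h2]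
    change ((Hop lam V (fun x => ψ 0 * (ψ x * h x)) x - E0 * (ψ 0 * (ψ x * h x)) +
      1 / τ * (ψ 0 * (ψ x * h x)) : ℝ) : ℂ) = _
    rw [h1]
    split_ifs <;> simp
  obtain ⟨φ, hφ1, hφ2, hφ3⟩ := Avg.avg (HC lam V) (hc_sa lam V) τ hτ
    (EuclideanSpace.single (0 : T d L) (1 : ℂ)) (cst ψ) (cst R) E0 hA1 hA2
  have hφq : ∀ x, ‖φ x‖ ≤ q x := by
    intro x
    exact hφ3 (EuclideanSpace.proj x) (q x) (fun t ht => hq t ht x)
  have hφn : ‖φ‖ ≤ 363 / 100 * Γ / τ := by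
    refine hφ1.trans ?_
    calc 3 / τ * ‖cst R‖ ≤ 3 / τ * (121 / 100 * Γ) := by gcongr
      _ = _ := by ring
  -- lower bound for the sum
  have hlow : 1 ≤ 11 / 10 * ∑ x, ‖φ x‖ := by
    rw [inner_eq, inner_eq] at hφ2
    have h1 : ∑ x, (starRingEnd ℂ) (cst ψ x) * (EuclideanSpace.single (0 : T d L) (1 : ℂ)) x =
        (ψ 0 : ℂ) := by
      rw [Finset.sum_eq_single 0]
      · rw [cst_apply, Complex.conj_ofReal, EuclideanSpace.single_apply, if_pos rfl, mul_one]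
      · intro x _ hx
        rw [EuclideanSpace.single_apply, if_neg hx, mul_zero]
      · intro hx
        exact absurd (Finset.mem_univ _) hx
    rw [h1] at hφ2
    calc (1 : ℝ) ≤ ψ 0 := hψ1 0
      _ = ‖(ψ 0 : ℂ)‖ := by rw [Complex.norm_real, Real.norm_of_nonneg (hψ0 0).le]
      _ = ‖∑ x, (starRingEnd ℂ) (cst ψ x) * φ x‖ := by rw [hφ2]
      _ ≤ ∑ x, ‖(starRingEnd ℂ) (cst ψ x) * φ x‖ := norm_sum_le _ _
      _ ≤ ∑ x, 11 / 10 * ‖φ x‖ := by
        apply Finset.sum_le_sum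
        intro x _
        rw [norm_mul, cst_apply, Complex.conj_ofReal, Complex.norm_real,
          Real.norm_of_nonneg (hψ0 x).le]
        exact mul_le_mul_of_nonneg_right (hψ2 x) (norm_nonneg _)
      _ = 11 / 10 * ∑ x, ‖φ x‖ := by rw [Finset.mul_sum]
  -- upper bound on S
  have hup : ∑ x ∈ S, ‖φ x‖ ≤ 363 / 4000 := by
    have h1 : (∑ x ∈ S, ‖φ x‖) ^ 2 ≤ S.card * ∑ x ∈ S, ‖φ x‖ ^ 2 :=
      sq_sum_le_card_mul_sum_sq
    have h2 : ∑ x ∈ S, ‖φ x‖ ^ 2 ≤ ‖φ‖ ^ 2 := by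
      rw [EuclideanSpace.norm_sq_eq]
      exact Finset.sum_le_sum_of_subset_of_nonneg (Finset.subset_univ _)
        (fun _ _ _ => sq_nonneg _)
    have h3 : ‖φ‖ ^ 2 ≤ (363 / 100 * Γ / τ) ^ 2 := pow_le_pow_left₀ (norm_nonneg _) hφn 2
    have h4 : (∑ x ∈ S, ‖φ x‖) ^ 2 ≤ (363 / 4000) ^ 2 := by
      calc (∑ x ∈ S, ‖φ x‖) ^ 2 ≤ S.card * ∑ x ∈ S, ‖φ x‖ ^ 2 := h1
        _ ≤ (τ / (40 * Γ)) ^ 2 * (363 / 100 * Γ / τ) ^ 2 := by
          apply mul_le_mul hS (h2.trans h3) (Finset.sum_nonneg fun _ _ => sq_nonneg _)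
            (by positivity)
        _ = (363 / 4000) ^ 2 := by
          rw [← mul_pow]
          congr 1
          field_simp
          norm_num
    exact le_of_sq_le_sq h4 (by norm_num)
  have hsplit : ∑ x ∈ S, ‖φ x‖ + ∑ x ∈ Sᶜ, ‖φ x‖ = ∑ x, ‖φ x‖ :=
    Finset.sum_add_sum_compl S _
  have hfin : ∑ x ∈ Sᶜ, ‖φ x‖ ≤ ∑ x ∈ Sᶜ, q x := Finset.sum_le_sum fun x _ => hφq x
  linarith

end Pool.Agent.H4R2.AE.Dynt
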