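import Pool.Agent.H4R2.AE.Defs

/-! Existence of solutions of the penalised equation by monotone iteration. -/

set_option autoImplicit false

open scoped BigOperators
open MeasureTheory Filter Topology

namespace Pool.Agent.H4R2.AE

namespace Exi

variable {d L : ℕ}

/-- the nonlinear operator -/
noncomputable def NN (lam δ κ E : ℝ) (V w : T d L → ℝ) (x : T d L) : ℝ :=
  ∑ i : Fin d, ((1 - Real.exp (w (x + Pi.single i 1) - w x)) +
      (1 - Real.exp (w (x - Pi.single i 1) - w x))) + lam * V x - E + beta lam δ κ (w x)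

lemma exi_cont (lam δ κ E : ℝ) (V : T d L → ℝ) (x : T d L) :
    Continuous fun w : T d L → ℝ => NN lam δ κ E V w x := by
  unfold NN beta
  have h : ∀ y : T d L, Continuous fun w : T d L → ℝ => w y := fun y => continuous_apply y
  refine Continuous.add (Continuous.sub (Continuous.add ?_ continuous_const) continuous_const) ?_
  · refine continuous_finset_sum _ fun i _ => ?_
    refine Continuous.add (Continuous.sub continuous_const ?_) (Continuous.sub continuous_const ?_)
    · exact Real.continuous_exp.comp ((h _).sub (h x))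
    · exact Real.continuous_exp.comp ((h _).sub (h x))
  · refine Continuous.add (continuous_const.mul (h x)) (continuous_const.mul ?_)
    refine Continuous.sub ?_ ?_
    · exact Continuous.max ((h x).sub continuous_const) continuous_const
    · exact Continuous.max ((h x).neg.sub continuous_const) continuous_const

lemma exi_beta (lam δ κ s s' : ℝ) (hlam : 0 < lam) (hδ : 0 < δ) (h : s ≤ s') :
    beta lam δ κ s' - beta lam δ κ s ≤ (κ + 4 * lam / δ) * (s' - s) := by
  unfold beta
  have h1 : max (s' - δ) 0 - max (s - δ) 0 ≤ s' - s := by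
    rcases max_cases (s' - δ) 0 with ⟨h1, h2⟩ | ⟨h1, h2⟩ <;>
    rcases max_cases (s - δ) 0 with ⟨h3, h4⟩ | ⟨h3, h4⟩ <;> rw [h1, h3] <;> linarith
  have h2 : max (-s - δ) 0 - max (-s' - δ) 0 ≤ s' - s := by
    rcases max_cases (-s' - δ) 0 with ⟨h1, h2⟩ | ⟨h1, h2⟩ <;>
    rcases max_cases (-s - δ) 0 with ⟨h3, h4⟩ | ⟨h3, h4⟩ <;> rw [h1, h3] <;> linarith
  have h3 : 0 < 2 * lam / δ := by positivity
  have e : (κ + 4 * lam / δ) * (s' - s) = κ * (s' - s) + 2 * lam / δ * ((s' - s) + (s' - s)) := by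
    ring
  rw [e]
  have h4 : 2 * lam / δ * ((max (s' - δ) 0 - max (s - δ) 0) + (max (-s - δ) 0 - max (-s' - δ) 0))
      ≤ 2 * lam / δ * ((s' - s) + (s' - s)) :=
    mul_le_mul_of_nonneg_left (add_le_add h1 h2) h3.le
  nlinarith [h4]

lemma exi_exp (δ a a' b b' : ℝ) (ha : -(2 * δ) ≤ a) (ha' : a ≤ a')
    (hb : b ≤ b') (hb' : b' ≤ 2 * δ) :
    (1 - Real.exp (b' - a')) - (1 - Real.exp (b - a)) ≤ Real.exp (4 * δ) * (a' - a) := by
  have h1 : Real.exp (b - a') ≤ Real.exp (b' - a') := Real.exp_le_exp.2 (by linarith)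
  have h2 : Real.exp (b - a') = Real.exp (b - a) * Real.exp (-(a' - a)) := by
    rw [← Real.exp_add]; congr 1; ring
  have h3 : -(a' - a) + 1 ≤ Real.exp (-(a' - a)) := Real.add_one_le_exp _
  have h4 : Real.exp (b - a) ≤ Real.exp (4 * δ) := Real.exp_le_exp.2 (by linarith)
  have h5 : 0 < Real.exp (b - a) := Real.exp_pos _
  have h6 : Real.exp (b - a) * (a' - a) ≤ Real.exp (4 * δ) * (a' - a) :=
    mul_le_mul_of_nonneg_right h4 (by linarith)
  have h7 : Real.exp (b - a) * (-(a' - a) + 1) ≤ Real.exp (b - a) * Real.exp (-(a' - a)) :=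
    mul_le_mul_of_nonneg_left h3 h5.le
  nlinarith [h1, h2, h6, h7]

lemma exi_mono (lam δ κ E : ℝ) (hlam : 0 < lam) (hδ : 0 < δ) (V w w' : T d L → ℝ)
    (h : ∀ x, w x ≤ w' x) (hlo : ∀ x, -(2 * δ) ≤ w x) (hhi : ∀ x, w' x ≤ 2 * δ) (x : T d L) :
    NN lam δ κ E V w' x - NN lam δ κ E V w x
      ≤ (2 * (d : ℝ) * Real.exp (4 * δ) + κ + 4 * lam / δ) * (w' x - w x) := by
  have hb := exi_beta lam δ κ (w x) (w' x) hlam hδ (h x)
  have hs : ∑ i : Fin d, ((1 - Real.exp (w' (x + Pi.single i 1) - w' x)) +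
      (1 - Real.exp (w' (x - Pi.single i 1) - w' x)))
      - ∑ i : Fin d, ((1 - Real.exp (w (x + Pi.single i 1) - w x)) +
      (1 - Real.exp (w (x - Pi.single i 1) - w x)))
      ≤ 2 * (d : ℝ) * Real.exp (4 * δ) * (w' x - w x) := by
    rw [← Finset.sum_sub_distrib]
    calc ∑ i : Fin d, (((1 - Real.exp (w' (x + Pi.single i 1) - w' x)) +
          (1 - Real.exp (w' (x - Pi.single i 1) - w' x))) -
          ((1 - Real.exp (w (x + Pi.single i 1) - w x)) +
          (1 - Real.exp (w (x - Pi.single i 1) - w x))))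
        ≤ ∑ _i : Fin d, 2 * (Real.exp (4 * δ) * (w' x - w x)) := by
          refine Finset.sum_le_sum fun i _ => ?_
          have h1 := exi_exp δ (w x) (w' x) (w (x + Pi.single i 1)) (w' (x + Pi.single i 1))
            (hlo x) (h x) (h _) (hhi _)
          have h2 := exi_exp δ (w x) (w' x) (w (x - Pi.single i 1)) (w' (x - Pi.single i 1))
            (hlo x) (h x) (h _) (hhi _)
          linarith
      _ = 2 * (d : ℝ) * Real.exp (4 * δ) * (w' x - w x) := by
          rw [Finset.sum_const, Finset.card_univ, Fintype.card_fin, nsmul_eq_mul]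
          ring
  unfold NN
  have e : (2 * (d : ℝ) * Real.exp (4 * δ) + κ + 4 * lam / δ) * (w' x - w x)
      = 2 * (d : ℝ) * Real.exp (4 * δ) * (w' x - w x) + (κ + 4 * lam / δ) * (w' x - w x) := by
    ring
  rw [e]
  linarith

lemma exi_beta_top (lam δ κ : ℝ) (hδ : 0 < δ) :
    beta lam δ κ (2 * δ) = 2 * κ * δ + 2 * lam := by
  unfold beta
  rw [max_eq_left (by linarith : (0 : ℝ) ≤ 2 * δ - δ), max_eq_right (by linarith : -(2 * δ) - δ ≤ 0)]
  field_simp
  ring

lemma exi_beta_bot (lam δ κ : ℝ) (hδ : 0 < δ) :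
    beta lam δ κ (-(2 * δ)) = -(2 * κ * δ + 2 * lam) := by
  unfold beta
  rw [max_eq_right (by linarith : -(2 * δ) - δ ≤ 0), neg_neg,
    max_eq_left (by linarith : (0 : ℝ) ≤ 2 * δ - δ)]
  field_simp
  ring

theorem exists_sol (d L : ℕ) [NeZero L] (lam δ κ E : ℝ) (hlam : 0 < lam) (hδ : 0 < δ) (hκ : 0 < κ)
    (V : T d L → ℝ) (hV : ∀ x, |V x| ≤ 1) (hE : |E| ≤ lam) :
    ∃ w : T d L → ℝ, IsSol lam δ κ V E w := by
  set A : ℝ := 2 * (d : ℝ) * Real.exp (4 * δ) + κ + 4 * lam / δ + 1 with hA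
  have hA0 : 0 < A := by positivity
  set F : (T d L → ℝ) → (T d L → ℝ) := fun w x => w x - 1 / A * NN lam δ κ E V w x with hF
  have hFc : Continuous F := by
    refine continuous_pi fun x => ?_
    exact (continuous_apply x).sub (continuous_const.mul (exi_cont lam δ κ E V x))
  have hVE : ∀ x, -(2 * lam) ≤ lam * V x - E ∧ lam * V x - E ≤ 2 * lam := by
    intro x
    have h1 := abs_le.1 (hV x)
    have h2 := abs_le.1 hE
    constructor <;> nlinarith [h1.1, h1.2, h2.1, h2.2]
  have hmono : ∀ w w' : T d L → ℝ, (∀ x, w x ≤ w' x) → (∀ x, -(2 * δ) ≤ w x) →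
      (∀ x, w' x ≤ 2 * δ) → ∀ x, F w x ≤ F w' x := by
    intro w w' h hlo hhi x
    have h1 := exi_mono lam δ κ E hlam hδ V w w' h hlo hhi x
    have h2 : NN lam δ κ E V w' x - NN lam δ κ E V w x ≤ A * (w' x - w x) := by
      have : 0 ≤ w' x - w x := by linarith [h x]
      rw [hA]; nlinarith
    have h3 : 1 / A * (NN lam δ κ E V w' x - NN lam δ κ E V w x) ≤ w' x - w x := by
      rw [one_div, inv_mul_le_iff₀ hA0]; exact h2
    simp only [hF]
    have h4 : 1 / A * (NN lam δ κ E V w' x - NN lam δ κ E V w x)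
      = 1 / A * NN lam δ κ E V w' x - 1 / A * NN lam δ κ E V w x := by ring
    linarith
  have htop : ∀ x, F (fun _ => 2 * δ) x ≤ 2 * δ := by
    intro x
    have : 0 ≤ NN lam δ κ E V (fun _ => 2 * δ) x := by
      unfold NN
      rw [exi_beta_top lam δ κ hδ]
      simp only [sub_self, Real.exp_zero, add_zero, Finset.sum_const_zero]
      have := (hVE x).1
      have h5 : 0 < κ * δ := by positivity
      nlinarith
    simp only [hF]
    have h6 : 0 ≤ 1 / A * NN lam δ κ E V (fun _ => 2 * δ) x := by positivity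
    linarith
  have hbot : ∀ x, -(2 * δ) ≤ F (fun _ => -(2 * δ)) x := by
    intro x
    have : NN lam δ κ E V (fun _ => -(2 * δ)) x ≤ 0 := by
      unfold NN
      rw [exi_beta_bot lam δ κ hδ]
      simp only [sub_self, Real.exp_zero, add_zero, Finset.sum_const_zero]
      have := (hVE x).2
      have h5 : 0 < κ * δ := by positivity
      nlinarith
    simp only [hF]
    have h6 : 1 / A * NN lam δ κ E V (fun _ => -(2 * δ)) x ≤ 0 :=
      mul_nonpos_of_nonneg_of_nonpos (by positivity) this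
    linarith
  set W : ℕ → (T d L → ℝ) := fun n => F^[n] (fun _ => 2 * δ) with hW
  have hWs : ∀ n, W (n + 1) = F (W n) := by
    intro n; simp only [hW]; rw [Function.iterate_succ_apply']
  have hinv : ∀ n, (∀ x, -(2 * δ) ≤ W n x) ∧ (∀ x, W n x ≤ 2 * δ) ∧ (∀ x, W (n + 1) x ≤ W n x) := by
    intro n
    induction n with
    | zero =>
      have h0 : W 0 = fun _ => 2 * δ := by simp [hW]
      refine ⟨?_, ?_, ?_⟩
      · intro x; rw [h0]; linarith
      · intro x; rw [h0]
      · intro x; rw [hWs 0, h0]; exact htop x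
    | succ n ih =>
      obtain ⟨h1, h2, h3⟩ := ih
      have h4 : ∀ x, -(2 * δ) ≤ W (n + 1) x := by
        intro x
        rw [hWs n]
        refine le_trans (hbot x) ?_
        exact hmono _ _ h1 (fun _ => le_refl _) h2 x
      refine ⟨h4, ?_, ?_⟩
      · intro x; exact le_trans (h3 x) (h2 x)
      · intro x
        rw [hWs (n + 1)]
        calc F (W (n + 1)) x ≤ F (W n) x := hmono _ _ h3 h4 h2 x
          _ = W (n + 1) x := by rw [hWs n]
  have hanti : ∀ x, Antitone fun n => W n x :=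
    fun x => antitone_nat_of_succ_le fun n => (hinv n).2.2 x
  have hlim : Tendsto W atTop (𝓝 fun x => ⨅ n, W n x) := by
    rw [tendsto_pi_nhds]
    intro x
    refine tendsto_atTop_ciInf (hanti x) ⟨-(2 * δ), ?_⟩
    rintro _ ⟨n, rfl⟩
    exact (hinv n).1 x
  have hlim1 : Tendsto (fun n => W (n + 1)) atTop (𝓝 fun x => ⨅ n, W n x) :=
    hlim.comp (tendsto_add_atTop_nat 1)
  have hlim2 : Tendsto (fun n => W (n + 1)) atTop (𝓝 (F fun x => ⨅ n, W n x)) := by
    have : (fun n => W (n + 1)) = fun n => F (W n) := funext hWs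
    rw [this]
    exact (hFc.tendsto _).comp hlim
  have hfix := tendsto_nhds_unique hlim1 hlim2
  refine ⟨fun x => ⨅ n, W n x, ?_⟩
  intro x
  have hx := congrFun hfix x
  simp only [hF] at hx
  have hz : 1 / A * NN lam δ κ E V (fun x => ⨅ n, W n x) x = 0 := by linarith
  have hz' : NN lam δ κ E V (fun x => ⨅ n, W n x) x = 0 := by
    rcases mul_eq_zero.1 hz with h | h
    · exact absurd h (by positivity)
    · exact h
  exact hz'

end Exi

end Pool.Agent.H4R2.AE
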