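import Pool.Agent.H4R2.AE.Core
import Pool.Agent.H4R2.AE.Dynt
import Pool.Agent.H4R2.AE.Loc

set_option autoImplicit false

open scoped BigOperators ENNReal
open MeasureTheory

namespace Pool.Agent.H4R2.AE
namespace FinA

/-- representative in the centred box -/
def rep {d N : ℕ} (y : T d (2 * N + 1)) : Fin d → ℤ := fun i => (y i).valMinAbs

/-- reduction modulo `2 N + 1` -/
def proj {d : ℕ} (N : ℕ) (x : Fin d → ℤ) : T d (2 * N + 1) :=
  fun i => ((x i : ℤ) : ZMod (2 * N + 1))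

theorem proj_rep {d N : ℕ} (y : T d (2 * N + 1)) : proj N (rep y) = y := by
  funext i
  simp [proj, rep]

theorem rep_inj {d N : ℕ} : Function.Injective (rep : T d (2 * N + 1) → (Fin d → ℤ)) :=
  Function.LeftInverse.injective proj_rep

theorem rep_abs {d N : ℕ} (y : T d (2 * N + 1)) (i : Fin d) : |rep y i| ≤ (N : ℤ) := by
  have h := ZMod.valMinAbs_mem_Ioc (y i)
  rw [Set.mem_Ioc] at h
  push_cast at h
  rw [abs_le]
  simp only [rep]
  constructor <;> omega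

theorem rep_proj {d N : ℕ} (x : Fin d → ℤ) (hx : ∀ i, |x i| ≤ (N : ℤ)) :
    rep (proj N x) = x := by
  funext i
  simp only [rep, proj]
  rw [ZMod.valMinAbs_spec]
  refine ⟨rfl, ?_⟩
  have := abs_le.1 (hx i)
  rw [Set.mem_Ioc]
  push_cast
  constructor <;> omega

/-- restriction of a configuration to the box, as a configuration on the torus -/
def res {d N : ℕ} (ω : (Fin d → ℤ) → ℝ) : T d (2 * N + 1) → ℝ := fun y => ω (rep y)

theorem measurable_res {d N : ℕ} : Measurable (res : ((Fin d → ℤ) → ℝ) → (T d (2 * N + 1) → ℝ)) :=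
  measurable_pi_lambda _ fun y => measurable_pi_apply (rep y)

theorem map_res {d N : ℕ} (μ : Measure ℝ) [IsProbabilityMeasure μ] :
    (Measure.infinitePi (fun _ : Fin d → ℤ => μ)).map (res : _ → (T d (2 * N + 1) → ℝ)) =
      Measure.pi fun _ => μ := by
  classical
  symm
  refine Measure.pi_eq fun t ht => ?_
  rw [Measure.map_apply measurable_res (MeasurableSet.univ_pi ht)]
  have h1 : (res : ((Fin d → ℤ) → ℝ) → (T d (2 * N + 1) → ℝ)) ⁻¹' (Set.pi Set.univ t) =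
      Set.pi (↑(Finset.univ.image (rep : T d (2 * N + 1) → (Fin d → ℤ))))
        (fun x => t (proj N x)) := by
    ext ω
    simp only [Set.mem_preimage, Set.mem_pi, Set.mem_univ, true_implies, res, Finset.coe_image,
      Finset.coe_univ, Set.image_univ, Set.mem_range, forall_exists_index,
      forall_apply_eq_imp_iff, proj_rep]
  rw [h1, Measure.infinitePi_pi (fun _ => μ) (fun x _ => ht _), Finset.prod_image
    (fun a _ b _ h => rep_inj h)]
  simp [proj_rep]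

/-- the sup over times of the amplitude -/
noncomputable def supAmp {d : ℕ} (H : L2 d →L[ℂ] L2 d) (τ : ℝ) (x : Fin d → ℤ) : ℝ≥0∞ :=
  ⨆ t ∈ Set.Icc (0 : ℝ) τ, ‖amp H t x‖ₑ

theorem norm_eval_le {d : ℕ} (f : L2 d) (x : Fin d → ℤ) : ‖f x‖ ≤ ‖f‖ :=
  lp.norm_apply_le_norm (by norm_num) f x

theorem continuous_eval {d : ℕ} (x : Fin d → ℤ) :
    Continuous fun f : L2 d => (f : (Fin d → ℤ) → ℂ) x := by
  refine continuous_iff_continuousAt.2 fun f => ?_
  rw [Metric.continuousAt_iff]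
  intro ε hε
  refine ⟨ε, hε, fun g hg => ?_⟩
  rw [dist_eq_norm] at hg ⊢
  exact lt_of_le_of_lt (norm_eval_le (g - f) x) hg

theorem continuous_amp {d : ℕ} (H : L2 d →L[ℂ] L2 d) (x : Fin d → ℤ) :
    Continuous fun t : ℝ => amp H t x := by
  have h1 : Continuous fun t : ℝ => ((-(t : ℂ) * Complex.I) • H) := by fun_prop
  have h2 : Continuous fun t : ℝ => NormedSpace.exp ((-(t : ℂ) * Complex.I) • H) := by
    letI : NormedAlgebra ℚ (L2 d →L[ℂ] L2 d) := NormedAlgebra.restrictScalars ℚ ℂ _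
    exact NormedSpace.exp_continuous.comp h1
  have h3 : Continuous fun t : ℝ => NormedSpace.exp ((-(t : ℂ) * Complex.I) • H) (delta0 d) :=
    h2.clm_apply continuous_const
  exact (continuous_eval x).comp h3

theorem supAmp_lt_top {d : ℕ} (H : L2 d →L[ℂ] L2 d) (τ : ℝ) (x : Fin d → ℤ) :
    supAmp H τ x < ∞ := by
  obtain ⟨C, hC⟩ := (isCompact_Icc (a := (0 : ℝ)) (b := τ)).exists_bound_of_continuousOn
    (continuous_amp H x).continuousOn
  have hb : ∀ t ∈ Set.Icc (0 : ℝ) τ, ‖amp H t x‖ₑ ≤ ENNReal.ofReal C := by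
    intro t ht
    rw [← ofReal_norm]
    exact ENNReal.ofReal_le_ofReal (hC t ht)
  exact lt_of_le_of_lt (iSup₂_le hb) ENNReal.ofReal_lt_top

theorem card_ball {d N : ℕ} (r : ℝ) (hr : 0 ≤ r) :
    (((Finset.univ.filter fun y : T d (2 * N + 1) => ‖rep y‖ ≤ r).card : ℕ) : ℝ) ≤
      (2 * r + 1) ^ d := by
  classical
  set m : ℤ := ⌊r⌋ with hm
  have hm0 : 0 ≤ m := Int.floor_nonneg.2 hr
  have h1 : (Finset.univ.filter fun y : T d (2 * N + 1) => ‖rep y‖ ≤ r).card ≤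
      (Fintype.piFinset fun _ : Fin d => Finset.Icc (-m) m).card := by
    refine Finset.card_le_card_of_injOn rep (fun y hy => ?_) (fun a _ b _ h => rep_inj h)
    have hy' : ‖rep y‖ ≤ r := by simpa using hy
    rw [pi_norm_le_iff_of_nonneg hr] at hy'
    simp only [Finset.mem_coe, Fintype.mem_piFinset, Finset.mem_Icc]
    intro i
    have h2 : |((rep y i : ℤ) : ℝ)| ≤ r := by
      have := hy' i
      rwa [Int.norm_eq_abs] at this
    have h3 : |rep y i| ≤ m := by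
      rw [hm, Int.le_floor]
      push_cast
      exact h2
    exact abs_le.1 h3
  rw [Fintype.card_piFinset] at h1
  simp only [Int.card_Icc, Finset.prod_const, Finset.card_univ, Fintype.card_fin] at h1
  have h4 : (((m + 1 - -m).toNat : ℕ) : ℝ) ≤ 2 * r + 1 := by
    have h5 : (((m + 1 - -m).toNat : ℕ) : ℤ) = 2 * m + 1 := by omega
    have h6 : (((m + 1 - -m).toNat : ℕ) : ℝ) = ((2 * m + 1 : ℤ) : ℝ) := by
      rw [← h5]
      exact (Int.cast_natCast _).symm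
    rw [h6]
    push_cast
    linarith [Int.floor_le r]
  calc (((Finset.univ.filter fun y : T d (2 * N + 1) => ‖rep y‖ ≤ r).card : ℕ) : ℝ)
      ≤ (((m + 1 - -m).toNat ^ d : ℕ) : ℝ) := by exact_mod_cast h1
    _ = (((m + 1 - -m).toNat : ℕ) : ℝ) ^ d := by push_cast; rfl
    _ ≤ (2 * r + 1) ^ d := pow_le_pow_left₀ (by positivity) h4 d

/-- deterministic part: a good configuration in the box forces spreading on `ℤ^d` -/
theorem det (d N : ℕ) (hd : 1 ≤ d) (hN : 1 ≤ N) (Γ : ℝ) (hΓ : 0 < Γ) (hGB : GB d (2 * N + 1) Γ)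
    (lam : ℝ) (hlam : 0 < lam) (hlam' : lam ≤ 1) (ω : (Fin d → ℤ) → ℝ) (hω : ∀ x, |ω x| ≤ 1)
    (hflat : Flat lam (1 / 10) (res ω : T d (2 * N + 1) → ℝ))
    (τ r : ℝ) (hτ : 0 < τ) (hτN : Real.exp 2 * (4 * (d : ℝ) + 1) * τ ≤ (N : ℝ)) (hr : 0 ≤ r)
    (hr' : (2 * r + 1) ^ d ≤ (τ / (40 * Γ)) ^ 2)
    (hsmall : ((2 * N + 1 : ℕ) : ℝ) ^ d * (2 * Real.exp (-(N : ℝ))) ≤ 1 / 10)
    (H : L2 d →L[ℂ] L2 d) (hH : IsAnderson lam ω H) :
    (1 / 2 : ℝ≥0∞) ≤ ∑' x : {x : Fin d → ℤ // r < ‖x‖}, supAmp H τ x := by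
  classical
  set V : T d (2 * N + 1) → ℝ := res ω with hV
  set S : Finset (T d (2 * N + 1)) := Finset.univ.filter fun y => ‖rep y‖ ≤ r with hS
  set q : T d (2 * N + 1) → ℝ := fun y => (supAmp H τ (rep y)).toReal + 2 * Real.exp (-(N : ℝ))
    with hq
  have hd1 : (1 : ℝ) ≤ d := by exact_mod_cast hd
  have hVV : ∀ x : Fin d → ℤ, (∀ i, |x i| ≤ (N : ℤ)) →
      V (fun i => ((x i : ℤ) : ZMod (2 * N + 1))) = ω x := by
    intro x hx
    show ω (rep (proj N x)) = ω x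
    rw [rep_proj x hx]
  have hqb : ∀ t ∈ Set.Icc (0 : ℝ) τ, ∀ y, ‖ampT lam V t y‖ ≤ q y := by
    intro t ht y
    have hNt : Real.exp 2 * (4 * (d : ℝ) + 1) * t ≤ (N : ℝ) := by
      refine le_trans ?_ hτN
      have := ht.2
      gcongr
    have h1 := Loc.loc d N lam t hlam.le hlam' ht.1 hNt ω hω H hH V hVV (rep y) (rep_abs y)
    have h2 : (fun i => ((rep y i : ℤ) : ZMod (2 * N + 1))) = y := proj_rep y
    rw [h2] at h1
    have h3 : ‖amp H t (rep y)‖ ≤ (supAmp H τ (rep y)).toReal := by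
      have h4 : ‖amp H t (rep y)‖ₑ ≤ supAmp H τ (rep y) :=
        le_iSup₂ (f := fun t (_ : t ∈ Set.Icc (0 : ℝ) τ) => ‖amp H t (rep y)‖ₑ) t ht
      have h5 := ENNReal.toReal_mono (supAmp_lt_top H τ (rep y)).ne h4
      rwa [toReal_enorm] at h5
    have h6 : ‖ampT lam V t y‖ ≤ ‖amp H t (rep y)‖ + ‖amp H t (rep y) - ampT lam V t y‖ := by
      have := norm_sub_norm_le (ampT lam V t y) (amp H t (rep y))
      rw [norm_sub_rev] at this
      linarith
    show _ ≤ (supAmp H τ (rep y)).toReal + 2 * Real.exp (-(N : ℝ))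
    linarith
  have hcard : (S.card : ℝ) ≤ (τ / (40 * Γ)) ^ 2 := (card_ball r hr).trans hr'
  have hτL : τ ≤ 8 * ((2 * N + 1 : ℕ) : ℝ) ^ 2 := by
    have h1 : τ ≤ N := by
      refine le_trans ?_ hτN
      have h2 : 1 ≤ Real.exp 2 * (4 * (d : ℝ) + 1) := by
        have := Real.add_one_le_exp (2 : ℝ)
        nlinarith
      nlinarith
    have h3 : (1 : ℝ) ≤ N := by exact_mod_cast hN
    push_cast
    nlinarith
  have hmain := Dynt.dyn d (2 * N + 1) hd Γ hΓ hGB lam (1 / 10) (by norm_num) le_rfl V hflat τ hτ hτL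
    q hqb S hcard
  have hsum : ∑ y ∈ Sᶜ, q y ≤ ∑ y ∈ Sᶜ, (supAmp H τ (rep y)).toReal + 1 / 10 := by
    rw [hq, Finset.sum_add_distrib]
    gcongr
    rw [Finset.sum_const, nsmul_eq_mul]
    refine le_trans ?_ hsmall
    gcongr
    have h1 : (Sᶜ).card ≤ Fintype.card (T d (2 * N + 1)) := Finset.card_le_univ _
    have h2 : Fintype.card (T d (2 * N + 1)) = (2 * N + 1) ^ d := by
      simp [T, ZMod.card]
    rw [h2] at h1
    exact_mod_cast h1
  have hhalf : (1 / 2 : ℝ) ≤ ∑ y ∈ Sᶜ, (supAmp H τ (rep y)).toReal := by linarith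
  have hE : (1 / 2 : ℝ≥0∞) ≤ ∑ y ∈ Sᶜ, supAmp H τ (rep y) := by
    have h1 : (∑ y ∈ Sᶜ, supAmp H τ (rep y)).toReal = ∑ y ∈ Sᶜ, (supAmp H τ (rep y)).toReal :=
      ENNReal.toReal_sum fun y _ => (supAmp_lt_top H τ _).ne
    have h2 : (1 / 2 : ℝ≥0∞) = ENNReal.ofReal (1 / 2) := by
      rw [ENNReal.ofReal_div_of_pos (by norm_num)]
      simp
    rw [h2]
    refine ENNReal.ofReal_le_of_le_toReal ?_
    rw [h1]
    exact hhalf
  refine hE.trans ?_
  have hmem : ∀ y ∈ Sᶜ, r < ‖rep y‖ := by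
    intro y hy
    simpa [hS] using hy
  calc ∑ y ∈ Sᶜ, supAmp H τ (rep y)
      = ∑ y : {y // y ∈ Sᶜ}, supAmp H τ (rep y.1) := (Finset.sum_coe_sort _ _).symm
    _ = ∑ x ∈ Finset.univ.map ⟨fun y : {y // y ∈ Sᶜ} =>
          (⟨rep y.1, hmem y.1 y.2⟩ : {x : Fin d → ℤ // r < ‖x‖}), fun a b h => by
            have := congrArg Subtype.val h
            exact Subtype.ext (rep_inj this)⟩, supAmp H τ x.1 := by
          rw [Finset.sum_map]
          rfl
    _ ≤ ∑' x : {x : Fin d → ℤ // r < ‖x‖}, supAmp H τ x := ENNReal.sum_le_tsum _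

end FinA
end Pool.Agent.H4R2.AE
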