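import Pool.Agent.H4R2.AE.FinA

set_option autoImplicit false

open scoped BigOperators ENNReal
open MeasureTheory Filter

namespace Pool.Agent.H4R2.AE
namespace FinA

theorem log_bound (X : ℝ) (hX : 1 ≤ X) : 1 + Real.log X ≤ 4 * X ^ (1 / 4 : ℝ) := by
  have hX0 : 0 < X := by linarith
  have h1 : Real.log (X ^ (1 / 4 : ℝ)) ≤ X ^ (1 / 4 : ℝ) - 1 :=
    Real.log_le_sub_one_of_pos (Real.rpow_pos_of_pos hX0 _)
  rw [Real.log_rpow hX0] at h1
  have h2 : 1 ≤ X ^ (1 / 4 : ℝ) := Real.one_le_rpow hX (by norm_num)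
  linarith

theorem sq_log_bound (A X : ℝ) (hA : 0 ≤ A) (hX : 1 ≤ X) (h : 256 * A ^ 2 ≤ X) :
    A * (1 + Real.log X) ^ 2 ≤ X := by
  have hX0 : 0 < X := by linarith
  have h1 := log_bound X hX
  have h0 : 0 ≤ 1 + Real.log X := by linarith [Real.log_nonneg hX]
  have h2 : (1 + Real.log X) ^ 2 ≤ (4 * X ^ (1 / 4 : ℝ)) ^ 2 := by gcongr
  have h3 : (X ^ (1 / 4 : ℝ)) ^ 2 = Real.sqrt X := by
    rw [← Real.rpow_natCast, ← Real.rpow_mul hX0.le, Real.sqrt_eq_rpow]
    norm_num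
  have h4 : (1 + Real.log X) ^ 2 ≤ 16 * Real.sqrt X := by
    refine h2.trans (le_of_eq ?_)
    rw [mul_pow, h3]; norm_num
  have h5 : 16 * A ≤ Real.sqrt X := by
    refine Real.le_sqrt_of_sq_le ?_
    nlinarith
  calc A * (1 + Real.log X) ^ 2 ≤ A * (16 * Real.sqrt X) := by gcongr
    _ = 16 * A * Real.sqrt X := by ring
    _ ≤ Real.sqrt X * Real.sqrt X := by gcongr
    _ = X := Real.mul_self_sqrt hX0.le

theorem exists_X0 (d : ℕ) (A : ℝ) (hA : 0 ≤ A) : ∃ X0 : ℝ, 6 ≤ X0 ∧ ∀ X : ℝ, X0 ≤ X →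
    A * (1 + Real.log X) ^ 2 ≤ X ∧ X ^ d * (2 * Real.exp (-(X / 6))) ≤ 1 / 10 := by
  have h1 : Tendsto (fun X : ℝ => (X / 6) ^ d * Real.exp (-(X / 6))) atTop (nhds 0) :=
    (Real.tendsto_pow_mul_exp_neg_atTop_nhds_zero d).comp (tendsto_id.atTop_div_const (by norm_num))
  have h2 : ∀ᶠ X : ℝ in atTop, (X / 6) ^ d * Real.exp (-(X / 6)) < 1 / (20 * 6 ^ d) :=
    h1.eventually (gt_mem_nhds (by positivity))
  obtain ⟨X1, hX1⟩ := eventually_atTop.1 h2
  refine ⟨max (max 6 X1) (256 * A ^ 2), (le_max_left _ _).trans (le_max_left _ _), fun X hX => ?_⟩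
  have a1 : 6 ≤ X := ((le_max_left _ _).trans (le_max_left _ _)).trans hX
  have a2 : X1 ≤ X := ((le_max_right _ _).trans (le_max_left _ _)).trans hX
  have a3 : 256 * A ^ 2 ≤ X := (le_max_right _ _).trans hX
  refine ⟨sq_log_bound A X hA (by linarith) a3, ?_⟩
  have h3 := hX1 X a2
  have h4 : X ^ d * (2 * Real.exp (-(X / 6))) = 2 * 6 ^ d * ((X / 6) ^ d * Real.exp (-(X / 6))) := by
    rw [div_pow]
    field_simp
  rw [h4]
  calc 2 * 6 ^ d * ((X / 6) ^ d * Real.exp (-(X / 6))) ≤ 2 * 6 ^ d * (1 / (20 * 6 ^ d)) := by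
        gcongr
    _ = 1 / 10 := by field_simp; norm_num

theorem supAmp_mono {d : ℕ} (H : L2 d →L[ℂ] L2 d) {τ τ' : ℝ} (h : τ ≤ τ') (x : Fin d → ℤ) :
    supAmp H τ x ≤ supAmp H τ' x := by
  unfold supAmp
  exact biSup_mono fun t ht => ⟨ht.1, ht.2.trans h⟩

theorem tsum_mono_set {d : ℕ} (f : (Fin d → ℤ) → ℝ≥0∞) {r r' : ℝ} (h : r' ≤ r) :
    ∑' x : {x : Fin d → ℤ // r < ‖x‖}, f x ≤ ∑' x : {x : Fin d → ℤ // r' < ‖x‖}, f x := by
  have := ENNReal.tsum_comp_le_tsum_of_injective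
    (f := fun x : {x : Fin d → ℤ // r < ‖x‖} =>
      (⟨x.1, lt_of_le_of_lt h x.2⟩ : {x : Fin d → ℤ // r' < ‖x‖}))
    (fun a b hab => by
      have := congrArg Subtype.val hab
      exact Subtype.ext this)
    (fun x : {x : Fin d → ℤ // r' < ‖x‖} => f x)
  exact this

theorem combine {d : ℕ} (H : L2 d →L[ℂ] L2 d) {τ τ' r r' : ℝ} (h : τ ≤ τ') (h' : r' ≤ r)
    {a : ℝ≥0∞} (ha : a ≤ ∑' x : {x : Fin d → ℤ // r < ‖x‖}, supAmp H τ x) :
    a ≤ ∑' x : {x : Fin d → ℤ // r' < ‖x‖}, supAmp H τ' x := by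
  have h1 : ∑' x : {x : Fin d → ℤ // r < ‖x‖}, supAmp H τ x ≤
      ∑' x : {x : Fin d → ℤ // r < ‖x‖}, supAmp H τ' x :=
    ENNReal.tsum_le_tsum fun x => supAmp_mono H h x.1
  exact ha.trans (h1.trans (tsum_mono_set (fun x => supAmp H τ' x) h'))

/-- pull back a torus event to the infinite lattice -/
theorem pull_back (d N : ℕ) (μ : Measure ℝ) [IsProbabilityMeasure μ]
    (hμ : μ (Set.Icc (-1) 1)ᶜ = 0) (G0 : Set (T d (2 * N + 1) → ℝ)) (hG0 : MeasurableSet G0) :
    ∃ G : Set ((Fin d → ℤ) → ℝ), MeasurableSet G ∧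
      (Measure.pi fun _ : T d (2 * N + 1) => μ).real G0 ≤
        (Measure.infinitePi fun _ : Fin d → ℤ => μ).real G ∧
      ∀ ω ∈ G, (res ω : T d (2 * N + 1) → ℝ) ∈ G0 ∧ ∀ x, |ω x| ≤ 1 := by
  set P := Measure.infinitePi fun _ : Fin d → ℤ => μ with hP
  have hmapP : P.map (res : _ → (T d (2 * N + 1) → ℝ)) = Measure.pi fun _ => μ := map_res μ
  set B : Set ((Fin d → ℤ) → ℝ) := {ω | ∀ x, |ω x| ≤ 1} with hBdef
  have hBm : MeasurableSet B := by
    have : B = ⋂ x : Fin d → ℤ, {ω | |ω x| ≤ 1} := by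
      ext ω; simp [hBdef]
    rw [this]
    exact MeasurableSet.iInter fun x =>
      measurableSet_le (continuous_abs.measurable.comp (measurable_pi_apply x)) measurable_const
  have hBP : P Bᶜ = 0 := by
    have h1 : Bᶜ ⊆ ⋃ x : Fin d → ℤ, {ω | ¬ |ω x| ≤ 1} := by
      intro ω hω
      simpa [hBdef] using hω
    refine measure_mono_null h1 (measure_iUnion_null fun x => ?_)
    have h2 : {ω : (Fin d → ℤ) → ℝ | ¬ |ω x| ≤ 1} = (fun ω => ω x) ⁻¹' (Set.Icc (-1) 1)ᶜ := by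
      ext ω
      simp [abs_le]
    rw [h2, hP, (measurePreserving_eval_infinitePi (fun _ : Fin d → ℤ => μ) x).measure_preimage
      measurableSet_Icc.compl.nullMeasurableSet]
    exact hμ
  refine ⟨res ⁻¹' G0 ∩ B, (measurable_res hG0).inter hBm, ?_, fun ω hω => ⟨hω.1, hω.2⟩⟩
  have h1 : P.real (res ⁻¹' G0) = (Measure.pi fun _ : T d (2 * N + 1) => μ).real G0 := by
    rw [← hmapP, map_measureReal_apply measurable_res hG0]
  have h2 : P.real (res ⁻¹' G0 ∩ B) = P.real (res ⁻¹' G0) := by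
    refine measureReal_congr ?_
    refine inter_ae_eq_left_of_ae_eq_univ ?_
    exact (ae_eq_univ).2 hBP
  rw [h2, h1]

/-- main statement, infinite volume -/
theorem main (d : ℕ) (hd : 4 ≤ d) :
    ∃ c : ℝ, 0 < c ∧ ∀ (μ : Measure ℝ) [IsProbabilityMeasure μ], μ (Set.Icc (-1) 1)ᶜ = 0 →
      ∀ lam : ℝ, 0 < lam → lam ≤ c →
      ∃ G : Set ((Fin d → ℤ) → ℝ), MeasurableSet G ∧
        1 - Real.exp (-c / scale d lam) ≤ (Measure.infinitePi fun _ : Fin d → ℤ => μ).real G ∧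
        ∀ ω ∈ G, ∀ H : L2 d →L[ℂ] L2 d, IsAnderson lam ω H →
          (1 / 2 : ℝ≥0∞) ≤ ∑' x : {x : Fin d → ℤ // Real.exp (c / scale d lam) < ‖x‖},
            supAmp H (Real.exp (1 / scale d lam)) x := by
  obtain ⟨C, hC1, hGB, htorus⟩ := Core.main_torus d hd
  obtain ⟨cB, hcB, hB⟩ := htorus (1 / 10) (by norm_num) (by norm_num)
  have hC : 0 < C := by linarith
  have hd0 : (0 : ℝ) < d := by
    have : 0 < d := by omega
    exact_mod_cast this
  set D : ℝ := Real.exp 2 * (4 * (d : ℝ) + 1) with hD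
  have hDpos : 0 < D := by positivity
  have hD1 : 1 ≤ D := by
    have := Real.add_one_le_exp (2 : ℝ)
    nlinarith
  set A : ℝ := 3 ^ d * (240 * D * C) ^ 2 with hA
  have hApos : 0 ≤ A := by positivity
  obtain ⟨X0, hX06, hX0⟩ := exists_X0 d A hApos
  set c1 : ℝ := min 1 cB with hc1
  have hc1pos : 0 < c1 := lt_min one_pos hcB
  have hlogX0 : 0 < Real.log X0 := Real.log_pos (by linarith)
  set s0 : ℝ := min 1 (c1 / Real.log X0) with hs0
  have hs0pos : 0 < s0 := lt_min one_pos (by positivity)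
  have hs01 : s0 ≤ 1 := min_le_left _ _
  set c : ℝ := min (c1 / d) (s0 ^ 2) with hc
  have hcpos : 0 < c := lt_min (by positivity) (by positivity)
  have hcc1 : c ≤ c1 / d := min_le_left _ _
  have hcs0 : c ≤ s0 ^ 2 := min_le_right _ _
  have hd4 : (4 : ℝ) ≤ d := by exact_mod_cast hd
  have hc1d : c1 / d ≤ c1 := div_le_self hc1pos.le (by linarith)
  refine ⟨c, hcpos, ?_⟩
  intro μ _ hμ lam hlam hlamc
  set s := scale d lam with hs
  have hspos : 0 < s := Arith.scale_pos d lam hlam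
  have hss0 : s ≤ s0 := Arith.scale_le d lam s0 hs0pos hs01 (hlamc.trans hcs0)
  have hlam1 : lam ≤ 1 := hlamc.trans (hcs0.trans (by nlinarith))
  have hlamcB : lam ≤ cB := (hlamc.trans hcc1).trans (hc1d.trans (min_le_right _ _))
  set X : ℝ := Real.exp (c1 / s) with hX
  have hXX0 : X0 ≤ X := by
    have h1 : Real.log X0 ≤ c1 / s := by
      rw [le_div_iff₀ hspos]
      have h2 : s ≤ c1 / Real.log X0 := hss0.trans (min_le_right _ _)
      rw [le_div_iff₀ hlogX0] at h2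
      linarith
    rw [← Real.exp_log (show 0 < X0 by linarith)]
    exact Real.exp_le_exp.2 h1
  have hX6 : 6 ≤ X := hX06.trans hXX0
  obtain ⟨hXA, hXe⟩ := hX0 X hXX0
  set N : ℕ := ⌊X / 3⌋₊ with hN
  have hNle : (N : ℝ) ≤ X / 3 := Nat.floor_le (by positivity)
  have hNge : X / 6 ≤ (N : ℝ) := by
    have := Nat.lt_floor_add_one (X / 3)
    rw [← hN] at this
    linarith
  have hN1 : 1 ≤ N := by
    have : (1 : ℝ) ≤ N := by linarith
    exact_mod_cast this
  have hLX : ((2 * N + 1 : ℕ) : ℝ) ≤ X := by push_cast; linarith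
  have hX1 : 1 ≤ X := by linarith
  have hXcB : X ≤ Real.exp (cB / s) := by
    rw [hX]
    refine Real.exp_le_exp.2 ?_
    gcongr
    exact min_le_right _ _
  obtain ⟨E, -, G0, hG0, hP0, hflat⟩ := hB μ hμ lam hlam hlamcB (2 * N + 1) (hLX.trans hXcB)
  obtain ⟨G, hG, hPG, hGprop⟩ := pull_back d N μ hμ G0 hG0
  refine ⟨G, hG, ?_, ?_⟩
  · refine le_trans ?_ (hP0.trans hPG)
    have h3 : Real.exp (-cB / s) ≤ Real.exp (-c / s) := by
      refine Real.exp_le_exp.2 ?_
      rw [neg_div, neg_div, neg_le_neg_iff]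
      gcongr
      exact hcc1.trans (hc1d.trans (min_le_right _ _))
    exact sub_le_sub_left h3 1
  · intro ω hω H hH
    obtain ⟨hω1, hω2⟩ := hGprop ω hω
    have hF : Flat lam (1 / 10) (res ω : T d (2 * N + 1) → ℝ) := (hflat _ hω1).flat
    have hLlog : Real.log ((2 * N + 1 : ℕ) : ℝ) ≤ Real.log X := by
      refine Real.log_le_log ?_ hLX
      positivity
    set Γ : ℝ := Arith.Gam d C (2 * N + 1) with hΓ
    have hΓpos : 0 < Γ := lt_of_lt_of_le hC (Arith.Gam_ge d C hC _ (by omega))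
    have hΓle : Γ ≤ C * (1 + Real.log X) := by
      refine (Arith.Gam_le d C hC _ (by omega)).trans ?_
      gcongr
    set τ : ℝ := N / D with hτ
    have hNpos : (0 : ℝ) < N := by linarith
    have hτpos : 0 < τ := by positivity
    have hτN : Real.exp 2 * (4 * (d : ℝ) + 1) * τ ≤ (N : ℝ) := by
      rw [← hD, hτ]
      exact (mul_div_cancel₀ (N : ℝ) hDpos.ne').le
    set r : ℝ := Real.exp (c1 / d / s) with hr
    have hr1 : 1 ≤ r := Real.one_le_exp (by positivity)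
    have hrd : r ^ d = X := by
      rw [hr, hX, ← Real.exp_nat_mul]
      congr 1
      field_simp
    have h4 : 0 < 1 + Real.log X := by
      have := Real.log_nonneg hX1
      linarith
    have hrineq : (2 * r + 1) ^ d ≤ (τ / (40 * Γ)) ^ 2 := by
      have h1 : (2 * r + 1) ^ d ≤ 3 ^ d * X := by
        calc (2 * r + 1) ^ d ≤ (3 * r) ^ d := pow_le_pow_left₀ (by positivity) (by linarith) d
          _ = 3 ^ d * X := by rw [mul_pow, hrd]
      have h2 : X / (240 * D * (C * (1 + Real.log X))) ≤ τ / (40 * Γ) := by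
        rw [hτ, div_div]
        have h3 : X / (240 * D * (C * (1 + Real.log X))) =
            (X / 6) / (D * (40 * (C * (1 + Real.log X)))) := by
          rw [div_div]; ring_nf
        rw [h3]
        gcongr
      refine h1.trans (le_trans ?_ (pow_le_pow_left₀ (by positivity) h2 2))
      rw [div_pow, le_div_iff₀ (by positivity)]
      have h5 : 3 ^ d * X * (240 * D * (C * (1 + Real.log X))) ^ 2 =
          X * (A * (1 + Real.log X) ^ 2) := by
        rw [hA]; ring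
      rw [h5]
      calc X * (A * (1 + Real.log X) ^ 2) ≤ X * X := by gcongr
        _ = X ^ 2 := (sq X).symm
    have hsmall : ((2 * N + 1 : ℕ) : ℝ) ^ d * (2 * Real.exp (-(N : ℝ))) ≤ 1 / 10 := by
      refine le_trans ?_ hXe
      gcongr
    have hmain := det d N (by omega) hN1 Γ hΓpos (hGB (2 * N + 1)) lam hlam hlam1 ω hω2 hF τ r hτpos
      hτN (by linarith) hrineq hsmall H hH
    have hττ : τ ≤ Real.exp (1 / s) := by
      have h1 : τ ≤ N := by
        rw [hτ]; exact div_le_self hNpos.le hD1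
      have h2 : X ≤ Real.exp (1 / s) := by
        rw [hX]
        refine Real.exp_le_exp.2 ?_
        gcongr
        exact min_le_left _ _
      linarith
    have hcs : Real.exp (c / s) ≤ r := by
      rw [hr]
      refine Real.exp_le_exp.2 ?_
      gcongr
    exact combine H hττ hcs hmain

end FinA
end Pool.Agent.H4R2.AE
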