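import Pool.Agent.H4R2.AE.Core2
import Pool.Agent.H4R2.AE.FinA2

set_option autoImplicit false

open scoped BigOperators ENNReal
open MeasureTheory

namespace Pool.Agent.H4R2.AE
namespace FinAS

open FinA

/-- main statement, infinite volume -/
theorem main (d : ℕ) (hd : 4 ≤ d) :
    ∃ c : ℝ, 0 < c ∧ ∀ (μ : Measure ℝ) [IsProbabilityMeasure μ], μ (Set.Icc (-1) 1)ᶜ = 0 →
      ∀ lam : ℝ, 0 < lam → lam ≤ c →
      ∃ G : Set ((Fin d → ℤ) → ℝ), MeasurableSet G ∧
        1 - Real.exp (-c / scaleS d lam) ≤ (Measure.infinitePi fun _ : Fin d → ℤ => μ).real G ∧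
        ∀ ω ∈ G, ∀ H : L2 d →L[ℂ] L2 d, IsAnderson lam ω H →
          (1 / 2 : ℝ≥0∞) ≤ ∑' x : {x : Fin d → ℤ // Real.exp (c / scaleS d lam) < ‖x‖},
            supAmp H (Real.exp (1 / scaleS d lam)) x := by
  obtain ⟨C, hC1, hGB⟩ := Core.green_Gam d hd
  have htorus := Core2.main_torus d hd
  obtain ⟨cB, hcB, hB⟩ := htorus (1 / 10) (by norm_num) (by norm_num)
  have hC : 0 < C := by linarith
  have hd0 : (0 : ℝ) < d := by
    have : 0 < d := by omega
    exact_mod_cast this
  set D : ℝ := Real.exp 2 * (4 * (d : ℝ) + 1) with hD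
  have hDpos : 0 < D := by positivity
  have hD1 : 1 ≤ D := by
    have := Real.add_one_le_exp (2 : ℝ)
    nlinarith
  set A : ℝ := 3 ^ d * (240 * D * C) ^ 2 with hA
  have hApos : 0 ≤ A := by positivity
  obtain ⟨X0, hX06, hX0⟩ := exists_X0 d A hApos
  set c1 : ℝ := min 1 cB with hc1
  have hc1pos : 0 < c1 := lt_min one_pos hcB
  have hlogX0 : 0 < Real.log X0 := Real.log_pos (by linarith)
  set s0 : ℝ := min 1 (c1 / Real.log X0) with hs0
  have hs0pos : 0 < s0 := lt_min one_pos (by positivity)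
  have hs01 : s0 ≤ 1 := min_le_left _ _
  set c : ℝ := min (c1 / d) (s0 ^ 2) with hc
  have hcpos : 0 < c := lt_min (by positivity) (by positivity)
  have hcc1 : c ≤ c1 / d := min_le_left _ _
  have hcs0 : c ≤ s0 ^ 2 := min_le_right _ _
  have hd4 : (4 : ℝ) ≤ d := by exact_mod_cast hd
  have hc1d : c1 / d ≤ c1 := div_le_self hc1pos.le (by linarith)
  refine ⟨c, hcpos, ?_⟩
  intro μ _ hμ lam hlam hlamc
  set s := scaleS d lam with hs
  have hspos : 0 < s := Arith2.scaleS_pos d lam hlam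
  have hss0 : s ≤ s0 := Arith2.scaleS_le d (by omega) lam s0 hs0pos hs01 (hlamc.trans hcs0)
  have hlam1 : lam ≤ 1 := hlamc.trans (hcs0.trans (by nlinarith))
  have hlamcB : lam ≤ cB := (hlamc.trans hcc1).trans (hc1d.trans (min_le_right _ _))
  set X : ℝ := Real.exp (c1 / s) with hX
  have hXX0 : X0 ≤ X := by
    have h1 : Real.log X0 ≤ c1 / s := by
      rw [le_div_iff₀ hspos]
      have h2 : s ≤ c1 / Real.log X0 := hss0.trans (min_le_right _ _)
      rw [le_div_iff₀ hlogX0] at h2
      linarith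
    rw [← Real.exp_log (show 0 < X0 by linarith)]
    exact Real.exp_le_exp.2 h1
  have hX6 : 6 ≤ X := hX06.trans hXX0
  obtain ⟨hXA, hXe⟩ := hX0 X hXX0
  set N : ℕ := ⌊X / 3⌋₊ with hN
  have hNle : (N : ℝ) ≤ X / 3 := Nat.floor_le (by positivity)
  have hNge : X / 6 ≤ (N : ℝ) := by
    have := Nat.lt_floor_add_one (X / 3)
    rw [← hN] at this
    linarith
  have hN1 : 1 ≤ N := by
    have : (1 : ℝ) ≤ N := by linarith
    exact_mod_cast this
  have hLX : ((2 * N + 1 : ℕ) : ℝ) ≤ X := by push_cast; linarith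
  have hX1 : 1 ≤ X := by linarith
  have hXcB : X ≤ Real.exp (cB / s) := by
    rw [hX]
    refine Real.exp_le_exp.2 ?_
    gcongr
    exact min_le_right _ _
  obtain ⟨E, -, G0, hG0, hP0, hflat⟩ := hB μ hμ lam hlam hlamcB (2 * N + 1) (hLX.trans hXcB)
  obtain ⟨G, hG, hPG, hGprop⟩ := pull_back d N μ hμ G0 hG0
  refine ⟨G, hG, ?_, ?_⟩
  · refine le_trans ?_ (hP0.trans hPG)
    have h3 : Real.exp (-cB / s) ≤ Real.exp (-c / s) := by
      refine Real.exp_le_exp.2 ?_
      rw [neg_div, neg_div, neg_le_neg_iff]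
      gcongr
      exact hcc1.trans (hc1d.trans (min_le_right _ _))
    exact sub_le_sub_left h3 1
  · intro ω hω H hH
    obtain ⟨hω1, hω2⟩ := hGprop ω hω
    have hF : Flat lam (1 / 10) (res ω : T d (2 * N + 1) → ℝ) := (hflat _ hω1).flat
    have hLlog : Real.log ((2 * N + 1 : ℕ) : ℝ) ≤ Real.log X := by
      refine Real.log_le_log ?_ hLX
      positivity
    set Γ : ℝ := Arith.Gam d C (2 * N + 1) with hΓ
    have hΓpos : 0 < Γ := lt_of_lt_of_le hC (Arith.Gam_ge d C hC _ (by omega))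
    have hΓle : Γ ≤ C * (1 + Real.log X) := by
      refine (Arith.Gam_le d C hC _ (by omega)).trans ?_
      gcongr
    set τ : ℝ := N / D with hτ
    have hNpos : (0 : ℝ) < N := by linarith
    have hτpos : 0 < τ := by positivity
    have hτN : Real.exp 2 * (4 * (d : ℝ) + 1) * τ ≤ (N : ℝ) := by
      rw [← hD, hτ]
      exact (mul_div_cancel₀ (N : ℝ) hDpos.ne').le
    set r : ℝ := Real.exp (c1 / d / s) with hr
    have hr1 : 1 ≤ r := Real.one_le_exp (by positivity)
    have hrd : r ^ d = X := by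
      rw [hr, hX, ← Real.exp_nat_mul]
      congr 1
      field_simp
    have h4 : 0 < 1 + Real.log X := by
      have := Real.log_nonneg hX1
      linarith
    have hrineq : (2 * r + 1) ^ d ≤ (τ / (40 * Γ)) ^ 2 := by
      have h1 : (2 * r + 1) ^ d ≤ 3 ^ d * X := by
        calc (2 * r + 1) ^ d ≤ (3 * r) ^ d := pow_le_pow_left₀ (by positivity) (by linarith) d
          _ = 3 ^ d * X := by rw [mul_pow, hrd]
      have h2 : X / (240 * D * (C * (1 + Real.log X))) ≤ τ / (40 * Γ) := by
        rw [hτ, div_div]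
        have h3 : X / (240 * D * (C * (1 + Real.log X))) =
            (X / 6) / (D * (40 * (C * (1 + Real.log X)))) := by
          rw [div_div]; ring_nf
        rw [h3]
        gcongr
      refine h1.trans (le_trans ?_ (pow_le_pow_left₀ (by positivity) h2 2))
      rw [div_pow, le_div_iff₀ (by positivity)]
      have h5 : 3 ^ d * X * (240 * D * (C * (1 + Real.log X))) ^ 2 =
          X * (A * (1 + Real.log X) ^ 2) := by
        rw [hA]; ring
      rw [h5]
      calc X * (A * (1 + Real.log X) ^ 2) ≤ X * X := by gcongr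
        _ = X ^ 2 := (sq X).symm
    have hsmall : ((2 * N + 1 : ℕ) : ℝ) ^ d * (2 * Real.exp (-(N : ℝ))) ≤ 1 / 10 := by
      refine le_trans ?_ hXe
      gcongr
    have hmain := det d N (by omega) hN1 Γ hΓpos (hGB (2 * N + 1)) lam hlam hlam1 ω hω2 hF τ r hτpos
      hτN (by linarith) hrineq hsmall H hH
    have hττ : τ ≤ Real.exp (1 / s) := by
      have h1 : τ ≤ N := by
        rw [hτ]; exact div_le_self hNpos.le hD1
      have h2 : X ≤ Real.exp (1 / s) := by
        rw [hX]
        refine Real.exp_le_exp.2 ?_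
        gcongr
        exact min_le_left _ _
      linarith
    have hcs : Real.exp (c / s) ≤ r := by
      rw [hr]
      refine Real.exp_le_exp.2 ?_
      gcongr
    exact combine H hττ hcs hmain

end FinAS
end Pool.Agent.H4R2.AE
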