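import Pool.Agent.H4R2.AE.Defs

/-!
# The growth event for iid Gaussians
-/

set_option autoImplicit false

open scoped BigOperators ENNReal
open MeasureTheory ProbabilityTheory

namespace Pool.Agent.H4R2.AE.Grow

/-- the Gaussian tail -/
theorem tail (a : ℝ) (ha : 0 ≤ a) :
    (gaussianReal 0 1).real {x : ℝ | a ≤ |x|} ≤ 2 * Real.exp (-(a ^ 2 / 2)) := by
  have h1 := measure_ge_le_exp_mul_mgf (μ := gaussianReal 0 1) (X := fun x : ℝ => x) a ha
    (integrable_exp_mul_gaussianReal a)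
  have h2 := measure_le_le_exp_mul_mgf (μ := gaussianReal 0 1) (X := fun x : ℝ => x) (-a)
    (neg_nonpos.2 ha) (integrable_exp_mul_gaussianReal (-a))
  rw [mgf_fun_id_gaussianReal] at h1 h2
  have e1 : Real.exp (-a * a) * Real.exp (0 * a + ((1 : NNReal) : ℝ) * a ^ 2 / 2) =
      Real.exp (-(a ^ 2 / 2)) := by
    rw [← Real.exp_add]; congr 1; push_cast; ring
  have e2 : Real.exp (- -a * -a) * Real.exp (0 * -a + ((1 : NNReal) : ℝ) * (-a) ^ 2 / 2) =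
      Real.exp (-(a ^ 2 / 2)) := by
    rw [← Real.exp_add]; congr 1; push_cast; ring
  simp only [e1] at h1
  simp only [e2] at h2
  have h3 : {x : ℝ | a ≤ |x|} ⊆ {x : ℝ | a ≤ x} ∪ {x : ℝ | x ≤ -a} := by
    intro x hx
    rcases abs_cases x with h | h
    · left; show a ≤ x; rw [← h.1]; exact hx
    · right; show x ≤ -a
      have : a ≤ |x| := hx
      linarith [h.1]
  calc (gaussianReal 0 1).real {x : ℝ | a ≤ |x|}
      ≤ (gaussianReal 0 1).real ({x : ℝ | a ≤ x} ∪ {x : ℝ | x ≤ -a}) := measureReal_mono h3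
    _ ≤ (gaussianReal 0 1).real {x : ℝ | a ≤ x} + (gaussianReal 0 1).real {x : ℝ | x ≤ -a} :=
        measureReal_union_le _ _
    _ ≤ Real.exp (-(a ^ 2 / 2)) + Real.exp (-(a ^ 2 / 2)) := add_le_add h1 h2
    _ = _ := by ring

/-- the boxes -/
noncomputable def Box (d N k : ℕ) : Finset (Fin d → ℤ) :=
  Fintype.piFinset fun _ => Finset.Icc (-(2 ^ (k + 1) * (N : ℤ))) (2 ^ (k + 1) * (N : ℤ))

theorem mem_Box {d N k : ℕ} {x : Fin d → ℤ} :
    x ∈ Box d N k ↔ ∀ i, |x i| ≤ 2 ^ (k + 1) * (N : ℤ) := by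
  unfold Box
  rw [Fintype.mem_piFinset]
  refine forall_congr' fun i => ?_
  rw [Finset.mem_Icc, abs_le]

theorem card_Box (d N k : ℕ) (hN : 1 ≤ N) : ((Box d N k).card : ℝ) ≤ (2 ^ (k + 3) * (N : ℝ)) ^ d := by
  unfold Box
  rw [Fintype.card_piFinset]
  simp only [Int.card_Icc, Finset.prod_const, Finset.card_univ, Fintype.card_fin]
  push_cast
  gcongr
  have h1 : (2 ^ (k + 1) * (N : ℤ) + 1 - -(2 ^ (k + 1) * (N : ℤ))).toNat ≤ 2 ^ (k + 3) * N := by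
    have h2 : (1 : ℤ) ≤ 2 ^ (k + 1) := one_le_pow₀ (by norm_num)
    have h3 : (1 : ℤ) ≤ N := by exact_mod_cast hN
    have h4 : (2 : ℤ) ^ (k + 3) = 4 * 2 ^ (k + 1) := by ring
    have h5 : (1 : ℤ) ≤ 2 ^ (k + 1) * (N : ℤ) := by nlinarith
    rw [Int.toNat_le]
    push_cast
    rw [h4]
    linarith
  exact_mod_cast h1

theorem arith (d k : ℕ) (c s N : ℝ) (hc : c = 1 / (4 * ((d : ℝ) + 1))) (hs : 1 / c ^ 2 ≤ s)
    (hN0 : 0 ≤ N) (hN : N ≤ Real.exp (c * s)) :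
    (2 ^ (k + 3) * N) ^ d * (2 * Real.exp (-((1 + k) ^ 2 * s / 2))) ≤
      Real.exp (-(c * s)) / 2 / 2 ^ k := by
  have hd : (0 : ℝ) ≤ d := Nat.cast_nonneg d
  have hk : (0 : ℝ) ≤ k := Nat.cast_nonneg k
  have hcd : ((d : ℝ) + 1) * c = 1 / 4 := by rw [hc]; field_simp
  have hs' : 16 * ((d : ℝ) + 1) ^ 2 ≤ s := by
    have : 1 / c ^ 2 = 16 * ((d : ℝ) + 1) ^ 2 := by rw [hc]; field_simp; ring
    linarith
  have h2 : (2 : ℝ) ≤ Real.exp 1 := by
    have := Real.add_one_le_exp (1 : ℝ)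
    linarith
  have h3 : (2 ^ (k + 3) * N) ^ d ≤ (2 ^ (k + 3)) ^ d * Real.exp (d * (c * s)) := by
    rw [mul_pow]
    have : N ^ d ≤ Real.exp (d * (c * s)) := by
      rw [Real.exp_nat_mul]
      exact pow_le_pow_left₀ hN0 hN d
    gcongr
  have h4 : (2 : ℝ) ^ ((k + 3) * d + 2 + k) ≤ Real.exp ((((k + 3) * d + 2 + k : ℕ)) : ℝ) := by
    rw [← Real.exp_one_pow]
    exact pow_le_pow_left₀ (by norm_num) h2 _
  have h5 : ((((k + 3) * d + 2 + k : ℕ)) : ℝ) ≤ (1 + k) ^ 2 * s / 2 - (d + 1) * (c * s) := by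
    have e : (1 + (k : ℝ)) ^ 2 * s / 2 - (d + 1) * (c * s) = ((1 + (k : ℝ)) ^ 2 / 2 - 1 / 4) * s := by
      have : ((d : ℝ) + 1) * (c * s) = 1 / 4 * s := by rw [← mul_assoc, hcd]
      rw [this]; ring
    rw [e]
    have h6 : (1 + (k : ℝ)) / 4 ≤ (1 + (k : ℝ)) ^ 2 / 2 - 1 / 4 := by nlinarith
    have h7 : (1 + (k : ℝ)) / 4 * (16 * ((d : ℝ) + 1) ^ 2) ≤ ((1 + (k : ℝ)) ^ 2 / 2 - 1 / 4) * s := by
      apply mul_le_mul h6 hs' (by positivity)
      nlinarith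
    refine le_trans ?_ h7
    push_cast
    nlinarith [mul_nonneg hk hd, mul_nonneg hk (mul_nonneg hd hd), mul_nonneg hd hd]
  have h6 : (2 ^ (k + 3)) ^ d * Real.exp (d * (c * s)) * (2 * Real.exp (-((1 + k) ^ 2 * s / 2))) *
      (2 * 2 ^ k) ≤ Real.exp (-(c * s)) := by
    have e1 : (2 ^ (k + 3)) ^ d * Real.exp (d * (c * s)) *
        (2 * Real.exp (-((1 + (k : ℝ)) ^ 2 * s / 2))) * (2 * 2 ^ k) =
        2 ^ ((k + 3) * d + 2 + k) *
          (Real.exp (d * (c * s)) * Real.exp (-((1 + (k : ℝ)) ^ 2 * s / 2))) := by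
      rw [← pow_mul]; ring
    rw [e1, ← Real.exp_add]
    calc (2 : ℝ) ^ ((k + 3) * d + 2 + k) * Real.exp (d * (c * s) + -((1 + k) ^ 2 * s / 2))
        ≤ Real.exp ((((k + 3) * d + 2 + k : ℕ)) : ℝ) *
          Real.exp (d * (c * s) + -((1 + k) ^ 2 * s / 2)) := by gcongr
      _ = Real.exp ((((k + 3) * d + 2 + k : ℕ)) + (d * (c * s) + -((1 + k) ^ 2 * s / 2))) := by
          rw [← Real.exp_add]
      _ ≤ Real.exp (-(c * s)) := by
          apply Real.exp_le_exp.2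
          linarith
  rw [le_div_iff₀ (by positivity), le_div_iff₀ (by norm_num)]
  calc (2 ^ (k + 3) * N) ^ d * (2 * Real.exp (-((1 + k) ^ 2 * s / 2))) * 2 ^ k * 2
      ≤ (2 ^ (k + 3)) ^ d * Real.exp (d * (c * s)) * (2 * Real.exp (-((1 + k) ^ 2 * s / 2))) *
        2 ^ k * 2 := by gcongr
    _ = (2 ^ (k + 3)) ^ d * Real.exp (d * (c * s)) * (2 * Real.exp (-((1 + k) ^ 2 * s / 2))) *
      (2 * 2 ^ k) := by ring
    _ ≤ _ := h6

theorem grow (d : ℕ) : ∃ c : ℝ, 0 < c ∧ ∀ σ : ℝ, 0 < σ → σ ≤ c → ∀ N : ℕ, 1 ≤ N →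
    (N : ℝ) ≤ Real.exp (c / σ ^ 2) → ∃ G : Set ((Fin d → ℤ) → ℝ), MeasurableSet G ∧
      1 - Real.exp (-(c / σ ^ 2)) ≤
        (Measure.infinitePi fun _ : Fin d → ℤ => gaussianReal 0 1).real G ∧
      ∀ ξ ∈ G, ∀ (k : ℕ) (x : Fin d → ℤ), (∀ i, |x i| ≤ 2 ^ (k + 1) * (N : ℤ)) →
        |σ * ξ x| ≤ 1 + k := by
  refine ⟨1 / (4 * ((d : ℝ) + 1)), by positivity, ?_⟩
  intro σ hσ hσc N hN hNc
  set c : ℝ := 1 / (4 * ((d : ℝ) + 1)) with hc
  have hc0 : 0 < c := by positivity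
  set μ := (Measure.infinitePi fun _ : Fin d → ℤ => gaussianReal 0 1) with hμ
  have hcs : c / σ ^ 2 = c * (1 / σ ^ 2) := by ring
  -- the bad events
  let B : ℕ → (Fin d → ℤ) → Set ((Fin d → ℤ) → ℝ) := fun k x => {ξ | (1 + k) / σ ≤ |ξ x|}
  have hBmeas : ∀ k x, MeasurableSet (B k x) := by
    intro k x
    exact measurableSet_le measurable_const ((measurable_pi_apply x).abs)
  have hB : ∀ (k : ℕ) x, μ (B k x) ≤
      ENNReal.ofReal (2 * Real.exp (-((1 + k) ^ 2 * (1 / σ ^ 2) / 2))) := by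
    intro k x
    have h1 : μ (B k x) = gaussianReal 0 1 {y : ℝ | (1 + k) / σ ≤ |y|} := by
      have h2 := (measurePreserving_eval_infinitePi (fun _ : Fin d → ℤ => gaussianReal 0 1) x)
      have h3 : MeasurableSet {y : ℝ | (1 + k) / σ ≤ |y|} :=
        measurableSet_le measurable_const measurable_id.abs
      rw [← h2.measure_preimage h3.nullMeasurableSet]
      rfl
    have h4 := tail ((1 + k) / σ) (by positivity)
    rw [h1, ← ofReal_measureReal]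
    apply ENNReal.ofReal_le_ofReal
    refine h4.trans (le_of_eq ?_)
    congr 3
    field_simp
  have hbad : ∀ k : ℕ, μ (⋃ x ∈ Box d N k, B k x) ≤
      ENNReal.ofReal (Real.exp (-(c / σ ^ 2)) / 2 / 2 ^ k) := by
    intro k
    calc μ (⋃ x ∈ Box d N k, B k x) ≤ ∑ x ∈ Box d N k, μ (B k x) := measure_biUnion_finset_le _ _
      _ ≤ ∑ _x ∈ Box d N k, ENNReal.ofReal (2 * Real.exp (-((1 + k) ^ 2 * (1 / σ ^ 2) / 2))) :=
          Finset.sum_le_sum fun x _ => hB k x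
      _ = ENNReal.ofReal ((Box d N k).card * (2 * Real.exp (-((1 + k) ^ 2 * (1 / σ ^ 2) / 2)))) := by
          rw [Finset.sum_const, nsmul_eq_mul, ENNReal.ofReal_mul (Nat.cast_nonneg _),
            ENNReal.ofReal_natCast]
      _ ≤ ENNReal.ofReal (Real.exp (-(c / σ ^ 2)) / 2 / 2 ^ k) := by
          apply ENNReal.ofReal_le_ofReal
          have h1 := arith d k c (1 / σ ^ 2) N hc (by
            apply one_div_le_one_div_of_le (by positivity)
            exact pow_le_pow_left₀ hσ.le hσc 2) (Nat.cast_nonneg N) (by rw [← hcs]; exact hNc)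
          rw [← hcs] at h1
          refine le_trans ?_ h1
          gcongr
          exact card_Box d N k hN
  have htot : μ (⋃ k : ℕ, ⋃ x ∈ Box d N k, B k x) ≤ ENNReal.ofReal (Real.exp (-(c / σ ^ 2))) := by
    calc μ (⋃ k : ℕ, ⋃ x ∈ Box d N k, B k x) ≤ ∑' k : ℕ, μ (⋃ x ∈ Box d N k, B k x) :=
          measure_iUnion_le _
      _ ≤ ∑' k : ℕ, ENNReal.ofReal (Real.exp (-(c / σ ^ 2)) / 2 / 2 ^ k) :=
          ENNReal.tsum_le_tsum hbad
      _ = ENNReal.ofReal (Real.exp (-(c / σ ^ 2))) := by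
          have h1 := hasSum_geometric_two' (Real.exp (-(c / σ ^ 2)))
          rw [← ENNReal.ofReal_tsum_of_nonneg (fun k => by positivity) h1.summable, h1.tsum_eq]
  have hmeas : MeasurableSet (⋃ k : ℕ, ⋃ x ∈ Box d N k, B k x) :=
    MeasurableSet.iUnion fun k => Finset.measurableSet_biUnion _ fun x _ => hBmeas k x
  refine ⟨(⋃ k : ℕ, ⋃ x ∈ Box d N k, B k x)ᶜ, hmeas.compl, ?_, ?_⟩
  · rw [probReal_compl_eq_one_sub hmeas]
    have h1 : μ.real (⋃ k : ℕ, ⋃ x ∈ Box d N k, B k x) ≤ Real.exp (-(c / σ ^ 2)) := by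
      rw [measureReal_def]
      exact ENNReal.toReal_le_of_le_ofReal (Real.exp_pos _).le htot
    linarith
  · intro ξ hξ k x hx
    by_contra hcon
    apply hξ
    rw [Set.mem_iUnion]
    refine ⟨k, ?_⟩
    rw [Set.mem_iUnion₂]
    refine ⟨x, mem_Box.2 hx, ?_⟩
    show (1 + k) / σ ≤ |ξ x|
    rw [div_le_iff₀ hσ]
    rw [abs_mul, abs_of_pos hσ] at hcon
    linarith

end Pool.Agent.H4R2.AE.Grow
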