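import Pool.Agent.H4R2.AE.Defs
import Pool.Agent.H4R2.AE.Bridge
import Pool.Agent.H4R2.AE.Loc

/-!
# Locality for a potential growing logarithmically
-/

set_option autoImplicit false

open scoped BigOperators Nat

namespace Pool.Agent.H4R2.AE.Locg

open Pool.Agent.H4R2.AE.Loc (pr pr_add pr_sub pr_eq_zero exists_pr co norm_co)

section

variable {d N : ℕ} {W : (Fin d → ℤ) → ℝ} {V : T d (2 * N + 1) → ℝ}

/-- the powers on the lattice -/
noncomputable def F (W : (Fin d → ℤ) → ℝ) (n : ℕ) (x : Fin d → ℤ) : ℂ :=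
  ((Bridge.Hf 1 W)^[n] (fun y => if y = 0 then 1 else 0)) x

theorem F_succ (n : ℕ) (x : Fin d → ℤ) :
    F W (n + 1) x = ∑ i : Fin d, (2 * F W n x - F W n (x + Pi.single i 1) -
      F W n (x - Pi.single i 1)) + ((1 * W x : ℝ) : ℂ) * F W n x := by
  unfold F
  rw [Function.iterate_succ_apply']
  unfold Bridge.Hf
  congr 1
  rw [← Finset.sum_neg_distrib]
  exact Finset.sum_congr rfl fun i _ => by ring

theorem F_zero (x : Fin d → ℤ) : F W 0 x = if x = 0 then 1 else 0 := rfl

theorem F_supp (n : ℕ) : ∀ (x : Fin d → ℤ) (i : Fin d),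
    (n : ℤ) < |x i| → F W n x = 0 := by
  induction n with
  | zero =>
    intro x i hx
    rw [F_zero, if_neg]
    rintro rfl
    simp at hx
  | succ n ih =>
    intro x i hx
    push_cast at hx
    rw [F_succ]
    have h0 : F W n x = 0 := ih x i (by omega)
    have h1 : ∀ j : Fin d, F W n (x + Pi.single j 1) = 0 := by
      intro j
      apply ih _ i
      by_cases h : i = j
      · subst h
        rw [Pi.add_apply, Pi.single_eq_same]
        rcases abs_cases (x i) with h1 | h1 <;> rcases abs_cases (x i + 1) with h2 | h2 <;> omega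
      · rw [Pi.add_apply, Pi.single_eq_of_ne h, add_zero]
        omega
    have h2 : ∀ j : Fin d, F W n (x - Pi.single j 1) = 0 := by
      intro j
      apply ih _ i
      by_cases h : i = j
      · subst h
        rw [Pi.sub_apply, Pi.single_eq_same]
        rcases abs_cases (x i) with h1 | h1 <;> rcases abs_cases (x i - 1) with h2 | h2 <;> omega
      · rw [Pi.sub_apply, Pi.single_eq_of_ne h, sub_zero]
        omega
    simp [h0, h1, h2]

theorem F_eq_G
    (hV : ∀ x : Fin d → ℤ, (∀ i, |x i| ≤ (N : ℤ)) → V (pr N x) = W x) (n : ℕ) (hn : n ≤ N) :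
    ∀ x : Fin d → ℤ, (∀ i, |x i| ≤ (N : ℤ)) → F W n x = Loc.G 1 V n (pr N x) := by
  induction n with
  | zero =>
    intro x hx
    rw [F_zero, Loc.G_zero]
    by_cases h : x = 0
    · rw [if_pos h, if_pos ((pr_eq_zero hx).2 h)]
    · rw [if_neg h, if_neg (fun h' => h ((pr_eq_zero hx).1 h'))]
  | succ n ih =>
    intro x hx
    have ih' := ih (by omega)
    -- values just outside of the box
    have key : ∀ (y : Fin d → ℤ) (i : Fin d), (∀ j, j ≠ i → |y j| ≤ (N : ℤ)) →
        |y i| ≤ (N : ℤ) + 1 → F W n y = Loc.G 1 V n (pr N y) := by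
      intro y i h1 h2
      by_cases h3 : |y i| ≤ (N : ℤ)
      · apply ih'
        intro j
        by_cases h : j = i
        · subst h; exact h3
        · exact h1 j h
      · have h4 : |y i| = (N : ℤ) + 1 := by omega
        have h5 : F W n y = 0 := F_supp n y i (by omega)
        rw [h5]
        -- the other representative
        have h6 : ∃ z : ℤ, |z| = (N : ℤ) ∧ ((z : ℤ) : ZMod (2 * N + 1)) = ((y i : ℤ) : ZMod _) := by
          rcases abs_cases (y i) with h | h
          · refine ⟨-N, by simp, ?_⟩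
            have e : y i = -N + ((2 * N + 1 : ℕ) : ℤ) := by push_cast; omega
            rw [e, Int.cast_add, Int.cast_natCast, ZMod.natCast_self, add_zero]
          · refine ⟨N, by simp, ?_⟩
            have e : (N : ℤ) = y i + ((2 * N + 1 : ℕ) : ℤ) := by push_cast; omega
            rw [e, Int.cast_add, Int.cast_natCast, ZMod.natCast_self, add_zero]
        obtain ⟨z, hz1, hz2⟩ := h6
        have h7 : pr N (Function.update y i z) = pr N y := by
          funext j
          unfold pr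
          by_cases h : j = i
          · subst h
            rw [Function.update_self]
            exact hz2
          · rw [Function.update_of_ne h]
        have h8 : ∀ j, |Function.update y i z j| ≤ (N : ℤ) := by
          intro j
          by_cases h : j = i
          · subst h
            rw [Function.update_self, hz1]
          · rw [Function.update_of_ne h]
            exact h1 j h
        rw [← h7, ← ih' _ h8]
        symm
        apply F_supp n _ i
        rw [Function.update_self, hz1]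
        omega
    rw [F_succ, Loc.G_succ, hV x hx, ih' x hx]
    congr 1
    refine Finset.sum_congr rfl fun i _ => ?_
    rw [← pr_add, ← pr_sub, key (x + Pi.single i 1) i, key (x - Pi.single i 1) i]
    · intro j hj
      rw [Pi.sub_apply, Pi.single_eq_of_ne hj, sub_zero]
      exact hx j
    · rw [Pi.sub_apply, Pi.single_eq_same]
      have := hx i
      rcases abs_cases (x i) with h1 | h1 <;> rcases abs_cases (x i - 1) with h2 | h2 <;> omega
    · intro j hj
      rw [Pi.add_apply, Pi.single_eq_of_ne hj, add_zero]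
      exact hx j
    · rw [Pi.add_apply, Pi.single_eq_same]
      have := hx i
      rcases abs_cases (x i) with h1 | h1 <;> rcases abs_cases (x i + 1) with h2 | h2 <;> omega

/-- one step of the sup bound -/
theorem step_bound {a e : ℂ} {b b' : Fin d → ℂ} {M C : ℝ} (ha : ‖a‖ ≤ M)
    (hb : ∀ i, ‖b i‖ ≤ M) (hb' : ∀ i, ‖b' i‖ ≤ M) (he : ‖e‖ ≤ C * M) :
    ‖∑ i : Fin d, (2 * a - b i - b' i) + e‖ ≤ (4 * (d : ℝ) + C) * M := by
  have h1 : ‖∑ i : Fin d, (2 * a - b i - b' i)‖ ≤ ∑ _i : Fin d, (4 * M) := by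
    refine norm_sum_le_of_le _ fun i _ => ?_
    calc ‖2 * a - b i - b' i‖ ≤ ‖2 * a - b i‖ + ‖b' i‖ := norm_sub_le _ _
      _ ≤ (‖2 * a‖ + ‖b i‖) + ‖b' i‖ := by gcongr; exact norm_sub_le _ _
      _ ≤ (2 * M + M) + M := by
          have : ‖2 * a‖ = 2 * ‖a‖ := by rw [norm_mul]; norm_num
          rw [this]
          have := hb i
          have := hb' i
          linarith
      _ = 4 * M := by ring
  rw [Finset.sum_const, Finset.card_univ, Fintype.card_fin, nsmul_eq_mul] at h1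
  calc _ ≤ ‖∑ i : Fin d, (2 * a - b i - b' i)‖ + ‖e‖ := norm_add_le _ _
    _ ≤ d * (4 * M) + C * M := add_le_add h1 he
    _ = (4 * (d : ℝ) + C) * M := by ring

theorem F_bound
    (hW : ∀ (k : ℕ) (x : Fin d → ℤ), (∀ i, |x i| ≤ 2 ^ (k + 1) * (N : ℤ)) → |W x| ≤ 1 + k)
    (k : ℕ) (n : ℕ) : n ≤ 2 ^ (k + 1) * N → ∀ x, ‖F W n x‖ ≤ (4 * (d : ℝ) + (1 + k)) ^ n := by
  induction n with
  | zero =>
    intro _ x
    rw [F_zero]
    split_ifs <;> simp
  | succ n ih =>
    intro hn x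
    have ih' := ih (by omega)
    rw [F_succ, pow_succ']
    refine step_bound (ih' _) (fun i => ih' _) (fun i => ih' _) ?_
    by_cases hx : ∀ i, |x i| ≤ 2 ^ (k + 1) * (N : ℤ)
    · rw [norm_mul, Complex.norm_real, Real.norm_eq_abs, one_mul]
      exact mul_le_mul (hW k x hx) (ih' x) (norm_nonneg _) (by positivity)
    · push Not at hx
      obtain ⟨i, hi⟩ := hx
      have h0 : F W n x = 0 := by
        apply F_supp n x i
        have : ((n : ℕ) : ℤ) ≤ ((2 ^ (k + 1) * N : ℕ) : ℤ) := by exact_mod_cast (by omega)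
        push_cast at this
        linarith
      rw [h0, mul_zero, norm_zero]
      positivity

/-- the terms of the exponential series -/
theorem co_bound {t a : ℝ} (ht : 0 ≤ t) (ha : 0 ≤ a) {n : ℕ}
    (hn : Real.exp 2 * a * t ≤ (n : ℝ)) :
    ‖co t n‖ * a ^ n ≤ Real.exp (-(n : ℝ)) := by
  rw [norm_co ht]
  have h1 := Real.pow_div_factorial_le_exp (x := (n : ℝ)) (Nat.cast_nonneg n) n
  have h2 : t * a ≤ Real.exp (-2) * n := by
    have h3 : Real.exp (-2) * (Real.exp 2 * a * t) ≤ Real.exp (-2) * n :=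
      mul_le_mul_of_nonneg_left hn (Real.exp_pos _).le
    have h4 : Real.exp (-2) * (Real.exp 2 * a * t) = t * a := by
      have h5 : Real.exp (-2) * Real.exp 2 = 1 := by
        rw [← Real.exp_add]; norm_num
      calc _ = (Real.exp (-2) * Real.exp 2) * (t * a) := by ring
        _ = _ := by rw [h5, one_mul]
    linarith
  have h6 : (t * a) ^ n ≤ (Real.exp (-2) * n) ^ n :=
    pow_le_pow_left₀ (by positivity) h2 n
  have h7 : (0 : ℝ) < (n ! : ℝ) := by positivity
  calc t ^ n / n ! * a ^ n = (t * a) ^ n / n ! := by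
        rw [mul_pow]; ring
    _ ≤ (Real.exp (-2) * n) ^ n / n ! := by gcongr
    _ = Real.exp (-2) ^ n * ((n : ℝ) ^ n / n !) := by rw [mul_pow]; ring
    _ ≤ Real.exp (-2) ^ n * Real.exp n := by gcongr
    _ = Real.exp (-(n : ℝ)) := by
        rw [← Real.exp_nat_mul, ← Real.exp_add]
        congr 1
        ring

/-- every term beyond `N` of the lattice series is small -/
theorem term_bound (hN : 1 ≤ N)
    (hW : ∀ (k : ℕ) (x : Fin d → ℤ), (∀ i, |x i| ≤ 2 ^ (k + 1) * (N : ℤ)) → |W x| ≤ 1 + k)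
    {t : ℝ} (ht : 0 ≤ t) (htN : Real.exp 2 * (4 * (d : ℝ) + 2) * t ≤ (N : ℝ)) {n : ℕ}
    (hn : N < n) (x : Fin d → ℤ) : ‖co t n * F W n x‖ ≤ Real.exp (-(n : ℝ)) := by
  have hex : ∃ k : ℕ, n ≤ 2 ^ (k + 1) * N := by
    refine ⟨n, ?_⟩
    have h1 : n < 2 ^ n := Nat.lt_two_pow_self
    calc n ≤ 2 ^ n := h1.le
      _ ≤ 2 ^ (n + 1) := Nat.pow_le_pow_right (by norm_num) (by omega)
      _ = 2 ^ (n + 1) * 1 := by ring
      _ ≤ 2 ^ (n + 1) * N := Nat.mul_le_mul_left _ hN
  classical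
  obtain ⟨k, hk1, hk2⟩ : ∃ k : ℕ, n ≤ 2 ^ (k + 1) * N ∧ 2 ^ k * N ≤ n := by
    refine ⟨Nat.find hex, Nat.find_spec hex, ?_⟩
    rcases Nat.eq_zero_or_pos (Nat.find hex) with h | h
    · rw [h]; omega
    · have h2 := Nat.find_min hex (m := Nat.find hex - 1) (by omega)
      have h3 : Nat.find hex - 1 + 1 = Nat.find hex := by omega
      rw [h3] at h2
      omega
  have h1 := F_bound hW k n hk1 x
  have h2 : Real.exp 2 * (4 * (d : ℝ) + (1 + k)) * t ≤ (n : ℝ) := by
    have h3 : (4 * (d : ℝ) + (1 + k)) ≤ (4 * (d : ℝ) + 2) * 2 ^ k := by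
      have h4 : ((k : ℝ) + 1) ≤ 2 ^ k := by
        have : k + 1 ≤ 2 ^ k := Nat.lt_two_pow_self
        exact_mod_cast this
      have h5 : (0 : ℝ) ≤ d := Nat.cast_nonneg d
      have h6 : (0 : ℝ) ≤ k := Nat.cast_nonneg k
      nlinarith
    calc Real.exp 2 * (4 * (d : ℝ) + (1 + k)) * t
        ≤ Real.exp 2 * ((4 * (d : ℝ) + 2) * 2 ^ k) * t := by gcongr
      _ = 2 ^ k * (Real.exp 2 * (4 * (d : ℝ) + 2) * t) := by ring
      _ ≤ 2 ^ k * N := by gcongr
      _ ≤ n := by exact_mod_cast hk2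
  have h3 := co_bound ht (a := 4 * (d : ℝ) + (1 + k)) (by positivity) h2
  rw [norm_mul]
  calc ‖co t n‖ * ‖F W n x‖ ≤ ‖co t n‖ * (4 * (d : ℝ) + (1 + k)) ^ n := by gcongr
    _ ≤ _ := h3

theorem exp_tail (N n : ℕ) :
    Real.exp (-((n + (N + 1) : ℕ) : ℝ)) ≤ Real.exp (-(N : ℝ)) / 2 / 2 ^ n := by
  have e1 : Real.exp (-((n + (N + 1) : ℕ) : ℝ)) = Real.exp (-(N : ℝ)) * Real.exp (-1) ^ (n + 1) := by
    rw [← Real.exp_nat_mul, ← Real.exp_add]
    congr 1
    push_cast
    ring
  have e2 : Real.exp (-1) ≤ 1 / 2 := by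
    rw [Real.exp_neg, ← one_div]
    apply one_div_le_one_div_of_le (by norm_num)
    have := Real.add_one_le_exp (1 : ℝ)
    linarith
  have e3 : Real.exp (-1) ^ (n + 1) ≤ (1 / 2) ^ (n + 1) :=
    pow_le_pow_left₀ (Real.exp_pos _).le e2 _
  rw [e1]
  calc Real.exp (-(N : ℝ)) * Real.exp (-1) ^ (n + 1)
      ≤ Real.exp (-(N : ℝ)) * (1 / 2) ^ (n + 1) := by gcongr
    _ = Real.exp (-(N : ℝ)) / 2 / 2 ^ n := by
        rw [pow_succ, one_div, inv_pow]
        field_simp

end

theorem locg (d N : ℕ) (hN : 1 ≤ N) (W : (Fin d → ℤ) → ℝ)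
    (hW : ∀ (k : ℕ) (x : Fin d → ℤ), (∀ i, |x i| ≤ 2 ^ (k + 1) * (N : ℤ)) → |W x| ≤ 1 + k)
    (t : ℝ) (ht : 0 ≤ t) (htN : Real.exp 2 * (4 * (d : ℝ) + 2) * t ≤ (N : ℝ))
    (V : T d (2 * N + 1) → ℝ)
    (hV : ∀ x : Fin d → ℤ, (∀ i, |x i| ≤ (N : ℤ)) → V (fun i => ((x i : ℤ) : ZMod (2 * N + 1))) = W x)
    (x : Fin d → ℤ) (hx : ∀ i, |x i| ≤ (N : ℤ)) :
    ‖∑' n : ℕ, ((-(t : ℂ) * Complex.I) ^ n / (n.factorial : ℂ)) *
        ((Bridge.Hf 1 W)^[n] (fun y => if y = 0 then 1 else 0)) x -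
      ampT 1 V t (fun i => ((x i : ℤ) : ZMod (2 * N + 1)))‖ ≤ 2 * Real.exp (-(N : ℝ)) := by
  have hV1 : ∀ y, |V y| ≤ 1 := by
    intro y
    obtain ⟨z, hz, rfl⟩ := exists_pr N y
    have h1 := hV z hz
    rw [show pr N z = (fun i => ((z i : ℤ) : ZMod (2 * N + 1))) from rfl, h1]
    have h2 := hW 0 z (fun i => by
      have := hz i
      have h3 : (0 : ℤ) ≤ N := Int.natCast_nonneg N
      simp only [zero_add, pow_one]
      linarith)
    simpa using h2
  have hterm : ∀ n, ‖co t (n + (N + 1)) * F W (n + (N + 1)) x‖ ≤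
      Real.exp (-((n + (N + 1) : ℕ) : ℝ)) := fun n =>
    term_bound hN hW ht htN (by omega) x
  have hsum : Summable (fun n => co t n * F W n x) := by
    rw [← summable_nat_add_iff (N + 1)]
    refine Summable.of_norm_bounded
      (hasSum_geometric_two' (Real.exp (-(N : ℝ)))).summable fun n => ?_
    exact (hterm n).trans (exp_tail N n)
  have heq : (∑' n : ℕ, ((-(t : ℂ) * Complex.I) ^ n / (n.factorial : ℂ)) *
        ((Bridge.Hf 1 W)^[n] (fun y => if y = 0 then 1 else 0)) x) = ∑' n, co t n * F W n x := by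
    refine tsum_congr fun n => ?_
    unfold F co
    rw [div_eq_mul_inv, mul_comm ((-(t : ℂ) * Complex.I) ^ n)]
  rw [heq]
  have h1 := hsum.hasSum.sub (Loc.hasSum_ampT (lam := 1) (V := V) t (pr N x))
  have h2 : ∀ n ∈ Finset.range (N + 1), co t n * F W n x - co t n * Loc.G 1 V n (pr N x) = 0 := by
    intro n hn
    rw [F_eq_G hV n (by simpa [Nat.lt_succ_iff] using hn) x hx, sub_self]
  have h3 : HasSum (fun n => co t (n + (N + 1)) * F W (n + (N + 1)) x -
      co t (n + (N + 1)) * Loc.G 1 V (n + (N + 1)) (pr N x))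
      ((∑' n, co t n * F W n x) - ampT 1 V t (pr N x)) := by
    rw [hasSum_nat_add_iff (f := fun n => co t n * F W n x - co t n * Loc.G 1 V n (pr N x)),
      Finset.sum_eq_zero h2, add_zero]
    exact h1
  refine h3.norm_le_of_bounded (hasSum_geometric_two' (2 * Real.exp (-(N : ℝ)))) fun n => ?_
  have hn : Real.exp 2 * (4 * (d : ℝ) + 1) * t ≤ ((n + (N + 1) : ℕ) : ℝ) := by
    push_cast
    have h4 : (0 : ℝ) ≤ (n : ℝ) := Nat.cast_nonneg n
    have h5 : Real.exp 2 * (4 * (d : ℝ) + 1) * t ≤ Real.exp 2 * (4 * (d : ℝ) + 2) * t := by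
      gcongr
      norm_num
    linarith
  have h4 := co_bound ht (a := 4 * (d : ℝ) + 1) (by positivity) hn
  have h6 := Loc.G_bound zero_le_one le_rfl hV1 (n + (N + 1)) (pr N x)
  have h7 : ‖co t (n + (N + 1)) * Loc.G 1 V (n + (N + 1)) (pr N x)‖ ≤
      Real.exp (-((n + (N + 1) : ℕ) : ℝ)) := by
    rw [norm_mul]
    refine le_trans ?_ h4
    gcongr
  calc ‖co t (n + (N + 1)) * F W (n + (N + 1)) x -
        co t (n + (N + 1)) * Loc.G 1 V (n + (N + 1)) (pr N x)‖
      ≤ ‖co t (n + (N + 1)) * F W (n + (N + 1)) x‖ +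
        ‖co t (n + (N + 1)) * Loc.G 1 V (n + (N + 1)) (pr N x)‖ := norm_sub_le _ _
    _ ≤ 2 * Real.exp (-((n + (N + 1) : ℕ) : ℝ)) := by
        have := hterm n
        linarith
    _ ≤ 2 * (Real.exp (-(N : ℝ)) / 2 / 2 ^ n) := by
        have := exp_tail N n
        linarith
    _ = 2 * Real.exp (-(N : ℝ)) / 2 / 2 ^ n := by ring

end Pool.Agent.H4R2.AE.Locg
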