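import Pool.Agent.H4R2.AE.TorG
import Pool.Agent.H4R2.AE.Bridge
import Pool.Agent.H4R2.AE.Locg
import Pool.Agent.H4R2.AE.Grow
import Pool.Agent.H4R2.AE.FinA2
import Pool.Agent.H4R2.AE.HCf

/-! Gaussian disorder: infinite volume. -/

set_option autoImplicit false

open scoped BigOperators ENNReal
open MeasureTheory ProbabilityTheory Filter

namespace Pool.Agent.H4R2.AE
namespace FinG

open FinA

/-- amplitude defined by the power series -/
noncomputable def ampZ {d : ℕ} (W : (Fin d → ℤ) → ℝ) (t : ℝ) (x : Fin d → ℤ) : ℂ :=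
  ∑' n : ℕ, ((-(t : ℂ) * Complex.I) ^ n / (n.factorial : ℂ)) *
    ((Bridge.Hf 1 W)^[n] (fun y => if y = 0 then 1 else 0)) x

/-- sup over times -/
noncomputable def supZ {d : ℕ} (W : (Fin d → ℤ) → ℝ) (τ : ℝ) (x : Fin d → ℤ) : ℝ≥0∞ :=
  ⨆ t ∈ Set.Icc (0 : ℝ) τ, ‖ampZ W t x‖ₑ

theorem ampT_le {d L : ℕ} [NeZero L] (lam : ℝ) (V : T d L → ℝ) (t : ℝ) (y : T d L) :
    ‖ampT lam V t y‖ ≤ 1 := by
  unfold ampT
  refine (PiLp.norm_apply_le _ y).trans ?_
  rw [HCf.exp_norm]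
  simp

/-- deterministic part -/
theorem det (d N : ℕ) (hd : 1 ≤ d) (hN : 1 ≤ N) (Γ : ℝ) (hΓ : 0 < Γ) (hGB : GB d (2 * N + 1) Γ)
    (W : (Fin d → ℤ) → ℝ)
    (hW : ∀ (k : ℕ) (x : Fin d → ℤ), (∀ i, |x i| ≤ 2 ^ (k + 1) * (N : ℤ)) → |W x| ≤ 1 + k)
    (hflat : Flat 1 (1 / 10) (res W : T d (2 * N + 1) → ℝ))
    (τ r : ℝ) (hτ : 0 < τ) (hτN : Real.exp 2 * (4 * (d : ℝ) + 2) * τ ≤ (N : ℝ)) (hr : 0 ≤ r)
    (hr' : (2 * r + 1) ^ d ≤ (τ / (40 * Γ)) ^ 2)
    (hsmall : ((2 * N + 1 : ℕ) : ℝ) ^ d * (2 * Real.exp (-(N : ℝ))) ≤ 1 / 10) :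
    (1 / 2 : ℝ≥0∞) ≤ ∑' x : {x : Fin d → ℤ // r < ‖x‖}, supZ W τ x := by
  classical
  set V : T d (2 * N + 1) → ℝ := res W with hV
  set S : Finset (T d (2 * N + 1)) := Finset.univ.filter fun y => ‖rep y‖ ≤ r with hS
  set q : T d (2 * N + 1) → ℝ := fun y => (supZ W τ (rep y)).toReal + 2 * Real.exp (-(N : ℝ))
    with hq
  have hd1 : (1 : ℝ) ≤ d := by exact_mod_cast hd
  have hVV : ∀ x : Fin d → ℤ, (∀ i, |x i| ≤ (N : ℤ)) →
      V (fun i => ((x i : ℤ) : ZMod (2 * N + 1))) = W x := by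
    intro x hx
    show W (rep (proj N x)) = W x
    rw [rep_proj x hx]
  have hclose : ∀ t ∈ Set.Icc (0 : ℝ) τ, ∀ y : T d (2 * N + 1),
      ‖ampZ W t (rep y) - ampT 1 V t y‖ ≤ 2 * Real.exp (-(N : ℝ)) := by
    intro t ht y
    have hNt : Real.exp 2 * (4 * (d : ℝ) + 2) * t ≤ (N : ℝ) := by
      refine le_trans ?_ hτN
      have := ht.2
      gcongr
    have h1 := Locg.locg d N hN W hW t ht.1 hNt V hVV (rep y) (rep_abs y)
    have h2 : (fun i => ((rep y i : ℤ) : ZMod (2 * N + 1))) = y := proj_rep y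
    rw [h2] at h1
    exact h1
  have hexpN : Real.exp (-(N : ℝ)) ≤ 1 := Real.exp_le_one_iff.2 (by
    have : (0 : ℝ) ≤ N := Nat.cast_nonneg N
    linarith)
  have hlt : ∀ y : T d (2 * N + 1), supZ W τ (rep y) < ∞ := by
    intro y
    refine lt_of_le_of_lt (iSup₂_le fun t ht => ?_) (ENNReal.ofReal_lt_top (r := 3))
    rw [← ofReal_norm]
    refine ENNReal.ofReal_le_ofReal ?_
    have h1 := hclose t ht y
    have h2 := ampT_le 1 V t y
    have h3 := norm_sub_norm_le (ampZ W t (rep y)) (ampT 1 V t y)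
    linarith
  have hqb : ∀ t ∈ Set.Icc (0 : ℝ) τ, ∀ y, ‖ampT 1 V t y‖ ≤ q y := by
    intro t ht y
    have h1 := hclose t ht y
    have h3 : ‖ampZ W t (rep y)‖ ≤ (supZ W τ (rep y)).toReal := by
      have h4 : ‖ampZ W t (rep y)‖ₑ ≤ supZ W τ (rep y) :=
        le_iSup₂ (f := fun t (_ : t ∈ Set.Icc (0 : ℝ) τ) => ‖ampZ W t (rep y)‖ₑ) t ht
      have h5 := ENNReal.toReal_mono (hlt y).ne h4
      rwa [toReal_enorm] at h5
    have h6 : ‖ampT 1 V t y‖ ≤ ‖ampZ W t (rep y)‖ + ‖ampZ W t (rep y) - ampT 1 V t y‖ := by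
      have := norm_sub_norm_le (ampT 1 V t y) (ampZ W t (rep y))
      rw [norm_sub_rev] at this
      linarith
    show _ ≤ (supZ W τ (rep y)).toReal + 2 * Real.exp (-(N : ℝ))
    linarith
  have hcard : (S.card : ℝ) ≤ (τ / (40 * Γ)) ^ 2 := (card_ball r hr).trans hr'
  have hτL : τ ≤ 8 * ((2 * N + 1 : ℕ) : ℝ) ^ 2 := by
    have h1 : τ ≤ N := by
      refine le_trans ?_ hτN
      have h2 : 1 ≤ Real.exp 2 * (4 * (d : ℝ) + 2) := by
        have := Real.add_one_le_exp (2 : ℝ)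
        nlinarith
      nlinarith
    have h3 : (1 : ℝ) ≤ N := by exact_mod_cast hN
    push_cast
    nlinarith
  have hmain := Dynt.dyn d (2 * N + 1) hd Γ hΓ hGB 1 (1 / 10) (by norm_num) le_rfl V hflat τ hτ hτL
    q hqb S hcard
  have hsum : ∑ y ∈ Sᶜ, q y ≤ ∑ y ∈ Sᶜ, (supZ W τ (rep y)).toReal + 1 / 10 := by
    rw [hq, Finset.sum_add_distrib]
    gcongr
    rw [Finset.sum_const, nsmul_eq_mul]
    refine le_trans ?_ hsmall
    gcongr
    have h1 : (Sᶜ).card ≤ Fintype.card (T d (2 * N + 1)) := Finset.card_le_univ _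
    have h2 : Fintype.card (T d (2 * N + 1)) = (2 * N + 1) ^ d := by
      simp [T, ZMod.card]
    rw [h2] at h1
    exact_mod_cast h1
  have hhalf : (1 / 2 : ℝ) ≤ ∑ y ∈ Sᶜ, (supZ W τ (rep y)).toReal := by linarith
  have hE : (1 / 2 : ℝ≥0∞) ≤ ∑ y ∈ Sᶜ, supZ W τ (rep y) := by
    have h1 : (∑ y ∈ Sᶜ, supZ W τ (rep y)).toReal = ∑ y ∈ Sᶜ, (supZ W τ (rep y)).toReal :=
      ENNReal.toReal_sum fun y _ => (hlt y).ne
    have h2 : (1 / 2 : ℝ≥0∞) = ENNReal.ofReal (1 / 2) := by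
      rw [ENNReal.ofReal_div_of_pos (by norm_num)]
      simp
    rw [h2]
    refine ENNReal.ofReal_le_of_le_toReal ?_
    rw [h1]
    exact hhalf
  refine hE.trans ?_
  have hmem : ∀ y ∈ Sᶜ, r < ‖rep y‖ := by
    intro y hy
    simpa [hS] using hy
  calc ∑ y ∈ Sᶜ, supZ W τ (rep y)
      = ∑ y : {y // y ∈ Sᶜ}, supZ W τ (rep y.1) := (Finset.sum_coe_sort _ _).symm
    _ = ∑ x ∈ Finset.univ.map ⟨fun y : {y // y ∈ Sᶜ} =>
          (⟨rep y.1, hmem y.1 y.2⟩ : {x : Fin d → ℤ // r < ‖x‖}), fun a b h => by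
            have := congrArg Subtype.val h
            exact Subtype.ext (rep_inj this)⟩, supZ W τ x.1 := by
          rw [Finset.sum_map]
          rfl
    _ ≤ ∑' x : {x : Fin d → ℤ // r < ‖x‖}, supZ W τ x := ENNReal.sum_le_tsum _

theorem combineZ {d : ℕ} (W : (Fin d → ℤ) → ℝ) {τ τ' r r' : ℝ} (h : τ ≤ τ') (h' : r' ≤ r)
    {a : ℝ≥0∞} (ha : a ≤ ∑' x : {x : Fin d → ℤ // r < ‖x‖}, supZ W τ x) :
    a ≤ ∑' x : {x : Fin d → ℤ // r' < ‖x‖}, supZ W τ' x := by
  have h1 : ∑' x : {x : Fin d → ℤ // r < ‖x‖}, supZ W τ x ≤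
      ∑' x : {x : Fin d → ℤ // r < ‖x‖}, supZ W τ' x :=
    ENNReal.tsum_le_tsum fun x => biSup_mono fun t ht => ⟨ht.1, ht.2.trans h⟩
  exact ha.trans (h1.trans (tsum_mono_set (fun x => supZ W τ' x) h'))

/-- main statement, infinite volume, Gaussian disorder -/
theorem main (d : ℕ) (hd : 4 ≤ d) :
    ∃ c : ℝ, 0 < c ∧ c ≤ 1 ∧ ∀ lam : ℝ, 0 < lam → lam ≤ c →
      ∃ G : Set ((Fin d → ℤ) → ℝ), MeasurableSet G ∧
        1 - 2 * Real.exp (-c / scaleG d lam) ≤
          (Measure.infinitePi fun _ : Fin d → ℤ => gaussianReal 0 1).real G ∧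
        ∀ ω ∈ G, (1 / 2 : ℝ≥0∞) ≤ ∑' x : {x : Fin d → ℤ // Real.exp (c / scaleG d lam) < ‖x‖},
            supZ (fun y => lam * ω y) (Real.exp (1 / scaleG d lam)) x := by
  obtain ⟨C, hC1, hGB⟩ := Core.green_Gam d hd
  obtain ⟨cB, hcB, hB⟩ := TorG.main_torusG d hd (1 / 10) (by norm_num) (by norm_num)
  obtain ⟨cg, hcg, hgrow⟩ := Grow.grow d
  have hC : 0 < C := by linarith
  have hd0 : (0 : ℝ) < d := by
    have : 0 < d := by omega
    exact_mod_cast this
  set D : ℝ := Real.exp 2 * (4 * (d : ℝ) + 2) with hD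
  have hDpos : 0 < D := by positivity
  have hD1 : 1 ≤ D := by
    have := Real.add_one_le_exp (2 : ℝ)
    nlinarith
  set A : ℝ := 3 ^ d * (240 * D * C) ^ 2 with hA
  have hApos : 0 ≤ A := by positivity
  obtain ⟨X0, hX06, hX0⟩ := exists_X0 d A hApos
  set c1 : ℝ := min (min 1 cg) cB with hc1
  have hc1pos : 0 < c1 := lt_min (lt_min one_pos hcg) hcB
  have hc1one : c1 ≤ 1 := (min_le_left _ _).trans (min_le_left _ _)
  have hc1g : c1 ≤ cg := (min_le_left _ _).trans (min_le_right _ _)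
  have hlogX0 : 0 < Real.log X0 := Real.log_pos (by linarith)
  set s0 : ℝ := min 1 (c1 / Real.log X0) with hs0
  have hs0pos : 0 < s0 := lt_min one_pos (by positivity)
  have hs01 : s0 ≤ 1 := min_le_left _ _
  set c : ℝ := min (c1 / d) (s0 ^ 2) with hc
  have hcpos : 0 < c := lt_min (by positivity) (by positivity)
  have hcc1 : c ≤ c1 / d := min_le_left _ _
  have hcs0 : c ≤ s0 ^ 2 := min_le_right _ _
  have hd4 : (4 : ℝ) ≤ d := by exact_mod_cast hd
  have hc1d : c1 / d ≤ c1 := div_le_self hc1pos.le (by linarith)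
  refine ⟨c, hcpos, hcc1.trans (hc1d.trans hc1one), ?_⟩
  intro lam hlam hlamc
  set s := scaleG d lam with hs
  have hspos : 0 < s := TorG.scaleG_pos d lam hlam
  have hss0 : s ≤ s0 := TorG.scaleG_le d lam s0 hlam hs01
    ((hlamc.trans hcs0).trans (by nlinarith))
  have hlam1 : lam ≤ 1 := hlamc.trans (hcs0.trans (by nlinarith))
  have hlamcB : lam ≤ cB := (hlamc.trans hcc1).trans (hc1d.trans (min_le_right _ _))
  set X : ℝ := Real.exp (c1 / s) with hX
  have hXX0 : X0 ≤ X := by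
    have h1 : Real.log X0 ≤ c1 / s := by
      rw [le_div_iff₀ hspos]
      have h2 : s ≤ c1 / Real.log X0 := hss0.trans (min_le_right _ _)
      rw [le_div_iff₀ hlogX0] at h2
      linarith
    rw [← Real.exp_log (show 0 < X0 by linarith)]
    exact Real.exp_le_exp.2 h1
  have hX6 : 6 ≤ X := hX06.trans hXX0
  obtain ⟨hXA, hXe⟩ := hX0 X hXX0
  set N : ℕ := ⌊X / 3⌋₊ with hN
  have hNle : (N : ℝ) ≤ X / 3 := Nat.floor_le (by positivity)
  have hNge : X / 6 ≤ (N : ℝ) := by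
    have := Nat.lt_floor_add_one (X / 3)
    rw [← hN] at this
    linarith
  have hN1 : 1 ≤ N := by
    have : (1 : ℝ) ≤ N := by linarith
    exact_mod_cast this
  have hLX : ((2 * N + 1 : ℕ) : ℝ) ≤ X := by push_cast; linarith
  have hX1 : 1 ≤ X := by linarith
  have hXcB : X ≤ Real.exp (cB / s) := by
    rw [hX]
    refine Real.exp_le_exp.2 ?_
    gcongr
    exact min_le_right _ _
  obtain ⟨E, -, G0, hG0, hP0, hflat⟩ := hB lam hlam hlamcB (2 * N + 1) (hLX.trans hXcB)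
  have hNcg : (N : ℝ) ≤ Real.exp (cg / lam ^ 2) := by
    have e1 : X ≤ Real.exp (cg / lam ^ 2) := by
      rw [hX]
      refine Real.exp_le_exp.2 ?_
      have e2 := TorG.scaleG_ge d lam hlam hlam1
      rw [← hs] at e2
      gcongr
    linarith
  obtain ⟨Gg, hGg, hPg, hGgprop⟩ := hgrow lam hlam (hlamc.trans (hcc1.trans (hc1d.trans hc1g))) N
    hN1 hNcg
  have hPG : (Measure.pi fun _ : T d (2 * N + 1) => gaussianReal 0 1).real G0 =
      (Measure.infinitePi fun _ : Fin d → ℤ => gaussianReal 0 1).real (res ⁻¹' G0) := by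
    rw [← map_res (gaussianReal 0 1), map_measureReal_apply measurable_res hG0]
  refine ⟨res ⁻¹' G0 ∩ Gg, (measurable_res hG0).inter hGg, ?_, ?_⟩
  · set P := Measure.infinitePi fun _ : Fin d → ℤ => gaussianReal 0 1 with hP
    have h3 : Real.exp (-cB / s) ≤ Real.exp (-c / s) := by
      refine Real.exp_le_exp.2 ?_
      rw [neg_div, neg_div, neg_le_neg_iff]
      gcongr
      exact hcc1.trans (hc1d.trans (min_le_right _ _))
    have h4 : Real.exp (-(cg / lam ^ 2)) ≤ Real.exp (-c / s) := by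
      refine Real.exp_le_exp.2 ?_
      rw [neg_div, neg_le_neg_iff]
      have e2 := TorG.scaleG_ge d lam hlam hlam1
      rw [← hs] at e2
      have e3 : c ≤ cg := hcc1.trans (hc1d.trans hc1g)
      gcongr
    have hm1 := measurable_res (d := d) (N := N) hG0
    have h5 : P.real (res ⁻¹' G0 ∩ Gg)ᶜ ≤ P.real (res ⁻¹' G0)ᶜ + P.real Ggᶜ := by
      rw [Set.compl_inter]
      exact measureReal_union_le _ _
    have e1 := probReal_add_probReal_compl (μ := P) (hm1.inter hGg)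
    have e2 := probReal_add_probReal_compl (μ := P) hm1
    have e3 := probReal_add_probReal_compl (μ := P) hGg
    rw [hPG] at hP0
    linarith
  · rintro ω ⟨hω1, hω2⟩
    have hF : Flat 1 (1 / 10) (res (fun y => lam * ω y) : T d (2 * N + 1) → ℝ) := by
      obtain ⟨E0, ψ, h1, h2, h3⟩ := (hflat _ hω1).2.flat
      have e : ∀ (f : T d (2 * N + 1) → ℝ) (x : T d (2 * N + 1)),
          Hop 1 (res (fun y => lam * ω y)) f x = Hop lam (res ω) f x := by
        intro f x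
        unfold Hop res
        ring
      refine ⟨E0, ψ, h1, fun x => by rw [e]; exact h2 x, fun f hf => ?_⟩
      simp only [e]
      exact h3 f hf
    have hLlog : Real.log ((2 * N + 1 : ℕ) : ℝ) ≤ Real.log X := by
      refine Real.log_le_log ?_ hLX
      positivity
    set Γ : ℝ := Arith.Gam d C (2 * N + 1) with hΓ
    have hΓpos : 0 < Γ := lt_of_lt_of_le hC (Arith.Gam_ge d C hC _ (by omega))
    have hΓle : Γ ≤ C * (1 + Real.log X) := by
      refine (Arith.Gam_le d C hC _ (by omega)).trans ?_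
      gcongr
    set τ : ℝ := N / D with hτ
    have hNpos : (0 : ℝ) < N := by linarith
    have hτpos : 0 < τ := by positivity
    have hτN : Real.exp 2 * (4 * (d : ℝ) + 2) * τ ≤ (N : ℝ) := by
      rw [← hD, hτ]
      exact (mul_div_cancel₀ (N : ℝ) hDpos.ne').le
    set r : ℝ := Real.exp (c1 / d / s) with hr
    have hr1 : 1 ≤ r := Real.one_le_exp (by positivity)
    have hrd : r ^ d = X := by
      rw [hr, hX, ← Real.exp_nat_mul]
      congr 1
      field_simp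
    have h4 : 0 < 1 + Real.log X := by
      have := Real.log_nonneg hX1
      linarith
    have hrineq : (2 * r + 1) ^ d ≤ (τ / (40 * Γ)) ^ 2 := by
      have h1 : (2 * r + 1) ^ d ≤ 3 ^ d * X := by
        calc (2 * r + 1) ^ d ≤ (3 * r) ^ d := pow_le_pow_left₀ (by positivity) (by linarith) d
          _ = 3 ^ d * X := by rw [mul_pow, hrd]
      have h2 : X / (240 * D * (C * (1 + Real.log X))) ≤ τ / (40 * Γ) := by
        rw [hτ, div_div]
        have h3 : X / (240 * D * (C * (1 + Real.log X))) =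
            (X / 6) / (D * (40 * (C * (1 + Real.log X)))) := by
          rw [div_div]; ring_nf
        rw [h3]
        gcongr
      refine h1.trans (le_trans ?_ (pow_le_pow_left₀ (by positivity) h2 2))
      rw [div_pow, le_div_iff₀ (by positivity)]
      have h5 : 3 ^ d * X * (240 * D * (C * (1 + Real.log X))) ^ 2 =
          X * (A * (1 + Real.log X) ^ 2) := by
        rw [hA]; ring
      rw [h5]
      calc X * (A * (1 + Real.log X) ^ 2) ≤ X * X := by gcongr
        _ = X ^ 2 := (sq X).symm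
    have hsmall : ((2 * N + 1 : ℕ) : ℝ) ^ d * (2 * Real.exp (-(N : ℝ))) ≤ 1 / 10 := by
      refine le_trans ?_ hXe
      gcongr
    have hmain := det d N (by omega) hN1 Γ hΓpos (hGB (2 * N + 1)) (fun y => lam * ω y)
      (hGgprop ω hω2) hF τ r hτpos hτN (by linarith) hrineq hsmall
    have hττ : τ ≤ Real.exp (1 / s) := by
      have h1 : τ ≤ N := by
        rw [hτ]; exact div_le_self hNpos.le hD1
      have h2 : X ≤ Real.exp (1 / s) := by
        rw [hX]
        refine Real.exp_le_exp.2 ?_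
        gcongr
      linarith
    have hcs : Real.exp (c / s) ≤ r := by
      rw [hr]
      refine Real.exp_le_exp.2 ?_
      gcongr
    exact combineZ _ hττ hcs hmain

end FinG
end Pool.Agent.H4R2.AE
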