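import Pool.Agent.H4R2.AE.Core2
import Pool.Agent.H4R2.AE.FinW

set_option autoImplicit false

open scoped BigOperators ENNReal
open MeasureTheory Filter

namespace Pool.Agent.H4R2.AE
namespace FinWS

open FinA FinW

/-- main statement: free evolution of low-energy wave packets in infinite volume -/
theorem main (d : ℕ) (hd : 4 ≤ d) (η : ℝ) (hη : 0 < η) (hη' : η ≤ 1) :
    ∃ c : ℝ, 0 < c ∧ ∀ (μ : Measure ℝ) [IsProbabilityMeasure μ], μ (Set.Icc (-1) 1)ᶜ = 0 →
      ∀ lam : ℝ, 0 < lam → lam ≤ c →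
      ∃ E : ℝ, |E| ≤ lam ∧ ∃ G : Set ((Fin d → ℤ) → ℝ), MeasurableSet G ∧
        1 - Real.exp (-c / scaleS d lam) ≤ (Measure.infinitePi fun _ : Fin d → ℤ => μ).real G ∧
        ∀ ω ∈ G, ∀ H H0 : L2 d →L[ℂ] L2 d, IsAnderson lam ω H → IsAnderson 0 (fun _ => 0) H0 →
          ∀ g : L2 d, (∀ x : Fin d → ℤ, Real.exp (c / scaleS d lam) < ‖x‖ → g x = 0) →
          ∀ t : ℝ, 0 ≤ t → t ≤ Real.exp (c / scaleS d lam) → ∀ l : ℝ, 0 < l →
            ‖NormedSpace.exp ((-(t : ℂ) * Complex.I) • (H - (E : ℂ) • (1 : L2 d →L[ℂ] L2 d))) g -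
                NormedSpace.exp ((-(t : ℂ) * Complex.I) • H0) g‖ ≤
              η * (1 + t / l ^ 2) *
                ‖(((l ^ 2 : ℝ) : ℂ) • H0 + 1) ((((l ^ 2 : ℝ) : ℂ) • H0 + 1) g)‖ := by
  obtain ⟨C, hC1, hGB⟩ := Core.green_Gam d hd
  have htorus := Core2.main_torus d hd
  obtain ⟨cB, hcB, hB⟩ := htorus (η / 64) (by positivity) (by linarith)
  set D : ℝ := Real.exp 2 * (4 * (d : ℝ) + 1) with hD
  have hDpos : 0 < D := by positivity
  have hD1 : 1 ≤ D := by
    have := Real.add_one_le_exp (2 : ℝ)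
    have hd0 : (0 : ℝ) ≤ d := Nat.cast_nonneg d
    nlinarith
  obtain ⟨X0, hX06, hX0⟩ := exists_X0 D η hD1 hη
  set c1 : ℝ := min 1 cB with hc1
  have hc1pos : 0 < c1 := lt_min one_pos hcB
  have hlogX0 : 0 < Real.log X0 := Real.log_pos (by linarith)
  set s0 : ℝ := min 1 (c1 / Real.log X0) with hs0
  have hs0pos : 0 < s0 := lt_min one_pos (by positivity)
  have hs01 : s0 ≤ 1 := min_le_left _ _
  set c : ℝ := min (c1 / 2) (s0 ^ 2) with hc
  have hcpos : 0 < c := lt_min (by positivity) (by positivity)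
  have hcc1 : c ≤ c1 / 2 := min_le_left _ _
  have hcs0 : c ≤ s0 ^ 2 := min_le_right _ _
  have hccB : c ≤ cB := by
    have : c1 ≤ cB := min_le_right _ _
    linarith
  refine ⟨c, hcpos, ?_⟩
  intro μ _ hμ lam hlam hlamc
  set s := scaleS d lam with hs
  have hspos : 0 < s := Arith2.scaleS_pos d lam hlam
  have hss0 : s ≤ s0 := Arith2.scaleS_le d (by omega) lam s0 hs0pos hs01 (hlamc.trans hcs0)
  have hlam1 : lam ≤ 1 := hlamc.trans (hcs0.trans (by nlinarith))
  set X : ℝ := Real.exp (c1 / s) with hX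
  have hXX0 : X0 ≤ X := by
    have h1 : Real.log X0 ≤ c1 / s := by
      rw [le_div_iff₀ hspos]
      have h2 : s ≤ c1 / Real.log X0 := hss0.trans (min_le_right _ _)
      rw [le_div_iff₀ hlogX0] at h2
      linarith
    rw [← Real.exp_log (show 0 < X0 by linarith)]
    exact Real.exp_le_exp.2 h1
  have hX6 : 36 ≤ X := hX06.trans hXX0
  obtain ⟨hXA, hXη⟩ := hX0 X hXX0
  set Y : ℝ := Real.sqrt X with hY
  have hYsq : Y * Y = X := Real.mul_self_sqrt (by linarith)
  have hY6 : 6 ≤ Y := by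
    refine Real.le_sqrt_of_sq_le ?_
    linarith
  have hcY : Real.exp (c / s) ≤ Y := by
    rw [hY, hX, Real.sqrt_eq_rpow, ← Real.exp_mul]
    refine Real.exp_le_exp.2 ?_
    rw [div_mul_eq_mul_div]
    gcongr
    linarith
  set N : ℕ := ⌊X / 3⌋₊ with hN
  have hNle : (N : ℝ) ≤ X / 3 := Nat.floor_le (by positivity)
  have hNge : X / 6 ≤ (N : ℝ) := by
    have := Nat.lt_floor_add_one (X / 3)
    rw [← hN] at this
    linarith
  have hLX : ((2 * N + 1 : ℕ) : ℝ) ≤ X := by push_cast; linarith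
  have hXcB : X ≤ Real.exp (cB / s) := by
    rw [hX]
    refine Real.exp_le_exp.2 ?_
    gcongr
    exact min_le_right _ _
  set M : ℕ := ⌈Y⌉₊ with hM
  have hMge : Y ≤ (M : ℝ) := Nat.le_ceil Y
  have hMle : (M : ℝ) ≤ Y + 1 := (Nat.ceil_lt_add_one (by linarith)).le
  have hNM : D * Y + Y ≤ (N : ℝ) - (M : ℝ) := by
    have : 6 * (D + 4) * Y ≤ X := hXA
    nlinarith
  have hMN2 : M + 2 ≤ N := by
    have h1 : (M : ℝ) + 2 ≤ (N : ℝ) := by nlinarith
    exact_mod_cast h1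
  obtain ⟨E, hE, G0, hG0, hP0, hflat⟩ :=
    hB μ hμ lam hlam (hlamc.trans hccB) (2 * N + 1) (hLX.trans hXcB)
  obtain ⟨G, hG, hPG, hGprop⟩ := FinA.pull_back d N μ hμ G0 hG0
  refine ⟨E, hE, G, hG, ?_, ?_⟩
  · refine le_trans ?_ (hP0.trans hPG)
    have h3 : Real.exp (-cB / s) ≤ Real.exp (-c / s) := by
      refine Real.exp_le_exp.2 ?_
      rw [neg_div, neg_div, neg_le_neg_iff]
      gcongr
    exact sub_le_sub_left h3 1
  · intro ω hω H H0 hH hH0 g hg t ht htc l hl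
    obtain ⟨hω1, hω2⟩ := hGprop ω hω
    obtain ⟨E0, ψ, hE0, hψ, heig, -⟩ := hflat _ hω1
    set V : T d (2 * N + 1) → ℝ := FinA.res ω with hV
    set g' : EuclideanSpace ℂ (T d (2 * N + 1)) := WithLp.toLp 2 fun y => g (FinA.rep y) with hg'
    have hVV : ∀ x : Fin d → ℤ, (∀ i, |x i| ≤ (N : ℤ)) →
        V (fun i => ((x i : ℤ) : ZMod (2 * N + 1))) = ω x := by
      intro x hx
      show ω (FinA.rep (FinA.proj N x)) = ω x
      rw [FinA.rep_proj x hx]
    have hgg : ∀ x : Fin d → ℤ, (∀ i, |x i| ≤ (N : ℤ)) →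
        g' (fun i => ((x i : ℤ) : ZMod (2 * N + 1))) = g x := by
      intro x hx
      show g (FinA.rep (FinA.proj N x)) = g x
      rw [FinA.rep_proj x hx]
    have hgM : ∀ x : Fin d → ℤ, (∃ i, (M : ℤ) < |x i|) → g x = 0 := by
      rintro x ⟨i, hi⟩
      refine hg x ?_
      have h1 : (M : ℝ) < |((x i : ℤ) : ℝ)| := by exact_mod_cast hi
      have h2 : |((x i : ℤ) : ℝ)| ≤ ‖x‖ := by
        have := norm_le_pi_norm x i
        rwa [Int.norm_eq_abs] at this
      linarith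
    have htY : t ≤ Y := htc.trans hcY
    have hNt : Real.exp 2 * (4 * (d : ℝ) + 1) * t ≤ (N : ℝ) - (M : ℝ) := by
      rw [← hD]
      have : D * t ≤ D * Y := by gcongr
      linarith
    set cc : ℂ := Complex.exp (-((t * E : ℝ) * Complex.I)) with hcc
    have hccn : ‖cc‖ = 1 := by
      rw [hcc, show -(((t * E : ℝ) : ℂ) * Complex.I) = ((-(t * E) : ℝ) : ℂ) * Complex.I by
        push_cast; ring]
      exact Complex.norm_exp_ofReal_mul_I _
    have h1 := Wloc.wloc d N M (by omega) lam t hlam.le hlam1 ht hNt ω hω2 H H0 hH hH0 V hVV g hgM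
      g' hgg cc hccn
    have hls : 0 < 1 / l ^ 2 := by positivity
    have h2 := torus_free lam (η / 64) E0 E (by positivity) (by linarith) V ψ hψ heig (1 / l ^ 2) hls
      t ht g'
    rw [← hcc] at h2
    rw [one_div_one_div] at h2
    rw [Wloc.wnorm d N M hMN2 H0 hH0 g hgM g' hgg (((l ^ 2 : ℝ) : ℂ))] at h2
    set Q := ‖(((l ^ 2 : ℝ) : ℂ) • H0 + 1) ((((l ^ 2 : ℝ) : ℂ) • H0 + 1) g)‖ with hQ
    have hgQ : ‖g‖ ≤ Q := by
      have e0 : ‖g'‖ = ‖g‖ := by
        have e00 := Wloc.wnorm d N M hMN2 H0 hH0 g hgM g' hgg 0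
        simpa using e00
      have e1 : 0 ≤ l ^ 2 := by positivity
      have e2 := (HCf.norm_le_K (l ^ 2) e1 g').trans (HCf.norm_le_K (l ^ 2) e1 _)
      rw [Wloc.wnorm d N M hMN2 H0 hH0 g hgM g' hgg (((l ^ 2 : ℝ) : ℂ))] at e2
      rw [← e0]
      exact e2
    have hQ0 : 0 ≤ Q := norm_nonneg _
    have h3 : ‖NormedSpace.exp ((-(t : ℂ) * Complex.I) • (H - (E : ℂ) • (1 : L2 d →L[ℂ] L2 d))) g -
        NormedSpace.exp ((-(t : ℂ) * Complex.I) • H0) g‖ =
        ‖NormedSpace.exp ((-(t : ℂ) * Complex.I) • H) g -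
          cc • NormedSpace.exp ((-(t : ℂ) * Complex.I) • H0) g‖ := by
      rw [exp_sub_smul]
      have e1 : -(-(t : ℂ) * Complex.I * (E : ℂ)) = ((t * E : ℝ) : ℂ) * Complex.I := by
        push_cast; ring
      rw [e1]
      have e2 : (Complex.exp (((t * E : ℝ) : ℂ) * Complex.I) •
          NormedSpace.exp ((-(t : ℂ) * Complex.I) • H)) g -
          NormedSpace.exp ((-(t : ℂ) * Complex.I) • H0) g =
          Complex.exp (((t * E : ℝ) : ℂ) * Complex.I) •
            (NormedSpace.exp ((-(t : ℂ) * Complex.I) • H) g -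
              cc • NormedSpace.exp ((-(t : ℂ) * Complex.I) • H0) g) := by
        rw [smul_sub, smul_smul, hcc, ← Complex.exp_add, add_neg_cancel, Complex.exp_zero, one_smul]
        rfl
      rw [e2, norm_smul, Complex.norm_exp_ofReal_mul_I, one_mul]
    rw [h3]
    refine h1.trans ?_
    -- numerical estimates
    have hN1 : (6 : ℝ) ≤ (N : ℝ) := by linarith
    have h4 : t * |E0 - E| ≤ η / 4 := by
      have e1 : t * |E0 - E| ≤ Y * (1 / (((2 * N + 1 : ℕ) : ℝ)) ^ 2) := by gcongr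
      have e2 : Y * (1 / (((2 * N + 1 : ℕ) : ℝ)) ^ 2) ≤ 1 / Y := by
        have e3 : Y ≤ ((2 * N + 1 : ℕ) : ℝ) := by push_cast; nlinarith
        have hYpos : 0 < Y := by linarith
        rw [mul_one_div, div_le_div_iff₀ (by positivity) hYpos]
        nlinarith
      have e4 : 1 / Y ≤ η / 64 := by
        have hYpos : 0 < Y := by linarith
        rw [div_le_div_iff₀ hYpos (by norm_num)]
        rw [div_le_iff₀ hη] at hXη
        linarith
      linarith
    have h5 : 4 * Real.exp (-((N : ℝ) - (M : ℝ))) ≤ η / 4 := by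
      have hYpos : 0 < Y := by linarith
      have e1 : Real.exp (-((N : ℝ) - (M : ℝ))) ≤ 1 / Y := by
        rw [Real.exp_neg, ← one_div]
        refine one_div_le_one_div_of_le hYpos ?_
        have := Real.add_one_le_exp ((N : ℝ) - (M : ℝ))
        nlinarith
      have e4 : 1 / Y ≤ η / 64 := by
        rw [div_le_div_iff₀ hYpos (by norm_num)]
        rw [div_le_iff₀ hη] at hXη
        linarith
      linarith
    have h6 : t * (1 / l ^ 2) = t / l ^ 2 := by ring
    rw [h6] at h2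
    have htl : 0 ≤ t / l ^ 2 := by positivity
    have h7 : 4 * Real.exp (-((N : ℝ) - (M : ℝ))) * ‖g‖ ≤ η / 4 * Q := by gcongr
    calc _ ≤ (15 * (η / 64) * (2 + t / l ^ 2) + t * |E0 - E|) * Q + η / 4 * Q := add_le_add h2 h7
      _ ≤ (15 * (η / 64) * (2 + t / l ^ 2) + η / 4) * Q + η / 4 * Q := by gcongr
      _ = (15 * (η / 64) * (2 + t / l ^ 2) + η / 2) * Q := by ring
      _ ≤ η * (1 + t / l ^ 2) * Q := by
          gcongr
          nlinarith

end FinWS
end Pool.Agent.H4R2.AE
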