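import Mathlib
import Pool.Agent.H4R2.AE.Ent

/-! Gaussian concentration for antitone functions, from the entropy method for fair signs and the
central limit theorem (task GMGF). -/

set_option autoImplicit false

open scoped BigOperators ENNReal Topology
open MeasureTheory ProbabilityTheory Filter

namespace Pool.Agent.H4R2.AE
namespace Gmgf

/-- fair sign -/
noncomputable def fs : Measure ℝ :=
  (2⁻¹ : ℝ≥0∞) • Measure.dirac (1 : ℝ) + (2⁻¹ : ℝ≥0∞) • Measure.dirac (-1 : ℝ)

instance : IsProbabilityMeasure fs := ⟨by simp [fs, ENNReal.inv_two_add_inv_two]⟩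

/-- clamp -/
noncomputable def cl (s : ℝ) : ℝ := max (-1) (min 1 s)

lemma cl_cont : Continuous cl := by unfold cl; fun_prop

lemma cl_le (s : ℝ) : cl s ≤ 1 := by
  unfold cl
  exact max_le (by norm_num) (min_le_left _ _)

lemma cl_ge (s : ℝ) : -1 ≤ cl s := le_max_left _ _

lemma cl_one : cl 1 = 1 := by unfold cl; norm_num

lemma cl_neg_one : cl (-1) = -1 := by unfold cl; norm_num

lemma map_cl : fs.map cl = fs := by
  have hm : Measurable cl := cl_cont.measurable
  unfold fs
  rw [Measure.map_add _ _ hm, Measure.map_smul, Measure.map_smul, Measure.map_dirac' hm,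
    Measure.map_dirac' hm, cl_one, cl_neg_one]

lemma int_fs (f : ℝ → ℝ) : ∫ x, f x ∂fs = (f 1 + f (-1)) / 2 := by
  unfold fs
  have i1 : Integrable f ((2⁻¹ : ℝ≥0∞) • Measure.dirac (1 : ℝ)) :=
    (integrable_dirac (by simp)).smul_measure (by simp)
  have i2 : Integrable f ((2⁻¹ : ℝ≥0∞) • Measure.dirac (-1 : ℝ)) :=
    (integrable_dirac (by simp)).smul_measure (by simp)
  rw [integral_add_measure i1 i2, integral_smul_measure, integral_smul_measure, integral_dirac,
    integral_dirac]
  simp
  ring

/-- normalised sum of clamped coordinates -/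
noncomputable def g (n : ℕ) (u : Fin n → ℝ) : ℝ := (Real.sqrt n)⁻¹ * ∑ j, cl (u j)

lemma g_cont (n : ℕ) : Continuous (g n) := by
  unfold g
  have := cl_cont
  fun_prop

/-- its law -/
noncomputable def nu (n : ℕ) : Measure ℝ := (Measure.pi fun _ : Fin n => fs).map (g n)

instance (n : ℕ) : IsProbabilityMeasure (nu n) :=
  Measure.isProbabilityMeasure_map (g_cont n).measurable.aemeasurable

lemma charFun_nu (n : ℕ) (t : ℝ) : charFun (nu n) t = (charFun fs ((Real.sqrt n)⁻¹ * t)) ^ n := by
  have h1 : nu n = ((Measure.pi fun _ : Fin n => fs).map (fun u j => cl (u j))).map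
      (fun u => (Real.sqrt n)⁻¹ * ∑ j, u j) := by
    rw [Measure.map_map (by fun_prop) (by
      have := cl_cont.measurable
      fun_prop)]
    rfl
  rw [h1, Measure.pi_map_pi (fun _ => cl_cont.measurable.aemeasurable)]
  simp only [map_cl]
  rw [charFun_map_mul_comp (by fun_prop), charFun_map_sum_pi_eq_prod]
  simp

/-- bundled law -/
noncomputable def nuP (n : ℕ) : ProbabilityMeasure ℝ := ⟨nu n, inferInstance⟩

/-- bundled Gaussian law -/
noncomputable def gP : ProbabilityMeasure ℝ := ⟨gaussianReal 0 1, inferInstance⟩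

lemma tendsto_nu : Tendsto nuP atTop (𝓝 gP) := by
  refine ProbabilityMeasure.tendsto_iff_tendsto_charFun.2 fun t => ?_
  have h := tendsto_charFun_inv_sqrt_mul_pow (P := fs) (X := id) (by fun_prop)
    (by
      change ∫ x, x ∂fs = 0
      rw [int_fs (fun x => x)]; norm_num)
    (by
      change ∫ x, x ^ 2 ∂fs = 1
      rw [int_fs (fun x => x ^ 2)]; norm_num) t
  have h2 : ∀ n : ℕ, charFun (nu n) t = (charFun (fs.map id) ((Real.sqrt n)⁻¹ * t)) ^ n := by
    intro n; rw [Measure.map_id, charFun_nu]
  change Tendsto (fun n => charFun (nu n) t) atTop (𝓝 (charFun (gaussianReal 0 1) t))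
  simp_rw [h2]
  rw [charFun_gaussianReal]
  simpa [neg_div] using h

variable {ι : Type}

/-- the block sums -/
noncomputable def XX (n : ℕ) (w : ι × Fin n → ℝ) (z : ι) : ℝ := g n (fun j => w (z, j))

lemma XX_cont (n : ℕ) : Continuous (XX n : (ι × Fin n → ℝ) → ι → ℝ) := by
  unfold XX
  have := g_cont n
  fun_prop

lemma map_XX [Fintype ι] (n : ℕ) : (Measure.pi fun _ : ι × Fin n => fs).map (XX n) =
    Measure.pi fun _ : ι => nu n := by
  have h1 := Measure.infinitePi_map_curry (fun (_ : ι) (_ : Fin n) => fs)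
  rw [Measure.infinitePi_eq_pi, Measure.infinitePi_eq_pi] at h1
  simp_rw [Measure.infinitePi_eq_pi] at h1
  have h2 : (XX n : (ι × Fin n → ℝ) → ι → ℝ) =
      (fun x i => g n (x i)) ∘ (MeasurableEquiv.curry ι (Fin n) ℝ) := by
    funext w z
    rfl
  have hg := (g_cont n).measurable
  rw [h2, ← Measure.map_map (by fun_prop) (MeasurableEquiv.measurable _), h1,
    Measure.pi_map_pi (fun _ => hg.aemeasurable)]
  rfl

lemma XX_update [DecidableEq ι] (n : ℕ) (w : ι × Fin n → ℝ) (z : ι) (j : Fin n) (s : ℝ) :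
    XX n (Function.update w (z, j) s) =
      Function.update (XX n w) z (XX n w z + (Real.sqrt n)⁻¹ * (cl s - cl (w (z, j)))) := by
  funext z'
  by_cases hz : z' = z
  · subst hz
    rw [Function.update_self]
    unfold XX g
    rw [← mul_add]
    congr 1
    have : ∀ j', cl (Function.update w (z', j) s (z', j')) =
        Function.update (fun j' => cl (w (z', j'))) j (cl s) j' := by
      intro j'
      by_cases hj : j' = j
      · subst hj; simp
      · rw [Function.update_of_ne (by simpa using hj), Function.update_of_ne hj]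
    simp_rw [this]
    rw [Finset.sum_update_of_mem (Finset.mem_univ j)]
    have h2 := Finset.sum_erase_add Finset.univ (fun j' => cl (w (z', j'))) (Finset.mem_univ j)
    rw [← h2, Finset.sdiff_singleton_eq_erase]
    ring
  · rw [Function.update_of_ne hz]
    unfold XX
    congr 1
    funext j'
    rw [Function.update_of_ne]
    simpa using fun h => absurd h hz

theorem gmgf {ι : Type} [Fintype ι] [DecidableEq ι] (F : (ι → ℝ) → ℝ) (hF : Continuous F) (B : ℝ)
    (hB : ∀ ω, |F ω| ≤ B)
    (hanti : ∀ (ω : ι → ℝ) (z : ι) (s : ℝ), ω z ≤ s → F (Function.update ω z s) ≤ F ω) (K : ℝ)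
    (hK : 0 ≤ K)
    (hgrad : ∀ ω : ι → ℝ, ∃ g : ι → ℝ, (∀ z, 0 ≤ g z) ∧ ∑ z, g z ^ 2 ≤ K ^ 2 ∧
      ∀ (z : ι) (s : ℝ), |F (Function.update ω z s) - F ω| ≤ |s - ω z| * g z)
    (θ : ℝ) (hθ : 0 < θ) :
    ∫ ω, Real.exp (θ * F ω) ∂(Measure.pi fun _ : ι => gaussianReal 0 1) ≤
      Real.exp (θ * ∫ ω, F ω ∂(Measure.pi fun _ : ι => gaussianReal 0 1) + 4 * K ^ 2 * θ ^ 2) := by
  -- finite n
  have hfin : ∀ n : ℕ, 1 ≤ n → ∫ ω, Real.exp (θ * F ω) ∂(Measure.pi fun _ : ι => nu n) ≤
      Real.exp (θ * ∫ ω, F ω ∂(Measure.pi fun _ : ι => nu n) + 4 * K ^ 2 * θ ^ 2) := by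
    intro n hn
    have hn' : (0 : ℝ) < n := by exact_mod_cast hn
    have hsq : 0 < Real.sqrt n := Real.sqrt_pos.mpr hn'
    have hXm := (XX_cont (ι := ι) n).measurable
    rw [← map_XX n, integral_map hXm.aemeasurable (by
        apply Continuous.aestronglyMeasurable; fun_prop),
      integral_map hXm.aemeasurable hF.aestronglyMeasurable]
    have key := Ent.mgf (ι := ι × Fin n) fs (fun w => F (XX n w))
      (hF.measurable.comp hXm) B (fun w => hB _) 1
      (by
        rintro w ⟨z, j⟩
        rw [XX_update]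
        apply hanti
        have : 0 ≤ (Real.sqrt n)⁻¹ * (cl 1 - cl (w (z, j))) := by
          apply mul_nonneg (inv_nonneg.mpr hsq.le)
          rw [cl_one]; linarith [cl_le (w (z, j))]
        linarith)
      2 (4 * K ^ 2) (by norm_num) (by positivity)
      (by
        intro θ' hθ' w
        obtain ⟨gr, hg0, hg2, hgd⟩ := hgrad (XX n w)
        have hone : ∀ p : ι × Fin n, |F (XX n w) - F (XX n (Function.update w p 1))| ≤
            2 * (Real.sqrt n)⁻¹ * gr p.1 := by
          rintro ⟨z, j⟩
          rw [XX_update, abs_sub_comm]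
          refine (hgd z _).trans ?_
          apply mul_le_mul_of_nonneg_right _ (hg0 z)
          have e : XX n w z + (Real.sqrt n)⁻¹ * (cl 1 - cl (w (z, j))) - XX n w z =
              (Real.sqrt n)⁻¹ * (cl 1 - cl (w (z, j))) := by ring
          rw [e, abs_mul, abs_of_pos (inv_pos.mpr hsq), mul_comm]
          apply mul_le_mul_of_nonneg_right _ (inv_nonneg.mpr hsq.le)
          rw [cl_one, abs_le]
          constructor <;> linarith [cl_le (w (z, j)), cl_ge (w (z, j))]
        calc ∑ p : ι × Fin n, min ((θ' * (F (XX n w) - F (XX n (Function.update w p 1)))) ^ 2)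
              (θ' * (F (XX n w) - F (XX n (Function.update w p 1))))
            ≤ ∑ p : ι × Fin n, θ' ^ 2 * (4 * (n : ℝ)⁻¹ * gr p.1 ^ 2) := by
              apply Finset.sum_le_sum
              intro p _
              refine (min_le_left _ _).trans ?_
              rw [mul_pow]
              apply mul_le_mul_of_nonneg_left _ (sq_nonneg _)
              have h1 := hone p
              have h2 : (F (XX n w) - F (XX n (Function.update w p 1))) ^ 2 ≤
                  (2 * (Real.sqrt n)⁻¹ * gr p.1) ^ 2 := by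
                rw [← sq_abs (F (XX n w) - F (XX n (Function.update w p 1)))]
                exact pow_le_pow_left₀ (abs_nonneg _) h1 2
              refine h2.trans (le_of_eq ?_)
              rw [mul_pow, mul_pow, inv_pow, Real.sq_sqrt hn'.le]
              ring
          _ = 4 * θ' ^ 2 * ∑ z, gr z ^ 2 := by
              rw [Fintype.sum_prod_type]
              simp only [Finset.sum_const, Finset.card_univ, Fintype.card_fin, nsmul_eq_mul]
              rw [Finset.mul_sum]
              apply Finset.sum_congr rfl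
              intro z _
              field_simp
          _ ≤ 4 * θ' ^ 2 * K ^ 2 := by
              apply mul_le_mul_of_nonneg_left hg2 (by positivity)
          _ = 4 * K ^ 2 * θ' ^ (2 : ℝ) := by
              rw [Real.rpow_two]; ring)
      θ hθ
    refine key.trans (le_of_eq ?_)
    rw [Real.rpow_two]
    congr 1
    norm_num
  -- limit
  have hlim : Tendsto (fun n => ProbabilityMeasure.pi (fun _ : ι => nuP n)) atTop
      (𝓝 (ProbabilityMeasure.pi (fun _ : ι => gP))) := by
    have h1 : Tendsto (fun n => (fun _ : ι => nuP n)) atTop (𝓝 (fun _ : ι => gP)) := by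
      rw [tendsto_pi_nhds]
      intro _
      exact tendsto_nu
    have h2 := (ProbabilityMeasure.continuous_pi (ι := ι) (α := fun _ => ℝ)).tendsto
      (fun _ : ι => gP)
    exact h2.comp h1
  rw [ProbabilityMeasure.tendsto_iff_forall_integral_tendsto] at hlim
  have hint : ∀ f : (ι → ℝ) → ℝ, Continuous f → (∃ C, ∀ ω, |f ω| ≤ C) →
      Tendsto (fun n => ∫ ω, f ω ∂(Measure.pi fun _ : ι => nu n)) atTop
        (𝓝 (∫ ω, f ω ∂(Measure.pi fun _ : ι => gaussianReal 0 1))) := by
    intro f hf ⟨C, hC⟩
    exact hlim (BoundedContinuousFunction.ofNormedAddCommGroup f hf C (fun ω => by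
      rw [Real.norm_eq_abs]; exact hC ω))
  have l1 := hint (fun ω => Real.exp (θ * F ω)) (by fun_prop) ⟨Real.exp (θ * B), fun ω => by
    rw [abs_of_pos (Real.exp_pos _)]
    exact Real.exp_le_exp.mpr (mul_le_mul_of_nonneg_left ((le_abs_self _).trans (hB ω)) hθ.le)⟩
  have l2 := hint F hF ⟨B, hB⟩
  have l3 : Tendsto (fun n => Real.exp (θ * ∫ ω, F ω ∂(Measure.pi fun _ : ι => nu n) +
      4 * K ^ 2 * θ ^ 2)) atTop
      (𝓝 (Real.exp (θ * ∫ ω, F ω ∂(Measure.pi fun _ : ι => gaussianReal 0 1) +
        4 * K ^ 2 * θ ^ 2))) :=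
    (Real.continuous_exp.tendsto _).comp ((l2.const_mul θ).add_const _)
  exact le_of_tendsto_of_tendsto l1 l3
    (eventually_atTop.mpr ⟨1, fun n hn => hfin n hn⟩)

end Gmgf
end Pool.Agent.H4R2.AE
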