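import Pool.Agent.H4R2.AE.Sens

set_option autoImplicit false

open scoped BigOperators

namespace Pool.Agent.H4R2.AE
namespace Sensg

set_option linter.unusedSectionVars false

/-- pointwise claim, with the size of the change -/
theorem claim {d L : ℕ} [NeZero L] (lam δ κ E : ℝ) (hlam : 0 < lam) (hδ : 0 < δ) (hδ' : δ ≤ 1 / 8) (hκ : 0 < κ)
    (hE : |E| ≤ lam)
    (V w V' w' : T d L → ℝ) (hV : ∀ x, |V x| ≤ 1) (hV' : ∀ x, |V' x| ≤ 1)
    (hw : IsSol lam δ κ V E w) (hw' : IsSol lam δ κ V' E w') (z x0 : T d L)
    (hVV' : ∀ y, y ≠ z → V' y = V y) (Gr : T d L → ℝ)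
    (hGr : ∀ x, LapW (fun y => Real.exp (w y)) Gr x + κ * Real.exp (-(4 * δ)) * Gr x =
      if x = x0 then 1 else 0) (hGr0 : ∀ x, 0 ≤ Gr x) :
    |w' x0 - w x0| ≤ Real.exp 1 * lam * |V' z - V z| * Gr z := by
  have bw := Cmp.bound lam δ κ E hlam hδ hκ hE V w hV hw
  have bw' := Cmp.bound lam δ κ E hlam hδ hκ hE V' w' hV' hw'
  have hprod : ∀ x, Real.exp (-(4 * δ)) ≤ Real.exp (w x + w' x) := by
    intro x
    apply Real.exp_le_exp.mpr
    have := abs_le.mp (bw x)
    have := abs_le.mp (bw' x)
    linarith
  have hprod' : ∀ x, Real.exp (w x + w' x) ≤ Real.exp (4 * δ) := by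
    intro x
    apply Real.exp_le_exp.mpr
    have := abs_le.mp (bw x)
    have := abs_le.mp (bw' x)
    linarith
  set q : ℝ := |V' z - V z| with hq
  have hq0 : 0 ≤ q := abs_nonneg _
  have hS : ∀ x, lam * q * Real.exp (w x + w' x) ≤ lam * q * Real.exp (4 * δ) := by
    intro x
    exact mul_le_mul_of_nonneg_left (hprod' x) (by positivity)
  have hGz := hGr0 z
  -- key estimate exp (4δ) * (2 lam exp (4δ)) ≤ 2 e lam
  have hconst : Real.exp (4 * δ) * (lam * q * Real.exp (4 * δ) * Gr z) ≤
      Real.exp 1 * lam * q * Gr z := by
    have : Real.exp (4 * δ) * Real.exp (4 * δ) ≤ Real.exp 1 := by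
      rw [← Real.exp_add]
      exact Real.exp_le_exp.mpr (by linarith)
    have h2 : Real.exp (4 * δ) * (lam * q * Real.exp (4 * δ) * Gr z) =
      (Real.exp (4 * δ) * Real.exp (4 * δ)) * (lam * q * Gr z) := by ring
    rw [h2]
    have h3 : (Real.exp (4 * δ) * Real.exp (4 * δ)) * (lam * q * Gr z) ≤
        Real.exp 1 * (lam * q * Gr z) := mul_le_mul_of_nonneg_right this (by positivity)
    linarith
  rcases le_total (V' z) (V z) with hz | hz
  · -- case A : w' ≥ w
    have hle : ∀ x, w x ≤ w' x := by
      have := Cmp.compare lam δ κ hlam hδ hκ V' V E E w' w hw' hw 0 le_rfl (by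
        intro x
        by_cases hx : x = z
        · subst hx
          nlinarith
        · rw [hVV' x hx]; simp)
      intro x
      have := this x
      rw [zero_div] at this
      linarith
    have hmain := Sens.green_bound (fun y => Real.exp (w y)) Gr
      (fun y => Real.exp (w' y - w y) - 1) (κ * Real.exp (-(4 * δ))) (lam * q * Real.exp (4 * δ))
      x0 z hGr hGr0 (by
        intro x
        have hk := Sens.key lam δ κ E V V' w w' hw hw' x
        have hL : LapW (fun y => Real.exp (w y)) (fun y => Real.exp (w' y - w y) - 1) x =
            LapW (fun y => Real.exp (w y)) (fun y => Real.exp (w' y - w y)) x := by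
          unfold LapW
          refine Finset.sum_congr rfl fun i _ => ?_
          simp only
          ring
        rw [hL, hk]
        have hb := Cmp.beta_mono lam δ κ hlam hδ (w' x) (w x) (hle x)
        set t := w' x - w x with ht
        have ht0 : 0 ≤ t := by have := hle x; linarith
        have hu2 : Real.exp (w x + w' x) = Real.exp (2 * w x) * Real.exp t := by
          rw [← Real.exp_add]; congr 1; rw [ht]; ring
        have htt : Real.exp t - 1 ≤ t * Real.exp t := by
          have h1 : 1 - t ≤ Real.exp (-t) := by
            have := Real.add_one_le_exp (-t); linarith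
          have h2 : (1 - t) * Real.exp t ≤ Real.exp (-t) * Real.exp t :=
            mul_le_mul_of_nonneg_right h1 (Real.exp_pos _).le
          rw [← Real.exp_add] at h2
          simp at h2
          linarith
        have he0 : 0 ≤ Real.exp t - 1 := by
          have := Real.one_le_exp ht0; linarith
        have h2w : Real.exp (-(4 * δ)) ≤ Real.exp (2 * w x) := by
          apply Real.exp_le_exp.mpr
          have := abs_le.mp (bw x)
          linarith
        have h3 : κ * Real.exp (-(4 * δ)) * (Real.exp t - 1) ≤
            (beta lam δ κ (w' x) - beta lam δ κ (w x)) * Real.exp (w x + w' x) := by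
          calc κ * Real.exp (-(4 * δ)) * (Real.exp t - 1)
              ≤ κ * Real.exp (2 * w x) * (Real.exp t - 1) := by
                apply mul_le_mul_of_nonneg_right _ he0
                exact mul_le_mul_of_nonneg_left h2w hκ.le
            _ ≤ κ * Real.exp (2 * w x) * (t * Real.exp t) := by
                apply mul_le_mul_of_nonneg_left htt
                positivity
            _ = (κ * t) * Real.exp (w x + w' x) := by rw [hu2]; ring
            _ ≤ _ := by
                apply mul_le_mul_of_nonneg_right _ (Real.exp_pos _).le
                exact hb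
        by_cases hx : x = z
        · subst hx
          rw [if_pos rfl]
          have h4 := hS x
          have h5 : q = V x - V' x := by
            rw [hq, abs_of_nonpos (by linarith)]; ring
          rw [h5] at h4 ⊢
          nlinarith
        · rw [if_neg hx, hVV' x hx]
          nlinarith)
    have h5 : w' x0 - w x0 ≤ Real.exp (w' x0 - w x0) - 1 := by
      have := Real.add_one_le_exp (w' x0 - w x0); linarith
    rw [abs_of_nonneg (by have := hle x0; linarith)]
    have h6 : 1 ≤ Real.exp (4 * δ) := Real.one_le_exp (by linarith)
    have h7 : 0 ≤ lam * q * Real.exp (4 * δ) * Gr z := by positivity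
    nlinarith
  · -- case B : w' ≤ w
    have hle : ∀ x, w' x ≤ w x := by
      have := Cmp.compare lam δ κ hlam hδ hκ V V' E E w w' hw hw' 0 le_rfl (by
        intro x
        by_cases hx : x = z
        · subst hx
          nlinarith
        · rw [hVV' x hx]; simp)
      intro x
      have := this x
      rw [zero_div] at this
      linarith
    have hmain := Sens.green_bound (fun y => Real.exp (w y)) Gr
      (fun y => 1 - Real.exp (w' y - w y)) (κ * Real.exp (-(4 * δ))) (lam * q * Real.exp (4 * δ))
      x0 z hGr hGr0 (by
        intro x
        have hk := Sens.key lam δ κ E V V' w w' hw hw' x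
        have hL : LapW (fun y => Real.exp (w y)) (fun y => 1 - Real.exp (w' y - w y)) x =
            -LapW (fun y => Real.exp (w y)) (fun y => Real.exp (w' y - w y)) x := by
          unfold LapW
          rw [← Finset.sum_neg_distrib]
          refine Finset.sum_congr rfl fun i _ => ?_
          simp only
          ring
        rw [hL, hk]
        have hb := Cmp.beta_mono lam δ κ hlam hδ (w x) (w' x) (hle x)
        set t := w' x - w x with ht
        have ht0 : t ≤ 0 := by have := hle x; linarith
        have he0 : 0 ≤ 1 - Real.exp t := by
          have := Real.exp_le_one_iff.mpr ht0; linarith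
        have htt : 1 - Real.exp t ≤ -t := by
          have := Real.add_one_le_exp t; linarith
        have h3 : κ * Real.exp (-(4 * δ)) * (1 - Real.exp t) ≤
            (beta lam δ κ (w x) - beta lam δ κ (w' x)) * Real.exp (w x + w' x) := by
          calc κ * Real.exp (-(4 * δ)) * (1 - Real.exp t)
              ≤ κ * Real.exp (w x + w' x) * (1 - Real.exp t) := by
                apply mul_le_mul_of_nonneg_right _ he0
                exact mul_le_mul_of_nonneg_left (hprod x) hκ.le
            _ ≤ κ * Real.exp (w x + w' x) * (-t) := by
                apply mul_le_mul_of_nonneg_left htt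
                positivity
            _ = (κ * (w x - w' x)) * Real.exp (w x + w' x) := by rw [ht]; ring
            _ ≤ _ := by
                apply mul_le_mul_of_nonneg_right _ (Real.exp_pos _).le
                exact hb
        by_cases hx : x = z
        · subst hx
          rw [if_pos rfl]
          have h4 := hS x
          have h5 : q = V' x - V x := by
            rw [hq, abs_of_nonneg (by linarith)]
          rw [h5] at h4 ⊢
          nlinarith
        · rw [if_neg hx, hVV' x hx]
          nlinarith)
    have h5 : w x0 - w' x0 ≤ Real.exp (4 * δ) * (1 - Real.exp (w' x0 - w x0)) := by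
      set t := w' x0 - w x0 with ht
      have h1 : w x0 - w' x0 ≤ Real.exp (w x0 - w' x0) - 1 := by
        have := Real.add_one_le_exp (w x0 - w' x0); linarith
      have h2 : Real.exp (w x0 - w' x0) - 1 = Real.exp (w x0 - w' x0) * (1 - Real.exp t) := by
        rw [mul_sub, mul_one, ← Real.exp_add, ht]
        have : w x0 - w' x0 + (w' x0 - w x0) = 0 := by ring
        rw [this, Real.exp_zero]
      have h3 : Real.exp (w x0 - w' x0) ≤ Real.exp (4 * δ) := by
        apply Real.exp_le_exp.mpr
        have := abs_le.mp (bw x0)
        have := abs_le.mp (bw' x0)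
        linarith
      have h4 : 0 ≤ 1 - Real.exp t := by
        have : t ≤ 0 := by have := hle x0; linarith
        have := Real.exp_le_one_iff.mpr this; linarith
      calc w x0 - w' x0 ≤ Real.exp (w x0 - w' x0) * (1 - Real.exp t) := by linarith
        _ ≤ _ := mul_le_mul_of_nonneg_right h3 h4
    rw [abs_of_nonpos (by have := hle x0; linarith)]
    have h6 : 0 < Real.exp (4 * δ) := Real.exp_pos _
    have h7 := mul_le_mul_of_nonneg_left hmain h6.le
    linarith

end Sensg
end Pool.Agent.H4R2.AE
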