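import Pool.Agent.H4R2.AE.Good
import Pool.Agent.H4R2.AE.Sensg
import Pool.Agent.H4R2.AE.Gmgf

/-! The good event on the torus for Gaussian disorder. -/

set_option autoImplicit false
set_option linter.unusedSectionVars false

open scoped BigOperators ENNReal
open MeasureTheory ProbabilityTheory Filter Topology

namespace Pool.Agent.H4R2.AE

namespace Goodg

/-- one-sided tail from the Gaussian moment generating function bound -/
lemma goodg_tail {ι : Type} [Fintype ι] [DecidableEq ι] (F : (ι → ℝ) → ℝ) (hF : Continuous F)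
    (B : ℝ) (hB : ∀ ω, |F ω| ≤ B)
    (hanti : ∀ (ω : ι → ℝ) (z : ι) (s : ℝ), ω z ≤ s → F (Function.update ω z s) ≤ F ω) (K : ℝ)
    (hK : 0 < K)
    (hgrad : ∀ ω : ι → ℝ, ∃ g : ι → ℝ, (∀ z, 0 ≤ g z) ∧ ∑ z, g z ^ 2 ≤ K ^ 2 ∧
      ∀ (z : ι) (s : ℝ), |F (Function.update ω z s) - F ω| ≤ |s - ω z| * g z)
    (h0 : ∫ ω, F ω ∂(Measure.pi fun _ : ι => gaussianReal 0 1) = 0) (δ : ℝ) (hδ : 0 < δ) :
    (Measure.pi fun _ : ι => gaussianReal 0 1).real {ω | δ ≤ F ω} ≤
      Real.exp (-(δ ^ 2 / (16 * K ^ 2))) := by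
  have hθ : 0 < δ / (8 * K ^ 2) := by positivity
  have hm := Gmgf.gmgf F hF B hB hanti K hK.le hgrad (δ / (8 * K ^ 2)) hθ
  rw [h0, mul_zero, zero_add] at hm
  have hint : Integrable (fun ω => Real.exp (δ / (8 * K ^ 2) * F ω))
      (Measure.pi fun _ : ι => gaussianReal 0 1) := by
    refine Integrable.of_bound (C := Real.exp (δ / (8 * K ^ 2) * B))
      (by fun_prop : Continuous fun ω => Real.exp
        (δ / (8 * K ^ 2) * F ω)).measurable.aestronglyMeasurable ?_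
    filter_upwards with ω
    rw [Real.norm_eq_abs, abs_of_pos (Real.exp_pos _)]
    exact Real.exp_le_exp.2 (mul_le_mul_of_nonneg_left ((le_abs_self _).trans (hB ω)) hθ.le)
  have hmk := measure_ge_le_exp_mul_mgf (μ := Measure.pi fun _ : ι => gaussianReal 0 1)
    (X := F) (t := δ / (8 * K ^ 2)) δ hθ.le hint
  refine hmk.trans ?_
  have h1 : mgf F (Measure.pi fun _ : ι => gaussianReal 0 1) (δ / (8 * K ^ 2)) ≤
      Real.exp (4 * K ^ 2 * (δ / (8 * K ^ 2)) ^ 2) := hm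
  refine (mul_le_mul_of_nonneg_left h1 (Real.exp_pos _).le).trans (le_of_eq ?_)
  rw [← Real.exp_add]
  congr 1
  field_simp
  ring

variable {d L : ℕ} [NeZero L]

lemma goodg_anti (κ : ℝ) (hκ : 0 < κ) (lam δ : ℝ) (hlam : 0 < lam)
    (hδ : 0 < δ) (E : ℝ) (hE : |E| ≤ lam) (V V' : T d L → ℝ)
    (h : ∀ y, V y ≤ V' y) (x : T d L) :
    Good.W lam δ κ E V' x ≤ Good.W lam δ κ E V x := by
  have hc : ∀ y, Good.clamp V y ≤ Good.clamp V' y := by
    intro y
    unfold Good.clamp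
    exact max_le_max le_rfl (min_le_min le_rfl (h y))
  have := Cmp.compare lam δ κ hlam hδ hκ (Good.clamp V) (Good.clamp V') E E _ _
    (Good.good_W lam δ κ E V hlam hδ hκ hE) (Good.good_W lam δ κ E V' hlam hδ hκ hE) 0 le_rfl
    (by
      intro y
      have := mul_le_mul_of_nonneg_left (sub_nonpos.2 (hc y)) hlam.le
      linarith) x
  rw [zero_div] at this
  linarith

/-- sensitivity of the solution to one site in terms of the Green function -/
lemma goodg_sens (κ : ℝ) (hκ : 0 < κ) (Γ2 : ℝ) (σ δ : ℝ)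
    (hσ : 0 < σ) (hδ : 0 < δ) (hδ' : δ ≤ 1 / 8)
    (hG : ∀ (u Gr : T d L → ℝ) (x0 : T d L), (∀ x, 1 / 2 ≤ u x) → (∀ x, 0 ≤ Gr x) →
      (∀ x, LapW u Gr x + κ * Real.exp (-(4 * δ)) * Gr x = if x = x0 then 1 else 0) →
      ∑ z, Gr z ^ 2 ≤ Γ2) (E : ℝ) (hE : |E| ≤ 1) (x : T d L) (ξ : T d L → ℝ) :
    ∃ g : T d L → ℝ, (∀ z, 0 ≤ g z) ∧ ∑ z, g z ^ 2 ≤ Real.exp 1 ^ 2 * σ ^ 2 * Γ2 ∧
      ∀ (z : T d L) (s : ℝ), |Good.W 1 δ κ E (fun y => σ * Function.update ξ z s y) x -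
        Good.W 1 δ κ E (fun y => σ * ξ y) x| ≤ |s - ξ z| * g z := by
  set V : T d L → ℝ := fun y => σ * ξ y with hV
  have hw := Good.good_W 1 δ κ E V one_pos hδ hκ hE
  have bw := Cmp.bound 1 δ κ E one_pos hδ hκ hE (Good.clamp V) _ (Good.good_clamp_le V) hw
  obtain ⟨Gr, hGr⟩ := Lin.solve (fun y => Real.exp (Good.W 1 δ κ E V y))
    (fun _ : T d L => κ * Real.exp (-(4 * δ))) (fun y => if y = x then (1 : ℝ) else 0)
    (fun y => Real.exp_pos _) (fun _ => by positivity)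
  have hGr0 : ∀ y, 0 ≤ Gr y :=
    Lin.nonneg (fun y => Real.exp (Good.W 1 δ κ E V y)) (fun _ => κ * Real.exp (-(4 * δ))) Gr
      (fun y => Real.exp_pos _) (fun _ => by positivity) (by
      intro y; rw [hGr y]; split_ifs <;> norm_num)
  have hu : ∀ y, 1 / 2 ≤ Real.exp (Good.W 1 δ κ E V y) := by
    intro y
    have h1 := (abs_le.1 (bw y)).1
    have h2 := Real.add_one_le_exp (Good.W 1 δ κ E V y)
    linarith
  refine ⟨fun z => Real.exp 1 * σ * Gr z, fun z => ?_, ?_, fun z s => ?_⟩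
  · exact mul_nonneg (mul_nonneg (Real.exp_pos _).le hσ.le) (hGr0 z)
  · have h1 : ∑ z, (Real.exp 1 * σ * Gr z) ^ 2 = Real.exp 1 ^ 2 * σ ^ 2 * ∑ z, Gr z ^ 2 := by
      rw [Finset.mul_sum]
      exact Finset.sum_congr rfl fun z _ => by ring
    rw [h1]
    exact mul_le_mul_of_nonneg_left (hG _ Gr x hu hGr0 hGr) (by positivity)
  · set V' : T d L → ℝ := fun y => σ * Function.update ξ z s y with hV'
    have hc := Sensg.claim 1 δ κ E one_pos hδ hδ' hκ hE (Good.clamp V) _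
      (Good.clamp V') _ (Good.good_clamp_le V) (Good.good_clamp_le _) hw
      (Good.good_W 1 δ κ E V' one_pos hδ hκ hE) z x
      (fun y hy => by
        have : V' y = V y := by
          simp only [hV', hV]
          rw [Function.update_of_ne hy]
        unfold Good.clamp
        rw [this]) Gr hGr hGr0
    have hl := Good.good_clamp_lip V' V z
    have he : |V' z - V z| = σ * |s - ξ z| := by
      simp only [hV', hV]
      rw [Function.update_self, ← mul_sub, abs_mul, abs_of_pos hσ]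
    rw [he] at hl
    calc |Good.W 1 δ κ E V' x - Good.W 1 δ κ E V x|
        ≤ Real.exp 1 * 1 * |Good.clamp V' z - Good.clamp V z| * Gr z := hc
      _ ≤ Real.exp 1 * 1 * (σ * |s - ξ z|) * Gr z := by
          refine mul_le_mul_of_nonneg_right (mul_le_mul_of_nonneg_left hl ?_) (hGr0 z)
          positivity
      _ = |s - ξ z| * (Real.exp 1 * σ * Gr z) := by ring

lemma goodg_contF (κ : ℝ) (hκ : 0 < κ) (σ δ : ℝ) (hδ : 0 < δ) (E : ℝ) (hE : |E| ≤ 1)
    (x : T d L) : Continuous fun ξ : T d L → ℝ => Good.W 1 δ κ E (fun y => σ * ξ y) x :=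
  (Good.good_cont 1 δ κ E one_pos hδ hκ hE x).comp
    (continuous_pi fun y => continuous_const.mul (continuous_apply y))

lemma goodg_law (σ : ℝ) :
    Measure.map (fun (ξ : T d L → ℝ) (y : T d L) => σ * ξ y)
      (Measure.pi fun _ : T d L => gaussianReal 0 1) =
    Measure.pi fun _ : T d L => Measure.map (fun t => σ * t) (gaussianReal 0 1) := by
  have : IsProbabilityMeasure (Measure.map (fun t => σ * t) (gaussianReal 0 1)) :=
    Measure.isProbabilityMeasure_map (by fun_prop)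
  exact Measure.pi_map_pi (μ := fun _ : T d L => gaussianReal 0 1)
    (f := fun (_ : T d L) (t : ℝ) => σ * t) (fun _ => by fun_prop)

/-- the energy and the mean-zero property -/
lemma goodg_E (κ : ℝ) (hκ : 0 < κ) (σ δ : ℝ) (hδ : 0 < δ) :
    ∃ E : ℝ, |E| ≤ 1 ∧ ∀ x : T d L,
      ∫ ξ, Good.W 1 δ κ E (fun y => σ * ξ y) x ∂(Measure.pi fun _ : T d L => gaussianReal 0 1)
        = 0 := by
  have : IsProbabilityMeasure (Measure.map (fun t => σ * t) (gaussianReal 0 1)) :=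
    Measure.isProbabilityMeasure_map (by fun_prop)
  obtain ⟨E, hE, hE0⟩ := Good.good_E (d := d) (L := L) 1 δ κ one_pos hδ hκ
    (Measure.map (fun t => σ * t) (gaussianReal 0 1))
  refine ⟨E, hE, fun x => ?_⟩
  rw [← Good.good_mean 1 δ κ E one_pos hδ hκ hE _ x, ← goodg_law σ] at hE0
  have hm : Measurable fun (ξ : T d L → ℝ) (y : T d L) => σ * ξ y := by fun_prop
  rw [integral_map hm.aemeasurable
    (Good.good_cont 1 δ κ E one_pos hδ hκ hE x).measurable.aestronglyMeasurable] at hE0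
  exact hE0

lemma goodg_const (Γ2 σ δ : ℝ) (hΓ2 : 0 < Γ2) (hσ : 0 < σ) (hδ : 0 < δ) :
    Real.exp (-(δ ^ 2 / (16 * Real.sqrt (Real.exp 1 ^ 2 * σ ^ 2 * Γ2) ^ 2))) ≤
      Real.exp (-(δ ^ 2 / (120 * Γ2 * σ ^ 2))) := by
  rw [Real.sq_sqrt (by positivity)]
  refine Real.exp_le_exp.2 (neg_le_neg ?_)
  refine div_le_div_of_nonneg_left (by positivity) (by positivity) ?_
  have he : Real.exp 1 ^ 2 ≤ 7.5 := by
    have h1 := Real.exp_one_lt_d9
    have h2 := Real.exp_pos 1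
    nlinarith
  have h3 : 0 < σ ^ 2 * Γ2 := by positivity
  nlinarith

lemma goodg_neg : Measure.map (fun (ξ : T d L → ℝ) (y : T d L) => -ξ y)
      (Measure.pi fun _ : T d L => gaussianReal 0 1) =
    Measure.pi fun _ : T d L => gaussianReal 0 1 := by
  have : IsProbabilityMeasure (Measure.map (fun t : ℝ => -t) (gaussianReal 0 1)) :=
    Measure.isProbabilityMeasure_map (by fun_prop)
  have h := Measure.pi_map_pi (μ := fun _ : T d L => gaussianReal 0 1)
    (f := fun (_ : T d L) (t : ℝ) => -t) (fun _ => by fun_prop)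
  rw [h]
  congr 1
  funext _
  rw [gaussianReal_map_neg, neg_zero]

lemma goodg_two (κ : ℝ) (hκ : 0 < κ) (Γ2 : ℝ) (hΓ2 : 0 < Γ2) (σ δ : ℝ)
    (hσ : 0 < σ) (hδ : 0 < δ) (hδ' : δ ≤ 1 / 8)
    (hG : ∀ (u Gr : T d L → ℝ) (x0 : T d L), (∀ x, 1 / 2 ≤ u x) → (∀ x, 0 ≤ Gr x) →
      (∀ x, LapW u Gr x + κ * Real.exp (-(4 * δ)) * Gr x = if x = x0 then 1 else 0) →
      ∑ z, Gr z ^ 2 ≤ Γ2) (E : ℝ) (hE : |E| ≤ 1) (x : T d L)
    (h0 : ∫ ξ, Good.W 1 δ κ E (fun y => σ * ξ y) x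
      ∂(Measure.pi fun _ : T d L => gaussianReal 0 1) = 0) :
    (Measure.pi fun _ : T d L => gaussianReal 0 1).real
      {ξ | δ ≤ |Good.W 1 δ κ E (fun y => σ * ξ y) x|} ≤
      2 * Real.exp (-(δ ^ 2 / (120 * Γ2 * σ ^ 2))) := by
  have hK : 0 < Real.sqrt (Real.exp 1 ^ 2 * σ ^ 2 * Γ2) := Real.sqrt_pos.2 (by positivity)
  have hKsq : Real.sqrt (Real.exp 1 ^ 2 * σ ^ 2 * Γ2) ^ 2 = Real.exp 1 ^ 2 * σ ^ 2 * Γ2 :=
    Real.sq_sqrt (by positivity)
  have hcont := goodg_contF κ hκ σ δ hδ E hE x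
  have hsens := goodg_sens κ hκ Γ2 σ δ hσ hδ hδ' hG E hE x
  have hup : (Measure.pi fun _ : T d L => gaussianReal 0 1).real
      {ξ | δ ≤ Good.W 1 δ κ E (fun y => σ * ξ y) x} ≤
      Real.exp (-(δ ^ 2 / (120 * Γ2 * σ ^ 2))) := by
    refine (goodg_tail (fun ξ : T d L → ℝ => Good.W 1 δ κ E (fun y => σ * ξ y) x) hcont (2 * δ)
      (fun ξ => Good.good_bound 1 δ κ E one_pos hδ hκ hE _ x) ?_ _ hK ?_ h0 δ hδ).trans
      (goodg_const Γ2 σ δ hΓ2 hσ hδ)
    · intro ω z s hs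
      refine goodg_anti κ hκ 1 δ one_pos hδ E hE _ _ (fun y => ?_) x
      refine mul_le_mul_of_nonneg_left ?_ hσ.le
      by_cases hy : y = z
      · subst hy; rw [Function.update_self]; exact hs
      · rw [Function.update_of_ne hy]
    · intro ω
      rw [hKsq]
      exact hsens ω
  have hdn : (Measure.pi fun _ : T d L => gaussianReal 0 1).real
      {ξ | δ ≤ -Good.W 1 δ κ E (fun y => σ * ξ y) x} ≤
      Real.exp (-(δ ^ 2 / (120 * Γ2 * σ ^ 2))) := by
    have hmeas : MeasurableSet {ξ : T d L → ℝ | δ ≤ -Good.W 1 δ κ E (fun y => σ * ξ y) x} :=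
      measurableSet_le measurable_const hcont.neg.measurable
    have hmn : Measurable fun (ξ : T d L → ℝ) (y : T d L) => -ξ y := by fun_prop
    have e1 : (Measure.pi fun _ : T d L => gaussianReal 0 1).real
        {ξ | δ ≤ -Good.W 1 δ κ E (fun y => σ * ξ y) x} =
        (Measure.pi fun _ : T d L => gaussianReal 0 1).real
        {ξ | δ ≤ -Good.W 1 δ κ E (fun y => σ * (-ξ y)) x} := by
      conv_lhs => rw [← goodg_neg (d := d) (L := L)]
      rw [map_measureReal_apply hmn hmeas]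
      rfl
    rw [e1]
    have hcn : Continuous fun ξ : T d L → ℝ => -Good.W 1 δ κ E (fun y => σ * (-ξ y)) x :=
      (hcont.comp (continuous_pi fun y => (continuous_apply y).neg)).neg
    refine (goodg_tail (fun ξ : T d L → ℝ => -Good.W 1 δ κ E (fun y => σ * (-ξ y)) x) hcn (2 * δ)
      (fun ξ => by rw [abs_neg]; exact Good.good_bound 1 δ κ E one_pos hδ hκ hE _ x) ?_ _ hK ?_
      ?_ δ hδ).trans (goodg_const Γ2 σ δ hΓ2 hσ hδ)
    · intro ω z s hs
      refine neg_le_neg (goodg_anti κ hκ 1 δ one_pos hδ E hE _ _ (fun y => ?_) x)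
      refine mul_le_mul_of_nonneg_left ?_ hσ.le
      by_cases hy : y = z
      · subst hy; rw [Function.update_self]; exact neg_le_neg hs
      · rw [Function.update_of_ne hy]
    · intro ω
      rw [hKsq]
      obtain ⟨g, hg0, hg1, hg2⟩ := hsens fun y => -ω y
      refine ⟨g, hg0, hg1, fun z s => ?_⟩
      have h := hg2 z (-s)
      have e2 : (fun y => σ * Function.update (fun y => -ω y) z (-s) y) =
          fun y => σ * (-Function.update ω z s y) := by
        funext y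
        by_cases hy : y = z
        · subst hy; rw [Function.update_self, Function.update_self]
        · rw [Function.update_of_ne hy, Function.update_of_ne hy]
      rw [e2] at h
      have e3 : |-s - -ω z| = |s - ω z| := by
        rw [← abs_neg]; congr 1; ring
      rw [e3] at h
      refine le_trans (le_of_eq ?_) h
      rw [← abs_neg]
      congr 1
      ring
    · rw [integral_neg]
      have e4 : ∫ ξ, Good.W 1 δ κ E (fun y => σ * (-ξ y)) x
          ∂(Measure.pi fun _ : T d L => gaussianReal 0 1) =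
          ∫ ξ, Good.W 1 δ κ E (fun y => σ * ξ y) x
          ∂(Measure.pi fun _ : T d L => gaussianReal 0 1) := by
        conv_rhs => rw [← goodg_neg (d := d) (L := L)]
        rw [integral_map hmn.aemeasurable hcont.measurable.aestronglyMeasurable]
      rw [e4, h0, neg_zero]
  have hsub : {ξ : T d L → ℝ | δ ≤ |Good.W 1 δ κ E (fun y => σ * ξ y) x|} ⊆
      {ξ | δ ≤ Good.W 1 δ κ E (fun y => σ * ξ y) x} ∪
      {ξ | δ ≤ -Good.W 1 δ κ E (fun y => σ * ξ y) x} := by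
    intro ξ hξ
    exact le_abs.1 (show δ ≤ |Good.W 1 δ κ E (fun y => σ * ξ y) x| from hξ)
  refine (measureReal_mono hsub).trans ((measureReal_union_le _ _).trans ?_)
  linarith

/-- tail of one Gaussian coordinate -/
lemma goodg_gauss (σ : ℝ) (hσ : 0 < σ) (x : T d L) :
    (Measure.pi fun _ : T d L => gaussianReal 0 1).real {ξ | 1 < |σ * ξ x|} ≤
      2 * Real.exp (-(1 / (2 * σ ^ 2))) := by
  have hmp := measurePreserving_eval (fun _ : T d L => gaussianReal 0 1) x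
  have hms : MeasurableSet {t : ℝ | 1 < |σ * t|} :=
    measurableSet_lt measurable_const (by fun_prop)
  have e1 : (Measure.pi fun _ : T d L => gaussianReal 0 1).real {ξ | 1 < |σ * ξ x|} =
      (gaussianReal 0 1).real {t | 1 < |σ * t|} := by
    conv_rhs => rw [← hmp.map_eq]
    rw [map_measureReal_apply (measurable_pi_apply x) hms]
    rfl
  rw [e1]
  have hint : ∀ t : ℝ, Integrable (fun ω => Real.exp (t * ω)) (gaussianReal 0 1) :=
    fun t => integrable_exp_mul_gaussianReal t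
  have hmgf : ∀ t : ℝ, mgf id (gaussianReal 0 1) t = Real.exp (t ^ 2 / 2) := by
    intro t
    rw [mgf_id_gaussianReal]
    simp
  have h1 : (gaussianReal 0 1).real {t | 1 / σ ≤ t} ≤ Real.exp (-(1 / (2 * σ ^ 2))) := by
    have h := measure_ge_le_exp_mul_mgf (μ := gaussianReal 0 1) (X := id) (t := 1 / σ) (1 / σ)
      (by positivity) (hint _)
    rw [hmgf, ← Real.exp_add] at h
    refine le_trans h (le_of_eq ?_)
    congr 1
    field_simp
    ring
  have h2 : (gaussianReal 0 1).real {t | t ≤ -(1 / σ)} ≤ Real.exp (-(1 / (2 * σ ^ 2))) := by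
    have h := measure_le_le_exp_mul_mgf (μ := gaussianReal 0 1) (X := id) (t := -(1 / σ))
      (-(1 / σ)) (by rw [neg_nonpos]; positivity) (hint _)
    rw [hmgf, ← Real.exp_add] at h
    refine le_trans h (le_of_eq ?_)
    congr 1
    field_simp
    ring
  have hsub : {t : ℝ | 1 < |σ * t|} ⊆ {t | 1 / σ ≤ t} ∪ {t | t ≤ -(1 / σ)} := by
    intro t ht
    have ht' : 1 < |σ * t| := ht
    rw [lt_abs] at ht'
    rcases ht' with h | h
    · left
      show 1 / σ ≤ t
      rw [div_le_iff₀ hσ]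
      linarith
    · right
      show t ≤ -(1 / σ)
      rw [le_neg, div_le_iff₀ hσ]
      linarith
  refine (measureReal_mono hsub).trans ((measureReal_union_le _ _).trans ?_)
  linarith

theorem good (d L : ℕ) [NeZero L] (κ : ℝ) (hκ : 0 < κ) (Γ2 : ℝ) (hΓ2 : 0 < Γ2) (σ δ : ℝ)
    (hσ : 0 < σ) (hδ : 0 < δ) (hδ' : δ ≤ 1 / 8)
    (hG : ∀ (u Gr : T d L → ℝ) (x0 : T d L), (∀ x, 1 / 2 ≤ u x) → (∀ x, 0 ≤ Gr x) →
      (∀ x, LapW u Gr x + κ * Real.exp (-(4 * δ)) * Gr x = if x = x0 then 1 else 0) →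
      ∑ z, Gr z ^ 2 ≤ Γ2) :
    ∃ E : ℝ, |E| ≤ 1 ∧ ∃ G : Set (T d L → ℝ), MeasurableSet G ∧
      (Measure.pi fun _ : T d L => gaussianReal 0 1).real Gᶜ ≤
        (L : ℝ) ^ d * (2 * Real.exp (-(δ ^ 2 / (120 * Γ2 * σ ^ 2))) +
          2 * Real.exp (-(1 / (2 * σ ^ 2)))) ∧
      ∀ ξ ∈ G, (∀ x, |σ * ξ x| ≤ 1) ∧ ∃ w : T d L → ℝ, (∀ x, |w x| ≤ δ) ∧
        ∀ x, ∑ i : Fin d, ((1 - Real.exp (w (x + Pi.single i 1) - w x)) +
          (1 - Real.exp (w (x - Pi.single i 1) - w x))) + σ * ξ x - E + κ * w x = 0 := by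
  obtain ⟨E, hE, hE0⟩ := goodg_E (d := d) (L := L) κ hκ σ δ hδ
  refine ⟨E, hE, {ξ | ∀ x, |Good.W 1 δ κ E (fun y => σ * ξ y) x| < δ ∧ |σ * ξ x| ≤ 1},
    ?_, ?_, ?_⟩
  · have : {ξ : T d L → ℝ | ∀ x, |Good.W 1 δ κ E (fun y => σ * ξ y) x| < δ ∧ |σ * ξ x| ≤ 1}
        = ⋂ x, ({ξ : T d L → ℝ | |Good.W 1 δ κ E (fun y => σ * ξ y) x| < δ} ∩
          {ξ : T d L → ℝ | |σ * ξ x| ≤ 1}) := by
      ext ξ
      simp
    rw [this]
    refine MeasurableSet.iInter fun x => MeasurableSet.inter ?_ ?_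
    · exact measurableSet_lt (goodg_contF κ hκ σ δ hδ E hE x).abs.measurable measurable_const
    · exact measurableSet_le (by fun_prop) measurable_const
  · have hc : {ξ : T d L → ℝ | ∀ x, |Good.W 1 δ κ E (fun y => σ * ξ y) x| < δ ∧
        |σ * ξ x| ≤ 1}ᶜ
        = ⋃ x, ({ξ : T d L → ℝ | δ ≤ |Good.W 1 δ κ E (fun y => σ * ξ y) x|} ∪
          {ξ : T d L → ℝ | 1 < |σ * ξ x|}) := by
      ext ξ
      simp only [Set.mem_compl_iff, Set.mem_ofPred_eq, Set.mem_iUnion, Set.mem_union, not_forall,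
        not_and_or, not_lt, not_le]
    rw [hc]
    refine (measureReal_iUnion_fintype_le _).trans ?_
    refine (Finset.sum_le_sum fun x _ => (measureReal_union_le _ _).trans
      (add_le_add (goodg_two κ hκ Γ2 hΓ2 σ δ hσ hδ hδ' hG E hE x (hE0 x))
        (goodg_gauss σ hσ x))).trans ?_
    rw [Finset.sum_const, nsmul_eq_mul, Finset.card_univ, Sens.card_T]
  · intro ξ hξ
    have hξ1 : ∀ x, |σ * ξ x| ≤ 1 := fun x => (hξ x).2
    refine ⟨hξ1, Good.W 1 δ κ E (fun y => σ * ξ y), fun x => (hξ x).1.le, ?_⟩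
    intro x
    have h := Good.good_W 1 δ κ E (fun y => σ * ξ y) one_pos hδ hκ hE
    rw [Good.good_clamp_eq _ hξ1] at h
    have hx := h x
    rw [Good.good_beta 1 δ _ _ (hξ x).1.le, one_mul] at hx
    exact hx

end Goodg

end Pool.Agent.H4R2.AE
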