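import Pool.Agent.H4R2.AE.Limm
import Pool.Agent.H4R2.AE.FinA

/-!
# Passage to infinite volume
-/

set_option autoImplicit false

open scoped BigOperators ENNReal
open MeasureTheory Filter

namespace Pool.Agent.H4R2.AE
namespace Lima

/-- periodic extension of a torus configuration and of its modification -/
def per {d : ℕ} (N : ℕ) (Φ : (T d (2 * N + 1) → ℝ) → (T d (2 * N + 1) → ℝ))
    (V : T d (2 * N + 1) → ℝ) : (Fin d → ℤ) → ℝ × ℝ :=
  fun x => (V (FinA.proj N x), Φ V (FinA.proj N x))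

theorem measurable_per {d N : ℕ} {Φ : (T d (2 * N + 1) → ℝ) → (T d (2 * N + 1) → ℝ)}
    (hΦ : Measurable Φ) : Measurable (per N Φ) := by
  refine measurable_pi_lambda _ fun x => ?_
  exact (measurable_pi_apply _).prodMk ((measurable_pi_apply _).comp hΦ)

theorem ae_bound {d N : ℕ} (μ : Measure ℝ) [IsProbabilityMeasure μ]
    (hμ : μ (Set.Icc (-1) 1)ᶜ = 0) :
    ∀ᵐ V ∂(Measure.pi fun _ : T d (2 * N + 1) => μ), ∀ y, |V y| ≤ 1 := by
  rw [ae_all_iff]
  intro y
  have h1 : ∀ᵐ r ∂μ, |r| ≤ 1 := by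
    rw [ae_iff]
    convert hμ using 2
    ext r
    simp [abs_le]
  exact (measurePreserving_eval (fun _ : T d (2 * N + 1) => μ) y).quasiMeasurePreserving.ae h1

theorem pi_shift {d N : ℕ} (μ : Measure ℝ) [IsProbabilityMeasure μ] (b : T d (2 * N + 1)) :
    (Measure.pi fun _ : T d (2 * N + 1) => μ).map (fun V y => V (y + b)) =
      Measure.pi fun _ => μ := by
  symm
  refine Measure.pi_eq fun s hs => ?_
  have hm : Measurable (fun (V : T d (2 * N + 1) → ℝ) y => V (y + b)) :=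
    measurable_pi_lambda _ fun y => measurable_pi_apply (y + b)
  rw [Measure.map_apply hm (MeasurableSet.univ_pi hs)]
  have h1 : (fun (V : T d (2 * N + 1) → ℝ) y => V (y + b)) ⁻¹' (Set.pi Set.univ s) =
      Set.pi Set.univ (fun y => s (y - b)) := by
    ext V
    simp only [Set.mem_preimage, Set.mem_pi, Set.mem_univ, true_implies]
    constructor
    · intro h y
      have := h (y - b)
      rwa [sub_add_cancel] at this
    · intro h y
      have := h (y + b)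
      rwa [add_sub_cancel_right] at this
  rw [h1, Measure.pi_pi]
  exact Equiv.prod_comp (Equiv.subRight b) (fun y => μ (s y))

theorem proj_add {d N : ℕ} (x a : Fin d → ℤ) :
    FinA.proj N (x + a) = FinA.proj N x + FinA.proj N a := by
  funext i
  simp [FinA.proj]

theorem measurable_shift {d : ℕ} (a : Fin d → ℤ) :
    Measurable (fun (W : (Fin d → ℤ) → ℝ × ℝ) (x : Fin d → ℤ) => W (x + a)) :=
  measurable_pi_lambda _ fun x => measurable_pi_apply (x + a)

theorem map_shift {d N : ℕ} (μ : Measure ℝ) [IsProbabilityMeasure μ]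
    {Φ : (T d (2 * N + 1) → ℝ) → (T d (2 * N + 1) → ℝ)} (hΦ : Measurable Φ)
    (hcov : ∀ (V : T d (2 * N + 1) → ℝ) (a : T d (2 * N + 1)),
      Φ (fun x => V (x + a)) = fun x => Φ V (x + a)) (a : Fin d → ℤ) :
    ((Measure.pi fun _ : T d (2 * N + 1) => μ).map (per N Φ)).map (fun W x => W (x + a)) =
      (Measure.pi fun _ : T d (2 * N + 1) => μ).map (per N Φ) := by
  rw [Measure.map_map (measurable_shift a) (measurable_per hΦ)]
  have h1 : (fun (W : (Fin d → ℤ) → ℝ × ℝ) (x : Fin d → ℤ) => W (x + a)) ∘ per N Φ =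
      per N Φ ∘ (fun V y => V (y + FinA.proj N a)) := by
    funext V x
    show (V (FinA.proj N (x + a)), Φ V (FinA.proj N (x + a))) =
      (V (FinA.proj N x + FinA.proj N a), Φ (fun y => V (y + FinA.proj N a)) (FinA.proj N x))
    rw [hcov, proj_add]
  have hm : Measurable (fun (V : T d (2 * N + 1) → ℝ) y => V (y + FinA.proj N a)) :=
    measurable_pi_lambda _ fun y => measurable_pi_apply (y + FinA.proj N a)
  rw [h1, ← Measure.map_map (measurable_per hΦ) hm, pi_shift]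

theorem map_fin {d N : ℕ} (μ : Measure ℝ) [IsProbabilityMeasure μ]
    {Φ : (T d (2 * N + 1) → ℝ) → (T d (2 * N + 1) → ℝ)} (hΦ : Measurable Φ)
    (s : Finset (Fin d → ℤ)) (hs : ∀ x ∈ s, ∀ i, |x i| ≤ (N : ℤ)) :
    ((Measure.pi fun _ : T d (2 * N + 1) => μ).map (per N Φ)).map
      (fun W (x : s) => (W x).1) = Measure.pi fun _ : s => μ := by
  have hm : Measurable (fun (W : (Fin d → ℤ) → ℝ × ℝ) (x : s) => (W x).1) :=
    measurable_pi_lambda _ fun x => measurable_fst.comp (measurable_pi_apply (x : Fin d → ℤ))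
  rw [Measure.map_map hm (measurable_per hΦ), ← FinA.map_res,
    Measure.map_map (hm.comp (measurable_per hΦ)) FinA.measurable_res]
  have h1 : (((fun (W : (Fin d → ℤ) → ℝ × ℝ) (x : s) => (W x).1) ∘ per N Φ) ∘ FinA.res) =
      s.restrict := by
    funext ω x
    show ω (FinA.rep (FinA.proj N x)) = ω x
    rw [FinA.rep_proj _ (hs x x.2)]
  rw [h1]
  exact Measure.infinitePi_map_restrict (fun _ : Fin d → ℤ => μ)

/-- the local equation -/
def eqn {d : ℕ} (lam E : ℝ) (W : (Fin d → ℤ) → ℝ × ℝ) (u : (Fin d → ℤ) → ℝ) (x : Fin d → ℤ) : ℝ :=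
  ∑ i : Fin d, (2 * u x - u (x + Pi.single i 1) - u (x - Pi.single i 1)) +
    lam * (W x).2 * u x - E * u x

theorem continuous_eqn {d : ℕ} (lam E : ℝ) (x : Fin d → ℤ) :
    Continuous fun p : ((Fin d → ℤ) → ℝ × ℝ) × ((Fin d → ℤ) → ℝ) => eqn lam E p.1 p.2 x := by
  unfold eqn
  fun_prop

/-- configurations with an approximate flat generalised eigenfunction -/
def Cset (d : ℕ) (lam η E ε : ℝ) : Set ((Fin d → ℤ) → ℝ × ℝ) :=
  {W | ∃ u : (Fin d → ℤ) → ℝ, (∀ x, 1 ≤ u x ∧ u x ≤ 1 + η) ∧ ∀ x, |eqn lam E W u x| ≤ ε}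

theorem isClosed_Cset (d : ℕ) (lam η E ε : ℝ) : IsClosed (Cset d lam η E ε) := by
  let K : Set ((Fin d → ℤ) → ℝ) := Set.pi Set.univ fun _ => Set.Icc 1 (1 + η)
  have hK : IsCompact K := isCompact_univ_pi fun _ => isCompact_Icc
  have hKc : CompactSpace K := isCompact_iff_compactSpace.mp hK
  have hF : IsClosed {p : ((Fin d → ℤ) → ℝ × ℝ) × K | ∀ x, |eqn lam E p.1 (p.2 : _ → ℝ) x| ≤ ε} := by
    rw [Set.ofPred_forall]
    refine isClosed_iInter fun x => isClosed_le ?_ continuous_const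
    have h1 : Continuous fun p : ((Fin d → ℤ) → ℝ × ℝ) × K => (p.1, (p.2 : (Fin d → ℤ) → ℝ)) := by
      fun_prop
    exact continuous_abs.comp ((continuous_eqn lam E x).comp h1)
  have h2 := isClosedMap_fst_of_compactSpace (X := (Fin d → ℤ) → ℝ × ℝ) (Y := K) _ hF
  convert h2 using 1
  ext W
  constructor
  · rintro ⟨u, hu1, hu2⟩
    exact ⟨(W, ⟨u, fun x _ => hu1 x⟩), hu2, rfl⟩
  · rintro ⟨⟨W', u⟩, hu, rfl⟩
    exact ⟨u, fun x => u.2 x (Set.mem_univ x), hu⟩

theorem exact_of {d : ℕ} {lam η E : ℝ} {W : (Fin d → ℤ) → ℝ × ℝ}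
    (h : ∀ k : ℕ, W ∈ Cset d lam η E (1 / ((k : ℝ) + 1))) :
    ∃ u : (Fin d → ℤ) → ℝ, (∀ x, 1 ≤ u x ∧ u x ≤ 1 + η) ∧ ∀ x, eqn lam E W u x = 0 := by
  let K : ℕ → Set ((Fin d → ℤ) → ℝ) := fun k =>
    (Set.pi Set.univ fun _ => Set.Icc 1 (1 + η)) ∩ {u | ∀ x, |eqn lam E W u x| ≤ 1 / ((k : ℝ) + 1)}
  have hcl : ∀ k, IsClosed {u : (Fin d → ℤ) → ℝ | ∀ x, |eqn lam E W u x| ≤ 1 / ((k : ℕ) + 1 : ℝ)} := by
    intro k
    rw [Set.ofPred_forall]
    refine isClosed_iInter fun x => isClosed_le ?_ continuous_const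
    have h1 : Continuous fun u : (Fin d → ℤ) → ℝ => (W, u) := by fun_prop
    exact continuous_abs.comp ((continuous_eqn lam E x).comp h1)
  have hK : IsCompact (Set.pi Set.univ fun _ : Fin d → ℤ => Set.Icc (1 : ℝ) (1 + η)) :=
    isCompact_univ_pi fun _ => isCompact_Icc
  have hne : (⋂ k, K k).Nonempty := by
    refine IsCompact.nonempty_iInter_of_sequence_nonempty_isCompact_isClosed K ?_ ?_ ?_ ?_
    · intro k u hu
      refine ⟨hu.1, fun x => (hu.2 x).trans ?_⟩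
      push_cast
      apply one_div_le_one_div_of_le (by positivity)
      linarith
    · intro k
      obtain ⟨u, hu1, hu2⟩ := h k
      exact ⟨u, fun x _ => hu1 x, hu2⟩
    · exact hK.inter_right (hcl 0)
    · intro k
      exact hK.isClosed.inter (hcl k)
  obtain ⟨u, hu⟩ := hne
  rw [Set.mem_iInter] at hu
  refine ⟨u, fun x => (hu 0).1 x (Set.mem_univ x), fun x => ?_⟩
  have h1 : ∀ k : ℕ, |eqn lam E W u x| ≤ 1 / ((k : ℝ) + 1) := fun k => (hu k).2 x
  have h2 : |eqn lam E W u x| ≤ 0 := ge_of_tendsto' tendsto_one_div_add_atTop_nhds_zero_nat h1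
  exact abs_eq_zero.mp (le_antisymm h2 (abs_nonneg _))

theorem per_mem {d N : ℕ} {lam η E E0 ε : ℝ}
    {Φ : (T d (2 * N + 1) → ℝ) → (T d (2 * N + 1) → ℝ)} {V : T d (2 * N + 1) → ℝ}
    {ψ : T d (2 * N + 1) → ℝ} (hψ : ∀ x, 1 ≤ ψ x ∧ ψ x ≤ 1 + η)
    (heig : ∀ x, Hop lam (Φ V) ψ x = E0 * ψ x) (hε : |E0 - E| * (1 + η) ≤ ε) :
    per N Φ V ∈ Cset d lam η E ε := by
  refine ⟨fun x => ψ (FinA.proj N x), fun x => hψ _, fun x => ?_⟩
  have h1 : eqn lam E (per N Φ V) (fun x => ψ (FinA.proj N x)) x =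
      (E0 - E) * ψ (FinA.proj N x) := by
    have h2 := heig (FinA.proj N x)
    unfold Hop at h2
    unfold eqn per
    have h3 : ∀ i : Fin d, FinA.proj N (x + Pi.single i 1) = FinA.proj N x + Pi.single i 1 :=
      fun i => Loc.pr_add N x i
    have h4 : ∀ i : Fin d, FinA.proj N (x - Pi.single i 1) = FinA.proj N x - Pi.single i 1 :=
      fun i => Loc.pr_sub N x i
    simp only [h3, h4]
    linarith
  rw [h1, abs_mul]
  refine le_trans ?_ hε
  have h5 := hψ (FinA.proj N x)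
  rw [abs_of_nonneg (by linarith : (0 : ℝ) ≤ ψ (FinA.proj N x))]
  exact mul_le_mul_of_nonneg_left h5.2 (abs_nonneg _)

theorem lima (d : ℕ) (hd : 1 ≤ d) (lam η q : ℝ) (hlam : 0 < lam) (hη : 0 < η)
    (μ : Measure ℝ) [IsProbabilityMeasure μ] (hμ : μ (Set.Icc (-1) 1)ᶜ = 0)
    (hT : ∀ (L : ℕ) [NeZero L], ∃ E : ℝ, |E| ≤ lam ∧ ∃ Φ : (T d L → ℝ) → (T d L → ℝ),
      Measurable Φ ∧
      (∀ (V : T d L → ℝ) (a : T d L), Φ (fun x => V (x + a)) = fun x => Φ V (x + a)) ∧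
      (∀ x, (Measure.pi fun _ : T d L => μ).real {V | Φ V x ≠ V x} ≤ q) ∧
      ∀ V : T d L → ℝ, (∀ x, |V x| ≤ 1) → (∀ x, |Φ V x - V x| ≤ 2) ∧
        ∃ (E0 : ℝ) (ψ : T d L → ℝ), |E0 - E| ≤ 1 / (L : ℝ) ^ 2 ∧ (∀ x, 1 ≤ ψ x ∧ ψ x ≤ 1 + η) ∧
          ∀ x, Hop lam (Φ V) ψ x = E0 * ψ x) :
    ∃ E : ℝ, |E| ≤ lam ∧ ∃ Q : Measure ((Fin d → ℤ) → ℝ × ℝ), IsProbabilityMeasure Q ∧
      (∀ a : Fin d → ℤ, Q.map (fun W x => W (x + a)) = Q) ∧
      Q.map (fun W x => (W x).1) = Measure.infinitePi (fun _ : Fin d → ℤ => μ) ∧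
      (∀ x, Q.real {W | (W x).2 ≠ (W x).1} ≤ q) ∧
      ∀ᵐ W ∂Q, (∀ x, |(W x).1| ≤ 1 ∧ |(W x).2 - (W x).1| ≤ 2) ∧
        ∃ u : (Fin d → ℤ) → ℝ, (∀ x, 1 ≤ u x ∧ u x ≤ 1 + η) ∧
          ∀ x, ∑ i : Fin d, (2 * u x - u (x + Pi.single i 1) - u (x - Pi.single i 1)) +
            lam * (W x).2 * u x = E * u x := by
  have hT' := fun N : ℕ => hT (2 * N + 1)
  choose En hEn Φ hΦm hΦc hΦq hΦ using hT'
  -- the energies converge along a subsequence
  obtain ⟨E, hE, φ, hφ, hlim⟩ := isCompact_Icc.tendsto_subseq (x := En) (s := Set.Icc (-lam) lam)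
    (fun N => abs_le.1 (hEn N))
  refine ⟨E, abs_le.2 hE, ?_⟩
  set P : (N : ℕ) → Measure (T d (2 * N + 1) → ℝ) := fun N => Measure.pi fun _ => μ with hP
  have hq0 : 0 ≤ q := measureReal_nonneg.trans (hΦq 0 0)
  have hφt : Tendsto φ atTop atTop := hφ.tendsto_atTop
  -- closed sets containing all the periodic configurations
  have hclosed : ∀ (N : ℕ) (C : Set ((Fin d → ℤ) → ℝ × ℝ)), IsClosed C →
      (∀ V : T d (2 * N + 1) → ℝ, (∀ y, |V y| ≤ 1) → per N (Φ N) V ∈ C) →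
      ((P N).map (per N (Φ N))) Cᶜ = 0 := by
    intro N C hC h
    rw [Measure.map_apply (measurable_per (hΦm N)) hC.measurableSet.compl]
    have h1 : ∀ᵐ V ∂(P N), V ∉ per N (Φ N) ⁻¹' Cᶜ := by
      filter_upwards [ae_bound (N := N) (d := d) μ hμ] with V hV
      intro hcon
      exact hcon (h V hV)
    exact measure_eq_zero_iff_ae_notMem.2 h1
  have hC1 : IsClosed {W : (Fin d → ℤ) → ℝ × ℝ | ∀ x, |(W x).1| ≤ 1 ∧ |(W x).2 - (W x).1| ≤ 2} := by
    rw [Set.ofPred_forall]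
    refine isClosed_iInter fun x => ?_
    rw [Set.ofPred_and]
    exact (isClosed_le (by fun_prop) continuous_const).inter
      (isClosed_le (by fun_prop) continuous_const)
  have hmem1 : ∀ (N : ℕ) (V : T d (2 * N + 1) → ℝ), (∀ y, |V y| ≤ 1) →
      per N (Φ N) V ∈ {W : (Fin d → ℤ) → ℝ × ℝ | ∀ x, |(W x).1| ≤ 1 ∧ |(W x).2 - (W x).1| ≤ 2} :=
    fun N V hV x => ⟨hV _, (hΦ N V hV).1 _⟩
  obtain ⟨Q, hQp, hQ3, hQcl, hQop, hQsh, hQfin⟩ := Limm.limm d 3
    (fun n => (P (φ n)).map (per (φ n) (Φ (φ n))))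
    (fun n => Measure.isProbabilityMeasure_map (measurable_per (hΦm _)).aemeasurable)
    (by
      intro n
      have h1 := hclosed (φ n) _ hC1 (hmem1 (φ n))
      have h2 : ∀ᵐ W ∂((P (φ n)).map (per (φ n) (Φ (φ n)))),
          W ∈ {W : (Fin d → ℤ) → ℝ × ℝ | ∀ x, |(W x).1| ≤ 1 ∧ |(W x).2 - (W x).1| ≤ 2} := by
        rw [ae_iff]
        exact h1
      filter_upwards [h2] with W hW x
      have h3 := hW x
      have h4 := abs_le.1 h3.1
      have h5 := abs_le.1 h3.2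
      refine ⟨by linarith [h3.1], ?_⟩
      rw [abs_le]
      constructor <;> linarith [h4.1, h4.2, h5.1, h5.2])
  refine ⟨Q, hQp, ?_, ?_, ?_, ?_⟩
  · intro a
    exact hQsh a (Eventually.of_forall fun n => map_shift μ (hΦm _) (hΦc _) a)
  · have hm : Measurable (fun (W : (Fin d → ℤ) → ℝ × ℝ) (x : Fin d → ℤ) => (W x).1) :=
      measurable_pi_lambda _ fun x => measurable_fst.comp (measurable_pi_apply x)
    refine Measure.eq_infinitePi (fun _ : Fin d → ℤ => μ) fun s t ht => ?_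
    have h1 : Q.map (fun W (x : s) => (W x).1) = Measure.pi fun _ : s => μ := by
      refine hQfin s _ ?_
      obtain ⟨N0, hN0⟩ : ∃ N0 : ℕ, ∀ x ∈ s, ∀ i, |x i| ≤ (N0 : ℤ) := by
        refine ⟨∑ x ∈ s, ∑ i, (x i).natAbs, fun x hx i => ?_⟩
        have e1 : (x i).natAbs ≤ ∑ i, (x i).natAbs :=
          Finset.single_le_sum (f := fun i => (x i).natAbs) (fun _ _ => Nat.zero_le _)
            (Finset.mem_univ i)
        have e2 : ∑ i, (x i).natAbs ≤ ∑ x ∈ s, ∑ i, (x i).natAbs :=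
          Finset.single_le_sum (f := fun x : Fin d → ℤ => ∑ i, (x i).natAbs)
            (fun _ _ => Nat.zero_le _) hx
        rw [Int.abs_eq_natAbs]
        exact_mod_cast e1.trans e2
      filter_upwards [hφt.eventually_ge_atTop N0] with n hn
      refine map_fin μ (hΦm _) s fun x hx i => (hN0 x hx i).trans ?_
      exact_mod_cast hn
    rw [Measure.map_apply hm (MeasurableSet.pi s.countable_toSet fun i _ => ht i)]
    have hm2 : Measurable (fun (W : (Fin d → ℤ) → ℝ × ℝ) (x : s) => (W x).1) :=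
      measurable_pi_lambda _ fun x => measurable_fst.comp (measurable_pi_apply (x : Fin d → ℤ))
    have h2 : (fun (W : (Fin d → ℤ) → ℝ × ℝ) (x : Fin d → ℤ) => (W x).1) ⁻¹' (Set.pi s t) =
        (fun (W : (Fin d → ℤ) → ℝ × ℝ) (x : s) => (W x).1) ⁻¹'
          (Set.pi Set.univ fun x : s => t x) := by
      ext W
      simp only [Set.mem_preimage, Set.mem_pi, Finset.mem_coe, Set.mem_univ, true_implies,
        Subtype.forall]
    rw [h2, ← Measure.map_apply hm2 (MeasurableSet.univ_pi fun x => ht x), h1, Measure.pi_pi]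
    exact Finset.prod_coe_sort s (fun x => μ (t x))
  · intro x
    have hO : IsOpen {W : (Fin d → ℤ) → ℝ × ℝ | (W x).2 ≠ (W x).1} :=
      isOpen_ne_fun (by fun_prop) (by fun_prop)
    have h1 := hQop _ hO (ENNReal.ofReal q) (Eventually.of_forall fun n => by
      show ((P (φ n)).map (per (φ n) (Φ (φ n)))) _ ≤ _
      rw [Measure.map_apply (measurable_per (hΦm _)) hO.measurableSet]
      have h2 := hΦq (φ n) (FinA.proj (φ n) x)
      exact (ENNReal.le_ofReal_iff_toReal_le (measure_ne_top _ _) hq0).2 h2)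
    exact ENNReal.toReal_le_of_le_ofReal hq0 h1
  · have hA : ∀ᵐ W ∂Q, ∀ x, |(W x).1| ≤ 1 ∧ |(W x).2 - (W x).1| ≤ 2 := by
      rw [ae_iff]
      exact hQcl _ hC1 (Eventually.of_forall fun n => hclosed _ _ hC1 (hmem1 _))
    have hB : ∀ᵐ W ∂Q, ∀ k : ℕ, W ∈ Cset d lam η E (1 / ((k : ℝ) + 1)) := by
      rw [ae_all_iff]
      intro k
      rw [ae_iff]
      refine hQcl _ (isClosed_Cset d lam η E _) ?_
      -- the error tends to zero
      have h1 : Tendsto (fun n => (1 / ((2 * φ n + 1 : ℕ) : ℝ) ^ 2 + |En (φ n) - E|) * (1 + η))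
          atTop (nhds ((0 + |E - E|) * (1 + η))) := by
        refine Tendsto.mul_const _ (Tendsto.add ?_ ?_)
        · have h2 : Tendsto (fun n => ((2 * φ n + 1 : ℕ) : ℝ)) atTop atTop := by
            refine tendsto_natCast_atTop_atTop.comp ?_
            refine tendsto_atTop_mono (fun n => ?_) hφt
            omega
          have h3 : Tendsto (fun n => ((2 * φ n + 1 : ℕ) : ℝ) ^ 2) atTop atTop :=
            (tendsto_pow_atTop (by norm_num)).comp h2
          have h4 := tendsto_inv_atTop_zero.comp h3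
          simp only [one_div]
          exact h4
        · exact (hlim.sub_const E).abs
      rw [sub_self, abs_zero, add_zero, zero_mul] at h1
      have h2 : ∀ᶠ n in atTop, (1 / ((2 * φ n + 1 : ℕ) : ℝ) ^ 2 + |En (φ n) - E|) * (1 + η) <
          1 / ((k : ℝ) + 1) := h1.eventually (gt_mem_nhds (by positivity))
      filter_upwards [h2] with n hn
      refine hclosed _ _ (isClosed_Cset d lam η E _) fun V hV => ?_
      obtain ⟨E0, ψ, hE0, hψ, heig⟩ := (hΦ (φ n) V hV).2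
      refine per_mem hψ heig ?_
      refine le_trans ?_ hn.le
      refine mul_le_mul_of_nonneg_right ?_ (by positivity)
      have h3 : E0 - E = (E0 - En (φ n)) + (En (φ n) - E) := by ring
      rw [h3]
      exact (abs_add_le _ _).trans (add_le_add hE0 le_rfl)
    filter_upwards [hA, hB] with W hW1 hW2
    refine ⟨hW1, ?_⟩
    obtain ⟨u, hu1, hu2⟩ := exact_of hW2
    refine ⟨u, hu1, fun x => ?_⟩
    have := hu2 x
    unfold eqn at this
    linarith

end Lima
end Pool.Agent.H4R2.AE
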