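import Mathlib

/-!
# LIMM: limit points of random fields with values in a compact set
-/

set_option autoImplicit false

open scoped BigOperators ENNReal
open MeasureTheory Filter

namespace Pool.Agent.H4R2.AE

namespace Limm

theorem limm (d : ℕ) (B : ℝ) (Qn : ℕ → Measure ((Fin d → ℤ) → ℝ × ℝ))
    (hQ : ∀ n, IsProbabilityMeasure (Qn n))
    (hB : ∀ n, ∀ᵐ W ∂(Qn n), ∀ x, |(W x).1| ≤ B ∧ |(W x).2| ≤ B) :
    ∃ Q : Measure ((Fin d → ℤ) → ℝ × ℝ), IsProbabilityMeasure Q ∧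
      (∀ᵐ W ∂Q, ∀ x, |(W x).1| ≤ B ∧ |(W x).2| ≤ B) ∧
      (∀ C : Set ((Fin d → ℤ) → ℝ × ℝ), IsClosed C → (∀ᶠ n in atTop, Qn n Cᶜ = 0) → Q Cᶜ = 0) ∧
      (∀ O : Set ((Fin d → ℤ) → ℝ × ℝ), IsOpen O → ∀ q : ℝ≥0∞, (∀ᶠ n in atTop, Qn n O ≤ q) →
        Q O ≤ q) ∧
      (∀ a : Fin d → ℤ, (∀ᶠ n in atTop, (Qn n).map (fun W x => W (x + a)) = Qn n) →
        Q.map (fun W x => W (x + a)) = Q) ∧
      (∀ (s : Finset (Fin d → ℤ)) (ν : Measure (s → ℝ)),
        (∀ᶠ n in atTop, (Qn n).map (fun W (x : s) => (W x).1) = ν) →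
        Q.map (fun W (x : s) => (W x).1) = ν) := by
  -- the compact set
  set K : Set ((Fin d → ℤ) → ℝ × ℝ) := {W | ∀ x, |(W x).1| ≤ B ∧ |(W x).2| ≤ B} with hK
  have hKeq : K = Set.pi Set.univ (fun _ : Fin d → ℤ => Set.Icc (-B) B ×ˢ Set.Icc (-B) B) := by
    ext W
    simp only [hK, Set.mem_ofPred_eq, Set.mem_pi, Set.mem_univ, true_implies, Set.mem_prod,
      Set.mem_Icc, abs_le]
  have hKc : IsCompact K := by
    rw [hKeq]
    exact isCompact_univ_pi fun _ => isCompact_Icc.prod isCompact_Icc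
  set P : ℕ → ProbabilityMeasure ((Fin d → ℤ) → ℝ × ℝ) := fun n => ⟨Qn n, hQ n⟩ with hP
  have hT := isCompact_setOfPred_probabilityMeasure_mass_eq_compl_isCompact_le
    (E := (Fin d → ℤ) → ℝ × ℝ) (u := fun _ : ℕ => 0) (K := fun _ : ℕ => K)
    tendsto_const_nhds (fun _ => hKc) (Or.inr monotone_const)
  have hPT : ∀ n, P n ∈ {μ : ProbabilityMeasure ((Fin d → ℤ) → ℝ × ℝ) |
      ∀ _ : ℕ, μ Kᶜ ≤ 0} := by
    intro n _
    have h1 : Qn n Kᶜ = 0 := hB n
    have h2 : ((P n : Measure ((Fin d → ℤ) → ℝ × ℝ)) Kᶜ) = 0 := h1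
    have h3 : ((P n Kᶜ : NNReal) : ℝ≥0∞) = 0 := by
      rw [ProbabilityMeasure.ennreal_coeFn_eq_coeFn_toMeasure]; exact h2
    have h4 : (P n Kᶜ : NNReal) = 0 := by exact_mod_cast h3
    exact h4.le
  -- an ultrafilter
  set U : Ultrafilter ℕ := hyperfilter ℕ with hU
  have hUle : (U : Filter ℕ) ≤ atTop := by
    rw [← Nat.cofinite_eq_atTop]
    exact hyperfilter_le_cofinite
  obtain ⟨μ, hμT, hμ⟩ := hT.ultrafilter_le_nhds' (U.map P)
    (Ultrafilter.mem_map.2 (Filter.univ_mem' hPT))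
  have hlim : Tendsto P (U : Filter ℕ) (nhds μ) := hμ
  have hopen : ∀ O : Set ((Fin d → ℤ) → ℝ × ℝ), IsOpen O → ∀ q : ℝ≥0∞,
      (∀ᶠ n in atTop, Qn n O ≤ q) → (μ : Measure ((Fin d → ℤ) → ℝ × ℝ)) O ≤ q := by
    intro O hO q hq
    refine (ProbabilityMeasure.le_liminf_measure_open_of_tendsto hlim hO).trans ?_
    have h1 : ∀ᶠ n in (U : Filter ℕ), (P n : Measure ((Fin d → ℤ) → ℝ × ℝ)) O ≤ q :=
      hUle hq
    calc liminf (fun i => (P i : Measure ((Fin d → ℤ) → ℝ × ℝ)) O) (U : Filter ℕ)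
        ≤ liminf (fun _ => q) (U : Filter ℕ) := liminf_le_liminf h1
      _ = q := liminf_const q
  refine ⟨μ, μ.2, ?_, ?_, hopen, ?_, ?_⟩
  · have h1 : (μ Kᶜ : NNReal) ≤ 0 := hμT 0
    have h2 : (μ : Measure ((Fin d → ℤ) → ℝ × ℝ)) Kᶜ = 0 := by
      rw [← ProbabilityMeasure.ennreal_coeFn_eq_coeFn_toMeasure]
      have : (μ Kᶜ : NNReal) = 0 := le_antisymm h1 bot_le
      rw [this]; rfl
    exact h2
  · intro C hC hC0
    exact le_antisymm (hopen Cᶜ hC.isOpen_compl 0 (hC0.mono fun n hn => hn.le)) bot_le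
  · intro a ha
    have hcont : Continuous (fun (W : (Fin d → ℤ) → ℝ × ℝ) (x : Fin d → ℤ) => W (x + a)) := by
      fun_prop
    have h1 := ProbabilityMeasure.tendsto_map_of_tendsto_of_continuous P μ hlim hcont
    have h2 : ∀ᶠ n in (U : Filter ℕ), P n = (P n).map hcont.measurable.aemeasurable := by
      refine (ha.filter_mono hUle).mono fun n hn => ?_
      apply Subtype.ext
      rw [ProbabilityMeasure.val_eq_to_measure, ProbabilityMeasure.val_eq_to_measure,
        ProbabilityMeasure.toMeasure_map]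
      exact hn.symm
    have h3 : Tendsto P (U : Filter ℕ) (nhds (μ.map hcont.measurable.aemeasurable)) :=
      h1.congr' (h2.mono fun n hn => hn.symm)
    have h4 := tendsto_nhds_unique h3 hlim
    have h5 := congrArg (fun ρ : ProbabilityMeasure ((Fin d → ℤ) → ℝ × ℝ) =>
      (ρ : Measure ((Fin d → ℤ) → ℝ × ℝ))) h4
    simp only [ProbabilityMeasure.toMeasure_map] at h5
    exact h5
  · intro s ν hν
    have hcont : Continuous (fun (W : (Fin d → ℤ) → ℝ × ℝ) (x : s) => (W x).1) := by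
      fun_prop
    obtain ⟨n0, hn0⟩ := hν.exists
    have hνp : IsProbabilityMeasure ν := by
      rw [← hn0]
      have := hQ n0
      exact Measure.isProbabilityMeasure_map hcont.measurable.aemeasurable
    set ν' : ProbabilityMeasure (s → ℝ) := ⟨ν, hνp⟩ with hν'
    have h1 := ProbabilityMeasure.tendsto_map_of_tendsto_of_continuous P μ hlim hcont
    have h2 : ∀ᶠ n in (U : Filter ℕ), (P n).map hcont.measurable.aemeasurable = ν' := by
      refine (hν.filter_mono hUle).mono fun n hn => ?_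
      apply Subtype.ext
      rw [ProbabilityMeasure.val_eq_to_measure, ProbabilityMeasure.toMeasure_map]
      exact hn
    have h3 : Tendsto (fun _ : ℕ => ν') (U : Filter ℕ)
        (nhds (μ.map hcont.measurable.aemeasurable)) := h1.congr' h2
    have h4 := tendsto_nhds_unique h3 tendsto_const_nhds
    have h5 := congrArg (fun ρ : ProbabilityMeasure (s → ℝ) => (ρ : Measure (s → ℝ))) h4
    simp only [ProbabilityMeasure.toMeasure_map] at h5
    exact h5

end Limm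

end Pool.Agent.H4R2.AE
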