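import Pool.Agent.H4R2.AE.Defs2

/-! LLEN : an exponentially decaying family cannot have mass at large distance -/

set_option autoImplicit false

open scoped BigOperators ENNReal
open MeasureTheory

namespace Pool.Agent.H4R2.AE

namespace Llen

lemma summable_pow_inv (d : ℕ) : Summable (fun x : Fin d → ℤ => ‖x‖⁻¹ ^ (d + 1)) := by
  let L : Submodule ℤ (Fin d → ℝ) := Submodule.span ℤ (Set.range (Pi.basisFun ℝ (Fin d)))
  have hrank : Module.finrank ℤ L = d := by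
    have h := ZLattice.rank ℝ L
    rw [h]
    simp
  have hs : Summable fun z : L => ‖z‖⁻¹ ^ (d + 1) :=
    ZLattice.summable_norm_pow_inv L (d + 1) (by omega)
  have hmem : ∀ x : Fin d → ℤ, (fun i => (x i : ℝ)) ∈ L := by
    intro x
    have : (fun i => (x i : ℝ)) = ∑ i, (x i) • (Pi.basisFun ℝ (Fin d) i) := by
      funext j
      rw [Finset.sum_apply]
      simp [Pi.basisFun_apply, Pi.single_apply]
    rw [this]
    apply Submodule.sum_mem
    intro i _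
    apply Submodule.smul_mem
    exact Submodule.subset_span ⟨i, rfl⟩
  let e : (Fin d → ℤ) → L := fun x => ⟨fun i => (x i : ℝ), hmem x⟩
  have hinj : Function.Injective e := by
    intro x y h
    funext i
    have h1 : (fun i => (x i : ℝ)) = (fun i => (y i : ℝ)) := congrArg Subtype.val h
    have h2 := congrFun h1 i
    simpa using h2
  have hnorm : ∀ x : Fin d → ℤ, ‖e x‖ = ‖x‖ := by
    intro x
    show ‖(fun i => (x i : ℝ))‖ = ‖x‖
    rw [Pi.norm_def, Pi.norm_def]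
    congr 1
  have h3 := hs.comp_injective hinj
  refine h3.congr ?_
  intro x
  show ‖e x‖⁻¹ ^ (d + 1) = _
  rw [hnorm]

lemma exp_bound {q N : ℝ} (m : ℕ) (hq : 1 ≤ q) (hN : q ^ 4 < N) :
    Real.exp (q - N / q) ≤ (Real.exp 1 * (2 * m).factorial) * N⁻¹ ^ m := by
  have hN1 : 1 < N := lt_of_le_of_lt (one_le_pow₀ hq) hN
  have hN0 : 0 < N := by linarith
  set y := Real.sqrt N with hy
  have hy2 : y ^ 2 = N := Real.sq_sqrt hN0.le
  have hy0 : 0 < y := Real.sqrt_pos.2 hN0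
  have hqy : q ^ 2 < y := by
    rw [hy]
    apply Real.lt_sqrt_of_sq_lt
    nlinarith
  have hy1 : 1 < y := by nlinarith
  have hq0 : 0 < q := by linarith
  have h1 : q - N / q ≤ 1 - y := by
    have h2 : y * q ≤ N / q := by
      rw [le_div_iff₀ hq0, ← hy2]
      nlinarith
    nlinarith
  have h3 : Real.exp (1 - y) = Real.exp 1 * (Real.exp y)⁻¹ := by
    rw [sub_eq_add_neg, Real.exp_add, Real.exp_neg]
  have h4 : y ^ (2 * m) / (2 * m).factorial ≤ Real.exp y := Real.pow_div_factorial_le_exp y hy0.le _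
  have h5 : (Real.exp y)⁻¹ ≤ (y ^ (2 * m) / (2 * m).factorial)⁻¹ :=
    inv_anti₀ (by positivity) h4
  calc Real.exp (q - N / q) ≤ Real.exp (1 - y) := Real.exp_le_exp.2 h1
    _ ≤ Real.exp 1 * (y ^ (2 * m) / (2 * m).factorial)⁻¹ := by
        rw [h3]
        exact mul_le_mul_of_nonneg_left h5 (Real.exp_pos _).le
    _ = (Real.exp 1 * (2 * m).factorial) * N⁻¹ ^ m := by
        rw [inv_div, pow_mul, hy2, inv_pow]
        ring

theorem llen (d : ℕ) : ∃ q0 : ℝ, 1 ≤ q0 ∧ ∀ q : ℝ, q0 ≤ q → ∀ ξ : ℝ, 0 < ξ →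
    ∀ a : (Fin d → ℤ) → ℝ≥0∞, (∀ x, a x ≤ ENNReal.ofReal (Real.exp (q - ‖x‖ / ξ))) →
      (1 / 2 : ℝ≥0∞) ≤ ∑' x : {x : Fin d → ℤ // q ^ 4 < ‖x‖}, a x → q ≤ ξ := by
  set C : ℝ := Real.exp 1 * (2 * (d + 1)).factorial with hC
  have hC0 : 0 ≤ C := by positivity
  set f : (Fin d → ℤ) → ℝ≥0∞ := fun x => ENNReal.ofReal (C * ‖x‖⁻¹ ^ (d + 1)) with hf
  have hfs : Summable (fun x : Fin d → ℤ => C * ‖x‖⁻¹ ^ (d + 1)) := (summable_pow_inv d).mul_left C
  have hftop : ∑' x, f x ≠ ⊤ := by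
    rw [hf, ← ENNReal.ofReal_tsum_of_nonneg (fun x => by positivity) hfs]
    exact ENNReal.ofReal_ne_top
  have hlim := ENNReal.tendsto_tsum_compl_atTop_zero hftop
  have hev := (hlim.eventually_lt_const (show (0 : ℝ≥0∞) < 1 / 2 by norm_num)).exists
  obtain ⟨s, hs⟩ := hev
  -- a bound for the norms in s
  obtain ⟨R, hR⟩ : ∃ R : ℝ, ∀ x ∈ s, ‖x‖ ≤ R := by
    obtain ⟨R, hR⟩ := (s.finite_toSet.image (fun x => ‖x‖)).bddAbove
    exact ⟨R, fun x hx => hR ⟨x, hx, rfl⟩⟩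
  refine ⟨max 1 R, le_max_left _ _, ?_⟩
  intro q hq ξ hξ a ha hsum
  by_contra hlt
  push Not at hlt
  have hq1 : 1 ≤ q := (le_max_left _ _).trans hq
  have hqR : R ≤ q := (le_max_right _ _).trans hq
  have hq4 : q ≤ q ^ 4 := by
    calc q = q ^ 1 := (pow_one q).symm
      _ ≤ q ^ 4 := pow_le_pow_right₀ hq1 (by norm_num)
  have h1 : ∀ x : {x : Fin d → ℤ // q ^ 4 < ‖x‖}, a x ≤ f x := by
    intro x
    refine (ha x).trans ?_
    apply ENNReal.ofReal_le_ofReal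
    have hx := x.2
    have h2 : q - ‖(x : Fin d → ℤ)‖ / ξ ≤ q - ‖(x : Fin d → ℤ)‖ / q := by
      have : ‖(x : Fin d → ℤ)‖ / q ≤ ‖(x : Fin d → ℤ)‖ / ξ :=
        div_le_div_of_nonneg_left (norm_nonneg _) hξ hlt.le
      linarith
    exact (Real.exp_le_exp.2 h2).trans (exp_bound (d + 1) hq1 hx)
  have h3 : ∑' x : {x : Fin d → ℤ // q ^ 4 < ‖x‖}, f x ≤ ∑' x : {x // x ∉ s}, f x := by
    have hinc : ∀ x : {x : Fin d → ℤ // q ^ 4 < ‖x‖}, (x : Fin d → ℤ) ∉ s := by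
      intro x hx
      have := hR _ hx
      have := x.2
      linarith
    let e : {x : Fin d → ℤ // q ^ 4 < ‖x‖} → {x // x ∉ s} := fun x => ⟨x.1, hinc x⟩
    have he : Function.Injective e := by
      intro x y h
      apply Subtype.ext
      exact congrArg (fun z : {x // x ∉ s} => (z : Fin d → ℤ)) h
    exact ENNReal.tsum_comp_le_tsum_of_injective he (fun x : {x // x ∉ s} => f x)
  have h4 : ∑' x : {x : Fin d → ℤ // q ^ 4 < ‖x‖}, a x ≤
      ∑' x : {x : Fin d → ℤ // q ^ 4 < ‖x‖}, f x := ENNReal.tsum_le_tsum h1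
  exact absurd (hsum.trans (h4.trans h3)) (not_le.2 hs)

end Llen

end Pool.Agent.H4R2.AE
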