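import Pool.Agent.H4R2.AE.Good

/-! The good event on the torus: modification of the potential outside the good event. -/

set_option autoImplicit false

open scoped BigOperators
open MeasureTheory Filter Topology

namespace Pool.Agent.H4R2.AE

namespace Modi

variable {d L : ℕ}

/-- the penalty without its linear part, divided by `lam` -/
noncomputable def b0 (δ s : ℝ) : ℝ := (2 / δ) * (max (s - δ) 0 - max (-s - δ) 0)

lemma modi_b0_zero (δ s : ℝ) (h : |s| < δ) : b0 δ s = 0 := by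
  have := abs_lt.1 h
  unfold b0
  rw [max_eq_right (by linarith : s - δ ≤ 0), max_eq_right (by linarith : -s - δ ≤ 0)]
  ring

lemma modi_b0_le (δ s : ℝ) (hδ : 0 < δ) (h : |s| ≤ 2 * δ) : |b0 δ s| ≤ 2 := by
  have := abs_le.1 h
  have h1 : |max (s - δ) 0 - max (-s - δ) 0| ≤ δ := by
    rw [abs_le]
    rcases le_total (s - δ) 0 with h1 | h1 <;> rcases le_total (-s - δ) 0 with h2 | h2
    · rw [max_eq_right h1, max_eq_right h2]; constructor <;> linarith
    · rw [max_eq_right h1, max_eq_left h2]; constructor <;> linarith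
    · rw [max_eq_left h1, max_eq_right h2]; constructor <;> linarith
    · rw [max_eq_left h1, max_eq_left h2]; constructor <;> linarith
  unfold b0
  rw [abs_mul, abs_of_pos (by positivity : 0 < 2 / δ)]
  calc 2 / δ * |max (s - δ) 0 - max (-s - δ) 0| ≤ 2 / δ * δ :=
        mul_le_mul_of_nonneg_left h1 (by positivity)
    _ = 2 := by field_simp

lemma modi_b0_beta (lam δ κ s : ℝ) : beta lam δ κ s = κ * s + lam * b0 δ s := by
  unfold beta b0
  ring

lemma modi_b0_cont (δ : ℝ) : Continuous (b0 δ) := by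
  unfold b0
  fun_prop

variable [NeZero L]

/-- the modified potential -/
noncomputable def Phi (lam δ κ E : ℝ) (V : T d L → ℝ) (x : T d L) : ℝ :=
  V x + b0 δ (Good.W lam δ κ E V x)

lemma modi_meas (lam δ κ E : ℝ) (hlam : 0 < lam) (hδ : 0 < δ) (hκ : 0 < κ) (hE : |E| ≤ lam) :
    Measurable (Phi (d := d) (L := L) lam δ κ E) := by
  refine measurable_pi_lambda _ fun x => ?_
  unfold Phi
  exact ((continuous_apply x).add
    ((modi_b0_cont δ).comp (Good.good_cont lam δ κ E hlam hδ hκ hE x))).measurable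

lemma modi_cov (lam δ κ E : ℝ) (hlam : 0 < lam) (hδ : 0 < δ) (hκ : 0 < κ) (hE : |E| ≤ lam)
    (V : T d L → ℝ) (a : T d L) :
    Phi lam δ κ E (fun x => V (x + a)) = fun x => Phi lam δ κ E V (x + a) := by
  funext x
  unfold Phi
  rw [Good.good_shift lam δ κ E hlam hδ hκ hE V a x]

lemma modi_prob (lam δ κ E : ℝ) (μ : Measure ℝ) [IsProbabilityMeasure μ] (x : T d L) (q : ℝ)
    (hq : (Measure.pi fun _ : T d L => μ).real {V | δ ≤ |Good.W lam δ κ E V x|} ≤ q) :
    (Measure.pi fun _ : T d L => μ).real {V | Phi lam δ κ E V x ≠ V x} ≤ q := by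
  refine (measureReal_mono (fun V hV => ?_)).trans hq
  by_contra h
  apply hV
  simp only [Set.mem_ofPred_eq, not_le] at h
  unfold Phi
  rw [modi_b0_zero δ _ h, add_zero]

lemma modi_sol (lam δ κ E : ℝ) (hlam : 0 < lam) (hδ : 0 < δ) (hκ : 0 < κ) (hE : |E| ≤ lam)
    (V : T d L → ℝ) (hV : ∀ x, |V x| ≤ 1) : (∀ x, |Phi lam δ κ E V x - V x| ≤ 2) ∧
    ∃ w : T d L → ℝ, (∀ x, |w x| ≤ 2 * δ) ∧
      ∀ x, ∑ i : Fin d, ((1 - Real.exp (w (x + Pi.single i 1) - w x)) +
        (1 - Real.exp (w (x - Pi.single i 1) - w x))) + lam * Phi lam δ κ E V x - E +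
          κ * w x = 0 := by
  refine ⟨fun x => ?_, Good.W lam δ κ E V, fun x => Good.good_bound lam δ κ E hlam hδ hκ hE V x,
    fun x => ?_⟩
  · have : Phi lam δ κ E V x - V x = b0 δ (Good.W lam δ κ E V x) := by unfold Phi; ring
    rw [this]
    exact modi_b0_le δ _ hδ (Good.good_bound lam δ κ E hlam hδ hκ hE V x)
  · have h := Good.good_W lam δ κ E V hlam hδ hκ hE
    rw [Good.good_clamp_eq V hV] at h
    have hx := h x
    rw [modi_b0_beta] at hx
    unfold Phi
    linarith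

theorem modi (d L : ℕ) [NeZero L] (hd : 1 ≤ d) (Γ : ℝ) (hΓ : 0 < Γ) (hGB : GB d L Γ)
    (μ : Measure ℝ) [IsProbabilityMeasure μ] (lam δ : ℝ) (hlam : 0 < lam) (hδ : 0 < δ)
    (hδ' : δ ≤ 1 / 8) :
    ∃ E : ℝ, |E| ≤ lam ∧ ∃ Φ : (T d L → ℝ) → (T d L → ℝ), Measurable Φ ∧
      (∀ (V : T d L → ℝ) (a : T d L), Φ (fun x => V (x + a)) = fun x => Φ V (x + a)) ∧
      (∀ x, (Measure.pi fun _ : T d L => μ).real {V | Φ V x ≠ V x} ≤
        4 * Real.exp (-δ / (40 * (2 * (d : ℝ) + 1) * Γ * lam))) ∧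
      ∀ V : T d L → ℝ, (∀ x, |V x| ≤ 1) → (∀ x, |Φ V x - V x| ≤ 2) ∧
        ∃ w : T d L → ℝ, (∀ x, |w x| ≤ 2 * δ) ∧
        ∀ x, ∑ i : Fin d, ((1 - Real.exp (w (x + Pi.single i 1) - w x)) +
          (1 - Real.exp (w (x - Pi.single i 1) - w x))) + lam * Φ V x - E +
            kap d L Γ * w x = 0 := by
  have hκ : 0 < kap d L Γ := Good.good_kap_pos d L Γ hΓ
  obtain ⟨E, hE, hE0⟩ := Good.good_E (d := d) (L := L) lam δ (kap d L Γ) hlam hδ hκ μ
  refine ⟨E, hE, Phi lam δ (kap d L Γ) E, modi_meas lam δ _ E hlam hδ hκ hE,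
    modi_cov lam δ _ E hlam hδ hκ hE, fun x => modi_prob lam δ _ E μ x _ ?_,
    modi_sol lam δ _ E hlam hδ hκ hE⟩
  set K : ℝ := 40 * (2 * (d : ℝ) + 1) * Γ * lam with hK
  have hK0 : 0 < K := by positivity
  have hmean : ∫ V, Good.W lam δ (kap d L Γ) E V x ∂(Measure.pi fun _ : T d L => μ) = 0 := by
    rw [Good.good_mean lam δ _ E hlam hδ hκ hE μ x]; exact hE0
  have h := Conc.conc μ (fun V : T d L → ℝ => Good.W lam δ (kap d L Γ) E V x)
    (Good.good_cont lam δ _ E hlam hδ hκ hE x).measurable (2 * δ)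
    (fun V => Good.good_bound lam δ _ E hlam hδ hκ hE V x) K hK0 ?_ δ
  · rw [hmean] at h
    simpa using h
  · intro ω τ
    exact Sens.sens d L hd Γ hΓ hGB lam δ E hlam hδ hδ' hE (Good.clamp ω) _
      (Good.good_clamp_le ω)
      (Good.good_W lam δ _ E ω hlam hδ hκ hE)
      (fun z => Good.clamp (Function.update ω z (τ z)))
      (fun z => Good.W lam δ (kap d L Γ) E (Function.update ω z (τ z)))
      (fun z y => Good.good_clamp_le _ y)
      (fun z y hy => by unfold Good.clamp; rw [Function.update_of_ne hy])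
      (fun z => Good.good_W lam δ _ E _ hlam hδ hκ hE) x

end Modi

end Pool.Agent.H4R2.AE
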