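import Pool.Agent.H4R2.AE.Defs
import Pool.Agent.H4R2.AE.Lin

/-! Fluctuation bound for Green functions with small constant mass, given the Poincare inequality -/

set_option autoImplicit false
set_option linter.unusedSectionVars false

open scoped BigOperators
open MeasureTheory

namespace Pool.Agent.H4R2.AE

namespace Perp

variable {d L : ℕ} [NeZero L]

theorem card_T : ((Fintype.card (T d L) : ℕ) : ℝ) = (L : ℝ) ^ d := by
  simp [T, ZMod.card]

/-- constant mass: the mean of the Green function -/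
theorem sum_green (u h : T d L → ℝ) (κ : ℝ) (hκ : 0 < κ) (z : T d L)
    (hh : ∀ x, LapW u h x + κ * h x = if x = z then 1 else 0) :
    ∑ x, (h x - 1 / (κ * (L : ℝ) ^ d)) = 0 := by
  have hL : 0 < (L : ℝ) := by exact_mod_cast Nat.pos_of_ne_zero (NeZero.ne L)
  have h1 : ∑ x, (LapW u h x + κ * h x) = 1 := by
    simp_rw [hh]
    simp
  rw [Finset.sum_add_distrib, Lin.sum_lapW, zero_add, ← Finset.mul_sum] at h1
  rw [Finset.sum_sub_distrib, Finset.sum_const, Finset.card_univ, nsmul_eq_mul, card_T]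
  have h2 : ∑ x, h x = 1 / κ := by
    rw [eq_div_iff hκ.ne']; linarith
  rw [h2]
  field_simp
  ring

/-- subtracting the mean decreases the sum of squares -/
theorem sum_sq_le (h : T d L → ℝ) (m : ℝ) (hm : ∑ x, (h x - m) = 0) :
    ∑ x, (h x - m) ^ 2 ≤ ∑ x, h x ^ 2 := by
  have e : ∑ x, h x ^ 2 = ∑ x, (h x - m) ^ 2 + 2 * m * ∑ x, (h x - m) + ∑ x : T d L, m ^ 2 := by
    rw [Finset.mul_sum, ← Finset.sum_add_distrib, ← Finset.sum_add_distrib]
    exact Finset.sum_congr rfl fun x _ => by ring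
  rw [e, hm]
  have : 0 ≤ ∑ x : T d L, m ^ 2 := Finset.sum_nonneg fun _ _ => sq_nonneg _
  linarith

theorem lapW_sub_const (u h : T d L → ℝ) (m : ℝ) (x : T d L) :
    LapW u (fun y => h y - m) x = LapW u h x := by
  unfold LapW
  exact Finset.sum_congr rfl fun i _ => by ring

theorem perp_core (hd : 1 ≤ d)
    (hP : ∀ v : T d L → ℝ, ∑ x, v x = 0 →
      ∑ x, v x ^ 2 ≤ (d : ℝ) / 2 * (L : ℝ) ^ 2 *
        ∑ i : Fin d, ∑ x, (v (x + Pi.single i 1) - v x) ^ 2)
    (Γ : ℝ) (hΓ : 0 ≤ Γ) (hGB : GB d L Γ)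
    (u h : T d L → ℝ) (κ : ℝ) (hκ : 0 < κ) (z : T d L) (hu : ∀ x, 1 / 2 ≤ u x)
    (hh : ∀ x, LapW u h x + κ * h x = if x = z then 1 else 0) :
    ∑ x, (h x - 1 / (κ * (L : ℝ) ^ d)) ^ 2 ≤ ((2 * (d : ℝ) + 1) * Γ) ^ 2 := by
  have hL : 0 < (L : ℝ) := by exact_mod_cast Nat.pos_of_ne_zero (NeZero.ne L)
  have hd1 : (1 : ℝ) ≤ d := by exact_mod_cast hd
  have hu0 : ∀ x, 0 < u x := fun x => lt_of_lt_of_le (by norm_num) (hu x)
  have hind : ∀ x : T d L, (0 : ℝ) ≤ if x = z then 1 else 0 := fun x => by split_ifs <;> norm_num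
  have key : ∀ (k : ℝ) (f : T d L → ℝ), 0 < k → 1 / (8 * (L : ℝ) ^ 2) ≤ k →
      (∀ x, LapW u f x + k * f x = if x = z then 1 else 0) →
      ∑ x, (f x - 1 / (k * (L : ℝ) ^ d)) ^ 2 ≤ Γ ^ 2 := by
    intro k f hk hk8 hf
    have hf0 : ∀ x, 0 ≤ f x := Lin.nonneg u (fun _ => k) f hu0 (fun _ => hk)
      (fun x => by rw [hf x]; exact hind x)
    exact le_trans (sum_sq_le f _ (sum_green u f k hk z hf))
      (hGB u (fun _ => k) f z hu (fun _ => hk8) hf0 hf)
  have hgoal : Γ ^ 2 ≤ ((2 * (d : ℝ) + 1) * Γ) ^ 2 := by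
    apply pow_le_pow_left₀ hΓ
    nlinarith
  by_cases hc : 1 / (L : ℝ) ^ 2 ≤ κ
  · refine le_trans (key κ h hκ (le_trans ?_ hc) hh) hgoal
    apply one_div_le_one_div_of_le (by positivity)
    nlinarith [sq_nonneg (L : ℝ)]
  push Not at hc
  set k2 : ℝ := 1 / (L : ℝ) ^ 2 with hk2
  have hk2p : 0 < k2 := by positivity
  obtain ⟨h2, hh2⟩ := Lin.solve u (fun _ => k2) (fun x => if x = z then 1 else 0) hu0
    (fun _ => hk2p)
  have b2 := key k2 h2 hk2p (by
    rw [hk2]
    apply one_div_le_one_div_of_le (by positivity)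
    nlinarith [sq_nonneg (L : ℝ)]) hh2
  set m : ℝ := 1 / (κ * (L : ℝ) ^ d) with hm
  set m2 : ℝ := 1 / (k2 * (L : ℝ) ^ d) with hm2
  set g : T d L → ℝ := fun x => h x - m with hg
  set g2 : T d L → ℝ := fun x => h2 x - m2 with hg2
  have sg : ∑ x, g x = 0 := sum_green u h κ hκ z hh
  obtain ⟨v, hv⟩ := Lin.solve u (fun _ => k2) g hu0 (fun _ => hk2p)
  have sv : ∑ x, v x = 0 := by
    have h1 : ∑ x, (LapW u v x + k2 * v x) = 0 := by
      simp_rw [hv]; exact sg
    rw [Finset.sum_add_distrib, Lin.sum_lapW, zero_add, ← Finset.mul_sum] at h1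
    rcases mul_eq_zero.mp h1 with h | h
    · exact absurd h hk2p.ne'
    · exact h
  -- g = g2 + (k2 - κ) v
  have hX : ∀ x, g x = g2 x + (k2 - κ) * v x := by
    have hLX : ∀ x, LapW u (fun y => g y - g2 y - (k2 - κ) * v y) x =
        LapW u g x - LapW u g2 x - (k2 - κ) * LapW u v x := by
      intro x
      unfold LapW
      rw [Finset.mul_sum, ← Finset.sum_sub_distrib, ← Finset.sum_sub_distrib]
      exact Finset.sum_congr rfl fun i _ => by ring
    have hgx : ∀ x, LapW u g x = (if x = z then 1 else 0) - κ * h x := by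
      intro x
      rw [hg, lapW_sub_const]
      linarith [hh x]
    have hg2x : ∀ x, LapW u g2 x = (if x = z then 1 else 0) - k2 * h2 x := by
      intro x
      rw [hg2, lapW_sub_const]
      have := hh2 x
      linarith
    have hmm : κ * m = k2 * m2 := by
      rw [hm, hm2]
      field_simp
    have hzero := Lin.inj u (fun _ => k2) (fun y => g y - g2 y - (k2 - κ) * v y) hu0
      (fun _ => hk2p) (by
        intro x
        have h1 := hv x
        rw [hLX x, hgx x, hg2x x]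
        have h3 : LapW u v x = g x - k2 * v x := by linarith
        rw [h3]
        simp only [hg, hg2]
        linear_combination (-1 : ℝ) * hmm)
    intro x
    have := hzero x
    linarith
  -- energy
  have henergy : ∑ x, v x * g x = ∑ x, v x * LapW u v x + k2 * ∑ x, v x ^ 2 := by
    rw [Finset.mul_sum, ← Finset.sum_add_distrib]
    refine Finset.sum_congr rfl fun x _ => ?_
    have h1 := hv x
    rw [← h1]; ring
  have hD : 1 / 4 * ∑ i : Fin d, ∑ x, (v (x + Pi.single i 1) - v x) ^ 2 ≤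
      ∑ x, v x * LapW u v x := by
    rw [Lin.bilin, Finset.sum_comm, Finset.mul_sum]
    apply Finset.sum_le_sum
    intro x _
    rw [Finset.mul_sum]
    apply Finset.sum_le_sum
    intro i _
    have h1 : 1 / 4 ≤ u x * u (x + Pi.single i 1) := by
      have a1 := hu x
      have a2 := hu (x + Pi.single i 1)
      nlinarith
    have h2 : (v x - v (x + Pi.single i 1)) * (v x - v (x + Pi.single i 1)) =
        (v (x + Pi.single i 1) - v x) ^ 2 := by ring
    rw [h2]
    exact mul_le_mul_of_nonneg_right h1 (sq_nonneg _)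
  have hPv := hP v sv
  set D : ℝ := ∑ i : Fin d, ∑ x, (v (x + Pi.single i 1) - v x) ^ 2 with hDdef
  set S : ℝ := ∑ x, v x ^ 2 with hS
  set V : ℝ := Real.sqrt S with hVd
  set G : ℝ := Real.sqrt (∑ x, g x ^ 2) with hGd
  set G2 : ℝ := Real.sqrt (∑ x, g2 x ^ 2) with hG2d
  have hS0 : 0 ≤ S := Finset.sum_nonneg fun _ _ => sq_nonneg _
  have hVV : V ^ 2 = S := Real.sq_sqrt hS0
  have hGG : G ^ 2 = ∑ x, g x ^ 2 := Real.sq_sqrt (Finset.sum_nonneg fun _ _ => sq_nonneg _)
  have hV0 : 0 ≤ V := Real.sqrt_nonneg _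
  have hG0 : 0 ≤ G := Real.sqrt_nonneg _
  have hG2 : G2 ≤ Γ := Real.sqrt_le_iff.mpr ⟨hΓ, b2⟩
  have cs1 : ∑ x, v x * g x ≤ V * G := Real.sum_mul_le_sqrt_mul_sqrt _ _ _
  have cs2 : ∑ x, g x * g2 x ≤ G * G2 := Real.sum_mul_le_sqrt_mul_sqrt _ _ _
  have cs3 : ∑ x, g x * v x ≤ G * V := Real.sum_mul_le_sqrt_mul_sqrt _ _ _
  -- c V ≤ G
  have hc1 : (2 * (d : ℝ) + 1) * (k2 * V) ≤ 2 * d * G := by
    have hDS : S / (2 * d * (L : ℝ) ^ 2) ≤ 1 / 4 * D := by
      rw [div_le_iff₀ (by positivity)]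
      nlinarith
    have h1 : S / (2 * d * (L : ℝ) ^ 2) + k2 * S ≤ V * G := by linarith
    have h2 : S / (2 * d * (L : ℝ) ^ 2) + k2 * S = (2 * (d : ℝ) + 1) * k2 / (2 * d) * S := by
      rw [hk2]; field_simp; ring
    rw [h2, ← hVV] at h1
    rcases hV0.eq_or_lt with hV | hV
    · rw [← hV]
      simp
      positivity
    · have h3 : (2 * (d : ℝ) + 1) * k2 / (2 * d) * V ≤ G := by
        by_contra hcon
        push Not at hcon
        have := mul_lt_mul_of_pos_left hcon hV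
        nlinarith
      have h4 : (2 * (d : ℝ) + 1) * (k2 * V) = 2 * d * ((2 * (d : ℝ) + 1) * k2 / (2 * d) * V) := by
        field_simp
      rw [h4]
      exact mul_le_mul_of_nonneg_left h3 (by positivity)
  have hG2sum : ∑ x, g x ^ 2 = ∑ x, g x * g2 x + (k2 - κ) * ∑ x, g x * v x := by
    rw [Finset.mul_sum, ← Finset.sum_add_distrib]
    refine Finset.sum_congr rfl fun x _ => ?_
    rw [sq]
    nth_rewrite 2 [hX x]
    ring
  have hmain : G ^ 2 ≤ G * Γ + k2 * (G * V) := by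
    rw [hGG, hG2sum]
    have h1 : G * G2 ≤ G * Γ := mul_le_mul_of_nonneg_left hG2 hG0
    have h2 : (k2 - κ) * ∑ x, g x * v x ≤ (k2 - κ) * (G * V) :=
      mul_le_mul_of_nonneg_left cs3 (by linarith)
    have h3 : (k2 - κ) * (G * V) ≤ k2 * (G * V) :=
      mul_le_mul_of_nonneg_right (by linarith) (mul_nonneg hG0 hV0)
    linarith
  have hfin : G ≤ (2 * (d : ℝ) + 1) * Γ := by
    rcases hG0.eq_or_lt with hG | hG
    · rw [← hG]; positivity
    · by_contra hcon
      push Not at hcon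
      have h1 : (2 * (d : ℝ) + 1) * G ^ 2 ≤ (2 * (d : ℝ) + 1) * (G * Γ) + G * (2 * d * G) := by
        have := mul_le_mul_of_nonneg_left hmain (by positivity : (0 : ℝ) ≤ 2 * (d : ℝ) + 1)
        have h5 := mul_le_mul_of_nonneg_left hc1 hG.le
        nlinarith
      have h2 : G ^ 2 ≤ G * ((2 * (d : ℝ) + 1) * Γ) := by nlinarith
      have h3 := mul_lt_mul_of_pos_left hcon hG
      nlinarith
  calc ∑ x, (h x - m) ^ 2 = G ^ 2 := hGG.symm
    _ ≤ _ := pow_le_pow_left₀ hG0 hfin 2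

end Perp

end Pool.Agent.H4R2.AE
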