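import Pool.Agent.H4R2.AE.Defs

/-! Blueprint: exact statements of the modules. Each module proves its own theorem(s) under the SAME
name in namespace `Pool.Agent.H4R2.AE.<Module>`; earlier modules may be used. -/

set_option autoImplicit false

open scoped BigOperators
open MeasureTheory

namespace Pool.Agent.H4R2.AE

/-! ## SOB : discrete Gagliardo-Nirenberg inequality on the torus -/
namespace Sob
theorem sobolev (d L : ℕ) [NeZero L] (hd : 2 ≤ d) (g : T d L → ℝ) (hg : ∀ x, 0 ≤ g x) :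
    (∑ x, g x ^ ((d : ℝ) / ((d : ℝ) - 1))) ^ (((d : ℝ) - 1) / (d : ℝ)) ≤
      ∑ i : Fin d, ∑ x, |g (x + Pi.single i 1) - g x| + (d : ℝ) / (L : ℝ) * ∑ x, g x := by
  sorry
end Sob

/-! ## LIN : linear theory of `LapW u + k` -/
namespace Lin
variable {d L : ℕ} [NeZero L]

theorem bilin (u g h : T d L → ℝ) :
    ∑ x, g x * LapW u h x =
      ∑ x, ∑ i : Fin d, u x * u (x + Pi.single i 1) *
        ((g x - g (x + Pi.single i 1)) * (h x - h (x + Pi.single i 1))) := by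
  sorry

theorem symm (u g h : T d L → ℝ) : ∑ x, g x * LapW u h x = ∑ x, h x * LapW u g x := by
  sorry

theorem sum_lapW (u h : T d L → ℝ) : ∑ x, LapW u h x = 0 := by
  sorry

theorem lapW_add (u g h : T d L → ℝ) (x : T d L) :
    LapW u (fun y => g y + h y) x = LapW u g x + LapW u h x := by
  sorry

theorem lapW_smul (u h : T d L → ℝ) (c : ℝ) (x : T d L) :
    LapW u (fun y => c * h y) x = c * LapW u h x := by
  sorry

theorem lapW_const (u : T d L → ℝ) (c : ℝ) (x : T d L) : LapW u (fun _ => c) x = 0 := by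
  sorry

theorem solve (u k f : T d L → ℝ) (hu : ∀ x, 0 < u x) (hk : ∀ x, 0 < k x) :
    ∃ h : T d L → ℝ, ∀ x, LapW u h x + k x * h x = f x := by
  sorry

theorem nonneg (u k h : T d L → ℝ) (hu : ∀ x, 0 < u x) (hk : ∀ x, 0 < k x)
    (hf : ∀ x, 0 ≤ LapW u h x + k x * h x) : ∀ x, 0 ≤ h x := by
  sorry
end Lin

/-! ## POI : Poincare inequality on the torus -/
namespace Poi
theorem poincare (d L : ℕ) [NeZero L] (v : T d L → ℝ) (hv : ∑ x, v x = 0) :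
    ∑ x, v x ^ 2 ≤ (d : ℝ) / 2 * (L : ℝ) ^ 2 * ∑ i : Fin d, ∑ x, (v (x + Pi.single i 1) - v x) ^ 2 := by
  sorry
end Poi

/-! ## GREEN : `ℓ²` bound for Green functions, `d ≥ 5` and `d = 4` (uses SOB, LIN) -/
namespace Green
theorem green (d : ℕ) (hd : 5 ≤ d) : ∃ Γ : ℝ, 0 < Γ ∧ ∀ (L : ℕ) [NeZero L], GB d L Γ := by
  sorry

theorem green_four : ∃ C : ℝ, 0 < C ∧ ∀ (L : ℕ) [NeZero L], GB 4 L (C * (1 + Real.log (L : ℝ))) := by
  sorry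
end Green

/-! ## PERP : fluctuation bound for Green functions with arbitrarily small constant mass
(uses LIN, POI) -/
namespace Perp
theorem perp (d L : ℕ) [NeZero L] (hd : 1 ≤ d) (Γ : ℝ) (hΓ : 0 ≤ Γ) (hGB : GB d L Γ)
    (u h : T d L → ℝ) (κ : ℝ) (hκ : 0 < κ) (z : T d L) (hu : ∀ x, 1 / 2 ≤ u x)
    (hh : ∀ x, LapW u h x + κ * h x = if x = z then 1 else 0) :
    ∑ x, (h x - 1 / (κ * (L : ℝ) ^ d)) ^ 2 ≤ ((2 * (d : ℝ) + 1) * Γ) ^ 2 := by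
  sorry
end Perp

/-! ## EXI : existence of solutions of the penalised equation -/
namespace Exi
theorem exists_sol (d L : ℕ) [NeZero L] (lam δ κ E : ℝ) (hlam : 0 < lam) (hδ : 0 < δ) (hκ : 0 < κ)
    (V : T d L → ℝ) (hV : ∀ x, |V x| ≤ 1) (hE : |E| ≤ lam) :
    ∃ w : T d L → ℝ, IsSol lam δ κ V E w := by
  sorry
end Exi

/-! ## CMP : comparison principle, uniqueness, bounds -/
namespace Cmp
variable {d L : ℕ} [NeZero L]

theorem beta_mono (lam δ κ : ℝ) (hlam : 0 < lam) (hδ : 0 < δ) (s s' : ℝ) (h : s' ≤ s) :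
    κ * (s - s') ≤ beta lam δ κ s - beta lam δ κ s' := by
  sorry

theorem compare (lam δ κ : ℝ) (hlam : 0 < lam) (hδ : 0 < δ) (hκ : 0 < κ)
    (V V' : T d L → ℝ) (E E' : ℝ) (w w' : T d L → ℝ) (hw : IsSol lam δ κ V E w)
    (hw' : IsSol lam δ κ V' E' w') (M : ℝ) (hM : 0 ≤ M)
    (h : ∀ x, lam * (V x - V' x) + (E' - E) ≤ M) : ∀ x, w' x - w x ≤ M / κ := by
  sorry

theorem unique (lam δ κ : ℝ) (hlam : 0 < lam) (hδ : 0 < δ) (hκ : 0 < κ)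
    (V : T d L → ℝ) (E : ℝ) (w w' : T d L → ℝ) (hw : IsSol lam δ κ V E w)
    (hw' : IsSol lam δ κ V E w') : w' = w := by
  sorry

theorem bound (lam δ κ E : ℝ) (hlam : 0 < lam) (hδ : 0 < δ) (hκ : 0 < κ) (hE : |E| ≤ lam)
    (V w : T d L → ℝ) (hV : ∀ x, |V x| ≤ 1) (hw : IsSol lam δ κ V E w) : ∀ x, |w x| ≤ 2 * δ := by
  sorry

theorem nonneg (lam δ κ : ℝ) (hlam : 0 < lam) (hδ : 0 < δ) (hκ : 0 < κ)
    (V w : T d L → ℝ) (hV : ∀ x, |V x| ≤ 1) (hw : IsSol lam δ κ V lam w) : ∀ x, 0 ≤ w x := by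
  sorry

theorem nonpos (lam δ κ : ℝ) (hlam : 0 < lam) (hδ : 0 < δ) (hκ : 0 < κ)
    (V w : T d L → ℝ) (hV : ∀ x, |V x| ≤ 1) (hw : IsSol lam δ κ V (-lam) w) : ∀ x, w x ≤ 0 := by
  sorry

theorem shift (lam δ κ E : ℝ) (V w : T d L → ℝ) (a : T d L) (hw : IsSol lam δ κ V E w) :
    IsSol lam δ κ (fun x => V (x + a)) E (fun x => w (x + a)) := by
  sorry
end Cmp

/-! ## SENS : sensitivity (uses LIN, PERP, CMP) -/
namespace Sens
theorem sens (d L : ℕ) [NeZero L] (hd : 1 ≤ d) (Γ : ℝ) (hΓ : 0 < Γ) (hGB : GB d L Γ)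
    (lam δ E : ℝ) (hlam : 0 < lam) (hδ : 0 < δ) (hδ' : δ ≤ 1 / 8) (hE : |E| ≤ lam)
    (V w : T d L → ℝ) (hV : ∀ x, |V x| ≤ 1) (hw : IsSol lam δ (kap d L Γ) V E w)
    (V' w' : T d L → T d L → ℝ) (hV' : ∀ z y, |V' z y| ≤ 1) (hVV' : ∀ z y, y ≠ z → V' z y = V y)
    (hw' : ∀ z, IsSol lam δ (kap d L Γ) (V' z) E (w' z)) (x : T d L) :
    ∑ z, (w' z x - w x) ^ 2 ≤ (40 * (2 * (d : ℝ) + 1) * Γ * lam) ^ 2 := by
  sorry
end Sens

/-! ## CONC : exponential concentration from a bound on the sum of squared resampling differences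
(Efron-Stein + iteration) -/
namespace Conc
theorem conc {ι : Type} [Fintype ι] [DecidableEq ι] (μ : Measure ℝ) [IsProbabilityMeasure μ]
    (F : (ι → ℝ) → ℝ) (hF : Measurable F) (B : ℝ) (hB : ∀ ω, |F ω| ≤ B) (K : ℝ) (hK : 0 < K)
    (h : ∀ ω τ : ι → ℝ, ∑ z, (F (Function.update ω z (τ z)) - F ω) ^ 2 ≤ K ^ 2) (t : ℝ) :
    (Measure.pi fun _ : ι => μ).real
      {ω | t ≤ |F ω - ∫ ω', F ω' ∂(Measure.pi fun _ : ι => μ)|} ≤ 4 * Real.exp (-t / K) := by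
  sorry
end Conc

/-! ## GOOD : the good event on the torus (uses EXI, CMP, SENS, CONC) -/
namespace Good
theorem good (d L : ℕ) [NeZero L] (hd : 1 ≤ d) (Γ : ℝ) (hΓ : 0 < Γ) (hGB : GB d L Γ)
    (μ : Measure ℝ) [IsProbabilityMeasure μ] (lam δ : ℝ) (hlam : 0 < lam) (hδ : 0 < δ)
    (hδ' : δ ≤ 1 / 8) :
    ∃ E : ℝ, |E| ≤ lam ∧ ∃ G : Set (T d L → ℝ), MeasurableSet G ∧
      (Measure.pi fun _ : T d L => μ).real Gᶜ ≤
        4 * (L : ℝ) ^ d * Real.exp (-δ / (40 * (2 * (d : ℝ) + 1) * Γ * lam)) ∧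
      ∀ V ∈ G, (∀ x, |V x| ≤ 1) → ∃ w : T d L → ℝ, (∀ x, |w x| ≤ δ) ∧
        ∀ x, ∑ i : Fin d, ((1 - Real.exp (w (x + Pi.single i 1) - w x)) +
          (1 - Real.exp (w (x - Pi.single i 1) - w x))) + lam * V x - E +
            kap d L Γ * w x = 0 := by
  sorry
end Good

/-! ## GS : the exact ground state is flat and has a spectral gap (uses LIN, POI, PERP) -/
namespace Gs
theorem flat (d L : ℕ) [NeZero L] (hd : 1 ≤ d) (Γ : ℝ) (hΓ : 0 < Γ) (hGB : GB d L Γ)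
    (lam δ E : ℝ) (hδ : 0 < δ) (hδ' : δ ≤ 1 / 16) (V w : T d L → ℝ) (hw : ∀ x, |w x| ≤ δ)
    (h : ∀ x, ∑ i : Fin d, ((1 - Real.exp (w (x + Pi.single i 1) - w x)) +
      (1 - Real.exp (w (x - Pi.single i 1) - w x))) + lam * V x - E + kap d L Γ * w x = 0) :
    Flat lam (16 * δ) V := by
  sorry
end Gs

/-! ## AVG : time averages of a unitary group (abstract Hilbert space) -/
namespace Avg
theorem avg {F : Type} [NormedAddCommGroup F] [InnerProductSpace ℂ F] [CompleteSpace F]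
    (A : F →L[ℂ] F) (hA : IsSelfAdjoint A) (τ : ℝ) (hτ : 0 < τ) (a ψ R : F) (E0 : ℝ)
    (hψ : A ψ = (E0 : ℂ) • ψ) (hR : A R - (E0 : ℂ) • R + ((1 / τ : ℝ) : ℂ) • R = a) :
    ∃ φ : F, ‖φ‖ ≤ 3 / τ * ‖R‖ ∧ inner ℂ ψ φ = inner ℂ ψ a ∧
      ∀ (l : F →L[ℂ] ℂ) (q : ℝ), (∀ t ∈ Set.Icc (0 : ℝ) τ,
        ‖l (NormedSpace.exp ((-(t : ℂ) * Complex.I) • A) a)‖ ≤ q) → ‖l φ‖ ≤ q := by
  sorry
end Avg

/-! ## DYNT : dynamics on a good torus (uses LIN, AVG) -/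
namespace Dynt
theorem dyn (d L : ℕ) [NeZero L] (hd : 1 ≤ d) (Γ : ℝ) (hΓ : 0 < Γ) (hGB : GB d L Γ)
    (lam η : ℝ) (hη : 0 < η) (hη' : η ≤ 1 / 10) (V : T d L → ℝ) (hV : Flat lam η V)
    (τ : ℝ) (hτ : 0 < τ) (hτ' : τ ≤ 8 * (L : ℝ) ^ 2) (q : T d L → ℝ)
    (hq : ∀ t ∈ Set.Icc (0 : ℝ) τ, ∀ x, ‖ampT lam V t x‖ ≤ q x)
    (S : Finset (T d L)) (hS : (S.card : ℝ) ≤ (τ / (40 * Γ)) ^ 2) :
    4 / 5 ≤ ∑ x ∈ Sᶜ, q x := by
  sorry
end Dynt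

/-! ## LOC : locality, comparison of `ℤ^d` with the torus of side `2 N + 1` -/
namespace Loc
theorem loc (d N : ℕ) (lam t : ℝ) (hlam : 0 ≤ lam) (hlam' : lam ≤ 1) (ht : 0 ≤ t)
    (hN : Real.exp 2 * (4 * (d : ℝ) + 1) * t ≤ (N : ℝ)) (ω : (Fin d → ℤ) → ℝ)
    (hω : ∀ x, |ω x| ≤ 1) (H : L2 d →L[ℂ] L2 d) (hH : IsAnderson lam ω H)
    (V : T d (2 * N + 1) → ℝ)
    (hV : ∀ x : Fin d → ℤ, (∀ i, |x i| ≤ (N : ℤ)) → V (fun i => ((x i : ℤ) : ZMod (2 * N + 1))) = ω x)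
    (x : Fin d → ℤ) (hx : ∀ i, |x i| ≤ (N : ℤ)) :
    ‖amp H t x - ampT lam V t (fun i => ((x i : ℤ) : ZMod (2 * N + 1)))‖ ≤
      2 * Real.exp (-(N : ℝ)) := by
  sorry
end Loc

/-! ## FINB : first final theorem (torus) (uses GREEN, GOOD, GS) -/
namespace FinB
/-- general form -/
theorem flat_gen (d L : ℕ) [NeZero L] (hd : 1 ≤ d) (Γ : ℝ) (hΓ : 0 < Γ) (hGB : GB d L Γ)
    (μ : Measure ℝ) [IsProbabilityMeasure μ] (lam η : ℝ) (hlam : 0 < lam) (hη : 0 < η) (hη' : η ≤ 1) :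
    ∃ G : Set (T d L → ℝ), MeasurableSet G ∧
      (Measure.pi fun _ : T d L => μ).real Gᶜ ≤
        4 * (L : ℝ) ^ d * Real.exp (-η / (640 * (2 * (d : ℝ) + 1) * Γ * lam)) ∧
      ∀ V ∈ G, (∀ x, |V x| ≤ 1) → Flat lam η V := by
  sorry
end FinB

end Pool.Agent.H4R2.AE
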