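import Pool.Agent.H4R2.AE.Defs2

/-! Blueprint, second wave. Same rules as Stubs.lean. -/

set_option autoImplicit false

open scoped BigOperators ENNReal
open MeasureTheory

namespace Pool.Agent.H4R2.AE

/-! ## WABS : comparison of two unitary groups from comparison of resolvents -/
namespace Wabs
theorem wabs {F : Type} [NormedAddCommGroup F] [InnerProductSpace ℂ F] [CompleteSpace F]
    (A B RA RB : F →L[ℂ] F) (hA : IsSelfAdjoint A) (hB : IsSelfAdjoint B) (s ε : ℝ) (hs : 0 < s)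
    (hε : 0 ≤ ε) (hRA : (A + (s : ℂ) • (1 : F →L[ℂ] F)) * RA = 1)
    (hRA' : RA * (A + (s : ℂ) • (1 : F →L[ℂ] F)) = 1)
    (hRB : (B + (s : ℂ) • (1 : F →L[ℂ] F)) * RB = 1)
    (hRB' : RB * (B + (s : ℂ) • (1 : F →L[ℂ] F)) = 1)
    (hRAn : ‖RA‖ ≤ 1 / s) (hRBn : ‖RB‖ ≤ 1 / s) (hdiff : ‖RA - RB‖ ≤ ε / s)
    (t : ℝ) (ht : 0 ≤ t) (g : F) :
    ‖NormedSpace.exp ((-(t : ℂ) * Complex.I) • A) g -
        NormedSpace.exp ((-(t : ℂ) * Complex.I) • B) g‖ ≤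
      ε * (2 + t * s) *
        ‖(((1 / s : ℝ) : ℂ) • B + 1) ((((1 / s : ℝ) : ℂ) • B + 1) g)‖ := by
  sorry
end Wabs

/-! ## WTOR : free evolution on a good torus (uses LIN, WABS) -/
namespace Wtor
theorem wtor (d L : ℕ) [NeZero L] (lam η E0 : ℝ) (hη : 0 < η) (hη' : η ≤ 1) (V ψ : T d L → ℝ)
    (hψ : ∀ x, 1 ≤ ψ x ∧ ψ x ≤ 1 + η) (heig : ∀ x, Hop lam V ψ x = E0 * ψ x)
    (s : ℝ) (hs : 0 < s) (t : ℝ) (ht : 0 ≤ t) (g : EuclideanSpace ℂ (T d L)) :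
    ‖NormedSpace.exp ((-(t : ℂ) * Complex.I) • (HC lam V - (E0 : ℂ) • 1)) g -
        NormedSpace.exp ((-(t : ℂ) * Complex.I) • HC 0 (fun _ : T d L => 0)) g‖ ≤
      15 * η * (2 + t * s) *
        ‖(((1 / s : ℝ) : ℂ) • HC 0 (fun _ : T d L => 0) + 1)
          ((((1 / s : ℝ) : ℂ) • HC 0 (fun _ : T d L => 0) + 1) g)‖ := by
  sorry
end Wtor

/-! ## WLOC : locality for general initial data -/
namespace Wloc
theorem wloc (d N M : ℕ) (hMN : M ≤ N) (lam t : ℝ) (hlam : 0 ≤ lam) (hlam' : lam ≤ 1) (ht : 0 ≤ t)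
    (hN : Real.exp 2 * (4 * (d : ℝ) + 1) * t ≤ (N : ℝ) - (M : ℝ)) (ω : (Fin d → ℤ) → ℝ)
    (hω : ∀ x, |ω x| ≤ 1) (H H0 : L2 d →L[ℂ] L2 d) (hH : IsAnderson lam ω H)
    (hH0 : IsAnderson 0 (fun _ => 0) H0) (V : T d (2 * N + 1) → ℝ)
    (hV : ∀ x : Fin d → ℤ, (∀ i, |x i| ≤ (N : ℤ)) → V (fun i => ((x i : ℤ) : ZMod (2 * N + 1))) = ω x)
    (g : L2 d) (hg : ∀ x : Fin d → ℤ, (∃ i, (M : ℤ) < |x i|) → g x = 0)
    (g' : EuclideanSpace ℂ (T d (2 * N + 1)))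
    (hg' : ∀ x : Fin d → ℤ, (∀ i, |x i| ≤ (N : ℤ)) → g' (fun i => ((x i : ℤ) : ZMod (2 * N + 1))) = g x)
    (c : ℂ) (hc : ‖c‖ = 1) :
    ‖NormedSpace.exp ((-(t : ℂ) * Complex.I) • H) g -
        c • NormedSpace.exp ((-(t : ℂ) * Complex.I) • H0) g‖ ≤
      ‖NormedSpace.exp ((-(t : ℂ) * Complex.I) • HC lam V) g' -
        c • NormedSpace.exp ((-(t : ℂ) * Complex.I) • HC 0 (fun _ : T d (2 * N + 1) => 0)) g'‖ +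
      4 * Real.exp (-((N : ℝ) - (M : ℝ))) * ‖g‖ := by
  sorry

theorem wnorm (d N M : ℕ) (hMN : M + 2 ≤ N) (H0 : L2 d →L[ℂ] L2 d)
    (hH0 : IsAnderson 0 (fun _ => 0) H0)
    (g : L2 d) (hg : ∀ x : Fin d → ℤ, (∃ i, (M : ℤ) < |x i|) → g x = 0)
    (g' : EuclideanSpace ℂ (T d (2 * N + 1)))
    (hg' : ∀ x : Fin d → ℤ, (∀ i, |x i| ≤ (N : ℤ)) → g' (fun i => ((x i : ℤ) : ZMod (2 * N + 1))) = g x)
    (a : ℂ) :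
    ‖(a • HC 0 (fun _ : T d (2 * N + 1) => 0) + 1) ((a • HC 0 (fun _ : T d (2 * N + 1) => 0) + 1) g')‖ =
      ‖(a • H0 + 1) ((a • H0 + 1) g)‖ := by
  sorry
end Wloc

/-! ## TWIST : stiffness of the ground state energy under twists -/
namespace Twist
theorem twist (d L : ℕ) [NeZero L] (lam η E0 : ℝ) (hη : 0 ≤ η) (V ψ : T d L → ℝ)
    (hψ : ∀ x, 1 ≤ ψ x ∧ ψ x ≤ 1 + η) (heig : ∀ x, Hop lam V ψ x = E0 * ψ x)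
    (α : Fin d → ℝ) (hα : ∀ i, |α i| ≤ Real.pi / (L : ℝ)) :
    (∀ f : T d L → ℂ, (1 / (1 + η) ^ 2) * (∑ i, (2 - 2 * Real.cos (α i))) * ∑ x, ‖f x‖ ^ 2 ≤
      Tw lam V α f - E0 * ∑ x, ‖f x‖ ^ 2) ∧
    (∃ f : T d L → ℂ, f ≠ 0 ∧ Tw lam V α f - E0 * ∑ x, ‖f x‖ ^ 2 ≤
      (1 + η) ^ 2 * (∑ i, (2 - 2 * Real.cos (α i))) * ∑ x, ‖f x‖ ^ 2) := by
  sorry
end Twist

/-! ## LLEN : an exponentially decaying family cannot have mass at large distance -/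
namespace Llen
theorem llen (d : ℕ) : ∃ q0 : ℝ, 1 ≤ q0 ∧ ∀ q : ℝ, q0 ≤ q → ∀ ξ : ℝ, 0 < ξ →
    ∀ a : (Fin d → ℤ) → ℝ≥0∞, (∀ x, a x ≤ ENNReal.ofReal (Real.exp (q - ‖x‖ / ξ))) →
      (1 / 2 : ℝ≥0∞) ≤ ∑' x : {x : Fin d → ℤ // q ^ 4 < ‖x‖}, a x → q ≤ ξ := by
  sorry
end Llen

end Pool.Agent.H4R2.AE
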