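import Pool.Agent.H4R2.AE.Defs

/-! Blueprint, third wave. -/

set_option autoImplicit false

open scoped BigOperators ENNReal
open MeasureTheory

namespace Pool.Agent.H4R2.AE

/-! ## MODI : all volumes, after changing the potential at exponentially rare sites
(uses EXI, CMP, SENS, CONC; variant of GOOD) -/
namespace Modi
theorem modi (d L : ℕ) [NeZero L] (hd : 1 ≤ d) (Γ : ℝ) (hΓ : 0 < Γ) (hGB : GB d L Γ)
    (μ : Measure ℝ) [IsProbabilityMeasure μ] (lam δ : ℝ) (hlam : 0 < lam) (hδ : 0 < δ)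
    (hδ' : δ ≤ 1 / 8) :
    ∃ E : ℝ, |E| ≤ lam ∧ ∃ Φ : (T d L → ℝ) → (T d L → ℝ), Measurable Φ ∧
      (∀ (V : T d L → ℝ) (a : T d L), Φ (fun x => V (x + a)) = fun x => Φ V (x + a)) ∧
      (∀ x, (Measure.pi fun _ : T d L => μ).real {V | Φ V x ≠ V x} ≤
        4 * Real.exp (-δ / (40 * (2 * (d : ℝ) + 1) * Γ * lam))) ∧
      ∀ V : T d L → ℝ, (∀ x, |V x| ≤ 1) → (∀ x, |Φ V x - V x| ≤ 2) ∧
        ∃ w : T d L → ℝ, (∀ x, |w x| ≤ 2 * δ) ∧
        ∀ x, ∑ i : Fin d, ((1 - Real.exp (w (x + Pi.single i 1) - w x)) +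
          (1 - Real.exp (w (x - Pi.single i 1) - w x))) + lam * Φ V x - E +
            kap d L Γ * w x = 0 := by
  sorry
end Modi

end Pool.Agent.H4R2.AE
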