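import Pool.Agent.H4R2.AE.Defs

/-! Blueprint, fourth wave: the SHARP scale `exp(c λ^{-d/2})` (`d ≥ 5`), `exp(c/λ)` (`d = 4`).
Prove each theorem with EXACTLY the same statement in a file of the same name. -/

set_option autoImplicit false

open scoped BigOperators
open MeasureTheory

namespace Pool.Agent.H4R2.AE

/-! ## SOBT : massive `L²` Sobolev inequality on the torus (uses SOB) -/
namespace Sobt
theorem sobt (d : ℕ) (hd : 3 ≤ d) : ∃ C : ℝ, 1 ≤ C ∧ ∀ (L : ℕ) [NeZero L] (v : T d L → ℝ),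
    (∀ x, 0 ≤ v x) →
    (∑ x, v x ^ (2 * (d : ℝ) / ((d : ℝ) - 2))) ^ (((d : ℝ) - 2) / (d : ℝ)) ≤
      C * (∑ i : Fin d, ∑ x, (v (x + Pi.single i 1) - v x) ^ 2 + 1 / (L : ℝ) ^ 2 * ∑ x, v x ^ 2) := by
  sorry
end Sobt

/-! ## WEAK : weak-type bound for Green functions (uses SOBT, LIN) -/
namespace Weak
theorem weak (d : ℕ) (hd : 3 ≤ d) : ∃ A : ℝ, 1 ≤ A ∧ ∀ (L : ℕ) [NeZero L] (u k h : T d L → ℝ)
    (z : T d L), (∀ x, 1 / 2 ≤ u x) → (∀ x, 1 / (8 * (L : ℝ) ^ 2) ≤ k x) → (∀ x, 0 ≤ h x) →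
    (∀ x, LapW u h x + k x * h x = if x = z then 1 else 0) → ∀ t : ℝ, 0 < t →
    ((Finset.univ.filter fun x => t ≤ h x).card : ℝ) * t ^ ((d : ℝ) / ((d : ℝ) - 2)) ≤ A := by
  sorry
end Weak

/-! ## LAYER : sums from weak-type bounds (elementary) -/
namespace Layer
theorem layer_lt_two (p : ℝ) (hp : 1 < p) (hp' : p < 2) : ∃ C : ℝ, 0 < C ∧
    ∀ (ι : Type) [Fintype ι] [DecidableEq ι] (a : ι → ℝ) (A : ℝ), (∀ x, 0 ≤ a x) → 0 ≤ A →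
    (∀ t : ℝ, 0 < t → ((Finset.univ.filter fun x => t ≤ a x).card : ℝ) * t ^ p ≤ A) →
    ∑ x, min (a x ^ 2) (a x) ≤ C * A := by
  sorry

theorem layer_two (ι : Type) [Fintype ι] [DecidableEq ι] (a : ι → ℝ) (A : ℝ)
    (ha : ∀ x, 0 ≤ a x) (hA : 0 ≤ A)
    (h : ∀ t : ℝ, 0 < t → ((Finset.univ.filter fun x => t ≤ a x).card : ℝ) * t ^ 2 ≤ A) :
    ∑ x, a x ^ 2 ≤ A * (1 + Real.log (Fintype.card ι : ℝ)) := by
  sorry
end Layer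

/-! ## ENT : the entropy method (tensorisation of entropy, modified logarithmic Sobolev inequality,
Herbst argument), pure probability -/
namespace Ent
theorem mgf {ι : Type} [Fintype ι] [DecidableEq ι] (μ : Measure ℝ) [IsProbabilityMeasure μ]
    (F : (ι → ℝ) → ℝ) (hF : Measurable F) (B : ℝ) (hB : ∀ ω, |F ω| ≤ B) (τ : ℝ)
    (hmono : ∀ ω z, F (Function.update ω z τ) ≤ F ω) (p R : ℝ) (hp : 1 < p) (hR : 0 ≤ R)
    (h : ∀ (θ : ℝ), 0 < θ → ∀ ω : ι → ℝ,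
      ∑ z, min ((θ * (F ω - F (Function.update ω z τ))) ^ 2)
        (θ * (F ω - F (Function.update ω z τ))) ≤ R * θ ^ p) (θ : ℝ) (hθ : 0 < θ) :
    ∫ ω, Real.exp (θ * F ω) ∂(Measure.pi fun _ : ι => μ) ≤
      Real.exp (θ * ∫ ω, F ω ∂(Measure.pi fun _ : ι => μ) + R * θ ^ p / (p - 1)) := by
  sorry
end Ent

/-! ## OSC : sup bound for the mean-zero Poisson problem on the torus (De Giorgi - Stampacchia)
(uses SOBT, POI, LIN) -/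
namespace Osc
theorem osc (d : ℕ) (hd : 3 ≤ d) : ∃ C : ℝ, 1 ≤ C ∧ ∀ (L : ℕ) [NeZero L] (u g ρ : T d L → ℝ)
    (F : ℝ), (∀ x, 1 / 2 ≤ u x) → (∀ x, LapW u g x = ρ x) → ∑ x, g x = 0 →
    (∀ x, |ρ x| ≤ F) → ∀ x, |g x| ≤ C * (L : ℝ) ^ 2 * F := by
  sorry
end Osc

/-! ## GST : the exact ground state is flat, version with mass `1/(4 L²)` (uses OSC, GS) -/
namespace Gst
theorem flat (d : ℕ) (hd : 3 ≤ d) : ∃ C : ℝ, 1 ≤ C ∧ ∀ (L : ℕ) [NeZero L] (lam δ E : ℝ),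
    0 < δ → C * δ ≤ 1 → ∀ (V w : T d L → ℝ), (∀ x, |w x| ≤ δ) →
    (∀ x, ∑ i : Fin d, ((1 - Real.exp (w (x + Pi.single i 1) - w x)) +
      (1 - Real.exp (w (x - Pi.single i 1) - w x))) + lam * V x - E +
        1 / (4 * (L : ℝ) ^ 2) * w x = 0) →
    Flat lam (C * δ) V := by
  sorry
end Gst

/-! ## GOODT, MODIT : good event and modification, general mass and general concentration
(uses EXI, CMP, SENS.claim, ENT) -/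
namespace Goodt
/-- `q` is the probability bound produced by the entropy method -/
theorem good (d L : ℕ) [NeZero L] (κ : ℝ) (hκ : 0 < κ) (p R : ℝ) (hp : 1 < p)
    (hR : 0 ≤ R) (μ : Measure ℝ) [IsProbabilityMeasure μ] (lam δ : ℝ) (hlam : 0 < lam)
    (hδ : 0 < δ) (hδ' : δ ≤ 1 / 8)
    (hG : ∀ (u Gr : T d L → ℝ) (x0 : T d L), (∀ x, 1 / 2 ≤ u x) → (∀ x, 0 ≤ Gr x) →
      (∀ x, LapW u Gr x + κ * Real.exp (-(4 * δ)) * Gr x = if x = x0 then 1 else 0) →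
      ∀ θ : ℝ, 0 < θ → ∑ z, min ((θ * Gr z) ^ 2) (θ * Gr z) ≤ R * θ ^ p)
    (θ : ℝ) (hθ : 0 < θ) :
    ∃ E : ℝ, |E| ≤ lam ∧ ∃ G : Set (T d L → ℝ), MeasurableSet G ∧
      (Measure.pi fun _ : T d L => μ).real Gᶜ ≤
        (L : ℝ) ^ d * (2 * Real.exp (-(θ * δ) + R * (6 * lam * θ) ^ p / (p - 1))) ∧
      ∀ V ∈ G, (∀ x, |V x| ≤ 1) → ∃ w : T d L → ℝ, (∀ x, |w x| ≤ δ) ∧
        ∀ x, ∑ i : Fin d, ((1 - Real.exp (w (x + Pi.single i 1) - w x)) +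
          (1 - Real.exp (w (x - Pi.single i 1) - w x))) + lam * V x - E + κ * w x = 0 := by
  sorry

theorem modi (d L : ℕ) [NeZero L] (κ : ℝ) (hκ : 0 < κ) (p R : ℝ) (hp : 1 < p)
    (hR : 0 ≤ R) (μ : Measure ℝ) [IsProbabilityMeasure μ] (lam δ : ℝ) (hlam : 0 < lam)
    (hδ : 0 < δ) (hδ' : δ ≤ 1 / 8)
    (hG : ∀ (u Gr : T d L → ℝ) (x0 : T d L), (∀ x, 1 / 2 ≤ u x) → (∀ x, 0 ≤ Gr x) →
      (∀ x, LapW u Gr x + κ * Real.exp (-(4 * δ)) * Gr x = if x = x0 then 1 else 0) →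
      ∀ θ : ℝ, 0 < θ → ∑ z, min ((θ * Gr z) ^ 2) (θ * Gr z) ≤ R * θ ^ p)
    (θ : ℝ) (hθ : 0 < θ) :
    ∃ E : ℝ, |E| ≤ lam ∧ ∃ Φ : (T d L → ℝ) → (T d L → ℝ), Measurable Φ ∧
      (∀ (V : T d L → ℝ) (a : T d L), Φ (fun x => V (x + a)) = fun x => Φ V (x + a)) ∧
      (∀ x, (Measure.pi fun _ : T d L => μ).real {V | Φ V x ≠ V x} ≤
        2 * Real.exp (-(θ * δ) + R * (6 * lam * θ) ^ p / (p - 1))) ∧
      ∀ V : T d L → ℝ, (∀ x, |V x| ≤ 1) → (∀ x, |Φ V x - V x| ≤ 2) ∧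
        ∃ w : T d L → ℝ, (∀ x, |w x| ≤ 2 * δ) ∧
        ∀ x, ∑ i : Fin d, ((1 - Real.exp (w (x + Pi.single i 1) - w x)) +
          (1 - Real.exp (w (x - Pi.single i 1) - w x))) + lam * Φ V x - E + κ * w x = 0 := by
  sorry
end Goodt

/-! ## UPPER : above the scale `exp(C λ^{-d/2})` the ground state is not flat -/
namespace Upper
theorem upper (d : ℕ) (hd : 3 ≤ d) (μ : Measure ℝ) [IsProbabilityMeasure μ]
    (hμ : μ (Set.Icc (-1) 1)ᶜ = 0) (hnd : ∀ a : ℝ, μ {a} ≠ 1) :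
    ∃ C : ℝ, 0 < C ∧ ∃ η : ℝ, 0 < η ∧ ∀ lam : ℝ, 0 < lam → lam ≤ 1 →
      ∀ (L : ℕ) [NeZero L], Real.exp (C / Real.sqrt lam ^ d) ≤ (L : ℝ) →
      ∃ G : Set (T d L → ℝ), MeasurableSet G ∧
        1 - 1 / (L : ℝ) ≤ (Measure.pi fun _ : T d L => μ).real G ∧
        ∀ V ∈ G, ¬ ∃ (E0 : ℝ) (ψ : T d L → ℝ), (∀ x, 1 ≤ ψ x ∧ ψ x ≤ 1 + η) ∧
          ∀ x, Hop lam V ψ x = E0 * ψ x := by
  sorry
end Upper

end Pool.Agent.H4R2.AE
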