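import Pool.Agent.H4R2.AE.Defs
import Pool.Agent.H4R2.AE.FinA

/-! Blueprint, fifth wave: infinite volume, stationary modification of the iid potential. -/

set_option autoImplicit false

open scoped BigOperators ENNReal
open MeasureTheory Filter

namespace Pool.Agent.H4R2.AE

/-! ## LOCP : locality, two potentials on `ℤ^d` which agree on a box -/
namespace Locp
theorem locp (d K M : ℕ) (hMK : M ≤ K) (lam t : ℝ) (hlam : 0 ≤ lam) (hlam' : lam ≤ 1) (ht : 0 ≤ t)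
    (hK : Real.exp 2 * (4 * (d : ℝ) + 1) * t ≤ (K : ℝ) - (M : ℝ)) (ω ω' : (Fin d → ℤ) → ℝ)
    (hω : ∀ x, |ω x| ≤ 1) (hω' : ∀ x, |ω' x| ≤ 1)
    (heq : ∀ x : Fin d → ℤ, (∀ i, |x i| ≤ (K : ℤ)) → ω x = ω' x)
    (H H' : L2 d →L[ℂ] L2 d) (hH : IsAnderson lam ω H) (hH' : IsAnderson lam ω' H')
    (g : L2 d) (hg : ∀ x : Fin d → ℤ, (∃ i, (M : ℤ) < |x i|) → g x = 0) :
    ‖NormedSpace.exp ((-(t : ℂ) * Complex.I) • H) g -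
        NormedSpace.exp ((-(t : ℂ) * Complex.I) • H') g‖ ≤
      4 * Real.exp (-((K : ℝ) - (M : ℝ))) * ‖g‖ := by
  sorry
end Locp

/-! ## DETW : a flat generalised eigenfunction on `ℤ^d` gives free evolution at all scales
(uses WTOR, WLOC, LOCP) -/
namespace Detw
theorem detw (d : ℕ) (hd : 1 ≤ d) (η : ℝ) (hη : 0 < η) (hη' : 4 * (d : ℝ) * η ≤ 1)
    (lam E : ℝ) (hE : |E| ≤ 1 / 2) (V u : (Fin d → ℤ) → ℝ)
    (hu : ∀ x, 1 ≤ u x ∧ u x ≤ 1 + η)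
    (heq : ∀ x, ∑ i : Fin d, (2 * u x - u (x + Pi.single i 1) - u (x - Pi.single i 1)) +
      lam * V x * u x = E * u x)
    (H H0 : L2 d →L[ℂ] L2 d) (hH : IsAnderson lam V H) (hH0 : IsAnderson 0 (fun _ => 0) H0)
    (g : L2 d) (R : ℝ) (hg : ∀ x : Fin d → ℤ, R < ‖x‖ → g x = 0) (t : ℝ) (ht : 0 ≤ t)
    (l : ℝ) (hl : 0 < l) :
    ‖Complex.exp (((t * E : ℝ) : ℂ) * Complex.I) •
          NormedSpace.exp ((-(t : ℂ) * Complex.I) • H) g -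
        NormedSpace.exp ((-(t : ℂ) * Complex.I) • H0) g‖ ≤
      15 * η * (2 + t / l ^ 2) *
        ‖(((l ^ 2 : ℝ) : ℂ) • H0 + 1) ((((l ^ 2 : ℝ) : ℂ) • H0 + 1) g)‖ := by
  sorry
end Detw

/-! ## DETA : a flat generalised eigenfunction on `ℤ^d` excludes dynamical localization
(uses DYNT through FinA.det, GREEN, Gs.gap, LOCP) -/
namespace Deta
theorem deta (d : ℕ) (hd : 5 ≤ d) : ∃ C : ℝ, 0 < C ∧ ∀ (η : ℝ), 0 < η → 4 * (d : ℝ) * η ≤ 1 →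
    ∀ (lam E : ℝ), |E| ≤ 1 / 2 → ∀ (V u : (Fin d → ℤ) → ℝ),
    (∀ x, 1 ≤ u x ∧ u x ≤ 1 + η) →
    (∀ x, ∑ i : Fin d, (2 * u x - u (x + Pi.single i 1) - u (x - Pi.single i 1)) +
      lam * V x * u x = E * u x) →
    ∀ (H : L2 d →L[ℂ] L2 d), IsAnderson lam V H → ∀ R : ℝ, 1 ≤ R →
      (1 / 2 : ℝ≥0∞) ≤ ∑' x : {x : Fin d → ℤ // R < ‖x‖},
        FinA.supAmp H (C * R ^ ((d : ℝ) / 2)) x := by
  sorry
end Deta

/-! ## LIMM : limit points of random fields with values in a compact set -/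
namespace Limm
theorem limm (d : ℕ) (B : ℝ) (Qn : ℕ → Measure ((Fin d → ℤ) → ℝ × ℝ))
    (hQ : ∀ n, IsProbabilityMeasure (Qn n))
    (hB : ∀ n, ∀ᵐ W ∂(Qn n), ∀ x, |(W x).1| ≤ B ∧ |(W x).2| ≤ B) :
    ∃ Q : Measure ((Fin d → ℤ) → ℝ × ℝ), IsProbabilityMeasure Q ∧
      (∀ᵐ W ∂Q, ∀ x, |(W x).1| ≤ B ∧ |(W x).2| ≤ B) ∧
      (∀ C : Set ((Fin d → ℤ) → ℝ × ℝ), IsClosed C → (∀ᶠ n in atTop, Qn n Cᶜ = 0) → Q Cᶜ = 0) ∧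
      (∀ O : Set ((Fin d → ℤ) → ℝ × ℝ), IsOpen O → ∀ q : ℝ≥0∞, (∀ᶠ n in atTop, Qn n O ≤ q) →
        Q O ≤ q) ∧
      (∀ a : Fin d → ℤ, (∀ᶠ n in atTop, (Qn n).map (fun W x => W (x + a)) = Qn n) →
        Q.map (fun W x => W (x + a)) = Q) ∧
      (∀ (s : Finset (Fin d → ℤ)) (ν : Measure (s → ℝ)),
        (∀ᶠ n in atTop, (Qn n).map (fun W (x : s) => (W x).1) = ν) →
        Q.map (fun W (x : s) => (W x).1) = ν) := by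
  sorry
end Limm

/-! ## LIMA : passage to infinite volume (uses LIMM) -/
namespace Lima
theorem lima (d : ℕ) (hd : 1 ≤ d) (lam η q : ℝ) (hlam : 0 < lam) (hη : 0 < η)
    (μ : Measure ℝ) [IsProbabilityMeasure μ] (hμ : μ (Set.Icc (-1) 1)ᶜ = 0)
    (hT : ∀ (L : ℕ) [NeZero L], ∃ E : ℝ, |E| ≤ lam ∧ ∃ Φ : (T d L → ℝ) → (T d L → ℝ),
      Measurable Φ ∧
      (∀ (V : T d L → ℝ) (a : T d L), Φ (fun x => V (x + a)) = fun x => Φ V (x + a)) ∧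
      (∀ x, (Measure.pi fun _ : T d L => μ).real {V | Φ V x ≠ V x} ≤ q) ∧
      ∀ V : T d L → ℝ, (∀ x, |V x| ≤ 1) → (∀ x, |Φ V x - V x| ≤ 2) ∧
        ∃ (E0 : ℝ) (ψ : T d L → ℝ), |E0 - E| ≤ 1 / (L : ℝ) ^ 2 ∧ (∀ x, 1 ≤ ψ x ∧ ψ x ≤ 1 + η) ∧
          ∀ x, Hop lam (Φ V) ψ x = E0 * ψ x) :
    ∃ E : ℝ, |E| ≤ lam ∧ ∃ Q : Measure ((Fin d → ℤ) → ℝ × ℝ), IsProbabilityMeasure Q ∧
      (∀ a : Fin d → ℤ, Q.map (fun W x => W (x + a)) = Q) ∧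
      Q.map (fun W x => (W x).1) = Measure.infinitePi (fun _ : Fin d → ℤ => μ) ∧
      (∀ x, Q.real {W | (W x).2 ≠ (W x).1} ≤ q) ∧
      ∀ᵐ W ∂Q, (∀ x, |(W x).1| ≤ 1 ∧ |(W x).2 - (W x).1| ≤ 2) ∧
        ∃ u : (Fin d → ℤ) → ℝ, (∀ x, 1 ≤ u x ∧ u x ≤ 1 + η) ∧
          ∀ x, ∑ i : Fin d, (2 * u x - u (x + Pi.single i 1) - u (x - Pi.single i 1)) +
            lam * (W x).2 * u x = E * u x := by
  sorry
end Lima

end Pool.Agent.H4R2.AE
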