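import Pool.Agent.H4R2.AE.Defs
import Pool.Agent.H4R2.AE.Bridge

/-! Blueprint, sixth wave: Gaussian disorder (MP_1906c1_mp, very famous), sharp scale `exp(c/σ²)`. -/

set_option autoImplicit false

open scoped BigOperators ENNReal
open MeasureTheory ProbabilityTheory

namespace Pool.Agent.H4R2.AE

/-! ## SENSG : refined one-site sensitivity (copy of Sens.claim, keeping `|V' z - V z|`) -/
namespace Sensg
theorem claim {d L : ℕ} [NeZero L] (lam δ κ E : ℝ) (hlam : 0 < lam) (hδ : 0 < δ) (hδ' : δ ≤ 1 / 8)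
    (hκ : 0 < κ) (hE : |E| ≤ lam)
    (V w V' w' : T d L → ℝ) (hV : ∀ x, |V x| ≤ 1) (hV' : ∀ x, |V' x| ≤ 1)
    (hw : IsSol lam δ κ V E w) (hw' : IsSol lam δ κ V' E w') (z x0 : T d L)
    (hVV' : ∀ y, y ≠ z → V' y = V y) (Gr : T d L → ℝ)
    (hGr : ∀ x, LapW (fun y => Real.exp (w y)) Gr x + κ * Real.exp (-(4 * δ)) * Gr x =
      if x = x0 then 1 else 0) (hGr0 : ∀ x, 0 ≤ Gr x) :
    |w' x0 - w x0| ≤ Real.exp 1 * lam * |V' z - V z| * Gr z := by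
  sorry
end Sensg

/-! ## GMGF : Gaussian concentration for antitone functions, from ENT (fair signs) and the CLT -/
namespace Gmgf
theorem gmgf {ι : Type} [Fintype ι] [DecidableEq ι] (F : (ι → ℝ) → ℝ) (hF : Continuous F) (B : ℝ)
    (hB : ∀ ω, |F ω| ≤ B)
    (hanti : ∀ (ω : ι → ℝ) (z : ι) (s : ℝ), ω z ≤ s → F (Function.update ω z s) ≤ F ω) (K : ℝ)
    (hK : 0 ≤ K)
    (hgrad : ∀ ω : ι → ℝ, ∃ g : ι → ℝ, (∀ z, 0 ≤ g z) ∧ ∑ z, g z ^ 2 ≤ K ^ 2 ∧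
      ∀ (z : ι) (s : ℝ), |F (Function.update ω z s) - F ω| ≤ |s - ω z| * g z)
    (θ : ℝ) (hθ : 0 < θ) :
    ∫ ω, Real.exp (θ * F ω) ∂(Measure.pi fun _ : ι => gaussianReal 0 1) ≤
      Real.exp (θ * ∫ ω, F ω ∂(Measure.pi fun _ : ι => gaussianReal 0 1) + 4 * K ^ 2 * θ ^ 2) := by
  sorry
end Gmgf

/-! ## GOODG : good event for Gaussian disorder (uses EXI, CMP, SENSG, GMGF) -/
namespace Goodg
theorem good (d L : ℕ) [NeZero L] (κ : ℝ) (hκ : 0 < κ) (Γ2 : ℝ) (hΓ2 : 0 < Γ2) (σ δ : ℝ)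
    (hσ : 0 < σ) (hδ : 0 < δ) (hδ' : δ ≤ 1 / 8)
    (hG : ∀ (u Gr : T d L → ℝ) (x0 : T d L), (∀ x, 1 / 2 ≤ u x) → (∀ x, 0 ≤ Gr x) →
      (∀ x, LapW u Gr x + κ * Real.exp (-(4 * δ)) * Gr x = if x = x0 then 1 else 0) →
      ∑ z, Gr z ^ 2 ≤ Γ2) :
    ∃ E : ℝ, |E| ≤ 1 ∧ ∃ G : Set (T d L → ℝ), MeasurableSet G ∧
      (Measure.pi fun _ : T d L => gaussianReal 0 1).real Gᶜ ≤
        (L : ℝ) ^ d * (2 * Real.exp (-(δ ^ 2 / (120 * Γ2 * σ ^ 2))) +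
          2 * Real.exp (-(1 / (2 * σ ^ 2)))) ∧
      ∀ ξ ∈ G, (∀ x, |σ * ξ x| ≤ 1) ∧ ∃ w : T d L → ℝ, (∀ x, |w x| ≤ δ) ∧
        ∀ x, ∑ i : Fin d, ((1 - Real.exp (w (x + Pi.single i 1) - w x)) +
          (1 - Real.exp (w (x - Pi.single i 1) - w x))) + σ * ξ x - E + κ * w x = 0 := by
  sorry
end Goodg

/-! ## UPPERG : above the scale `exp(C/σ²)` the ground state is not flat -/
namespace Upperg
theorem upper (d : ℕ) (hd : 1 ≤ d) : ∃ C : ℝ, 0 < C ∧ ∀ σ : ℝ, 0 < σ → σ ≤ 1 →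
      ∀ (L : ℕ) [NeZero L], Real.exp (C / σ ^ 2) ≤ (L : ℝ) →
      ∃ G : Set (T d L → ℝ), MeasurableSet G ∧
        1 - 1 / Real.sqrt (L : ℝ) ≤ (Measure.pi fun _ : T d L => gaussianReal 0 1).real G ∧
        ∀ ξ ∈ G, ¬ ∃ (E0 : ℝ) (ψ : T d L → ℝ), (∀ x, 1 ≤ ψ x ∧ ψ x ≤ 2) ∧
          ∀ x, Hop σ ξ ψ x = E0 * ψ x := by
  sorry
end Upperg

/-! ## LOCG : locality for a potential growing logarithmically -/
namespace Locg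
theorem locg (d N : ℕ) (hN : 1 ≤ N) (W : (Fin d → ℤ) → ℝ)
    (hW : ∀ (k : ℕ) (x : Fin d → ℤ), (∀ i, |x i| ≤ 2 ^ (k + 1) * (N : ℤ)) → |W x| ≤ 1 + k)
    (t : ℝ) (ht : 0 ≤ t) (htN : Real.exp 2 * (4 * (d : ℝ) + 2) * t ≤ (N : ℝ))
    (V : T d (2 * N + 1) → ℝ)
    (hV : ∀ x : Fin d → ℤ, (∀ i, |x i| ≤ (N : ℤ)) → V (fun i => ((x i : ℤ) : ZMod (2 * N + 1))) = W x)
    (x : Fin d → ℤ) (hx : ∀ i, |x i| ≤ (N : ℤ)) :
    ‖∑' n : ℕ, ((-(t : ℂ) * Complex.I) ^ n / (n.factorial : ℂ)) *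
        ((Bridge.Hf 1 W)^[n] (fun y => if y = 0 then 1 else 0)) x -
      ampT 1 V t (fun i => ((x i : ℤ) : ZMod (2 * N + 1)))‖ ≤ 2 * Real.exp (-(N : ℝ)) := by
  sorry
end Locg

/-! ## GROW : the growth event for iid Gaussians -/
namespace Grow
theorem grow (d : ℕ) : ∃ c : ℝ, 0 < c ∧ ∀ σ : ℝ, 0 < σ → σ ≤ c → ∀ N : ℕ, 1 ≤ N →
    (N : ℝ) ≤ Real.exp (c / σ ^ 2) → ∃ G : Set ((Fin d → ℤ) → ℝ), MeasurableSet G ∧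
      1 - Real.exp (-(c / σ ^ 2)) ≤
        (Measure.infinitePi fun _ : Fin d → ℤ => gaussianReal 0 1).real G ∧
      ∀ ξ ∈ G, ∀ (k : ℕ) (x : Fin d → ℤ), (∀ i, |x i| ≤ 2 ^ (k + 1) * (N : ℤ)) →
        |σ * ξ x| ≤ 1 + k := by
  sorry
end Grow

end Pool.Agent.H4R2.AE
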