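import Pool.Agent.H4R2.AE.Core2
import Pool.Agent.H4R2.AE.Goodg
import Pool.Agent.H4R2.AE.Green

/-! Gaussian disorder: the torus theorem at the sharp scale. -/

set_option autoImplicit false

open scoped BigOperators ENNReal
open MeasureTheory ProbabilityTheory

namespace Pool.Agent.H4R2.AE

/-- the Gaussian scale: `σ` in dimension 4, `σ²` in dimension at least 5 -/
noncomputable def scaleG (d : ℕ) (σ : ℝ) : ℝ := if d = 4 then σ else σ ^ 2

namespace TorG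

open Pool.Agent.H4R2.AE.Core (FlatE close L_pos one_le_L)
open Pool.Agent.H4R2.AE.Core2 (k_ok weak_mul log_card)

theorem scaleG_pos (d : ℕ) (σ : ℝ) (h : 0 < σ) : 0 < scaleG d σ := by
  unfold scaleG
  split_ifs <;> positivity

theorem scaleG_le (d : ℕ) (σ s0 : ℝ) (hσ : 0 < σ) (hs1 : s0 ≤ 1) (hl : σ ≤ s0) :
    scaleG d σ ≤ s0 := by
  unfold scaleG
  split_ifs
  · exact hl
  · nlinarith

theorem scaleG_ge (d : ℕ) (σ : ℝ) (hσ : 0 < σ) (hs1 : σ ≤ 1) : σ ^ 2 ≤ scaleG d σ := by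
  unfold scaleG
  split_ifs
  · nlinarith
  · exact le_rfl

theorem unionG (d : ℕ) (b : ℝ) : ∀ c : ℝ, 0 < c → (d + 3) * c ≤ b →
    ∀ s : ℝ, 0 < s → s ≤ c → ∀ L : ℕ, (L : ℝ) ≤ Real.exp (c / s) → ∀ e1 e2 : ℝ, e1 ≤ -b / s →
    e2 ≤ -b / s → (L : ℝ) ^ d * (2 * Real.exp e1 + 2 * Real.exp e2) ≤ Real.exp (-c / s) := by
  intro c hc hcb s hs hsc L hL e1 e2 he1 he2
  have h1 : (L : ℝ) ^ d ≤ Real.exp (d * (c / s)) := by
    calc (L : ℝ) ^ d ≤ Real.exp (c / s) ^ d := pow_le_pow_left₀ (by positivity) hL d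
      _ = Real.exp (d * (c / s)) := by rw [← Real.exp_nat_mul]
  have h2 : (4 : ℝ) ≤ Real.exp (2 * (c / s)) := by
    have h3 : 1 ≤ c / s := by rwa [le_div_iff₀ hs, one_mul]
    exact Arith.four_le.trans (Real.exp_le_exp.2 (by linarith))
  have h0 : 2 * Real.exp e1 + 2 * Real.exp e2 ≤ Real.exp (2 * (c / s)) * Real.exp (-b / s) := by
    have e3 : Real.exp e1 ≤ Real.exp (-b / s) := Real.exp_le_exp.2 he1
    have e4 : Real.exp e2 ≤ Real.exp (-b / s) := Real.exp_le_exp.2 he2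
    have e5 := Real.exp_pos (-b / s)
    nlinarith
  calc (L : ℝ) ^ d * (2 * Real.exp e1 + 2 * Real.exp e2)
      ≤ Real.exp (d * (c / s)) * (Real.exp (2 * (c / s)) * Real.exp (-b / s)) := by gcongr
    _ = Real.exp (d * (c / s) + (2 * (c / s) + -b / s)) := by rw [Real.exp_add, Real.exp_add]
    _ ≤ Real.exp (-c / s) := by
        apply Real.exp_le_exp.2
        have h4 : (d + 3) * (c / s) ≤ b / s := by
          rw [← mul_div_assoc]
          gcongr
        have h5 : -b / s = -(b / s) := by ring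
        have h6 : -c / s = -(c / s) := by ring
        rw [h5, h6]
        linarith

/-- `ℓ²` bound of the Green function with mass `1/(4 L²)` -/
theorem sq_bound (d : ℕ) (hd : 4 ≤ d) : ∃ A : ℝ, 0 < A ∧ ∀ (L : ℕ) [NeZero L] (δ : ℝ), δ ≤ 1 / 8 →
    ∀ (u Gr : T d L → ℝ) (x0 : T d L), (∀ x, 1 / 2 ≤ u x) → (∀ x, 0 ≤ Gr x) →
      (∀ x, LapW u Gr x + 1 / (4 * (L : ℝ) ^ 2) * Real.exp (-(4 * δ)) * Gr x =
        if x = x0 then 1 else 0) →
      ∑ z, Gr z ^ 2 ≤ if d = 4 then A * (1 + 4 * Real.log (L : ℝ)) else A := by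
  by_cases h : d = 4
  · subst h
    obtain ⟨A, hA, HA⟩ := Weak.weak 4 (by norm_num)
    refine ⟨A, by linarith, ?_⟩
    intro L _ δ hδ u Gr x0 hu hGr hh
    have h1 := HA L u (fun _ => 1 / (4 * (L : ℝ) ^ 2) * Real.exp (-(4 * δ))) Gr x0 hu
      (fun _ => k_ok L δ hδ) hGr hh
    have hp : ((4 : ℕ) : ℝ) / (((4 : ℕ) : ℝ) - 2) = 2 := by norm_num
    rw [hp] at h1
    simp only [Real.rpow_two] at h1
    have h3 := Layer.layer_two (T 4 L) Gr A hGr (by linarith) h1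
    rw [log_card] at h3
    simpa using h3
  · obtain ⟨Γ, hΓ, H⟩ := Green.green d (by omega)
    refine ⟨Γ ^ 2, by positivity, ?_⟩
    intro L _ δ hδ u Gr x0 hu hGr hh
    rw [if_neg h]
    exact H L u (fun _ => 1 / (4 * (L : ℝ) ^ 2) * Real.exp (-(4 * δ))) Gr x0 hu
      (fun _ => k_ok L δ hδ) hGr hh

/-- the torus theorem for Gaussian disorder, `d ≥ 4` -/
theorem main_torusG (d : ℕ) (hd : 4 ≤ d) (η : ℝ) (hη : 0 < η) (hη' : η ≤ 1) :
    ∃ c : ℝ, 0 < c ∧ ∀ σ : ℝ, 0 < σ → σ ≤ c → ∀ (L : ℕ) [NeZero L],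
      (L : ℝ) ≤ Real.exp (c / scaleG d σ) →
      ∃ E : ℝ, |E| ≤ 1 ∧ ∃ G : Set (T d L → ℝ), MeasurableSet G ∧
        1 - Real.exp (-c / scaleG d σ) ≤ (Measure.pi fun _ : T d L => gaussianReal 0 1).real G ∧
        ∀ ξ ∈ G, (∀ x, |σ * ξ x| ≤ 1) ∧ FlatE σ η (1 / (L : ℝ) ^ 2) E ξ := by
  obtain ⟨C, hC, hflat⟩ := Core2.gen d (by omega)
  have hC0 : 0 < C := by linarith
  set δ : ℝ := min (1 / 8) (η / C) with hδ
  have hδ0 : 0 < δ := by positivity
  have hδ8 : δ ≤ 1 / 8 := min_le_left _ _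
  have hδC : δ ≤ η / C := min_le_right _ _
  obtain ⟨A, hA, HA⟩ := sq_bound d hd
  -- reduction
  suffices hs : ∃ c : ℝ, 0 < c ∧ ∀ σ : ℝ, 0 < σ → σ ≤ c → ∀ (L : ℕ) [NeZero L],
      (L : ℝ) ≤ Real.exp (c / scaleG d σ) → ∃ Γ2 : ℝ, 0 < Γ2 ∧
      (if d = 4 then A * (1 + 4 * Real.log (L : ℝ)) else A) ≤ Γ2 ∧
      (L : ℝ) ^ d * (2 * Real.exp (-(δ ^ 2 / (120 * Γ2 * σ ^ 2))) +
          2 * Real.exp (-(1 / (2 * σ ^ 2)))) ≤ Real.exp (-c / scaleG d σ) by
    obtain ⟨c, hc, H⟩ := hs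
    refine ⟨c, hc, ?_⟩
    intro σ hσ hσc L _ hL
    obtain ⟨Γ2, hΓ2, hΓA, hfin⟩ := H σ hσ hσc L hL
    have hLpos := L_pos (L := L)
    obtain ⟨E, hE, G, hGm, hP, hw⟩ := Goodg.good d L (1 / (4 * (L : ℝ) ^ 2)) (by positivity) Γ2 hΓ2
      σ δ hσ hδ0 hδ8 (fun u Gr x0 h1 h2 h3 => (HA L δ hδ8 u Gr x0 h1 h2 h3).trans hΓA)
    refine ⟨E, hE, G, hGm, ?_, fun ξ hξ => ?_⟩
    · have h1 := probReal_add_probReal_compl
        (μ := Measure.pi fun _ : T d L => gaussianReal 0 1) hGm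
      have h2 := hP.trans hfin
      linarith
    · obtain ⟨h1, w, hw1, hw2⟩ := hw ξ hξ
      exact ⟨h1, hflat L σ η E hη hη' ξ w (fun x => (hw1 x).trans hδC) hw2⟩
  by_cases h4 : d = 4
  · subst h4
    set c : ℝ := min (1 / 14) (δ / (65 * (A + 1))) with hc
    have hcpos : 0 < c := by positivity
    have hc14 : c ≤ 1 / 14 := min_le_left _ _
    have hcA : c * (65 * (A + 1)) ≤ δ := by
      have h := min_le_right (1 / 14) (δ / (65 * (A + 1)))
      rwa [← hc, le_div_iff₀ (by positivity)] at h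
    refine ⟨c, hcpos, ?_⟩
    intro σ hσ hσc L _ hL
    have hsc : scaleG 4 σ = σ := by simp [scaleG]
    rw [hsc] at hL ⊢
    have hL1 : (1 : ℝ) ≤ L := by exact_mod_cast one_le_L
    have hlogL : Real.log L ≤ c / σ := by
      have := Real.log_le_log (by linarith) hL
      rwa [Real.log_exp] at this
    have hone : 1 ≤ c / σ := by rwa [le_div_iff₀ hσ, one_mul]
    have hΓle : A * (1 + 4 * Real.log (L : ℝ)) ≤ A * (5 * (c / σ)) := by
      gcongr
      linarith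
    refine ⟨A * (5 * (c / σ)), by positivity, by simpa using hΓle, ?_⟩
    refine unionG 4 (7 * c) c hcpos (by push_cast; linarith) σ hσ hσc L hL _ _ ?_ ?_
    · have e1 : δ ^ 2 / (120 * (A * (5 * (c / σ))) * σ ^ 2) = δ ^ 2 / (600 * A * c) / σ := by
        field_simp
        ring
      rw [e1, neg_div, neg_le_neg_iff]
      gcongr
      rw [le_div_iff₀ (by positivity)]
      have h1 : (c * (65 * (A + 1))) ^ 2 ≤ δ ^ 2 := pow_le_pow_left₀ (by positivity) hcA 2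
      have h2 : 7 * c * (600 * A * c) ≤ (c * (65 * (A + 1))) ^ 2 := by
        have h3 : 4 * A ≤ (A + 1) ^ 2 := by nlinarith [sq_nonneg (A - 1)]
        have h4 : 0 < c ^ 2 := by positivity
        nlinarith
      exact h2.trans h1
    · rw [neg_div, neg_le_neg_iff]
      have e1 : 7 * c / σ ≤ (1 / 2) / σ := by
        gcongr
        linarith
      refine e1.trans ?_
      have h5 : σ ≤ 1 := by linarith
      rw [div_div, div_le_div_iff₀ (by positivity) (by positivity)]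
      nlinarith
  · set b : ℝ := min (δ ^ 2 / (120 * A)) (1 / 2) with hb
    have hbpos : 0 < b := by positivity
    set c : ℝ := min 1 (b / (d + 3)) with hc
    have hd3 : (0 : ℝ) < (d : ℝ) + 3 := by positivity
    have hcpos : 0 < c := by positivity
    have hc1 : c ≤ 1 := min_le_left _ _
    have hcb : ((d : ℝ) + 3) * c ≤ b := by
      have := min_le_right 1 (b / ((d : ℝ) + 3))
      rw [← hc, le_div_iff₀ hd3] at this
      linarith
    refine ⟨c, hcpos, ?_⟩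
    intro σ hσ hσc L _ hL
    have hsc : scaleG d σ = σ ^ 2 := by simp [scaleG, h4]
    have hsle := scaleG_le d σ c hσ hc1 hσc
    rw [hsc] at hL hsle ⊢
    refine ⟨A, hA, by simp [h4], ?_⟩
    refine unionG d b c hcpos hcb (σ ^ 2) (by positivity) hsle L hL _ _ ?_ ?_
    · rw [neg_div, neg_le_neg_iff]
      have e1 : δ ^ 2 / (120 * A * σ ^ 2) = δ ^ 2 / (120 * A) / σ ^ 2 := by
        rw [div_div]
      rw [e1]
      gcongr
      exact min_le_left _ _
    · rw [neg_div, neg_le_neg_iff]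
      have e1 : 1 / (2 * σ ^ 2) = (1 / 2) / σ ^ 2 := by
        rw [div_div]
      rw [e1]
      gcongr
      exact min_le_right _ _

end TorG
end Pool.Agent.H4R2.AE
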