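import Pool.Agent.H4R2.AE.Defs2

/-! TWIST : stiffness of the ground state energy under twists. Proof written by helper954. -/

set_option autoImplicit false

open scoped BigOperators ENNReal
open MeasureTheory

namespace Pool.Agent.H4R2.AE
namespace Twist


/-! ### the one-dimensional inequality -/

section oneD

variable {L : ℕ} [NeZero L]

/-- Parseval's identity on `ℤ/L` -/
theorem parseval (g : ZMod L → ℂ) :
    ∑ k : ZMod L, ‖∑ m : ZMod L, ZMod.stdAddChar (-(k * m)) * g m‖ ^ 2 =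
      (L : ℝ) * ∑ m : ZMod L, ‖g m‖ ^ 2 := by
  have h0 : ∀ z : ℂ, ((‖z‖ ^ 2 : ℝ) : ℂ) = z * (starRingEnd ℂ) z := fun z => by
    rw [Complex.mul_conj, Complex.normSq_eq_norm_sq]
  have h : ((∑ k : ZMod L, ‖∑ m : ZMod L, ZMod.stdAddChar (-(k * m)) * g m‖ ^ 2 : ℝ) : ℂ) =
      (((L : ℝ) * ∑ m : ZMod L, ‖g m‖ ^ 2 : ℝ) : ℂ) := by
    rw [Complex.ofReal_sum, Complex.ofReal_mul, Complex.ofReal_sum]
    simp only [h0]
    have h1 : ∀ k : ZMod L, (∑ m : ZMod L, ZMod.stdAddChar (-(k * m)) * g m) *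
        (starRingEnd ℂ) (∑ m : ZMod L, ZMod.stdAddChar (-(k * m)) * g m) =
        ∑ m : ZMod L, ∑ m' : ZMod L, g m * (starRingEnd ℂ) (g m') * ZMod.stdAddChar (k * (m' - m)) := by
      intro k
      rw [map_sum, Finset.sum_mul_sum]
      refine Finset.sum_congr rfl fun m _ => Finset.sum_congr rfl fun m' _ => ?_
      rw [map_mul, ← AddChar.map_neg_eq_conj, neg_neg]
      have h2 : (ZMod.stdAddChar (k * (m' - m)) : ℂ) =
          ZMod.stdAddChar (-(k * m)) * ZMod.stdAddChar (k * m') := by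
        rw [← AddChar.map_add_eq_mul]
        congr 1; ring
      rw [h2]
      ring
    simp only [h1]
    rw [Finset.sum_comm]
    rw [Finset.mul_sum]
    refine Finset.sum_congr rfl fun m _ => ?_
    rw [Finset.sum_comm]
    have h3 : ∀ m' : ZMod L, ∑ k : ZMod L, g m * (starRingEnd ℂ) (g m') * ZMod.stdAddChar (k * (m' - m)) =
        if m' = m then (L : ℂ) * (g m * (starRingEnd ℂ) (g m)) else 0 := by
      intro m'
      rw [← Finset.mul_sum, AddChar.sum_mulShift (m' - m) (ZMod.isPrimitive_stdAddChar L),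
        ZMod.card]
      by_cases hm : m' = m
      · rw [if_pos (sub_eq_zero.2 hm), if_pos hm, hm]; ring
      · rw [if_neg (sub_ne_zero.2 hm), if_neg hm]; simp
    simp only [h3]
    rw [Finset.sum_ite_eq']
    simp
  exact_mod_cast h

theorem norm_one_sub (θ : ℝ) : ‖1 - Complex.exp ((θ : ℂ) * Complex.I)‖ ^ 2 = 2 - 2 * Real.cos θ := by
  rw [Complex.exp_mul_I, ← Complex.ofReal_cos, ← Complex.ofReal_sin, ← Complex.normSq_eq_norm_sq,
    Complex.normSq_apply]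
  have h1 : (1 - ((Real.cos θ : ℂ) + (Real.sin θ : ℂ) * Complex.I)).re = 1 - Real.cos θ := by
    rw [Complex.sub_re, Complex.add_re, Complex.re_ofReal_mul, Complex.ofReal_re, Complex.I_re,
      mul_zero, add_zero, Complex.one_re]
  have h2 : (1 - ((Real.cos θ : ℂ) + (Real.sin θ : ℂ) * Complex.I)).im = - Real.sin θ := by
    rw [Complex.sub_im, Complex.add_im, Complex.im_ofReal_mul, Complex.ofReal_im, Complex.I_im,
      mul_one, zero_add, Complex.one_im, zero_sub]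
  rw [h1, h2]
  nlinarith [Real.sin_sq_add_cos_sq θ]

theorem spec (α : ℝ) (hα : |α| ≤ Real.pi / (L : ℝ)) (k : ZMod L) :
    2 - 2 * Real.cos α ≤ ‖1 - Complex.exp ((α : ℂ) * Complex.I) * ZMod.stdAddChar k‖ ^ 2 := by
  have hL : (0 : ℝ) < L := by
    have : 0 < L := Nat.pos_of_ne_zero (NeZero.ne L)
    exact_mod_cast this
  have hL1 : (1 : ℝ) ≤ L := by
    have : 1 ≤ L := Nat.pos_of_ne_zero (NeZero.ne L)
    exact_mod_cast this
  have hpi := Real.pi_pos
  have hpL : Real.pi / (L : ℝ) ≤ Real.pi := div_le_self hpi.le hL1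
  have h1 : Complex.exp ((α : ℂ) * Complex.I) * ZMod.stdAddChar k =
      Complex.exp (((α + 2 * Real.pi * (k.val : ℝ) / L : ℝ) : ℂ) * Complex.I) := by
    rw [ZMod.stdAddChar_apply, ZMod.toCircle_apply, ← Complex.exp_add]
    congr 1
    push_cast
    ring
  rw [h1, norm_one_sub]
  have h2 : Real.cos (α + 2 * Real.pi * (k.val : ℝ) / L) ≤ Real.cos α := by
    rcases Nat.eq_zero_or_pos k.val with h0 | h0
    · rw [h0]; simp
    · have hk1 : (1 : ℝ) ≤ k.val := by exact_mod_cast h0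
      have hk2 : (k.val : ℝ) ≤ L - 1 := by
        have h3 : k.val + 1 ≤ L := ZMod.val_lt k
        have h4 : ((k.val + 1 : ℕ) : ℝ) ≤ L := by exact_mod_cast h3
        push_cast at h4
        linarith
      have hab := abs_le.1 hα
      set θ := α + 2 * Real.pi * (k.val : ℝ) / L with hθ
      have hθ1 : Real.pi / L ≤ θ := by
        have : 2 * (Real.pi / L) ≤ 2 * Real.pi * (k.val : ℝ) / L := by
          rw [← mul_div_assoc]
          apply div_le_div_of_nonneg_right _ hL.le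
          nlinarith
        linarith [hab.1]
      have hθ2 : θ ≤ 2 * Real.pi - Real.pi / L := by
        have : 2 * Real.pi * (k.val : ℝ) / L ≤ 2 * Real.pi - 2 * (Real.pi / L) := by
          have e1 : 2 * Real.pi - 2 * (Real.pi / L) = 2 * Real.pi * (L - 1) / L := by
            field_simp
          rw [e1]
          apply div_le_div_of_nonneg_right _ hL.le
          nlinarith
        linarith [hab.2]
      have hc1 : Real.cos (Real.pi / L) ≤ Real.cos α := by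
        rw [← Real.cos_abs α]
        exact Real.cos_le_cos_of_nonneg_of_le_pi (abs_nonneg _) hpL hα
      refine le_trans ?_ hc1
      rcases le_total θ Real.pi with h5 | h5
      · exact Real.cos_le_cos_of_nonneg_of_le_pi (by positivity) h5 hθ1
      · have h6 : Real.cos θ = Real.cos (2 * Real.pi - θ) := by
          rw [Real.cos_two_pi_sub]
        rw [h6]
        exact Real.cos_le_cos_of_nonneg_of_le_pi (by positivity) (by linarith) (by linarith)
  linarith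

theorem oneD (α : ℝ) (hα : |α| ≤ Real.pi / (L : ℝ)) (g : ZMod L → ℂ) :
    (2 - 2 * Real.cos α) * ∑ m : ZMod L, ‖g m‖ ^ 2 ≤
      ∑ m : ZMod L, ‖g m - Complex.exp ((α : ℂ) * Complex.I) * g (m + 1)‖ ^ 2 := by
  have hL : (0 : ℝ) < L := by
    have : 0 < L := Nat.pos_of_ne_zero (NeZero.ne L)
    exact_mod_cast this
  set z := Complex.exp ((α : ℂ) * Complex.I) with hz
  have h1 : ∀ k : ZMod L, ∑ m : ZMod L, ZMod.stdAddChar (-(k * m)) * (g m - z * g (m + 1)) =
      (1 - z * ZMod.stdAddChar k) * ∑ m : ZMod L, ZMod.stdAddChar (-(k * m)) * g m := by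
    intro k
    have h2 : ∑ m : ZMod L, (ZMod.stdAddChar (-(k * m)) : ℂ) * g (m + 1) =
        ZMod.stdAddChar k * ∑ m : ZMod L, ZMod.stdAddChar (-(k * m)) * g m := by
      rw [← Equiv.sum_comp (Equiv.addRight (1 : ZMod L))
        (fun m => (ZMod.stdAddChar (-(k * m)) : ℂ) * g m), Finset.mul_sum]
      refine Finset.sum_congr rfl fun m _ => ?_
      rw [Equiv.coe_addRight, ← mul_assoc, ← AddChar.map_add_eq_mul]
      congr 2
      ring
    rw [sub_mul, one_mul, mul_assoc, ← h2, Finset.mul_sum, ← Finset.sum_sub_distrib]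
    exact Finset.sum_congr rfl fun m _ => by ring
  have p1 := parseval g
  have p2 := parseval (fun m => g m - z * g (m + 1))
  simp only [h1, norm_mul, mul_pow] at p2
  have h3 : (2 - 2 * Real.cos α) * ∑ k : ZMod L,
      ‖∑ m : ZMod L, ZMod.stdAddChar (-(k * m)) * g m‖ ^ 2 ≤
      ∑ k : ZMod L, ‖1 - z * ZMod.stdAddChar k‖ ^ 2 *
        ‖∑ m : ZMod L, ZMod.stdAddChar (-(k * m)) * g m‖ ^ 2 := by
    rw [Finset.mul_sum]
    refine Finset.sum_le_sum fun k _ => ?_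
    exact mul_le_mul_of_nonneg_right (spec α hα k) (sq_nonneg _)
  rw [p1, p2] at h3
  have h4 : (L : ℝ) * ((2 - 2 * Real.cos α) * ∑ m : ZMod L, ‖g m‖ ^ 2) ≤
      (L : ℝ) * ∑ m : ZMod L, ‖g m - z * g (m + 1)‖ ^ 2 := by
    calc _ = (2 - 2 * Real.cos α) * ((L : ℝ) * ∑ m : ZMod L, ‖g m‖ ^ 2) := by ring
      _ ≤ _ := h3
  exact le_of_mul_le_mul_left h4 hL

end oneD

variable {d L : ℕ} [NeZero L]

/-- the one-dimensional inequality in direction `i` on the torus -/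
theorem dir (i : Fin d) (α : ℝ) (hα : |α| ≤ Real.pi / (L : ℝ)) (g : T d L → ℂ) :
    (2 - 2 * Real.cos α) * ∑ x, ‖g x‖ ^ 2 ≤
      ∑ x, ‖g x - Complex.exp ((α : ℂ) * Complex.I) * g (x + Pi.single i 1)‖ ^ 2 := by
  have hL : (0 : ℝ) < L := by
    have : 0 < L := Nat.pos_of_ne_zero (NeZero.ne L)
    exact_mod_cast this
  have havg : ∀ F : T d L → ℝ, (L : ℝ) * ∑ x, F x =
      ∑ x : T d L, ∑ m : ZMod L, F (x + (Pi.single i m : T d L)) := by
    intro F
    rw [Finset.sum_comm]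
    have h1 : ∀ m : ZMod L, ∑ x : T d L, F (x + (Pi.single i m : T d L)) = ∑ x, F x := fun m =>
      Equiv.sum_comp (Equiv.addRight (Pi.single i m : T d L)) F
    simp only [h1]
    rw [Finset.sum_const, Finset.card_univ, ZMod.card, nsmul_eq_mul]
  have h1 : (L : ℝ) * ((2 - 2 * Real.cos α) * ∑ x, ‖g x‖ ^ 2) ≤
      (L : ℝ) * ∑ x, ‖g x - Complex.exp ((α : ℂ) * Complex.I) * g (x + Pi.single i 1)‖ ^ 2 := by
    calc _ = (2 - 2 * Real.cos α) * ((L : ℝ) * ∑ x, ‖g x‖ ^ 2) := by ring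
      _ = ∑ x : T d L, (2 - 2 * Real.cos α) *
            ∑ m : ZMod L, ‖g (x + (Pi.single i m : T d L))‖ ^ 2 := by
          rw [havg, Finset.mul_sum]
      _ ≤ ∑ x : T d L, ∑ m : ZMod L, ‖g (x + (Pi.single i m : T d L)) -
            Complex.exp ((α : ℂ) * Complex.I) *
            g (x + (Pi.single i m : T d L) + Pi.single i 1)‖ ^ 2 := by
          refine Finset.sum_le_sum fun x _ => ?_
          have h2 := oneD α hα (fun m => g (x + (Pi.single i m : T d L)))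
          have h3 : ∀ m : ZMod L, x + (Pi.single i (m + 1) : T d L) =
              x + (Pi.single i m : T d L) + Pi.single i 1 :=
            fun m => by rw [Pi.single_add, add_assoc]
          simp only [h3] at h2
          exact h2
      _ = _ := by rw [havg]
  exact le_of_mul_le_mul_left h1 hL

/-- pointwise identity -/
theorem ptw (a b : ℝ) (e u v : ℂ) (he : ‖e‖ = 1) :
    ‖(a : ℂ) * u - e * ((b : ℂ) * v)‖ ^ 2 =
      a * b * ‖u - e * v‖ ^ 2 + a * (a - b) * ‖u‖ ^ 2 + b * (b - a) * ‖v‖ ^ 2 := by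
  have he2 : e.re ^ 2 + e.im ^ 2 = 1 := by
    have h1 : Complex.normSq e = 1 := by rw [Complex.normSq_eq_norm_sq, he]; norm_num
    rw [Complex.normSq_apply] at h1
    nlinarith
  simp only [← Complex.normSq_eq_norm_sq, Complex.normSq_apply, Complex.sub_re, Complex.sub_im,
    Complex.mul_re, Complex.mul_im, Complex.ofReal_re, Complex.ofReal_im, zero_mul, sub_zero,
    add_zero]
  have h3 : (b ^ 2 * (v.re ^ 2 + v.im ^ 2)) * (e.re ^ 2 + e.im ^ 2) =
    b ^ 2 * (v.re ^ 2 + v.im ^ 2) := by rw [he2, mul_one]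
  have h4 : (a * b * (v.re ^ 2 + v.im ^ 2)) * (e.re ^ 2 + e.im ^ 2) =
    a * b * (v.re ^ 2 + v.im ^ 2) := by rw [he2, mul_one]
  linarith

/-- ground state representation of the twisted form -/
theorem repr (lam E0 : ℝ) (V ψ : T d L → ℝ) (heig : ∀ x, Hop lam V ψ x = E0 * ψ x)
    (α : Fin d → ℝ) (g : T d L → ℂ) :
    Tw lam V α (fun x => (ψ x : ℂ) * g x) - E0 * ∑ x, ‖(ψ x : ℂ) * g x‖ ^ 2 =
      ∑ x, ∑ i : Fin d, ψ x * ψ (x + Pi.single i 1) *
        ‖g x - Complex.exp ((α i : ℂ) * Complex.I) * g (x + Pi.single i 1)‖ ^ 2 := by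
  unfold Tw
  have he : ∀ i, ‖Complex.exp ((α i : ℂ) * Complex.I)‖ = 1 := fun i =>
    Complex.norm_exp_ofReal_mul_I (α i)
  have hn : ∀ x, ‖(ψ x : ℂ) * g x‖ ^ 2 = ψ x ^ 2 * ‖g x‖ ^ 2 := by
    intro x
    rw [norm_mul, mul_pow, Complex.norm_real, Real.norm_eq_abs, sq_abs]
  have h1 : ∑ x, ∑ i : Fin d, ‖(ψ x : ℂ) * g x - Complex.exp ((α i : ℂ) * Complex.I) *
      ((ψ (x + Pi.single i 1) : ℂ) * g (x + Pi.single i 1))‖ ^ 2 =
      ∑ x, ∑ i : Fin d, ψ x * ψ (x + Pi.single i 1) *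
        ‖g x - Complex.exp ((α i : ℂ) * Complex.I) * g (x + Pi.single i 1)‖ ^ 2 +
      (∑ x, ∑ i : Fin d, ψ x * (ψ x - ψ (x + Pi.single i 1)) * ‖g x‖ ^ 2 +
      ∑ x, ∑ i : Fin d, ψ (x + Pi.single i 1) * (ψ (x + Pi.single i 1) - ψ x) *
        ‖g (x + Pi.single i 1)‖ ^ 2) := by
    rw [← Finset.sum_add_distrib, ← Finset.sum_add_distrib]
    refine Finset.sum_congr rfl fun x _ => ?_
    rw [← Finset.sum_add_distrib, ← Finset.sum_add_distrib]
    refine Finset.sum_congr rfl fun i _ => ?_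
    rw [ptw _ _ _ _ _ (he i)]
    ring
  have h2 : ∑ x, ∑ i : Fin d, ψ (x + Pi.single i 1) * (ψ (x + Pi.single i 1) - ψ x) *
        ‖g (x + Pi.single i 1)‖ ^ 2 =
      ∑ x, ∑ i : Fin d, ψ x * (ψ x - ψ (x - Pi.single i 1)) * ‖g x‖ ^ 2 := by
    rw [Finset.sum_comm, Finset.sum_comm (s := Finset.univ (α := T d L))]
    refine Finset.sum_congr rfl fun i _ => ?_
    have := Equiv.sum_comp (Equiv.addRight (Pi.single i 1 : T d L))
      (fun x => ψ x * (ψ x - ψ (x - Pi.single i 1)) * ‖g x‖ ^ 2)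
    rw [← this]
    refine Finset.sum_congr rfl fun x _ => ?_
    simp
  have h3 : ∑ x, ∑ i : Fin d, ψ x * (ψ x - ψ (x + Pi.single i 1)) * ‖g x‖ ^ 2 +
      ∑ x, ∑ i : Fin d, ψ x * (ψ x - ψ (x - Pi.single i 1)) * ‖g x‖ ^ 2 =
      E0 * ∑ x, ψ x ^ 2 * ‖g x‖ ^ 2 - ∑ x, lam * V x * (ψ x ^ 2 * ‖g x‖ ^ 2) := by
    rw [Finset.mul_sum, ← Finset.sum_add_distrib, ← Finset.sum_sub_distrib]
    refine Finset.sum_congr rfl fun x _ => ?_
    have h4 := heig x
    unfold Hop at h4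
    have h5 : ∑ i : Fin d, ψ x * (ψ x - ψ (x + Pi.single i 1)) * ‖g x‖ ^ 2 +
        ∑ i : Fin d, ψ x * (ψ x - ψ (x - Pi.single i 1)) * ‖g x‖ ^ 2 =
        ψ x * ‖g x‖ ^ 2 * ∑ i : Fin d, (2 * ψ x - ψ (x + Pi.single i 1) -
          ψ (x - Pi.single i 1)) := by
      rw [← Finset.sum_add_distrib, Finset.mul_sum]
      exact Finset.sum_congr rfl fun i _ => by ring
    rw [h5]
    have h6 : ∑ i : Fin d, (2 * ψ x - ψ (x + Pi.single i 1) - ψ (x - Pi.single i 1)) =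
        E0 * ψ x - lam * V x * ψ x := by linarith
    rw [h6]
    ring
  rw [h1, h2, h3]
  simp only [hn]
  ring

theorem twist (d L : ℕ) [NeZero L] (lam η E0 : ℝ) (hη : 0 ≤ η) (V ψ : T d L → ℝ)
    (hψ : ∀ x, 1 ≤ ψ x ∧ ψ x ≤ 1 + η) (heig : ∀ x, Hop lam V ψ x = E0 * ψ x)
    (α : Fin d → ℝ) (hα : ∀ i, |α i| ≤ Real.pi / (L : ℝ)) :
    (∀ f : T d L → ℂ, (1 / (1 + η) ^ 2) * (∑ i, (2 - 2 * Real.cos (α i))) * ∑ x, ‖f x‖ ^ 2 ≤
      Tw lam V α f - E0 * ∑ x, ‖f x‖ ^ 2) ∧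
    (∃ f : T d L → ℂ, f ≠ 0 ∧ Tw lam V α f - E0 * ∑ x, ‖f x‖ ^ 2 ≤
      (1 + η) ^ 2 * (∑ i, (2 - 2 * Real.cos (α i))) * ∑ x, ‖f x‖ ^ 2) := by
  have hψ0 : ∀ x, 0 < ψ x := fun x => by linarith [(hψ x).1]
  have hc0 : ∀ i, 0 ≤ 2 - 2 * Real.cos (α i) := fun i => by linarith [Real.cos_le_one (α i)]
  constructor
  · intro f
    let g : T d L → ℂ := fun x => f x / (ψ x : ℂ)
    have hfg : f = fun x => (ψ x : ℂ) * g x := by
      funext x
      have : (ψ x : ℂ) ≠ 0 := by exact_mod_cast (hψ0 x).ne'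
      show f x = (ψ x : ℂ) * (f x / (ψ x : ℂ))
      field_simp
    have hfx : ∀ x, ‖f x‖ ^ 2 ≤ (1 + η) ^ 2 * ‖g x‖ ^ 2 := by
      intro x
      have h1 : ‖f x‖ ^ 2 = ψ x ^ 2 * ‖g x‖ ^ 2 := by
        rw [hfg]
        show ‖(ψ x : ℂ) * g x‖ ^ 2 = _
        rw [norm_mul, mul_pow, Complex.norm_real, Real.norm_eq_abs, sq_abs]
      rw [h1]
      apply mul_le_mul_of_nonneg_right _ (sq_nonneg _)
      exact pow_le_pow_left₀ (hψ0 x).le (hψ x).2 2
    have hrep : Tw lam V α f - E0 * ∑ x, ‖f x‖ ^ 2 =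
      ∑ x, ∑ i : Fin d, ψ x * ψ (x + Pi.single i 1) *
        ‖g x - Complex.exp ((α i : ℂ) * Complex.I) * g (x + Pi.single i 1)‖ ^ 2 := by
      rw [← repr lam E0 V ψ heig α g, ← hfg]
      rw [show (∑ x, ‖f x‖ ^ 2) = ∑ x, ‖(ψ x : ℂ) * g x‖ ^ 2 from
        Finset.sum_congr rfl fun x _ => by rw [congrFun hfg x]]
    rw [hrep]
    calc (1 / (1 + η) ^ 2) * (∑ i, (2 - 2 * Real.cos (α i))) * ∑ x, ‖f x‖ ^ 2
        ≤ (1 / (1 + η) ^ 2) * (∑ i, (2 - 2 * Real.cos (α i))) *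
          ∑ x, (1 + η) ^ 2 * ‖g x‖ ^ 2 := by
          apply mul_le_mul_of_nonneg_left (Finset.sum_le_sum fun x _ => hfx x)
          exact mul_nonneg (by positivity) (Finset.sum_nonneg fun i _ => hc0 i)
      _ = ∑ i, (2 - 2 * Real.cos (α i)) * ∑ x, ‖g x‖ ^ 2 := by
          rw [← Finset.mul_sum, ← Finset.sum_mul]
          have : (1 + η) ^ 2 ≠ 0 := by positivity
          field_simp
      _ ≤ ∑ i, ∑ x, ‖g x - Complex.exp ((α i : ℂ) * Complex.I) *
            g (x + Pi.single i 1)‖ ^ 2 :=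
          Finset.sum_le_sum fun i _ => dir i (α i) (hα i) g
      _ = ∑ x, ∑ i, ‖g x - Complex.exp ((α i : ℂ) * Complex.I) *
            g (x + Pi.single i 1)‖ ^ 2 := Finset.sum_comm
      _ ≤ _ := by
          refine Finset.sum_le_sum fun x _ => Finset.sum_le_sum fun i _ => ?_
          have a1 := (hψ x).1
          have a2 := (hψ (x + Pi.single i 1)).1
          have a3 : 1 ≤ ψ x * ψ (x + Pi.single i 1) := by nlinarith
          nlinarith [sq_nonneg ‖g x - Complex.exp ((α i : ℂ) * Complex.I) *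
            g (x + Pi.single i 1)‖]
  · refine ⟨fun x => (ψ x : ℂ) * 1, ?_, ?_⟩
    · intro h
      have h1 := congrFun h 0
      simp only [mul_one, Pi.zero_apply, Complex.ofReal_eq_zero] at h1
      exact (hψ0 0).ne' h1
    · rw [repr lam E0 V ψ heig α (fun _ => 1), Finset.mul_sum]
      refine Finset.sum_le_sum fun x _ => ?_
      have h1 : ∀ i, ‖(1 : ℂ) - Complex.exp ((α i : ℂ) * Complex.I) * 1‖ ^ 2 =
          2 - 2 * Real.cos (α i) := fun i => by rw [mul_one, norm_one_sub]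
      simp only [h1]
      have h2 : ‖(ψ x : ℂ) * 1‖ ^ 2 = ψ x ^ 2 := by
        rw [mul_one, Complex.norm_real, Real.norm_eq_abs, sq_abs]
      rw [h2, mul_assoc, mul_comm (∑ i, (2 - 2 * Real.cos (α i))) (ψ x ^ 2), ← mul_assoc,
        Finset.mul_sum]
      refine Finset.sum_le_sum fun i _ => ?_
      apply mul_le_mul_of_nonneg_right _ (hc0 i)
      have a1 := hψ x
      have a2 := hψ (x + Pi.single i 1)
      have a3 : ψ x * ψ (x + Pi.single i 1) ≤ (1 + η) * (1 + η) :=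
        mul_le_mul a1.2 a2.2 (hψ0 _).le (by linarith)
      have a4 : 1 ≤ ψ x ^ 2 := one_le_pow₀ a1.1
      nlinarith [sq_nonneg (1 + η)]

end Twist
end Pool.Agent.H4R2.AE
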