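import Pool.Agent.H4R2.AE.Defs

set_option autoImplicit false

open scoped BigOperators
open MeasureTheory ProbabilityTheory

namespace Pool.Agent.H4R2.AE
namespace Upper

/-! ### deterministic part -/

lemma shift {d L : ℕ} [NeZero L] (F : T d L → ℝ) (a : T d L) : ∑ x, F (x + a) = ∑ x, F x :=
  Equiv.sum_comp (Equiv.addRight a) F

lemma shift' {d L : ℕ} [NeZero L] (F : T d L → ℝ) (a : T d L) : ∑ x, F (x - a) = ∑ x, F x :=
  Equiv.sum_comp (Equiv.subRight a) F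

lemma sum_hop {d L : ℕ} [NeZero L] (lam : ℝ) (V ψ : T d L → ℝ) :
    ∑ x, Hop lam V ψ x = lam * ∑ x, V x * ψ x := by
  unfold Hop
  rw [Finset.sum_add_distrib, Finset.sum_comm]
  have h : ∀ i : Fin d, ∑ x : T d L, (2 * ψ x - ψ (x + Pi.single i 1) - ψ (x - Pi.single i 1)) = 0 := by
    intro i
    rw [Finset.sum_sub_distrib, Finset.sum_sub_distrib, shift, shift', ← Finset.mul_sum]
    ring
  rw [Finset.sum_eq_zero fun i _ => h i, zero_add, Finset.mul_sum]
  exact Finset.sum_congr rfl fun x _ => by ring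

lemma low_E0 {d L : ℕ} [NeZero L] (lam : ℝ) (hlam : 0 < lam) (V ψ : T d L → ℝ) (η E0 c : ℝ)
    (hη : 0 ≤ η) (hc : c ≤ 1) (hV : ∀ x, |V x| ≤ 1) (hψ : ∀ x, 1 ≤ ψ x ∧ ψ x ≤ 1 + η)
    (hE : ∀ x, Hop lam V ψ x = E0 * ψ x) (hm : c * (Fintype.card (T d L) : ℝ) ≤ ∑ x, V x) :
    lam * (c - 2 * η) ≤ E0 := by
  set N : ℝ := (Fintype.card (T d L) : ℝ) with hN
  set S : ℝ := ∑ x, ψ x with hS
  have hNpos : 0 < N := by
    rw [hN]
    exact_mod_cast Fintype.card_pos
  have hNS : N ≤ S := by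
    have : ∑ x : T d L, (1 : ℝ) ≤ S := Finset.sum_le_sum fun x _ => (hψ x).1
    simpa [hN] using this
  have h1 : E0 * S = lam * ∑ x, V x * ψ x := by
    rw [← sum_hop, hS, Finset.mul_sum]
    exact Finset.sum_congr rfl fun x _ => (hE x).symm
  have h2 : ∑ x, (V x - c) * ψ x = ∑ x, V x * ψ x - c * S := by
    rw [hS, Finset.mul_sum, ← Finset.sum_sub_distrib]
    exact Finset.sum_congr rfl fun x _ => by ring
  have h3 : -(2 * η) * N ≤ ∑ x, (V x - c) * ψ x := by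
    have h4 : ∑ x : T d L, ((V x - c) + (-(2 * η))) ≤ ∑ x, (V x - c) * ψ x := by
      refine Finset.sum_le_sum fun x _ => ?_
      have hv := abs_le.1 (hV x)
      have hp := hψ x
      nlinarith [mul_nonneg (by linarith [hv.1] : (0 : ℝ) ≤ V x - c + 2) (by linarith [hp.1] : (0 : ℝ) ≤ ψ x - 1)]
    rw [Finset.sum_add_distrib, Finset.sum_sub_distrib] at h4
    simp only [Finset.sum_const, Finset.card_univ, nsmul_eq_mul] at h4
    rw [← hN] at h4
    nlinarith
  have hSpos : 0 < S := lt_of_lt_of_le hNpos hNS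
  have h5 : lam * (c - 2 * η) * S ≤ E0 * S := by
    rw [h1]
    have h6 : ∑ x, V x * ψ x ≥ c * S - 2 * η * N := by linarith
    have h7 : 2 * η * N ≤ 2 * η * S := by nlinarith
    nlinarith
  exact le_of_mul_le_mul_right h5 hSpos

lemma ground {d L : ℕ} [NeZero L] (lam : ℝ) (V ψ : T d L → ℝ) (E0 : ℝ)
    (hψ : ∀ x, 0 < ψ x) (hE : ∀ x, Hop lam V ψ x = E0 * ψ x) (f : T d L → ℝ) :
    E0 * ∑ x, f x ^ 2 ≤ ∑ x, f x * Hop lam V f x := by
  set g : T d L → ℝ := fun x => f x / ψ x with hg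
  have hf : ∀ x, f x = ψ x * g x := fun x => by
    rw [hg]; field_simp [(hψ x).ne']
  have key : ∀ x, f x * Hop lam V f x - E0 * f x ^ 2 = ∑ i : Fin d,
      (ψ x * ψ (x + Pi.single i 1) * (g x - g (x + Pi.single i 1)) * g x -
       ψ (x - Pi.single i 1) * ψ x * (g (x - Pi.single i 1) - g x) * g x) := by
    intro x
    have h1 : E0 * f x ^ 2 = g x * f x * Hop lam V ψ x := by
      rw [hE x, hf x]; ring
    rw [h1]
    unfold Hop
    rw [hf x]
    simp only [mul_add, Finset.mul_sum]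
    have h2 : ∀ i : Fin d, f (x + Pi.single i 1) = ψ (x + Pi.single i 1) * g (x + Pi.single i 1) :=
      fun i => hf _
    have h3 : ∀ i : Fin d, f (x - Pi.single i 1) = ψ (x - Pi.single i 1) * g (x - Pi.single i 1) :=
      fun i => hf _
    simp only [h2, h3]
    have h4 : ∀ a b a' b' c c' : ℝ, c = c' → a + c - (b + c') = a - b := by
      intros; subst_vars; ring
    rw [h4 _ _ 0 0 _ _ (by ring), ← Finset.sum_sub_distrib]
    exact Finset.sum_congr rfl fun i _ => by ring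
  have hsum : ∑ x, f x * Hop lam V f x - E0 * ∑ x, f x ^ 2 = ∑ i : Fin d, ∑ x : T d L,
      ψ x * ψ (x + Pi.single i 1) * (g x - g (x + Pi.single i 1)) ^ 2 := by
    rw [Finset.mul_sum, ← Finset.sum_sub_distrib, Finset.sum_congr rfl fun x _ => key x,
      Finset.sum_comm]
    refine Finset.sum_congr rfl fun i _ => ?_
    rw [Finset.sum_sub_distrib]
    have h5 : ∑ x : T d L, ψ (x - Pi.single i 1) * ψ x * (g (x - Pi.single i 1) - g x) * g x =
        ∑ x : T d L, ψ x * ψ (x + Pi.single i 1) * (g x - g (x + Pi.single i 1)) *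
          g (x + Pi.single i 1) := by
      refine (shift (fun x => ψ (x - Pi.single i 1) * ψ x * (g (x - Pi.single i 1) - g x) * g x)
        (Pi.single i 1)).symm.trans ?_
      refine Finset.sum_congr rfl fun x _ => ?_
      simp only [add_sub_cancel_right]
    rw [h5, ← Finset.sum_sub_distrib]
    exact Finset.sum_congr rfl fun x _ => by ring
  have hnn : 0 ≤ ∑ i : Fin d, ∑ x : T d L,
      ψ x * ψ (x + Pi.single i 1) * (g x - g (x + Pi.single i 1)) ^ 2 :=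
    Finset.sum_nonneg fun i _ => Finset.sum_nonneg fun x _ =>
      mul_nonneg (mul_pos (hψ _) (hψ _)).le (sq_nonneg _)
  linarith

lemma quad {d L : ℕ} [NeZero L] (lam : ℝ) (V f : T d L → ℝ) :
    ∑ x, f x * Hop lam V f x = ∑ i : Fin d, ∑ x, (f (x + Pi.single i 1) - f x) ^ 2 +
      lam * ∑ x, V x * f x ^ 2 := by
  unfold Hop
  simp only [mul_add, Finset.mul_sum, Finset.sum_add_distrib]
  congr 1
  · rw [Finset.sum_comm]
    refine Finset.sum_congr rfl fun i _ => ?_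
    have h1 : ∑ x : T d L, f x * f (x - Pi.single i 1) = ∑ x : T d L, f (x + Pi.single i 1) * f x := by
      refine (shift (fun x => f x * f (x - Pi.single i 1)) (Pi.single i 1)).symm.trans ?_
      refine Finset.sum_congr rfl fun x _ => ?_
      simp only [add_sub_cancel_right]
    have h2 : ∑ x : T d L, f (x + Pi.single i 1) ^ 2 = ∑ x : T d L, f x ^ 2 :=
      shift (fun x => f x ^ 2) _
    have h3 : ∑ x : T d L, f x * (2 * f x - f (x + Pi.single i 1) - f (x - Pi.single i 1)) =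
        2 * ∑ x : T d L, f x ^ 2 - ∑ x : T d L, f (x + Pi.single i 1) * f x -
          ∑ x : T d L, f x * f (x - Pi.single i 1) := by
      rw [Finset.mul_sum, ← Finset.sum_sub_distrib, ← Finset.sum_sub_distrib]
      exact Finset.sum_congr rfl fun x _ => by ring
    have h4 : ∑ x : T d L, (f (x + Pi.single i 1) - f x) ^ 2 =
        ∑ x : T d L, f (x + Pi.single i 1) ^ 2 + ∑ x : T d L, f x ^ 2 -
          2 * ∑ x : T d L, f (x + Pi.single i 1) * f x := by
      rw [Finset.mul_sum, ← Finset.sum_add_distrib, ← Finset.sum_sub_distrib]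
      exact Finset.sum_congr rfl fun x _ => by ring
    rw [h3, h4, h1, h2]
    ring
  · exact Finset.sum_congr rfl fun x _ => by ring

/-! ### one-dimensional tent functions -/

/-- tent of height `2ρ` on `[4ρb, 4ρ(b+1)]` -/
noncomputable def H (ρ b n : ℕ) : ℝ := max 0 (2 * (ρ : ℝ) - |(n : ℝ) - 4 * ρ * b - 2 * ρ|)

lemma H_nonneg (ρ b n : ℕ) : 0 ≤ H ρ b n := le_max_left _ _

lemma H_zero_left (ρ b n : ℕ) (h : n ≤ 4 * ρ * b) : H ρ b n = 0 := by
  unfold H
  apply max_eq_left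
  have h' : (n : ℝ) ≤ 4 * ρ * b := by exact_mod_cast h
  have := neg_abs_le ((n : ℝ) - 4 * ρ * b - 2 * ρ)
  linarith [neg_le_abs ((n : ℝ) - 4 * ρ * b - 2 * ρ)]

lemma H_zero_right (ρ b n : ℕ) (h : 4 * ρ * (b + 1) ≤ n) : H ρ b n = 0 := by
  unfold H
  apply max_eq_left
  have h' : 4 * (ρ : ℝ) * (b + 1) ≤ (n : ℝ) := by exact_mod_cast h
  linarith [le_abs_self ((n : ℝ) - 4 * ρ * b - 2 * ρ)]

lemma H_lip (ρ b n : ℕ) : (H ρ b (n + 1) - H ρ b n) ^ 2 ≤ 1 := by
  rw [sq_le_one_iff_abs_le_one]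
  unfold H
  have h1 := abs_sub_abs_le_abs_sub ((n : ℝ) - 4 * ρ * b - 2 * ρ) (((n + 1 : ℕ) : ℝ) - 4 * ρ * b - 2 * ρ)
  have h2 := abs_sub_abs_le_abs_sub (((n + 1 : ℕ) : ℝ) - 4 * ρ * b - 2 * ρ) ((n : ℝ) - 4 * ρ * b - 2 * ρ)
  have h3 : ((n : ℝ) - 4 * ρ * b - 2 * ρ) - (((n + 1 : ℕ) : ℝ) - 4 * ρ * b - 2 * ρ) = -1 := by
    push_cast; ring
  have h4 : (((n + 1 : ℕ) : ℝ) - 4 * ρ * b - 2 * ρ) - ((n : ℝ) - 4 * ρ * b - 2 * ρ) = 1 := by
    push_cast; ring
  rw [h3, abs_neg, abs_one] at h1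
  rw [h4, abs_one] at h2
  rw [abs_le]
  constructor
  · rcases max_cases (0 : ℝ) (2 * (ρ : ℝ) - |((n + 1 : ℕ) : ℝ) - 4 * ρ * b - 2 * ρ|) with h | h <;>
    rcases max_cases (0 : ℝ) (2 * (ρ : ℝ) - |(n : ℝ) - 4 * ρ * b - 2 * ρ|) with h' | h' <;>
    linarith [h.1, h.2, h'.1, h'.2]
  · rcases max_cases (0 : ℝ) (2 * (ρ : ℝ) - |((n + 1 : ℕ) : ℝ) - 4 * ρ * b - 2 * ρ|) with h | h <;>
    rcases max_cases (0 : ℝ) (2 * (ρ : ℝ) - |(n : ℝ) - 4 * ρ * b - 2 * ρ|) with h' | h' <;>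
    linarith [h.1, h.2, h'.1, h'.2]

lemma H_low (ρ b n : ℕ) (h1 : 4 * ρ * b + ρ ≤ n) (h2 : n ≤ 4 * ρ * b + 3 * ρ) :
    (ρ : ℝ) ≤ H ρ b n := by
  unfold H
  apply le_max_of_le_right
  have h1' : 4 * (ρ : ℝ) * b + ρ ≤ (n : ℝ) := by exact_mod_cast h1
  have h2' : (n : ℝ) ≤ 4 * (ρ : ℝ) * b + 3 * ρ := by exact_mod_cast h2
  have : |(n : ℝ) - 4 * ρ * b - 2 * ρ| ≤ ρ := by
    rw [abs_le]; constructor <;> linarith
  linarith

lemma sum_zmod {L : ℕ} [NeZero L] (F : ℕ → ℝ) : ∑ j : ZMod L, F j.val = ∑ n ∈ Finset.range L, F n := by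
  obtain ⟨k, rfl⟩ : ∃ k, L = k + 1 := ⟨L - 1, by have := NeZero.ne L; omega⟩
  exact Fin.sum_univ_eq_sum_range F (k + 1)

/-- the tent on the circle -/
noncomputable def ph (ρ b L : ℕ) (j : ZMod L) : ℝ := H ρ b j.val

lemma ph_sq {L : ℕ} [NeZero L] (ρ b : ℕ) (hb : 4 * ρ * (b + 1) ≤ L) :
    2 * (ρ : ℝ) ^ 3 ≤ ∑ j : ZMod L, ph ρ b L j ^ 2 := by
  unfold ph
  rw [sum_zmod (fun n => H ρ b n ^ 2)]
  have h1 : ∑ n ∈ Finset.Ico (4 * ρ * b + ρ) (4 * ρ * b + 3 * ρ), (ρ : ℝ) ^ 2 ≤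
      ∑ n ∈ Finset.Ico (4 * ρ * b + ρ) (4 * ρ * b + 3 * ρ), H ρ b n ^ 2 := by
    refine Finset.sum_le_sum fun n hn => ?_
    rw [Finset.mem_Ico] at hn
    exact pow_le_pow_left₀ (Nat.cast_nonneg _) (H_low ρ b n hn.1 hn.2.le) 2
  have h2 : ∑ n ∈ Finset.Ico (4 * ρ * b + ρ) (4 * ρ * b + 3 * ρ), H ρ b n ^ 2 ≤
      ∑ n ∈ Finset.range L, H ρ b n ^ 2 := by
    refine Finset.sum_le_sum_of_subset_of_nonneg ?_ fun _ _ _ => sq_nonneg _
    intro n hn
    rw [Finset.mem_Ico] at hn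
    rw [Finset.mem_range]
    nlinarith [hn.2]
  have h3 : ∑ n ∈ Finset.Ico (4 * ρ * b + ρ) (4 * ρ * b + 3 * ρ), (ρ : ℝ) ^ 2 = 2 * (ρ : ℝ) ^ 3 := by
    rw [Finset.sum_const, Nat.card_Ico, nsmul_eq_mul]
    have : 4 * ρ * b + 3 * ρ - (4 * ρ * b + ρ) = 2 * ρ := by omega
    rw [this]; push_cast; ring
  linarith

lemma ph_grad {L : ℕ} [NeZero L] (ρ b : ℕ) (hρ : 1 ≤ ρ) (hb : 4 * ρ * (b + 1) ≤ L) :
    ∑ j : ZMod L, (ph ρ b L (j + 1) - ph ρ b L j) ^ 2 ≤ 4 * (ρ : ℝ) := by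
  have hL : 2 ≤ L := by nlinarith
  have hval : ∀ j : ZMod L, (j + 1).val = (j.val + 1) % L := by
    intro j
    rw [ZMod.val_add, ZMod.val_one_eq_one_mod, Nat.mod_eq_of_lt (by omega : 1 < L)]
  unfold ph
  simp only [hval]
  rw [sum_zmod (fun n => (H ρ b ((n + 1) % L) - H ρ b n) ^ 2)]
  have h1 : ∀ n ∈ Finset.range L, (H ρ b ((n + 1) % L) - H ρ b n) ^ 2 =
      (H ρ b (n + 1) - H ρ b n) ^ 2 := by
    intro n hn
    rw [Finset.mem_range] at hn
    rcases Nat.lt_or_ge (n + 1) L with h | h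
    · rw [Nat.mod_eq_of_lt h]
    · have : n + 1 = L := by omega
      rw [this, Nat.mod_self, H_zero_left ρ b 0 (Nat.zero_le _), H_zero_right ρ b L hb]
  rw [Finset.sum_congr rfl h1]
  have h2 : ∑ n ∈ Finset.range L, (H ρ b (n + 1) - H ρ b n) ^ 2 ≤
      ∑ n ∈ Finset.range L, if 4 * ρ * b ≤ n ∧ n < 4 * ρ * (b + 1) then (1 : ℝ) else 0 := by
    refine Finset.sum_le_sum fun n _ => ?_
    split_ifs with h
    · exact H_lip ρ b n
    · rw [not_and_or, not_le, not_lt] at h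
      rcases h with h | h
      · rw [H_zero_left ρ b n h.le, H_zero_left ρ b (n + 1) (by omega)]; simp
      · rw [H_zero_right ρ b n h, H_zero_right ρ b (n + 1) (by omega)]; simp
  refine h2.trans ?_
  rw [← Finset.sum_filter, Finset.sum_const, nsmul_eq_mul, mul_one]
  have h3 : (Finset.filter (fun n => 4 * ρ * b ≤ n ∧ n < 4 * ρ * (b + 1)) (Finset.range L)).card ≤
      4 * ρ := by
    have : Finset.filter (fun n => 4 * ρ * b ≤ n ∧ n < 4 * ρ * (b + 1)) (Finset.range L) ⊆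
        Finset.Ico (4 * ρ * b) (4 * ρ * b + 4 * ρ) := by
      intro n hn
      rw [Finset.mem_filter] at hn
      rw [Finset.mem_Ico]
      constructor
      · exact hn.2.1
      · have := hn.2.2
        nlinarith
    refine (Finset.card_le_card this).trans ?_
    rw [Nat.card_Ico]; omega
  exact_mod_cast h3

/-! ### the product function -/

/-- product function -/
noncomputable def pf {d L : ℕ} (φ : Fin d → ZMod L → ℝ) (x : T d L) : ℝ := ∏ k, φ k (x k)

lemma pf_sq {d L : ℕ} [NeZero L] (φ : Fin d → ZMod L → ℝ) :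
    ∑ x : T d L, pf φ x ^ 2 = ∏ k, ∑ j, φ k j ^ 2 := by
  rw [Finset.prod_univ_sum, Fintype.piFinset_univ]
  refine Finset.sum_congr rfl fun x _ => ?_
  unfold pf
  rw [Finset.prod_pow]

lemma pf_diff {d L : ℕ} [NeZero L] (φ : Fin d → ZMod L → ℝ) (i : Fin d) (x : T d L) :
    pf φ (x + Pi.single i 1) - pf φ x =
      pf (Function.update φ i (fun j => φ i (j + 1) - φ i j)) x := by
  unfold pf
  rw [← Finset.mul_prod_erase Finset.univ _ (Finset.mem_univ i),
    ← Finset.mul_prod_erase Finset.univ (fun k => φ k (x k)) (Finset.mem_univ i),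
    ← Finset.mul_prod_erase Finset.univ (fun k => (Function.update φ i (fun j => φ i (j + 1) - φ i j)) k (x k)) (Finset.mem_univ i)]
  have h1 : ∏ k ∈ Finset.univ.erase i, φ k ((x + Pi.single i 1 : T d L) k) = ∏ k ∈ Finset.univ.erase i, φ k (x k) := by
    refine Finset.prod_congr rfl fun k hk => ?_
    rw [Pi.add_apply, Pi.single_eq_of_ne (Finset.ne_of_mem_erase hk), add_zero]
  have h2 : ∏ k ∈ Finset.univ.erase i, (Function.update φ i (fun j => φ i (j + 1) - φ i j)) k (x k) =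
      ∏ k ∈ Finset.univ.erase i, φ k (x k) := by
    refine Finset.prod_congr rfl fun k hk => ?_
    rw [Function.update_of_ne (Finset.ne_of_mem_erase hk)]
  rw [h1, h2, Function.update_self, Pi.add_apply, Pi.single_eq_same]
  ring

lemma pf_energy {d L : ℕ} [NeZero L] (φ : Fin d → ZMod L → ℝ) (a : ℝ)
    (h : ∀ k, ∑ j : ZMod L, (φ k (j + 1) - φ k j) ^ 2 ≤ a * ∑ j, φ k j ^ 2) :
    ∑ i : Fin d, ∑ x : T d L, (pf φ (x + Pi.single i 1) - pf φ x) ^ 2 ≤
      d * a * ∑ x : T d L, pf φ x ^ 2 := by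
  have h1 : ∀ i : Fin d, ∑ x : T d L, (pf φ (x + Pi.single i 1) - pf φ x) ^ 2 ≤
      a * ∑ x : T d L, pf φ x ^ 2 := by
    intro i
    simp only [pf_diff]
    rw [pf_sq, pf_sq, ← Finset.mul_prod_erase Finset.univ _ (Finset.mem_univ i),
      ← Finset.mul_prod_erase Finset.univ (fun k => ∑ j, φ k j ^ 2) (Finset.mem_univ i)]
    have h2 : ∏ k ∈ Finset.univ.erase i, ∑ j, (Function.update φ i (fun j => φ i (j + 1) - φ i j)) k j ^ 2 =
        ∏ k ∈ Finset.univ.erase i, ∑ j, φ k j ^ 2 := by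
      refine Finset.prod_congr rfl fun k hk => ?_
      rw [Function.update_of_ne (Finset.ne_of_mem_erase hk)]
    rw [h2, Function.update_self, ← mul_assoc]
    exact mul_le_mul_of_nonneg_right (h i) (Finset.prod_nonneg fun k _ => Finset.sum_nonneg fun j _ => sq_nonneg _)
  calc _ ≤ ∑ i : Fin d, a * ∑ x : T d L, pf φ x ^ 2 := Finset.sum_le_sum fun i _ => h1 i
    _ = d * a * ∑ x : T d L, pf φ x ^ 2 := by
      rw [Finset.sum_const, Finset.card_univ, Fintype.card_fin, nsmul_eq_mul]; ring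

/-- block coordinates -/
def cb {d : ℕ} (b : ℕ) (k : Fin d) : ℕ := if (k : ℕ) = 0 then b else 0

lemma cb_le {d : ℕ} (b : ℕ) (k : Fin d) : cb b k ≤ b := by
  unfold cb; split_ifs <;> omega

/-- blocks of side `s` -/
noncomputable def Sb (d L s : ℕ) [NeZero L] (b : ℕ) : Finset (T d L) :=
  Finset.univ.filter fun x => ∀ k, (x k).val / s = cb b k

lemma Sb_disj (d L s : ℕ) [NeZero L] (hd : 1 ≤ d) (a b : ℕ) (hab : a ≠ b) :
    Disjoint (Sb d L s a) (Sb d L s b) := by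
  rw [Finset.disjoint_left]
  intro x hx hx'
  unfold Sb at hx hx'
  rw [Finset.mem_filter] at hx hx'
  apply hab
  have h1 := hx.2 ⟨0, hd⟩
  have h2 := hx'.2 ⟨0, hd⟩
  rw [h1] at h2
  simpa [cb] using h2

lemma Sb_card (d L s : ℕ) [NeZero L] (hs : 1 ≤ s) (b : ℕ) : (Sb d L s b).card ≤ s ^ d := by
  have h := Finset.card_le_card_of_injOn (s := Sb d L s b) (t := (Finset.univ : Finset (Fin d → Fin s)))
    (fun x k => ⟨(x k).val % s, Nat.mod_lt _ hs⟩) (fun x _ => Finset.mem_coe.2 (Finset.mem_univ _)) ?_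
  · simpa using h
  · intro x hx y hy hxy
    have hx' : ∀ k, (x k).val / s = cb b k := by
      simpa [Sb] using hx
    have hy' : ∀ k, (y k).val / s = cb b k := by
      simpa [Sb] using hy
    funext k
    apply ZMod.val_injective
    have h1 : (x k).val % s = (y k).val % s := by
      have := congrFun hxy k
      simpa using this
    rw [← Nat.div_add_mod (x k).val s, ← Nat.div_add_mod (y k).val s, hx' k, hy' k, h1]

lemma up_E0 {d L : ℕ} [NeZero L] (lam : ℝ) (hlam : 0 ≤ lam) (V ψ : T d L → ℝ) (E0 : ℝ)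
    (hψ : ∀ x, 0 < ψ x) (hE : ∀ x, Hop lam V ψ x = E0 * ψ x) (ρ b : ℕ) (hρ : 1 ≤ ρ)
    (hb : 4 * ρ * (b + 1) ≤ L) (v : ℝ) (hv : ∀ x ∈ Sb d L (4 * ρ) b, V x ≤ v) :
    E0 ≤ d * (2 / (ρ : ℝ) ^ 2) + lam * v := by
  set φ : Fin d → ZMod L → ℝ := fun k => ph ρ (cb b k) L with hφ
  have hb' : ∀ k : Fin d, 4 * ρ * (cb b k + 1) ≤ L := fun k =>
    le_trans (Nat.mul_le_mul_left _ (by have := cb_le b k; omega)) hb
  have hρ' : (0 : ℝ) < ρ := by exact_mod_cast hρ
  have hpos : 0 < ∑ x : T d L, pf φ x ^ 2 := by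
    rw [pf_sq]
    refine Finset.prod_pos fun k _ => lt_of_lt_of_le (by positivity) (ph_sq ρ (cb b k) (hb' k))
  have hen := pf_energy φ (2 / (ρ : ℝ) ^ 2) (fun k => by
    have h1 := ph_grad ρ (cb b k) hρ (hb' k)
    have h2 := ph_sq ρ (cb b k) (hb' k)
    refine h1.trans ?_
    have h3 : 4 * (ρ : ℝ) = 2 / (ρ : ℝ) ^ 2 * (2 * (ρ : ℝ) ^ 3) := by field_simp; ring
    rw [h3]
    exact mul_le_mul_of_nonneg_left h2 (by positivity))
  have hg := ground lam V ψ E0 hψ hE (pf φ)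
  rw [quad] at hg
  have hV : ∑ x : T d L, V x * pf φ x ^ 2 ≤ v * ∑ x : T d L, pf φ x ^ 2 := by
    rw [Finset.mul_sum]
    refine Finset.sum_le_sum fun x _ => ?_
    by_cases hx : pf φ x = 0
    · rw [hx]; simp
    · refine mul_le_mul_of_nonneg_right (hv x ?_) (sq_nonneg _)
      unfold Sb
      rw [Finset.mem_filter]
      refine ⟨Finset.mem_univ _, fun k => ?_⟩
      have h1 : φ k (x k) ≠ 0 := by
        intro h
        exact hx (Finset.prod_eq_zero (Finset.mem_univ k) h)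
      have h2 : 4 * ρ * cb b k < (x k).val := by
        by_contra h
        exact h1 (H_zero_left ρ _ _ (by omega))
      have h3 : (x k).val < 4 * ρ * (cb b k + 1) := by
        by_contra h
        exact h1 (H_zero_right ρ _ _ (by omega))
      rw [Nat.div_eq_iff (by omega)]
      constructor
      · rw [mul_comm]; exact h2.le
      · have : 4 * ρ * (cb b k + 1) = cb b k * (4 * ρ) + 4 * ρ := by ring
        omega
  have h4 : E0 * ∑ x : T d L, pf φ x ^ 2 ≤ (d * (2 / (ρ : ℝ) ^ 2) + lam * v) * ∑ x : T d L, pf φ x ^ 2 := by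
    have := mul_le_mul_of_nonneg_left hV hlam
    nlinarith
  exact le_of_mul_le_mul_right h4 hpos

/-! ### probability -/

lemma all_in {ι : Type} [Fintype ι] [DecidableEq ι] (μ : Measure ℝ) [IsProbabilityMeasure μ]
    (A : Set ℝ) (S : Finset ι) :
    (Measure.pi fun _ : ι => μ).real {V | ∀ x ∈ S, V x ∈ A} = μ.real A ^ S.card := by
  have h : {V : ι → ℝ | ∀ x ∈ S, V x ∈ A} = Set.pi Set.univ (fun x => if x ∈ S then A else Set.univ) := by
    ext V
    simp only [Set.mem_ofPred_eq, Set.mem_pi, Set.mem_univ, true_imp_iff]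
    refine forall_congr' fun x => ?_
    by_cases hx : x ∈ S <;> simp [hx]
  rw [h, Measure.real, Measure.pi_pi, ENNReal.toReal_prod]
  rw [← Finset.prod_subset (Finset.subset_univ S) (fun x _ hx => by rw [if_neg hx]; simp)]
  rw [Finset.prod_congr rfl (fun x hx => by rw [if_pos hx]), Finset.prod_const]
  rfl

lemma blocks {ι : Type} [Fintype ι] [DecidableEq ι] (μ : Measure ℝ) [IsProbabilityMeasure μ]
    (A : Set ℝ) (hA : MeasurableSet A) (S : ℕ → Finset ι)
    (hS : ∀ a b, a ≠ b → Disjoint (S a) (S b)) (n : ℕ) (hn : ∀ b, (S b).card ≤ n) (M : ℕ) :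
    (Measure.pi fun _ : ι => μ).real {V | ∀ b < M, ∃ x ∈ S b, V x ∉ A} ≤ (1 - μ.real A ^ n) ^ M := by
  induction M with
  | zero => simp
  | succ M ih =>
    set P := Measure.pi fun _ : ι => μ with hP
    set U : Finset ι := (Finset.range M).biUnion S with hU
    have hdis : Disjoint U (S M) := by
      rw [hU, Finset.disjoint_biUnion_left]
      intro b hb
      rw [Finset.mem_range] at hb
      exact hS b M hb.ne
    have hind : iIndepFun (fun (i : ι) (V : ι → ℝ) => V i) P :=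
      iIndepFun_pi (μ := fun _ : ι => μ) (X := fun _ (v : ℝ) => v) fun i => aemeasurable_id
    have hI := hind.indepFun_finset U (S M) hdis (fun i => measurable_pi_apply i)
    set E' : Set (U → ℝ) := {W | ∀ b ∈ Finset.range M, ∃ y : U, (y : ι) ∈ S b ∧ W y ∉ A} with hE'
    set F' : Set (S M → ℝ) := {W | ∃ y : S M, W y ∉ A} with hF'
    have hE'm : MeasurableSet E' := by
      have : E' = ⋂ b ∈ Finset.range M, ⋃ y : U, {W : U → ℝ | (y : ι) ∈ S b ∧ W y ∉ A} := by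
        ext W; simp [hE']
      rw [this]
      refine Finset.measurableSet_biInter _ fun b _ => MeasurableSet.iUnion fun y => ?_
      by_cases hy : (y : ι) ∈ S b
      · have : {W : U → ℝ | (y : ι) ∈ S b ∧ W y ∉ A} = (fun W : U → ℝ => W y) ⁻¹' Aᶜ := by
          ext W; simp [hy]
        rw [this]
        exact (measurable_pi_apply y) hA.compl
      · have : {W : U → ℝ | (y : ι) ∈ S b ∧ W y ∉ A} = ∅ := by
          ext W; simp [hy]
        rw [this]
        exact MeasurableSet.empty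
    have hF'm : MeasurableSet F' := by
      have : F' = ⋃ y : S M, (fun W : S M → ℝ => W y) ⁻¹' Aᶜ := by
        ext W; simp [hF']
      rw [this]
      exact MeasurableSet.iUnion fun y => (measurable_pi_apply y) hA.compl
    have hset : {V : ι → ℝ | ∀ b < M + 1, ∃ x ∈ S b, V x ∉ A} =
        (fun (V : ι → ℝ) (i : U) => V i) ⁻¹' E' ∩ (fun (V : ι → ℝ) (i : S M) => V i) ⁻¹' F' := by
      ext V
      simp only [Set.mem_ofPred_eq, Set.mem_inter_iff, Set.mem_preimage, hE', hF', Finset.mem_range]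
      constructor
      · intro h
        refine ⟨fun b hb => ?_, ?_⟩
        · obtain ⟨x, hx, hxA⟩ := h b (by omega)
          exact ⟨⟨x, Finset.mem_biUnion.2 ⟨b, Finset.mem_range.2 hb, hx⟩⟩, hx, hxA⟩
        · obtain ⟨x, hx, hxA⟩ := h M (by omega)
          exact ⟨⟨x, hx⟩, hxA⟩
      · rintro ⟨h1, ⟨y, hy⟩, hyA⟩ b hb
        rcases Nat.lt_succ_iff_lt_or_eq.1 hb with hb | rfl
        · obtain ⟨y, hy, hyA⟩ := h1 b hb
          exact ⟨y, hy, hyA⟩
        · exact ⟨y, hy, hyA⟩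
    have hset2 : {V : ι → ℝ | ∀ b < M, ∃ x ∈ S b, V x ∉ A} = (fun (V : ι → ℝ) (i : U) => V i) ⁻¹' E' := by
      ext V
      simp only [Set.mem_ofPred_eq, Set.mem_preimage, hE', Finset.mem_range]
      constructor
      · intro h b hb
        obtain ⟨x, hx, hxA⟩ := h b hb
        exact ⟨⟨x, Finset.mem_biUnion.2 ⟨b, Finset.mem_range.2 hb, hx⟩⟩, hx, hxA⟩
      · intro h b hb
        obtain ⟨y, hy, hyA⟩ := h b hb
        exact ⟨y, hy, hyA⟩
    have hmul := hI.measure_inter_preimage_eq_mul E' F' hE'm hF'm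
    rw [hset, Measure.real, hmul, ENNReal.toReal_mul, pow_succ]
    have h1 : (P ((fun (V : ι → ℝ) (i : U) => V i) ⁻¹' E')).toReal ≤ (1 - μ.real A ^ n) ^ M := by
      rw [← hset2]; exact ih
    have h2 : (P ((fun (V : ι → ℝ) (i : S M) => V i) ⁻¹' F')).toReal ≤ 1 - μ.real A ^ n := by
      have h3 : (fun (V : ι → ℝ) (i : S M) => V i) ⁻¹' F' = {V : ι → ℝ | ∀ x ∈ S M, V x ∈ A}ᶜ := by
        ext V
        simp [hF']
      have hm : MeasurableSet {V : ι → ℝ | ∀ x ∈ S M, V x ∈ A} := by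
        have : {V : ι → ℝ | ∀ x ∈ S M, V x ∈ A} = ⋂ x ∈ S M, (fun V : ι → ℝ => V x) ⁻¹' A := by
          ext V; simp
        rw [this]
        exact Finset.measurableSet_biInter _ fun x _ => (measurable_pi_apply x) hA
      have h4 := probReal_compl_eq_one_sub (μ := P) hm
      rw [h3]
      change P.real _ ≤ _
      rw [h4, hP, all_in μ A (S M)]
      have := pow_le_pow_of_le_one (measureReal_nonneg (μ := μ) (s := A)) (measureReal_le_one) (hn M)
      linarith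
    exact mul_le_mul h1 h2 ENNReal.toReal_nonneg (pow_nonneg (by
      have := pow_le_one₀ (n := n) (measureReal_nonneg (μ := μ) (s := A)) (measureReal_le_one)
      linarith) _)

lemma cheb {ι : Type} [Fintype ι] [DecidableEq ι] [Nonempty ι] (μ : Measure ℝ) [IsProbabilityMeasure μ]
    (hμ : μ (Set.Icc (-1) 1)ᶜ = 0) (ε : ℝ) (hε : 0 < ε) :
    (Measure.pi fun _ : ι => μ).real {V | ∑ x, V x < ((∫ v, v ∂μ) - ε) * Fintype.card ι} ≤
      1 / (ε ^ 2 * Fintype.card ι) := by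
  set P := Measure.pi fun _ : ι => μ with hP
  set m := ∫ v, v ∂μ with hm
  have hae : ∀ᵐ v ∂μ, v ∈ Set.Icc (-1 : ℝ) 1 := by
    rw [ae_iff]; exact hμ
  have hL : MemLp (fun v : ℝ => v) 2 μ := memLp_of_bounded hae aestronglyMeasurable_id 2
  have hvar : Var[∑ i : ι, fun ω : ι → ℝ => ω i; P] ≤ Fintype.card ι := by
    rw [hP, variance_sum_pi (X := fun (_ : ι) (v : ℝ) => v) (fun _ => hL)]
    have h1 : Var[fun v : ℝ => v; μ] ≤ ((1 - (-1)) / 2) ^ 2 :=
      variance_le_sq_of_bounded hae aemeasurable_id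
    have h2 : Var[fun v : ℝ => v; μ] ≤ 1 := by
      refine h1.trans (by norm_num)
    rw [Finset.sum_const, Finset.card_univ, nsmul_eq_mul]
    nlinarith [(Nat.cast_nonneg (Fintype.card ι) : (0 : ℝ) ≤ _)]
  have hmem : MemLp (∑ i : ι, fun ω : ι → ℝ => ω i) 2 P :=
    memLp_finsetSum' _ fun i _ => hL.comp_measurePreserving (measurePreserving_eval (fun _ : ι => μ) i)
  have hexp : P[∑ i : ι, fun ω : ι → ℝ => ω i] = m * Fintype.card ι := by
    have h1 : ∀ i : ι, Integrable (fun ω : ι → ℝ => ω i) P := fun i =>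
      (hL.comp_measurePreserving (measurePreserving_eval (fun _ : ι => μ) i)).integrable (by norm_num)
    have h2 : ∫ ω, (∑ i : ι, fun ω : ι → ℝ => ω i) ω ∂P = ∑ i : ι, ∫ ω, ω i ∂P := by
      simp only [Finset.sum_apply]
      exact integral_finsetSum _ fun i _ => h1 i
    rw [h2]
    have h3 : ∀ i : ι, ∫ ω, ω i ∂P = m := fun i => integral_eval (μ := fun _ : ι => μ)
    rw [Finset.sum_congr rfl fun i _ => h3 i, Finset.sum_const, Finset.card_univ, nsmul_eq_mul]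
    ring
  have hN : (0 : ℝ) < Fintype.card ι := by exact_mod_cast Fintype.card_pos
  have hc : 0 < ε * Fintype.card ι := by positivity
  have h := meas_ge_le_variance_div_sq hmem hc
  have hsub : {V : ι → ℝ | ∑ x, V x < (m - ε) * Fintype.card ι} ⊆
      {ω | ε * Fintype.card ι ≤ |(∑ i : ι, fun ω : ι → ℝ => ω i) ω - P[∑ i : ι, fun ω : ι → ℝ => ω i]|} := by
    intro V hV
    simp only [Set.mem_ofPred_eq] at hV ⊢
    rw [hexp, Finset.sum_apply, le_abs]
    right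
    linarith
  have h5 : P.real {V : ι → ℝ | ∑ x, V x < (m - ε) * Fintype.card ι} ≤
      Var[∑ i : ι, fun ω : ι → ℝ => ω i; P] / (ε * Fintype.card ι) ^ 2 := by
    rw [Measure.real]
    exact ENNReal.toReal_le_of_le_ofReal (div_nonneg (variance_nonneg _ _) (sq_nonneg _))
      ((measure_mono hsub).trans h)
  refine h5.trans ?_
  rw [div_le_div_iff₀ (by positivity) (by positivity)]
  nlinarith [mul_le_mul_of_nonneg_right hvar (by positivity : (0 : ℝ) ≤ ε ^ 2 * Fintype.card ι)]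

lemma nondeg (μ : Measure ℝ) [IsProbabilityMeasure μ] (hμ : μ (Set.Icc (-1) 1)ᶜ = 0)
    (hnd : ∀ a : ℝ, μ {a} ≠ 1) :
    ∃ ε : ℝ, 0 < ε ∧ 0 < μ.real (Set.Iic ((∫ v, v ∂μ) - 4 * ε)) := by
  by_contra hcon
  push Not at hcon
  set m := ∫ v, v ∂μ with hm
  have hae : ∀ᵐ v ∂μ, v ∈ Set.Icc (-1 : ℝ) 1 := by
    rw [ae_iff]; exact hμ
  have hint : Integrable (fun v : ℝ => v) μ :=
    (memLp_of_bounded hae aestronglyMeasurable_id 2).integrable (by norm_num)
  have h0 : μ (Set.Iio m) = 0 := by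
    have h1 : Set.Iio m ⊆ ⋃ n : ℕ, Set.Iic (m - 4 * (1 / ((n : ℝ) + 1))) := by
      intro v hv
      rw [Set.mem_Iio] at hv
      obtain ⟨n, hn⟩ := exists_nat_one_div_lt (show (0 : ℝ) < (m - v) / 4 by linarith)
      rw [Set.mem_iUnion]
      refine ⟨n, ?_⟩
      rw [Set.mem_Iic]
      linarith
    refine measure_mono_null h1 (measure_iUnion_null fun n => ?_)
    have h2 := hcon (1 / ((n : ℝ) + 1)) (by positivity)
    have h3 : μ.real (Set.Iic (m - 4 * (1 / ((n : ℝ) + 1)))) = 0 := le_antisymm h2 measureReal_nonneg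
    exact (measureReal_eq_zero_iff).1 h3
  have h1 : 0 ≤ᵐ[μ] fun v : ℝ => v - m := by
    have : ∀ᵐ v ∂μ, v ∉ Set.Iio m := measure_eq_zero_iff_ae_notMem.1 h0
    filter_upwards [this] with v hv
    rw [Set.mem_Iio, not_lt] at hv
    simpa using hv
  have h2 : ∫ v, (v - m) ∂μ = 0 := by
    rw [integral_sub hint (integrable_const m)]
    simp [hm]
  have h3 := (integral_eq_zero_iff_of_nonneg_ae h1 (hint.sub (integrable_const m))).1 h2
  apply hnd m
  have h4 : ∀ᵐ v ∂μ, v ∈ ({m} : Set ℝ) := by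
    filter_upwards [h3] with v hv
    simp only [Pi.zero_apply] at hv
    rw [Set.mem_singleton_iff]; linarith
  exact (mem_ae_iff_prob_eq_one (measurableSet_singleton m)).1 h4

lemma numeric (d : ℕ) (hd : 1 ≤ d) (q ε : ℝ) (hq : 0 < q) (hq1 : q ≤ 1) (hε : 0 < ε) :
    ∃ C : ℝ, 0 < C ∧ ∀ lam : ℝ, 0 < lam → lam ≤ 1 → ∀ L : ℕ,
      Real.exp (C / Real.sqrt lam ^ d) ≤ (L : ℝ) → ∃ ρ : ℕ, 1 ≤ ρ ∧
        (d : ℝ) * (2 / (ρ : ℝ) ^ 2) ≤ ε * lam ∧
        (1 - q ^ (4 * ρ) ^ d) ^ (L / (4 * ρ)) ≤ 1 / (2 * (L : ℝ)) ∧ 2 / ε ≤ (L : ℝ) ∧ 2 ≤ L := by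
  set a : ℝ := Real.sqrt (2 * d / ε) with ha
  have hd0 : (0 : ℝ) < d := by exact_mod_cast hd
  have hapos : 0 < a := Real.sqrt_pos.2 (by positivity)
  set K : ℝ := 4 * (a + 1) with hK
  have hKpos : 0 < K := by positivity
  set l : ℝ := -Real.log q with hl
  have hlnn : 0 ≤ l := by
    rw [hl]; linarith [Real.log_nonpos hq.le hq1]
  refine ⟨30 + 4 * l * K ^ d + 2 * K + 2 / ε, by positivity, ?_⟩
  intro lam hlam hlam1 L hL
  set C : ℝ := 30 + 4 * l * K ^ d + 2 * K + 2 / ε with hC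
  have hCpos : 0 < C := by positivity
  set t : ℝ := 1 / Real.sqrt lam with ht
  have hsq : 0 < Real.sqrt lam := Real.sqrt_pos.2 hlam
  have hsq1 : Real.sqrt lam ≤ 1 := by
    rw [← Real.sqrt_one]; exact Real.sqrt_le_sqrt hlam1
  have ht1 : 1 ≤ t := by
    rw [ht, le_div_iff₀ hsq]; linarith
  have htd : t ≤ t ^ d := le_self_pow₀ ht1 (by omega)
  have htd1 : 1 ≤ t ^ d := ht1.trans htd
  have hCt : C / Real.sqrt lam ^ d = C * t ^ d := by
    rw [ht, one_div, inv_pow]; rfl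
  rw [hCt] at hL
  have hLpos : (0 : ℝ) < L := lt_of_lt_of_le (Real.exp_pos _) hL
  set Λ : ℝ := Real.log L with hΛ
  have hLe : Real.exp Λ = L := Real.exp_log hLpos
  have hΛC : C * t ^ d ≤ Λ := by
    rw [hΛ, Real.le_log_iff_exp_le hLpos]; exact hL
  have hΛC' : C ≤ Λ := le_trans (by nlinarith) hΛC
  have hΛL : Λ ≤ L := by
    rw [← hLe]; linarith [Real.add_one_le_exp Λ]
  have hC30 : 30 ≤ C := by
    have h1 : 0 ≤ 4 * l * K ^ d := by positivity
    have h2 : 0 ≤ 2 / ε := by positivity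
    rw [hC]; linarith
  have hΛ30 : 30 ≤ Λ := hC30.trans hΛC'
  set ρ : ℕ := ⌈a * t⌉₊ with hρ
  have hat : 0 < a * t := by positivity
  have hρ1 : 1 ≤ ρ := Nat.ceil_pos.2 hat
  have hρ0 : (0 : ℝ) < ρ := by exact_mod_cast hρ1
  have hρlow : a * t ≤ ρ := Nat.le_ceil _
  have hρup : (ρ : ℝ) ≤ a * t + 1 := (Nat.ceil_lt_add_one hat.le).le
  have hs : ((4 * ρ : ℕ) : ℝ) ≤ K * t := by
    push_cast
    rw [hK]; nlinarith
  have hspos : (0 : ℝ) < ((4 * ρ : ℕ) : ℝ) := by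
    push_cast; positivity
  refine ⟨ρ, hρ1, ?_, ?_, ?_, ?_⟩
  · have h1 : (a * t) ^ 2 ≤ (ρ : ℝ) ^ 2 := pow_le_pow_left₀ hat.le hρlow 2
    have h2 : (a * t) ^ 2 = 2 * d / ε / lam := by
      rw [mul_pow, ha, Real.sq_sqrt (by positivity), ht, div_pow, Real.sq_sqrt hlam.le]
      ring
    rw [h2] at h1
    rw [mul_div_assoc', div_le_iff₀ (by positivity)]
    rw [div_div, div_le_iff₀ (by positivity)] at h1
    nlinarith
  · set s : ℕ := 4 * ρ with hsdef
    have hs0 : 0 < s := by omega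
    have h2s : 2 * (s : ℝ) ≤ Λ := by
      have h1 : 2 * K ≤ C := by
        have h1 : 0 ≤ 4 * l * K ^ d := by positivity
        have h2 : 0 ≤ 2 / ε := by positivity
        rw [hC]; linarith
      have h2 : 2 * K * t ^ d ≤ C * t ^ d := mul_le_mul_of_nonneg_right h1 (by positivity)
      have h3 : K * t ≤ K * t ^ d := mul_le_mul_of_nonneg_left htd hKpos.le
      linarith
    have hM : (L : ℝ) / Λ ≤ ((L / s : ℕ) : ℝ) := by
      have h1 : (L : ℝ) / s - 1 < ((L / s : ℕ) : ℝ) := by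
        have := Nat.lt_floor_add_one ((L : ℝ) / s)
        rw [Nat.floor_div_natCast, Nat.floor_natCast] at this
        linarith
      have h2 : (L : ℝ) / Λ ≤ (L : ℝ) / s - 1 := by
        rw [div_sub_one hspos.ne', div_le_div_iff₀ (by linarith) hspos]
        have : 2 * (s : ℝ) ≤ L := h2s.trans hΛL
        nlinarith [mul_nonneg (sub_nonneg.2 h2s) (sub_nonneg.2 this)]
      linarith
    have hqs : Real.exp (-(Λ / 4)) ≤ q ^ s ^ d := by
      have h1 : q ^ s ^ d = Real.exp (-(l * (s : ℝ) ^ d)) := by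
        rw [← Real.exp_log (pow_pos hq _), Real.log_pow, hl]
        congr 1
        push_cast; ring
      rw [h1, Real.exp_le_exp]
      have h2 : (s : ℝ) ^ d ≤ K ^ d * t ^ d := by
        rw [← mul_pow]; exact pow_le_pow_left₀ hspos.le hs d
      have h3 : l * (s : ℝ) ^ d ≤ l * (K ^ d * t ^ d) := mul_le_mul_of_nonneg_left h2 hlnn
      have h4 : 4 * l * K ^ d * t ^ d ≤ C * t ^ d := by
        refine mul_le_mul_of_nonneg_right ?_ (by positivity)
        have h2 : 0 ≤ 2 / ε := by positivity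
        rw [hC]; linarith
      nlinarith
    have hq1' : q ^ s ^ d ≤ 1 := pow_le_one₀ hq.le hq1
    have hx : (1 - q ^ s ^ d) ^ (L / s) ≤ Real.exp (-(q ^ s ^ d * ((L / s : ℕ) : ℝ))) := by
      calc (1 - q ^ s ^ d) ^ (L / s) ≤ (Real.exp (-(q ^ s ^ d))) ^ (L / s) :=
            pow_le_pow_left₀ (by linarith) (by linarith [Real.add_one_le_exp (-(q ^ s ^ d))]) _
        _ = _ := by rw [← Real.exp_nat_mul]; congr 1; ring
    have hbig : 2 * Λ ≤ q ^ s ^ d * ((L / s : ℕ) : ℝ) := by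
      have h1 : Real.exp (-(Λ / 4)) * ((L : ℝ) / Λ) ≤ q ^ s ^ d * ((L / s : ℕ) : ℝ) :=
        mul_le_mul hqs hM (by positivity) (by positivity)
      refine le_trans ?_ h1
      have h2 : Real.exp (-(Λ / 4)) * ((L : ℝ) / Λ) = Real.exp (3 * Λ / 4) / Λ := by
        rw [← hLe]
        rw [mul_div_assoc', ← Real.exp_add]; congr 2; ring
      rw [h2, le_div_iff₀ (by linarith)]
      have h3 := Real.pow_div_factorial_le_exp (3 * Λ / 4) (by linarith) 3
      have h4 : (Nat.factorial 3 : ℝ) = 6 := by norm_num [Nat.factorial]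
      rw [h4] at h3
      refine le_trans ?_ h3
      rw [le_div_iff₀ (by norm_num)]
      nlinarith [sq_nonneg Λ, mul_nonneg (sq_nonneg Λ) (by linarith : (0 : ℝ) ≤ Λ - 30)]
    refine hx.trans ?_
    have h5 : Real.exp (-(q ^ s ^ d * ((L / s : ℕ) : ℝ))) ≤ Real.exp (-(2 * Λ)) := by
      rw [Real.exp_le_exp]; linarith
    refine h5.trans ?_
    have h6 : Real.exp (-(2 * Λ)) = 1 / ((L : ℝ) * L) := by
      rw [Real.exp_neg, two_mul, Real.exp_add, hLe, one_div]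
    rw [h6]
    apply one_div_le_one_div_of_le (by positivity)
    nlinarith
  · have h1 : 2 / ε ≤ C := by
      have h1 : 0 ≤ 4 * l * K ^ d := by positivity
      rw [hC]; linarith
    linarith
  · have : (2 : ℝ) ≤ L := by linarith
    exact_mod_cast this

theorem upper (d : ℕ) (hd : 3 ≤ d) (μ : Measure ℝ) [IsProbabilityMeasure μ]
    (hμ : μ (Set.Icc (-1) 1)ᶜ = 0) (hnd : ∀ a : ℝ, μ {a} ≠ 1) :
    ∃ C : ℝ, 0 < C ∧ ∃ η : ℝ, 0 < η ∧ ∀ lam : ℝ, 0 < lam → lam ≤ 1 →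
      ∀ (L : ℕ) [NeZero L], Real.exp (C / Real.sqrt lam ^ d) ≤ (L : ℝ) →
      ∃ G : Set (T d L → ℝ), MeasurableSet G ∧
        1 - 1 / (L : ℝ) ≤ (Measure.pi fun _ : T d L => μ).real G ∧
        ∀ V ∈ G, ¬ ∃ (E0 : ℝ) (ψ : T d L → ℝ), (∀ x, 1 ≤ ψ x ∧ ψ x ≤ 1 + η) ∧
          ∀ x, Hop lam V ψ x = E0 * ψ x := by
  obtain ⟨ε, hε, hq⟩ := nondeg μ hμ hnd
  set m := ∫ v, v ∂μ with hm
  set q := μ.real (Set.Iic (m - 4 * ε)) with hqd
  have hq1 : q ≤ 1 := measureReal_le_one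
  have hae : ∀ᵐ v ∂μ, v ∈ Set.Icc (-1 : ℝ) 1 := by
    rw [ae_iff]; exact hμ
  have hm1 : m ≤ 1 := by
    have hint : Integrable (fun v : ℝ => v) μ :=
      (memLp_of_bounded hae aestronglyMeasurable_id 2).integrable (by norm_num)
    have h1 : ∫ v, v ∂μ ≤ ∫ _, (1 : ℝ) ∂μ := by
      refine integral_mono_ae hint (integrable_const 1) ?_
      filter_upwards [hae] with v hv
      exact hv.2
    simpa using h1
  obtain ⟨C, hC, hnum⟩ := numeric d (by omega) q ε hq hq1 hε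
  refine ⟨C, hC, ε / 3, by positivity, ?_⟩
  intro lam hlam hlam1 L _ hL
  obtain ⟨ρ, hρ, h1, h2, h3, h4⟩ := hnum lam hlam hlam1 L hL
  set P := Measure.pi fun _ : T d L => μ with hP
  set N : ℝ := (Fintype.card (T d L) : ℝ) with hN
  have hNL : N = (L : ℝ) ^ d := by
    rw [hN, Fintype.card_fun, ZMod.card, Fintype.card_fin]; push_cast; rfl
  set G1 : Set (T d L → ℝ) := {V | ∑ x, V x < (m - ε) * N} with hG1
  set G2 : Set (T d L → ℝ) := {V | ∀ b < L / (4 * ρ), ∃ x ∈ Sb d L (4 * ρ) b, V x ∉ Set.Iic (m - 4 * ε)} with hG2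
  set G3 : Set (T d L → ℝ) := {V | ∀ x, V x ∈ Set.Icc (-1 : ℝ) 1}ᶜ with hG3
  have m1 : MeasurableSet G1 := measurableSet_lt (Finset.measurable_sum _ fun i _ => measurable_pi_apply i) measurable_const
  have m2 : MeasurableSet G2 := by
    have : G2 = ⋂ b ∈ Finset.range (L / (4 * ρ)), ⋃ x ∈ Sb d L (4 * ρ) b, (fun V : T d L → ℝ => V x) ⁻¹' (Set.Iic (m - 4 * ε))ᶜ := by
      ext V
      simp [hG2]
    rw [this]
    exact Finset.measurableSet_biInter _ fun b _ => Finset.measurableSet_biUnion _ fun x _ =>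
      (measurable_pi_apply x) measurableSet_Iic.compl
  have m3 : MeasurableSet G3 := by
    refine MeasurableSet.compl ?_
    have : {V : T d L → ℝ | ∀ x, V x ∈ Set.Icc (-1 : ℝ) 1} = ⋂ x, (fun V : T d L → ℝ => V x) ⁻¹' (Set.Icc (-1 : ℝ) 1) := by
      ext V
      simp
    rw [this]
    exact MeasurableSet.iInter fun x => (measurable_pi_apply x) measurableSet_Icc
  have p1 : P.real G1 ≤ 1 / (2 * (L : ℝ)) := by
    refine (cheb μ hμ ε hε).trans ?_
    rw [← hN, hNL]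
    have hL0 : (0 : ℝ) < L := by
      have : (2 : ℝ) ≤ L := by exact_mod_cast h4
      linarith
    apply one_div_le_one_div_of_le (by positivity)
    have h5 : (2 : ℝ) ≤ L * ε := by
      rwa [div_le_iff₀ hε] at h3
    have h6 : (L : ℝ) ^ 3 ≤ (L : ℝ) ^ d := by
      have : (1 : ℝ) ≤ L := by
        have : (2 : ℝ) ≤ L := by exact_mod_cast h4
        linarith
      exact pow_le_pow_right₀ this hd
    have h7 : 2 * (L : ℝ) ≤ ε ^ 2 * (L : ℝ) ^ 3 := by
      have h8 : 4 ≤ (L * ε) ^ 2 := by nlinarith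
      have h9 : ε ^ 2 * (L : ℝ) ^ 3 = (L * ε) ^ 2 * L := by ring
      rw [h9]; nlinarith
    have h8 : ε ^ 2 * (L : ℝ) ^ 3 ≤ ε ^ 2 * (L : ℝ) ^ d := mul_le_mul_of_nonneg_left h6 (by positivity)
    linarith
  have p2 : P.real G2 ≤ 1 / (2 * (L : ℝ)) :=
    (blocks μ (Set.Iic (m - 4 * ε)) measurableSet_Iic (Sb d L (4 * ρ))
      (Sb_disj d L (4 * ρ) (by omega)) ((4 * ρ) ^ d) (Sb_card d L (4 * ρ) (by omega)) _).trans h2
  have p3 : P.real G3 = 0 := by
    have : P G3 = 0 := by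
      have h5 : ∀ᵐ V ∂P, ∀ x, V x ∈ Set.Icc (-1 : ℝ) 1 := by
        rw [ae_all_iff]
        intro x
        exact (measurePreserving_eval (fun _ : T d L => μ) x).quasiMeasurePreserving.ae hae
      rw [ae_iff] at h5
      exact h5
    rw [Measure.real, this]; rfl
  refine ⟨(G1 ∪ G2 ∪ G3)ᶜ, ((m1.union m2).union m3).compl, ?_, ?_⟩
  · rw [probReal_compl_eq_one_sub ((m1.union m2).union m3)]
    have h5 := measureReal_union_le (μ := P) (G1 ∪ G2) G3
    have h6 := measureReal_union_le (μ := P) G1 G2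
    have h7 : 1 / (L : ℝ) = 1 / (2 * (L : ℝ)) + 1 / (2 * (L : ℝ)) := by
      have hL0 : (0 : ℝ) < L := by
        have : (2 : ℝ) ≤ L := by exact_mod_cast h4
        linarith
      field_simp; norm_num
    linarith
  · rintro V hV ⟨E0, ψ, hψ, hE⟩
    rw [Set.mem_compl_iff, Set.mem_union, Set.mem_union] at hV
    push Not at hV
    obtain ⟨⟨hV1, hV2⟩, hV3⟩ := hV
    rw [hG1, Set.mem_ofPred_eq, not_lt] at hV1
    rw [hG2, Set.mem_ofPred_eq] at hV2
    push Not at hV2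
    obtain ⟨b, hb, hbV⟩ := hV2
    rw [hG3, Set.mem_compl_iff, not_not, Set.mem_ofPred_eq] at hV3
    have hlow := low_E0 lam hlam V ψ (ε / 3) E0 (m - ε) (by positivity) (by linarith)
      (fun x => abs_le.2 ⟨(hV3 x).1, (hV3 x).2⟩) hψ hE hV1
    have hb' : 4 * ρ * (b + 1) ≤ L := by
      have : b + 1 ≤ L / (4 * ρ) := hb
      calc 4 * ρ * (b + 1) ≤ 4 * ρ * (L / (4 * ρ)) := Nat.mul_le_mul_left _ this
        _ ≤ L := Nat.mul_div_le _ _
    have hup := up_E0 lam hlam.le V ψ E0 (fun x => lt_of_lt_of_le one_pos (hψ x).1) hE ρ b hρ hb'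
      (m - 4 * ε) (fun x hx => by
        have := hbV x hx
        simpa using this)
    have : lam * (m - ε - 2 * (ε / 3)) ≤ lam * (m - 3 * ε) := by
      calc _ ≤ E0 := hlow
        _ ≤ _ := hup
        _ ≤ _ := by nlinarith
    have := le_of_mul_le_mul_left this hlam
    linarith

end Upper
end Pool.Agent.H4R2.AE
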