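import Pool.Agent.H4R2.AE.Defs
import Pool.Agent.H4R2.AE.Upper

set_option autoImplicit false

open scoped BigOperators ENNReal
open MeasureTheory ProbabilityTheory

namespace Pool.Agent.H4R2.AE
namespace Upperg

lemma sq_int : ∫ v : ℝ, v ^ 2 ∂(gaussianReal 0 1) = 1 := by
  have h := variance_eq_sub (μ := gaussianReal 0 1) (X := fun v : ℝ => v) (memLp_id_gaussianReal 2)
  have h1 : Var[fun v : ℝ => v; gaussianReal 0 1] = 1 := by
    simpa using (variance_fun_id_gaussianReal (μ := 0) (v := 1))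
  have h2 : ∫ v : ℝ, v ∂(gaussianReal 0 1) = 0 := by
    simpa using (integral_id_gaussianReal (μ := 0) (v := 1))
  rw [h1, h2] at h
  simp only [Pi.pow_apply] at h
  linarith

lemma cheb {ι : Type} [Fintype ι] [DecidableEq ι] [Nonempty ι] :
    (Measure.pi fun _ : ι => gaussianReal 0 1).real {V | 2 * (Fintype.card ι : ℝ) < ∑ x, |V x|} ≤
      1 / (Fintype.card ι : ℝ) := by
  set μ := gaussianReal 0 1 with hμ
  set P := Measure.pi fun _ : ι => μ with hP
  set m := ∫ v, |v| ∂μ with hm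
  have hL : MemLp (fun v : ℝ => |v|) 2 μ := (memLp_id_gaussianReal 2).abs
  have hvm : Var[fun v : ℝ => |v|; μ] = 1 - m ^ 2 := by
    have h := variance_eq_sub (μ := μ) (X := fun v : ℝ => |v|) hL
    rw [h, ← hm]
    congr 1
    have : ∫ v, ((fun v : ℝ => |v|) ^ 2) v ∂μ = ∫ v : ℝ, v ^ 2 ∂μ := by
      refine integral_congr_ae (Filter.Eventually.of_forall fun v => ?_)
      simp
    rw [this, hμ, sq_int]
  have hm0 : 0 ≤ m := integral_nonneg fun v => abs_nonneg v
  have hm1 : m ≤ 1 := by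
    have := variance_nonneg (fun v : ℝ => |v|) μ
    rw [hvm] at this
    nlinarith
  have hvar : Var[∑ i : ι, fun ω : ι → ℝ => |ω i|; P] ≤ Fintype.card ι := by
    rw [hP, variance_sum_pi (X := fun (_ : ι) (v : ℝ) => |v|) (fun _ => hL)]
    have h2 : Var[fun v : ℝ => |v|; μ] ≤ 1 := by
      rw [hvm]; nlinarith
    rw [Finset.sum_const, Finset.card_univ, nsmul_eq_mul]
    nlinarith [(Nat.cast_nonneg (Fintype.card ι) : (0 : ℝ) ≤ _)]
  have hmem : MemLp (∑ i : ι, fun ω : ι → ℝ => |ω i|) 2 P :=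
    memLp_finsetSum' _ fun i _ => hL.comp_measurePreserving (measurePreserving_eval (fun _ : ι => μ) i)
  have hexp : P[∑ i : ι, fun ω : ι → ℝ => |ω i|] = m * Fintype.card ι := by
    have h1 : ∀ i : ι, Integrable (fun ω : ι → ℝ => |ω i|) P := fun i =>
      (hL.comp_measurePreserving (measurePreserving_eval (fun _ : ι => μ) i)).integrable (by norm_num)
    have h2 : ∫ ω, (∑ i : ι, fun ω : ι → ℝ => |ω i|) ω ∂P = ∑ i : ι, ∫ ω, |ω i| ∂P := by
      simp only [Finset.sum_apply]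
      exact integral_finsetSum _ fun i _ => h1 i
    rw [h2]
    have h3 : ∀ i : ι, ∫ ω, |ω i| ∂P = m := fun i =>
      integral_comp_eval (μ := fun _ : ι => μ) (f := fun v : ℝ => |v|) (i := i)
        (by fun_prop)
    rw [Finset.sum_congr rfl fun i _ => h3 i, Finset.sum_const, Finset.card_univ, nsmul_eq_mul]
    ring
  have hN : (0 : ℝ) < Fintype.card ι := by exact_mod_cast Fintype.card_pos
  have h := meas_ge_le_variance_div_sq hmem hN
  have hsub : {V : ι → ℝ | 2 * (Fintype.card ι : ℝ) < ∑ x, |V x|} ⊆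
      {ω | (Fintype.card ι : ℝ) ≤ |(∑ i : ι, fun ω : ι → ℝ => |ω i|) ω -
        P[∑ i : ι, fun ω : ι → ℝ => |ω i|]|} := by
    intro V hV
    simp only [Set.mem_ofPred_eq] at hV ⊢
    rw [hexp, Finset.sum_apply, le_abs]
    left
    nlinarith
  have h5 : P.real {V : ι → ℝ | 2 * (Fintype.card ι : ℝ) < ∑ x, |V x|} ≤
      Var[∑ i : ι, fun ω : ι → ℝ => |ω i|; P] / (Fintype.card ι : ℝ) ^ 2 := by
    rw [Measure.real]
    exact ENNReal.toReal_le_of_le_ofReal (div_nonneg (variance_nonneg _ _) (sq_nonneg _))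
      ((measure_mono hsub).trans h)
  refine h5.trans ?_
  rw [div_le_div_iff₀ (by positivity) (by positivity)]
  nlinarith [mul_le_mul_of_nonneg_right hvar hN.le]

lemma tail (a : ℝ) (ha : 0 ≤ a) :
    Real.exp (-((a + 1) ^ 2 / 2) - 1) ≤ (gaussianReal 0 1).real (Set.Iio (-a)) := by
  have h1 : ENNReal.ofReal (Real.exp (-((a + 1) ^ 2 / 2) - 1)) ≤ gaussianReal 0 1 (Set.Iio (-a)) := by
    rw [gaussianReal_apply 0 (by norm_num)]
    calc ENNReal.ofReal (Real.exp (-((a + 1) ^ 2 / 2) - 1))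
        = ∫⁻ x in Set.Ioo (-a - 1) (-a), ENNReal.ofReal (Real.exp (-((a + 1) ^ 2 / 2) - 1)) := by
          rw [setLIntegral_const, Real.volume_Ioo]
          have : -a - (-a - 1) = 1 := by ring
          rw [this]; simp
      _ ≤ ∫⁻ x in Set.Ioo (-a - 1) (-a), gaussianPDF 0 1 x := by
          refine setLIntegral_mono (measurable_gaussianPDF 0 1) fun x hx => ?_
          rw [gaussianPDF]
          apply ENNReal.ofReal_le_ofReal
          rw [gaussianPDFReal]
          have hpi : Real.exp (-1) ≤ (Real.sqrt (2 * Real.pi * (1 : NNReal)))⁻¹ := by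
            rw [Real.exp_neg]
            apply inv_anti₀ (by positivity)
            rw [Real.sqrt_le_left (by positivity)]
            have h3 := Real.exp_one_gt_d9
            have h4 := Real.pi_lt_d2
            simp only [NNReal.coe_one, mul_one]
            nlinarith
          have hexp : Real.exp (-((a + 1) ^ 2 / 2)) ≤
              Real.exp (-(x - 0) ^ 2 / (2 * (1 : NNReal))) := by
            rw [Real.exp_le_exp]
            simp only [NNReal.coe_one, mul_one, sub_zero]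
            have := hx.1
            have := hx.2
            nlinarith
          rw [sub_eq_add_neg, Real.exp_add, mul_comm]
          exact mul_le_mul hpi hexp (by positivity) (by positivity)
      _ ≤ ∫⁻ x in Set.Iio (-a), gaussianPDF 0 1 x :=
          lintegral_mono_set fun x hx => hx.2
  rw [Measure.real]
  exact (ENNReal.ofReal_le_iff_le_toReal (measure_ne_top _ _)).1 h1

lemma none_prob {ι : Type} [Fintype ι] [DecidableEq ι] (a : ℝ) :
    (Measure.pi fun _ : ι => gaussianReal 0 1).real {V | ∀ x, V x ∈ (Set.Iio (-a))ᶜ} ≤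
      Real.exp (-((gaussianReal 0 1).real (Set.Iio (-a)) * (Fintype.card ι : ℝ))) := by
  have h1 : {V : ι → ℝ | ∀ x, V x ∈ (Set.Iio (-a))ᶜ} = Set.univ.pi fun _ => (Set.Iio (-a))ᶜ := by
    ext V; simp only [Set.mem_ofPred_eq, Set.mem_pi, Set.mem_univ, true_imp_iff]
  rw [h1, Measure.real, Measure.pi_pi, ENNReal.toReal_prod]
  have h2 : ∀ i ∈ (Finset.univ : Finset ι), ((gaussianReal 0 1) (Set.Iio (-a))ᶜ).toReal =
      1 - (gaussianReal 0 1).real (Set.Iio (-a)) := fun i _ =>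
    probReal_compl_eq_one_sub measurableSet_Iio
  rw [Finset.prod_congr rfl h2, Finset.prod_const, Finset.card_univ]
  have hp : (gaussianReal 0 1).real (Set.Iio (-a)) ≤ 1 := measureReal_le_one
  set p := (gaussianReal 0 1).real (Set.Iio (-a)) with hpd
  calc (1 - p) ^ Fintype.card ι ≤ (Real.exp (-p)) ^ Fintype.card ι :=
        pow_le_pow_left₀ (by linarith) (by linarith [Real.add_one_le_exp (-p)]) _
    _ = _ := by rw [← Real.exp_nat_mul]; congr 1; ring

lemma det {d L : ℕ} [NeZero L] (σ : ℝ) (hσ : 0 < σ) (hσ1 : σ ≤ 1) (ξ : T d L → ℝ)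
    (hs : ∑ x, |ξ x| ≤ 2 * (Fintype.card (T d L) : ℝ)) (z : T d L)
    (hz : ξ z < -((2 * (d : ℝ) + 5) / σ)) :
    ¬ ∃ (E0 : ℝ) (ψ : T d L → ℝ), (∀ x, 1 ≤ ψ x ∧ ψ x ≤ 2) ∧ ∀ x, Hop σ ξ ψ x = E0 * ψ x := by
  rintro ⟨E0, ψ, hψ, hE⟩
  set N : ℝ := (Fintype.card (T d L) : ℝ) with hN
  set S : ℝ := ∑ x, ψ x with hS
  have hNpos : 0 < N := by
    rw [hN]
    exact_mod_cast Fintype.card_pos
  have hNS : N ≤ S := by
    have : ∑ x : T d L, (1 : ℝ) ≤ S := Finset.sum_le_sum fun x _ => (hψ x).1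
    simpa [hN] using this
  have h1 : E0 * S = σ * ∑ x, ξ x * ψ x := by
    rw [← Upper.sum_hop, hS, Finset.mul_sum]
    exact Finset.sum_congr rfl fun x _ => (hE x).symm
  have h2 : -(2 * ∑ x, |ξ x|) ≤ ∑ x, ξ x * ψ x := by
    rw [Finset.mul_sum, ← Finset.sum_neg_distrib]
    refine Finset.sum_le_sum fun x _ => ?_
    have h3 := neg_abs_le (ξ x)
    have h4 := hψ x
    have h5 := abs_nonneg (ξ x)
    nlinarith
  have h3 : -4 * S ≤ E0 * S := by
    rw [h1]
    have h4 : -(4 * N) ≤ ∑ x, ξ x * ψ x := by linarith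
    have h5 : -(4 * N) ≤ σ * ∑ x, ξ x * ψ x := by
      rcases le_total 0 (∑ x, ξ x * ψ x) with h | h
      · have := mul_nonneg hσ.le h
        linarith
      · nlinarith
    linarith
  have hE0 : -4 ≤ E0 := le_of_mul_le_mul_right h3 (by linarith)
  have h6 := Upper.ground σ ξ ψ E0 (fun x => lt_of_lt_of_le one_pos (hψ x).1) hE
    (fun x => if x = z then 1 else 0)
  have h7 : ∑ x : T d L, (if x = z then (1 : ℝ) else 0) ^ 2 = 1 := by
    simp
  rw [h7, mul_one] at h6
  have h8 : ∑ x, (if x = z then (1 : ℝ) else 0) * Hop σ ξ (fun x => if x = z then 1 else 0) x =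
      Hop σ ξ (fun x => if x = z then 1 else 0) z := by
    simp
  rw [h8] at h6
  have h9 : Hop σ ξ (fun x => if x = z then 1 else 0) z ≤ 2 * (d : ℝ) + σ * ξ z := by
    unfold Hop
    have h10 : ∑ i : Fin d, (2 * (if z = z then (1 : ℝ) else 0) -
        (if z + Pi.single i 1 = z then (1 : ℝ) else 0) -
        (if z - Pi.single i 1 = z then (1 : ℝ) else 0)) ≤ ∑ i : Fin d, (2 : ℝ) := by
      refine Finset.sum_le_sum fun i _ => ?_
      have h11 : (0 : ℝ) ≤ (if z + Pi.single i 1 = z then (1 : ℝ) else 0) := by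
        split_ifs <;> norm_num
      have h12 : (0 : ℝ) ≤ (if z - Pi.single i 1 = z then (1 : ℝ) else 0) := by
        split_ifs <;> norm_num
      rw [if_pos rfl]
      linarith
    rw [Finset.sum_const, Finset.card_univ, Fintype.card_fin, nsmul_eq_mul] at h10
    have h13 : σ * ξ z * (if z = z then (1 : ℝ) else 0) = σ * ξ z := by simp
    rw [h13]
    linarith
  have h14 : σ * ξ z < -(2 * (d : ℝ) + 5) := by
    have := mul_lt_mul_of_pos_left hz hσ
    have h15 : σ * -((2 * (d : ℝ) + 5) / σ) = -(2 * (d : ℝ) + 5) := by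
      field_simp
    linarith
  linarith

theorem upper (d : ℕ) (hd : 1 ≤ d) : ∃ C : ℝ, 0 < C ∧ ∀ σ : ℝ, 0 < σ → σ ≤ 1 →
      ∀ (L : ℕ) [NeZero L], Real.exp (C / σ ^ 2) ≤ (L : ℝ) →
      ∃ G : Set (T d L → ℝ), MeasurableSet G ∧
        1 - 1 / Real.sqrt (L : ℝ) ≤ (Measure.pi fun _ : T d L => gaussianReal 0 1).real G ∧
        ∀ ξ ∈ G, ¬ ∃ (E0 : ℝ) (ψ : T d L → ℝ), (∀ x, 1 ≤ ψ x ∧ ψ x ≤ 2) ∧
          ∀ x, Hop σ ξ ψ x = E0 * ψ x := by
  refine ⟨2 * (2 * (d : ℝ) + 6) ^ 2 + 4, by positivity, ?_⟩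
  intro σ hσ hσ1 L _ hL
  set C : ℝ := 2 * (2 * (d : ℝ) + 6) ^ 2 + 4 with hC
  set P := Measure.pi fun _ : T d L => gaussianReal 0 1 with hP
  set N : ℝ := (Fintype.card (T d L) : ℝ) with hN
  have hNL : N = (L : ℝ) ^ d := by
    rw [hN, Fintype.card_fun, ZMod.card, Fintype.card_fin]; push_cast; rfl
  set a : ℝ := (2 * (d : ℝ) + 5) / σ with ha
  have ha0 : 0 ≤ a := by positivity
  set G1 : Set (T d L → ℝ) := {V | 2 * N < ∑ x, |V x|} with hG1
  set G2 : Set (T d L → ℝ) := {V | ∀ x, V x ∈ (Set.Iio (-a))ᶜ} with hG2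
  have m1 : MeasurableSet G1 := measurableSet_lt measurable_const
    (Finset.measurable_sum _ fun i _ => (measurable_pi_apply i).abs)
  have m2 : MeasurableSet G2 := by
    have : G2 = ⋂ x, (fun V : T d L → ℝ => V x) ⁻¹' (Set.Iio (-a))ᶜ := by
      ext V
      simp [hG2]
    rw [this]
    exact MeasurableSet.iInter fun x => (measurable_pi_apply x) measurableSet_Iio.compl
  have hLpos : (0 : ℝ) < L := lt_of_lt_of_le (Real.exp_pos _) hL
  set Λ : ℝ := Real.log L with hΛ
  have hLe : Real.exp Λ = L := Real.exp_log hLpos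
  have hΛC : C / σ ^ 2 ≤ Λ := by
    rw [hΛ, Real.le_log_iff_exp_le hLpos]; exact hL
  have hσ2 : σ ^ 2 ≤ 1 := by nlinarith
  have hCσ : C ≤ C / σ ^ 2 := by
    rw [le_div_iff₀ (by positivity)]
    have : 0 ≤ C := by positivity
    nlinarith
  have hΛ4 : 4 ≤ Λ := by
    have : 4 ≤ C := by
      rw [hC]; nlinarith [sq_nonneg (2 * (d : ℝ) + 6)]
    linarith
  have hL1 : (1 : ℝ) ≤ L := by
    rw [← hLe]; exact Real.one_le_exp (by linarith)
  have hLN : (L : ℝ) ≤ N := by
    rw [hNL]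
    exact le_self_pow₀ hL1 (by omega)
  have hsq : Real.sqrt (L : ℝ) = Real.exp (Λ / 2) := by
    rw [← hLe, show Λ = Λ / 2 + Λ / 2 by ring, Real.exp_add, Real.sqrt_mul_self (Real.exp_pos _).le]
    congr 1; ring
  have p1 : P.real G1 ≤ Real.exp (-Λ) := by
    refine (cheb (ι := T d L)).trans ?_
    rw [← hN, Real.exp_neg, hLe, ← one_div]
    exact one_div_le_one_div_of_le hLpos hLN
  have p2 : P.real G2 ≤ Real.exp (-(3 * Λ / 4)) := by
    refine (none_prob (ι := T d L) a).trans ?_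
    rw [← hN]
    have h1 := tail a ha0
    have h2 : Real.exp (-(Λ / 4)) ≤ Real.exp (-((a + 1) ^ 2 / 2) - 1) := by
      rw [Real.exp_le_exp]
      have h3 : a + 1 ≤ (2 * (d : ℝ) + 6) / σ := by
        rw [ha, div_add_one hσ.ne']
        apply div_le_div_of_nonneg_right _ hσ.le
        linarith
      have h4 : (a + 1) ^ 2 ≤ (2 * (d : ℝ) + 6) ^ 2 / σ ^ 2 := by
        rw [← div_pow]
        exact pow_le_pow_left₀ (by positivity) h3 2
      have h5 : 1 ≤ 1 / σ ^ 2 := by
        rw [le_div_iff₀ (by positivity)]; linarith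
      have h6 : C / σ ^ 2 = 2 * ((2 * (d : ℝ) + 6) ^ 2 / σ ^ 2) + 4 * (1 / σ ^ 2) := by
        rw [hC]; ring
      linarith
    have h3 : Real.exp (3 * Λ / 4) ≤ (gaussianReal 0 1).real (Set.Iio (-a)) * N := by
      have h4 : Real.exp (3 * Λ / 4) = Real.exp (-(Λ / 4)) * L := by
        rw [← hLe, ← Real.exp_add]; congr 1; ring
      rw [h4]
      exact mul_le_mul (h2.trans h1) hLN hLpos.le measureReal_nonneg
    rw [Real.exp_le_exp]
    have h5 := Real.add_one_le_exp (3 * Λ / 4)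
    linarith
  refine ⟨(G1 ∪ G2)ᶜ, (m1.union m2).compl, ?_, ?_⟩
  · rw [probReal_compl_eq_one_sub (m1.union m2)]
    have h5 := measureReal_union_le (μ := P) G1 G2
    have h6 : Real.exp (-Λ) + Real.exp (-(3 * Λ / 4)) ≤ 1 / Real.sqrt (L : ℝ) := by
      rw [hsq, one_div, ← Real.exp_neg]
      have h7 : Real.exp (-Λ) = Real.exp (-(Λ / 2)) * Real.exp (-(Λ / 2)) := by
        rw [← Real.exp_add]; congr 1; ring
      have h8 : Real.exp (-(3 * Λ / 4)) = Real.exp (-(Λ / 2)) * Real.exp (-(Λ / 4)) := by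
        rw [← Real.exp_add]; congr 1; ring
      rw [h7, h8, ← mul_add]
      have h9 : Real.exp (-(Λ / 2)) ≤ Real.exp (-1) := Real.exp_le_exp.2 (by linarith)
      have h10 : Real.exp (-(Λ / 4)) ≤ Real.exp (-1) := Real.exp_le_exp.2 (by linarith)
      have h11 := Real.exp_neg_one_lt_half
      have h12 : Real.exp (-(Λ / 2)) + Real.exp (-(Λ / 4)) ≤ 1 := by linarith
      calc _ ≤ Real.exp (-(Λ / 2)) * 1 := mul_le_mul_of_nonneg_left h12 (Real.exp_pos _).le
        _ = _ := mul_one _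
    linarith
  · intro ξ hξ
    rw [Set.mem_compl_iff, Set.mem_union] at hξ
    push Not at hξ
    obtain ⟨h1, h2⟩ := hξ
    rw [hG1, Set.mem_ofPred_eq, not_lt] at h1
    rw [hG2, Set.mem_ofPred_eq] at h2
    push Not at h2
    obtain ⟨z, hz⟩ := h2
    rw [Set.mem_compl_iff, not_not, Set.mem_Iio] at hz
    exact det σ hσ hσ1 ξ h1 z hz

end Upperg
end Pool.Agent.H4R2.AE
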